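import Pool.Agent.Lib.MP_4cfb03_an.Defs

/-! # T09: profiles -/

open MeasureTheory Set
open scoped ENNReal ContDiff Topology

namespace Pool.Agent.Lib.MP_4cfb03_an

noncomputable section

/-- A bounded nonempty open convex subset of the line is an open interval. -/
theorem open_convex_real_eq_Ioo {S : Set ℝ} (hne : S.Nonempty) (ho : IsOpen S)
    (hc : Convex ℝ S) (hb : BddBelow S) (ha : BddAbove S) : S = Ioo (sInf S) (sSup S) := by
  apply Subset.antisymm
  · intro x hx
    have h1 : S ⊆ Icc (sInf S) (sSup S) := fun y hy => ⟨csInf_le hb hy, le_csSup ha hy⟩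
    have h2 : S ⊆ interior (Icc (sInf S) (sSup S)) := interior_maximal h1 ho
    rw [interior_Icc] at h2
    exact h2 hx
  · exact IsConnected.Ioo_csInf_csSup_subset ⟨hne, hc.isPreconnected⟩ hb ha

theorem CProf.continuousOn {a b : ℝ} {f F : ℝ → ℝ} (h : CProf a b f F) :
    ContinuousOn f (Ioo a b) := h.cvx.continuousOn isOpen_Ioo

theorem CProf.continuousOn' {a b : ℝ} {f F : ℝ → ℝ} (h : CProf a b f F) :
    ContinuousOn F (Ioo a b) := h.ccv.continuousOn isOpen_Ioo

theorem CProf.neg {a b : ℝ} {f F : ℝ → ℝ} (h : CProf a b f F) :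
    CProf a b (fun x => - F x) (fun x => - f x) where
  lt := h.lt
  cvx := h.ccv.neg
  ccv := h.cvx.neg
  fF := fun x hx => neg_lt_neg (h.fF x hx)
  bdd := by
    obtain ⟨M, hM⟩ := h.bdd
    exact ⟨M, fun x hx => ⟨neg_le_neg (hM x hx).2, by have := (hM x hx).1; linarith⟩⟩

theorem exists_prof {Ω : Set ℂ} (hΩ : Dom Ω) : ∃ a b f F, CProf a b f F ∧ Ω = prof a b f F := by
  obtain ⟨R, hR⟩ := hΩ.bounded.subset_ball 0
  have hR' : ∀ z ∈ Ω, ‖z‖ < R := fun z hz => by simpa using hR hz
  -- the projection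
  set P : Set ℝ := Complex.re '' Ω with hP
  have hPne : P.Nonempty := hΩ.nonempty.image _
  have hPo : IsOpen P := Complex.isOpenMap_re _ hΩ.isOpen
  have hPc : Convex ℝ P := hΩ.convex.linear_image Complex.reLm
  have hPb : BddBelow P := ⟨-R, by
    rintro _ ⟨z, hz, rfl⟩
    have := hR' z hz
    have h2 := (abs_le.mp (Complex.abs_re_le_norm z)).1
    linarith⟩
  have hPa : BddAbove P := ⟨R, by
    rintro _ ⟨z, hz, rfl⟩
    have := hR' z hz
    have h2 := (abs_le.mp (Complex.abs_re_le_norm z)).2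
    linarith⟩
  have hPI := open_convex_real_eq_Ioo hPne hPo hPc hPb hPa
  -- the slices
  set S : ℝ → Set ℝ := fun x => {y | (⟨x, y⟩ : ℂ) ∈ Ω} with hS
  have hcont : ∀ x : ℝ, Continuous (fun y : ℝ => (⟨x, y⟩ : ℂ)) := by
    intro x
    have : (fun y : ℝ => (⟨x, y⟩ : ℂ)) = fun y : ℝ => (x : ℂ) + y * Complex.I := by
      funext y
      apply Complex.ext <;> simp
    rw [this]
    fun_prop
  have hSne : ∀ x ∈ P, (S x).Nonempty := by
    rintro _ ⟨z, hz, rfl⟩
    exact ⟨z.im, by simpa [hS] using hz⟩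
  have hSo : ∀ x, IsOpen (S x) := fun x => hΩ.isOpen.preimage (hcont x)
  have hcomb : ∀ {x1 x2 y1 y2 α β : ℝ}, y1 ∈ S x1 → y2 ∈ S x2 → 0 ≤ α → 0 ≤ β → α + β = 1 →
      α * y1 + β * y2 ∈ S (α * x1 + β * x2) := by
    intro x1 x2 y1 y2 α β h1 h2 hα hβ hab
    have := hΩ.convex h1 h2 hα hβ hab
    have e : α • (⟨x1, y1⟩ : ℂ) + β • (⟨x2, y2⟩ : ℂ) = ⟨α * x1 + β * x2, α * y1 + β * y2⟩ := by
      apply Complex.ext <;> simp
    rw [e] at this
    exact this
  have hSc : ∀ x, Convex ℝ (S x) := by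
    intro x y1 h1 y2 h2 α β hα hβ hab
    have := hcomb h1 h2 hα hβ hab
    have e : α * x + β * x = x := by rw [← add_mul, hab, one_mul]
    rw [e] at this
    exact this
  have hSbd : ∀ x, ∀ y ∈ S x, -R ≤ y ∧ y ≤ R := by
    intro x y hy
    have h1 := hR' _ hy
    have h2 := abs_le.mp (Complex.abs_im_le_norm (⟨x, y⟩ : ℂ))
    simp only at h2
    constructor <;> linarith [h2.1, h2.2]
  have hSb : ∀ x, BddBelow (S x) := fun x => ⟨-R, fun y hy => (hSbd x y hy).1⟩
  have hSa : ∀ x, BddAbove (S x) := fun x => ⟨R, fun y hy => (hSbd x y hy).2⟩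
  have hSI : ∀ x ∈ P, S x = Ioo (sInf (S x)) (sSup (S x)) := fun x hx =>
    open_convex_real_eq_Ioo (hSne x hx) (hSo x) (hSc x) (hSb x) (hSa x)
  have hlt : sInf P < sSup P := by
    obtain ⟨x, hx⟩ := hPne
    rw [hPI] at hx
    exact hx.1.trans hx.2
  have hPI' : ∀ x, x ∈ Ioo (sInf P) (sSup P) → x ∈ P := fun x hx => by rw [hPI]; exact hx
  refine ⟨sInf P, sSup P, fun x => sInf (S x), fun x => sSup (S x), ?_, ?_⟩
  · refine ⟨hlt, ?_, ?_, ?_, ?_⟩
    · refine ⟨convex_Ioo _ _, ?_⟩
      intro x1 hx1 x2 hx2 α β hα hβ hab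
      simp only [smul_eq_mul]
      refine le_of_forall_pos_le_add fun ε hε => ?_
      obtain ⟨y1, hy1, hy1'⟩ := exists_lt_of_csInf_lt (hSne x1 (hPI' _ hx1)) (lt_add_of_pos_right _ hε)
      obtain ⟨y2, hy2, hy2'⟩ := exists_lt_of_csInf_lt (hSne x2 (hPI' _ hx2)) (lt_add_of_pos_right _ hε)
      have h3 := csInf_le (hSb _) (hcomb hy1 hy2 hα hβ hab)
      have h4 : α * y1 + β * y2 ≤ α * (sInf (S x1) + ε) + β * (sInf (S x2) + ε) :=
        add_le_add (mul_le_mul_of_nonneg_left hy1'.le hα) (mul_le_mul_of_nonneg_left hy2'.le hβ)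
      have h5 : α * (sInf (S x1) + ε) + β * (sInf (S x2) + ε) =
        α * sInf (S x1) + β * sInf (S x2) + (α + β) * ε := by ring
      rw [h5, hab, one_mul] at h4
      exact h3.trans h4
    · refine ⟨convex_Ioo _ _, ?_⟩
      intro x1 hx1 x2 hx2 α β hα hβ hab
      simp only [smul_eq_mul]
      refine le_of_forall_pos_le_add fun ε hε => ?_
      obtain ⟨y1, hy1, hy1'⟩ := exists_lt_of_lt_csSup (hSne x1 (hPI' _ hx1)) (sub_lt_self _ hε)
      obtain ⟨y2, hy2, hy2'⟩ := exists_lt_of_lt_csSup (hSne x2 (hPI' _ hx2)) (sub_lt_self _ hε)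
      have h3 := le_csSup (hSa _) (hcomb hy1 hy2 hα hβ hab)
      have h4 : α * (sSup (S x1) - ε) + β * (sSup (S x2) - ε) ≤ α * y1 + β * y2 :=
        add_le_add (mul_le_mul_of_nonneg_left hy1'.le hα) (mul_le_mul_of_nonneg_left hy2'.le hβ)
      have h5 : α * (sSup (S x1) - ε) + β * (sSup (S x2) - ε) =
        α * sSup (S x1) + β * sSup (S x2) - (α + β) * ε := by ring
      rw [h5, hab, one_mul] at h4
      linarith
    · intro x hx
      have hx := hPI' _ hx
      obtain ⟨y, hy⟩ := hSne x hx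
      rw [hSI x hx] at hy
      exact hy.1.trans hy.2
    · refine ⟨R, fun x hx => ?_⟩
      have hx := hPI' _ hx
      exact ⟨le_csInf (hSne x hx) fun y hy => (hSbd x y hy).1,
        csSup_le (hSne x hx) fun y hy => (hSbd x y hy).2⟩
  · ext z
    change z ∈ Ω ↔ z.re ∈ Ioo (sInf P) (sSup P) ∧ _
    constructor
    · intro hz
      have hzP : z.re ∈ P := ⟨z, hz, rfl⟩
      have hzS : z.im ∈ S z.re := by simpa [hS] using hz
      rw [hSI _ hzP] at hzS
      exact ⟨by rw [hPI] at hzP; exact hzP, hzS.1, hzS.2⟩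
    · rintro ⟨hzP, h1, h2⟩
      have hzP := hPI' _ hzP
      have hzS : z.im ∈ S z.re := by
        rw [hSI _ hzP]; exact ⟨h1, h2⟩
      simpa [hS] using hzS

theorem CProf.dom {a b : ℝ} {f F : ℝ → ℝ} (h : CProf a b f F) : Dom (prof a b f F) := by
  obtain ⟨M, hM⟩ := h.bdd
  refine ⟨?_, ?_, ?_, ?_⟩
  · have hm : (a + b) / 2 ∈ Ioo a b := ⟨by linarith [h.lt], by linarith [h.lt]⟩
    have := h.fF _ hm
    exact ⟨⟨(a + b) / 2, (f ((a + b) / 2) + F ((a + b) / 2)) / 2⟩, hm, by simp only; linarith,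
      by simp only; linarith⟩
  · refine (Metric.isBounded_iff_subset_closedBall 0).2 ⟨|a| + |b| + |M|, ?_⟩
    intro z hz
    rw [mem_closedBall_zero_iff]
    refine (Complex.norm_le_abs_re_add_abs_im z).trans ?_
    have h1 := hz.1
    have h2 := hz.2.1
    have h3 := hz.2.2
    have h4 := hM _ h1
    have h5 : |z.re| ≤ |a| + |b| := by
      rw [abs_le]
      constructor
      · have := neg_abs_le a; have := abs_nonneg b; linarith [h1.1]
      · have := le_abs_self b; have := abs_nonneg a; linarith [h1.2]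
    have h6 : |z.im| ≤ |M| := by
      rw [abs_le]
      constructor
      · have := le_abs_self M; linarith [h4.1]
      · have := le_abs_self M; linarith [h4.2]
    linarith
  · have e1 : prof a b f F = (Complex.re ⁻¹' Ioo a b ∩ {z : ℂ | f z.re < z.im}) ∩
        (Complex.re ⁻¹' Ioo a b ∩ {z : ℂ | z.im < F z.re}) := by
      ext z; simp only [prof, mem_ofPred_eq, mem_inter_iff, mem_preimage]; tauto
    have ho : IsOpen (Complex.re ⁻¹' Ioo a b) := isOpen_Ioo.preimage Complex.continuous_re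
    have c1 : ContinuousOn (fun z : ℂ => f z.re) (Complex.re ⁻¹' Ioo a b) :=
      h.continuousOn.comp Complex.continuous_re.continuousOn (fun z hz => hz)
    have c2 : ContinuousOn (fun z : ℂ => F z.re) (Complex.re ⁻¹' Ioo a b) :=
      h.continuousOn'.comp Complex.continuous_re.continuousOn (fun z hz => hz)
    rw [e1]
    refine IsOpen.inter ?_ ?_
    · have := (Complex.continuous_im.continuousOn.sub c1).isOpen_inter_preimage ho
        (isOpen_Ioi (a := (0:ℝ)))
      convert this using 1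
      ext z; simp
    · have := (c2.sub Complex.continuous_im.continuousOn).isOpen_inter_preimage ho
        (isOpen_Ioi (a := (0:ℝ)))
      convert this using 1
      ext z; simp
  · intro z hz w hw α β hα hβ hab
    have hre : (α • z + β • w).re = α • z.re + β • w.re := by simp
    have him : (α • z + β • w).im = α * z.im + β * w.im := by simp
    simp only [prof, mem_ofPred_eq]
    rw [hre, him]
    refine ⟨(convex_Ioo a b) hz.1 hw.1 hα hβ hab, ?_, ?_⟩
    · refine (h.cvx.2 hz.1 hw.1 hα hβ hab).trans_lt ?_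
      simp only [smul_eq_mul]
      rcases hα.eq_or_lt with rfl | hα'
      · have : β = 1 := by linarith
        subst this; simpa using hw.2.1
      · exact add_lt_add_of_lt_of_le (mul_lt_mul_of_pos_left hz.2.1 hα')
          (mul_le_mul_of_nonneg_left hw.2.1.le hβ)
    · refine lt_of_lt_of_le ?_ (h.ccv.2 hz.1 hw.1 hα hβ hab)
      simp only [smul_eq_mul]
      rcases hα.eq_or_lt with rfl | hα'
      · have : β = 1 := by linarith
        subst this; simpa using hw.2.2
      · exact add_lt_add_of_lt_of_le (mul_lt_mul_of_pos_left hz.2.2 hα')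
          (mul_le_mul_of_nonneg_left hw.2.2.le hβ)

theorem vert_dist (x y y' : ℝ) : dist (⟨x, y⟩ : ℂ) ⟨x, y'⟩ = |y - y'| := by
  rw [dist_eq_norm]
  have : (⟨x, y⟩ : ℂ) - ⟨x, y'⟩ = ((y - y' : ℝ) : ℂ) * Complex.I := by
    apply Complex.ext <;> simp
  rw [this, Complex.norm_mul, Complex.norm_real, Complex.norm_I, mul_one, Real.norm_eq_abs]

theorem prof_subset_thickening {a b : ℝ} {f f' F : ℝ → ℝ} {t : ℝ} (ht : 0 < t)
    (hf : ∀ x ∈ Ioo a b, f x ≤ f' x + t) (hF : ∀ x ∈ Ioo a b, f x < F x) :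
    prof a b f' F ⊆ Metric.thickening (2 * t) (prof a b f F) := by
  intro z hz
  rw [Metric.mem_thickening_iff]
  by_cases hc : f z.re < z.im
  · exact ⟨z, ⟨hz.1, hc, hz.2.2⟩, by simpa using ht⟩
  · push Not at hc
    have h1 := hf _ hz.1
    have h2 := hF _ hz.1
    have h3 := hz.2.1
    refine ⟨⟨z.re, f z.re + min t (F z.re - f z.re) / 2⟩, ⟨hz.1, ?_, ?_⟩, ?_⟩
    · have : 0 < min t (F z.re - f z.re) := lt_min ht (by linarith)
      simp only; linarith
    · have : min t (F z.re - f z.re) ≤ F z.re - f z.re := min_le_right _ _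
      simp only; linarith
    · have e : z = ⟨z.re, z.im⟩ := rfl
      rw [e, vert_dist]
      simp only
      have h4 : min t (F z.re - f z.re) ≤ t := min_le_left _ _
      have h5 : 0 < min t (F z.re - f z.re) := lt_min ht (by linarith)
      rw [abs_lt]
      constructor <;> linarith

/-- perturbation of a profile -/
theorem CProf.perturb {a b : ℝ} {f F : ℝ → ℝ} (h : CProf a b f F) {α β : ℝ} (hα : a < α)
    (hβ : β < b) {g : ℝ → ℝ} (hg1 : ∀ x, |g x| ≤ 1) (hgs : ∀ x, x ∉ Icc α β → g x = 0) {t0 : ℝ}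
    (ht0 : 0 < t0) (hcv : ∀ t, 0 < t → t < t0 → ConvexOn ℝ (Ioo a b) (fun x => f x + t * g x)) :
    ∃ t1, 0 < t1 ∧ ∀ t, 0 < t → t < t1 → CProf a b (fun x => f x + t * g x) F ∧
      prof a b (fun x => f x + t * g x) F ⊆ Metric.thickening (2 * t) (prof a b f F) ∧
      prof a b f F ⊆ Metric.thickening (2 * t) (prof a b (fun x => f x + t * g x) F) := by
  obtain ⟨M, hM⟩ := h.bdd
  -- a positive lower bound for F - f on Icc α β
  obtain ⟨m, hm, hm'⟩ : ∃ m : ℝ, 0 < m ∧ ∀ x ∈ Icc α β, m ≤ F x - f x := by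
    rcases (Icc α β).eq_empty_or_nonempty with he | hne
    · exact ⟨1, one_pos, by rw [he]; simp⟩
    · have hsub : Icc α β ⊆ Ioo a b := fun x hx => ⟨hα.trans_le hx.1, hx.2.trans_lt hβ⟩
      obtain ⟨x0, hx0, hmin⟩ := isCompact_Icc.exists_isMinOn hne
        ((h.continuousOn'.sub h.continuousOn).mono hsub)
      exact ⟨F x0 - f x0, by have := h.fF x0 (hsub hx0); linarith, fun x hx => hmin hx⟩
  refine ⟨min t0 (min m 1), lt_min ht0 (lt_min hm one_pos), fun t ht htlt => ?_⟩
  have ht1 : t < t0 := htlt.trans_le (min_le_left _ _)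
  have ht2 : t < m := htlt.trans_le ((min_le_right _ _).trans (min_le_left _ _))
  have ht3 : t < 1 := htlt.trans_le ((min_le_right _ _).trans (min_le_right _ _))
  have habs : ∀ x, -t ≤ t * g x ∧ t * g x ≤ t := by
    intro x
    have := abs_le.mp (hg1 x)
    constructor <;> nlinarith [this.1, this.2]
  have hfF : ∀ x ∈ Ioo a b, f x + t * g x < F x := by
    intro x hx
    by_cases hxI : x ∈ Icc α β
    · have h1 := hm' x hxI
      have h2 := (habs x).2
      linarith
    · rw [hgs x hxI]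
      simpa using h.fF x hx
  refine ⟨⟨h.lt, hcv t ht ht1, h.ccv, hfF, ⟨M + 1, fun x hx => ?_⟩⟩, ?_, ?_⟩
  · have h1 := hM x hx
    have h2 := habs x
    constructor <;> linarith [h1.1, h1.2, h2.1, h2.2]
  · exact prof_subset_thickening ht (fun x _ => by have := (habs x).1; linarith) h.fF
  · exact prof_subset_thickening ht (fun x _ => by have := (habs x).2; linarith) hfF

theorem bddAbove_Lo {a b : ℝ} {f F : ℝ → ℝ} (h : CProf a b f F) {s : ℝ} (hs : 0 < s) {x : ℝ}
    (hx : x ∈ Icc (a + s) (b - s)) :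
    BddAbove ((fun w => f (x + w) + Real.sqrt (s ^ 2 - w ^ 2)) '' Ioo (-s) s) := by
  obtain ⟨M, hM⟩ := h.bdd
  refine ⟨M + s, ?_⟩
  rintro _ ⟨w, hw, rfl⟩
  have hxw : x + w ∈ Ioo a b := ⟨by linarith [hx.1, hw.1], by linarith [hx.2, hw.2]⟩
  have h1 := hM _ hxw
  have h2 := h.fF _ hxw
  have h3 : Real.sqrt (s ^ 2 - w ^ 2) ≤ s := by
    rw [Real.sqrt_le_left hs.le]; nlinarith [sq_nonneg w]
  simp only
  linarith [h1.2]

theorem nonempty_Lo {f : ℝ → ℝ} {s : ℝ} (hs : 0 < s) (x : ℝ) :
    ((fun w => f (x + w) + Real.sqrt (s ^ 2 - w ^ 2)) '' Ioo (-s) s).Nonempty :=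
  (nonempty_Ioo.2 (by linarith)).image _

theorem Up_eq (F : ℝ → ℝ) (s x : ℝ) : Up F s x = - Lo (fun x => - F x) s x := by
  unfold Up Lo
  rw [Real.sInf_def]
  congr 2
  ext y
  simp only [Set.mem_neg, mem_image]
  constructor
  · rintro ⟨w, hw, h⟩
    exact ⟨w, hw, by linarith⟩
  · rintro ⟨w, hw, h⟩
    exact ⟨w, hw, by linarith⟩

theorem le_Lo_add {a b : ℝ} {f F : ℝ → ℝ} (h : CProf a b f F) {s : ℝ} (hs : 0 < s) {x : ℝ}
    (hx : x ∈ Icc (a + s) (b - s)) {w : ℝ} (hw : w ∈ Ioo (-s) s) :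
    f (x + w) + Real.sqrt (s ^ 2 - w ^ 2) ≤ Lo f s x :=
  le_csSup (bddAbove_Lo h hs hx) ⟨w, hw, rfl⟩

theorem Up_le_add {a b : ℝ} {f F : ℝ → ℝ} (h : CProf a b f F) {s : ℝ} (hs : 0 < s) {x : ℝ}
    (hx : x ∈ Icc (a + s) (b - s)) {w : ℝ} (hw : w ∈ Ioo (-s) s) :
    Up F s x ≤ F (x + w) - Real.sqrt (s ^ 2 - w ^ 2) := by
  rw [Up_eq]
  have := le_Lo_add h.neg hs hx hw
  linarith

theorem inn_prof {a b : ℝ} {f F : ℝ → ℝ} (h : CProf a b f F) {s : ℝ} (hs : 0 < s) :
    inn (prof a b f F) s = {z | z.re ∈ Icc (a + s) (b - s) ∧ Lo f s z.re ≤ z.im ∧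
      z.im ≤ Up F s z.re} := by
  ext z
  simp only [inn, mem_ofPred_eq]
  constructor
  · intro hz
    -- points of the ball
    have hpt : ∀ w ∈ Ioo (-s) s, ∀ v : ℝ, |v| < Real.sqrt (s ^ 2 - w ^ 2) →
        (⟨z.re + w, z.im + v⟩ : ℂ) ∈ prof a b f F := by
      intro w hw v hv
      apply hz
      rw [Metric.mem_ball, dist_eq_norm]
      have e : (⟨z.re + w, z.im + v⟩ : ℂ) - z = ⟨w, v⟩ := by
        apply Complex.ext <;> simp
      rw [e]
      have hv2 : v ^ 2 < s ^ 2 - w ^ 2 := by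
        rw [← sq_abs v]
        exact (Real.lt_sqrt (abs_nonneg _)).1 hv
      have : ‖(⟨w, v⟩ : ℂ)‖ ^ 2 < s ^ 2 := by
        rw [← Complex.normSq_eq_norm_sq, Complex.normSq_mk]
        nlinarith
      exact lt_of_pow_lt_pow_left₀ 2 hs.le this
    have hpos : ∀ w ∈ Ioo (-s) s, 0 < Real.sqrt (s ^ 2 - w ^ 2) := by
      intro w hw
      apply Real.sqrt_pos.2
      have := abs_lt.2 ⟨hw.1, hw.2⟩
      have h2 := sq_lt_sq' hw.1 hw.2
      linarith
    have hIoo : ∀ w ∈ Ioo (-s) s, z.re + w ∈ Ioo a b := by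
      intro w hw
      exact (hpt w hw 0 (by rw [abs_zero]; exact hpos w hw)).1
    refine ⟨⟨?_, ?_⟩, ?_, ?_⟩
    · by_contra hcon
      push Not at hcon
      have h0 := hIoo 0 ⟨by linarith, hs⟩
      simp only [add_zero] at h0
      -- w = a - z.re ∈ (-s, 0)
      have := hIoo (a - z.re) ⟨by linarith, by linarith [h0.1]⟩
      have := this.1
      linarith
    · by_contra hcon
      push Not at hcon
      have h0 := hIoo 0 ⟨by linarith, hs⟩
      simp only [add_zero] at h0
      have := hIoo (b - z.re) ⟨by linarith [h0.2], by linarith⟩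
      have := this.2
      linarith
    · apply csSup_le (nonempty_Lo hs _)
      rintro _ ⟨w, hw, rfl⟩
      simp only
      by_contra hcon
      push Not at hcon
      -- choose v slightly above - sqrt
      have hp := hpos w hw
      set c := Real.sqrt (s ^ 2 - w ^ 2) with hc
      have hf0 := (hpt w hw 0 (by rw [abs_zero]; exact hp)).2.1
      simp only [add_zero] at hf0
      by_cases hcase : f (z.re + w) - z.im ≤ -c / 2
      · -- use v' = f - z.im ∈ (-c, 0)
        have hv' : |f (z.re + w) - z.im| < c := by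
          rw [abs_lt]; constructor <;> linarith
        have := (hpt w hw _ hv').2.1
        simp only at this
        linarith
      · push Not at hcase
        have hv' : |(-c / 2 : ℝ)| < c := by
          rw [abs_lt]; constructor <;> linarith
        have := (hpt w hw _ hv').2.1
        simp only at this
        linarith
    · rw [Up_eq, le_neg]
      refine csSup_le (nonempty_Lo (f := fun x => - F x) hs _) ?_
      rintro _ ⟨w, hw, rfl⟩
      simp only
      by_contra hcon
      push Not at hcon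
      have hp := hpos w hw
      set c := Real.sqrt (s ^ 2 - w ^ 2) with hc
      have hF0 := (hpt w hw 0 (by rw [abs_zero]; exact hp)).2.2
      simp only [add_zero] at hF0
      by_cases hcase : c / 2 ≤ F (z.re + w) - z.im
      · have hv' : |F (z.re + w) - z.im| < c := by
          rw [abs_lt]; constructor <;> linarith
        have := (hpt w hw _ hv').2.2
        simp only at this
        linarith
      · push Not at hcase
        have hv' : |(c / 2 : ℝ)| < c := by
          rw [abs_lt]; constructor <;> linarith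
        have := (hpt w hw _ hv').2.2
        simp only at this
        linarith
  · rintro ⟨hx, hlo, hup⟩ z' hz'
    rw [Metric.mem_ball, dist_eq_norm] at hz'
    set w := z'.re - z.re with hw
    set v := z'.im - z.im with hv
    have hn : w ^ 2 + v ^ 2 < s ^ 2 := by
      have h1 : ‖z' - z‖ ^ 2 < s ^ 2 := by
        exact pow_lt_pow_left₀ hz' (norm_nonneg _) two_ne_zero
      rw [← Complex.normSq_eq_norm_sq, Complex.normSq_apply] at h1
      simp only [Complex.sub_re, Complex.sub_im] at h1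
      nlinarith
    have hwI : w ∈ Ioo (-s) s := by
      have : w ^ 2 < s ^ 2 := by nlinarith [sq_nonneg v]
      exact abs_lt.1 (abs_lt_of_sq_lt_sq this hs.le)
    have hvlt : |v| < Real.sqrt (s ^ 2 - w ^ 2) := by
      rw [Real.lt_sqrt (abs_nonneg _), sq_abs]; linarith
    have h1 := le_Lo_add h hs hx hwI
    have h2 := Up_le_add h hs hx hwI
    have e1 : z.re + w = z'.re := by rw [hw]; ring
    rw [e1] at h1 h2
    have h3 := abs_lt.1 hvlt
    refine ⟨?_, ?_, ?_⟩
    · rw [← e1]; exact ⟨by linarith [hx.1, hwI.1], by linarith [hx.2, hwI.2]⟩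
    · have : z'.im = z.im + v := by rw [hv]; ring
      rw [this]; linarith [h3.1]
    · have : z'.im = z.im + v := by rw [hv]; ring
      rw [this]; linarith [h3.2]

theorem isClosed_inn (Ω : Set ℂ) (s : ℝ) : IsClosed (inn Ω s) := by
  have : inn Ω s = (Metric.thickening s Ωᶜ)ᶜ := by
    ext z
    simp only [inn, mem_ofPred_eq, mem_compl_iff, Metric.mem_thickening_iff, not_exists, not_and,
      not_lt]
    constructor
    · intro h x hx
      by_contra hc
      push Not at hc
      exact hx (h (by rw [Metric.mem_ball, dist_comm]; exact hc))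
    · intro h x hx
      by_contra hc
      have := h x hc
      rw [Metric.mem_ball, dist_comm] at hx
      linarith
  rw [this]
  exact Metric.isOpen_thickening.isClosed_compl

theorem ar_inn_prof {a b : ℝ} {f F : ℝ → ℝ} (h : CProf a b f F) {s : ℝ} (hs : 0 < s) :
    ar (inn (prof a b f F) s) = ∫ x in Icc (a + s) (b - s), max (Up F s x - Lo f s x) 0 := by
  set A := inn (prof a b f F) s with hA
  have hAm : MeasurableSet A := (isClosed_inn _ _).measurableSet
  -- push to the product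
  set B : Set (ℝ × ℝ) := Complex.measurableEquivRealProd.symm ⁻¹' A with hB
  have hBm : MeasurableSet B := Complex.measurableEquivRealProd.symm.measurable hAm
  have hvol : volume A = volume B := by
    have := (Complex.volume_preserving_equiv_real_prod.symm
      Complex.measurableEquivRealProd).measure_preimage hAm.nullMeasurableSet
    rw [← this]
  have hslice : ∀ x, volume (Prod.mk x ⁻¹' B) =
      (Icc (a + s) (b - s)).indicator (fun x => ENNReal.ofReal (max (Up F s x - Lo f s x) 0)) x := by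
    intro x
    by_cases hx : x ∈ Icc (a + s) (b - s)
    · rw [indicator_of_mem hx]
      have : Prod.mk x ⁻¹' B = Icc (Lo f s x) (Up F s x) := by
        ext y
        rw [hB, hA, inn_prof h hs]
        simp only [mem_preimage, mem_ofPred_eq]
        have e : (Complex.measurableEquivRealProd.symm (x, y)) = (⟨x, y⟩ : ℂ) := rfl
        rw [e]
        constructor
        · rintro ⟨_, h1⟩; exact h1
        · intro h1; exact ⟨hx, h1⟩
      rw [this, Real.volume_Icc]
      rcases le_total 0 (Up F s x - Lo f s x) with h0 | h0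
      · rw [max_eq_left h0]
      · rw [max_eq_right h0, ENNReal.ofReal_of_nonpos h0, ENNReal.ofReal_zero]
    · rw [indicator_of_notMem hx]
      have : Prod.mk x ⁻¹' B = ∅ := by
        ext y
        rw [hB, hA, inn_prof h hs]
        simp only [mem_preimage, mem_ofPred_eq, mem_empty_iff_false, iff_false]
        intro hcon
        exact hx hcon.1
      rw [this]; simp
  have hmeas : Measurable (fun x => volume (Prod.mk x ⁻¹' B)) := measurable_measure_prodMk_left hBm
  have hae : AEStronglyMeasurable (fun x => max (Up F s x - Lo f s x) 0)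
      (volume.restrict (Icc (a + s) (b - s))) := by
    have h1 : AEStronglyMeasurable (fun x => (volume (Prod.mk x ⁻¹' B)).toReal)
        (volume.restrict (Icc (a + s) (b - s))) :=
      (hmeas.ennreal_toReal).aestronglyMeasurable
    refine h1.congr ?_
    rw [Filter.EventuallyEq, ae_restrict_iff' measurableSet_Icc]
    filter_upwards with x hx
    rw [hslice x, indicator_of_mem hx, ENNReal.toReal_ofReal (le_max_right _ _)]
  rw [integral_eq_lintegral_of_nonneg_ae
    (Filter.Eventually.of_forall fun x => (le_max_right (Up F s x - Lo f s x) 0 : _)) hae]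
  unfold ar
  congr 1
  rw [hvol, Measure.volume_eq_prod, Measure.prod_apply hBm]
  simp_rw [hslice]
  rw [lintegral_indicator measurableSet_Icc]

theorem convexOn_Lo {a b : ℝ} {f F : ℝ → ℝ} (h : CProf a b f F) {s : ℝ} (hs : 0 < s) :
    ConvexOn ℝ (Icc (a + s) (b - s)) (Lo f s) := by
  refine ⟨convex_Icc _ _, ?_⟩
  intro x1 hx1 x2 hx2 α β hα hβ hab
  apply csSup_le (nonempty_Lo hs _)
  rintro _ ⟨w, hw, rfl⟩
  simp only
  have h1 := le_Lo_add h hs hx1 hw
  have h2 := le_Lo_add h hs hx2 hw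
  have m1 : x1 + w ∈ Ioo a b := ⟨by linarith [hx1.1, hw.1], by linarith [hx1.2, hw.2]⟩
  have m2 : x2 + w ∈ Ioo a b := ⟨by linarith [hx2.1, hw.1], by linarith [hx2.2, hw.2]⟩
  have h3 := h.cvx.2 m1 m2 hα hβ hab
  simp only [smul_eq_mul] at h3 ⊢
  have e : α * (x1 + w) + β * (x2 + w) = α * x1 + β * x2 + w := by
    have : α * (x1 + w) + β * (x2 + w) = α * x1 + β * x2 + (α + β) * w := by ring
    rw [this, hab, one_mul]
  rw [e] at h3
  have h4 : α * (f (x1 + w) + Real.sqrt (s ^ 2 - w ^ 2)) +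
      β * (f (x2 + w) + Real.sqrt (s ^ 2 - w ^ 2)) ≤ α * Lo f s x1 + β * Lo f s x2 :=
    add_le_add (mul_le_mul_of_nonneg_left h1 hα) (mul_le_mul_of_nonneg_left h2 hβ)
  have h5 : α * (f (x1 + w) + Real.sqrt (s ^ 2 - w ^ 2)) +
      β * (f (x2 + w) + Real.sqrt (s ^ 2 - w ^ 2)) =
      α * f (x1 + w) + β * f (x2 + w) + (α + β) * Real.sqrt (s ^ 2 - w ^ 2) := by ring
  rw [h5, hab, one_mul] at h4
  linarith

theorem concaveOn_Up {a b : ℝ} {f F : ℝ → ℝ} (h : CProf a b f F) {s : ℝ} (hs : 0 < s) :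
    ConcaveOn ℝ (Icc (a + s) (b - s)) (Up F s) := by
  have := (convexOn_Lo h.neg hs).neg
  refine this.congr ?_
  intro x _
  simp only [Pi.neg_apply]
  exact (Up_eq F s x).symm

theorem le_Lo {a b : ℝ} {f F : ℝ → ℝ} (h : CProf a b f F) {s : ℝ} (hs : 0 < s) {x q : ℝ}
    (hx : x ∈ Icc (a + s) (b - s)) (hq : q ∈ Ioo a b) (hqx : |q - x| ≤ s) :
    f q + Real.sqrt (s ^ 2 - (q - x) ^ 2) ≤ Lo f s x := by
  have hin : ∀ q' ∈ Ioo (x - s) (x + s), f q' + Real.sqrt (s ^ 2 - (q' - x) ^ 2) ≤ Lo f s x := by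
    intro q' hq'
    have := le_Lo_add h hs hx (w := q' - x) ⟨by linarith [hq'.1], by linarith [hq'.2]⟩
    have e : x + (q' - x) = q' := by ring
    rwa [e] at this
  have hcl : q ∈ closure (Ioo (x - s) (x + s)) := by
    rw [closure_Ioo (by linarith)]
    have := abs_le.1 hqx
    exact ⟨by linarith [this.1], by linarith [this.2]⟩
  have hcont : ContinuousAt (fun q' => f q' + Real.sqrt (s ^ 2 - (q' - x) ^ 2)) q := by
    refine ContinuousAt.add (h.continuousOn.continuousAt (isOpen_Ioo.mem_nhds hq)) ?_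
    exact (Real.continuous_sqrt.comp (by fun_prop)).continuousAt
  exact hcont.continuousWithinAt.closure_le hcl continuousWithinAt_const hin

end

end Pool.Agent.Lib.MP_4cfb03_an
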