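import Pool.Agent.Lib.MP_4cfb03_an.Defs
import Pool.Agent.Lib.MP_4cfb03_an.Prof

/-!
# T10 Touch : discs touching the lower graph
-/

open MeasureTheory Set Filter
open scoped Topology ENNReal

namespace Pool.Agent.Lib.MP_4cfb03_an

noncomputable section


/-- Existence of a subgradient of a convex function on an open interval. -/
theorem Touch.exists_subgrad_Ioo {a b : ℝ} {f : ℝ → ℝ} (hf : ConvexOn ℝ (Ioo a b) f) {q : ℝ}
    (hq : q ∈ Ioo a b) : ∃ m : ℝ, ∀ y ∈ Ioo a b, f q + m * (y - q) ≤ f y := by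
  refine ⟨derivWithin f (Ioi q) q, fun y hy => ?_⟩
  have hqi : q ∈ interior (Ioo a b) := by rwa [isOpen_Ioo.interior_eq]
  rcases lt_trichotomy q y with h | h | h
  · have := hf.rightDeriv_le_slope_of_mem_interior hqi hy h
    rw [slope_def_field, le_div_iff₀ (by linarith)] at this
    linarith
  · subst h; simp
  · have h1 := hf.slope_le_leftDeriv_of_mem_interior hy hqi h
    have h2 := hf.leftDeriv_le_rightDeriv_of_mem_interior hqi
    have h3 := h1.trans h2
    rw [slope_def_field, div_le_iff₀ (by linarith)] at h3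
    linarith

/-- The semicircle is strictly concave. -/
theorem Touch.strictConcaveOn_semicircle (s : ℝ) :
    StrictConcaveOn ℝ (Icc (-s) s) (fun w => Real.sqrt (s ^ 2 - w ^ 2)) := by
  refine ⟨convex_Icc _ _, ?_⟩
  intro u hu v hv huv l m hl hm hlm
  simp only [smul_eq_mul]
  have hu0 : 0 ≤ s ^ 2 - u ^ 2 := by nlinarith [hu.1, hu.2]
  have hv0 : 0 ≤ s ^ 2 - v ^ 2 := by nlinarith [hv.1, hv.2]
  have hcu2 : Real.sqrt (s ^ 2 - u ^ 2) ^ 2 = s ^ 2 - u ^ 2 := Real.sq_sqrt hu0
  have hcv2 : Real.sqrt (s ^ 2 - v ^ 2) ^ 2 = s ^ 2 - v ^ 2 := Real.sq_sqrt hv0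
  generalize Real.sqrt (s ^ 2 - u ^ 2) = cu at hcu2 ⊢
  generalize Real.sqrt (s ^ 2 - v ^ 2) = cv at hcv2 ⊢
  apply Real.lt_sqrt_of_sq_lt
  have huv2 : 0 < (u - v) ^ 2 := by
    have : u - v ≠ 0 := sub_ne_zero.mpr huv
    positivity
  have hlm0 : 0 < l * m := mul_pos hl hm
  have key : s ^ 2 - (l * u + m * v) ^ 2 - (l * cu + m * cv) ^ 2 =
      l * m * ((cu - cv) ^ 2 + (u - v) ^ 2) := by
    have hm' : m = 1 - l := by linarith
    subst hm'
    linear_combination (-l) * hcu2 + (-(1 - l)) * hcv2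
  have : 0 < l * m * ((cu - cv) ^ 2 + (u - v) ^ 2) := by positivity
  linarith

/-- Four point inequality for the semicircle. -/
theorem Touch.semicircle_four {s u v w z : ℝ} (hu : -s ≤ u) (hv : v ≤ s) (huw : u < w) (hwv : w < v)
    (hz : w + z = u + v) :
    Real.sqrt (s ^ 2 - u ^ 2) + Real.sqrt (s ^ 2 - v ^ 2) <
      Real.sqrt (s ^ 2 - w ^ 2) + Real.sqrt (s ^ 2 - z ^ 2) := by
  have hc := Touch.strictConcaveOn_semicircle s
  have huv : u < v := huw.trans hwv
  have hd : 0 < v - u := by linarith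
  have humem : u ∈ Icc (-s) s := ⟨hu, by linarith⟩
  have hvmem : v ∈ Icc (-s) s := ⟨by linarith, hv⟩
  have hl : 0 < (v - w) / (v - u) := div_pos (by linarith) hd
  have hm : 0 < (w - u) / (v - u) := div_pos (by linarith) hd
  have hlm : (v - w) / (v - u) + (w - u) / (v - u) = 1 := by field_simp; ring
  have h1 := hc.2 humem hvmem huv.ne hl hm hlm
  have h2 := hc.2 humem hvmem huv.ne hm hl (by linarith)
  simp only [smul_eq_mul] at h1 h2
  have e1 : (v - w) / (v - u) * u + (w - u) / (v - u) * v = w := by field_simp; ring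
  have e2 : (w - u) / (v - u) * u + (v - w) / (v - u) * v = z := by
    have : z = u + v - w := by linarith
    subst this
    field_simp
    ring
  rw [e1] at h1
  rw [e2] at h2
  have e3 : (v - w) / (v - u) = 1 - (w - u) / (v - u) := by linarith
  rw [e3] at h1 h2
  linarith

theorem Touch.semicircle_four_le {s u v w z : ℝ} (hu : -s ≤ u) (hv : v ≤ s) (huw : u ≤ w) (hwv : w ≤ v)
    (hz : w + z = u + v) :
    Real.sqrt (s ^ 2 - u ^ 2) + Real.sqrt (s ^ 2 - v ^ 2) ≤
      Real.sqrt (s ^ 2 - w ^ 2) + Real.sqrt (s ^ 2 - z ^ 2) := by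
  rcases huw.eq_or_lt with h | h
  · subst h
    have : z = v := by linarith
    rw [this]
  rcases hwv.eq_or_lt with h' | h'
  · subst h'
    have : z = u := by linarith
    rw [this]
    linarith
  · exact (Touch.semicircle_four hu hv h h' hz).le

theorem Touch.hasDerivAt_semicircle {s x q : ℝ} (hq : |q - x| < s) :
    HasDerivAt (fun y => Real.sqrt (s ^ 2 - (y - x) ^ 2))
      (-((q - x) / Real.sqrt (s ^ 2 - (q - x) ^ 2))) q := by
  have hpos : 0 < s ^ 2 - (q - x) ^ 2 := by
    have h1 := abs_lt.mp hq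
    nlinarith [h1.1, h1.2]
  have h1 : HasDerivAt (fun y => s ^ 2 - (y - x) ^ 2) (-(2 * (q - x))) q := by
    have h2 := (((hasDerivAt_id q).sub_const x).pow 2).const_sub (s ^ 2)
    refine (h2.congr_deriv ?_)
    simp
  have h2 := h1.sqrt hpos.ne'
  convert h2 using 1
  have : Real.sqrt (s ^ 2 - (q - x) ^ 2) ≠ 0 := (Real.sqrt_pos.mpr hpos).ne'
  field_simp

theorem Touch.disc_le {a b : ℝ} {f F : ℝ → ℝ} (h : CProf a b f F) {s : ℝ} (hs : 0 < s) {x q : ℝ}
    (ht : Touch a b f s x q) {y : ℝ} (hy : y ∈ Ioo a b) (hyx : |y - x| ≤ s) :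
    f y + Real.sqrt (s ^ 2 - (y - x) ^ 2) ≤ f q + Real.sqrt (s ^ 2 - (q - x) ^ 2) := by
  rw [← ht.2.2.2]
  exact le_Lo h hs ht.1 hy hyx

theorem Touch.lt {a b : ℝ} {f F : ℝ → ℝ} (h : CProf a b f F) {s : ℝ} (hs : 0 < s) {x q : ℝ}
    (ht : Touch a b f s x q) : |q - x| < s := by
  rcases ht.2.2.1.lt_or_eq with hlt | heq
  · exact hlt
  exfalso
  obtain ⟨m, hm⟩ := Touch.exists_subgrad_Ioo h.cvx ht.2.1
  have hs0 : s ^ 2 - (q - x) ^ 2 = 0 := by rw [← heq, sq_abs]; ring
  -- the point at distance `δ` from `q`, towards `x`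
  have key : ∀ δ : ℝ, 0 < δ → δ < s → Real.sqrt (s * δ) ≤ |m| * δ := by
    intro δ hδ hδs
    have hcases : q - x = s ∨ q - x = -s := by
      rcases abs_choice (q - x) with h1 | h1
      · left; rw [← h1, heq]
      · right; rw [heq] at h1; linarith
    obtain ⟨e, he, hqe⟩ : ∃ e : ℝ, (e = 1 ∨ e = -1) ∧ q - x = e * s := by
      rcases hcases with h1 | h1
      · exact ⟨1, Or.inl rfl, by linarith⟩
      · exact ⟨-1, Or.inr rfl, by linarith⟩
    have he2 : e ^ 2 = 1 := by rcases he with rfl | rfl <;> norm_num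
    have heabs : |e| = 1 := by rcases he with rfl | rfl <;> norm_num
    set y := q - e * δ with hy
    have hyx : y - x = e * (s - δ) := by rw [hy]; linarith
    have habs : |y - x| < s := by
      rw [hyx, abs_mul, heabs, one_mul, abs_of_pos (by linarith)]; linarith
    have hymem : y ∈ Ioo a b := by
      have h1 := abs_lt.mp habs
      exact ⟨by linarith [ht.1.1], by linarith [ht.1.2]⟩
    have h1 := ht.disc_le h hs hymem habs.le
    rw [hs0, Real.sqrt_zero, add_zero] at h1
    have h2 := hm y hymem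
    have h3 : m * (y - q) ≥ - (|m| * δ) := by
      have : y - q = -(e * δ) := by rw [hy]; ring
      rw [this]
      have h4 : |m * -(e * δ)| = |m| * δ := by
        rw [abs_mul, abs_neg, abs_mul, heabs, one_mul, abs_of_pos hδ]
      have := neg_abs_le (m * -(e * δ))
      rw [h4] at this
      linarith
    have h5 : s * δ ≤ s ^ 2 - (y - x) ^ 2 := by
      rw [hyx, mul_pow, he2]
      nlinarith
    have h6 := Real.sqrt_le_sqrt h5
    linarith
  -- choose `δ` small
  set δ := min (s / 2) (s / (2 * (m ^ 2 + 1))) with hδ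
  have hm1 : 0 < m ^ 2 + 1 := by positivity
  have hδ0 : 0 < δ := lt_min (by linarith) (by positivity)
  have hδs : δ < s := (min_le_left _ _).trans_lt (by linarith)
  have h1 := key δ hδ0 hδs
  have h2 : s * δ ≤ (|m| * δ) ^ 2 := by
    have h3 := Real.sq_sqrt (show 0 ≤ s * δ by positivity)
    have h4 := Real.sqrt_nonneg (s * δ)
    nlinarith [h1, h4]
  rw [mul_pow, sq_abs] at h2
  have h3 : δ ≤ s / (2 * (m ^ 2 + 1)) := min_le_right _ _
  rw [le_div_iff₀ (by positivity)] at h3
  nlinarith [mul_pos hδ0 hδ0, mul_pos hs hδ0]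

/-- At a touching abscissa the slope of the circle is the only subgradient. -/
theorem Touch.subgrad_eq {a b : ℝ} {f F : ℝ → ℝ} (h : CProf a b f F) {s : ℝ} (hs : 0 < s)
    {x q : ℝ} (ht : Touch a b f s x q) {m : ℝ} (hm : ∀ y ∈ Ioo a b, f q + m * (y - q) ≤ f y) :
    m = (q - x) / Real.sqrt (s ^ 2 - (q - x) ^ 2) := by
  have hlt := ht.lt h hs
  have hd := Touch.hasDerivAt_semicircle hlt
  have hd2 : HasDerivAt (fun y => Real.sqrt (s ^ 2 - (y - x) ^ 2) + m * y)
      (-((q - x) / Real.sqrt (s ^ 2 - (q - x) ^ 2)) + m) q := by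
    have h1 : HasDerivAt (fun y : ℝ => m * y) m q := by
      simpa using (hasDerivAt_id q).const_mul m
    exact hd.add h1
  have hmax : IsLocalMax (fun y => Real.sqrt (s ^ 2 - (y - x) ^ 2) + m * y) q := by
    have hn : {y | |y - x| < s} ∈ 𝓝 q := by
      apply IsOpen.mem_nhds
      · exact isOpen_lt (by fun_prop) continuous_const
      · exact hlt
    filter_upwards [hn, isOpen_Ioo.mem_nhds ht.2.1] with y hy hyab
    have hy' : |y - x| ≤ s := le_of_lt hy
    have h1 := ht.disc_le h hs hyab hy'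
    have h2 := hm y hyab
    linarith
  have := hmax.hasDerivAt_eq_zero hd2
  linarith

theorem Touch.subgrad {a b : ℝ} {f F : ℝ → ℝ} (h : CProf a b f F) {s : ℝ} (hs : 0 < s) {x q : ℝ}
    (ht : Touch a b f s x q) : |q - x| < s ∧
      ∀ y ∈ Ioo a b, f q + (q - x) / Real.sqrt (s ^ 2 - (q - x) ^ 2) * (y - q) ≤ f y := by
  refine ⟨ht.lt h hs, ?_⟩
  obtain ⟨m, hm⟩ := Touch.exists_subgrad_Ioo h.cvx ht.2.1
  rw [← ht.subgrad_eq h hs hm]
  exact hm

/-- The slope of the semicircle is strictly increasing. -/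
theorem Touch.slope_semicircle_lt {s u v : ℝ} (hu : |u| < s) (hv : |v| < s)
    (huv : u / Real.sqrt (s ^ 2 - u ^ 2) ≤ v / Real.sqrt (s ^ 2 - v ^ 2)) : u ≤ v := by
  by_contra hlt
  push Not at hlt
  have hu1 := abs_lt.mp hu
  have hv1 := abs_lt.mp hv
  have hup : 0 < s ^ 2 - u ^ 2 := by nlinarith [hu1.1, hu1.2]
  have hvp : 0 < s ^ 2 - v ^ 2 := by nlinarith [hv1.1, hv1.2]
  have hcu := Real.sqrt_pos.mpr hup
  have hcv := Real.sqrt_pos.mpr hvp
  rw [div_le_div_iff₀ hcu hcv] at huv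
  have h1 := Real.sq_sqrt hup.le
  have h2 := Real.sq_sqrt hvp.le
  generalize Real.sqrt (s ^ 2 - u ^ 2) = cu at *
  generalize Real.sqrt (s ^ 2 - v ^ 2) = cv at *
  have hs : 0 < s := (abs_nonneg u).trans_lt hu
  -- v < u, u * cv ≤ v * cu
  rcases le_or_gt 0 v with hv0 | hv0
  · have hcc : cu ≤ cv := by
      by_contra hcon
      push Not at hcon
      nlinarith
    have h3 : v * cu ≤ v * cv := mul_le_mul_of_nonneg_left hcc hv0
    have h4 : v * cv < u * cv := mul_lt_mul_of_pos_right hlt hcv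
    linarith
  · rcases le_or_gt u 0 with hu0 | hu0
    · have hcc : cv ≤ cu := by
        by_contra hcon
        push Not at hcon
        nlinarith
      have h3 : u * cu ≤ u * cv := mul_le_mul_of_nonpos_left hcc hu0
      have h4 : v * cu < u * cu := mul_lt_mul_of_pos_right hlt hcu
      linarith
    · have h3 : 0 < u * cv := mul_pos hu0 hcv
      have h4 : v * cu < 0 := mul_neg_of_neg_of_pos hv0 hcu
      linarith

theorem Touch.mono {a b : ℝ} {f F : ℝ → ℝ} (h : CProf a b f F) {s : ℝ} (hs : 0 < s)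
    {x q x' q' : ℝ} (ht : Touch a b f s x q) (ht' : Touch a b f s x' q') (hx : x < x') :
    q ≤ q' ∧ x' - x ≤ q' - q := by
  obtain ⟨hlt, hsub⟩ := ht.subgrad h hs
  obtain ⟨hlt', hsub'⟩ := ht'.subgrad h hs
  have ha := abs_lt.mp hlt
  have ha' := abs_lt.mp hlt'
  rcases lt_trichotomy q q' with hq | hq | hq
  · refine ⟨hq.le, ?_⟩
    have h1 := hsub q' ht'.2.1
    have h2 := hsub' q ht.2.1
    have h3 : (q - x) / Real.sqrt (s ^ 2 - (q - x) ^ 2) ≤
        (q' - x') / Real.sqrt (s ^ 2 - (q' - x') ^ 2) := by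
      generalize (q - x) / Real.sqrt (s ^ 2 - (q - x) ^ 2) = A at *
      generalize (q' - x') / Real.sqrt (s ^ 2 - (q' - x') ^ 2) = B at *
      have : 0 ≤ (B - A) * (q' - q) := by nlinarith
      have h5 : 0 ≤ B - A := by
        by_contra hcon
        push Not at hcon
        nlinarith
      linarith
    have h4 := Touch.slope_semicircle_lt hlt hlt' h3
    linarith
  · exfalso
    subst hq
    have h1 := ht.subgrad_eq h hs hsub'
    have h2 := Touch.slope_semicircle_lt hlt hlt' h1.symm.le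
    linarith
  · exfalso
    have h1 := ht.disc_le h hs ht'.2.1 (by rw [abs_le]; constructor <;> linarith)
    have h2 := ht'.disc_le h hs ht.2.1 (by rw [abs_le]; constructor <;> linarith)
    have h3 := Touch.semicircle_four (s := s) (u := q' - x') (v := q - x) (w := q' - x) (z := q - x')
      (by linarith) (by linarith) (by linarith) (by linarith) (by ring)
    linarith

/-- the maximum over the discs is attained in between two touching points -/
theorem exists_touch_between {a b : ℝ} {f F : ℝ → ℝ} (h : CProf a b f F) {s : ℝ} (hs : 0 < s)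
    {x q x' q' y : ℝ} (ht : Touch a b f s x q) (ht' : Touch a b f s x' q') (hxx : x < x')
    (hy : y ∈ Icc x x') : ∃ p ∈ Icc q q', Touch a b f s y p := by
  obtain ⟨hqq, -⟩ := ht.mono h hs ht' hxx
  have ha := abs_lt.mp (ht.lt h hs)
  have ha' := abs_lt.mp (ht'.lt h hs)
  have hq := ht.2.1
  have hq' := ht'.2.1
  have hyab : y ∈ Icc (a + s) (b - s) :=
    ⟨by linarith [ht.1.1, hy.1], by linarith [ht'.1.2, hy.2]⟩
  -- the compact interval
  set I := Icc (max q (y - s)) (min q' (y + s)) with hI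
  have hIne : (max q (y - s)) ≤ (min q' (y + s)) := by
    apply max_le <;> apply le_min <;> linarith [hy.1, hy.2]
  have hIsub : I ⊆ Ioo a b := by
    intro p hp
    exact ⟨by linarith [hp.1, le_max_left q (y - s), hq.1],
      by linarith [hp.2, min_le_left q' (y + s), hq'.2]⟩
  have hcont : ContinuousOn (fun p => f p + Real.sqrt (s ^ 2 - (p - y) ^ 2)) I := by
    apply ContinuousOn.add
    · exact (h.cvx.continuousOn isOpen_Ioo).mono hIsub
    · exact (by fun_prop : Continuous fun p : ℝ => Real.sqrt (s ^ 2 - (p - y) ^ 2)).continuousOn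
  obtain ⟨p, hp, hpmax⟩ := isCompact_Icc.exists_isMaxOn (nonempty_Icc.mpr hIne) hcont
  have hp1 := hp.1
  have hp2 := hp.2
  have hpI : ∀ p' ∈ I, f p' + Real.sqrt (s ^ 2 - (p' - y) ^ 2) ≤
      f p + Real.sqrt (s ^ 2 - (p - y) ^ 2) := fun p' hp' => hpmax hp'
  have hpq : p ∈ Icc q q' :=
    ⟨(le_max_left _ _).trans hp1, hp2.trans (min_le_left _ _)⟩
  have hpy : |p - y| ≤ s := by
    rw [abs_le]
    constructor
    · linarith [le_max_right q (y - s)]
    · linarith [min_le_right q' (y + s)]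
  refine ⟨p, hpq, hyab, hIsub hp, hpy, ?_⟩
  apply le_antisymm
  · -- every disc is below the value at `p`
    apply csSup_le
    · exact ⟨_, mem_image_of_mem _ (⟨by linarith, hs⟩ : (0:ℝ) ∈ Ioo (-s) s)⟩
    rintro _ ⟨w, hw, rfl⟩
    dsimp only
    obtain ⟨p', hp'⟩ : ∃ p', p' = y + w := ⟨_, rfl⟩
    have hw' : w = p' - y := by linarith
    rw [← hp', hw']
    rw [hw'] at hw
    have hp'ab : p' ∈ Ioo a b := ⟨by linarith [hw.1, hyab.1], by linarith [hw.2, hyab.2]⟩
    rcases lt_or_ge p' q with h1 | h1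
    · -- left of `q`
      have h2 : f p' + Real.sqrt (s ^ 2 - (p' - x) ^ 2) ≤ f q + Real.sqrt (s ^ 2 - (q - x) ^ 2) :=
        ht.disc_le h hs hp'ab (by rw [abs_le]; constructor <;> linarith [hy.1, hw.1, hw.2])
      have h3 := Touch.semicircle_four_le (s := s) (u := p' - y) (v := q - x) (w := q - y)
        (z := p' - x) (by linarith [hw.1]) (by linarith) (by linarith) (by linarith [hy.1])
        (by ring)
      have h4 : q ∈ I := by
        refine ⟨max_le le_rfl (by linarith [hw.1]), le_min hqq (by linarith [hy.1])⟩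
      have h5 := hpI q h4
      linarith
    rcases lt_or_ge q' p' with h1' | h1'
    · have h2 : f p' + Real.sqrt (s ^ 2 - (p' - x') ^ 2) ≤
          f q' + Real.sqrt (s ^ 2 - (q' - x') ^ 2) :=
        ht'.disc_le h hs hp'ab (by rw [abs_le]; constructor <;> linarith [hy.2, hw.1, hw.2])
      have h3 := Touch.semicircle_four_le (s := s) (u := q' - x') (v := p' - y) (w := q' - y)
        (z := p' - x') (by linarith) (by linarith [hw.2]) (by linarith [hy.2]) (by linarith)
        (by ring)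
      have h4 : q' ∈ I := by
        refine ⟨max_le hqq (by linarith [hy.2]), le_min le_rfl (by linarith [hw.2])⟩
      have h5 := hpI q' h4
      linarith
    · exact hpI p' ⟨max_le h1 (by linarith [hw.1]), le_min h1' (by linarith [hw.2])⟩
  · exact le_Lo h hs hyab (hIsub hp) hpy

theorem kset_ordConnected {a b : ℝ} {f F : ℝ → ℝ} (h : CProf a b f F) {s : ℝ} (hs : 0 < s)
    (α β : ℝ) : (kset a b f F s α β).OrdConnected := by
  refine ⟨fun x hx x' hx' y hy => ?_⟩
  obtain ⟨hle, q, hq, ht⟩ := hx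
  obtain ⟨hle', q', hq', ht'⟩ := hx'
  have hxx' : x ≤ x' := hy.1.trans hy.2
  rcases hxx'.eq_or_lt with heq | hlt
  · subst heq
    have : y = x := le_antisymm hy.2 hy.1
    subst this
    exact ⟨hle, q, hq, ht⟩
  obtain ⟨p, hp, htp⟩ := exists_touch_between h hs ht ht' hlt hy
  refine ⟨?_, p, ⟨hq.1.trans hp.1, hp.2.trans hq'.2⟩, htp⟩
  have hL := convexOn_Lo h hs
  have hU := concaveOn_Up h hs
  have hsub : ConvexOn ℝ (Icc (a + s) (b - s)) (Lo f s - Up F s) := hL.sub hU
  have hset := hsub.convex_le 0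
  have h1 : x ∈ {x | x ∈ Icc (a + s) (b - s) ∧ (Lo f s - Up F s) x ≤ 0} :=
    ⟨ht.1, by simpa using hle⟩
  have h2 : x' ∈ {x | x ∈ Icc (a + s) (b - s) ∧ (Lo f s - Up F s) x ≤ 0} :=
    ⟨ht'.1, by simpa using hle'⟩
  have h3 := hset.ordConnected.out h1 h2 hy
  have := h3.2
  simpa using this

theorem volume_kset_le {a b : ℝ} {f F : ℝ → ℝ} (h : CProf a b f F) {s : ℝ} (hs : 0 < s)
    {α β : ℝ} (hαβ : α ≤ β) :
    volume (kset a b f F s α β) ≤ ENNReal.ofReal (β - α) := by
  refine (Real.volume_le_diam _).trans ?_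
  apply Metric.ediam_le
  have key : ∀ x ∈ kset a b f F s α β, ∀ x' ∈ kset a b f F s α β, x < x' → x' - x ≤ β - α := by
    intro x hx x' hx' hlt
    obtain ⟨-, q, hq, ht⟩ := hx
    obtain ⟨-, q', hq', ht'⟩ := hx'
    have := (ht.mono h hs ht' hlt).2
    linarith [hq.1, hq'.2]
  intro x hx x' hx'
  rw [edist_dist, Real.dist_eq]
  apply ENNReal.ofReal_le_ofReal
  rcases lt_trichotomy x x' with h1 | h1 | h1
  · rw [abs_sub_comm, abs_of_pos (by linarith)]
    exact key x hx x' hx' h1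
  · subst h1; simp [hαβ]
  · rw [abs_of_pos (by linarith)]
    exact key x' hx' x hx h1

end

end Pool.Agent.Lib.MP_4cfb03_an
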