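import Pool.Agent.Lib.MP_4cfb03_an.Prof
import Pool.Agent.Lib.MP_4cfb03_an.Touch

/-!
# T11 : first and second order variation of the area of the inner parallel set
-/

open MeasureTheory Set
open scoped ENNReal ContDiff Topology

namespace Pool.Agent.Lib.MP_4cfb03_an

noncomputable section

namespace AreaAux

variable {a b : ℝ} {f F : ℝ → ℝ}

/-- the set of values of the envelope is nonempty -/
lemma vals_nonempty {s : ℝ} (hs : 0 < s) (f : ℝ → ℝ) (x : ℝ) :
    ((fun w => f (x + w) + Real.sqrt (s ^ 2 - w ^ 2)) '' Ioo (-s) s).Nonempty :=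
  ⟨_, ⟨0, ⟨by linarith, hs⟩, rfl⟩⟩

lemma mem_Ioo_of {s x w : ℝ} (hx : x ∈ Icc (a + s) (b - s)) (hw : w ∈ Ioo (-s) s) :
    x + w ∈ Ioo a b := ⟨by linarith [hx.1, hw.1], by linarith [hx.2, hw.2]⟩

/-- `Lo` is bounded above by any bound of the values. -/
lemma Lo_le {s : ℝ} (hs : 0 < s) {f : ℝ → ℝ} {x C : ℝ}
    (hC : ∀ w ∈ Ioo (-s) s, f (x + w) + Real.sqrt (s ^ 2 - w ^ 2) ≤ C) : Lo f s x ≤ C := by
  apply csSup_le (vals_nonempty hs f x)
  rintro _ ⟨w, hw, rfl⟩
  exact hC w hw

lemma val_le (h : CProf a b f F) {s : ℝ} (hs : 0 < s) {x w : ℝ} (hx : x ∈ Icc (a + s) (b - s))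
    (hw : w ∈ Ioo (-s) s) : f (x + w) + Real.sqrt (s ^ 2 - w ^ 2) ≤ Lo f s x := by
  have := le_Lo h hs hx (mem_Ioo_of hx hw) (by
    rw [add_sub_cancel_left]; exact abs_le.2 ⟨hw.1.le, hw.2.le⟩)
  rwa [add_sub_cancel_left] at this

/-- the gap `Up - Lo` is concave -/
lemma concaveOn_gap (h : CProf a b f F) {s : ℝ} (hs : 0 < s) :
    ConcaveOn ℝ (Icc (a + s) (b - s)) (fun x => Up F s x - Lo f s x) :=
  (concaveOn_Up h hs).sub (convexOn_Lo h hs)

/-- bounds -/
lemma gap_bdd (h : CProf a b f F) {s : ℝ} (hs : 0 < s) :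
    ∃ C, ∀ x ∈ Icc (a + s) (b - s), Up F s x - Lo f s x ≤ C := by
  obtain ⟨M, hM⟩ := h.bdd
  refine ⟨2 * M, fun x hx => ?_⟩
  have h0 : (0 : ℝ) ∈ Ioo (-s) s := ⟨by linarith, hs⟩
  have hx0 : x ∈ Ioo a b := by simpa using mem_Ioo_of hx h0
  have h1 : Up F s x ≤ M := by
    have : Up F s x ≤ F (x + 0) - Real.sqrt (s ^ 2 - 0 ^ 2) := by
      apply csInf_le
      · refine ⟨-M - s, ?_⟩
        rintro _ ⟨w, hw, rfl⟩
        have hxw := mem_Ioo_of hx hw
        have h2 := h.fF _ hxw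
        have h3 := (hM _ hxw).1
        have h4 : Real.sqrt (s ^ 2 - w ^ 2) ≤ s := by
          rw [Real.sqrt_le_left hs.le]
          nlinarith [sq_nonneg w]
        dsimp only
        linarith
      · exact ⟨0, h0, rfl⟩
    have h5 := (hM x hx0).2
    have h6 := Real.sqrt_nonneg (s ^ 2 - 0 ^ 2)
    rw [add_zero] at this
    linarith
  have h2 : -M ≤ Lo f s x := by
    have h3 := val_le h hs hx h0
    have h5 := (hM x hx0).1
    have h6 := Real.sqrt_nonneg (s ^ 2 - 0 ^ 2)
    rw [add_zero] at h3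
    linarith
  linarith

lemma integrable_gap (h : CProf a b f F) {s : ℝ} (hs : 0 < s) :
    IntegrableOn (fun x => max (Up F s x - Lo f s x) 0) (Icc (a + s) (b - s)) := by
  obtain ⟨C, hC⟩ := gap_bdd h hs
  have hm : AEStronglyMeasurable (fun x => max (Up F s x - Lo f s x) 0)
      (volume.restrict (Icc (a + s) (b - s))) := by
    have h1 : ContinuousOn (fun x => Up F s x - Lo f s x) (Ioo (a + s) (b - s)) := by
      have := (concaveOn_gap h hs).continuousOn_interior
      rwa [interior_Icc] at this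
    have h2 : ContinuousOn (fun x => max (Up F s x - Lo f s x) 0) (Ioo (a + s) (b - s)) :=
      h1.sup continuousOn_const
    have h3 := h2.aestronglyMeasurable (μ := volume) measurableSet_Ioo
    rwa [Measure.restrict_congr_set (Ioo_ae_eq_Icc (μ := volume))] at h3
  refine Integrable.of_bound hm (max C 0) ?_
  · rw [ae_restrict_iff' measurableSet_Icc]
    refine Filter.Eventually.of_forall fun x hx => ?_
    rw [Real.norm_eq_abs, abs_of_nonneg (le_max_right _ _)]
    exact max_le_max (hC x hx) le_rfl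

/-- comparison of the envelopes of `f` and `f + t g`, `|g| ≤ 1`. -/
lemma Lo_add_le (h : CProf a b f F) {s : ℝ} (hs : 0 < s) {g : ℝ → ℝ} (hg : ∀ x, |g x| ≤ 1)
    {t : ℝ} {x : ℝ} (hx : x ∈ Icc (a + s) (b - s)) :
    Lo (fun x => f x + t * g x) s x ≤ Lo f s x + |t| := by
  apply Lo_le hs
  intro w hw
  have h1 := val_le h hs hx hw
  have h2 : t * g (x + w) ≤ |t| := by
    calc t * g (x + w) ≤ |t * g (x + w)| := le_abs_self _
      _ = |t| * |g (x + w)| := abs_mul _ _
      _ ≤ |t| * 1 := by gcongr; exact hg _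
      _ = |t| := mul_one _
  linarith

/-- if the maximum of the values decreases after a perturbation supported in `[α, β]`, the disc
touches the graph over `[α, β]`. -/
lemma exists_touch (h : CProf a b f F) {s : ℝ} (hs : 0 < s) {α β : ℝ} (hα : a < α) (hβ : β < b)
    {k : ℝ → ℝ} (hk : CProf a b k F) (hkf : ∀ x, x ∉ Icc α β → k x = f x) {x : ℝ}
    (hx : x ∈ Icc (a + s) (b - s)) (hlt : Lo k s x < Lo f s x) :
    ∃ q ∈ Icc α β, Touch a b f s x q := by
  have hout : ∀ w ∈ Ioo (-s) s, x + w ∉ Icc α β →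
      f (x + w) + Real.sqrt (s ^ 2 - w ^ 2) ≤ Lo k s x := by
    intro w hw hxw
    have := val_le hk hs hx hw
    rwa [hkf _ hxw] at this
  set S : Set ℝ := Icc α β ∩ Icc (x - s) (x + s) with hS
  have hSc : IsCompact S := isCompact_Icc.inter isCompact_Icc
  have hne : S.Nonempty := by
    by_contra hcon
    rw [not_nonempty_iff_eq_empty] at hcon
    have : Lo f s x ≤ Lo k s x := by
      apply Lo_le hs
      intro w hw
      apply hout w hw
      intro hmem
      have : x + w ∈ S := ⟨hmem, by linarith [hw.1], by linarith [hw.2]⟩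
      rw [hcon] at this
      exact this
    exact absurd this (not_le.2 hlt)
  have hcont : ContinuousOn (fun q => f q + Real.sqrt (s ^ 2 - (q - x) ^ 2)) S := by
    apply ContinuousOn.add
    · refine (h.cvx.continuousOn isOpen_Ioo).mono ?_
      intro q hq
      exact ⟨lt_of_lt_of_le hα hq.1.1, lt_of_le_of_lt hq.1.2 hβ⟩
    · fun_prop
  obtain ⟨q, hqS, hq⟩ := hSc.exists_isMaxOn hne hcont
  refine ⟨q, hqS.1, hx, ⟨lt_of_lt_of_le hα hqS.1.1, lt_of_le_of_lt hqS.1.2 hβ⟩, ?_, ?_⟩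
  · rw [abs_le]
    constructor <;> linarith [hqS.2.1, hqS.2.2]
  · have hqab : q ∈ Ioo a b := ⟨lt_of_lt_of_le hα hqS.1.1, lt_of_le_of_lt hqS.1.2 hβ⟩
    have hqx : |q - x| ≤ s := by
      rw [abs_le]
      constructor <;> linarith [hqS.2.1, hqS.2.2]
    apply le_antisymm _ (le_Lo h hs hx hqab hqx)
    have : Lo f s x ≤ max (Lo k s x) (f q + Real.sqrt (s ^ 2 - (q - x) ^ 2)) := by
      apply Lo_le hs
      intro w hw
      by_cases hmem : x + w ∈ Icc α β
      · apply le_max_of_le_right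
        have h1 : x + w ∈ S := ⟨hmem, by linarith [hw.1], by linarith [hw.2]⟩
        have h2 := hq h1
        simp only [mem_ofPred_eq, add_sub_cancel_left] at h2
        exact h2
      · exact le_max_of_le_left (hout w hw hmem)
    rcases le_max_iff.1 this with h1 | h1
    · exact absurd h1 (not_le.2 hlt)
    · exact h1

/-- the set of abscissas of the centres touching over `[α, β]`, with gap `> -t`. -/
def aset (a b : ℝ) (f F : ℝ → ℝ) (s α β t : ℝ) : Set ℝ :=
  {x | x ∈ Icc (a + s) (b - s) ∧ -t < Up F s x - Lo f s x} ∩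
    {x | ∃ q ∈ Icc α β, Touch a b f s x q}

lemma touchset_ordConnected (h : CProf a b f F) {s : ℝ} (hs : 0 < s) (α β : ℝ) :
    {x | ∃ q ∈ Icc α β, Touch a b f s x q}.OrdConnected := by
  refine ⟨?_⟩
  rintro x ⟨q, hq, hxq⟩ x' ⟨q', hq', hxq'⟩ y hy
  rcases eq_or_lt_of_le (hy.1.trans hy.2) with hxx | hxx
  · have : y = x := le_antisymm (hxx ▸ hy.2) hy.1
    rw [this]
    exact ⟨q, hq, hxq⟩
  · obtain ⟨p, hp, hpt⟩ := exists_touch_between h hs hxq hxq' hxx hy
    exact ⟨p, ⟨hq.1.trans hp.1, hp.2.trans hq'.2⟩, hpt⟩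

lemma measurableSet_aset (h : CProf a b f F) {s : ℝ} (hs : 0 < s) (α β t : ℝ) :
    MeasurableSet (aset a b f F s α β t) := by
  apply MeasurableSet.inter
  · exact ((concaveOn_gap h hs).convex_gt (-t)).ordConnected.measurableSet
  · exact (touchset_ordConnected h hs α β).measurableSet

lemma iInter_aset (s α β : ℝ) :
    (⋂ t > (0 : ℝ), aset a b f F s α β t) = kset a b f F s α β := by
  ext x
  simp only [mem_iInter, aset, kset, mem_inter_iff, mem_ofPred_eq]
  constructor
  · intro hx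
    refine ⟨?_, (hx 1 one_pos).2⟩
    have : ∀ t > (0 : ℝ), Lo f s x ≤ Up F s x + t := fun t ht => by linarith [(hx t ht).1.2]
    exact le_of_forall_pos_le_add this
  · rintro ⟨h1, q, hq, ht⟩ t ht0
    exact ⟨⟨ht.1, by linarith⟩, q, hq, ht⟩

lemma aset_subset_Icc (s α β t : ℝ) : aset a b f F s α β t ⊆ Icc (a + s) (b - s) :=
  fun _ hx => hx.1.1

lemma volume_aset_lt_top (s α β t : ℝ) : volume (aset a b f F s α β t) < ⊤ :=
  lt_of_le_of_lt (measure_mono (aset_subset_Icc s α β t)) measure_Icc_lt_top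

lemma exists_aset_le (h : CProf a b f F) {s : ℝ} (hs : 0 < s) (α β : ℝ) {η : ℝ} (hη : 0 < η) :
    ∃ t0, 0 < t0 ∧ ∀ t, 0 < t → t < t0 → (volume (aset a b f F s α β t)).toReal ≤
      (volume (kset a b f F s α β)).toReal + η := by
  have h1 : Filter.Tendsto (volume ∘ aset a b f F s α β) (𝓝[>] 0)
      (𝓝 (volume (kset a b f F s α β))) := by
    rw [← iInter_aset]
    apply tendsto_measure_biInter_gt
    · intro r _
      exact (measurableSet_aset h hs α β r).nullMeasurableSet
    · rintro i j _ hij x ⟨⟨h1, h2⟩, h3⟩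
      exact ⟨⟨h1, by linarith⟩, h3⟩
    · exact ⟨1, one_pos, (volume_aset_lt_top s α β 1).ne⟩
  have hk : volume (kset a b f F s α β) ≠ ⊤ := by
    refine (lt_of_le_of_lt (measure_mono ?_) (volume_aset_lt_top (a := a) (b := b) (f := f)
      (F := F) s α β 1)).ne
    rw [← iInter_aset]
    exact iInter₂_subset 1 one_pos
  have h2 : Filter.Tendsto (fun t => (volume (aset a b f F s α β t)).toReal) (𝓝[>] 0)
      (𝓝 (volume (kset a b f F s α β)).toReal) :=
    (ENNReal.tendsto_toReal hk).comp h1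
  have h3 : ∀ᶠ t in 𝓝[>] (0 : ℝ), (volume (aset a b f F s α β t)).toReal <
      (volume (kset a b f F s α β)).toReal + η :=
    h2.eventually (gt_mem_nhds (by linarith))
  rw [Filter.Eventually, mem_nhdsGT_iff_exists_Ioo_subset] at h3
  obtain ⟨t0, ht0, ht⟩ := h3
  exact ⟨t0, ht0, fun t h0 ht1 => (ht ⟨h0, ht1⟩).le⟩

/-- the half circle is concave -/
lemma half_circle_concave {s : ℝ} (hs : 0 < s) :
    ConcaveOn ℝ (Icc (-s) s) (fun u => Real.sqrt (s ^ 2 - u ^ 2)) := by
  refine ⟨convex_Icc _ _, ?_⟩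
  intro A hA D hD p q hp hq hpq
  simp only [smul_eq_mul]
  have hA2 : 0 ≤ s ^ 2 - A ^ 2 := by nlinarith [hA.1, hA.2]
  have hD2 : 0 ≤ s ^ 2 - D ^ 2 := by nlinarith [hD.1, hD.2]
  have h1 := Real.sq_sqrt hA2
  have h2 := Real.sq_sqrt hD2
  apply Real.le_sqrt_of_sq_le
  have hqq : q = 1 - p := by linarith
  subst hqq
  nlinarith [mul_nonneg hp hq, sq_nonneg (Real.sqrt (s ^ 2 - A ^ 2) - Real.sqrt (s ^ 2 - D ^ 2)),
    sq_nonneg (A - D), mul_nonneg (mul_nonneg hp hq)
      (sq_nonneg (Real.sqrt (s ^ 2 - A ^ 2) - Real.sqrt (s ^ 2 - D ^ 2))),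
    mul_nonneg (mul_nonneg hp hq) (sq_nonneg (A - D))]

lemma concave_swap {φ : ℝ → ℝ} {I : Set ℝ} (hφ : ConcaveOn ℝ I φ) {A B C D : ℝ} (hA : A ∈ I)
    (hD : D ∈ I) (hAB : A ≤ B) (hBD : B ≤ D) (hsum : B + C = A + D) :
    φ A + φ D ≤ φ B + φ C := by
  rcases eq_or_lt_of_le (hAB.trans hBD) with hAD | hAD
  · have h1 : B = A := le_antisymm (hAD ▸ hBD) hAB
    have h2 : C = D := by linarith
    rw [h1, h2]
  · have hne : D - A ≠ 0 := by linarith
    have hpos : 0 < D - A := by linarith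
    set p : ℝ := (D - B) / (D - A) with hp
    have hp0 : 0 ≤ p := div_nonneg (by linarith) hpos.le
    have hp1 : 0 ≤ 1 - p := by
      rw [hp, sub_nonneg, div_le_one hpos]
      linarith
    have hB : B = p • A + (1 - p) • D := by
      rw [smul_eq_mul, smul_eq_mul, hp]
      field_simp
      ring
    have hC : C = (1 - p) • A + p • D := by
      have : C = A + D - B := by linarith
      rw [this, smul_eq_mul, smul_eq_mul, hp]
      field_simp
      ring
    have h1 := hφ.2 hA hD hp0 hp1 (by ring)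
    have h2 := hφ.2 hA hD hp1 hp0 (by ring)
    rw [← hB] at h1
    rw [← hC] at h2
    simp only [smul_eq_mul] at h1 h2
    linarith

/-- to the left (right) of a touching abscissa the values over the points on the right (left) of
the touching point are not needed. -/
lemma val_le_swap (h : CProf a b f F) {s : ℝ} (hs : 0 < s) {x x' q' q : ℝ}
    (ht : Touch a b f s x' q') (hq : q ∈ Ioo a b)
    (hqx : |q - x| ≤ s) (hcase : (q' ≤ q ∧ x ≤ x') ∨ (q ≤ q' ∧ x' ≤ x)) :
    |q' - x| ≤ s ∧ f q + Real.sqrt (s ^ 2 - (q - x) ^ 2) ≤ f q' + Real.sqrt (s ^ 2 - (q' - x) ^ 2) := by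
  have hqx' := abs_le.1 hqx
  have hq'x' := abs_le.1 ht.2.2.1
  have hA : |q' - x| ≤ s := by
    rw [abs_le]
    rcases hcase with ⟨h1, h2⟩ | ⟨h1, h2⟩ <;> constructor <;> linarith [hqx'.1, hqx'.2, hq'x'.1,
      hq'x'.2]
  have hB : |q - x'| ≤ s := by
    rw [abs_le]
    rcases hcase with ⟨h1, h2⟩ | ⟨h1, h2⟩ <;> constructor <;> linarith [hqx'.1, hqx'.2, hq'x'.1,
      hq'x'.2]
  refine ⟨hA, ?_⟩
  have h1 := le_Lo h hs ht.1 hq hB
  rw [ht.2.2.2] at h1
  have h2 : Real.sqrt (s ^ 2 - (q - x) ^ 2) + Real.sqrt (s ^ 2 - (q' - x') ^ 2) ≤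
      Real.sqrt (s ^ 2 - (q' - x) ^ 2) + Real.sqrt (s ^ 2 - (q - x') ^ 2) := by
    have hmem1 : q - x ∈ Icc (-s) s := hqx'
    have hmem2 : q' - x' ∈ Icc (-s) s := hq'x'
    rcases hcase with ⟨h1, h2⟩ | ⟨h1, h2⟩
    · have := concave_swap (half_circle_concave hs) hmem2 hmem1 (B := q' - x) (C := q - x')
        (by linarith) (by linarith) (by ring)
      linarith
    · have := concave_swap (half_circle_concave hs) hmem1 hmem2 (B := q' - x) (C := q - x')
        (by linarith) (by linarith) (by ring)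
      linarith
  linarith

lemma Lo_le_left (h : CProf a b f F) {s : ℝ} (hs : 0 < s) {k : ℝ → ℝ} (hk : CProf a b k F)
    {x x' q' : ℝ} (ht : Touch a b f s x' q') (hx : x ∈ Icc (a + s) (b - s)) (hxx : x ≤ x')
    (hkf : ∀ q, q ≤ q' → k q = f q) : Lo f s x ≤ Lo k s x := by
  apply Lo_le hs
  intro w hw
  rcases le_or_gt (x + w) q' with hle | hgt
  · have := val_le hk hs hx hw
    rwa [hkf _ hle] at this
  · obtain ⟨h1, h2⟩ := val_le_swap h hs ht (mem_Ioo_of hx hw) (x := x) (by
      rw [add_sub_cancel_left]; exact abs_le.2 ⟨hw.1.le, hw.2.le⟩) (Or.inl ⟨hgt.le, hxx⟩)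
    rw [add_sub_cancel_left] at h2
    have h3 := le_Lo hk hs hx ht.2.1 h1
    rw [hkf _ le_rfl] at h3
    linarith

lemma Lo_le_right (h : CProf a b f F) {s : ℝ} (hs : 0 < s) {k : ℝ → ℝ} (hk : CProf a b k F)
    {x x' q' : ℝ} (ht : Touch a b f s x' q') (hx : x ∈ Icc (a + s) (b - s)) (hxx : x' ≤ x)
    (hkf : ∀ q, q' ≤ q → k q = f q) : Lo f s x ≤ Lo k s x := by
  apply Lo_le hs
  intro w hw
  rcases le_or_gt q' (x + w) with hle | hgt
  · have := val_le hk hs hx hw
    rwa [hkf _ hle] at this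
  · obtain ⟨h1, h2⟩ := val_le_swap h hs ht (mem_Ioo_of hx hw) (x := x) (by
      rw [add_sub_cancel_left]; exact abs_le.2 ⟨hw.1.le, hw.2.le⟩) (Or.inr ⟨hgt.le, hxx⟩)
    rw [add_sub_cancel_left] at h2
    have h3 := le_Lo hk hs hx ht.2.1 h1
    rw [hkf _ le_rfl] at h3
    linarith

/-- second order lower bound for the half circle -/
lemma half_circle_taylor {s w0 w R : ℝ} (hs : 0 < s) (h0 : 2 * w0 ^ 2 ≤ s ^ 2) (hw : |w| ≤ s / 10)
    (hR : R = Real.sqrt (s ^ 2 - w0 ^ 2)) :
    R - w0 / R * w - 2 / s * w ^ 2 ≤ Real.sqrt (s ^ 2 - (w0 + w) ^ 2) := by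
  have hR2 : R ^ 2 = s ^ 2 - w0 ^ 2 := by
    rw [hR, Real.sq_sqrt]
    nlinarith [sq_nonneg w0]
  have hRpos : 0 < R := by
    rw [hR]
    apply Real.sqrt_pos.2
    nlinarith [sq_pos_of_pos hs]
  have hRs : 7 / 10 * s ≤ R := by
    by_contra hcon
    push Not at hcon
    nlinarith [sq_pos_of_pos hs]
  have hμ : |w0 / R| ≤ 1 := by
    rw [abs_div, abs_of_pos hRpos, div_le_one hRpos]
    apply abs_le_of_sq_le_sq _ hRpos.le
    linarith
  have hv : |w / s| ≤ 1 / 10 := by
    rw [abs_div, abs_of_pos hs, div_le_iff₀ hs]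
    linarith
  have hρ : 7 / 10 ≤ R / s := by
    rw [le_div_iff₀ hs]
    exact hRs
  obtain ⟨μ, hμd⟩ : ∃ μ, μ = w0 / R := ⟨_, rfl⟩
  obtain ⟨v, hvd⟩ : ∃ v, v = w / s := ⟨_, rfl⟩
  obtain ⟨ρ, hρd⟩ : ∃ ρ, ρ = R / s := ⟨_, rfl⟩
  rw [← hμd] at hμ ⊢
  rw [← hvd] at hv
  rw [← hρd] at hρ
  have e1 : w0 = μ * R := by rw [hμd]; field_simp
  have e2 : w = v * s := by rw [hvd]; field_simp
  have e3 : R = ρ * s := by rw [hρd]; field_simp
  have e4 : 2 / s * w ^ 2 = 2 * v ^ 2 * s := by rw [e2]; field_simp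
  have hμ' := abs_le.1 hμ
  have hv' := abs_le.1 hv
  have hμv : μ * v ≤ 1 / 10 := by
    have : |μ * v| ≤ 1 * (1 / 10) := by
      rw [abs_mul]
      exact mul_le_mul hμ hv (abs_nonneg _) zero_le_one
    linarith [le_abs_self (μ * v)]
  have hμ2 : μ ^ 2 ≤ 1 := by nlinarith
  have hv2 : v ^ 2 ≤ 1 / 100 := by nlinarith
  have key : 0 ≤ -1 - μ ^ 2 - 4 * v ^ 2 + 4 * ρ - 4 * (μ * v) := by linarith
  apply Real.le_sqrt_of_sq_le
  rw [e4]
  have h5 : s ^ 2 - (w0 + w) ^ 2 - (R - μ * w - 2 * v ^ 2 * s) ^ 2 =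
      s ^ 2 * v ^ 2 * (-1 - μ ^ 2 - 4 * v ^ 2 + 4 * ρ - 4 * (μ * v)) := by
    have h6 : s ^ 2 = R ^ 2 + w0 ^ 2 := by linarith
    have h7 : s ^ 2 - (w0 + w) ^ 2 = R ^ 2 - 2 * w0 * w - w ^ 2 := by rw [h6]; ring
    rw [h7, e1, e2, e3]
    ring
  have h8 := mul_nonneg (mul_nonneg (sq_nonneg s) (sq_nonneg v)) key
  rw [← h5] at h8
  linarith

/-- the gain at a point where the disc touches over an interval on which `g` is affine -/
lemma gain (h : CProf a b f F) {s : ℝ} (hs : 0 < s) {k g : ℝ → ℝ} (hk : CProf a b k F)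
    {α₁ β₁ d σ τ : ℝ} (hα : a < α₁) (hβ : β₁ < b) (hLip : LipschitzOnWith 1 f (Icc α₁ β₁))
    (hkf : ∀ y ∈ Icc α₁ β₁, k y = f y + τ * g y)
    (hg : ∀ y ∈ Icc α₁ β₁, g y = g α₁ + σ * (y - α₁)) (hd : 0 < d)
    (hτd : |τ * σ| * s / 4 ≤ d) (hτs : |τ * σ| ≤ 4 / 10) {x q : ℝ}
    (hq : q ∈ Icc (α₁ + d) (β₁ - d)) (ht : Touch a b f s x q) :
    Lo f s x + τ * g q + (τ * σ) ^ 2 * s / 8 ≤ Lo k s x := by
  obtain ⟨hx, hqab, hqx, hL⟩ := ht
  obtain ⟨hlt, hsub⟩ := Touch.subgrad h hs ⟨hx, hqab, hqx, hL⟩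
  have hlt' := abs_lt.1 hlt
  set R := Real.sqrt (s ^ 2 - (q - x) ^ 2) with hR
  have hRpos : 0 < R := by
    apply Real.sqrt_pos.2
    nlinarith [hlt'.1, hlt'.2]
  have hR2 : R ^ 2 = s ^ 2 - (q - x) ^ 2 := by
    rw [hR, Real.sq_sqrt]
    nlinarith [hlt'.1, hlt'.2]
  have hq1 : q ∈ Icc α₁ β₁ := ⟨by linarith [hq.1], by linarith [hq.2]⟩
  have hLip' : ∀ y ∈ Icc α₁ β₁, f y - f q ≤ |y - q| := by
    intro y hy
    have := hLip.dist_le_mul y hy q hq1
    rw [Real.dist_eq, Real.dist_eq, NNReal.coe_one, one_mul] at this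
    exact (le_abs_self _).trans this
  have hab : ∀ y ∈ Icc α₁ β₁, y ∈ Ioo a b := fun y hy => ⟨by linarith [hy.1], by linarith [hy.2]⟩
  have hμ : |(q - x) / R| ≤ 1 := by
    rw [abs_le]
    have hy1 : q + d ∈ Icc α₁ β₁ := ⟨by linarith [hq.1], by linarith [hq.2]⟩
    have hy2 : q - d ∈ Icc α₁ β₁ := ⟨by linarith [hq.1], by linarith [hq.2]⟩
    have h1 := hsub _ (hab _ hy1)
    have h2 := hsub _ (hab _ hy2)
    have h3 := hLip' _ hy1
    have h4 := hLip' _ hy2
    rw [add_sub_cancel_left, abs_of_pos hd] at h3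
    rw [show q - d - q = -d by ring, abs_neg, abs_of_pos hd] at h4
    constructor
    · have h5 : f q + (q - x) / R * (-d) ≤ f q + d := by
        have : q - d - q = -d := by ring
        rw [this] at h2
        linarith
      by_contra hcon
      push Not at hcon
      nlinarith
    · have h5 : f q + (q - x) / R * d ≤ f q + d := by
        rw [add_sub_cancel_left] at h1
        linarith
      by_contra hcon
      push Not at hcon
      nlinarith
  have h0 : 2 * (q - x) ^ 2 ≤ s ^ 2 := by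
    rw [abs_div, abs_of_pos hRpos, div_le_one hRpos] at hμ
    have := sq_le_sq' (by linarith [abs_nonneg (q - x)]) hμ
    rw [sq_abs] at this
    linarith
  set w := τ * σ * s / 4 with hw
  have hwd : |w| ≤ d := by
    rw [hw, abs_div, abs_mul, abs_of_pos hs, abs_of_pos (by norm_num : (0 : ℝ) < 4)]
    exact hτd
  have hws : |w| ≤ s / 10 := by
    rw [hw, abs_div, abs_mul, abs_of_pos hs, abs_of_pos (by norm_num : (0 : ℝ) < 4)]
    nlinarith
  have hwd' := abs_le.1 hwd
  have hws' := abs_le.1 hws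
  have hqw : q + w ∈ Icc α₁ β₁ := ⟨by linarith [hq.1], by linarith [hq.2]⟩
  have hT := half_circle_taylor hs h0 hws hR
  have h1 := hsub _ (hab _ hqw)
  rw [add_sub_cancel_left] at h1
  have h2 : |q + w - x| ≤ s := by
    have h3 : |q - x| ≤ 8 / 10 * s := by
      apply abs_le_of_sq_le_sq _ (by positivity)
      nlinarith [sq_pos_of_pos hs]
    have h3' := abs_le.1 h3
    rw [abs_le]
    constructor <;> linarith
  have h4 := le_Lo hk hs hx (hab _ hqw) h2
  rw [hkf _ hqw, hg _ hqw] at h4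
  have h5 : g q = g α₁ + σ * (q - α₁) := hg _ hq1
  have h6 : q + w - x = q - x + w := by ring
  rw [h6] at h4
  have h7 : τ * (σ * w) - 2 / s * w ^ 2 = (τ * σ) ^ 2 * s / 8 := by
    rw [hw]
    field_simp
    ring
  have h8 : τ * (g α₁ + σ * (q + w - α₁)) = τ * g q + τ * (σ * w) := by rw [h5]; ring
  rw [hL]
  linarith

end AreaAux

open AreaAux

theorem area_first {a b : ℝ} {f F : ℝ → ℝ} (h : CProf a b f F) {s : ℝ} (hs : 0 < s) {α β : ℝ}
    (hα : a < α) (hαβ : α < β) (hβ : β < b) {g : ℝ → ℝ} (hg : Continuous g)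
    (hg0 : ∀ x, 0 ≤ g x) (hg1 : ∀ x, g x ≤ 1) (hgs : ∀ x, x ∉ Icc α β → g x = 0) {η : ℝ}
    (hη : 0 < η) :
    ∃ t0, 0 < t0 ∧ ∀ t, 0 < t → t < t0 → CProf a b (fun x => f x - t * g x) F →
      ar (inn (prof a b (fun x => f x - t * g x) F) s) ≤
        ar (inn (prof a b f F) s) + t * ((volume (kset a b f F s α β)).toReal + η) := by
  obtain ⟨t0, ht0, hA⟩ := exists_aset_le h hs α β hη
  refine ⟨t0, ht0, fun t ht htt hP => ?_⟩
  rw [ar_inn_prof h hs, ar_inn_prof hP hs]
  have hmA := measurableSet_aset h hs α β t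
  have hint : IntegrableOn ((aset a b f F s α β t).indicator fun _ => t) (Icc (a + s) (b - s)) := by
    rw [IntegrableOn, integrable_indicator_iff hmA, IntegrableOn]
    exact integrable_const t
  have hpt : ∀ x ∈ Icc (a + s) (b - s),
      max (Up F s x - Lo (fun x => f x - t * g x) s x) 0 ≤
        max (Up F s x - Lo f s x) 0 + (aset a b f F s α β t).indicator (fun _ => t) x := by
    intro x hx
    have hlow : Lo f s x ≤ Lo (fun x => f x - t * g x) s x + t := by
      have h1 := Lo_add_le (f := fun x => f x - t * g x) (t := t) hP hs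
        (fun x => abs_le.2 ⟨by linarith [hg0 x], hg1 x⟩) hx
      simp only [sub_add_cancel, abs_of_pos ht] at h1
      exact h1
    have hind : 0 ≤ (aset a b f F s α β t).indicator (fun _ => t) x :=
      indicator_nonneg (fun _ _ => ht.le) x
    rcases le_or_gt (Lo f s x) (Lo (fun x => f x - t * g x) s x) with hle | hlt
    · have : max (Up F s x - Lo (fun x => f x - t * g x) s x) 0 ≤ max (Up F s x - Lo f s x) 0 :=
        max_le_max (by linarith) le_rfl
      linarith
    · have htouch := exists_touch h hs hα hβ hP (fun x hx => by simp [hgs x hx]) hx hlt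
      by_cases hgap : -t < Up F s x - Lo f s x
      · have hmem : x ∈ aset a b f F s α β t := ⟨⟨hx, hgap⟩, htouch⟩
        rw [indicator_of_mem hmem]
        apply max_le
        · linarith [le_max_left (Up F s x - Lo f s x) 0]
        · linarith [le_max_right (Up F s x - Lo f s x) 0]
      · have : max (Up F s x - Lo (fun x => f x - t * g x) s x) 0 = 0 :=
          max_eq_right (by linarith [not_lt.1 hgap])
        rw [this]
        have := le_max_right (Up F s x - Lo f s x) 0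
        linarith
  calc ∫ x in Icc (a + s) (b - s), max (Up F s x - Lo (fun x => f x - t * g x) s x) 0
      ≤ ∫ x in Icc (a + s) (b - s), (max (Up F s x - Lo f s x) 0 +
          (aset a b f F s α β t).indicator (fun _ => t) x) :=
        setIntegral_mono_on (integrable_gap hP hs) ((integrable_gap h hs).add hint)
          measurableSet_Icc hpt
    _ = (∫ x in Icc (a + s) (b - s), max (Up F s x - Lo f s x) 0) +
          ∫ x in Icc (a + s) (b - s), (aset a b f F s α β t).indicator (fun _ => t) x :=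
        integral_add (integrable_gap h hs) hint
    _ = (∫ x in Icc (a + s) (b - s), max (Up F s x - Lo f s x) 0) +
          t * (volume (aset a b f F s α β t)).toReal := by
        congr 1
        rw [integral_indicator hmA, setIntegral_const, Measure.real,
          Measure.restrict_apply hmA, inter_eq_self_of_subset_left (aset_subset_Icc s α β t),
          smul_eq_mul, mul_comm]
    _ ≤ _ := by
        have := hA t ht htt
        gcongr

namespace AreaAux

variable {a b : ℝ} {f F : ℝ → ℝ}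

lemma kset_subset_Icc (s α β : ℝ) : kset a b f F s α β ⊆ Icc (a + s) (b - s) := by
  rintro x ⟨_, q, _, ht⟩
  exact ht.1

lemma volume_kset_lt_top (s α β : ℝ) : volume (kset a b f F s α β) < ⊤ :=
  lt_of_le_of_lt (measure_mono (kset_subset_Icc s α β)) measure_Icc_lt_top

lemma volume_kset_shrink (h : CProf a b f F) {s : ℝ} (hs : 0 < s) (α β : ℝ) {d η : ℝ}
    (hd : 0 ≤ d) (hdη : 2 * d ≤ η) :
    (volume (kset a b f F s α β)).toReal - η ≤
      (volume (kset a b f F s (α + d) (β - d))).toReal := by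
  have hsub : kset a b f F s α β ⊆ (kset a b f F s α (α + d) ∪ kset a b f F s (β - d) β) ∪
      kset a b f F s (α + d) (β - d) := by
    rintro x ⟨h1, q, hq, ht⟩
    rcases le_or_gt q (α + d) with h2 | h2
    · exact Or.inl (Or.inl ⟨h1, q, ⟨hq.1, h2⟩, ht⟩)
    · rcases le_or_gt (β - d) q with h3 | h3
      · exact Or.inl (Or.inr ⟨h1, q, ⟨h3, hq.2⟩, ht⟩)
      · exact Or.inr ⟨h1, q, ⟨h2.le, h3.le⟩, ht⟩
  have h1 := volume_kset_le h hs (α := α) (β := α + d) (by linarith)
  have h2 := volume_kset_le h hs (α := β - d) (β := β) (by linarith)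
  have h3 : volume (kset a b f F s α β) ≤ ENNReal.ofReal d + ENNReal.ofReal d +
      volume (kset a b f F s (α + d) (β - d)) := by
    refine (measure_mono hsub).trans ((measure_union_le _ _).trans ?_)
    gcongr
    refine (measure_union_le _ _).trans ?_
    gcongr
    · rwa [add_sub_cancel_left] at h1
    · rwa [sub_sub_cancel] at h2
  have h4 := ENNReal.toReal_mono (by
    exact ENNReal.add_ne_top.2 ⟨ENNReal.add_ne_top.2 ⟨ENNReal.ofReal_ne_top,
      ENNReal.ofReal_ne_top⟩, (volume_kset_lt_top s (α + d) (β - d)).ne⟩) h3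
  rw [ENNReal.toReal_add (ENNReal.add_ne_top.2 ⟨ENNReal.ofReal_ne_top, ENNReal.ofReal_ne_top⟩)
    (volume_kset_lt_top s (α + d) (β - d)).ne, ENNReal.toReal_add ENNReal.ofReal_ne_top
    ENNReal.ofReal_ne_top, ENNReal.toReal_ofReal hd] at h4
  linarith

lemma measurableSet_kset (h : CProf a b f F) {s : ℝ} (hs : 0 < s) (α β : ℝ) :
    MeasurableSet (kset a b f F s α β) := (kset_ordConnected h hs α β).measurableSet

end AreaAux

theorem area_second {a b : ℝ} {f F : ℝ → ℝ} (h : CProf a b f F) {s : ℝ} (hs : 0 < s) {α β : ℝ}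
    (hα : a < α) (hαβ : α < β) (hβ : β < b) {g : ℝ → ℝ} (hg : Continuous g)
    (hgb : ∀ x, |g x| ≤ 1) (hgs : ∀ x, x ∉ Icc α β → g x = 0)
    (hf : LipschitzOnWith 1 f (Icc α β))
    {x' q' x'' q'' : ℝ} (h1 : Touch a b f s x' q') (hq1 : q' ≤ α) (hD1 : Lo f s x' < Up F s x')
    (h2 : Touch a b f s x'' q'') (hq2 : β ≤ q'') (hD2 : Lo f s x'' < Up F s x'')
    {α₁ β₁ σ₁ α₂ β₂ σ₂ : ℝ} (h01 : α ≤ α₁) (h11 : α₁ < β₁) (h12 : β₁ ≤ α₂) (h22 : α₂ < β₂)
    (h23 : β₂ ≤ β) (hg1 : ∀ x ∈ Icc α₁ β₁, g x = g α₁ + σ₁ * (x - α₁))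
    (hg2 : ∀ x ∈ Icc α₂ β₂, g x = g α₂ + σ₂ * (x - α₂)) {η : ℝ} (hη : 0 < η) :
    ∃ t0, 0 < t0 ∧ ∀ t, 0 < t → t < t0 → CProf a b (fun x => f x + t * g x) F →
      CProf a b (fun x => f x + (-t) * g x) F →
      ar (inn (prof a b (fun x => f x + t * g x) F) s) +
        ar (inn (prof a b (fun x => f x + (-t) * g x) F) s) ≤
        2 * ar (inn (prof a b f F) s) -
          s / 8 * t ^ 2 * (σ₁ ^ 2 * ((volume (kset a b f F s α₁ β₁)).toReal - η) +
            σ₂ ^ 2 * ((volume (kset a b f F s α₂ β₂)).toReal - η)) := by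
  -- `g` vanishes at the end points too
  have hgα : g α = 0 := by
    have h3 : Filter.Tendsto g (𝓝[<] α) (𝓝 (g α)) := (hg.tendsto α).mono_left nhdsWithin_le_nhds
    have h4 : Filter.Tendsto g (𝓝[<] α) (𝓝 0) := by
      apply tendsto_const_nhds.congr'
      filter_upwards [self_mem_nhdsWithin] with y hy
      exact (hgs y fun hc => absurd hc.1 (not_le.2 hy)).symm
    exact tendsto_nhds_unique h3 h4
  have hgβ : g β = 0 := by
    have h3 : Filter.Tendsto g (𝓝[>] β) (𝓝 (g β)) := (hg.tendsto β).mono_left nhdsWithin_le_nhds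
    have h4 : Filter.Tendsto g (𝓝[>] β) (𝓝 0) := by
      apply tendsto_const_nhds.congr'
      filter_upwards [self_mem_nhdsWithin] with y hy
      exact (hgs y fun hc => absurd hc.2 (not_le.2 hy)).symm
    exact tendsto_nhds_unique h3 h4
  have hgle : ∀ q, q ≤ α → g q = 0 := by
    intro q hq
    rcases eq_or_lt_of_le hq with h3 | h3
    · rw [h3, hgα]
    · exact hgs q fun hc => absurd hc.1 (not_le.2 h3)
  have hgge : ∀ q, β ≤ q → g q = 0 := by
    intro q hq
    rcases eq_or_lt_of_le hq with h3 | h3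
    · rw [← h3, hgβ]
    · exact hgs q fun hc => absurd hc.2 (not_le.2 h3)
  set D : ℝ → ℝ := fun x => Up F s x - Lo f s x with hD
  set d0 : ℝ := min (D x') (D x'') with hd0
  have hd0pos : 0 < d0 := lt_min (sub_pos.2 hD1) (sub_pos.2 hD2)
  set d : ℝ := η / 2 with hd
  have hdpos : 0 < d := by positivity
  set SS : ℝ := |σ₁| + |σ₂| + 1 with hSS
  have hSSpos : 0 < SS := by positivity
  have hσ1 : |σ₁| ≤ SS := by linarith [abs_nonneg σ₂]
  have hσ2 : |σ₂| ≤ SS := by linarith [abs_nonneg σ₁]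
  refine ⟨min d0 (min (4 * d / (s * SS)) (4 / 10 / SS)), by positivity, ?_⟩
  intro t ht htt hP hM
  have ht1 : t < d0 := lt_of_lt_of_le htt (min_le_left _ _)
  have ht2 : t * (s * SS) ≤ 4 * d := by
    rw [← le_div_iff₀ (by positivity)]
    exact (lt_of_lt_of_le htt ((min_le_right _ _).trans (min_le_left _ _))).le
  have ht3 : t * SS ≤ 4 / 10 := by
    rw [← le_div_iff₀ (by positivity)]
    exact (lt_of_lt_of_le htt ((min_le_right _ _).trans (min_le_right _ _))).le
  -- smallness for both signs and both slopes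
  have hsmall : ∀ τ, |τ| = t → ∀ σ, |σ| ≤ SS → |τ * σ| * s / 4 ≤ d ∧ |τ * σ| ≤ 4 / 10 := by
    intro τ hτ σ hσ
    rw [abs_mul, hτ]
    have h3 : t * |σ| ≤ t * SS := mul_le_mul_of_nonneg_left hσ ht.le
    constructor
    · have h4 : t * |σ| * s ≤ t * SS * s := mul_le_mul_of_nonneg_right h3 hs.le
      nlinarith
    · linarith
  have habs : |t| = t := abs_of_pos ht
  have habs' : |-t| = t := by rw [abs_neg, habs]
  set K₁ : Set ℝ := kset a b f F s (α₁ + d) (β₁ - d) with hK₁
  set K₂ : Set ℝ := kset a b f F s (α₂ + d) (β₂ - d) with hK₂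
  set c₁ : ℝ := s / 8 * t ^ 2 * σ₁ ^ 2 with hc₁
  set c₂ : ℝ := s / 8 * t ^ 2 * σ₂ ^ 2 with hc₂
  have hc₁0 : 0 ≤ c₁ := by positivity
  have hc₂0 : 0 ≤ c₂ := by positivity
  have hmK₁ : MeasurableSet K₁ := measurableSet_kset h hs _ _
  have hmK₂ : MeasurableSet K₂ := measurableSet_kset h hs _ _
  -- gains
  have hgain₁ : ∀ x ∈ K₁, 2 * Lo f s x + 2 * c₁ ≤
      Lo (fun x => f x + t * g x) s x + Lo (fun x => f x + (-t) * g x) s x := by
    rintro x ⟨_, q, hq, htq⟩
    have e1 := gain h hs hP (τ := t) (g := g) (α₁ := α₁) (β₁ := β₁) (d := d) (σ := σ₁)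
      (by linarith) (by linarith)
      (hf.mono (Icc_subset_Icc h01 (by linarith))) (fun y _ => rfl) hg1 hdpos
      (hsmall t habs σ₁ hσ1).1 (hsmall t habs σ₁ hσ1).2 hq htq
    have e2 := gain h hs hM (τ := -t) (g := g) (α₁ := α₁) (β₁ := β₁) (d := d) (σ := σ₁)
      (by linarith) (by linarith)
      (hf.mono (Icc_subset_Icc h01 (by linarith))) (fun y _ => rfl) hg1 hdpos
      (hsmall (-t) habs' σ₁ hσ1).1 (hsmall (-t) habs' σ₁ hσ1).2 hq htq
    rw [hc₁]
    linarith
  have hgain₂ : ∀ x ∈ K₂, 2 * Lo f s x + 2 * c₂ ≤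
      Lo (fun x => f x + t * g x) s x + Lo (fun x => f x + (-t) * g x) s x := by
    rintro x ⟨_, q, hq, htq⟩
    have e1 := gain h hs hP (τ := t) (g := g) (α₁ := α₂) (β₁ := β₂) (d := d) (σ := σ₂)
      (by linarith) (by linarith)
      (hf.mono (Icc_subset_Icc (by linarith) h23)) (fun y _ => rfl) hg2 hdpos
      (hsmall t habs σ₂ hσ2).1 (hsmall t habs σ₂ hσ2).2 hq htq
    have e2 := gain h hs hM (τ := -t) (g := g) (α₁ := α₂) (β₁ := β₂) (d := d) (σ := σ₂)
      (by linarith) (by linarith)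
      (hf.mono (Icc_subset_Icc (by linarith) h23)) (fun y _ => rfl) hg2 hdpos
      (hsmall (-t) habs' σ₂ hσ2).1 (hsmall (-t) habs' σ₂ hσ2).2 hq htq
    rw [hc₂]
    linarith
  have hsub₁ : ∀ x ∈ K₁, x' ≤ x ∧ x ≤ x'' := by
    rintro x ⟨_, q, hq, htq⟩
    constructor
    · by_contra hcon
      push Not at hcon
      have := (Touch.mono h hs htq h1 hcon).1
      linarith [hq.1]
    · by_contra hcon
      push Not at hcon
      have := (Touch.mono h hs h2 htq hcon).1
      linarith [hq.2]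
  have hsub₂ : ∀ x ∈ K₂, x' ≤ x ∧ x ≤ x'' := by
    rintro x ⟨_, q, hq, htq⟩
    constructor
    · by_contra hcon
      push Not at hcon
      have := (Touch.mono h hs htq h1 hcon).1
      linarith [hq.1]
    · by_contra hcon
      push Not at hcon
      have := (Touch.mono h hs h2 htq hcon).1
      linarith [hq.2]
  -- the pointwise inequality
  have hpt : ∀ x ∈ Icc (a + s) (b - s),
      max (Up F s x - Lo (fun x => f x + t * g x) s x) 0 +
        max (Up F s x - Lo (fun x => f x + (-t) * g x) s x) 0 +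
        (K₁.indicator (fun _ => c₁) x + K₂.indicator (fun _ => c₂) x) ≤
      max (Up F s x - Lo f s x) 0 + max (Up F s x - Lo f s x) 0 := by
    intro x hx
    by_cases hin : x' ≤ x ∧ x ≤ x''
    · have hDx : d0 ≤ D x :=
        (concaveOn_gap h hs).min_le_of_mem_Icc h1.1 h2.1 (z := x) ⟨hin.1, hin.2⟩
      have hDx' : d0 ≤ Up F s x - Lo f s x := hDx
      have e1 := Lo_add_le h hs hgb (t := t) hx
      have e2 := Lo_add_le h hs hgb (t := -t) hx
      rw [habs] at e1
      rw [habs'] at e2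
      rw [max_eq_left (by linarith), max_eq_left (by linarith), max_eq_left (by linarith)]
      have hconv : 2 * Lo f s x ≤
          Lo (fun x => f x + t * g x) s x + Lo (fun x => f x + (-t) * g x) s x := by
        have : Lo f s x ≤
            (Lo (fun x => f x + t * g x) s x + Lo (fun x => f x + (-t) * g x) s x) / 2 := by
          apply Lo_le hs
          intro w hw
          have e3 := val_le hP hs hx hw
          have e4 := val_le hM hs hx hw
          linarith
        linarith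
      by_cases hx1 : x ∈ K₁ <;> by_cases hx2 : x ∈ K₂
      · rw [indicator_of_mem hx1, indicator_of_mem hx2]
        linarith [hgain₁ x hx1, hgain₂ x hx2]
      · rw [indicator_of_mem hx1, indicator_of_notMem hx2]
        linarith [hgain₁ x hx1]
      · rw [indicator_of_notMem hx1, indicator_of_mem hx2]
        linarith [hgain₂ x hx2]
      · rw [indicator_of_notMem hx1, indicator_of_notMem hx2]
        linarith
    · have hx1 : x ∉ K₁ := fun hc => hin (hsub₁ x hc)
      have hx2 : x ∉ K₂ := fun hc => hin (hsub₂ x hc)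
      rw [indicator_of_notMem hx1, indicator_of_notMem hx2]
      have key : ∀ {k : ℝ → ℝ}, CProf a b k F → (∀ q, q ≤ α → k q = f q) →
          (∀ q, β ≤ q → k q = f q) → Lo f s x ≤ Lo k s x := by
        intro k hk hk1 hk2
        rcases not_and_or.1 hin with h3 | h3
        · exact Lo_le_left h hs hk h1 hx (not_le.1 h3).le fun q hq => hk1 q (hq.trans hq1)
        · exact Lo_le_right h hs hk h2 hx (not_le.1 h3).le fun q hq => hk2 q (hq2.trans hq)
      have e1 := key hP (fun q hq => by simp [hgle q hq]) (fun q hq => by simp [hgge q hq])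
      have e2 := key hM (fun q hq => by simp [hgle q hq]) (fun q hq => by simp [hgge q hq])
      have e3 : max (Up F s x - Lo (fun x => f x + t * g x) s x) 0 ≤ max (Up F s x - Lo f s x) 0 :=
        max_le_max (by linarith) le_rfl
      have e4 : max (Up F s x - Lo (fun x => f x + (-t) * g x) s x) 0 ≤
          max (Up F s x - Lo f s x) 0 :=
        max_le_max (by linarith) le_rfl
      linarith
  -- integration
  have hI0 := integrable_gap h hs
  have hIP := integrable_gap hP hs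
  have hIM := integrable_gap hM hs
  have hIK₁ : IntegrableOn (K₁.indicator fun _ => c₁) (Icc (a + s) (b - s)) := by
    rw [IntegrableOn, integrable_indicator_iff hmK₁, IntegrableOn]
    exact integrable_const _
  have hIK₂ : IntegrableOn (K₂.indicator fun _ => c₂) (Icc (a + s) (b - s)) := by
    rw [IntegrableOn, integrable_indicator_iff hmK₂, IntegrableOn]
    exact integrable_const _
  have hint := setIntegral_mono_on ((hIP.add hIM).add (hIK₁.add hIK₂)) (hI0.add hI0)
    measurableSet_Icc hpt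
  have hval₁ : ∫ x in Icc (a + s) (b - s), K₁.indicator (fun _ => c₁) x =
      c₁ * (volume K₁).toReal := by
    rw [integral_indicator hmK₁, setIntegral_const, Measure.real, Measure.restrict_apply hmK₁,
      inter_eq_self_of_subset_left (kset_subset_Icc _ _ _), smul_eq_mul, mul_comm]
  have hval₂ : ∫ x in Icc (a + s) (b - s), K₂.indicator (fun _ => c₂) x =
      c₂ * (volume K₂).toReal := by
    rw [integral_indicator hmK₂, setIntegral_const, Measure.real, Measure.restrict_apply hmK₂,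
      inter_eq_self_of_subset_left (kset_subset_Icc _ _ _), smul_eq_mul, mul_comm]
  have hL : ∫ x in Icc (a + s) (b - s),
      (max (Up F s x - Lo (fun x => f x + t * g x) s x) 0 +
        max (Up F s x - Lo (fun x => f x + (-t) * g x) s x) 0 +
        (K₁.indicator (fun _ => c₁) x + K₂.indicator (fun _ => c₂) x)) =
      (∫ x in Icc (a + s) (b - s), max (Up F s x - Lo (fun x => f x + t * g x) s x) 0) +
        (∫ x in Icc (a + s) (b - s), max (Up F s x - Lo (fun x => f x + (-t) * g x) s x) 0) +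
        (c₁ * (volume K₁).toReal + c₂ * (volume K₂).toReal) := by
    rw [← hval₁, ← hval₂, ← integral_add hIK₁ hIK₂, ← integral_add hIP hIM]
    exact integral_add (hIP.add hIM) (hIK₁.add hIK₂)
  have hR : ∫ x in Icc (a + s) (b - s), (max (Up F s x - Lo f s x) 0 +
      max (Up F s x - Lo f s x) 0) =
      2 * ∫ x in Icc (a + s) (b - s), max (Up F s x - Lo f s x) 0 := by
    rw [integral_add hI0 hI0]
    ring
  have hint' : ∫ x in Icc (a + s) (b - s),
      (max (Up F s x - Lo (fun x => f x + t * g x) s x) 0 +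
        max (Up F s x - Lo (fun x => f x + (-t) * g x) s x) 0 +
        (K₁.indicator (fun _ => c₁) x + K₂.indicator (fun _ => c₂) x)) ≤
      ∫ x in Icc (a + s) (b - s), (max (Up F s x - Lo f s x) 0 +
      max (Up F s x - Lo f s x) 0) := hint
  rw [hL, hR] at hint'
  rw [ar_inn_prof h hs, ar_inn_prof hP hs, ar_inn_prof hM hs]
  have hv1 := volume_kset_shrink h hs α₁ β₁ hdpos.le (η := η) (by rw [hd]; linarith)
  have hv2 := volume_kset_shrink h hs α₂ β₂ hdpos.le (η := η) (by rw [hd]; linarith)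
  have hw1 := mul_le_mul_of_nonneg_left hv1 hc₁0
  have hw2 := mul_le_mul_of_nonneg_left hv2 hc₂0
  have hfin : s / 8 * t ^ 2 * (σ₁ ^ 2 * ((volume (kset a b f F s α₁ β₁)).toReal - η) +
            σ₂ ^ 2 * ((volume (kset a b f F s α₂ β₂)).toReal - η)) =
      c₁ * ((volume (kset a b f F s α₁ β₁)).toReal - η) +
        c₂ * ((volume (kset a b f F s α₂ β₂)).toReal - η) := by
    rw [hc₁, hc₂]
    ring
  rw [hfin]
  linarith

end

end Pool.Agent.Lib.MP_4cfb03_an
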