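import Pool.Agent.Lib.MP_4cfb03_an.Defs

/-! # T12 Ramp : ramps and tents -/

open MeasureTheory Set
open scoped ENNReal ContDiff Topology

namespace Pool.Agent.Lib.MP_4cfb03_an

noncomputable section

/-- `f` is not affine on any neighbourhood of `p`. -/
def NonAff (f : ℝ → ℝ) (p : ℝ) : Prop :=
  ∀ η > 0, ¬ ∃ m c : ℝ, ∀ x ∈ Icc (p - η) (p + η), f x = m * x + c

namespace Ramp

/-- `m` is a subgradient of `f` at `x0` relative to `S`. -/
def Sub (S : Set ℝ) (f : ℝ → ℝ) (x0 m : ℝ) : Prop := ∀ x ∈ S, f x0 + m * (x - x0) ≤ f x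

lemma exists_sub {a b : ℝ} {f : ℝ → ℝ} (h : ConvexOn ℝ (Ioo a b) f) {x0 : ℝ}
    (hx : x0 ∈ Ioo a b) : ∃ m, Sub (Ioo a b) f x0 m := by
  have hint : x0 ∈ interior (Ioo a b) := by rwa [interior_Ioo]
  refine ⟨derivWithin f (Ioi x0) x0, fun x hxS => ?_⟩
  rcases lt_trichotomy x x0 with hlt | rfl | hgt
  · have h1 := h.slope_le_leftDeriv_of_mem_interior hxS hint hlt
    have h2 := h.leftDeriv_le_rightDeriv_of_mem_interior hint
    have h3 := h1.trans h2
    rw [slope_def_field, div_le_iff₀ (by linarith)] at h3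
    linarith
  · simp
  · have h1 := h.rightDeriv_le_slope_of_mem_interior hint hxS hgt
    rw [slope_def_field, le_div_iff₀ (by linarith)] at h1
    linarith

lemma convexOn_of_sub {S : Set ℝ} (hS : Convex ℝ S) {f : ℝ → ℝ}
    (h : ∀ x0 ∈ S, ∃ m, Sub S f x0 m) : ConvexOn ℝ S f := by
  refine ⟨hS, fun x hx y hy s t hs ht hst => ?_⟩
  obtain ⟨m, hm⟩ := h _ (hS hx hy hs ht hst)
  have h1 := hm x hx
  have h2 := hm y hy
  simp only [smul_eq_mul] at *
  have h3 := mul_le_mul_of_nonneg_left h1 hs
  have h4 := mul_le_mul_of_nonneg_left h2 ht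
  have e : s * (f (s * x + t * y) + m * (x - (s * x + t * y))) +
      t * (f (s * x + t * y) + m * (y - (s * x + t * y))) = f (s * x + t * y) := by
    have : t = 1 - s := by linarith
    subst this
    ring
  linarith

lemma sub_mono {S : Set ℝ} {f : ℝ → ℝ} {x y m m' : ℝ} (hx : x ∈ S) (hy : y ∈ S)
    (hm : Sub S f x m) (hm' : Sub S f y m') (hxy : x < y) : m ≤ m' := by
  have h1 := hm y hy
  have h2 := hm' x hx
  by_contra hlt
  push Not at hlt
  nlinarith

end Ramp

open Ramp

theorem exists_ramp {a b : ℝ} {f F : ℝ → ℝ} (h : CProf a b f F) {p η : ℝ} (hη : 0 < η)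
    (hp : a < p - η) (hp' : p + η < b) (hna : NonAff f p) :
    ∃ (ρ : ℝ → ℝ) (z : ℝ), z ∈ Icc (p - η) (p + η) ∧ (∀ x, x ≤ p - η → ρ x = 0) ∧
      (∀ x, p + η ≤ x → ρ x = x - z) ∧ Monotone ρ ∧ LipschitzWith 1 ρ ∧ ConvexOn ℝ univ ρ ∧
      ∃ t0 : ℝ, 0 < t0 ∧ ∀ t : ℝ, |t| ≤ t0 → ConvexOn ℝ (Ioo a b) (fun x => f x + t * ρ x) := by
  set l := p - η with hl
  set r := p + η with hr
  have hlr : l < r := by linarith
  have hlS : l ∈ Ioo a b := ⟨hp, by linarith⟩
  have hrS : r ∈ Ioo a b := ⟨by linarith, hp'⟩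
  have hIS : ∀ x, l ≤ x → x ≤ r → x ∈ Ioo a b := fun x h1 h2 => ⟨by linarith, by linarith⟩
  obtain ⟨m0, hm0⟩ := exists_sub h.cvx hlS
  obtain ⟨m1, hm1⟩ := exists_sub h.cvx hrS
  have hle : m0 ≤ m1 := sub_mono hlS hrS hm0 hm1 hlr
  have hlt : m0 < m1 := by
    rcases hle.lt_or_eq with hlt | heq
    · exact hlt
    · exfalso
      apply hna η hη
      refine ⟨m0, f l - m0 * l, fun x hx => ?_⟩
      have h1 := hm0 r hrS
      have h2 := hm1 l hlS
      rw [← heq] at h2
      have h3 : f r = f l + m0 * (r - l) := by linarith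
      have h4 := hm0 x (hIS x hx.1 hx.2)
      -- chord
      obtain ⟨mx, hmx⟩ := exists_sub h.cvx (hIS x hx.1 hx.2)
      have h5 := hmx l hlS
      have h6 := hmx r hrS
      have hx1 : l ≤ x := hx.1
      have hx2 : x ≤ r := hx.2
      have h7 : f x ≤ f l + m0 * (x - l) := by
        by_contra hcon
        push Not at hcon
        have e1 : (r - x) * (f l - f x + m0 * (x - l)) + (x - l) * (f l + m0 * (x-l) - f x) ≥ 0 := by
          have a1 : 0 ≤ (r - x) * (f l - (f x + mx * (l - x))) :=
            mul_nonneg (by linarith) (by linarith)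
          have a2 : 0 ≤ (x - l) * (f r - (f x + mx * (r - x))) :=
            mul_nonneg (by linarith) (by linarith)
          rw [h3] at a2
          nlinarith
        have e2 : (r - l) * (f l + m0 * (x - l) - f x) ≥ 0 := by nlinarith
        nlinarith
      linarith
  -- the function phi
  set g : ℝ → ℝ := fun x => if x ≤ l then 0 else if x ≤ r then f x - f l - m0 * (x - l)
    else f r - f l - m0 * (r - l) + (m1 - m0) * (x - r) with hg
  have gl : ∀ x, x ≤ l → g x = 0 := fun x hx => by simp [hg, hx]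
  have gm : ∀ x, l ≤ x → x ≤ r → g x = f x - f l - m0 * (x - l) := by
    intro x h1 h2
    rcases h1.eq_or_lt with rfl | h1
    · simp [hg]
    · simp [hg, not_le.2 h1, h2]
  have gr : ∀ x, r ≤ x → g x = f r - f l - m0 * (r - l) + (m1 - m0) * (x - r) := by
    intro x h1
    rcases h1.eq_or_lt with h1 | h1
    · rw [gm x (by linarith) h1.ge, ← h1]; ring
    · simp only [hg]
      rw [if_neg (by linarith), if_neg (by linarith)]
  have hd : 0 < m1 - m0 := by linarith
  -- slopes of g
  have key : ∀ x y, x ≤ y → 0 ≤ g y - g x ∧ g y - g x ≤ (m1 - m0) * (y - x) := by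
    have k1 : ∀ x y, x ≤ y → l ≤ x → y ≤ r → 0 ≤ g y - g x ∧ g y - g x ≤ (m1 - m0) * (y - x) := by
      intro x y hxy h1 h2
      rw [gm x h1 (by linarith), gm y (by linarith) h2]
      rcases hxy.eq_or_lt with rfl | hxy
      · simp
      obtain ⟨mx, hmx⟩ := exists_sub h.cvx (hIS x h1 (by linarith))
      obtain ⟨my, hmy⟩ := exists_sub h.cvx (hIS y (by linarith) h2)
      have a1 : m0 ≤ my := sub_mono hlS (hIS y (by linarith) h2) hm0 hmy (by linarith)
      have a2 : mx ≤ m1 := sub_mono (hIS x h1 (by linarith)) hrS hmx hm1 (by linarith)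
      have b1 := hmx y (hIS y (by linarith) h2)
      have b2 := hmy x (hIS x h1 (by linarith))
      constructor
      · -- f y - f x ≥ m0 (y - x)
        rcases h1.eq_or_lt with h1 | h1
        · have := hm0 y (hIS y (by linarith) h2)
          rw [h1] at this
          nlinarith
        · have a3 : m0 ≤ mx := sub_mono hlS (hIS x h1.le (by linarith)) hm0 hmx h1
          nlinarith
      · rcases h2.eq_or_lt with h2 | h2
        · have := hm1 x (hIS x h1 (by linarith))
          rw [← h2] at this
          nlinarith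
        · have a4 : my ≤ m1 := sub_mono (hIS y (by linarith) h2.le) hrS hmy hm1 h2
          nlinarith
    have k2 : ∀ x y, x ≤ y → r ≤ x → 0 ≤ g y - g x ∧ g y - g x ≤ (m1 - m0) * (y - x) := by
      intro x y hxy h1
      rw [gr x h1, gr y (by linarith)]
      constructor
      · nlinarith
      · nlinarith
    have k3 : ∀ x y, x ≤ y → l ≤ x → 0 ≤ g y - g x ∧ g y - g x ≤ (m1 - m0) * (y - x) := by
      intro x y hxy h1
      rcases le_total y r with h2 | h2
      · exact k1 x y hxy h1 h2
      · rcases le_total x r with h3 | h3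
        · have c1 := k1 x r h3 h1 le_rfl
          have c2 := k2 r y h2 le_rfl
          constructor
          · linarith [c1.1, c2.1]
          · linarith [c1.2, c2.2]
        · exact k2 x y hxy h3
    intro x y hxy
    rcases le_total l x with h1 | h1
    · exact k3 x y hxy h1
    · rcases le_total y l with h2 | h2
      · rw [gl x h1, gl y h2]
        constructor
        · simp
        · simp only [sub_self]
          exact mul_nonneg hd.le (by linarith)
      · have c1 := k3 l y h2 le_rfl
        rw [gl l le_rfl] at c1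
        rw [gl x h1]
        constructor
        · linarith [c1.1]
        · have : (m1 - m0) * (y - l) ≤ (m1 - m0) * (y - x) := by
            apply mul_le_mul_of_nonneg_left _ hd.le
            linarith
          linarith [c1.2]
  -- g is convex
  have hgc : ConvexOn ℝ univ g := by
    apply convexOn_of_sub convex_univ
    intro x0 _
    rcases le_or_gt x0 l with h1 | h1
    · refine ⟨0, fun x _ => ?_⟩
      rw [gl x0 h1]
      rcases le_total x l with h2 | h2
      · rw [gl x h2]; simp
      · have := (key l x h2).1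
        rw [gl l le_rfl] at this
        linarith
    · rcases le_or_gt r x0 with h2 | h2
      · refine ⟨m1 - m0, fun x _ => ?_⟩
        rcases le_total x x0 with h3 | h3
        · have := (key x x0 h3).2
          linarith
        · rw [gr x0 h2, gr x (by linarith)]
          linarith
      · have hx0 := hIS x0 h1.le h2.le
        obtain ⟨mx, hmx⟩ := exists_sub h.cvx hx0
        have a1 : m0 ≤ mx := sub_mono hlS hx0 hm0 hmx h1
        have a2 : mx ≤ m1 := sub_mono hx0 hrS hmx hm1 h2
        refine ⟨mx - m0, fun x _ => ?_⟩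
        rw [gm x0 h1.le h2.le]
        rcases le_total x l with h3 | h3
        · rw [gl x h3]
          have := hmx l hlS
          nlinarith
        · rcases le_total x r with h4 | h4
          · rw [gm x h3 h4]
            have := hmx x (hIS x h3 h4)
            nlinarith
          · rw [gr x h4]
            have := hmx r hrS
            nlinarith
  -- f - g is convex
  have hfg : ConvexOn ℝ (Ioo a b) (fun x => f x - g x) := by
    have hge : ∀ x ∈ Ioo a b, f l + m0 * (x - l) ≤ f x - g x := by
      intro x hx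
      rcases le_total x l with h3 | h3
      · rw [gl x h3]
        have := hm0 x hx
        linarith
      · rcases le_total x r with h4 | h4
        · rw [gm x h3 h4]; linarith
        · rw [gr x h4]
          have := hm1 x hx
          linarith
    apply convexOn_of_sub (convex_Ioo a b)
    intro x0 hx0
    rcases le_or_gt l x0 with h1 | h1
    · rcases le_or_gt x0 r with h2 | h2
      · refine ⟨m0, fun x hx => ?_⟩
        have := hge x hx
        simp only
        rw [gm x0 h1 h2]
        linarith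
      · obtain ⟨mx, hmx⟩ := exists_sub h.cvx hx0
        have a2 : m1 ≤ mx := sub_mono hrS hx0 hm1 hmx h2
        refine ⟨mx - m1 + m0, fun x hx => ?_⟩
        simp only
        rw [gr x0 h2.le]
        rcases le_total x r with h3 | h3
        · have := hge x hx
          have b1 := hmx r hrS
          nlinarith
        · rw [gr x h3]
          have := hmx x hx
          linarith
    · obtain ⟨mx, hmx⟩ := exists_sub h.cvx hx0
      have a2 : mx ≤ m0 := sub_mono hx0 hlS hmx hm0 h1
      refine ⟨mx, fun x hx => ?_⟩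
      simp only
      rw [gl x0 h1.le]
      rcases le_total x l with h3 | h3
      · rw [gl x h3]
        have := hmx x hx
        linarith
      · have := hge x hx
        have b1 := hmx l hlS
        nlinarith
  refine ⟨fun x => g x / (m1 - m0), r - (f r - f l - m0 * (r - l)) / (m1 - m0), ?_, ?_, ?_, ?_, ?_,
    ?_, m1 - m0, hd, ?_⟩
  · have h1 := hm0 r hrS
    have h2 := hm1 l hlS
    constructor
    · have : (f r - f l - m0 * (r - l)) / (m1 - m0) ≤ r - l := by
        rw [div_le_iff₀ hd]; nlinarith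
      linarith
    · have : 0 ≤ (f r - f l - m0 * (r - l)) / (m1 - m0) := by
        apply div_nonneg _ hd.le
        linarith
      linarith
  · intro x hx
    simp only
    rw [gl x hx, zero_div]
  · intro x hx
    simp only
    rw [gr x hx]
    field_simp
    ring
  · intro x y hxy
    simp only
    have := (key x y hxy).1
    gcongr
    linarith
  · apply LipschitzWith.of_le_add_mul
    intro x y
    simp only [NNReal.coe_one, one_mul]
    rw [Real.dist_eq]
    rcases le_total x y with h1 | h1
    · have := (key x y h1).1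
      have h2 : g x / (m1 - m0) ≤ g y / (m1 - m0) := by gcongr; linarith
      have := abs_nonneg (x - y)
      linarith
    · have := (key y x h1).2
      have h2 : g x / (m1 - m0) ≤ (g y + (m1 - m0) * (x - y)) / (m1 - m0) := by
        gcongr; linarith
      rw [add_div, mul_div_cancel_left₀ _ hd.ne'] at h2
      have := le_abs_self (x - y)
      linarith
  · have : (fun x => g x / (m1 - m0)) = fun x => (m1 - m0)⁻¹ • g x := by
      funext x
      rw [smul_eq_mul, div_eq_inv_mul]
    rw [this]
    exact hgc.smul (by positivity)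
  · intro t ht
    have hgc' : ConvexOn ℝ (Ioo a b) g := hgc.subset (subset_univ _) (convex_Ioo a b)
    rcases le_total 0 t with h0 | h0
    · have : (fun x => f x + t * (g x / (m1 - m0))) = fun x => f x + (t / (m1 - m0)) • g x := by
        funext x
        rw [smul_eq_mul]
        ring
      rw [this]
      exact h.cvx.add (hgc'.smul (by positivity))
    · rw [abs_of_nonpos h0] at ht
      have : (fun x => f x + t * (g x / (m1 - m0))) =
          fun x => (1 - (-t) / (m1 - m0)) • f x + ((-t) / (m1 - m0)) • (f x - g x) := by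
        funext x
        rw [smul_eq_mul, smul_eq_mul]
        ring
      rw [this]
      have h1 : (-t) / (m1 - m0) ≤ 1 := by rw [div_le_one hd]; exact ht
      have h2 : 0 ≤ (-t) / (m1 - m0) := by
        apply div_nonneg _ hd.le
        linarith
      exact (h.cvx.smul (by linarith)).add (hfg.smul h2)

/-- elementary bounds for a ramp -/
lemma Ramp.bounds {ρ : ℝ → ℝ} {l r z : ℝ} (_ : l ≤ r) (h0 : ∀ x, x ≤ l → ρ x = 0)
    (h1 : ∀ x, r ≤ x → ρ x = x - z) (hm : Monotone ρ) (hL : LipschitzWith 1 ρ) :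
    (∀ x, 0 ≤ ρ x) ∧ (∀ x, x - z ≤ ρ x) ∧ (∀ x y, x ≤ y → ρ y - ρ x ≤ y - x) := by
  have hL' : ∀ x y, x ≤ y → ρ y - ρ x ≤ y - x := by
    intro x y hxy
    have := hL.dist_le_mul y x
    rw [NNReal.coe_one, one_mul, Real.dist_eq, Real.dist_eq, abs_of_nonneg (by linarith : 0 ≤ y - x)]
      at this
    exact (le_abs_self _).trans this
  refine ⟨fun x => ?_, fun x => ?_, hL'⟩
  · rcases le_total x l with h | h
    · rw [h0 x h]
    · have := hm h
      rw [h0 l le_rfl] at this
      exact this
  · rcases le_total r x with h | h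
    · rw [h1 x h]
    · have := hL' x r h
      rw [h1 r le_rfl] at this
      linarith

/-- outward tent between two non-affine points -/
theorem exists_tent2 {a b : ℝ} {f F : ℝ → ℝ} (h : CProf a b f F) {p q η : ℝ} (hη : 0 < η)
    (hp : a < p - η) (hpq : 16 * η ≤ q - p) (hq : q + η < b) (hnp : NonAff f p)
    (hnq : NonAff f q) :
    ∃ g : ℝ → ℝ, (∃ K, LipschitzWith K g) ∧ (∀ x, 0 ≤ g x) ∧ (∀ x, g x ≤ 1) ∧
      (∀ x, x ∉ Icc (p - η) (q + η) → g x = 0) ∧
      (∀ x, |x - (p + q) / 2| ≤ (q - p) / 8 → 1 / 4 ≤ g x) ∧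
      ∃ t0 : ℝ, 0 < t0 ∧ ∀ t : ℝ, 0 < t → t < t0 →
        ConvexOn ℝ (Ioo a b) (fun x => f x - t * g x) := by
  obtain ⟨ρ1, z1, hz1, a1, b1, m1, L1, _, t1, ht1, c1⟩ :=
    exists_ramp h hη hp (by linarith : p + η < b) hnp
  obtain ⟨ρ2, z2, hz2, a2, b2, m2, L2, _, t2, ht2, c2⟩ :=
    exists_ramp h hη (by linarith : a < q - η) hq hnq
  obtain ⟨n1, e1, l1⟩ := Ramp.bounds (by linarith : p - η ≤ p + η) a1 b1 m1 L1
  obtain ⟨n2, e2, l2⟩ := Ramp.bounds (by linarith : q - η ≤ q + η) a2 b2 m2 L2
  obtain ⟨u1, v1⟩ := hz1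
  obtain ⟨u2, v2⟩ := hz2
  set D := z2 - z1 with hD
  have hDpos : 0 < D := by linarith
  set m := (z1 + z2) / 2 with hm
  have hm1 : p + η ≤ m := by linarith
  have hm2 : m ≤ q - η := by linarith
  set G : ℝ → ℝ := fun x => ρ1 x / 2 - max (x - m) 0 + ρ2 x / 2 with hG
  have Gl : ∀ x, x ≤ m → G x = ρ1 x / 2 := by
    intro x hx
    simp only [hG]
    rw [a2 x (by linarith), max_eq_right (by linarith)]
    ring
  have Gr : ∀ x, m ≤ x → G x = (x - z1) / 2 - (x - m) + ρ2 x / 2 := by
    intro x hx
    simp only [hG]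
    rw [b1 x (by linarith), max_eq_left (by linarith)]
  have G0 : ∀ x, 0 ≤ G x := by
    intro x
    rcases le_total x m with hx | hx
    · rw [Gl x hx]; linarith [n1 x]
    · rw [Gr x hx]; linarith [e2 x]
  have G1 : ∀ x, G x ≤ D / 4 := by
    intro x
    rcases le_total x m with hx | hx
    · rw [Gl x hx]
      have := m1 hx
      rw [b1 m hm1] at this
      linarith
    · rw [Gr x hx]
      have := l2 m x hx
      rw [a2 m hm2] at this
      linarith
  have hLG : ∃ K, LipschitzWith K G := by
    have hmax : LipschitzWith 1 (fun x : ℝ => max (x - m) 0) := by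
      apply LipschitzWith.of_le_add_mul
      intro x y
      rw [NNReal.coe_one, one_mul, Real.dist_eq]
      apply max_le
      · have := le_abs_self (x - y)
        have := le_max_left (y - m) 0
        linarith
      · have := abs_nonneg (x - y)
        have := le_max_right (y - m) 0
        linarith
    have h1 : LipschitzWith (1 / 2 * 1 : NNReal) (fun x => ρ1 x / 2) := by
      apply LipschitzWith.of_le_add_mul
      intro x y
      have := L1.dist_le_mul x y
      rw [NNReal.coe_one, one_mul, Real.dist_eq] at this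
      have := (le_abs_self _).trans this
      push_cast
      linarith
    have h2 : LipschitzWith (1 / 2 * 1 : NNReal) (fun x => ρ2 x / 2) := by
      apply LipschitzWith.of_le_add_mul
      intro x y
      have := L2.dist_le_mul x y
      rw [NNReal.coe_one, one_mul, Real.dist_eq] at this
      have := (le_abs_self _).trans this
      push_cast
      linarith
    exact ⟨_, (h1.sub hmax).add h2⟩
  have h4D : 0 ≤ 4 / D := by positivity
  refine ⟨fun x => 4 / D * G x, ?_, ?_, ?_, ?_, ?_, D / 4 * min t1 t2, by positivity, ?_⟩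
  · obtain ⟨K, hK⟩ := hLG
    refine ⟨Real.toNNReal (4 / D) * K, ?_⟩
    apply LipschitzWith.of_le_add_mul
    intro x y
    have h1 := hK.dist_le_mul x y
    rw [Real.dist_eq] at h1
    have h2 := (le_abs_self _).trans h1
    have h3 := mul_le_mul_of_nonneg_left h2 h4D
    push_cast
    rw [Real.coe_toNNReal _ h4D]
    linarith
  · intro x
    exact mul_nonneg h4D (G0 x)
  · intro x
    calc 4 / D * G x ≤ 4 / D * (D / 4) := by gcongr; exact G1 x
      _ = 1 := by field_simp
  · intro x hx
    have : G x = 0 := by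
      rw [mem_Icc, not_and_or, not_le, not_le] at hx
      rcases hx with hx | hx
      · rw [Gl x (by linarith), a1 x hx.le, zero_div]
      · rw [Gr x (by linarith), b2 x hx.le]
        linarith
    simp only [this, mul_zero]
  · intro x hx
    rw [abs_le] at hx
    obtain ⟨hx1, hx2⟩ := hx
    have hGx : D / 16 ≤ G x := by
      rcases le_total x m with hxm | hxm
      · rw [Gl x hxm]
        have := e1 x
        linarith
      · rw [Gr x hxm]
        have := e2 x
        have := n2 x
        linarith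
    calc (1 : ℝ) / 4 = 4 / D * (D / 16) := by field_simp; norm_num
      _ ≤ 4 / D * G x := by gcongr
  · intro t ht0 ht
    have ht' : t * (4 / D) ≤ min t1 t2 := by
      have : t * (4 / D) ≤ (D / 4 * min t1 t2) * (4 / D) := by gcongr
      calc t * (4 / D) ≤ (D / 4 * min t1 t2) * (4 / D) := this
        _ = min t1 t2 := by field_simp
    have ht4 : 0 ≤ t * (4 / D) := by positivity
    have k1 := c1 (-(t * (4 / D))) (by
      rw [abs_neg, abs_of_nonneg ht4]; exact ht'.trans (min_le_left _ _))
    have k2 := c2 (-(t * (4 / D))) (by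
      rw [abs_neg, abs_of_nonneg ht4]; exact ht'.trans (min_le_right _ _))
    have k3 : ConvexOn ℝ (Ioo a b) (fun x : ℝ => max (x - m) 0) := by
      have e1 : ConvexOn ℝ (Ioo a b) (fun x : ℝ => x - m) := by
        refine ⟨convex_Ioo a b, fun x _ y _ s t _ _ hst => ?_⟩
        simp only [smul_eq_mul]
        have : m = s * m + t * m := by rw [← add_mul, hst, one_mul]
        linarith
      exact e1.sup (convexOn_const 0 (convex_Ioo a b))
    have : (fun x => f x - t * (4 / D * G x)) = fun x =>
        ((1 / 2 : ℝ) • (f x + -(t * (4 / D)) * ρ1 x) + (1 / 2 : ℝ) • (f x + -(t * (4 / D)) * ρ2 x)) +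
          (t * (4 / D)) • max (x - m) 0 := by
      funext x
      simp only [hG, smul_eq_mul]
      ring
    rw [this]
    exact ((k1.smul (by norm_num)).add (k2.smul (by norm_num))).add (k3.smul ht4)

/-- two-sided tent with three non-affine points -/
theorem exists_tent3 {a b : ℝ} {f F : ℝ → ℝ} (h : CProf a b f F) {p₁ p₂ p₃ η ρ : ℝ} (hη : 0 < η)
    (hp : a < p₁ - η) (hρ1 : 2 * ρ ≤ p₂ - p₁) (hρ2 : 2 * ρ ≤ p₃ - p₂) (hηρ : 16 * η ≤ ρ)
    (hp3 : p₃ + η < b) (hn1 : NonAff f p₁) (hn2 : NonAff f p₂) (hn3 : NonAff f p₃) :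
    ∃ (g : ℝ → ℝ) (σ₁ σ₂ : ℝ), LipschitzWith (Real.toNNReal (1 / ρ)) g ∧ (∀ x, 0 ≤ g x) ∧
      (∀ x, g x ≤ 1) ∧ (∀ x, x ∉ Icc (p₁ - η) (p₃ + η) → g x = 0) ∧
      1 / (2 * (p₂ - p₁)) ≤ σ₁ ∧ 1 / (2 * (p₃ - p₂)) ≤ σ₂ ∧
      (∀ x ∈ Icc (p₁ + η) (p₂ - η), g x = g (p₁ + η) + σ₁ * (x - (p₁ + η))) ∧
      (∀ x ∈ Icc (p₂ + η) (p₃ - η), g x = g (p₂ + η) + (-σ₂) * (x - (p₂ + η))) ∧
      ∃ t0 : ℝ, 0 < t0 ∧ ∀ t : ℝ, |t| ≤ t0 →
        ConvexOn ℝ (Ioo a b) (fun x => f x + t * g x) := by
  have hρ : 0 < ρ := by linarith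
  obtain ⟨r1, z1, ⟨u1, v1⟩, a1, b1, m1, L1, _, t1, ht1, c1⟩ :=
    exists_ramp h hη hp (by linarith : p₁ + η < b) hn1
  obtain ⟨r2, z2, ⟨u2, v2⟩, a2, b2, m2, L2, _, t2, ht2, c2⟩ :=
    exists_ramp h hη (by linarith : a < p₂ - η) (by linarith : p₂ + η < b) hn2
  obtain ⟨r3, z3, ⟨u3, v3⟩, a3, b3, m3, L3, _, t3, ht3, c3⟩ :=
    exists_ramp h hη (by linarith : a < p₃ - η) hp3 hn3
  obtain ⟨n1, e1, l1⟩ := Ramp.bounds (by linarith : p₁ - η ≤ p₁ + η) a1 b1 m1 L1
  obtain ⟨n2, e2, l2⟩ := Ramp.bounds (by linarith : p₂ - η ≤ p₂ + η) a2 b2 m2 L2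
  obtain ⟨n3, e3, l3⟩ := Ramp.bounds (by linarith : p₃ - η ≤ p₃ + η) a3 b3 m3 L3
  set D1 := z2 - z1 with hD1
  set D2 := z3 - z2 with hD2
  have hD1ρ : ρ ≤ D1 := by linarith
  have hD2ρ : ρ ≤ D2 := by linarith
  have hD1pos : 0 < D1 := by linarith
  have hD2pos : 0 < D2 := by linarith
  -- differences of successive ramps are monotone
  have mono : ∀ {r r' : ℝ → ℝ} {s s' z : ℝ}, s ≤ s' → (∀ x, s ≤ x → r x = x - z) →
      (∀ x, x ≤ s' → r' x = 0) → Monotone r → (∀ x y, x ≤ y → r' y - r' x ≤ y - x) →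
      ∀ x y, x ≤ y → r' y - r' x ≤ r y - r x := by
    intro r r' s s' z hss hr hr' hmr hl' x y hxy
    rcases le_total y s' with hy | hy
    · rw [hr' y hy, hr' x (by linarith)]
      have := hmr hxy
      linarith
    · rcases le_total x s with hx | hx
      · rw [hr' x (by linarith), hr y (by linarith)]
        have h1 := hl' s' y hy
        rw [hr' s' le_rfl] at h1
        have h2 := hmr (by linarith : x ≤ s')
        rw [hr s' hss] at h2
        linarith
      · rw [hr x hx, hr y (by linarith)]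
        have := hl' x y hxy
        linarith
  have mo12 : ∀ x y, x ≤ y → r2 y - r2 x ≤ r1 y - r1 x :=
    mono (by linarith : p₁ + η ≤ p₂ - η) b1 a2 m1 l2
  have mo23 : ∀ x y, x ≤ y → r3 y - r3 x ≤ r2 y - r2 x :=
    mono (by linarith : p₂ + η ≤ p₃ - η) b2 a3 m2 l3
  -- 0 ≤ r1 - r2 ≤ D1
  have d12 : ∀ x, 0 ≤ r1 x - r2 x ∧ r1 x - r2 x ≤ D1 := by
    intro x
    constructor
    · rcases le_total x (p₁ - η) with hx | hx
      · rw [a1 x hx, a2 x (by linarith)]; simp
      · have := mo12 _ _ hx
        rw [a1 _ le_rfl, a2 (p₁ - η) (by linarith)] at this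
        linarith
    · rcases le_total (p₂ + η) x with hx | hx
      · rw [b1 x (by linarith), b2 x hx]; linarith
      · have := mo12 _ _ hx
        rw [b1 (p₂ + η) (by linarith), b2 _ le_rfl] at this
        linarith
  have d23 : ∀ x, 0 ≤ r2 x - r3 x ∧ r2 x - r3 x ≤ D2 := by
    intro x
    constructor
    · rcases le_total x (p₂ - η) with hx | hx
      · rw [a2 x hx, a3 x (by linarith)]; simp
      · have := mo23 _ _ hx
        rw [a2 _ le_rfl, a3 (p₂ - η) (by linarith)] at this
        linarith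
    · rcases le_total (p₃ + η) x with hx | hx
      · rw [b2 x (by linarith), b3 x hx]; linarith
      · have := mo23 _ _ hx
        rw [b2 (p₃ + η) (by linarith), b3 _ le_rfl] at this
        linarith
  set g : ℝ → ℝ := fun x => (r1 x - r2 x) / D1 - (r2 x - r3 x) / D2 with hg
  have hi1 : 1 / D1 ≤ 1 / ρ := by gcongr
  have hi2 : 1 / D2 ≤ 1 / ρ := by gcongr
  have gdiff : ∀ x y, x ≤ y → g y - g x ≤ 1 / ρ * (y - x) ∧ -(1 / ρ * (y - x)) ≤ g y - g x := by
    intro x y hxy
    have A1 : 0 ≤ (r1 y - r1 x) - (r2 y - r2 x) := by linarith [mo12 x y hxy]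
    have A2 : (r1 y - r1 x) - (r2 y - r2 x) ≤ y - x := by
      have := l1 x y hxy
      have := m2 hxy
      linarith
    have B1 : 0 ≤ (r2 y - r2 x) - (r3 y - r3 x) := by linarith [mo23 x y hxy]
    have B2 : (r2 y - r2 x) - (r3 y - r3 x) ≤ y - x := by
      have := l2 x y hxy
      have := m3 hxy
      linarith
    have eq : g y - g x = 1 / D1 * ((r1 y - r1 x) - (r2 y - r2 x)) -
        1 / D2 * ((r2 y - r2 x) - (r3 y - r3 x)) := by
      simp only [hg]; ring
    have C1 : 0 ≤ 1 / D1 * ((r1 y - r1 x) - (r2 y - r2 x)) := by positivity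
    have C2 : 1 / D1 * ((r1 y - r1 x) - (r2 y - r2 x)) ≤ 1 / ρ * (y - x) :=
      mul_le_mul hi1 A2 A1 (by positivity)
    have C3 : 0 ≤ 1 / D2 * ((r2 y - r2 x) - (r3 y - r3 x)) := by positivity
    have C4 : 1 / D2 * ((r2 y - r2 x) - (r3 y - r3 x)) ≤ 1 / ρ * (y - x) :=
      mul_le_mul hi2 B2 B1 (by positivity)
    rw [eq]
    constructor <;> linarith
  refine ⟨g, 1 / D1, 1 / D2, ?_, ?_, ?_, ?_, ?_, ?_, ?_, ?_, ?_⟩
  · apply LipschitzWith.of_le_add_mul
    intro x y
    rw [Real.coe_toNNReal _ (by positivity), Real.dist_eq]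
    rcases le_total x y with hxy | hxy
    · have := (gdiff x y hxy).2
      rw [abs_sub_comm, abs_of_nonneg (by linarith : 0 ≤ y - x)]
      linarith
    · have := (gdiff y x hxy).1
      rw [abs_of_nonneg (by linarith : 0 ≤ x - y)]
      linarith
  · intro x
    simp only [hg]
    rcases le_total x (p₂ - η) with hx | hx
    · rw [a2 x hx, a3 x (by linarith)]
      have := n1 x
      simp only [sub_zero, zero_div]
      positivity
    · rcases le_total (p₂ + η) x with hx' | hx'
      · rw [b1 x (by linarith), b2 x hx']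
        have e : (x - z1 - (x - z2)) / D1 = 1 := by
          rw [div_eq_one_iff_eq hD1pos.ne']; ring
        rw [e]
        have : (x - z2 - r3 x) / D2 ≤ 1 := by
          rw [div_le_one hD2pos]
          have := (d23 x).2
          rw [b2 x hx'] at this
          exact this
        linarith
      · rw [b1 x (by linarith), a3 x (by linarith)]
        have h2 : r2 x ≤ x - (p₂ - η) := by
          have := l2 _ _ hx
          rw [a2 _ le_rfl] at this
          linarith
        have h3 : 1 / 2 ≤ (x - z1 - r2 x) / D1 := by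
          rw [le_div_iff₀ hD1pos]
          linarith
        have h4 : (r2 x - 0) / D2 ≤ 1 / 2 := by
          rw [div_le_iff₀ hD2pos]
          linarith
        linarith
  · intro x
    simp only [hg]
    have h1 : (r1 x - r2 x) / D1 ≤ 1 := by
      rw [div_le_one hD1pos]; exact (d12 x).2
    have h2 : 0 ≤ (r2 x - r3 x) / D2 := div_nonneg (d23 x).1 hD2pos.le
    linarith
  · intro x hx
    simp only [hg]
    rw [mem_Icc, not_and_or, not_le, not_le] at hx
    rcases hx with hx | hx
    · rw [a1 x hx.le, a2 x (by linarith), a3 x (by linarith)]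
      simp
    · rw [b1 x (by linarith), b2 x (by linarith), b3 x hx.le]
      have e1 : (x - z1 - (x - z2)) / D1 = 1 := by
        rw [div_eq_one_iff_eq hD1pos.ne']; ring
      have e2 : (x - z2 - (x - z3)) / D2 = 1 := by
        rw [div_eq_one_iff_eq hD2pos.ne']; ring
      rw [e1, e2]; simp
  · apply one_div_le_one_div_of_le hD1pos
    linarith
  · apply one_div_le_one_div_of_le hD2pos
    linarith
  · intro x hx
    obtain ⟨hx1, hx2⟩ := hx
    simp only [hg]
    rw [b1 x hx1, a2 x hx2, a3 x (by linarith), b1 _ le_rfl, a2 (p₁ + η) (by linarith),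
      a3 (p₁ + η) (by linarith)]
    ring
  · intro x hx
    obtain ⟨hx1, hx2⟩ := hx
    simp only [hg]
    rw [b1 x (by linarith), b2 x hx1, a3 x hx2, b1 (p₂ + η) (by linarith), b2 _ le_rfl,
      a3 (p₂ + η) (by linarith)]
    ring
  · have hC : 0 < 3 * (1 / D1 + 1 / D2) := by positivity
    refine ⟨min t1 (min t2 t3) / (3 * (1 / D1 + 1 / D2)), by positivity, ?_⟩
    intro t ht
    rw [le_div_iff₀ hC] at ht
    have hC1 : 3 * (1 / D1) ≤ 3 * (1 / D1 + 1 / D2) := by
      have : 0 < 1 / D2 := by positivity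
      linarith
    have hC3 : 3 * (1 / D2) ≤ 3 * (1 / D1 + 1 / D2) := by
      have : 0 < 1 / D1 := by positivity
      linarith
    have k1 := c1 (3 * t * (1 / D1)) (by
      have : |3 * t * (1 / D1)| = |t| * (3 * (1 / D1)) := by
        rw [abs_mul, abs_mul, abs_of_pos (by norm_num : (0:ℝ) < 3),
          abs_of_pos (by positivity : 0 < 1 / D1)]; ring
      rw [this]
      exact (mul_le_mul_of_nonneg_left hC1 (abs_nonneg t)).trans (ht.trans (min_le_left _ _)))
    have k2 := c2 (-(3 * t * (1 / D1 + 1 / D2))) (by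
      have : |-(3 * t * (1 / D1 + 1 / D2))| = |t| * (3 * (1 / D1 + 1 / D2)) := by
        rw [abs_neg, abs_mul, abs_mul, abs_of_pos (by norm_num : (0:ℝ) < 3),
          abs_of_pos (by positivity : 0 < 1 / D1 + 1 / D2)]; ring
      rw [this]
      exact ht.trans ((min_le_right _ _).trans (min_le_left _ _)))
    have k3 := c3 (3 * t * (1 / D2)) (by
      have : |3 * t * (1 / D2)| = |t| * (3 * (1 / D2)) := by
        rw [abs_mul, abs_mul, abs_of_pos (by norm_num : (0:ℝ) < 3),
          abs_of_pos (by positivity : 0 < 1 / D2)]; ring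
      rw [this]
      exact (mul_le_mul_of_nonneg_left hC3 (abs_nonneg t)).trans
        (ht.trans ((min_le_right _ _).trans (min_le_right _ _))))
    have : (fun x => f x + t * g x) = fun x =>
        ((1 / 3 : ℝ) • (f x + 3 * t * (1 / D1) * r1 x) +
          (1 / 3 : ℝ) • (f x + -(3 * t * (1 / D1 + 1 / D2)) * r2 x)) +
          (1 / 3 : ℝ) • (f x + 3 * t * (1 / D2) * r3 x) := by
      funext x
      simp only [hg, smul_eq_mul]
      ring
    rw [this]
    exact ((k1.smul (by norm_num)).add (k2.smul (by norm_num))).add (k3.smul (by norm_num))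

end

end Pool.Agent.Lib.MP_4cfb03_an
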