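import Pool.Agent.Lib.MP_4cfb03_an.Prof
import Pool.Agent.Lib.MP_4cfb03_an.Ramp

/-!
# T23 Chart : a non-polygonal convex domain has, up to an isometry, a profile with small slopes and
infinitely many non-affine points accumulating at one point
-/

open MeasureTheory Set Filter
open scoped ENNReal ContDiff Topology

namespace Pool.Agent.Lib.MP_4cfb03_an

noncomputable section

/-- An extreme point of the closure of a domain is not in the domain. -/
theorem ch_extreme_notMem {Ω : Set ℂ} (hΩ : Dom Ω) {e : ℂ}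
    (he : e ∈ (closure Ω).extremePoints ℝ) : e ∉ Ω := by
  intro h
  obtain ⟨ρ, hρ, hb⟩ := Metric.isOpen_iff.1 hΩ.isOpen e h
  have h1 : e + ((ρ / 2 : ℝ) : ℂ) ∈ closure Ω := by
    apply subset_closure
    apply hb
    rw [Metric.mem_ball, dist_eq_norm]
    simp only [add_sub_cancel_left, Complex.norm_real, Real.norm_eq_abs]
    rw [abs_of_pos (by linarith)]; linarith
  have h2 : e - ((ρ / 2 : ℝ) : ℂ) ∈ closure Ω := by
    apply subset_closure
    apply hb
    rw [Metric.mem_ball, dist_eq_norm]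
    have : e - ((ρ / 2 : ℝ) : ℂ) - e = -((ρ / 2 : ℝ) : ℂ) := by ring
    rw [this, norm_neg, Complex.norm_real, Real.norm_eq_abs, abs_of_pos (by linarith)]; linarith
  have h3 := (mem_extremePoints.1 he).2 _ h1 _ h2
    ⟨1 / 2, 1 / 2, by norm_num, by norm_num, by norm_num, by
      simp only [Complex.real_smul]; push_cast; ring⟩
  have h4 := h3.1
  have h5 : ((ρ / 2 : ℝ) : ℂ) = 0 := by
    have : e + ((ρ / 2 : ℝ) : ℂ) = e := h4
    simpa using this
  rw [Complex.ofReal_eq_zero] at h5
  linarith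

theorem ch_infinite_extreme {Ω : Set ℂ} (hΩ : Dom Ω) (hnp : ¬ IsPolygon Ω) :
    ((closure Ω).extremePoints ℝ).Infinite := by
  intro hfin
  apply hnp
  refine ⟨hΩ.nonempty, hfin.toFinset, ?_⟩
  have hK : IsCompact (closure Ω) := hΩ.bounded.isCompact_closure
  have hcv : Convex ℝ (closure Ω) := hΩ.convex.closure
  have h1 := closure_convexHull_extremePoints hK hcv
  rw [hfin.isClosed_convexHull (𝕜 := ℝ) |>.closure_eq] at h1
  rw [hfin.coe_toFinset, h1,
    hΩ.convex.interior_closure_eq_interior_of_nonempty_interior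
      (by rw [hΩ.isOpen.interior_eq]; exact hΩ.nonempty), hΩ.isOpen.interior_eq]

/-- An accumulation point of extreme points together with a limit direction. -/
theorem ch_exists_seq {Ω : Set ℂ} (hΩ : Dom Ω) (hnp : ¬ IsPolygon Ω) :
    ∃ (p0 d : ℂ) (E : ℕ → ℂ), (∀ n, E n ∈ (closure Ω).extremePoints ℝ) ∧ (∀ n, E n ≠ p0) ∧
      Tendsto E atTop (𝓝 p0) ∧ ‖d‖ = 1 ∧
      Tendsto (fun n => ((‖E n - p0‖⁻¹ : ℝ) : ℂ) * (E n - p0)) atTop (𝓝 d) := by
  have hinf := ch_infinite_extreme hΩ hnp
  have hK : IsCompact (closure Ω) := hΩ.bounded.isCompact_closure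
  obtain ⟨p0, hp0, hacc⟩ := hinf.exists_accPt_of_subset_isCompact hK extremePoints_subset
  rw [accPt_principal_iff_clusterPt, ← mem_closure_iff_clusterPt, mem_closure_iff_seq_limit] at hacc
  obtain ⟨E, hE, hlim⟩ := hacc
  have hne : ∀ n, E n ≠ p0 := fun n => (hE n).2
  have hsph : ∀ n, ((‖E n - p0‖⁻¹ : ℝ) : ℂ) * (E n - p0) ∈ Metric.sphere (0 : ℂ) 1 := by
    intro n
    have : ‖E n - p0‖ ≠ 0 := by
      rw [norm_ne_zero_iff]; exact sub_ne_zero.2 (hne n)
    rw [mem_sphere_zero_iff_norm, norm_mul, Complex.norm_real, norm_inv, norm_norm]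
    exact inv_mul_cancel₀ this
  obtain ⟨d, hd, σ, hσ, hdlim⟩ := (isCompact_sphere (0 : ℂ) 1).tendsto_subseq hsph
  refine ⟨p0, d, E ∘ σ, fun n => (hE (σ n)).1, fun n => hne (σ n),
    hlim.comp hσ.tendsto_atTop, ?_, hdlim⟩
  simpa using hd

/-- The limit line does not meet the domain. -/
theorem ch_line {Ω : Set ℂ} (hΩ : Dom Ω) {p0 d : ℂ} {E : ℕ → ℂ}
    (hE : ∀ n, E n ∈ (closure Ω).extremePoints ℝ) (hne : ∀ n, E n ≠ p0)
    (hlim : Tendsto E atTop (𝓝 p0))
    (hdir : Tendsto (fun n => ((‖E n - p0‖⁻¹ : ℝ) : ℂ) * (E n - p0)) atTop (𝓝 d)) (τ : ℝ) :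
    p0 + τ * d ∉ Ω := by
  intro hz
  have hp0 : p0 ∈ closure Ω :=
    isClosed_closure.mem_of_tendsto hlim (Eventually.of_forall fun n => (hE n).1)
  have hEcl : ∀ n, E n ∈ closure Ω := fun n => (hE n).1
  have hp0' : p0 ∉ Ω := by
    intro h
    have := hlim.eventually (hΩ.isOpen.mem_nhds h)
    obtain ⟨n, hn⟩ := this.exists
    exact ch_extreme_notMem hΩ (hE n) hn
  have hpos : ∀ n, 0 < ‖E n - p0‖ := fun n => norm_pos_iff.2 (sub_ne_zero.2 (hne n))
  have hnorm : Tendsto (fun n => ‖E n - p0‖) atTop (𝓝 0) := by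
    have : Tendsto (fun n => E n - p0) atTop (𝓝 (p0 - p0)) := hlim.sub_const p0
    simpa using this.norm
  have hy : Tendsto (fun n => p0 + τ * (((‖E n - p0‖⁻¹ : ℝ) : ℂ) * (E n - p0))) atTop
      (𝓝 (p0 + τ * d)) := (hdir.const_mul (τ : ℂ)).const_add p0
  have hyΩ := hy.eventually (hΩ.isOpen.mem_nhds hz)
  have hrep : ∀ n, E n = p0 + (‖E n - p0‖ : ℂ) * (((‖E n - p0‖⁻¹ : ℝ) : ℂ) * (E n - p0)) := by
    intro n
    have h0 : (‖E n - p0‖ : ℂ) ≠ 0 := by
      rw [Ne, Complex.ofReal_eq_zero]; exact (hpos n).ne'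
    rw [← mul_assoc, Complex.ofReal_inv, mul_inv_cancel₀ h0]; ring
  rcases lt_trichotomy τ 0 with hτ | hτ | hτ
  · -- p0 is between E n and y n
    obtain ⟨n, hn⟩ := hyΩ.exists
    apply hp0'
    have hr := hpos n
    have hrn := hrep n
    have hn' : p0 + τ * (((‖E n - p0‖⁻¹ : ℝ) : ℂ) * (E n - p0)) ∈ Ω := hn
    generalize hw : ((‖E n - p0‖⁻¹ : ℝ) : ℂ) * (E n - p0) = w at hrn hn'
    generalize ‖E n - p0‖ = r at hr hrn
    have h1 : 0 < r - τ := by linarith
    have h1' : ((r : ℂ) - τ) ≠ 0 := by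
      rw [← Complex.ofReal_sub, Ne, Complex.ofReal_eq_zero]; exact h1.ne'
    have hint := hΩ.convex.combo_closure_interior_mem_interior (hEcl n)
      (by rw [hΩ.isOpen.interior_eq]; exact hn')
      (a := -τ / (r - τ)) (b := r / (r - τ))
      (div_nonneg (by linarith) h1.le) (div_pos hr h1) (by field_simp; ring)
    rw [hΩ.isOpen.interior_eq, hrn] at hint
    have : (-τ / (r - τ)) • (p0 + (r : ℂ) * w) + (r / (r - τ)) • (p0 + τ * w) = p0 := by
      simp only [Complex.real_smul]; push_cast; field_simp; ring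
    rwa [this] at hint
  · rw [hτ] at hz
    simp only [Complex.ofReal_zero, zero_mul, add_zero] at hz
    exact hp0' hz
  · have hr0 := hnorm.eventually (gt_mem_nhds hτ)
    obtain ⟨n, hn, hrτ⟩ := (hyΩ.and hr0).exists
    apply ch_extreme_notMem hΩ (hE n)
    have hr := hpos n
    have hrn := hrep n
    have hn' : p0 + τ * (((‖E n - p0‖⁻¹ : ℝ) : ℂ) * (E n - p0)) ∈ Ω := hn
    generalize hw : ((‖E n - p0‖⁻¹ : ℝ) : ℂ) * (E n - p0) = w at hrn hn'
    generalize ‖E n - p0‖ = r at hr hrn hrτ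
    have hτ' : (τ : ℂ) ≠ 0 := by rw [Ne, Complex.ofReal_eq_zero]; exact hτ.ne'
    have hint := hΩ.convex.combo_closure_interior_mem_interior hp0
      (by rw [hΩ.isOpen.interior_eq]; exact hn')
      (a := 1 - r / τ) (b := r / τ)
      (by rw [sub_nonneg, div_le_one hτ]; exact hrτ.le) (div_pos hr hτ) (by ring)
    rw [hΩ.isOpen.interior_eq] at hint
    have : (1 - r / τ) • p0 + (r / τ) • (p0 + τ * w) = E n := by
      rw [hrn]
      simp only [Complex.real_smul]; push_cast; field_simp; ring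
    rwa [this] at hint

/-! ### profile of a domain above its supporting line -/

section Profile

variable {a b : ℝ} {f F : ℝ → ℝ}

theorem ch_graph_mem_closure (h : CProf a b f F) {x : ℝ} (hx : x ∈ Ioo a b) :
    (⟨x, f x⟩ : ℂ) ∈ closure (prof a b f F) := by
  rw [mem_closure_iff_seq_limit]
  refine ⟨fun n : ℕ => ⟨x, f x + (F x - f x) * (1 / ((n : ℝ) + 2))⟩, fun n => ?_, ?_⟩
  · have hF := h.fF x hx
    have h1 : (0 : ℝ) < 1 / ((n : ℝ) + 2) := by positivity
    have h2 : 1 / ((n : ℝ) + 2) < 1 := by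
      rw [div_lt_one (by positivity)]; have : (0 : ℝ) ≤ n := n.cast_nonneg; linarith
    refine ⟨hx, ?_, ?_⟩
    · show f x < f x + (F x - f x) * (1 / ((n : ℝ) + 2))
      have := mul_pos (sub_pos.2 hF) h1
      linarith
    · show f x + (F x - f x) * (1 / ((n : ℝ) + 2)) < F x
      have := mul_lt_mul_of_pos_left h2 (sub_pos.2 hF)
      linarith
  · have h1 : Tendsto (fun n : ℕ => 1 / ((n : ℝ) + 2)) atTop (𝓝 0) := by
      have := tendsto_one_div_add_atTop_nhds_zero_nat (𝕜 := ℝ)
      have h2 := (tendsto_add_atTop_iff_nat 1).2 this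
      refine h2.congr fun n => ?_
      push_cast; ring_nf
    have h2 : Tendsto (fun n : ℕ => f x + (F x - f x) * (1 / ((n : ℝ) + 2))) atTop (𝓝 (f x)) := by
      have := (h1.const_mul (F x - f x)).const_add (f x)
      simpa using this
    have h3 : Continuous (fun y : ℝ => (⟨x, y⟩ : ℂ)) := by
      have : (fun y : ℝ => (⟨x, y⟩ : ℂ)) = fun y : ℝ => (x : ℂ) + y * Complex.I := by
        funext y; exact Complex.mk_eq_add_mul_I x y
      rw [this]; fun_prop
    exact (h3.tendsto (f x)).comp h2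

theorem ch_closure_bounds (h : CProf a b f F) {z : ℂ} (hz : z ∈ closure (prof a b f F))
    (hre : z.re ∈ Ioo a b) : f z.re ≤ z.im ∧ z.im ≤ F z.re := by
  rw [mem_closure_iff_seq_limit] at hz
  obtain ⟨w, hw, hlim⟩ := hz
  have hre' : Tendsto (fun n => (w n).re) atTop (𝓝 z.re) :=
    (Complex.continuous_re.tendsto z).comp hlim
  have him' : Tendsto (fun n => (w n).im) atTop (𝓝 z.im) :=
    (Complex.continuous_im.tendsto z).comp hlim
  have hf : ContinuousAt f z.re :=
    (h.cvx.continuousOn isOpen_Ioo).continuousAt (isOpen_Ioo.mem_nhds hre)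
  have hF : ContinuousAt F z.re :=
    (h.ccv.continuousOn isOpen_Ioo).continuousAt (isOpen_Ioo.mem_nhds hre)
  constructor
  · exact le_of_tendsto_of_tendsto' (hf.tendsto.comp hre') him' fun n => (hw n).2.1.le
  · exact le_of_tendsto_of_tendsto' him' (hF.tendsto.comp hre') fun n => (hw n).2.2.le

theorem ch_closure_re {z : ℂ} (hz : z ∈ closure (prof a b f F)) : z.re ∈ Icc a b := by
  have hcl : IsClosed {z : ℂ | z.re ∈ Icc a b} := isClosed_Icc.preimage Complex.continuous_re
  exact closure_minimal (fun w (hw : w ∈ prof a b f F) =>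
    show w.re ∈ Icc a b from ⟨hw.1.1.le, hw.1.2.le⟩) hcl hz

theorem ch_closure_im {y0 : ℝ} (hup : ∀ z ∈ prof a b f F, y0 < z.im) {z : ℂ}
    (hz : z ∈ closure (prof a b f F)) : y0 ≤ z.im := by
  have hcl : IsClosed {z : ℂ | y0 ≤ z.im} := isClosed_le continuous_const Complex.continuous_im
  exact closure_minimal (fun z hz => (hup z hz).le) hcl hz

/-- The core of the chart lemma, in normalised coordinates. -/
theorem ch_aux (h : CProf a b f F) {p0 : ℂ} {E : ℕ → ℂ}
    (hE : ∀ n, E n ∈ (closure (prof a b f F)).extremePoints ℝ) (hne : ∀ n, E n ≠ p0)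
    (hdom : Dom (prof a b f F))
    (hlim : Tendsto E atTop (𝓝 p0))
    (hdir : Tendsto (fun n => ((‖E n - p0‖⁻¹ : ℝ) : ℂ) * (E n - p0)) atTop (𝓝 1))
    (hup : ∀ z ∈ prof a b f F, p0.im < z.im) :
    ∃ ε : ℝ, a ≤ p0.re ∧ 0 < ε ∧ p0.re + ε < b ∧
      (∀ x ∈ Ioo p0.re (p0.re + ε), ∀ y ∈ Ioo p0.re (p0.re + ε), |f x - f y| ≤ |x - y| / 10) ∧
      ∀ δ > 0, ∃ p ∈ Ioo p0.re (p0.re + δ), NonAff f p := by
  have hEcl : ∀ n, E n ∈ closure (prof a b f F) := fun n => (hE n).1
  have hp0 : p0 ∈ closure (prof a b f F) :=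
    isClosed_closure.mem_of_tendsto hlim (Eventually.of_forall hEcl)
  have hpos : ∀ n, 0 < ‖E n - p0‖ := fun n => norm_pos_iff.2 (sub_ne_zero.2 (hne n))
  have hre : Tendsto (fun n => (E n).re) atTop (𝓝 p0.re) :=
    (Complex.continuous_re.tendsto p0).comp hlim
  have him : Tendsto (fun n => (E n).im) atTop (𝓝 p0.im) :=
    (Complex.continuous_im.tendsto p0).comp hlim
  have hure : Tendsto (fun n => ‖E n - p0‖⁻¹ * ((E n).re - p0.re)) atTop (𝓝 1) := by
    have := (Complex.continuous_re.tendsto 1).comp hdir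
    rw [Complex.one_re] at this
    refine this.congr fun n => ?_
    simp only [Function.comp_apply, Complex.re_ofReal_mul, Complex.sub_re]
  have huim : Tendsto (fun n => ‖E n - p0‖⁻¹ * ((E n).im - p0.im)) atTop (𝓝 0) := by
    have := (Complex.continuous_im.tendsto 1).comp hdir
    rw [Complex.one_im] at this
    refine this.congr fun n => ?_
    simp only [Function.comp_apply, Complex.im_ofReal_mul, Complex.sub_im]
  have ha : a ≤ p0.re := (ch_closure_re hp0).1
  -- eventually the abscissas are to the right of `p0.re`, with small slope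
  have hkey : ∀ κ > 0, ∀ᶠ n in atTop, p0.re < (E n).re ∧
      (E n).im - p0.im ≤ κ * ((E n).re - p0.re) := by
    intro κ hκ
    have h1 : ∀ᶠ n in atTop, 1 / 2 < ‖E n - p0‖⁻¹ * ((E n).re - p0.re) :=
      hure.eventually (lt_mem_nhds (by norm_num))
    have h2 : ∀ᶠ n in atTop, ‖E n - p0‖⁻¹ * ((E n).im - p0.im) < κ / 2 :=
      huim.eventually (gt_mem_nhds (by linarith))
    filter_upwards [h1, h2] with n h1 h2
    have hr := hpos n
    generalize ‖E n - p0‖ = r at h1 h2 hr
    have e1 : r⁻¹ * ((E n).re - p0.re) = ((E n).re - p0.re) / r := by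
      rw [div_eq_inv_mul]
    have e2 : r⁻¹ * ((E n).im - p0.im) = ((E n).im - p0.im) / r := by
      rw [div_eq_inv_mul]
    rw [e1, lt_div_iff₀ hr] at h1
    rw [e2, div_lt_iff₀ hr] at h2
    constructor
    · linarith
    · nlinarith
  have hb : p0.re < b := by
    obtain ⟨n, hn⟩ := (hkey 1 one_pos).exists
    exact lt_of_lt_of_le hn.1 (ch_closure_re (hEcl n)).2
  have hxb : ∀ᶠ n in atTop, (E n).re < b := hre.eventually (gt_mem_nhds hb)
  have hfy : ∀ x ∈ Ioo a b, p0.im ≤ f x := fun x hx =>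
    ch_closure_im hup (ch_graph_mem_closure h hx)
  -- the points are on the lower graph
  set m : ℝ := (p0.re + b) / 2 with hm
  have hm1 : p0.re < m := by rw [hm]; linarith
  have hm2 : m < b := by rw [hm]; linarith
  have hmI : m ∈ Ioo a b := ⟨by linarith, hm2⟩
  have hFm : p0.im < F m := lt_of_le_of_lt (hfy m hmI) (h.fF m hmI)
  have hFlow : ∀ x, p0.re < x → x < m →
      p0.im + (F m - p0.im) / (m - p0.re) / 2 * (x - p0.re) ≤ F x := by
    intro x hx1 hx2
    have hx' : (p0.re + x) / 2 ∈ Ioo a b := ⟨by linarith, by linarith⟩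
    have hF' : p0.im ≤ F ((p0.re + x) / 2) := (hfy _ hx').trans (h.fF _ hx').le
    set x' := (p0.re + x) / 2 with hx'def
    have hd : 0 < m - x' := by rw [hx'def]; linarith
    have hcc := h.ccv.2 hx' hmI
      (show 0 ≤ (m - x) / (m - x') from div_nonneg (by linarith) hd.le)
      (show 0 ≤ (x - x') / (m - x') from div_nonneg (by rw [hx'def]; linarith) hd.le)
      (by field_simp; ring)
    simp only [smul_eq_mul] at hcc
    have e1 : (m - x) / (m - x') * x' + (x - x') / (m - x') * m = x := by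
      field_simp; ring
    rw [e1] at hcc
    have e2 : (m - x) / (m - x') * p0.im ≤ (m - x) / (m - x') * F x' :=
      mul_le_mul_of_nonneg_left hF' (div_nonneg (by linarith) hd.le)
    have e3 : (m - x) / (m - x') * p0.im + (x - x') / (m - x') * F m =
        p0.im + (x - x') / (m - x') * (F m - p0.im) := by
      field_simp; ring
    have e4 : (F m - p0.im) / (m - p0.re) / 2 * (x - p0.re) ≤
        (x - x') / (m - x') * (F m - p0.im) := by
      have e5 : (F m - p0.im) / (m - p0.re) / 2 * (x - p0.re) =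
          (x - x') / (m - p0.re) * (F m - p0.im) := by
        rw [hx'def]; field_simp; ring
      rw [e5]
      apply mul_le_mul_of_nonneg_right _ (by linarith)
      apply div_le_div_of_nonneg_left (by rw [hx'def]; linarith) hd (by rw [hx'def]; linarith)
    linarith
  have hlow : ∀ᶠ n in atTop, p0.re < (E n).re ∧ (E n).re < b ∧ f (E n).re = (E n).im := by
    have hκ : 0 < (F m - p0.im) / (m - p0.re) / 4 := by
      have := div_pos (sub_pos.2 hFm) (sub_pos.2 hm1)
      linarith
    filter_upwards [hkey _ hκ, hxb, hre.eventually (gt_mem_nhds hm1)] with n h1 h2 h3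
    have hI : (E n).re ∈ Ioo a b := ⟨by linarith [h1.1], h2⟩
    refine ⟨h1.1, h2, ?_⟩
    have h4 := ch_closure_bounds h (hEcl n) hI
    have h5 := hFlow _ h1.1 h3
    have h6 : (E n).im < F (E n).re := by
      refine lt_of_lt_of_le ?_ h5
      have h7 : 0 < (E n).re - p0.re := by linarith [h1.1]
      have h8 := mul_pos hκ h7
      have h9 := h1.2
      have : (F m - p0.im) / (m - p0.re) / 2 * ((E n).re - p0.re) =
        2 * ((F m - p0.im) / (m - p0.re) / 4 * ((E n).re - p0.re)) := by ring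
      rw [this]; linarith
    by_contra hne'
    have h10 : f (E n).re < (E n).im := lt_of_le_of_ne h4.1 hne'
    exact ch_extreme_notMem hdom (hE n) ⟨hI, h10, h6⟩
  -- f is nondecreasing to the right of p0
  have hmono : ∀ x y, p0.re < x → x < y → y < b → f x ≤ f y := by
    intro x y hx hxy hy
    by_contra hlt
    push Not at hlt
    have h1 : ∀ᶠ n in atTop, f x ≤ (E n).im := by
      filter_upwards [hlow, hre.eventually (gt_mem_nhds hx)] with n h1 h2
      have hI1 : (E n).re ∈ Ioo a b := ⟨by linarith [h1.1], h1.2.1⟩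
      have hI2 : y ∈ Ioo a b := ⟨by linarith, hy⟩
      have hd : 0 < y - (E n).re := by linarith
      have hcc := h.cvx.2 hI1 hI2
        (show 0 ≤ (y - x) / (y - (E n).re) from div_nonneg (by linarith) hd.le)
        (show 0 ≤ (x - (E n).re) / (y - (E n).re) from div_nonneg (by linarith) hd.le)
        (by field_simp; ring)
      simp only [smul_eq_mul] at hcc
      have e1 : (y - x) / (y - (E n).re) * (E n).re + (x - (E n).re) / (y - (E n).re) * y = x := by
        field_simp; ring
      rw [e1, h1.2.2] at hcc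
      by_contra hlt2
      push Not at hlt2
      have h3 : 0 < (y - x) / (y - (E n).re) := div_pos (by linarith) hd
      have h4 : 0 ≤ (x - (E n).re) / (y - (E n).re) := div_nonneg (by linarith) hd.le
      have h5 : (y - x) / (y - (E n).re) + (x - (E n).re) / (y - (E n).re) = 1 := by
        field_simp; ring
      have h6 := mul_lt_mul_of_pos_left hlt2 h3
      have h7 := mul_le_mul_of_nonneg_left hlt.le h4
      have h8 : (y - x) / (y - (E n).re) * f x + (x - (E n).re) / (y - (E n).re) * f x = f x := by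
        rw [← add_mul, h5, one_mul]
      linarith
    have h2 : f x ≤ p0.im := ge_of_tendsto him h1
    have h3 := hfy y ⟨by linarith, hy⟩
    linarith
  obtain ⟨N, hN1, hN2⟩ := (hlow.and (hkey (1 / 20) (by norm_num))).exists
  have hNx : p0.re < (E N).re := hN1.1
  refine ⟨((E N).re - p0.re) / 2, ha, by linarith, by linarith [hN1.2.1], ?_, ?_⟩
  · -- slopes
    have hsl : ∀ x y, p0.re < x → x < y → y < p0.re + ((E N).re - p0.re) / 2 →
        |f x - f y| ≤ |x - y| / 10 := by
      intro x y hx hxy hy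
      have hyN : y < (E N).re := by linarith
      have hyb : y < b := by linarith [hN1.2.1]
      have h1 := hmono x y hx hxy hyb
      have hIx : x ∈ Ioo a b := ⟨by linarith, by linarith⟩
      have hIy : y ∈ Ioo a b := ⟨by linarith, hyb⟩
      have hIN : (E N).re ∈ Ioo a b := ⟨by linarith, hN1.2.1⟩
      have h2 := h.cvx.slope_mono_adjacent hIx hIN hxy hyN
      rw [hN1.2.2] at h2
      have h3 := hfy y hIy
      have h4 : ((E N).im - f y) / ((E N).re - y) ≤ 1 / 10 := by
        rw [div_le_iff₀ (by linarith)]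
        have := hN2.2
        linarith
      have h5 : (f y - f x) / (y - x) ≤ 1 / 10 := h2.trans h4
      rw [div_le_iff₀ (by linarith)] at h5
      rw [abs_sub_comm, abs_of_nonneg (by linarith), abs_sub_comm, abs_of_pos (by linarith)]
      linarith
    intro x hx y hy
    rcases lt_trichotomy x y with hxy | hxy | hxy
    · exact hsl x y hx.1 hxy hy.2
    · rw [hxy]; simp
    · have := hsl y x hy.1 hxy hx.2
      rwa [abs_sub_comm, abs_sub_comm y x] at this
  · -- non-affine points
    intro δ hδ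
    obtain ⟨n, hn1, hn2⟩ := (hlow.and (hre.eventually (gt_mem_nhds
      (show p0.re < p0.re + δ by linarith)))).exists
    refine ⟨(E n).re, ⟨hn1.1, hn2⟩, ?_⟩
    intro η hη hcontra
    obtain ⟨k, c, hkc⟩ := hcontra
    have hI : (E n).re ∈ Ioo a b := ⟨by linarith [hn1.1], hn1.2.1⟩
    obtain ⟨η', hη'0, hη'1, hη'2, hη'3⟩ : ∃ η' : ℝ, 0 < η' ∧ η' ≤ η ∧ a < (E n).re - η' ∧
        (E n).re + η' < b := by
      refine ⟨min η (min (((E n).re - a) / 2) ((b - (E n).re) / 2)), ?_, min_le_left _ _, ?_, ?_⟩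
      · have h1 : 0 < ((E n).re - a) / 2 := by linarith [hI.1]
        have h2 : 0 < (b - (E n).re) / 2 := by linarith [hI.2]
        exact lt_min hη (lt_min h1 h2)
      · have : min η (min (((E n).re - a) / 2) ((b - (E n).re) / 2)) ≤ ((E n).re - a) / 2 :=
          (min_le_right _ _).trans (min_le_left _ _)
        linarith [hI.1]
      · have : min η (min (((E n).re - a) / 2) ((b - (E n).re) / 2)) ≤ (b - (E n).re) / 2 :=
          (min_le_right _ _).trans (min_le_right _ _)
        linarith [hI.2]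
    have hP1 := ch_graph_mem_closure h (x := (E n).re - η') ⟨hη'2, by linarith⟩
    have hP2 := ch_graph_mem_closure h (x := (E n).re + η') ⟨by linarith, hη'3⟩
    have hf1 := hkc ((E n).re - η') ⟨by linarith, by linarith⟩
    have hf2 := hkc ((E n).re + η') ⟨by linarith, by linarith⟩
    have hf3 := hkc (E n).re ⟨by linarith, by linarith⟩
    have hmid := (mem_extremePoints.1 (hE n)).2 _ hP1 _ hP2
      ⟨1 / 2, 1 / 2, by norm_num, by norm_num, by norm_num, by
        apply Complex.ext
        · simp; ring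
        · simp only [one_div, Complex.add_im, Complex.smul_im, smul_eq_mul]
          rw [hf1, hf2, ← hn1.2.2, hf3]; ring⟩
    have h1 := congrArg Complex.re hmid.1
    simp only at h1
    linarith

end Profile

/-! ### invariance under linear isometries -/

theorem ch_dom_image {Ω : Set ℂ} (h : Dom Ω) (e : ℂ ≃ₗᵢ[ℝ] ℂ) : Dom (e '' Ω) where
  nonempty := h.nonempty.image e
  bounded := by
    have := e.lipschitz.isBounded_image h.bounded
    exact this
  isOpen := e.toHomeomorph.isOpenMap _ h.isOpen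
  convex := h.convex.linear_image (e : ℂ ≃ₗ[ℝ] ℂ).toLinearMap

theorem ch_extreme_image {Ω : Set ℂ} (e : ℂ ≃ₗᵢ[ℝ] ℂ) {x : ℂ}
    (hx : x ∈ (closure Ω).extremePoints ℝ) : e x ∈ (closure (e '' Ω)).extremePoints ℝ := by
  have h1 : closure (e '' Ω) = e '' closure Ω := (e.toHomeomorph.image_closure Ω).symm
  rw [h1, ← image_extremePoints (𝕜 := ℝ) e]
  exact mem_image_of_mem e hx

/-- If `Ω` is not a polygon then, up to a linear isometry, `Ω` is a profile domain whose lower
boundary function has infinitely many non-affine points accumulating at `x0` from the right, with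
small slopes. -/
theorem exists_chart {Ω : Set ℂ} (hΩ : Dom Ω) (hnp : ¬ IsPolygon Ω) :
    ∃ (e : ℂ ≃ₗᵢ[ℝ] ℂ) (a b : ℝ) (f F : ℝ → ℝ) (x0 ε : ℝ), CProf a b f F ∧
      e '' Ω = prof a b f F ∧ a ≤ x0 ∧ 0 < ε ∧ x0 + ε < b ∧
      (∀ x ∈ Ioo x0 (x0 + ε), ∀ y ∈ Ioo x0 (x0 + ε), |f x - f y| ≤ |x - y| / 10) ∧
      ∀ δ > 0, ∃ p ∈ Ioo x0 (x0 + δ), NonAff f p := by
  obtain ⟨p0, d, E, hE, hne, hlim, hd, hdir⟩ := ch_exists_seq hΩ hnp
  -- it suffices to find an isometry sending `d` to `1` and `Ω` above the horizontal line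
  suffices hs : ∃ e : ℂ ≃ₗᵢ[ℝ] ℂ, e d = 1 ∧ ∀ z ∈ Ω, (e p0).im < (e z).im by
    obtain ⟨e, hed, hup⟩ := hs
    have hdom := ch_dom_image hΩ e
    obtain ⟨a, b, f, F, hP, hΩeq⟩ := exists_prof hdom
    have hlim' : Tendsto (fun n => e (E n)) atTop (𝓝 (e p0)) :=
      (e.continuous.tendsto p0).comp hlim
    have hdir' : Tendsto (fun n => ((‖e (E n) - e p0‖⁻¹ : ℝ) : ℂ) * (e (E n) - e p0)) atTop
        (𝓝 1) := by
      have h1 := (e.continuous.tendsto d).comp hdir
      rw [hed] at h1
      refine h1.congr fun n => ?_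
      simp only [Function.comp_apply]
      rw [← Complex.real_smul, ← Complex.real_smul, map_smul, ← map_sub, e.norm_map]
    obtain ⟨ε, h1, h2, h3, h4, h5⟩ := ch_aux hP (p0 := e p0) (E := fun n => e (E n))
      (fun n => by rw [← hΩeq]; exact ch_extreme_image e (hE n))
      (fun n h => hne n (e.injective h)) (by rw [← hΩeq]; exact hdom) hlim' hdir'
      (by rw [← hΩeq]; rintro _ ⟨z, hz, rfl⟩; exact hup z hz)
    exact ⟨e, a, b, f, F, (e p0).re, ε, hP, hΩeq, h1, h2, h3, h4, h5⟩
  -- the rotation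
  have hdd : (starRingEnd ℂ) d * d = 1 := by
    rw [mul_comm, Complex.mul_conj, Complex.normSq_eq_norm_sq, hd]; norm_num
  set A : Circle := ⟨(starRingEnd ℂ) d, by
    show (starRingEnd ℂ) d ∈ Metric.sphere (0 : ℂ) 1
    rw [mem_sphere_zero_iff_norm, RCLike.norm_conj, hd]⟩ with hA
  have hAd : rotation A d = 1 := by rw [rotation_apply]; exact hdd
  have hAap : ∀ z, rotation A z = (starRingEnd ℂ) d * z := fun z => rfl
  set g : ℂ → ℝ := fun z => (rotation A z).im - (rotation A p0).im with hg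
  have hgc : Continuous g := by
    exact (Complex.continuous_im.comp (rotation A).continuous).sub continuous_const
  have hg0 : ∀ z ∈ Ω, g z ≠ 0 := by
    intro z hz h0
    have h1 : ((rotation A) (z - p0)).im = 0 := by
      rw [map_sub, Complex.sub_im]; exact h0
    set τ : ℝ := ((rotation A) (z - p0)).re with hτ
    have h2 : (starRingEnd ℂ) d * (z - p0) = (τ : ℂ) := by
      rw [← hAap]
      apply Complex.ext
      · simp [hτ]
      · rw [h1]; simp
    have h3 : z = p0 + τ * d := by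
      rw [← h2]
      have : (starRingEnd ℂ) d * (z - p0) * d = ((starRingEnd ℂ) d * d) * (z - p0) := by ring
      rw [this, hdd]; ring
    exact ch_line hΩ hE hne hlim hdir τ (h3 ▸ hz)
  have himg : IsPreconnected (g '' Ω) := hΩ.convex.isPreconnected.image g hgc.continuousOn
  have hord := himg.ordConnected
  have hsign : (∀ z ∈ Ω, 0 < g z) ∨ (∀ z ∈ Ω, g z < 0) := by
    by_contra hcon
    push Not at hcon
    obtain ⟨⟨z1, hz1, h1⟩, ⟨z2, hz2, h2⟩⟩ := hcon
    have : (0 : ℝ) ∈ g '' Ω := hord.out (mem_image_of_mem g hz1) (mem_image_of_mem g hz2) ⟨h1, h2⟩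
    obtain ⟨z, hz, h0⟩ := this
    exact hg0 z hz h0
  rcases hsign with hpos | hneg
  · refine ⟨rotation A, hAd, fun z hz => ?_⟩
    have := hpos z hz
    simp only [hg] at this
    linarith
  · refine ⟨(rotation A).trans Complex.conjLIE, ?_, fun z hz => ?_⟩
    · rw [LinearIsometryEquiv.trans_apply, hAd, Complex.conjLIE_apply, map_one]
    · rw [LinearIsometryEquiv.trans_apply, LinearIsometryEquiv.trans_apply,
        Complex.conjLIE_apply, Complex.conjLIE_apply, Complex.conj_im, Complex.conj_im]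
      have := hneg z hz
      simp only [hg] at this
      linarith

end

end Pool.Agent.Lib.MP_4cfb03_an
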