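import Pool.Agent.Lib.MP_4cfb03_an.Defs

/-! # T03 : the integrated width `mw` (helper66) -/

open MeasureTheory Set
open scoped ENNReal ContDiff Topology

namespace Pool.Agent.Lib.MP_4cfb03_an

noncomputable section

/-- `pr θ` as a continuous linear functional. -/
def prL (θ : ℝ) : ℂ →L[ℝ] ℝ :=
  Real.cos θ • Complex.reCLM + Real.sin θ • Complex.imCLM

theorem prL_apply (θ : ℝ) (z : ℂ) : prL θ z = pr θ z := by
  unfold prL pr
  simp
  ring

theorem prL_coe (θ : ℝ) : (prL θ : ℂ → ℝ) = pr θ := funext (prL_apply θ)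

theorem pr_add (θ : ℝ) (z w : ℂ) : pr θ (z + w) = pr θ z + pr θ w := by
  unfold pr
  simp only [Complex.add_re, Complex.add_im]
  ring

theorem pr_sub (θ : ℝ) (z w : ℂ) : pr θ (z - w) = pr θ z - pr θ w := by
  unfold pr
  simp only [Complex.sub_re, Complex.sub_im]
  ring

theorem pr_real_mul (θ κ : ℝ) (z : ℂ) : pr θ ((κ : ℂ) * z) = κ * pr θ z := by
  unfold pr
  simp only [Complex.mul_re, Complex.mul_im, Complex.ofReal_re, Complex.ofReal_im]
  ring

theorem abs_pr_le (θ : ℝ) (z : ℂ) : |pr θ z| ≤ ‖z‖ := by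
  apply abs_le_of_sq_le_sq _ (norm_nonneg z)
  rw [← Complex.normSq_eq_norm_sq, Complex.normSq_apply]
  unfold pr
  nlinarith [Real.sin_sq_add_cos_sq θ, sq_nonneg (z.re * Real.sin θ - z.im * Real.cos θ)]

theorem dist_pr_le (θ : ℝ) (z w : ℂ) : dist (pr θ z) (pr θ w) ≤ dist z w := by
  rw [Real.dist_eq, dist_eq_norm, ← pr_sub]
  exact abs_pr_le θ (z - w)

theorem continuous_pr (θ : ℝ) : Continuous (pr θ) := by
  rw [← prL_coe]
  exact (prL θ).continuous

theorem abs_pr_sub_pr (θ θ' : ℝ) (z : ℂ) : |pr θ z - pr θ' z| ≤ 2 * ‖z‖ * |θ - θ'| := by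
  have h1 : |Real.cos θ - Real.cos θ'| ≤ |θ - θ'| := by
    have := Real.abs_cos_sub_cos_le θ θ'
    exact this
  have h2 : |Real.sin θ - Real.sin θ'| ≤ |θ - θ'| := by
    have := Real.abs_sin_sub_sin_le θ θ'
    exact this
  have e : pr θ z - pr θ' z =
      z.re * (Real.cos θ - Real.cos θ') + z.im * (Real.sin θ - Real.sin θ') := by
    unfold pr; ring
  rw [e]
  calc |z.re * (Real.cos θ - Real.cos θ') + z.im * (Real.sin θ - Real.sin θ')|
      ≤ |z.re * (Real.cos θ - Real.cos θ')| + |z.im * (Real.sin θ - Real.sin θ')| :=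
        abs_add_le _ _
    _ = |z.re| * |Real.cos θ - Real.cos θ'| + |z.im| * |Real.sin θ - Real.sin θ'| := by
        rw [abs_mul, abs_mul]
    _ ≤ ‖z‖ * |θ - θ'| + ‖z‖ * |θ - θ'| := by
        gcongr
        · exact Complex.abs_re_le_norm z
        · exact Complex.abs_im_le_norm z
    _ = 2 * ‖z‖ * |θ - θ'| := by ring

theorem isBounded_pr {S : Set ℂ} (hb : Bornology.IsBounded S) (θ : ℝ) :
    Bornology.IsBounded (pr θ '' S) := by
  rw [← prL_coe]
  exact (prL θ).lipschitz.isBounded_image hb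

theorem dist_pr_le_diam {S : Set ℂ} (hb : Bornology.IsBounded S) (θ : ℝ) {x y : ℂ} (hx : x ∈ S)
    (hy : y ∈ S) : dist (pr θ x) (pr θ y) ≤ Metric.diam (pr θ '' S) :=
  Metric.dist_le_diam_of_mem (isBounded_pr hb θ) (mem_image_of_mem _ hx) (mem_image_of_mem _ hy)

theorem diam_pr_le {S : Set ℂ} (θ : ℝ) {C : ℝ} (hC : 0 ≤ C)
    (h : ∀ x ∈ S, ∀ y ∈ S, dist (pr θ x) (pr θ y) ≤ C) : Metric.diam (pr θ '' S) ≤ C := by
  apply Metric.diam_le_of_forall_dist_le hC
  rintro _ ⟨x, hx, rfl⟩ _ ⟨y, hy, rfl⟩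
  exact h x hx y hy

theorem continuous_diam_pr {S : Set ℂ} (hb : Bornology.IsBounded S) :
    Continuous (fun θ => Metric.diam (pr θ '' S)) := by
  obtain ⟨R, hR⟩ := hb.exists_norm_le
  have hR' : ∀ x ∈ S, ‖x‖ ≤ max R 0 := fun x hx => (hR x hx).trans (le_max_left _ _)
  have h0 : 0 ≤ max R 0 := le_max_right _ _
  have key : LipschitzWith (Real.toNNReal (4 * max R 0)) (fun θ => Metric.diam (pr θ '' S)) := by
    apply LipschitzWith.of_le_add_mul
    intro θ θ'
    rw [Real.coe_toNNReal _ (by positivity)]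
    apply diam_pr_le θ
    · have := Metric.diam_nonneg (s := pr θ' '' S)
      positivity
    · intro x hx y hy
      have h1 := abs_pr_sub_pr θ θ' x
      have h2 := abs_pr_sub_pr θ θ' y
      have h3 := dist_pr_le_diam hb θ' hx hy
      rw [Real.dist_eq] at h3 ⊢
      rw [Real.dist_eq]
      have h4 : |pr θ x - pr θ' x| ≤ 2 * max R 0 * |θ - θ'| :=
        h1.trans (by gcongr; exact hR' x hx)
      have h5 : |pr θ y - pr θ' y| ≤ 2 * max R 0 * |θ - θ'| :=
        h2.trans (by gcongr; exact hR' y hy)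
      have e : pr θ x - pr θ y = (pr θ' x - pr θ' y) + (pr θ x - pr θ' x) - (pr θ y - pr θ' y) := by
        ring
      rw [e]
      calc |(pr θ' x - pr θ' y) + (pr θ x - pr θ' x) - (pr θ y - pr θ' y)|
          ≤ |(pr θ' x - pr θ' y) + (pr θ x - pr θ' x)| + |pr θ y - pr θ' y| := abs_sub _ _
        _ ≤ |pr θ' x - pr θ' y| + |pr θ x - pr θ' x| + |pr θ y - pr θ' y| := by
            gcongr
            exact abs_add_le _ _
        _ ≤ _ := by linarith
  exact key.continuous

theorem intervalIntegrable_diam_pr {S : Set ℂ} (hb : Bornology.IsBounded S) (a b : ℝ) :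
    IntervalIntegrable (fun θ => Metric.diam (pr θ '' S)) volume a b :=
  (continuous_diam_pr hb).intervalIntegrable a b

theorem mw_nonneg (S : Set ℂ) : 0 ≤ mw S :=
  intervalIntegral.integral_nonneg Real.pi_pos.le fun _ _ => Metric.diam_nonneg

theorem mw_mono {S T : Set ℂ} (hT : Bornology.IsBounded T) (h : S ⊆ T) : mw S ≤ mw T := by
  unfold mw
  apply intervalIntegral.integral_mono_on Real.pi_pos.le
    (intervalIntegrable_diam_pr (hT.subset h) _ _) (intervalIntegrable_diam_pr hT _ _)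
  intro θ _
  exact Metric.diam_mono (image_mono h) (isBounded_pr hT θ)

/-- the unit vector in the direction `θ` -/
def uv (θ : ℝ) : ℂ := ⟨Real.cos θ, Real.sin θ⟩

theorem norm_uv (θ : ℝ) : ‖uv θ‖ = 1 := by
  have h : ‖uv θ‖ ^ 2 = 1 := by
    rw [← Complex.normSq_eq_norm_sq, Complex.normSq_apply]
    show Real.cos θ * Real.cos θ + Real.sin θ * Real.sin θ = 1
    nlinarith [Real.sin_sq_add_cos_sq θ]
  nlinarith [norm_nonneg (uv θ)]

theorem pr_uv (θ : ℝ) : pr θ (uv θ) = 1 := by
  show Real.cos θ * Real.cos θ + Real.sin θ * Real.sin θ = 1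
  nlinarith [Real.sin_sq_add_cos_sq θ]

theorem le_diam_pr_cthickening {S : Set ℂ} (hb : Bornology.IsBounded S) (θ : ℝ) {δ : ℝ}
    (hδ : 0 ≤ δ) {x y : ℂ} (hx : x ∈ S) (hy : y ∈ S) :
    dist (pr θ x) (pr θ y) + 2 * δ ≤ Metric.diam (pr θ '' Metric.cthickening δ S) := by
  wlog h : pr θ y ≤ pr θ x generalizing x y
  · have := this hy hx (le_of_not_ge h)
    rwa [dist_comm] at this
  have hn : ‖(δ : ℂ) * uv θ‖ = δ := by
    rw [norm_mul, norm_uv, mul_one, Complex.norm_real, Real.norm_eq_abs, abs_of_nonneg hδ]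
  have h1 : x + (δ : ℂ) * uv θ ∈ Metric.cthickening δ S := by
    apply Metric.mem_cthickening_of_dist_le _ x δ S hx
    rw [dist_eq_norm, add_sub_cancel_left, hn]
  have h2 : y - (δ : ℂ) * uv θ ∈ Metric.cthickening δ S := by
    apply Metric.mem_cthickening_of_dist_le _ y δ S hy
    rw [dist_eq_norm, sub_sub_cancel_left, norm_neg, hn]
  have h3 := dist_pr_le_diam (hb.cthickening (δ := δ)) θ h1 h2
  rw [pr_add, pr_sub, pr_real_mul, pr_uv, Real.dist_eq] at h3
  rw [Real.dist_eq, abs_of_nonneg (sub_nonneg.2 h)]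
  have h4 : pr θ x + δ * 1 - (pr θ y - δ * 1) ≤ |pr θ x + δ * 1 - (pr θ y - δ * 1)| :=
    le_abs_self _
  linarith

theorem diam_pr_cthickening {S : Set ℂ} (hb : Bornology.IsBounded S) (hne : S.Nonempty) (θ : ℝ)
    {δ : ℝ} (hδ : 0 ≤ δ) :
    Metric.diam (pr θ '' Metric.cthickening δ S) = Metric.diam (pr θ '' S) + 2 * δ := by
  apply le_antisymm
  · apply le_of_forall_pos_le_add
    intro ε hε
    apply diam_pr_le θ
    · have := Metric.diam_nonneg (s := pr θ '' S)
      positivity
    · intro u hu v hv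
      have hsub := Metric.cthickening_subset_thickening' (δ₂ := δ + ε / 2) (by positivity)
        (by linarith : δ < δ + ε / 2) S
      obtain ⟨x, hx, hux⟩ := Metric.mem_thickening_iff.1 (hsub hu)
      obtain ⟨y, hy, hvy⟩ := Metric.mem_thickening_iff.1 (hsub hv)
      have h1 := dist_pr_le θ u x
      have h2 := dist_pr_le θ v y
      have h3 := dist_pr_le_diam hb θ hx hy
      have h4 := dist_triangle4 (pr θ u) (pr θ x) (pr θ y) (pr θ v)
      rw [dist_comm (pr θ y) (pr θ v)] at h4
      linarith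
  · obtain ⟨x0, hx0⟩ := hne
    have h0 := le_diam_pr_cthickening hb θ hδ hx0 hx0
    rw [dist_self] at h0
    have : Metric.diam (pr θ '' S) ≤ Metric.diam (pr θ '' Metric.cthickening δ S) - 2 * δ := by
      apply diam_pr_le θ (by linarith)
      intro x hx y hy
      have := le_diam_pr_cthickening hb θ hδ hx hy
      linarith
    linarith

theorem mw_eq_add {S T : Set ℂ} (hb : Bornology.IsBounded S) {c : ℝ}
    (h : ∀ θ, Metric.diam (pr θ '' T) = Metric.diam (pr θ '' S) + c) :
    mw T = mw S + c * Real.pi := by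
  unfold mw
  have : (fun θ => Metric.diam (pr θ '' T)) = fun θ => Metric.diam (pr θ '' S) + c := funext h
  rw [this, intervalIntegral.integral_add (intervalIntegrable_diam_pr hb _ _)
    intervalIntegrable_const]
  rw [intervalIntegral.integral_const]
  simp only [sub_zero, smul_eq_mul]
  ring

theorem mw_cthickening {S : Set ℂ} (hb : Bornology.IsBounded S) (hne : S.Nonempty) {δ : ℝ}
    (hδ : 0 ≤ δ) : mw (Metric.cthickening δ S) = mw S + 2 * Real.pi * δ := by
  rw [mw_eq_add hb (fun θ => diam_pr_cthickening hb hne θ hδ)]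
  ring

theorem diam_pr_thickening {S : Set ℂ} (hb : Bornology.IsBounded S) (hne : S.Nonempty) (θ : ℝ)
    {δ : ℝ} (hδ : 0 < δ) :
    Metric.diam (pr θ '' Metric.thickening δ S) = Metric.diam (pr θ '' S) + 2 * δ := by
  apply le_antisymm
  · rw [← diam_pr_cthickening hb hne θ hδ.le]
    exact Metric.diam_mono (image_mono (Metric.thickening_subset_cthickening δ S))
      (isBounded_pr hb.cthickening θ)
  · apply le_of_forall_pos_le_add
    intro ε hε
    have h1 : max 0 (δ - ε / 2) < δ := max_lt hδ (by linarith)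
    have h2 := diam_pr_cthickening hb hne θ (le_max_left 0 (δ - ε / 2))
    have h3 : Metric.diam (pr θ '' Metric.cthickening (max 0 (δ - ε / 2)) S) ≤
        Metric.diam (pr θ '' Metric.thickening δ S) :=
      Metric.diam_mono (image_mono (Metric.cthickening_subset_thickening' hδ h1 S))
        (isBounded_pr (hb.cthickening.subset (Metric.thickening_subset_cthickening δ S)) θ)
    have h4 := le_max_right 0 (δ - ε / 2)
    linarith

theorem mw_thickening {S : Set ℂ} (hb : Bornology.IsBounded S) (hne : S.Nonempty) {δ : ℝ}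
    (hδ : 0 < δ) : mw (Metric.thickening δ S) = mw S + 2 * Real.pi * δ := by
  rw [mw_eq_add hb (fun θ => diam_pr_thickening hb hne θ hδ)]
  ring

theorem mw_congr {S T : Set ℂ}
    (h : ∀ θ, Metric.diam (pr θ '' T) = Metric.diam (pr θ '' S)) : mw T = mw S := by
  unfold mw
  have : (fun θ => Metric.diam (pr θ '' T)) = fun θ => Metric.diam (pr θ '' S) := funext h
  rw [this]

theorem mw_convexHull {S : Set ℂ} (hb : Bornology.IsBounded S) : mw (convexHull ℝ S) = mw S := by
  have _ := hb
  apply mw_congr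
  intro θ
  have h : pr θ '' convexHull ℝ S = convexHull ℝ (pr θ '' S) := by
    rw [← prL_coe]
    exact (prL θ : ℂ →ₗ[ℝ] ℝ).image_convexHull S
  rw [h, convexHull_diam]

theorem mw_closure {S : Set ℂ} (hb : Bornology.IsBounded S) : mw (closure S) = mw S := by
  apply mw_congr
  intro θ
  apply le_antisymm
  · rw [← Metric.diam_closure (pr θ '' S)]
    exact Metric.diam_mono (image_closure_subset_closure_image (continuous_pr θ))
      (isBounded_pr hb θ).closure
  · exact Metric.diam_mono (image_mono subset_closure) (isBounded_pr hb.closure θ)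

theorem mw_homothety {S : Set ℂ} (hb : Bornology.IsBounded S) (z : ℂ) {κ : ℝ} (hκ : 0 ≤ κ) :
    mw ((fun x => z + (κ : ℂ) * (x - z)) '' S) = κ * mw S := by
  have hd : ∀ θ x y, dist (pr θ (z + (κ : ℂ) * (x - z))) (pr θ (z + (κ : ℂ) * (y - z))) =
      κ * dist (pr θ x) (pr θ y) := by
    intro θ x y
    rw [pr_add, pr_add, pr_real_mul, pr_real_mul, pr_sub, pr_sub, Real.dist_eq, Real.dist_eq]
    rw [← abs_of_nonneg hκ, ← abs_mul, abs_of_nonneg hκ]
    congr 1
    ring
  have h : ∀ θ, Metric.diam (pr θ '' ((fun x => z + (κ : ℂ) * (x - z)) '' S)) =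
      κ * Metric.diam (pr θ '' S) := by
    intro θ
    apply le_antisymm
    · apply diam_pr_le θ (mul_nonneg hκ Metric.diam_nonneg)
      rintro _ ⟨x, hx, rfl⟩ _ ⟨y, hy, rfl⟩
      rw [hd]
      exact mul_le_mul_of_nonneg_left (dist_pr_le_diam hb θ hx hy) hκ
    · rcases hκ.eq_or_lt with h0 | h0
      · rw [← h0, zero_mul]
        exact Metric.diam_nonneg
      · rw [← le_div_iff₀' h0]
        apply diam_pr_le θ (div_nonneg Metric.diam_nonneg hκ)
        intro x hx y hy
        rw [le_div_iff₀' h0, ← hd]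
        apply dist_pr_le_diam _ θ (mem_image_of_mem _ hx) (mem_image_of_mem _ hy)
        have hl : LipschitzWith (Real.toNNReal κ) (fun x => z + (κ : ℂ) * (x - z)) := by
          apply LipschitzWith.of_dist_le_mul
          intro x y
          rw [dist_eq_norm, dist_eq_norm, Real.coe_toNNReal _ hκ]
          have : z + (κ : ℂ) * (x - z) - (z + (κ : ℂ) * (y - z)) = (κ : ℂ) * (x - y) := by ring
          rw [this, norm_mul, Complex.norm_real, Real.norm_eq_abs, abs_of_nonneg hκ]
        exact hl.isBounded_image hb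
  unfold mw
  have : (fun θ => Metric.diam (pr θ '' ((fun x => z + (κ : ℂ) * (x - z)) '' S))) =
      fun θ => κ * Metric.diam (pr θ '' S) := funext h
  rw [this, intervalIntegral.integral_const_mul]

theorem volume_pr_aux {A : Set ℝ} (hc : IsCompact A) (hconn : IsConnected A) :
    volume A = ENNReal.ofReal (Metric.diam A) := by
  have h := eq_Icc_of_connected_compact hconn hc
  have hle : sInf A ≤ sSup A := Real.sInf_le_sSup A hc.bddBelow hc.bddAbove
  rw [h, Real.volume_Icc, Real.diam_Icc hle]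

theorem volume_pr {C : Set ℂ} (hC : IsCompact C) (hne : C.Nonempty) (hconn : IsPreconnected C)
    (θ : ℝ) : volume (pr θ '' C) = ENNReal.ofReal (Metric.diam (pr θ '' C)) :=
  volume_pr_aux (hC.image (continuous_pr θ))
    ⟨hne.image _, hconn.image _ (continuous_pr θ).continuousOn⟩

theorem volume_pr_open {U : Set ℂ} (hU : Dom U) (θ : ℝ) :
    volume (pr θ '' U) = ENNReal.ofReal (Metric.diam (pr θ '' U)) := by
  have hcv : Convex ℝ (pr θ '' U) := by
    rw [← prL_coe]
    exact hU.convex.linear_image (prL θ : ℂ →ₗ[ℝ] ℝ)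
  have hb := isBounded_pr hU.bounded θ
  have h1 : volume (closure (pr θ '' U)) = volume (pr θ '' U) :=
    measure_closure_of_null_frontier (hcv.addHaar_frontier volume)
  rw [← h1, ← Metric.diam_closure (pr θ '' U)]
  have hpc : IsPreconnected (pr θ '' U) :=
    hU.convex.isPreconnected.image _ (continuous_pr θ).continuousOn
  exact volume_pr_aux hb.isCompact_closure ⟨(hU.nonempty.image _).closure, hpc.closure⟩

end

end Pool.Agent.Lib.MP_4cfb03_an
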