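import Pool.Agent.Lib.MP_4cfb03_an.Slice
import Pool.Agent.Lib.MP_4cfb03_an.Width

/-! T4 Collar : areas of the inner and of the outer collar. -/

open MeasureTheory Set
open scoped ENNReal ContDiff Topology

namespace Pool.Agent.Lib.MP_4cfb03_an

noncomputable section

theorem co_lint_diam {S : Set ℂ} (hb : Bornology.IsBounded S) :
    ∫⁻ θ in Ioc (0 : ℝ) Real.pi, ENNReal.ofReal (Metric.diam (pr θ '' S)) =
      ENNReal.ofReal (mw S) := by
  unfold mw
  rw [intervalIntegral.integral_of_le Real.pi_pos.le, ofReal_integral_eq_lintegral_ofReal]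
  · exact ((continuous_diam_pr hb).integrableOn_Icc (a := 0) (b := Real.pi)).mono_set
      Ioc_subset_Icc_self
  · exact Filter.Eventually.of_forall (fun θ => Metric.diam_nonneg)

theorem co_rot_pr (θ : ℝ) (z : ℂ) :
    rot θ (pr θ z) (- z.re * Real.sin θ + z.im * Real.cos θ) = z := by
  rw [sl_rot]
  have h := Real.sin_sq_add_cos_sq θ
  unfold pr
  apply Complex.ext
  · simp only
    linear_combination z.re * h
  · simp only
    linear_combination z.im * h

theorem co_rot_line (θ p a b s t : ℝ) :
    rot θ p (a * s + b * t) = a • rot θ p s + b • rot θ p t + (1 - a - b) • rot θ p 0 := by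
  rw [sl_rot, sl_rot, sl_rot, sl_rot]
  apply Complex.ext
  · simp
    ring
  · simp
    ring

theorem co_dist_rot (θ p s t : ℝ) : dist (rot θ p s) (rot θ p t) = |s - t| := by
  rw [Complex.dist_eq]
  have h : rot θ p s - rot θ p t = ((s - t : ℝ) : ℂ) * Complex.I *
      Complex.exp (θ * Complex.I) := by
    unfold rot
    push_cast
    ring
  rw [h, norm_mul, norm_mul, Complex.norm_exp_ofReal_mul_I, Complex.norm_I, Complex.norm_real,
    Real.norm_eq_abs]
  ring

theorem co_lip_rot {v : ℂ → ℝ} {K : NNReal} (hv : LipschitzWith K v) (θ p : ℝ) :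
    LipschitzWith K (fun s => v (rot θ p s)) := by
  apply LipschitzWith.of_dist_le_mul
  intro s t
  refine (hv.dist_le_mul _ _).trans ?_
  rw [co_dist_rot, Real.dist_eq]

theorem co_compact_rot {v : ℂ → ℝ} (hv : HasCompactSupport v) (θ p : ℝ) :
    HasCompactSupport (fun s => v (rot θ p s)) := by
  obtain ⟨R, hR⟩ := hv.isCompact.isBounded.subset_closedBall (0 : ℂ)
  apply HasCompactSupport.of_support_subset_isCompact (K := Icc (-R) R) isCompact_Icc
  intro s hs
  have h1 : rot θ p s ∈ tsupport v := subset_tsupport v hs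
  have h2 := hR h1
  rw [mem_closedBall_zero_iff] at h2
  have h3 : |s| ≤ ‖rot θ p s‖ := by
    have h4 : rot θ p s = ((p : ℂ) + s * Complex.I) * Complex.exp (θ * Complex.I) := rfl
    rw [h4, norm_mul, Complex.norm_exp_ofReal_mul_I, mul_one]
    have h5 := Complex.abs_im_le_norm ((p : ℂ) + s * Complex.I)
    simpa using h5
  rw [mem_Icc, ← abs_le]
  exact h3.trans h2

/-- the distance to the complement of a convex set is quasiconcave -/
theorem co_quasi {U : Set ℂ} (hU : Convex ℝ U) (hc : (Uᶜ).Nonempty) {z w : ℂ} {c : ℝ}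
    (hz : c ≤ Metric.infDist z Uᶜ) (hw : c ≤ Metric.infDist w Uᶜ) {a b : ℝ} (ha : 0 ≤ a)
    (hb : 0 ≤ b) (hab : a + b = 1) : c ≤ Metric.infDist (a • z + b • w) Uᶜ := by
  rw [Metric.le_infDist hc] at hz hw ⊢
  intro y hy
  by_contra hlt
  push Not at hlt
  apply hy
  set v := y - (a • z + b • w) with hv
  have hvn : ‖v‖ < c := by
    rw [hv, ← dist_eq_norm, dist_comm]
    exact hlt
  have h1 : z + v ∈ U := by
    by_contra hn
    have := hz (show z + v ∈ Uᶜ from hn)
    rw [dist_self_add_right] at this
    linarith
  have h2 : w + v ∈ U := by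
    by_contra hn
    have := hw (show w + v ∈ Uᶜ from hn)
    rw [dist_self_add_right] at this
    linarith
  have h3 := hU h1 h2 ha hb hab
  have h4 : a • (z + v) + b • (w + v) = y := by
    have h5 : a • (z + v) + b • (w + v) = (a • z + b • w) + (a + b) • v := by
      simp only [smul_add, add_smul]
      abel
    rw [h5, hab, one_smul, hv]
    abel
  rwa [h4] at h3

theorem co_compl_nonempty {U : Set ℂ} (hb : Bornology.IsBounded U) : (Uᶜ).Nonempty := by
  by_contra h
  rw [not_nonempty_iff_eq_empty, compl_empty_iff] at h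
  rw [h] at hb
  exact NormedSpace.unbounded_univ ℝ ℂ hb

theorem co_grad {U : Set ℂ} (hc : (Uᶜ).Nonempty) (ho : IsOpen U) {z : ℂ} (hz : z ∈ U)
    (hd : DifferentiableAt ℝ (fun x => Metric.infDist x Uᶜ) z) :
    1 ≤ ‖fderiv ℝ (fun x => Metric.infDist x Uᶜ) z‖ := by
  obtain ⟨y, hy, hyd⟩ := ho.isClosed_compl.exists_infDist_eq_dist hc z
  have hne : y ≠ z := by
    intro h
    rw [h] at hy
    exact hy hz
  have hpos : 0 < dist z y := dist_pos.mpr hne.symm
  set L := dist z y with hL
  set u : ℂ := (1 / L) • (y - z) with hu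
  have hun : ‖u‖ = 1 := by
    rw [hu, norm_smul, ← dist_eq_norm, dist_comm y z, ← hL, Real.norm_of_nonneg (by positivity)]
    field_simp
  -- the directional derivative in the direction u is at most -1
  have hline : HasDerivAt (fun t : ℝ => Metric.infDist (z + t • u) Uᶜ)
      (fderiv ℝ (fun x => Metric.infDist x Uᶜ) z u) 0 := by
    have h1 : HasDerivAt (fun t : ℝ => z + t • u) u 0 := by
      simpa using ((hasDerivAt_id (0 : ℝ)).smul_const u).const_add z
    have h2 : HasFDerivAt (fun x => Metric.infDist x Uᶜ)
        (fderiv ℝ (fun x => Metric.infDist x Uᶜ) z) (z + (0 : ℝ) • u) := by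
      rw [zero_smul, add_zero]
      exact hd.hasFDerivAt
    exact h2.comp_hasDerivAt (0 : ℝ) h1
  have hbound : ∀ t ∈ Icc (0 : ℝ) L, Metric.infDist (z + t • u) Uᶜ ≤ L - t := by
    intro t ht
    refine (Metric.infDist_le_dist_of_mem hy).trans ?_
    have h1 : z + t • u - y = (t - L) • u := by
      have h2 : y - z = L • u := by
        rw [hu, smul_smul]
        have : L * (1 / L) = 1 := by field_simp
        rw [this, one_smul]
      have h3 : z - y = -(L • u) := by rw [← h2]; abel
      calc z + t • u - y = t • u + (z - y) := by abel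
        _ = t • u - L • u := by rw [h3]; abel
        _ = (t - L) • u := by rw [sub_smul]
    rw [dist_eq_norm, h1, norm_smul, hun, mul_one, Real.norm_eq_abs, abs_sub_comm,
      abs_of_nonneg (by linarith [ht.2])]
  have hder : fderiv ℝ (fun x => Metric.infDist x Uᶜ) z u ≤ -1 := by
    have h1 := hline.hasDerivWithinAt (s := Ici (0 : ℝ))
    have h2 : Filter.Tendsto (slope (fun t : ℝ => Metric.infDist (z + t • u) Uᶜ) 0)
        (𝓝[>] 0) (𝓝 (fderiv ℝ (fun x => Metric.infDist x Uᶜ) z u)) := by
      have h3 := hasDerivAt_iff_tendsto_slope.mp hline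
      exact h3.mono_left (nhdsWithin_mono _ (fun x hx => ne_of_gt hx))
    refine le_of_tendsto h2 ?_
    have h4 : Ioo (0 : ℝ) L ∈ 𝓝[>] (0 : ℝ) := Ioo_mem_nhdsGT hpos
    filter_upwards [h4] with t ht
    rw [slope_def_field, zero_smul, add_zero, sub_zero, hyd]
    rw [div_le_iff₀ ht.1]
    have := hbound t ⟨ht.1.le, ht.2.le⟩
    linarith
  have h5 := (fderiv ℝ (fun x => Metric.infDist x Uᶜ) z).le_opNorm u
  rw [hun, mul_one, Real.norm_eq_abs] at h5
  have h6 := neg_abs_le (fderiv ℝ (fun x => Metric.infDist x Uᶜ) z u)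
  linarith

theorem collar_inner {U : Set ℂ} (hU : Dom U) {δ : ℝ} (hδ : 0 < δ) :
    ar {z ∈ U | Metric.infDist z Uᶜ < δ} ≤ δ * mw U := by
  have hc := co_compl_nonempty hU.bounded
  set d : ℂ → ℝ := fun x => Metric.infDist x Uᶜ with hd
  set f : ℂ → ℝ := fun x => min (d x) δ with hf
  have hdlip : LipschitzWith 1 d := Metric.lipschitz_infDist_pt _
  have hflip : LipschitzWith 1 f := by
    have := hdlip.min_const δ
    exact this
  have hdnn : ∀ x, 0 ≤ d x := fun x => Metric.infDist_nonneg
  have hfnn : ∀ x, 0 ≤ f x := fun x => le_min (hdnn x) hδ.le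
  have hdout : ∀ x, x ∉ U → d x = 0 := fun x hx => Metric.infDist_zero_of_mem hx
  have hfout : ∀ x, x ∉ U → f x = 0 := by
    intro x hx
    simp only [hf, hdout x hx]
    exact min_eq_left hδ.le
  have hfc : HasCompactSupport f := by
    apply HasCompactSupport.of_support_subset_isCompact (K := closure U)
      hU.bounded.isCompact_closure
    intro x hx
    apply subset_closure
    by_contra hn
    exact hx (hfout x hn)
  set A : Set ℂ := {z ∈ U | Metric.infDist z Uᶜ < δ} with hA
  have hAo : IsOpen A := hU.isOpen.inter (isOpen_lt hdlip.continuous continuous_const)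
  -- the area of the collar
  have h1 : volume A ≤ ∫⁻ z, ENNReal.ofReal ‖fderiv ℝ f z‖ := by
    have h2 : volume A = ∫⁻ z in A, 1 := by simp
    rw [h2]
    refine le_trans ?_ (setLIntegral_le_lintegral A _)
    apply setLIntegral_mono_ae
    · exact (ENNReal.measurable_ofReal.comp (measurable_fderiv ℝ f).norm).aemeasurable
    · filter_upwards [hdlip.ae_differentiableAt] with z hz hzA
      have h3 : f =ᶠ[𝓝 z] d := by
        have h4 : {x | d x < δ} ∈ 𝓝 z :=
          (isOpen_lt hdlip.continuous continuous_const).mem_nhds hzA.2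
        filter_upwards [h4] with x hx
        exact min_eq_left (le_of_lt hx)
      rw [h3.fderiv_eq]
      have h5 := co_grad hc hU.isOpen hzA.1 hz
      calc (1 : ℝ≥0∞) = ENNReal.ofReal 1 := by simp
        _ ≤ _ := ENNReal.ofReal_le_ofReal h5
  -- the variation along lines
  have h2 : ∀ θ p : ℝ, ∫⁻ s : ℝ, ENNReal.ofReal |deriv (fun s => f (rot θ p s)) s| ≤
      (pr θ '' U).indicator (fun _ => ENNReal.ofReal (2 * δ)) p := by
    intro θ p
    by_cases hp : p ∈ pr θ '' U
    · rw [indicator_of_mem hp]
      have hψl : ∃ K, LipschitzWith K (fun s => f (rot θ p s)) := ⟨1, co_lip_rot hflip θ p⟩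
      have hψc := co_compact_rot hfc θ p
      -- a maximum point
      obtain ⟨m, hm⟩ : ∃ m, ∀ s, f (rot θ p s) ≤ f (rot θ p m) := by
        have hcont : Continuous (fun s => f (rot θ p s)) := (co_lip_rot hflip θ p).continuous
        exact hcont.exists_forall_ge_of_hasCompactSupport hψc
      have hq : ∀ s t r : ℝ, s ≤ r → r ≤ t → ∀ c, 0 < c → c ≤ f (rot θ p s) →
          c ≤ f (rot θ p t) → c ≤ f (rot θ p r) := by
        intro s t r hsr hrt c hc0 hs ht
        have hs1 : c ≤ d (rot θ p s) := hs.trans (min_le_left _ _)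
        have ht1 : c ≤ d (rot θ p t) := ht.trans (min_le_left _ _)
        have hcδ : c ≤ δ := hs.trans (min_le_right _ _)
        refine le_min ?_ hcδ
        rcases eq_or_lt_of_le (hsr.trans hrt) with h | h
        · have : r = s := by linarith
          rw [this]
          exact hs1
        · have hts : 0 < t - s := by linarith
          have hab : (t - r) / (t - s) + (r - s) / (t - s) = 1 := by
            field_simp
            ring
          have h3 := co_quasi hU.convex hc hs1 ht1 (a := (t - r) / (t - s))
            (b := (r - s) / (t - s)) (div_nonneg (by linarith) hts.le)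
            (div_nonneg (by linarith) hts.le) hab
          have h4 : rot θ p r = ((t - r) / (t - s)) • rot θ p s + ((r - s) / (t - s)) • rot θ p t := by
            have h5 := co_rot_line θ p ((t - r) / (t - s)) ((r - s) / (t - s)) s t
            have h6 : (t - r) / (t - s) * s + (r - s) / (t - s) * t = r := by
              field_simp
              ring
            have h7 : 1 - (t - r) / (t - s) - (r - s) / (t - s) = 0 := by linarith
            rw [h6, h7, zero_smul, add_zero] at h5
            exact h5
          rw [h4]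
          exact h3
      refine (lintegral_deriv_le_of_unimodal hψl hψc (m := m) ?_ ?_).trans ?_
      · intro s _ t ht hst
        rcases eq_or_lt_of_le (hfnn (rot θ p s)) with h | h
        · show f (rot θ p s) ≤ f (rot θ p t)
          rw [← h]
          exact hfnn _
        · exact hq s m t hst ht _ h le_rfl (hm s)
      · intro s hs t _ hst
        rcases eq_or_lt_of_le (hfnn (rot θ p t)) with h | h
        · show f (rot θ p t) ≤ f (rot θ p s)
          rw [← h]
          exact hfnn _
        · exact hq m t s hs hst _ h (hm t) le_rfl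
      · apply ENNReal.ofReal_le_ofReal
        have : f (rot θ p m) ≤ δ := min_le_right _ _
        linarith
    · rw [indicator_of_notMem hp]
      have h3 : (fun s => f (rot θ p s)) = fun _ => 0 := by
        funext s
        apply hfout
        intro hs
        exact hp ⟨_, hs, pr_rot θ p s⟩
      rw [h3]
      simp
  have h3 : 2 * ∫⁻ z, ENNReal.ofReal ‖fderiv ℝ f z‖ ≤ ENNReal.ofReal (2 * δ) *
      ENNReal.ofReal (mw U) := by
    rw [crofton_lip ⟨1, hflip⟩, ← co_lint_diam hU.bounded]
    rw [← lintegral_const_mul' _ _ ENNReal.ofReal_ne_top]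
    apply lintegral_mono
    intro θ
    refine (lintegral_mono (h2 θ)).trans ?_
    refine (lintegral_indicator_const_le _ _).trans ?_
    rw [volume_pr_open hU θ]
  have h4 : 2 * volume A ≤ ENNReal.ofReal (2 * δ * mw U) := by
    rw [ENNReal.ofReal_mul (by positivity)]
    exact (mul_le_mul_right h1 2).trans h3
  have h5 : ENNReal.toReal (2 * volume A) ≤ 2 * δ * mw U := by
    have := ENNReal.toReal_mono ENNReal.ofReal_ne_top h4
    rwa [ENNReal.toReal_ofReal (mul_nonneg (by positivity) (mw_nonneg U))] at this
  rw [ENNReal.toReal_mul] at h5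
  unfold ar
  simp only [ENNReal.toReal_ofNat] at h5
  linarith

theorem collar_outer {C : Set ℂ} (hC : IsCompact C) (hne : C.Nonempty)
    (hconn : IsPreconnected C) {δ : ℝ} (hδ : 0 < δ) :
    ar C + δ * mw C ≤ ar (Metric.cthickening δ C) := by
  set f : ℂ → ℝ := fun z => max (1 - Metric.infDist z C / δ) 0 with hf
  have hdlip : LipschitzWith 1 (fun z => Metric.infDist z C) := Metric.lipschitz_infDist_pt _
  have hflip : LipschitzWith (Real.toNNReal (1 / δ)) f := by
    apply LipschitzWith.of_dist_le_mul
    intro x y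
    rw [Real.coe_toNNReal _ (by positivity), Real.dist_eq]
    have h1 : |f x - f y| ≤ |(1 - Metric.infDist x C / δ) - (1 - Metric.infDist y C / δ)| := by
      exact abs_max_sub_max_le_abs _ _ _
    refine h1.trans ?_
    have h2 : (1 - Metric.infDist x C / δ) - (1 - Metric.infDist y C / δ) =
        (1 / δ) * (Metric.infDist y C - Metric.infDist x C) := by
      ring
    rw [h2, abs_mul, abs_of_pos (by positivity : 0 < 1 / δ)]
    apply mul_le_mul_of_nonneg_left _ (by positivity)
    have h3 := hdlip.dist_le_mul x y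
    rw [Real.dist_eq, abs_sub_comm] at h3
    simpa using h3
  have hf1 : ∀ x, f x ≤ 1 := by
    intro x
    apply max_le _ zero_le_one
    have : 0 ≤ Metric.infDist x C / δ := div_nonneg Metric.infDist_nonneg hδ.le
    linarith
  have hf0 : ∀ x, 0 ≤ f x := fun x => le_max_right _ _
  have hfC : ∀ x ∈ C, f x = 1 := by
    intro x hx
    simp only [hf, Metric.infDist_zero_of_mem hx]
    simp
  have hfout : ∀ x, x ∉ Metric.cthickening δ C → f x = 0 := by
    intro x hx
    rw [hC.cthickening_eq_biUnion_closedBall hδ.le] at hx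
    simp only [mem_iUnion, not_exists, exists_prop, not_and] at hx
    have h1 : δ ≤ Metric.infDist x C := by
      rw [Metric.le_infDist hne]
      intro y hy
      have := hx y hy
      rw [Metric.mem_closedBall, not_le] at this
      exact this.le
    simp only [hf]
    apply max_eq_right
    have : 1 ≤ Metric.infDist x C / δ := by rwa [le_div_iff₀ hδ, one_mul]
    linarith
  have hcth : IsCompact (Metric.cthickening δ C) := hC.cthickening
  have hfc : HasCompactSupport f := by
    apply HasCompactSupport.of_support_subset_isCompact hcth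
    intro x hx
    by_contra hn
    exact hx (hfout x hn)
  have hsub : C ⊆ Metric.cthickening δ C := Metric.self_subset_cthickening C
  -- upper bound of the total variation
  have h1 : ∫⁻ z, ENNReal.ofReal ‖fderiv ℝ f z‖ ≤
      ENNReal.ofReal (1 / δ) * volume (Metric.cthickening δ C \ C) := by
    have h2 : ∀ z, ENNReal.ofReal ‖fderiv ℝ f z‖ ≤
        (Metric.cthickening δ C \ C).indicator (fun _ => ENNReal.ofReal (1 / δ)) z := by
      intro z
      by_cases hz : z ∈ Metric.cthickening δ C \ C
      · rw [indicator_of_mem hz]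
        apply ENNReal.ofReal_le_ofReal
        have h3 := norm_fderiv_le_of_lipschitz ℝ hflip (x₀ := z)
        rwa [Real.coe_toNNReal _ (by positivity)] at h3
      · rw [indicator_of_notMem hz]
        have h3 : fderiv ℝ f z = 0 := by
          by_cases hzC : z ∈ C
          · apply IsLocalMax.fderiv_eq_zero
            apply Filter.Eventually.of_forall
            intro x
            rw [hfC z hzC]
            exact hf1 x
          · apply IsLocalMin.fderiv_eq_zero
            apply Filter.Eventually.of_forall
            intro x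
            rw [hfout z (fun h => hz ⟨h, hzC⟩)]
            exact hf0 x
        rw [h3]
        simp
    refine (lintegral_mono h2).trans ?_
    exact lintegral_indicator_const_le _ _
  -- lower bound
  have h2 : ∀ θ p : ℝ, (pr θ '' C).indicator (fun _ => (2 : ℝ≥0∞)) p ≤
      ∫⁻ s : ℝ, ENNReal.ofReal |deriv (fun s => f (rot θ p s)) s| := by
    intro θ p
    by_cases hp : p ∈ pr θ '' C
    · rw [indicator_of_mem hp]
      obtain ⟨z, hz, hzp⟩ := hp
      have h3 := two_mul_le_lintegral_deriv ⟨_, co_lip_rot hflip θ p⟩ (co_compact_rot hfc θ p)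
        (- z.re * Real.sin θ + z.im * Real.cos θ)
      rw [← hzp] at h3 ⊢
      rw [co_rot_pr, hfC z hz] at h3
      norm_num at h3
      exact h3
    · rw [indicator_of_notMem hp]
      exact zero_le
  have hprm : ∀ θ, MeasurableSet (pr θ '' C) := by
    intro θ
    have : Continuous (pr θ) := by
      unfold pr
      fun_prop
    exact (hC.image this).measurableSet
  have h3 : 2 * ENNReal.ofReal (mw C) ≤ 2 * ∫⁻ z, ENNReal.ofReal ‖fderiv ℝ f z‖ := by
    rw [crofton_lip ⟨_, hflip⟩, ← co_lint_diam hC.isBounded]
    rw [← lintegral_const_mul' _ _ (by norm_num)]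
    apply lintegral_mono
    intro θ
    refine le_trans ?_ (lintegral_mono (h2 θ))
    rw [lintegral_indicator_const (hprm θ), volume_pr hC hne hconn θ]
  have h4 : ENNReal.ofReal (mw C) ≤ ENNReal.ofReal (1 / δ) *
      volume (Metric.cthickening δ C \ C) := by
    have h5 : ENNReal.ofReal (mw C) ≤ ∫⁻ z, ENNReal.ofReal ‖fderiv ℝ f z‖ := by
      rwa [ENNReal.mul_le_mul_iff_right (by norm_num) (by norm_num)] at h3
    exact h5.trans h1
  have hfin : volume (Metric.cthickening δ C) ≠ ⊤ := hcth.measure_lt_top.ne
  have hfinC : volume C ≠ ⊤ := hC.measure_lt_top.ne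
  rw [measure_sdiff hsub hC.measurableSet.nullMeasurableSet hfinC] at h4
  have h5 := ENNReal.toReal_mono (ENNReal.mul_ne_top ENNReal.ofReal_ne_top
    (ne_top_of_le_ne_top hfin tsub_le_self)) h4
  rw [ENNReal.toReal_mul, ENNReal.toReal_ofReal (mw_nonneg C),
    ENNReal.toReal_ofReal (by positivity), ENNReal.toReal_sub_of_le (measure_mono hsub) hfin] at h5
  unfold ar
  have h6 : δ * mw C ≤ (volume (Metric.cthickening δ C)).toReal - (volume C).toReal := by
    calc δ * mw C ≤ δ * (1 / δ * ((volume (Metric.cthickening δ C)).toReal -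
        (volume C).toReal)) := mul_le_mul_of_nonneg_left h5 hδ.le
      _ = _ := by field_simp
  linarith

end

end Pool.Agent.Lib.MP_4cfb03_an
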