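import Pool.Agent.Lib.MP_4cfb03_an.Defs

/-!
# T1 Iso : invariance under linear isometries
-/

open MeasureTheory Set
open scoped ENNReal ContDiff Topology

namespace Pool.Agent.Lib.MP_4cfb03_an

noncomputable section

section Iso
variable {E : Type*} [NormedAddCommGroup E] [InnerProductSpace ℝ E] [FiniteDimensional ℝ E]
  [MeasurableSpace E] [BorelSpace E]
variable {F : Type*} [NormedAddCommGroup F] [InnerProductSpace ℝ F] [FiniteDimensional ℝ F]
  [MeasurableSpace F] [BorelSpace F]

omit [FiniteDimensional ℝ E] [MeasurableSpace E] [BorelSpace E]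
  [FiniteDimensional ℝ F] [MeasurableSpace F] [BorelSpace F] in
theorem Dom.image_iso {Ω : Set E} (h : Dom Ω) (e : E ≃ₗᵢ[ℝ] F) : Dom (e '' Ω) where
  nonempty := h.nonempty.image _
  bounded := e.lipschitz.isBounded_image h.bounded
  isOpen := e.toHomeomorph.isOpenMap _ h.isOpen
  convex := h.convex.linear_image e.toLinearEquiv.toLinearMap

omit [FiniteDimensional ℝ E] [MeasurableSpace E] [BorelSpace E]
  [FiniteDimensional ℝ F] [MeasurableSpace F] [BorelSpace F] in
theorem IsPolygon.image_iso {Ω : Set E} (h : IsPolygon Ω) (e : E ≃ₗᵢ[ℝ] F) :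
    IsPolygon (e '' Ω) := by
  classical
  obtain ⟨hne, s, hs⟩ := h
  refine ⟨hne.image _, s.image e, ?_⟩
  have h1 : e '' (interior (convexHull ℝ (s : Set E))) =
      interior (e '' (convexHull ℝ (s : Set E))) := e.toHomeomorph.image_interior _
  have h2 : e '' (convexHull ℝ (s : Set E)) = convexHull ℝ (e '' (s : Set E)) :=
    LinearMap.image_convexHull e.toLinearEquiv.toLinearMap _
  rw [hs, h1, h2, Finset.coe_image]

omit [FiniteDimensional ℝ E] [MeasurableSpace E] [BorelSpace E]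
  [FiniteDimensional ℝ F] [MeasurableSpace F] [BorelSpace F] in
theorem fderiv_comp_iso {G : Type*} [NormedAddCommGroup G] [NormedSpace ℝ G]
    (e : E ≃ₗᵢ[ℝ] F) (u : F → G) (x : E) :
    fderiv ℝ (fun y => u (e y)) x = (fderiv ℝ u (e x)).comp (e : E →L[ℝ] F) := by
  have := (e.toContinuousLinearEquiv).comp_right_fderiv (f := u) (x := x)
  exact this

theorem energy_comp (e : E ≃ₗᵢ[ℝ] F) (u : F → ℝ) : energy (fun x => u (e x)) = energy u := by
  unfold energy
  have h1 : ∀ x, ‖fderiv ℝ (fun y => u (e y)) x‖ ^ 2 = (fun z => ‖fderiv ℝ u z‖ ^ 2) (e x) := by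
    intro x
    rw [fderiv_comp_iso]
    have : ‖(fderiv ℝ u (e x)).comp (e : E →L[ℝ] F)‖ = ‖fderiv ℝ u (e x)‖ :=
      ContinuousLinearMap.opNorm_comp_linearIsometryEquiv _ e
    rw [this]
  simp_rw [h1]
  exact (e.measurePreserving).integral_comp e.toMeasurableEquiv.measurableEmbedding
    (fun z => ‖fderiv ℝ u z‖ ^ 2)

theorem mass_comp (e : E ≃ₗᵢ[ℝ] F) (u : F → ℝ) : mass (fun x => u (e x)) = mass u :=
  (e.measurePreserving).integral_comp e.toMeasurableEquiv.measurableEmbedding
    (fun z => u z ^ 2)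

/-- The set whose infimum is the eigenvalue. -/
theorem lam1_set_subset (e : E ≃ₗᵢ[ℝ] F) (Ω : Set E) {R : ℝ}
    (h : ∃ u : F → ℝ, ContDiff ℝ ∞ u ∧ HasCompactSupport u ∧ tsupport u ⊆ e '' Ω ∧ u ≠ 0 ∧
      R = energy u / mass u) :
    ∃ u : E → ℝ, ContDiff ℝ ∞ u ∧ HasCompactSupport u ∧ tsupport u ⊆ Ω ∧ u ≠ 0 ∧
      R = energy u / mass u := by
  obtain ⟨u, h1, h2, h3, h4, h5⟩ := h
  refine ⟨fun x => u (e x), h1.comp e.contDiff, h2.comp_homeomorph e.toHomeomorph, ?_, ?_, ?_⟩
  · intro x hx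
    have hx' : e x ∈ tsupport u := by
      have := tsupport_comp_subset_preimage u (f := e) e.continuous hx
      exact this
    obtain ⟨y, hy, hyx⟩ := h3 hx'
    rwa [← e.injective hyx]
  · intro h0
    apply h4
    funext y
    have := congrFun h0 (e.symm y)
    simpa using this
  · rw [energy_comp, mass_comp, h5]

omit [FiniteDimensional ℝ E] [MeasurableSpace E] [BorelSpace E]
  [FiniteDimensional ℝ F] [MeasurableSpace F] [BorelSpace F] in
theorem image_symm_image (e : E ≃ₗᵢ[ℝ] F) (Ω : Set E) : e.symm '' (e '' Ω) = Ω := by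
  rw [image_image]; simp

theorem lam1_image (e : E ≃ₗᵢ[ℝ] F) (Ω : Set E) : lam1 (e '' Ω) = lam1 Ω := by
  unfold lam1
  congr 1
  ext R
  constructor
  · exact lam1_set_subset e Ω
  · intro h
    apply lam1_set_subset e.symm (e '' Ω)
    rw [image_symm_image]
    exact h

omit [FiniteDimensional ℝ E] [MeasurableSpace E] [BorelSpace E]
  [FiniteDimensional ℝ F] [MeasurableSpace F] [BorelSpace F] in
theorem divg_conj (e : E ≃ₗᵢ[ℝ] F) (φ : F → F) (x : E) :
    divg (fun y => e.symm (φ (e y))) x = divg φ (e x) := by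
  unfold divg
  have h1 : fderiv ℝ (fun y => e.symm (φ (e y))) x =
      ((e.symm : F →L[ℝ] E).comp (fderiv ℝ φ (e x))).comp (e : E →L[ℝ] F) := by
    rw [fderiv_comp_iso e (fun z => e.symm (φ z)) x]
    congr 1
    have := (e.symm.toContinuousLinearEquiv).comp_fderiv (f := φ) (x := e x)
    exact this
  rw [h1]
  have h2 : ((((e.symm : F →L[ℝ] E).comp (fderiv ℝ φ (e x))).comp (e : E →L[ℝ] F) : E →L[ℝ] E) :
      E →ₗ[ℝ] E) = (e.symm.toLinearEquiv).conj ((fderiv ℝ φ (e x) : F →L[ℝ] F) : F →ₗ[ℝ] F) := by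
    ext y
    simp [LinearEquiv.conj_apply]
  rw [h2, LinearMap.trace_conj']

theorem setIntegral_comp_image (e : E ≃ₗᵢ[ℝ] F) (A : Set E) (g : F → ℝ) :
    ∫ x in A, g (e x) = ∫ y in e '' A, g y := by
  have h := (e.measurePreserving).setIntegral_preimage_emb
    e.toMeasurableEquiv.measurableEmbedding g (e '' A)
  have h2 : (e : E → F) ⁻¹' (e '' A) = A := preimage_image_eq _ e.injective
  rw [h2] at h
  exact h

theorem perim_le_image (e : E ≃ₗᵢ[ℝ] F) (A : Set E) : perim (e '' A) ≤ perim A := by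
  unfold perim
  refine iSup_le fun φ => iSup_le fun h1 => iSup_le fun h2 => iSup_le fun h3 => ?_
  have key : ∫ x in e '' A, divg φ x = ∫ x in A, divg (fun y => e.symm (φ (e y))) x := by
    rw [← setIntegral_comp_image]
    simp_rw [divg_conj]
  rw [key]
  refine le_iSup_of_le (fun y => e.symm (φ (e y))) (le_iSup_of_le ?_ (le_iSup_of_le ?_
    (le_iSup_of_le ?_ le_rfl)))
  · exact e.symm.contDiff.comp (h1.comp e.contDiff)
  · exact (h2.comp_homeomorph e.toHomeomorph).comp_left (map_zero e.symm)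
  · intro x
    rw [e.symm.norm_map]
    exact h3 _

theorem perim_image (e : E ≃ₗᵢ[ℝ] F) (A : Set E) : perim (e '' A) = perim A := by
  apply le_antisymm (perim_le_image e A)
  have := perim_le_image e.symm (e '' A)
  rwa [image_symm_image] at this

theorem volume_image (e : E ≃ₗᵢ[ℝ] F) (A : Set E) : volume (e '' A) = volume A := by
  have h := (e.measurePreserving).measure_preimage_emb
    e.toMeasurableEquiv.measurableEmbedding (e '' A)
  have h2 : (e : E → F) ⁻¹' (e '' A) = A := preimage_image_eq _ e.injective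
  rw [h2] at h
  exact h.symm

omit [FiniteDimensional ℝ E] [FiniteDimensional ℝ F] in
theorem measurableSet_image (e : E ≃ₗᵢ[ℝ] F) {A : Set E} (hA : MeasurableSet A) :
    MeasurableSet (e '' A) :=
  e.toMeasurableEquiv.measurableEmbedding.measurableSet_image.2 hA

theorem cheeger_image_le (e : E ≃ₗᵢ[ℝ] F) (Ω : Set E) : cheeger (e '' Ω) ≤ cheeger Ω := by
  unfold cheeger
  refine le_iInf fun A => le_iInf fun h1 => le_iInf fun h2 => le_iInf fun h3 => ?_
  refine iInf_le_of_le (e '' A) (iInf_le_of_le (measurableSet_image e h1)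
    (iInf_le_of_le (image_mono h2) (iInf_le_of_le ?_ ?_)))
  · rwa [volume_image]
  · rw [volume_image, perim_image]

theorem cheeger_image (e : E ≃ₗᵢ[ℝ] F) (Ω : Set E) : cheeger (e '' Ω) = cheeger Ω := by
  apply le_antisymm (cheeger_image_le e Ω)
  have := cheeger_image_le e.symm (e '' Ω)
  rwa [image_symm_image] at this

theorem J_image (e : E ≃ₗᵢ[ℝ] F) (Ω : Set E) : J (e '' Ω) = J Ω := by
  unfold J h1
  rw [lam1_image, cheeger_image]

end Iso

end

end Pool.Agent.Lib.MP_4cfb03_an
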