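import Pool.Agent.Lib.MP_4cfb03_an.Defs

/-! # T14 Rellich -/

open MeasureTheory Set
open scoped ENNReal ContDiff Topology

namespace Pool.Agent.Lib.MP_4cfb03_an

noncomputable section

namespace Rellich

theorem sq_integral_le {α : Type*} [MeasurableSpace α] {μ : Measure α} [IsFiniteMeasure μ]
    {g : α → ℝ} (hg : Integrable g μ) (hg2 : Integrable (fun x => g x ^ 2) μ) :
    (∫ x, g x ∂μ) ^ 2 ≤ μ.real univ * ∫ x, g x ^ 2 ∂μ := by
  rcases eq_or_ne (μ.real univ) 0 with h0 | h0
  · have : μ = 0 := by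
      rw [measureReal_def, ENNReal.toReal_eq_zero_iff] at h0
      rcases h0 with h | h
      · exact Measure.measure_univ_eq_zero.1 h
      · exact absurd h (measure_ne_top _ _)
    subst this
    simp
  · have hpos : 0 < μ.real univ := lt_of_le_of_ne measureReal_nonneg (Ne.symm h0)
    set c := (∫ x, g x ∂μ) / μ.real univ with hc
    have h1 : 0 ≤ ∫ x, (g x - c) ^ 2 ∂μ := integral_nonneg fun x => sq_nonneg _
    have h2 : ∫ x, (g x - c) ^ 2 ∂μ = ∫ x, g x ^ 2 ∂μ - 2 * c * ∫ x, g x ∂μ + c ^ 2 * μ.real univ := by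
      have e : ∀ x, (g x - c) ^ 2 = g x ^ 2 - 2 * c * g x + c ^ 2 := fun x => by ring
      simp_rw [e]
      have i1 : Integrable (fun x => g x ^ 2 - 2 * c * g x) μ := hg2.sub (hg.const_mul _)
      rw [integral_add i1 (integrable_const _),
        integral_sub hg2 (hg.const_mul _), integral_const_mul, integral_const]
      simp [mul_comm]
    rw [h2] at h1
    have h3 : (∫ x, g x ∂μ) = c * μ.real univ := by
      rw [hc]; field_simp
    rw [h3] at h1 ⊢
    have : 0 ≤ ∫ x, g x ^ 2 ∂μ - c ^ 2 * μ.real univ := by nlinarith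
    nlinarith [mul_le_mul_of_nonneg_left (sub_nonneg.1 this) hpos.le]

/-- translation estimate -/
theorem translation_le {φ : ℂ → ℝ} (hφ : ContDiff ℝ ∞ φ) (hc : HasCompactSupport φ) (y : ℂ) :
    ∫⁻ x, ENNReal.ofReal ((φ (x + y) - φ x) ^ 2) ≤
      ENNReal.ofReal (‖y‖ ^ 2 * energy φ) := by
  have hd : Differentiable ℝ φ := hφ.differentiable (by simp)
  have hcd : Continuous (fderiv ℝ φ) := hφ.continuous_fderiv (by simp)
  have hpt : ∀ x, ENNReal.ofReal ((φ (x + y) - φ x) ^ 2) ≤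
      ∫⁻ t in Ioc (0 : ℝ) 1, ENNReal.ofReal (‖y‖ ^ 2 * ‖fderiv ℝ φ (x + t • y)‖ ^ 2) := by
    intro x
    have hderiv : ∀ t : ℝ, HasDerivAt (fun t : ℝ => φ (x + t • y)) (fderiv ℝ φ (x + t • y) y) t := by
      intro t
      have h1 : HasDerivAt (fun t : ℝ => x + t • y) y t := by
        simpa using ((hasDerivAt_id t).smul_const y).const_add x
      exact (hd (x + t • y)).hasFDerivAt.comp_hasDerivAt t h1
    have hcont : Continuous (fun t : ℝ => fderiv ℝ φ (x + t • y) y) := by fun_prop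
    have hftc : ∫ t in (0 : ℝ)..1, fderiv ℝ φ (x + t • y) y = φ (x + y) - φ x := by
      rw [intervalIntegral.integral_eq_sub_of_hasDerivAt (fun t _ => hderiv t)
        (hcont.intervalIntegrable _ _)]
      simp
    rw [intervalIntegral.integral_of_le zero_le_one] at hftc
    have hcs := sq_integral_le (μ := volume.restrict (Ioc (0 : ℝ) 1))
      (g := fun t : ℝ => fderiv ℝ φ (x + t • y) y)
      ((hcont.integrableOn_Icc).mono_set Ioc_subset_Icc_self)
      (((hcont.pow 2).integrableOn_Icc).mono_set Ioc_subset_Icc_self)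
    have hvol : (volume.restrict (Ioc (0 : ℝ) 1)).real univ = 1 := by
      simp [measureReal_def]
    rw [hvol, one_mul, hftc] at hcs
    have hcont2 : Continuous (fun t : ℝ => ‖y‖ ^ 2 * ‖fderiv ℝ φ (x + t • y)‖ ^ 2) := by fun_prop
    calc ENNReal.ofReal ((φ (x + y) - φ x) ^ 2)
        ≤ ENNReal.ofReal (∫ t in Ioc (0 : ℝ) 1, ‖y‖ ^ 2 * ‖fderiv ℝ φ (x + t • y)‖ ^ 2) := by
          apply ENNReal.ofReal_le_ofReal
          refine hcs.trans ?_
          apply integral_mono (((hcont.pow 2).integrableOn_Icc).mono_set Ioc_subset_Icc_self)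
            ((hcont2.integrableOn_Icc).mono_set Ioc_subset_Icc_self)
          intro t
          have h := (fderiv ℝ φ (x + t • y)).le_opNorm y
          rw [Real.norm_eq_abs] at h
          calc (fderiv ℝ φ (x + t • y) y) ^ 2 = |fderiv ℝ φ (x + t • y) y| ^ 2 := (sq_abs _).symm
            _ ≤ (‖fderiv ℝ φ (x + t • y)‖ * ‖y‖) ^ 2 := by gcongr
            _ = ‖y‖ ^ 2 * ‖fderiv ℝ φ (x + t • y)‖ ^ 2 := by ring
      _ = _ := by
          rw [ofReal_integral_eq_lintegral_ofReal
            ((hcont2.integrableOn_Icc).mono_set Ioc_subset_Icc_self)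
            (Filter.Eventually.of_forall fun t => by positivity)]
  calc ∫⁻ x, ENNReal.ofReal ((φ (x + y) - φ x) ^ 2)
      ≤ ∫⁻ x, ∫⁻ t in Ioc (0 : ℝ) 1, ENNReal.ofReal (‖y‖ ^ 2 * ‖fderiv ℝ φ (x + t • y)‖ ^ 2) :=
        lintegral_mono hpt
    _ = ∫⁻ t in Ioc (0 : ℝ) 1, ∫⁻ x, ENNReal.ofReal (‖y‖ ^ 2 * ‖fderiv ℝ φ (x + t • y)‖ ^ 2) := by
        rw [lintegral_lintegral_swap]
        apply Measurable.aemeasurable
        apply Continuous.measurable
        exact ENNReal.continuous_ofReal.comp (by fun_prop)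
    _ = ∫⁻ t in Ioc (0 : ℝ) 1, ∫⁻ x, ENNReal.ofReal (‖y‖ ^ 2 * ‖fderiv ℝ φ x‖ ^ 2) := by
        congr 1
        ext t
        exact lintegral_add_right_eq_self
          (fun x => ENNReal.ofReal (‖y‖ ^ 2 * ‖fderiv ℝ φ x‖ ^ 2)) (t • y)
    _ = ENNReal.ofReal (‖y‖ ^ 2 * energy φ) := by
        rw [lintegral_const]
        simp only [Measure.restrict_apply MeasurableSet.univ, univ_inter, Real.volume_Ioc, sub_zero,
          ENNReal.ofReal_one, mul_one]
        unfold energy
        rw [← integral_const_mul, ofReal_integral_eq_lintegral_ofReal]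
        · apply Continuous.integrable_of_hasCompactSupport (by fun_prop)
          have : HasCompactSupport (fderiv ℝ φ) := hc.fderiv ℝ
          exact this.comp_left (g := fun L => ‖y‖ ^ 2 * ‖L‖ ^ 2) (by simp)
        · exact Filter.Eventually.of_forall fun t => by positivity

/-- a cell of the grid of mesh `h` -/
def cell (h : ℝ) (i : ℤ × ℤ) : Set ℂ :=
  Complex.measurableEquivRealProd ⁻¹' (Ico (i.1 * h) ((i.1 + 1) * h) ×ˢ Ico (i.2 * h) ((i.2 + 1) * h))

theorem measurableSet_cell (h : ℝ) (i : ℤ × ℤ) : MeasurableSet (cell h i) :=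
  (measurableSet_Ico.prod measurableSet_Ico).preimage Complex.measurableEquivRealProd.measurable

theorem mem_cell {h : ℝ} {i : ℤ × ℤ} {z : ℂ} : z ∈ cell h i ↔
    ((i.1 * h ≤ z.re ∧ z.re < (i.1 + 1) * h) ∧ (i.2 * h ≤ z.im ∧ z.im < (i.2 + 1) * h)) := by
  simp [cell, Complex.measurableEquivRealProd]

theorem volume_cell {h : ℝ} (hh : 0 < h) (i : ℤ × ℤ) : volume (cell h i) = ENNReal.ofReal (h ^ 2) := by
  rw [cell, Complex.volume_preserving_equiv_real_prod.measure_preimage
    (measurableSet_Ico.prod measurableSet_Ico).nullMeasurableSet, Measure.volume_eq_prod,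
    Measure.prod_prod, Real.volume_Ico, Real.volume_Ico, ← ENNReal.ofReal_mul (by nlinarith)]
  congr 1
  ring

theorem mem_cell_floor {h : ℝ} (hh : 0 < h) (z : ℂ) :
    z ∈ cell h (⌊z.re / h⌋, ⌊z.im / h⌋) := by
  rw [mem_cell]
  have key : ∀ t : ℝ, (⌊t / h⌋ : ℝ) * h ≤ t ∧ t < ((⌊t / h⌋ : ℝ) + 1) * h := by
    intro t
    constructor
    · have := Int.floor_le (t / h)
      rwa [le_div_iff₀ hh] at this
    · have := Int.lt_floor_add_one (t / h)
      rwa [div_lt_iff₀ hh] at this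
  exact ⟨key _, key _⟩

theorem eq_of_mem_cell {h : ℝ} (hh : 0 < h) {i : ℤ × ℤ} {z : ℂ} (hz : z ∈ cell h i) :
    i = (⌊z.re / h⌋, ⌊z.im / h⌋) := by
  rw [mem_cell] at hz
  have key : ∀ (t : ℝ) (n : ℤ), n * h ≤ t → t < (n + 1) * h → n = ⌊t / h⌋ := by
    intro t n h1 h2
    symm
    rw [Int.floor_eq_iff]
    exact ⟨(le_div_iff₀ hh).2 h1, (div_lt_iff₀ hh).2 h2⟩
  exact Prod.ext (key _ _ hz.1.1 hz.1.2) (key _ _ hz.2.1 hz.2.2)

theorem cell_subset_closedBall {h : ℝ} {i : ℤ × ℤ} {x : ℂ} (hx : x ∈ cell h i) :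
    cell h i ⊆ Metric.closedBall x (2 * h) := by
  intro z hz
  rw [mem_cell] at hx hz
  rw [Metric.mem_closedBall, dist_eq_norm]
  refine (Complex.norm_le_abs_re_add_abs_im _).trans ?_
  have h1 : |(z - x).re| ≤ h := by
    rw [Complex.sub_re, abs_le]; constructor <;> nlinarith [hx.1.1, hx.1.2, hz.1.1, hz.1.2]
  have h2 : |(z - x).im| ≤ h := by
    rw [Complex.sub_im, abs_le]; constructor <;> nlinarith [hx.2.1, hx.2.2, hz.2.1, hz.2.2]
  linarith

/-- average over a cell -/
def avg (h : ℝ) (φ : ℂ → ℝ) (i : ℤ × ℤ) : ℝ := (h ^ 2)⁻¹ * ∫ z in cell h i, φ z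

theorem sub_avg_sq_le {h : ℝ} (hh : 0 < h) {φ : ℂ → ℝ} (hφ : Continuous φ)
    (hc : HasCompactSupport φ) {i : ℤ × ℤ} {x : ℂ} (hx : x ∈ cell h i) :
    ENNReal.ofReal ((φ x - avg h φ i) ^ 2) ≤ ENNReal.ofReal ((h ^ 2)⁻¹) *
      ∫⁻ y in Metric.closedBall (0 : ℂ) (2 * h), ENNReal.ofReal ((φ (x + y) - φ x) ^ 2) := by
  have hvol : (volume.restrict (cell h i)).real univ = h ^ 2 := by
    rw [measureReal_def, Measure.restrict_apply MeasurableSet.univ, univ_inter, volume_cell hh,
      ENNReal.toReal_ofReal (by positivity)]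
  have : IsFiniteMeasure (volume.restrict (cell h i)) := by
    constructor
    rw [Measure.restrict_apply MeasurableSet.univ, univ_inter, volume_cell hh]
    exact ENNReal.ofReal_lt_top
  have hint : Integrable φ (volume.restrict (cell h i)) :=
    (hφ.integrable_of_hasCompactSupport hc).restrict
  have hint' : Integrable (fun z => φ z - φ x) (volume.restrict (cell h i)) :=
    hint.sub (integrable_const _)
  obtain ⟨M, hM⟩ := hc.exists_bound_of_continuous hφ
  have hint2 : Integrable (fun z => (φ z - φ x) ^ 2) (volume.restrict (cell h i)) := by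
    apply Integrable.mono' (g := fun _ => (M + M) ^ 2) (integrable_const _)
      ((hφ.sub continuous_const).pow 2).aestronglyMeasurable
    refine Filter.Eventually.of_forall fun z => ?_
    have h1 := hM z
    have h2 := hM x
    rw [Real.norm_eq_abs] at h1 h2
    have h3 : |φ z - φ x| ≤ M + M := (abs_sub _ _).trans (add_le_add h1 h2)
    change ‖(φ z - φ x) ^ 2‖ ≤ (M + M) ^ 2
    rw [Real.norm_eq_abs, abs_pow]
    gcongr
  have h1 : φ x - avg h φ i = -((h ^ 2)⁻¹ * ∫ z in cell h i, (φ z - φ x)) := by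
    rw [integral_sub hint (integrable_const _), integral_const, hvol, avg, smul_eq_mul]
    field_simp
    ring
  have h2 := sq_integral_le hint' hint2
  rw [hvol] at h2
  have h3 : (φ x - avg h φ i) ^ 2 ≤ (h ^ 2)⁻¹ * ∫ z in cell h i, (φ z - φ x) ^ 2 := by
    rw [h1, neg_sq, mul_pow]
    calc ((h ^ 2)⁻¹) ^ 2 * (∫ z in cell h i, (φ z - φ x)) ^ 2
        ≤ ((h ^ 2)⁻¹) ^ 2 * (h ^ 2 * ∫ z in cell h i, (φ z - φ x) ^ 2) := by gcongr
      _ = _ := by field_simp
  have hF : Measurable (fun z => ENNReal.ofReal ((φ z - φ x) ^ 2)) :=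
    (ENNReal.continuous_ofReal.comp (by fun_prop)).measurable
  calc ENNReal.ofReal ((φ x - avg h φ i) ^ 2)
      ≤ ENNReal.ofReal ((h ^ 2)⁻¹ * ∫ z in cell h i, (φ z - φ x) ^ 2) := ENNReal.ofReal_le_ofReal h3
    _ = ENNReal.ofReal ((h ^ 2)⁻¹) * ∫⁻ z in cell h i, ENNReal.ofReal ((φ z - φ x) ^ 2) := by
        rw [ENNReal.ofReal_mul (by positivity), ofReal_integral_eq_lintegral_ofReal hint2
          (Filter.Eventually.of_forall fun z => sq_nonneg _)]
    _ ≤ ENNReal.ofReal ((h ^ 2)⁻¹) *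
        ∫⁻ z in Metric.closedBall x (2 * h), ENNReal.ofReal ((φ z - φ x) ^ 2) := by
        gcongr
        exact cell_subset_closedBall hx
    _ = _ := by
        congr 1
        rw [← lintegral_indicator Metric.isClosed_closedBall.measurableSet,
          ← lintegral_indicator Metric.isClosed_closedBall.measurableSet,
          ← lintegral_add_left_eq_self _ x]
        congr 1
        ext y
        by_cases hy : y ∈ Metric.closedBall (0 : ℂ) (2 * h)
        · have : x + y ∈ Metric.closedBall x (2 * h) := by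
            simpa [Metric.mem_closedBall, dist_eq_norm] using hy
          rw [indicator_of_mem hy, indicator_of_mem this]
        · have : x + y ∉ Metric.closedBall x (2 * h) := by
            simpa [Metric.mem_closedBall, dist_eq_norm] using hy
          rw [indicator_of_notMem hy, indicator_of_notMem this]

/-- the step function of cell averages -/
def step (h : ℝ) (s : Finset (ℤ × ℤ)) (c : ℤ × ℤ → ℝ) (x : ℂ) : ℝ :=
  ∑ i ∈ s, (cell h i).indicator (fun _ => c i) x

theorem step_eq {h : ℝ} (hh : 0 < h) {s : Finset (ℤ × ℤ)} {c : ℤ × ℤ → ℝ} {x : ℂ} {i : ℤ × ℤ}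
    (hi : i ∈ s) (hx : x ∈ cell h i) : step h s c x = c i := by
  unfold step
  rw [Finset.sum_eq_single_of_mem i hi]
  · exact indicator_of_mem hx _
  · intro j _ hji
    apply indicator_of_notMem
    intro hj
    exact hji ((eq_of_mem_cell hh hj).trans (eq_of_mem_cell hh hx).symm)

theorem step_eq_zero {h : ℝ} (hh : 0 < h) {s : Finset (ℤ × ℤ)} {c : ℤ × ℤ → ℝ} {x : ℂ}
    (hx : ((⌊x.re / h⌋, ⌊x.im / h⌋) : ℤ × ℤ) ∉ s) : step h s c x = 0 := by
  unfold step
  apply Finset.sum_eq_zero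
  intro j hj
  apply indicator_of_notMem
  intro hj'
  exact hx (eq_of_mem_cell hh hj' ▸ hj)

theorem lintegral_sub_step_le {h : ℝ} (hh : 0 < h) {φ : ℂ → ℝ} (hφ : ContDiff ℝ ∞ φ)
    (hc : HasCompactSupport φ) (s : Finset (ℤ × ℤ))
    (hs : ∀ x, φ x ≠ 0 → ((⌊x.re / h⌋, ⌊x.im / h⌋) : ℤ × ℤ) ∈ s) :
    ∫⁻ x, ENNReal.ofReal ((φ x - step h s (avg h φ) x) ^ 2) ≤
      ENNReal.ofReal (16 * Real.pi * h ^ 2 * energy φ) := by
  have hE : 0 ≤ energy φ := integral_nonneg fun x => sq_nonneg _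
  have hpt : ∀ x, ENNReal.ofReal ((φ x - step h s (avg h φ) x) ^ 2) ≤
      ENNReal.ofReal ((h ^ 2)⁻¹) *
      ∫⁻ y in Metric.closedBall (0 : ℂ) (2 * h), ENNReal.ofReal ((φ (x + y) - φ x) ^ 2) := by
    intro x
    by_cases hx : ((⌊x.re / h⌋, ⌊x.im / h⌋) : ℤ × ℤ) ∈ s
    · rw [step_eq hh hx (mem_cell_floor hh x)]
      exact sub_avg_sq_le hh hφ.continuous hc (mem_cell_floor hh x)
    · have h0 : φ x = 0 := by
        by_contra h0
        exact hx (hs x h0)
      rw [step_eq_zero hh hx, h0]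
      simp
  have hcont : Continuous (fun p : ℂ × ℂ => ENNReal.ofReal ((φ (p.1 + p.2) - φ p.1) ^ 2)) := by
    have := hφ.continuous
    exact ENNReal.continuous_ofReal.comp (by fun_prop)
  calc ∫⁻ x, ENNReal.ofReal ((φ x - step h s (avg h φ) x) ^ 2)
      ≤ ∫⁻ x, ENNReal.ofReal ((h ^ 2)⁻¹) *
      ∫⁻ y in Metric.closedBall (0 : ℂ) (2 * h), ENNReal.ofReal ((φ (x + y) - φ x) ^ 2) :=
        lintegral_mono hpt
    _ = ENNReal.ofReal ((h ^ 2)⁻¹) * ∫⁻ x,
      ∫⁻ y in Metric.closedBall (0 : ℂ) (2 * h), ENNReal.ofReal ((φ (x + y) - φ x) ^ 2) := by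
        rw [lintegral_const_mul' _ _ ENNReal.ofReal_ne_top]
    _ = ENNReal.ofReal ((h ^ 2)⁻¹) * ∫⁻ y in Metric.closedBall (0 : ℂ) (2 * h),
      ∫⁻ x, ENNReal.ofReal ((φ (x + y) - φ x) ^ 2) := by
        rw [lintegral_lintegral_swap]
        exact hcont.measurable.aemeasurable
    _ ≤ ENNReal.ofReal ((h ^ 2)⁻¹) * ∫⁻ y in Metric.closedBall (0 : ℂ) (2 * h),
      ENNReal.ofReal ((2 * h) ^ 2 * energy φ) := by
        gcongr ENNReal.ofReal ((h ^ 2)⁻¹) * ?_
        apply setLIntegral_mono measurable_const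
        intro y hy
        refine (translation_le hφ hc y).trans ?_
        apply ENNReal.ofReal_le_ofReal
        have : ‖y‖ ≤ 2 * h := by simpa using hy
        gcongr
    _ = ENNReal.ofReal (16 * Real.pi * h ^ 2 * energy φ) := by
        rw [setLIntegral_const, Complex.volume_closedBall]
        have hpi : (NNReal.pi : ℝ≥0∞) = ENNReal.ofReal Real.pi := by
          rw [ENNReal.ofReal]
          congr 1
          ext
          simp [Real.pi_nonneg]
        rw [hpi, ← ENNReal.ofReal_pow (by positivity), ← ENNReal.ofReal_mul (by positivity),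
          ← ENNReal.ofReal_mul (by positivity), ← ENNReal.ofReal_mul (by positivity)]
        congr 1
        field_simp
        ring

theorem norm_toLp_sub_sq {f g : ℂ → ℝ} (hf : MemLp f 2 volume) (hg : MemLp g 2 volume) :
    ‖hf.toLp f - hg.toLp g‖ ^ 2 = ∫ x, (f x - g x) ^ 2 := by
  rw [← MemLp.toLp_sub hf hg, ← real_inner_self_eq_norm_sq, L2.inner_def]
  apply integral_congr_ae
  filter_upwards [(hf.sub hg).coeFn_toLp] with x hx
  simp [hx, sq]

/-- the step function as an element of `L²` -/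
def stepLp {h : ℝ} (hh : 0 < h) (s : Finset (ℤ × ℤ)) (c : ℤ × ℤ → ℝ) : Lp ℝ 2 (volume : Measure ℂ) :=
  ∑ i ∈ s, c i • indicatorConstLp 2 (measurableSet_cell h i)
    (by rw [volume_cell hh]; exact ENNReal.ofReal_ne_top) (1 : ℝ)

theorem stepLp_coe {h : ℝ} (hh : 0 < h) (s : Finset (ℤ × ℤ)) (c : ℤ × ℤ → ℝ) :
    (stepLp hh s c : ℂ → ℝ) =ᵐ[volume] step h s c := by
  classical
  induction s using Finset.induction_on with
  | empty =>
    unfold stepLp step
    simp only [Finset.sum_empty]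
    exact Lp.coeFn_zero _ _ _
  | insert i s hi ih =>
    have e : stepLp hh (insert i s) c = c i • indicatorConstLp 2 (measurableSet_cell h i)
        (by rw [volume_cell hh]; exact ENNReal.ofReal_ne_top) (1 : ℝ) + stepLp hh s c := by
      unfold stepLp
      rw [Finset.sum_insert hi]
    rw [e]
    filter_upwards [Lp.coeFn_add (c i • indicatorConstLp 2 (measurableSet_cell h i)
        (by rw [volume_cell hh]; exact ENNReal.ofReal_ne_top) (1 : ℝ)) (stepLp hh s c), ih,
      Lp.coeFn_smul (c i) (indicatorConstLp 2 (measurableSet_cell h i)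
        (by rw [volume_cell hh]; exact ENNReal.ofReal_ne_top) (1 : ℝ)),
      indicatorConstLp_coeFn (p := 2) (hs := measurableSet_cell h i)
        (hμs := by rw [volume_cell hh]; exact ENNReal.ofReal_ne_top) (c := (1 : ℝ))] with x h1 h2 h3 h4
    rw [h1, Pi.add_apply, h2, h3, Pi.smul_apply, h4]
    unfold step
    rw [Finset.sum_insert hi]
    congr 1
    by_cases hx : x ∈ cell h i
    · simp [indicator_of_mem hx]
    · simp [indicator_of_notMem hx]

theorem continuous_stepLp {h : ℝ} (hh : 0 < h) (s : Finset (ℤ × ℤ)) :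
    Continuous (fun c : ℤ × ℤ → ℝ => stepLp hh s c) := by
  unfold stepLp
  exact continuous_finsetSum _ fun i _ => (continuous_apply i).smul continuous_const

theorem avg_sq_le {h : ℝ} (hh : 0 < h) {φ : ℂ → ℝ} (hφ : Continuous φ)
    (hc : HasCompactSupport φ) (i : ℤ × ℤ) : avg h φ i ^ 2 ≤ (h ^ 2)⁻¹ * mass φ := by
  have hvol : (volume.restrict (cell h i)).real univ = h ^ 2 := by
    rw [measureReal_def, Measure.restrict_apply MeasurableSet.univ, univ_inter, volume_cell hh,
      ENNReal.toReal_ofReal (by positivity)]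
  have : IsFiniteMeasure (volume.restrict (cell h i)) := by
    constructor
    rw [Measure.restrict_apply MeasurableSet.univ, univ_inter, volume_cell hh]
    exact ENNReal.ofReal_lt_top
  have hi : Integrable φ := hφ.integrable_of_hasCompactSupport hc
  have hi2 : Integrable (fun z => φ z ^ 2) := by
    have h0 : HasCompactSupport ((fun t : ℝ => t ^ 2) ∘ φ) := hc.comp_left (by simp)
    have h1 : Continuous ((fun t : ℝ => t ^ 2) ∘ φ) := (continuous_pow 2).comp hφ
    exact h1.integrable_of_hasCompactSupport h0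
  have h2 := sq_integral_le (μ := volume.restrict (cell h i)) hi.restrict hi2.restrict
  rw [hvol] at h2
  have h3 : ∫ z in cell h i, φ z ^ 2 ≤ mass φ :=
    setIntegral_le_integral hi2 (Filter.Eventually.of_forall fun z => sq_nonneg _)
  rw [avg, mul_pow]
  calc ((h ^ 2)⁻¹) ^ 2 * (∫ z in cell h i, φ z) ^ 2
      ≤ ((h ^ 2)⁻¹) ^ 2 * (h ^ 2 * mass φ) := by
        gcongr
        exact h2.trans (by gcongr)
    _ = _ := by field_simp

end Rellich

open Rellich in
theorem rellich {Ω : Set ℂ} (hb : Bornology.IsBounded Ω) {C : ℝ} (φ : ℕ → ℂ → ℝ)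
    (hs : ∀ n, ContDiff ℝ ∞ (φ n)) (hsupp : ∀ n, tsupport (φ n) ⊆ Ω)
    (hE : ∀ n, energy (φ n) ≤ C) (hM : ∀ n, mass (φ n) ≤ C) :
    ∃ σ : ℕ → ℕ, StrictMono σ ∧ ∃ u : ℂ → ℝ, MemLp u 2 volume ∧
      Filter.Tendsto (fun n => ∫ x, (φ (σ n) x - u x) ^ 2) Filter.atTop (𝓝 0) := by
  have hc : ∀ n, HasCompactSupport (φ n) := fun n =>
    Metric.isCompact_of_isClosed_isBounded (isClosed_tsupport _) (hb.subset (hsupp n))
  have hC : 0 ≤ C := (integral_nonneg fun x => sq_nonneg (φ 0 x)).trans (hM 0)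
  have hmem : ∀ n, MemLp (φ n) 2 volume := fun n =>
    (hs n).continuous.memLp_of_hasCompactSupport (hc n)
  obtain ⟨R, hR⟩ := hb.subset_closedBall (0 : ℂ)
  set a : ℕ → Lp ℝ 2 (volume : Measure ℂ) := fun n => (hmem n).toLp (φ n) with ha
  have htb : TotallyBounded (range a) := by
    rw [Metric.totallyBounded_iff]
    intro ε hε
    obtain ⟨h, hh, hh2⟩ : ∃ h : ℝ, 0 < h ∧ 16 * Real.pi * h ^ 2 * C < (ε / 2) ^ 2 := by
      have : Filter.Tendsto (fun h : ℝ => 16 * Real.pi * h ^ 2 * C) (𝓝[>] 0) (𝓝 0) := by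
        have h0 : Continuous (fun h : ℝ => 16 * Real.pi * h ^ 2 * C) := by fun_prop
        have := (h0.tendsto 0).mono_left (nhdsWithin_le_nhds (s := Ioi (0 : ℝ)))
        simpa using this
      obtain ⟨h, h1, h2⟩ := ((this.eventually_lt_const (show (0 : ℝ) < (ε / 2) ^ 2 by positivity)).and
        self_mem_nhdsWithin).exists
      exact ⟨h, h2, h1⟩
    set N : ℤ := ⌈R / h⌉ + 1 with hN
    set s : Finset (ℤ × ℤ) := Finset.Icc (-N) N ×ˢ Finset.Icc (-N) N with hsdef
    have hfl : ∀ t : ℝ, |t| ≤ R → ⌊t / h⌋ ∈ Finset.Icc (-N) N := by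
      intro t ht
      rw [abs_le] at ht
      have h1 := Int.le_ceil (R / h)
      rw [Finset.mem_Icc]
      constructor
      · rw [Int.le_floor]
        push_cast [hN]
        have : -(R / h) ≤ t / h := by
          rw [← neg_div]; gcongr; exact ht.1
        linarith
      · rw [← Int.lt_add_one_iff, Int.floor_lt]
        push_cast [hN]
        have : t / h ≤ R / h := by gcongr; exact ht.2
        linarith
    have hsx : ∀ n x, φ n x ≠ 0 → ((⌊x.re / h⌋, ⌊x.im / h⌋) : ℤ × ℤ) ∈ s := by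
      intro n x hx
      have hx1 : x ∈ Metric.closedBall (0 : ℂ) R := hR (hsupp n (subset_tsupport _ hx))
      rw [mem_closedBall_zero_iff] at hx1
      exact Finset.mem_product.2 ⟨hfl _ ((Complex.abs_re_le_norm x).trans hx1),
        hfl _ ((Complex.abs_im_le_norm x).trans hx1)⟩
    set M : ℝ := (h ^ 2)⁻¹ * C + 1 with hMdef
    have havg : ∀ n i, avg h (φ n) i ∈ Icc (-M) M := by
      intro n i
      have h1 := (avg_sq_le hh (hs n).continuous (hc n) i).trans
        (mul_le_mul_of_nonneg_left (hM n) (by positivity))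
      rw [mem_Icc, ← abs_le]
      have h2 : |avg h (φ n) i| ≤ avg h (φ n) i ^ 2 + 1 := by
        rw [← sq_abs]
        nlinarith [sq_nonneg (|avg h (φ n) i| - 1 / 2)]
      linarith
    have hK : IsCompact ((fun c : ℤ × ℤ → ℝ => stepLp hh s c) '' Set.pi univ fun _ => Icc (-M) M) :=
      (isCompact_univ_pi fun _ => isCompact_Icc).image (continuous_stepLp hh s)
    obtain ⟨t, htf, ht⟩ := Metric.totallyBounded_iff.1 hK.totallyBounded (ε / 2) (half_pos hε)
    refine ⟨t, htf, ?_⟩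
    rintro _ ⟨n, rfl⟩
    have hb : stepLp hh s (avg h (φ n)) ∈
        ((fun c : ℤ × ℤ → ℝ => stepLp hh s c) '' Set.pi univ fun _ => Icc (-M) M) :=
      ⟨_, fun i _ => havg n i, rfl⟩
    obtain ⟨y, hy, hyb⟩ := mem_iUnion₂.1 (ht hb)
    refine mem_iUnion₂.2 ⟨y, hy, ?_⟩
    rw [Metric.mem_ball] at hyb ⊢
    have hdist : dist (a n) (stepLp hh s (avg h (φ n))) < ε / 2 := by
      have hm2 : MemLp (step h s (avg h (φ n))) 2 volume :=
        (memLp_congr_ae (stepLp_coe hh s (avg h (φ n)))).1 (Lp.memLp _)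
      have e1 : stepLp hh s (avg h (φ n)) = hm2.toLp _ := by
        apply Lp.ext
        exact (stepLp_coe hh s _).trans hm2.coeFn_toLp.symm
      rw [dist_eq_norm, e1]
      apply lt_of_pow_lt_pow_left₀ 2 (by positivity)
      rw [norm_toLp_sub_sq]
      refine lt_of_le_of_lt ?_ hh2
      have h1 := lintegral_sub_step_le hh (hs n) (hc n) s (hsx n)
      have hint : Integrable (fun x => (φ n x - step h s (avg h (φ n)) x) ^ 2) :=
        ((hmem n).sub hm2).integrable_sq
      rw [← ofReal_integral_eq_lintegral_ofReal hint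
        (Filter.Eventually.of_forall fun z => sq_nonneg _)] at h1
      have h2 := (ENNReal.ofReal_le_ofReal_iff (by
        have : 0 ≤ energy (φ n) := integral_nonneg fun x => sq_nonneg _
        positivity)).1 h1
      refine h2.trans ?_
      gcongr
      exact hE n
    calc dist (a n) y ≤ dist (a n) (stepLp hh s (avg h (φ n))) + dist (stepLp hh s (avg h (φ n))) y :=
          dist_triangle _ _ _
      _ < ε / 2 + ε / 2 := add_lt_add hdist hyb
      _ = ε := add_halves ε
  have hcomp : IsCompact (closure (range a)) :=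
    isCompact_iff_totallyBounded_isComplete.2 ⟨htb.closure, isClosed_closure.isComplete⟩
  obtain ⟨A, -, σ, hσ, hlim⟩ := hcomp.tendsto_subseq (fun n => subset_closure (mem_range_self (f := a) n))
  refine ⟨σ, hσ, A, Lp.memLp A, ?_⟩
  have h1 : ∀ n, ∫ x, (φ (σ n) x - A x) ^ 2 = ‖a (σ n) - A‖ ^ 2 := by
    intro n
    rw [← norm_toLp_sub_sq (hmem (σ n)) (Lp.memLp A), Lp.toLp_coeFn]
  simp_rw [h1]
  have h2 : Filter.Tendsto (fun n => ‖a (σ n) - A‖) Filter.atTop (𝓝 0) := by
    rw [← tendsto_iff_norm_sub_tendsto_zero]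
    exact hlim
  simpa using h2.pow 2

end

end Pool.Agent.Lib.MP_4cfb03_an
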