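import Pool.Agent.Lib.MP_4cfb03_an.SobA

/-! # T13 (Sob), part B: mollification and elementary facts on `lam1`. -/

open MeasureTheory Set Filter
open scoped ENNReal ContDiff Topology Convolution

namespace Pool.Agent.Lib.MP_4cfb03_an

noncomputable section

/-! ### Comparison of derivatives -/

theorem norm_fderiv_le_of_abs_le {u v : ℂ → ℝ} {x : ℂ} (hv : DifferentiableAt ℝ v x)
    (h : ∀ y, |u y - u x| ≤ |v y - v x|) : ‖fderiv ℝ u x‖ ≤ ‖fderiv ℝ v x‖ := by
  by_cases hu : DifferentiableAt ℝ u x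
  swap
  · rw [fderiv_zero_of_not_differentiableAt hu, norm_zero]
    exact norm_nonneg _
  refine ContinuousLinearMap.opNorm_le_bound _ (norm_nonneg _) fun e => ?_
  have h1 := (hu.hasFDerivAt.hasLineDerivAt e).tendsto_slope_zero.norm
  have h2 := (hv.hasFDerivAt.hasLineDerivAt e).tendsto_slope_zero.norm
  refine (le_of_tendsto_of_tendsto h1 h2 ?_).trans ((fderiv ℝ v x).le_opNorm e)
  filter_upwards with t
  rw [norm_smul, norm_smul]
  exact mul_le_mul_of_nonneg_left (h _) (norm_nonneg _)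

theorem integrable_norm_fderiv_sq {v : ℂ → ℝ} (hv : Lip v) (hvc : HasCompactSupport v) :
    Integrable (fun x => ‖fderiv ℝ v x‖ ^ 2) := by
  obtain ⟨K, hK⟩ := hv
  have hsub : Function.support (fun x => ‖fderiv ℝ v x‖ ^ 2) ⊆ tsupport v := by
    intro x hx
    by_contra h
    apply hx
    simp [fderiv_eq_zero_of_notMem h]
  refine (integrableOn_iff_integrable_of_support_subset hsub).1 ?_
  refine Measure.integrableOn_of_bounded (M := (K:ℝ) ^ 2) hvc.measure_lt_top.ne ?_ ?_
  · exact ((measurable_fderiv ℝ v).norm.pow_const 2).aestronglyMeasurable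
  · filter_upwards with x
    rw [Real.norm_of_nonneg (by positivity)]
    exact pow_le_pow_left₀ (norm_nonneg _) (norm_fderiv_le_of_lip hK x) 2

theorem energy_nonneg (v : ℂ → ℝ) : 0 ≤ energy v := integral_nonneg fun x => by positivity

theorem mass_nonneg (v : ℂ → ℝ) : 0 ≤ mass v := integral_nonneg fun x => by positivity

theorem energy_mono_of_abs_le {u v : ℂ → ℝ} (hv : Lip v) (hvc : HasCompactSupport v)
    (h : ∀ x y, |u y - u x| ≤ |v y - v x|) : energy u ≤ energy v := by
  refine integral_mono_of_nonneg ?_ (integrable_norm_fderiv_sq hv hvc) ?_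
  · filter_upwards with x; positivity
  · filter_upwards [hv.ae_differentiableAt] with x hx
    exact pow_le_pow_left₀ (norm_nonneg _) (norm_fderiv_le_of_abs_le hx (h x)) 2

/-! ### Mollification -/

/-- the mollification of `v` -/
def moll (φ : ContDiffBump (0 : ℂ)) (v : ℂ → ℝ) : ℂ → ℝ :=
  φ.normed volume ⋆[ContinuousLinearMap.lsmul ℝ ℝ, volume] v

theorem moll_apply (φ : ContDiffBump (0 : ℂ)) (v : ℂ → ℝ) (x : ℂ) :
    moll φ v x = ∫ t, φ.normed volume t * v (x - t) := by
  simp [moll, convolution_def]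

theorem contDiff_moll (φ : ContDiffBump (0 : ℂ)) {v : ℂ → ℝ} (hv : Continuous v) :
    ContDiff ℝ ∞ (moll φ v) := by
  refine HasCompactSupport.contDiff_convolution_left _ φ.hasCompactSupport_normed
    φ.contDiff_normed hv.locallyIntegrable

theorem abs_moll_sub_le (φ : ContDiffBump (0 : ℂ)) {v : ℂ → ℝ} {K : NNReal}
    (hv : LipschitzWith K v) (x : ℂ) : |moll φ v x - v x| ≤ K * φ.rOut := by
  rw [← Real.dist_eq]
  refine ContDiffBump.dist_normed_convolution_le hv.continuous.aestronglyMeasurable fun y hy => ?_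
  refine (hv.dist_le_mul y x).trans ?_
  exact mul_le_mul_of_nonneg_left (Metric.mem_ball.1 hy).le K.2

theorem moll_nonneg (φ : ContDiffBump (0 : ℂ)) {v : ℂ → ℝ} (hv : ∀ x, 0 ≤ v x) (x : ℂ) :
    0 ≤ moll φ v x := by
  rw [moll_apply]
  exact integral_nonneg fun t => mul_nonneg (φ.nonneg_normed t) (hv _)

theorem tsupport_moll_subset (φ : ContDiffBump (0 : ℂ)) (v : ℂ → ℝ) :
    tsupport (moll φ v) ⊆ Metric.cthickening φ.rOut (tsupport v) := by
  refine closure_minimal ?_ Metric.isClosed_cthickening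
  refine (support_convolution_subset _).trans ?_
  rintro _ ⟨a, ha, b, hb, rfl⟩
  rw [φ.support_normed_eq] at ha
  refine Metric.mem_cthickening_of_dist_le _ b _ _ (subset_tsupport v hb) ?_
  rw [Metric.mem_ball, dist_zero_right] at ha
  simp only [dist_eq_norm]
  rw [add_sub_cancel_right]
  exact ha.le

theorem continuous_normed' (φ : ContDiffBump (0 : ℂ)) :
    Continuous (φ.normed (volume : Measure ℂ)) := φ.continuous_normed

theorem hasFDerivAt_moll (φ : ContDiffBump (0 : ℂ)) {v : ℂ → ℝ} {K : NNReal}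
    (hv : LipschitzWith K v) (x : ℂ) :
    HasFDerivAt (moll φ v) (∫ t, φ.normed volume t • fderiv ℝ v (x - t)) x := by
  have he : moll φ v = fun x => ∫ t, φ.normed volume t * v (x - t) := by
    funext x; exact moll_apply φ v x
  rw [he]
  have hφi : Integrable (φ.normed (volume : Measure ℂ)) :=
    (continuous_normed' φ).integrable_of_hasCompactSupport φ.hasCompactSupport_normed
  refine (hasFDerivAt_integral_of_dominated_loc_of_lip (s := univ)
    (F := fun x t => φ.normed volume t * v (x - t))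
    (bound := fun t => φ.normed volume t * K) univ_mem ?_ ?_ ?_ ?_ ?_ ?_).2
  · refine Eventually.of_forall fun y => Continuous.aestronglyMeasurable ?_
    exact (continuous_normed' φ).mul (hv.continuous.comp (continuous_const.sub continuous_id))
  · refine Continuous.integrable_of_hasCompactSupport ?_ φ.hasCompactSupport_normed.mul_right
    exact (continuous_normed' φ).mul (hv.continuous.comp (continuous_const.sub continuous_id))
  · refine AEStronglyMeasurable.smul (continuous_normed' φ).aestronglyMeasurable ?_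
    exact ((measurable_fderiv ℝ v).comp (measurable_const.sub measurable_id)).aestronglyMeasurable
  · filter_upwards with t
    refine LipschitzOnWith.of_dist_le_mul fun y _ z _ => ?_
    have h1 := hv.dist_le_mul (y - t) (z - t)
    have h2 : (Real.nnabs (φ.normed volume t * K) : ℝ) = φ.normed volume t * K := by
      rw [Real.coe_nnabs]
      exact abs_of_nonneg (mul_nonneg (φ.nonneg_normed t) K.2)
    rw [h2, Real.dist_eq, ← mul_sub, abs_mul, abs_of_nonneg (φ.nonneg_normed (μ := volume) t),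
      mul_assoc]
    refine mul_le_mul_of_nonneg_left ?_ (φ.nonneg_normed t)
    rw [← Real.dist_eq]
    refine h1.trans (le_of_eq ?_)
    rw [dist_sub_right]
  · exact hφi.mul_const _
  · have hq := (Measure.measurePreserving_sub_left (volume : Measure ℂ) x).quasiMeasurePreserving.ae
      hv.ae_differentiableAt
    filter_upwards [hq] with t ht
    have h0 : HasFDerivAt (fun y : ℂ => y - t) (ContinuousLinearMap.id ℝ ℂ) x :=
      (hasFDerivAt_id x).sub_const t
    have h1 : HasFDerivAt v (fderiv ℝ v (x - t)) (x - t) := ht.hasFDerivAt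
    have h2 := h1.comp x h0
    rw [ContinuousLinearMap.comp_id] at h2
    exact h2.const_mul _

/-- Jensen's inequality for the mollifier. -/
theorem sq_integral_normed_mul_le (φ : ContDiffBump (0 : ℂ)) {H : ℂ → ℝ} (hH : Measurable H)
    {K : ℝ} (h0 : ∀ x, 0 ≤ H x) (hK : ∀ x, H x ≤ K) :
    (∫ t, φ.normed volume t * H t) ^ 2 ≤ ∫ t, φ.normed volume t * H t ^ 2 := by
  have hφi : Integrable (φ.normed (volume : Measure ℂ)) :=
    (continuous_normed' φ).integrable_of_hasCompactSupport φ.hasCompactSupport_normed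
  have hi1 : Integrable (fun t => φ.normed volume t * H t) := by
    refine hφi.mul_bdd (c := K) hH.aestronglyMeasurable ?_
    filter_upwards with x
    rw [Real.norm_of_nonneg (h0 x)]; exact hK x
  have hi2 : Integrable (fun t => φ.normed volume t * H t ^ 2) := by
    refine hφi.mul_bdd (c := K ^ 2) (hH.pow_const 2).aestronglyMeasurable ?_
    filter_upwards with x
    rw [Real.norm_of_nonneg (by positivity)]
    exact pow_le_pow_left₀ (h0 x) (hK x) 2
  set m : ℝ := ∫ t, φ.normed volume t * H t with hm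
  have h1 : 0 ≤ ∫ t, φ.normed volume t * (H t - m) ^ 2 :=
    integral_nonneg fun t => mul_nonneg (φ.nonneg_normed t) (sq_nonneg _)
  have h2 : ∫ t, φ.normed volume t * (H t - m) ^ 2 =
      (∫ t, φ.normed volume t * H t ^ 2) - 2 * m * m + m ^ 2 * 1 := by
    have : (fun t => φ.normed volume t * (H t - m) ^ 2) = fun t =>
        φ.normed volume t * H t ^ 2 - 2 * m * (φ.normed volume t * H t) +
          m ^ 2 * φ.normed volume t := by
      funext t; ring
    have hi3 : Integrable (fun t => φ.normed volume t * H t ^ 2 -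
        2 * m * (φ.normed volume t * H t)) := hi2.sub (hi1.const_mul _)
    rw [this, integral_add hi3 (hφi.const_mul _),
      integral_sub hi2 (hi1.const_mul _), integral_const_mul, integral_const_mul,
      φ.integral_normed]
  rw [h2] at h1
  nlinarith

theorem energy_moll_le (φ : ContDiffBump (0 : ℂ)) {v : ℂ → ℝ} (hv : Lip v)
    (hvc : HasCompactSupport v) : energy (moll φ v) ≤ energy v := by
  obtain ⟨K, hK⟩ := hv
  have hφi : Integrable (φ.normed (volume : Measure ℂ)) :=
    (continuous_normed' φ).integrable_of_hasCompactSupport φ.hasCompactSupport_normed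
  have hvi := integrable_norm_fderiv_sq ⟨K, hK⟩ hvc
  have hpt : ∀ x, ‖fderiv ℝ (moll φ v) x‖ ^ 2 ≤
      (φ.normed volume ⋆[ContinuousLinearMap.lsmul ℝ ℝ, volume] (fun x => ‖fderiv ℝ v x‖ ^ 2)) x := by
    intro x
    rw [(hasFDerivAt_moll φ hK x).fderiv]
    have h1 : ‖∫ t, φ.normed volume t • fderiv ℝ v (x - t)‖ ≤
        ∫ t, φ.normed volume t * ‖fderiv ℝ v (x - t)‖ := by
      refine (norm_integral_le_integral_norm _).trans (le_of_eq ?_)
      refine integral_congr_ae ?_
      filter_upwards with t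
      rw [norm_smul, Real.norm_of_nonneg (φ.nonneg_normed t)]
    refine (pow_le_pow_left₀ (norm_nonneg _) h1 2).trans ?_
    have h2 := sq_integral_normed_mul_le φ (H := fun t => ‖fderiv ℝ v (x - t)‖) (K := K)
      ((measurable_fderiv ℝ v).norm.comp (measurable_const.sub measurable_id))
      (fun t => norm_nonneg _) (fun t => norm_fderiv_le_of_lip hK _)
    refine h2.trans (le_of_eq ?_)
    simp [convolution_def]
  have hint := hφi.integrable_convolution (ContinuousLinearMap.lsmul ℝ ℝ) hvi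
  unfold energy
  refine (integral_mono_of_nonneg ?_ hint (Eventually.of_forall hpt)).trans (le_of_eq ?_)
  · filter_upwards with x; positivity
  · rw [integral_convolution _ hφi hvi, φ.integral_normed]
    simp

/-- the soft threshold -/
def soft (δ s : ℝ) : ℝ := max (s - δ) 0 - max (-s - δ) 0

theorem abs_soft_sub_le {δ : ℝ} (hδ : 0 ≤ δ) (s t : ℝ) : |soft δ s - soft δ t| ≤ |s - t| := by
  unfold soft
  rcases le_total (s - δ) 0 with h1 | h1 <;> rcases le_total (-s - δ) 0 with h2 | h2 <;>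
  rcases le_total (t - δ) 0 with h3 | h3 <;> rcases le_total (-t - δ) 0 with h4 | h4 <;>
  simp only [max_eq_right, max_eq_left, h1, h2, h3, h4] <;>
  rcases abs_cases (s - t) with ⟨h5, h6⟩ | ⟨h5, h6⟩ <;> rw [h5, abs_le] <;>
  constructor <;> linarith

theorem abs_soft_sub_self_le {δ : ℝ} (hδ : 0 ≤ δ) (s : ℝ) : |soft δ s - s| ≤ δ := by
  unfold soft
  rcases le_total (s - δ) 0 with h1 | h1 <;> rcases le_total (-s - δ) 0 with h2 | h2 <;>
  simp only [max_eq_right, max_eq_left, h1, h2] <;> rw [abs_le] <;> constructor <;> linarith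

theorem soft_eq_zero {δ : ℝ} {s : ℝ} (h : |s| ≤ δ) : soft δ s = 0 := by
  rw [abs_le] at h
  unfold soft
  rw [max_eq_right (by linarith), max_eq_right (by linarith), sub_zero]

theorem soft_nonneg {δ : ℝ} (hδ : 0 ≤ δ) {s : ℝ} (h : 0 ≤ s) : 0 ≤ soft δ s := by
  unfold soft
  rw [max_eq_right (a := -s - δ) (by linarith), sub_zero]
  exact le_max_right _ _

/-- Approximation of admissible functions by test functions. -/
theorem exists_smooth_approx {Ω : Set ℂ} (hΩ : Dom Ω) {v : ℂ → ℝ} (hv : Adm Ω v) {η : ℝ}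
    (hη : 0 < η) : ∃ u : ℂ → ℝ, ContDiff ℝ ∞ u ∧ HasCompactSupport u ∧ tsupport u ⊆ Ω ∧
      energy u ≤ energy v ∧ (∀ x, |u x - v x| ≤ η) ∧ ((∀ x, 0 ≤ v x) → ∀ x, 0 ≤ u x) := by
  have hvc := hv.hasCompactSupport hΩ
  obtain ⟨⟨K, hK⟩, hv0⟩ := hv
  let δ : ℝ := η / 2
  have hδ : 0 < δ := by positivity
  let w : ℂ → ℝ := fun x => soft δ (v x)
  have hwd : ∀ x y, |w y - w x| ≤ |v y - v x| := fun x y => abs_soft_sub_le hδ.le _ _
  have hwK : LipschitzWith K w := LipschitzWith.of_dist_le_mul fun x y => by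
    rw [Real.dist_eq]
    exact (hwd y x).trans (by rw [← Real.dist_eq]; exact hK.dist_le_mul x y)
  have hwt : tsupport w ⊆ {x | δ ≤ |v x|} := by
    refine closure_minimal ?_ (isClosed_le continuous_const hK.continuous.abs)
    intro x hx
    by_contra h
    rw [mem_ofPred_eq, not_le] at h
    exact hx (soft_eq_zero h.le)
  have hwΩ : tsupport w ⊆ Ω := by
    intro x hx
    by_contra h
    have h1 : δ ≤ |v x| := hwt hx
    rw [hv0 x h, abs_zero] at h1
    linarith
  have hwc : HasCompactSupport w := by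
    refine HasCompactSupport.of_support_subset_isCompact (K := tsupport v) hvc ?_
    intro x hx
    by_contra h
    apply hx
    simp only [w, image_eq_zero_of_notMem_tsupport h]
    exact soft_eq_zero (by simpa using hδ.le)
  obtain ⟨ε, hε, hεΩ⟩ := hwc.exists_cthickening_subset_open hΩ.isOpen hwΩ
  let r : ℝ := min ε (δ / (K + 1))
  have hK0 : (0:ℝ) ≤ K := K.2
  have hr : 0 < r := lt_min hε (by positivity)
  let φ : ContDiffBump (0 : ℂ) := ⟨r / 2, r, by positivity, by linarith⟩
  refine ⟨moll φ w, contDiff_moll φ hwK.continuous, ?_, ?_, ?_, ?_, ?_⟩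
  · exact φ.hasCompactSupport_normed.convolution _ hwc
  · refine (tsupport_moll_subset φ w).trans (Subset.trans ?_ hεΩ)
    exact Metric.cthickening_mono (min_le_left _ _) _
  · exact (energy_moll_le φ ⟨K, hwK⟩ hwc).trans (energy_mono_of_abs_le ⟨K, hK⟩ hvc hwd)
  · intro x
    have h1 := abs_moll_sub_le φ hwK x
    have h2 : |w x - v x| ≤ δ := abs_soft_sub_self_le hδ.le (v x)
    have h3 : (K:ℝ) * φ.rOut ≤ δ := by
      have : φ.rOut ≤ δ / (K + 1) := min_le_right _ _
      calc (K:ℝ) * φ.rOut ≤ (K + 1) * (δ / (K + 1)) := by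
            refine mul_le_mul (by linarith) this φ.rOut_pos.le (by positivity)
        _ = δ := by field_simp
    have h4 : moll φ w x - v x = (moll φ w x - w x) + (w x - v x) := by ring
    rw [h4]
    refine (abs_add_le _ _).trans ?_
    have : δ + δ = η := by simp only [δ]; ring
    linarith
  · intro h0
    exact moll_nonneg φ fun x => soft_nonneg hδ.le (h0 x)

/-! ### `lam1` -/

/-- the set of Rayleigh quotients -/
def raySet (Ω : Set ℂ) : Set ℝ :=
  {R : ℝ | ∃ u : ℂ → ℝ, ContDiff ℝ ∞ u ∧ HasCompactSupport u ∧ tsupport u ⊆ Ω ∧ u ≠ 0 ∧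
    R = energy u / mass u}

theorem lam1_eq (Ω : Set ℂ) : lam1 Ω = sInf (raySet Ω) := rfl

theorem raySet_nonneg (Ω : Set ℂ) : ∀ R ∈ raySet Ω, 0 ≤ R := by
  rintro R ⟨u, _, _, _, _, rfl⟩
  exact div_nonneg (energy_nonneg u) (mass_nonneg u)

theorem raySet_bddBelow (Ω : Set ℂ) : BddBelow (raySet Ω) := ⟨0, fun R hR => raySet_nonneg Ω R hR⟩

theorem lam1_nonneg (Ω : Set ℂ) : 0 ≤ lam1 Ω := Real.sInf_nonneg (raySet_nonneg Ω)

theorem mass_pos {u : ℂ → ℝ} (hu : Continuous u) (hc : HasCompactSupport u) (h0 : u ≠ 0) :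
    0 < mass u := by
  refine Continuous.integral_pos_of_hasCompactSupport_nonneg_nonzero (by fun_prop) ?_
    (fun x => sq_nonneg _) (x := (Function.ne_iff.1 h0).choose) ?_
  · refine HasCompactSupport.of_support_subset_isCompact (K := tsupport u) hc ?_
    intro x hx
    by_contra h
    exact hx (by simp [image_eq_zero_of_notMem_tsupport h])
  · exact pow_ne_zero 2 (Function.ne_iff.1 h0).choose_spec

theorem lam1_mul_mass_le_of_smooth {Ω : Set ℂ} {u : ℂ → ℝ} (hu : ContDiff ℝ ∞ u)
    (hc : HasCompactSupport u) (hs : tsupport u ⊆ Ω) : lam1 Ω * mass u ≤ energy u := by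
  by_cases h0 : u = 0
  · subst h0
    simp [mass, energy_nonneg]
  · have h1 : lam1 Ω ≤ energy u / mass u :=
      csInf_le (raySet_bddBelow Ω) ⟨u, hu, hc, hs, h0, rfl⟩
    exact (le_div_iff₀ (mass_pos hu.continuous hc h0)).1 h1

theorem tendsto_mass {Ω : Set ℂ} (hΩ : Dom Ω) {v : ℂ → ℝ} (hv : Adm Ω v) (u : ℕ → ℂ → ℝ)
    (hu : ∀ n, Continuous (u n)) (hs : ∀ n, tsupport (u n) ⊆ Ω)
    (h : ∀ (n : ℕ) x, |u n x - v x| ≤ 1 / ((n : ℝ) + 1)) :
    Tendsto (fun n => mass (u n)) atTop (𝓝 (mass v)) := by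
  have hvc := hv.hasCompactSupport hΩ
  obtain ⟨B, hB⟩ := hvc.exists_bound_of_continuous hv.1.continuous
  have hB0 : 0 ≤ B := (norm_nonneg (v 0)).trans (hB 0)
  have hn1 : ∀ n : ℕ, 1 / ((n : ℝ) + 1) ≤ 1 := fun n => by
    rw [div_le_one (by positivity)]
    have : (0:ℝ) ≤ n := Nat.cast_nonneg n
    linarith
  refine tendsto_integral_of_dominated_convergence (Ω.indicator fun _ => (B + 1) ^ 2) ?_ ?_ ?_ ?_
  · exact fun n => ((hu n).pow 2).aestronglyMeasurable
  · rw [integrable_indicator_iff hΩ.isOpen.measurableSet]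
    exact integrableOn_const hΩ.bounded.measure_lt_top.ne
  · intro n
    filter_upwards with x
    by_cases hx : x ∈ Ω
    · rw [indicator_of_mem hx, norm_pow, Real.norm_eq_abs]
      refine pow_le_pow_left₀ (abs_nonneg _) ?_ 2
      have h1 := h n x
      have h2 : |v x| ≤ B := hB x
      have h3 : u n x = (u n x - v x) + v x := by ring
      rw [h3]
      exact (abs_add_le _ _).trans (by linarith [hn1 n])
    · rw [indicator_of_notMem hx, image_eq_zero_of_notMem_tsupport fun h => hx (hs n h)]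
      simp
  · filter_upwards with x
    refine Tendsto.pow ?_ 2
    rw [tendsto_iff_norm_sub_tendsto_zero]
    refine squeeze_zero (fun n => norm_nonneg _) (fun n => h n x) ?_
    exact tendsto_one_div_add_atTop_nhds_zero_nat

theorem lam1_mul_mass_le {Ω : Set ℂ} (hΩ : Dom Ω) {v : ℂ → ℝ} (hv : Adm Ω v) :
    lam1 Ω * mass v ≤ energy v := by
  choose u h1 h2 h3 h4 h5 _ using fun n : ℕ =>
    exists_smooth_approx hΩ hv (η := 1 / ((n : ℝ) + 1)) (by positivity)
  have ht := tendsto_mass hΩ hv u (fun n => (h1 n).continuous) h3 h5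
  refine le_of_tendsto (ht.const_mul (lam1 Ω)) (Eventually.of_forall fun n => ?_)
  exact (lam1_mul_mass_le_of_smooth (h1 n) (h2 n) (h3 n)).trans (h4 n)

theorem Lip.of_contDiff {u : ℂ → ℝ} (hu : ContDiff ℝ ∞ u) (hc : HasCompactSupport u) : Lip u := by
  have h1 : ContDiff ℝ 1 u := hu.of_le (by exact_mod_cast le_top)
  exact h1.lipschitzWith_of_hasCompactSupport hc (by norm_num)

/-- Poincare's inequality. -/
theorem mass_le_energy {u : ℂ → ℝ} (hu : ContDiff ℝ ∞ u) (hc : HasCompactSupport u) {R : ℝ}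
    (_hR : 0 ≤ R) (hs : ∀ x ∈ tsupport u, ‖x‖ ≤ R) : mass u ≤ 4 * R ^ 2 * energy u := by
  have hu2 : ContDiff ℝ ∞ (fun x => u x ^ 2) := hu.pow 2
  have hu2s : tsupport (fun x => u x ^ 2) ⊆ tsupport u := by
    refine closure_mono ?_
    intro x hx h
    exact hx (by simp [h])
  have hu2c : HasCompactSupport (fun x => u x ^ 2) :=
    IsCompact.of_isClosed_subset hc (isClosed_tsupport _) hu2s
  have hre : ContDiff ℝ 1 (fun z : ℂ => z.re) := Complex.reCLM.contDiff
  have key := integral_fderiv_mul (Lip.of_contDiff hu2 hu2c) hu2c hre 1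
  have hre1 : ∀ x : ℂ, fderiv ℝ (fun z : ℂ => z.re) x 1 = 1 := by
    intro x
    have : HasFDerivAt (fun z : ℂ => z.re) Complex.reCLM x := Complex.reCLM.hasFDerivAt
    rw [this.fderiv]; simp
  simp only [hre1, mul_one] at key
  have hd : ∀ x, fderiv ℝ (fun x => u x ^ 2) x 1 = 2 * u x * fderiv ℝ u x 1 := by
    intro x
    have h1 := (hu.differentiable (by simp) x).hasFDerivAt
    have h2 := (h1.pow 2).fderiv
    rw [h2]
    simp
  have hmass : Integrable (fun x => u x ^ 2) :=
    Continuous.integrable_of_hasCompactSupport hu2.continuous hu2c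
  have hen := integrable_norm_fderiv_sq (Lip.of_contDiff hu hc) hc
  have hle : -∫ x, fderiv ℝ (fun x => u x ^ 2) x 1 * x.re ≤
      ∫ x, (1 / 2 * u x ^ 2 + 2 * R ^ 2 * ‖fderiv ℝ u x‖ ^ 2) := by
    rw [← integral_neg]
    refine integral_mono ?_ ((hmass.const_mul _).add (hen.const_mul _)) ?_
    · exact (integrable_fderiv_mul (Lip.of_contDiff hu2 hu2c) hu2c Complex.continuous_re 1).neg
    · intro x
      simp only [hd]
      by_cases hx : x ∈ tsupport u
      · have h1 : |x.re| ≤ R := (Complex.abs_re_le_norm x).trans (hs x hx)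
        have h2 : |fderiv ℝ u x 1| ≤ ‖fderiv ℝ u x‖ := by
          have := (fderiv ℝ u x).le_opNorm 1
          simpa using this
        have h3 : -(2 * u x * fderiv ℝ u x 1 * x.re) ≤ 2 * |u x| * ‖fderiv ℝ u x‖ * R := by
          refine (neg_le_abs _).trans ?_
          rw [abs_mul, abs_mul, abs_mul, abs_two]
          gcongr
        refine h3.trans ?_
        have h4 := sq_nonneg (|u x| - 2 * R * ‖fderiv ℝ u x‖)
        have h5 : |u x| ^ 2 = u x ^ 2 := sq_abs _
        nlinarith
      · rw [image_eq_zero_of_notMem_tsupport hx]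
        simp only [mul_zero, zero_mul, neg_zero]
        positivity
  rw [key, neg_neg, integral_add (hmass.const_mul _) (hen.const_mul _), integral_const_mul,
    integral_const_mul] at hle
  unfold mass energy
  linarith

theorem raySet_nonempty {Ω : Set ℂ} (hΩ : Dom Ω) : (raySet Ω).Nonempty := by
  obtain ⟨z, hz⟩ := hΩ.nonempty
  obtain ⟨ε, hε, hb⟩ := Metric.isOpen_iff.1 hΩ.isOpen z hz
  let φ : ContDiffBump z := ⟨ε / 4, ε / 2, by positivity, by linarith⟩
  refine ⟨_, φ, φ.contDiff, φ.hasCompactSupport, ?_, ?_, rfl⟩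
  · rw [φ.tsupport_eq]
    exact (Metric.closedBall_subset_ball (by simp only [φ]; linarith)).trans hb
  · intro h
    have h1 : φ z = 1 := φ.one_of_mem_closedBall (Metric.mem_closedBall_self φ.rIn_pos.le)
    rw [h] at h1
    exact zero_ne_one h1

theorem lam1_pos {Ω : Set ℂ} (hΩ : Dom Ω) : 0 < lam1 Ω := by
  obtain ⟨R, hR⟩ := hΩ.bounded.subset_closedBall 0
  set R' : ℝ := max R 1 with hR'
  have hR1 : 0 < R' := lt_of_lt_of_le one_pos (le_max_right _ _)
  have h1 : 1 / (4 * R' ^ 2) ≤ lam1 Ω := by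
    refine le_csInf (raySet_nonempty hΩ) ?_
    rintro _ ⟨u, hu, hc, hs, h0, rfl⟩
    have hm := mass_pos hu.continuous hc h0
    rw [div_le_div_iff₀ (by positivity) hm, one_mul]
    have := mass_le_energy hu hc hR1.le (fun x hx => by
      have := hR (hs hx)
      rw [mem_closedBall_zero_iff] at this
      exact this.trans (le_max_left _ _))
    linarith
  exact lt_of_lt_of_le (by positivity) h1

theorem energy_const_mul {c : ℝ} {u : ℂ → ℝ} (hu : Differentiable ℝ u) :
    energy (fun x => c * u x) = c ^ 2 * energy u := by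
  unfold energy
  rw [← integral_const_mul]
  refine integral_congr_ae (Eventually.of_forall fun x => ?_)
  have : fderiv ℝ (fun x => c * u x) x = c • fderiv ℝ u x := by
    exact fderiv_const_mul (hu x) c
  simp only [this, norm_smul, mul_pow, Real.norm_eq_abs, sq_abs]

theorem mass_const_mul (c : ℝ) (u : ℂ → ℝ) : mass (fun x => c * u x) = c ^ 2 * mass u := by
  unfold mass
  rw [← integral_const_mul]
  refine integral_congr_ae (Eventually.of_forall fun x => ?_)
  simp only [mul_pow]

theorem exists_near_min {Ω : Set ℂ} (hΩ : Dom Ω) {ε : ℝ} (hε : 0 < ε) :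
    ∃ φ : ℂ → ℝ, ContDiff ℝ ∞ φ ∧ (∀ x, 0 ≤ φ x) ∧ HasCompactSupport φ ∧ tsupport φ ⊆ Ω ∧
      mass φ = 1 ∧ energy φ ≤ lam1 Ω + ε := by
  obtain ⟨_, ⟨ψ, hψ, hψc, hψs, hψ0, rfl⟩, hlt⟩ := exists_lt_of_csInf_lt (raySet_nonempty hΩ)
    (show sInf (raySet Ω) < lam1 Ω + ε by rw [← lam1_eq]; linarith)
  have hψL := Lip.of_contDiff hψ hψc
  let v : ℂ → ℝ := fun x => |ψ x|
  have hvd : ∀ x y, |v y - v x| ≤ |ψ y - ψ x| := fun x y => abs_abs_sub_abs_le _ _
  have hv : Adm Ω v := by
    refine ⟨?_, fun x hx => ?_⟩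
    · obtain ⟨K, hK⟩ := hψL
      refine ⟨K, LipschitzWith.of_dist_le_mul fun x y => ?_⟩
      rw [Real.dist_eq]
      exact (hvd y x).trans (by rw [← Real.dist_eq]; exact hK.dist_le_mul x y)
    · simp only [v, image_eq_zero_of_notMem_tsupport fun h => hx (hψs h), abs_zero]
  have hve : energy v ≤ energy ψ := energy_mono_of_abs_le hψL hψc hvd
  have hvm : mass v = mass ψ := by
    unfold mass
    refine integral_congr_ae (Eventually.of_forall fun x => ?_)
    simp only [v, sq_abs]
  have hmψ := mass_pos hψ.continuous hψc hψ0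
  choose u h1 h2 h3 h4 h5 h6 using fun n : ℕ =>
    exists_smooth_approx hΩ hv (η := 1 / ((n : ℝ) + 1)) (by positivity)
  have ht := tendsto_mass hΩ hv u (fun n => (h1 n).continuous) h3 h5
  rw [hvm] at ht
  have ht2 : Tendsto (fun n => energy ψ / mass (u n)) atTop (𝓝 (energy ψ / mass ψ)) :=
    tendsto_const_nhds.div ht hmψ.ne'
  obtain ⟨n, hn1, hn2⟩ := ((ht2.eventually (gt_mem_nhds hlt)).and
    (ht.eventually (lt_mem_nhds hmψ))).exists
  have hsq : (Real.sqrt (mass (u n))) ^ 2 = mass (u n) := Real.sq_sqrt hn2.le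
  have hcsq : ((Real.sqrt (mass (u n)))⁻¹) ^ 2 = (mass (u n))⁻¹ := by rw [inv_pow, hsq]
  have hts : tsupport (fun x => (Real.sqrt (mass (u n)))⁻¹ * u n x) ⊆ tsupport (u n) := by
    refine closure_mono ?_
    intro x hx h
    exact hx (by simp [h])
  refine ⟨fun x => (Real.sqrt (mass (u n)))⁻¹ * u n x, contDiff_const.mul (h1 n), ?_, ?_, ?_, ?_,
    ?_⟩
  · intro x
    exact mul_nonneg (by positivity) (h6 n (fun x => abs_nonneg _) x)
  · exact IsCompact.of_isClosed_subset (h2 n) (isClosed_tsupport _) hts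
  · exact hts.trans (h3 n)
  · rw [mass_const_mul, hcsq, inv_mul_cancel₀ hn2.ne']
  · rw [energy_const_mul ((h1 n).differentiable (by simp)), hcsq, ← div_eq_inv_mul]
    refine le_trans ?_ hn1.le
    exact div_le_div_of_nonneg_right ((h4 n).trans hve) hn2.le

theorem exists_minimizing_seq {Ω : Set ℂ} (hΩ : Dom Ω) :
    ∃ φ : ℕ → ℂ → ℝ, (∀ n, ContDiff ℝ ∞ (φ n)) ∧ (∀ n x, 0 ≤ φ n x) ∧
      (∀ n, HasCompactSupport (φ n)) ∧ (∀ n, tsupport (φ n) ⊆ Ω) ∧ (∀ n, mass (φ n) = 1) ∧
      Filter.Tendsto (fun n => energy (φ n)) Filter.atTop (𝓝 (lam1 Ω)) := by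
  choose φ h1 h2 h3 h4 h5 h6 using fun n : ℕ =>
    exists_near_min hΩ (ε := 1 / ((n : ℝ) + 1)) (by positivity)
  refine ⟨φ, h1, h2, h3, h4, h5, ?_⟩
  have hu : Tendsto (fun n : ℕ => lam1 Ω + 1 / ((n : ℝ) + 1)) atTop (𝓝 (lam1 Ω)) := by
    have := (tendsto_one_div_add_atTop_nhds_zero_nat (𝕜 := ℝ)).const_add (lam1 Ω)
    rwa [add_zero] at this
  refine tendsto_of_tendsto_of_tendsto_of_le_of_le tendsto_const_nhds hu (fun n => ?_) h6
  have := lam1_mul_mass_le_of_smooth (h1 n) (h3 n) (h4 n)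
  rwa [h5 n, mul_one] at this

end

end Pool.Agent.Lib.MP_4cfb03_an
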