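import Pool.Agent.Lib.MP_4cfb03_an.Slice
import Pool.Agent.Lib.MP_4cfb03_an.Sob
import Pool.Agent.Lib.MP_4cfb03_an.Rellich

/-! # The ground state of a convex domain -/

open MeasureTheory Set Filter
open scoped ENNReal ContDiff Topology

namespace Pool.Agent.Lib.MP_4cfb03_an

noncomputable section

/-! ## Square integrable functions -/

section L2

variable {E : Type*} [NormedAddCommGroup E]

theorem gs_integral_sq_eq {f : ℂ → E} (hf : MemLp f 2 volume) :
    ‖hf.toLp f‖ ^ 2 = ∫ x, ‖f x‖ ^ 2 := by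
  rw [Lp.norm_toLp, hf.eLpNorm_eq_integral_rpow_norm (by norm_num) (by norm_num)]
  rw [ENNReal.toReal_ofReal (by positivity)]
  simp only [ENNReal.toReal_ofNat, Real.rpow_ofNat]
  rw [← Real.rpow_natCast, ← Real.rpow_mul (integral_nonneg fun x => by positivity)]
  norm_num

theorem gs_integrable_sq {f : ℂ → E} (hf : MemLp f 2 volume) :
    Integrable (fun x => ‖f x‖ ^ 2) := by
  exact hf.integrable_norm_pow (by norm_num)

theorem gs_tendsto_toLp {f : ℕ → ℂ → E} {g : ℂ → E} (hf : ∀ n, MemLp (f n) 2 volume)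
    (hg : MemLp g 2 volume) (h : Tendsto (fun n => ∫ x, ‖f n x - g x‖ ^ 2) atTop (𝓝 0)) :
    Tendsto (fun n => (hf n).toLp (f n)) atTop (𝓝 (hg.toLp g)) := by
  rw [tendsto_iff_norm_sub_tendsto_zero]
  have h1 : ∀ n, ‖(hf n).toLp (f n) - hg.toLp g‖ = Real.sqrt (∫ x, ‖f n x - g x‖ ^ 2) := by
    intro n
    rw [← MemLp.toLp_sub (hf n) hg]
    have := gs_integral_sq_eq ((hf n).sub hg)
    simp only [Pi.sub_apply] at this
    rw [← this, Real.sqrt_sq (norm_nonneg _)]
  simp only [h1]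
  have := (Real.continuous_sqrt.tendsto 0).comp h
  simpa [Function.comp_def] using this

theorem gs_tendsto_integral_sq {f : ℕ → ℂ → E} {g : ℂ → E} (hf : ∀ n, MemLp (f n) 2 volume)
    (hg : MemLp g 2 volume) (h : Tendsto (fun n => ∫ x, ‖f n x - g x‖ ^ 2) atTop (𝓝 0)) :
    Tendsto (fun n => ∫ x, ‖f n x‖ ^ 2) atTop (𝓝 (∫ x, ‖g x‖ ^ 2)) := by
  have h1 := ((gs_tendsto_toLp hf hg h).norm).pow 2
  simpa only [gs_integral_sq_eq] using h1

/-- If `|F n| ≤ ‖g n‖ ‖m‖` with `g n → 0` in `L²` and `m ∈ L²` then `∫ F n → 0`. -/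
theorem gs_tendsto_zero_of_le {G : Type*} [NormedAddCommGroup G] {F : ℕ → ℂ → ℝ}
    {g : ℕ → ℂ → E} {m : ℂ → G} (hg : ∀ n, MemLp (g n) 2 volume) (hm : MemLp m 2 volume)
    (hF : ∀ n, ∀ᵐ x, |F n x| ≤ ‖g n x‖ * ‖m x‖)
    (h : Tendsto (fun n => ∫ x, ‖g n x‖ ^ 2) atTop (𝓝 0)) :
    Tendsto (fun n => ∫ x, F n x) atTop (𝓝 0) := by
  set B := ∫ x, ‖m x‖ ^ 2 with hB
  have hB0 : 0 ≤ B := integral_nonneg fun x => by positivity
  have key : ∀ n, |∫ x, F n x| ≤ Real.sqrt (∫ x, ‖g n x‖ ^ 2) * (1 + B) := by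
    intro n
    set A := ∫ x, ‖g n x‖ ^ 2 with hA
    have hA0 : 0 ≤ A := integral_nonneg fun x => by positivity
    have hi1 := gs_integrable_sq (hg n)
    have hi2 := gs_integrable_sq hm
    -- the bound for every positive parameter
    have hb : ∀ e : ℝ, 0 < e → |∫ x, F n x| ≤ A / e + e * B := by
      intro e he
      have h1 : |∫ x, F n x| ≤ ∫ x, (‖g n x‖ ^ 2 / e + e * ‖m x‖ ^ 2) := by
        rw [← Real.norm_eq_abs]
        apply norm_integral_le_of_norm_le
        · exact (hi1.div_const e).add (hi2.const_mul e)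
        · filter_upwards [hF n] with x hx
          rw [Real.norm_eq_abs]
          refine hx.trans ?_
          have h2 : 0 ≤ (‖g n x‖ - e * ‖m x‖) ^ 2 := sq_nonneg _
          have h3 : ‖g n x‖ ^ 2 / e + e * ‖m x‖ ^ 2 = (‖g n x‖ ^ 2 + (e * ‖m x‖) ^ 2) / e := by
            field_simp
          rw [h3, le_div_iff₀ he]
          have h4 : 0 ≤ ‖g n x‖ := norm_nonneg _
          have h5 : 0 ≤ ‖m x‖ := norm_nonneg _
          nlinarith [mul_nonneg h4 (mul_nonneg h5 he.le)]
      rw [integral_add (hi1.div_const e) (hi2.const_mul e), integral_div, integral_const_mul] at h1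
      exact h1
    rcases eq_or_lt_of_le hA0 with h0 | hpos
    · rw [← h0]
      simp only [Real.sqrt_zero, zero_mul]
      have hlim : Tendsto (fun e : ℝ => A / e + e * B) (𝓝[>] 0) (𝓝 0) := by
        rw [← h0]
        simp only [zero_div, zero_add]
        have : Tendsto (fun e : ℝ => e * B) (𝓝 0) (𝓝 (0 * B)) :=
          (continuous_id.mul continuous_const).tendsto 0
        rw [zero_mul] at this
        exact this.mono_left nhdsWithin_le_nhds
      exact ge_of_tendsto hlim (eventually_nhdsWithin_of_forall fun e he => hb e he)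
    · have hs : 0 < Real.sqrt A := Real.sqrt_pos.mpr hpos
      have := hb _ hs
      rw [Real.div_sqrt] at this
      linarith
  have hlim : Tendsto (fun n => Real.sqrt (∫ x, ‖g n x‖ ^ 2) * (1 + B)) atTop (𝓝 0) := by
    have := ((Real.continuous_sqrt.tendsto 0).comp h).mul_const (1 + B)
    simpa [Function.comp_def] using this
  exact squeeze_zero_norm (fun n => by rw [Real.norm_eq_abs]; exact key n) hlim

end L2

/-! ## The bilinear form `dot` -/

theorem gs_dot_abs_le (L M : ℂ →L[ℝ] ℝ) : |dot L M| ≤ ‖L‖ * ‖M‖ := by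
  apply abs_le_of_sq_le_sq _ (by positivity)
  rw [mul_pow, norm_sq_eq_dot, norm_sq_eq_dot]
  unfold dot
  nlinarith [sq_nonneg (L 1 * M Complex.I - L Complex.I * M 1)]

theorem gs_norm_add_smul_sq (L M : ℂ →L[ℝ] ℝ) (t : ℝ) :
    ‖L + t • M‖ ^ 2 = ‖L‖ ^ 2 + 2 * t * dot L M + t ^ 2 * ‖M‖ ^ 2 := by
  rw [norm_sq_eq_dot, norm_sq_eq_dot, norm_sq_eq_dot]
  simp only [dot, add_apply, smul_apply, smul_eq_mul]
  ring

theorem gs_norm_sub_sq (L M : ℂ →L[ℝ] ℝ) :
    ‖L - M‖ ^ 2 + ‖L + M‖ ^ 2 = 2 * ‖L‖ ^ 2 + 2 * ‖M‖ ^ 2 := by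
  simp only [norm_sq_eq_dot, dot, add_apply, sub_apply]
  ring

theorem gs_dot_sub_left (L L' M : ℂ →L[ℝ] ℝ) : dot (L - L') M = dot L M - dot L' M := by
  simp only [dot, sub_apply]
  ring

theorem gs_memLp_apply {V : ℂ → ℂ →L[ℝ] ℝ} (hV : MemLp V 2 volume) (z : ℂ) :
    MemLp (fun x => V x z) 2 volume :=
  (ContinuousLinearMap.apply ℝ ℝ z).comp_memLp' hV

theorem gs_integrable_dot {V W : ℂ → ℂ →L[ℝ] ℝ} (hV : MemLp V 2 volume)
    (hW : MemLp W 2 volume) : Integrable (fun x => dot (V x) (W x)) := by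
  unfold dot
  exact ((gs_memLp_apply hV 1).integrable_mul (gs_memLp_apply hW 1)).add
    ((gs_memLp_apply hV Complex.I).integrable_mul (gs_memLp_apply hW Complex.I))

/-! ## Lipschitz functions with compact support -/

theorem gs_memLp_lip {w : ℂ → ℝ} (hw : Lip w) (hc : HasCompactSupport w) :
    MemLp w 2 volume := by
  obtain ⟨K, hK⟩ := hw
  exact hK.continuous.memLp_of_hasCompactSupport hc

theorem gs_memLp_fderiv {w : ℂ → ℝ} (hw : Lip w) (hc : HasCompactSupport w) :
    MemLp (fderiv ℝ w) 2 volume := by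
  obtain ⟨K, hK⟩ := hw
  have hm : MemLp ((tsupport w).indicator fun _ => (K : ℝ)) 2 (volume : Measure ℂ) :=
    memLp_indicator_const 2 (isClosed_tsupport w).measurableSet _
      (Or.inr hc.isCompact.measure_lt_top.ne)
  refine hm.mono (measurable_fderiv ℝ w).aestronglyMeasurable (Eventually.of_forall fun x => ?_)
  by_cases hx : x ∈ tsupport w
  · rw [indicator_of_mem hx]
    refine (norm_fderiv_le_of_lipschitz ℝ hK).trans ?_
    simp
  · rw [indicator_of_notMem hx]
    have h0 : fderiv ℝ w x = 0 := by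
      by_contra hne
      exact hx (support_fderiv_subset ℝ (by simpa using hne))
    rw [h0, norm_zero, norm_zero]

theorem gs_lip_of_smooth {f : ℂ → ℝ} (hf : ContDiff ℝ ∞ f) (hc : HasCompactSupport f) :
    Lip f := by
  obtain ⟨C, hC⟩ := ContDiff.lipschitzWith_of_hasCompactSupport hc hf (by simp)
  exact ⟨C, hC⟩

theorem gs_lip_add_smul {f w : ℂ → ℝ} (hf : Lip f) (hw : Lip w) (t : ℝ) :
    Lip (fun x => f x + t * w x) := by
  obtain ⟨K, hK⟩ := hf
  obtain ⟨L, hL⟩ := hw
  refine ⟨K + Real.toNNReal |t| * L, ?_⟩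
  apply hK.add
  apply LipschitzWith.of_dist_le_mul
  intro x y
  rw [Real.dist_eq, ← mul_sub, abs_mul, NNReal.coe_mul, Real.coe_toNNReal _ (abs_nonneg t),
    mul_assoc]
  apply mul_le_mul_of_nonneg_left _ (abs_nonneg t)
  rw [← Real.dist_eq]
  exact hL.dist_le_mul x y

theorem gs_fderiv_add_smul_ae {f w : ℂ → ℝ} (hf : Lip f) (hw : Lip w) (t : ℝ) :
    ∀ᵐ x, fderiv ℝ (fun x => f x + t * w x) x = fderiv ℝ f x + t • fderiv ℝ w x := by
  obtain ⟨K, hK⟩ := hf
  obtain ⟨L, hL⟩ := hw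
  filter_upwards [hK.ae_differentiableAt, hL.ae_differentiableAt] with x h1 h2
  rw [fderiv_fun_add h1 (h2.const_mul t), fderiv_const_mul h2]

theorem gs_energy_add_smul {f w : ℂ → ℝ} (hf : Lip f) (hfc : HasCompactSupport f)
    (hw : Lip w) (hwc : HasCompactSupport w) (t : ℝ) :
    energy (fun x => f x + t * w x) = energy f
      + 2 * t * (∫ x, dot (fderiv ℝ f x) (fderiv ℝ w x)) + t ^ 2 * energy w := by
  have h1 := gs_integrable_sq (gs_memLp_fderiv hf hfc)
  have h2 := gs_integrable_sq (gs_memLp_fderiv hw hwc)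
  have h3 := gs_integrable_dot (gs_memLp_fderiv hf hfc) (gs_memLp_fderiv hw hwc)
  unfold energy
  have h4 : ∫ x, ‖fderiv ℝ (fun x => f x + t * w x) x‖ ^ 2 =
      ∫ x, (‖fderiv ℝ f x‖ ^ 2 + 2 * t * dot (fderiv ℝ f x) (fderiv ℝ w x)
        + t ^ 2 * ‖fderiv ℝ w x‖ ^ 2) := by
    apply integral_congr_ae
    filter_upwards [gs_fderiv_add_smul_ae hf hw t] with x hx
    rw [hx, gs_norm_add_smul_sq]
  have h5 : Integrable (fun x => 2 * t * dot (fderiv ℝ f x) (fderiv ℝ w x)) := h3.const_mul _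
  have h6 : Integrable (fun x => ‖fderiv ℝ f x‖ ^ 2 +
      2 * t * dot (fderiv ℝ f x) (fderiv ℝ w x)) := h1.add h5
  rw [h4, integral_add h6 (h2.const_mul _), integral_add h1 h5, integral_const_mul,
    integral_const_mul]

theorem gs_mass_add_smul {f w : ℂ → ℝ} (hf : MemLp f 2 volume) (hw : MemLp w 2 volume)
    (t : ℝ) :
    mass (fun x => f x + t * w x) = mass f + 2 * t * (∫ x, f x * w x) + t ^ 2 * mass w := by
  have h1 : Integrable (fun x => f x ^ 2) := by simpa using gs_integrable_sq hf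
  have h2 : Integrable (fun x => w x ^ 2) := by simpa using gs_integrable_sq hw
  have h3 : Integrable (fun x => f x * w x) := hf.integrable_mul hw
  unfold mass
  have h4 : ∫ x, (f x + t * w x) ^ 2 =
      ∫ x, (f x ^ 2 + 2 * t * (f x * w x) + t ^ 2 * w x ^ 2) := by
    apply integral_congr_ae
    filter_upwards with x
    ring
  have h5 : Integrable (fun x => 2 * t * (f x * w x)) := h3.const_mul _
  have h6 : Integrable (fun x => f x ^ 2 + 2 * t * (f x * w x)) := h1.add h5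
  rw [h4, integral_add h6 (h2.const_mul _), integral_add h1 h5, integral_const_mul,
    integral_const_mul]

/-! ## Limits along the approximating sequence -/

section Limits

variable {Ω : Set ℂ} {φ : ℕ → ℂ → ℝ} {u : ℂ → ℝ} {V : ℂ → ℂ →L[ℝ] ℝ}

theorem GS.lip (h : GS Ω φ u V) (n : ℕ) : Lip (φ n) :=
  gs_lip_of_smooth (h.smooth n) (h.compact n)

theorem GS.adm (h : GS Ω φ u V) (n : ℕ) : Adm Ω (φ n) :=
  ⟨h.lip n, fun _ hx => image_eq_zero_of_notMem_tsupport fun hx' => hx (h.supp n hx')⟩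

theorem GS.memφ (h : GS Ω φ u V) (n : ℕ) : MemLp (φ n) 2 volume :=
  gs_memLp_lip (h.lip n) (h.compact n)

theorem GS.memDφ (h : GS Ω φ u V) (n : ℕ) : MemLp (fderiv ℝ (φ n)) 2 volume :=
  gs_memLp_fderiv (h.lip n) (h.compact n)

theorem GS.tendsto_mass (h : GS Ω φ u V) :
    Tendsto (fun n => mass (φ n)) atTop (𝓝 1) := by
  have h1 := gs_tendsto_integral_sq (f := φ) (g := u) h.memφ h.memu
    (by simpa using h.limu)
  simp only [Real.norm_eq_abs, sq_abs] at h1
  rw [h.mass_one] at h1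
  exact h1

theorem GS.tendsto_energy (h : GS Ω φ u V) :
    Tendsto (fun n => energy (φ n)) atTop (𝓝 (lam1 Ω)) := by
  have h1 := gs_tendsto_integral_sq (f := fun n => fderiv ℝ (φ n)) (g := V) h.memDφ h.memV
    h.limV
  rw [h.energy_eq] at h1
  exact h1

theorem GS.tendsto_mul (h : GS Ω φ u V) {w : ℂ → ℝ} (hw : MemLp w 2 volume) :
    Tendsto (fun n => ∫ x, φ n x * w x) atTop (𝓝 (∫ x, u x * w x)) := by
  have h1 : Tendsto (fun n => ∫ x, (φ n x - u x) * w x) atTop (𝓝 0) := by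
    apply gs_tendsto_zero_of_le (g := fun n x => φ n x - u x) (m := w)
      (fun n => (h.memφ n).sub h.memu) hw
    · intro n
      filter_upwards with x
      rw [abs_mul, Real.norm_eq_abs, Real.norm_eq_abs]
    · simpa using h.limu
  have h2 : ∀ n, ∫ x, φ n x * w x = (∫ x, (φ n x - u x) * w x) + ∫ x, u x * w x := by
    intro n
    have h3 : Integrable (fun x => (φ n x - u x) * w x) :=
      ((h.memφ n).sub h.memu).integrable_mul hw
    have h4 : Integrable (fun x => u x * w x) := h.memu.integrable_mul hw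
    rw [← integral_add h3 h4]
    apply integral_congr_ae
    filter_upwards with x
    ring
  simp only [h2]
  simpa using h1.add_const (∫ x, u x * w x)

theorem GS.tendsto_dot (h : GS Ω φ u V) {W : ℂ → ℂ →L[ℝ] ℝ} (hW : MemLp W 2 volume) :
    Tendsto (fun n => ∫ x, dot (fderiv ℝ (φ n) x) (W x)) atTop
      (𝓝 (∫ x, dot (V x) (W x))) := by
  have h1 : Tendsto (fun n => ∫ x, dot (fderiv ℝ (φ n) x - V x) (W x)) atTop (𝓝 0) := by
    apply gs_tendsto_zero_of_le (g := fun n x => fderiv ℝ (φ n) x - V x) (m := W)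
      (fun n => (h.memDφ n).sub h.memV) hW
    · intro n
      filter_upwards with x
      exact gs_dot_abs_le _ _
    · exact h.limV
  have h2 : ∀ n, ∫ x, dot (fderiv ℝ (φ n) x) (W x) =
      (∫ x, dot (fderiv ℝ (φ n) x - V x) (W x)) + ∫ x, dot (V x) (W x) := by
    intro n
    have h3 : Integrable (fun x => dot (fderiv ℝ (φ n) x - V x) (W x)) :=
      gs_integrable_dot ((h.memDφ n).sub h.memV) hW
    rw [← integral_add h3 (gs_integrable_dot h.memV hW)]
    apply integral_congr_ae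
    filter_upwards with x
    rw [gs_dot_sub_left]
    ring
  simp only [h2]
  simpa using h1.add_const (∫ x, dot (V x) (W x))

end Limits

theorem gs_eq_zero_of_forall {A B : ℝ} (h : ∀ t : ℝ, 0 ≤ 2 * t * A + t ^ 2 * B) : A = 0 := by
  by_contra hA
  have hB : 0 < |B| + 1 := by positivity
  have h1 := h (-A / (|B| + 1))
  have h2 : 2 * (-A / (|B| + 1)) * A + (-A / (|B| + 1)) ^ 2 * B =
      A ^ 2 * (B - 2 * (|B| + 1)) / (|B| + 1) ^ 2 := by
    field_simp
    ring
  rw [h2] at h1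
  have h3 : A ^ 2 * (B - 2 * (|B| + 1)) / (|B| + 1) ^ 2 < 0 := by
    apply div_neg_of_neg_of_pos _ (by positivity)
    apply mul_neg_of_pos_of_neg (by positivity)
    have := le_abs_self B
    have := abs_nonneg B
    linarith
  linarith

theorem GS.weak {Ω : Set ℂ} (hΩ : Dom Ω) {φ : ℕ → ℂ → ℝ} {u : ℂ → ℝ} {V : ℂ → ℂ →L[ℝ] ℝ}
    (h : GS Ω φ u V) {w : ℂ → ℝ} (hw : Adm Ω w) :
    ∫ x, dot (V x) (fderiv ℝ w x) = lam1 Ω * ∫ x, u x * w x := by
  have hwc := Adm.hasCompactSupport hΩ hw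
  have hw2 := gs_memLp_lip hw.1 hwc
  have hdw2 := gs_memLp_fderiv hw.1 hwc
  set D := ∫ x, dot (V x) (fderiv ℝ w x) with hD
  set b := ∫ x, u x * w x with hb
  have key : ∀ t : ℝ, 0 ≤ 2 * t * (D - lam1 Ω * b) + t ^ 2 * (energy w - lam1 Ω * mass w) := by
    intro t
    have h1 : ∀ n, lam1 Ω * (mass (φ n) + 2 * t * (∫ x, φ n x * w x) + t ^ 2 * mass w) ≤
        energy (φ n) + 2 * t * (∫ x, dot (fderiv ℝ (φ n) x) (fderiv ℝ w x))
          + t ^ 2 * energy w := by
      intro n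
      rw [← gs_mass_add_smul (h.memφ n) hw2 t,
        ← gs_energy_add_smul (h.lip n) (h.compact n) hw.1 hwc t]
      apply lam1_mul_mass_le hΩ
      refine ⟨gs_lip_add_smul (h.lip n) hw.1 t, fun x hx => ?_⟩
      show φ n x + t * w x = 0
      rw [(h.adm n).2 x hx, hw.2 x hx]
      ring
    have h2 : Tendsto (fun n => lam1 Ω * (mass (φ n) + 2 * t * (∫ x, φ n x * w x)
        + t ^ 2 * mass w)) atTop (𝓝 (lam1 Ω * (1 + 2 * t * b + t ^ 2 * mass w))) :=
      ((h.tendsto_mass.add ((h.tendsto_mul hw2).const_mul _)).add_const _).const_mul _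
    have h3 : Tendsto (fun n => energy (φ n) +
        2 * t * (∫ x, dot (fderiv ℝ (φ n) x) (fderiv ℝ w x)) + t ^ 2 * energy w) atTop
        (𝓝 (lam1 Ω + 2 * t * D + t ^ 2 * energy w)) :=
      (h.tendsto_energy.add ((h.tendsto_dot hdw2).const_mul _)).add_const _
    have h4 := le_of_tendsto_of_tendsto' h2 h3 h1
    nlinarith [h4]
  have := gs_eq_zero_of_forall key
  linarith

theorem gs_lap_continuous {w : ℂ → ℝ} (hw : ContDiff ℝ 2 w) : Continuous (lap w) := by
  unfold lap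
  have h1 : ∀ z : ℂ, Continuous (fun x => fderiv ℝ (fun y => fderiv ℝ w y z) x z) := by
    intro z
    have h2 : ContDiff ℝ 1 (fun y => fderiv ℝ w y z) :=
      (hw.fderiv_right (m := 1) (by norm_num)).clm_apply contDiff_const
    exact (h2.continuous_fderiv (by norm_num)).clm_apply continuous_const
  exact (h1 1).add (h1 Complex.I)

theorem gs_lap_compactSupport {w : ℂ → ℝ} (hc : HasCompactSupport w) :
    HasCompactSupport (lap w) := by
  have h1 : ∀ z : ℂ, HasCompactSupport (fun x => fderiv ℝ (fun y => fderiv ℝ w y z) x z) :=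
    fun z => (hc.fderiv_apply ℝ z).fderiv_apply ℝ z
  exact (h1 1).add (h1 Complex.I)

set_option linter.unusedVariables false in
theorem GS.dot_lap {Ω : Set ℂ} (hΩ : Dom Ω) {φ : ℕ → ℂ → ℝ} {u : ℂ → ℝ} {V : ℂ → ℂ →L[ℝ] ℝ}
    (h : GS Ω φ u V) {w : ℂ → ℝ} (hw : ContDiff ℝ 2 w) (hwc : HasCompactSupport w) :
    ∫ x, dot (V x) (fderiv ℝ w x) = - ∫ x, u x * lap w x := by
  have hwl : Lip w := by
    obtain ⟨C, hC⟩ := ContDiff.lipschitzWith_of_hasCompactSupport hwc hw (by norm_num)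
    exact ⟨C, hC⟩
  have h1 := h.tendsto_dot (gs_memLp_fderiv hwl hwc)
  have h2 : MemLp (lap w) 2 volume :=
    (gs_lap_continuous hw).memLp_of_hasCompactSupport (gs_lap_compactSupport hwc)
  have h3 := (h.tendsto_mul h2).neg
  simp only [integral_dot_lap (h.lip _) (h.compact _) hw] at h1
  exact tendsto_nhds_unique h1 h3

/-! ## Existence -/

theorem gs_integral_diff_sq {f g : ℂ → ℂ →L[ℝ] ℝ} (hf : MemLp f 2 volume)
    (hg : MemLp g 2 volume) :
    ∫ x, ‖f x - g x‖ ^ 2 = (∫ x, ‖f x‖ ^ 2) - 2 * (∫ x, dot (f x) (g x)) + ∫ x, ‖g x‖ ^ 2 := by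
  have h1 := gs_integrable_sq hf
  have h2 := gs_integrable_sq hg
  have h3 := gs_integrable_dot hf hg
  have h4 : ∫ x, ‖f x - g x‖ ^ 2 =
      ∫ x, (‖f x‖ ^ 2 - 2 * dot (f x) (g x) + ‖g x‖ ^ 2) := by
    apply integral_congr_ae
    filter_upwards with x
    have := gs_norm_add_smul_sq (f x) (g x) (-1)
    have h5 : f x + (-1 : ℝ) • g x = f x - g x := by
      ext z
      simp only [add_apply, smul_apply, sub_apply, smul_eq_mul]
      ring
    rw [h5] at this
    rw [this]
    ring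
  have h5 : Integrable (fun x => 2 * dot (f x) (g x)) := h3.const_mul _
  have h6 : Integrable (fun x => ‖f x‖ ^ 2 - 2 * dot (f x) (g x)) := h1.sub h5
  rw [h4, integral_add h6 h2, integral_sub h1 h5, integral_const_mul]

theorem exists_GS {Ω : Set ℂ} (hΩ : Dom Ω) : ∃ φ u V, GS Ω φ u V := by
  obtain ⟨ψ, hs, h0, hc, hsupp, hm, hE⟩ := exists_minimizing_seq hΩ
  have hl1 := lam1_pos hΩ
  obtain ⟨C, hC⟩ : ∃ C, ∀ n, energy (ψ n) ≤ C := by
    obtain ⟨C, hC⟩ := hE.bddAbove_range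
    exact ⟨C, fun n => hC ⟨n, rfl⟩⟩
  obtain ⟨σ, hσ, u0, hu0, hlim⟩ := rellich hΩ.bounded (C := max C 1) ψ hs hsupp
    (fun n => (hC n).trans (le_max_left _ _)) (fun n => by rw [hm]; exact le_max_right _ _)
  set φ : ℕ → ℂ → ℝ := fun n => ψ (σ n) with hφ
  have hl : ∀ n, Lip (φ n) := fun n => gs_lip_of_smooth (hs _) (hc _)
  have hφc : ∀ n, HasCompactSupport (φ n) := fun n => hc _
  have hφ2 : ∀ n, MemLp (φ n) 2 volume := fun n => gs_memLp_lip (hl n) (hφc n)
  have hD2 : ∀ n, MemLp (fderiv ℝ (φ n)) 2 volume := fun n => gs_memLp_fderiv (hl n) (hφc n)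
  have hEφ : Tendsto (fun n => energy (φ n)) atTop (𝓝 (lam1 Ω)) := hE.comp hσ.tendsto_atTop
  have hout : ∀ n x, x ∉ Ω → φ n x = 0 := fun n x hx =>
    image_eq_zero_of_notMem_tsupport fun hx' => hx (hsupp _ hx')
  have hmφ : ∀ n, mass (φ n) = 1 := fun n => hm _
  set d : ℕ → ℝ := fun n => ∫ x, (φ n x - u0 x) ^ 2 with hd
  have hdlim : Tendsto d atTop (𝓝 0) := hlim
  set c : ℕ → ℝ := fun n => 2 * (energy (φ n) - lam1 Ω) + 2 * lam1 Ω * d n with hc'
  have hclim : Tendsto c atTop (𝓝 0) := by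
    have h1 : Tendsto c atTop (𝓝 (2 * (lam1 Ω - lam1 Ω) + 2 * lam1 Ω * 0)) :=
      ((hEφ.sub_const _).const_mul _).add (hdlim.const_mul _)
    simpa using h1
  have hq : ∀ n m, ∫ x, (φ n x - φ m x) ^ 2 ≤ 2 * d n + 2 * d m := by
    intro n m
    have i1 : Integrable (fun x => (φ n x - u0 x) ^ 2) := by
      simpa using gs_integrable_sq ((hφ2 n).sub hu0)
    have i2 : Integrable (fun x => (φ m x - u0 x) ^ 2) := by
      simpa using gs_integrable_sq ((hφ2 m).sub hu0)
    have i3 : Integrable (fun x => (φ n x - φ m x) ^ 2) := by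
      simpa using gs_integrable_sq ((hφ2 n).sub (hφ2 m))
    calc ∫ x, (φ n x - φ m x) ^ 2
        ≤ ∫ x, (2 * (φ n x - u0 x) ^ 2 + 2 * (φ m x - u0 x) ^ 2) := by
          apply integral_mono i3 ((i1.const_mul 2).add (i2.const_mul 2))
          intro x
          show (φ n x - φ m x) ^ 2 ≤ 2 * (φ n x - u0 x) ^ 2 + 2 * (φ m x - u0 x) ^ 2
          nlinarith [sq_nonneg ((φ n x - u0 x) + (φ m x - u0 x))]
      _ = 2 * d n + 2 * d m := by
          rw [integral_add (i1.const_mul 2) (i2.const_mul 2), integral_const_mul,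
            integral_const_mul]
  have hdiff : ∀ n m, ∫ x, ‖fderiv ℝ (φ n) x - fderiv ℝ (φ m) x‖ ^ 2 ≤ c n + c m := by
    intro n m
    rw [gs_integral_diff_sq (hD2 n) (hD2 m)]
    have e1 := gs_energy_add_smul (hl n) (hφc n) (hl m) (hφc m) 1
    have e2 := gs_mass_add_smul (hφ2 n) (hφ2 m) 1
    have e3 := gs_mass_add_smul (hφ2 n) (hφ2 m) (-1)
    have e4 : lam1 Ω * mass (fun x => φ n x + 1 * φ m x) ≤
        energy (fun x => φ n x + 1 * φ m x) := by
      apply lam1_mul_mass_le hΩ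
      refine ⟨gs_lip_add_smul (hl n) (hl m) 1, fun x hx => ?_⟩
      show φ n x + 1 * φ m x = 0
      rw [hout n x hx, hout m x hx]
      ring
    have e5 : mass (fun x => φ n x + -1 * φ m x) ≤ 2 * d n + 2 * d m := by
      refine le_trans (le_of_eq ?_) (hq n m)
      unfold mass
      congr 1
      ext x
      ring
    rw [hmφ, hmφ] at e2 e3
    rw [e1, e2] at e4
    rw [e3] at e5
    have e6 : (∫ x, ‖fderiv ℝ (φ n) x‖ ^ 2) = energy (φ n) := rfl
    have e7 : (∫ x, ‖fderiv ℝ (φ m) x‖ ^ 2) = energy (φ m) := rfl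
    rw [e6, e7]
    simp only [hc']
    nlinarith [mul_le_mul_of_nonneg_left e5 hl1.le]
  -- the limit of the gradients
  set F : ℕ → Lp (ℂ →L[ℝ] ℝ) 2 (volume : Measure ℂ) := fun n => (hD2 n).toLp _ with hF
  have hFdiff : ∀ n m, ‖F n - F m‖ ^ 2 ≤ c n + c m := by
    intro n m
    have h1 := gs_integral_sq_eq ((hD2 n).sub (hD2 m))
    rw [MemLp.toLp_sub (hD2 n) (hD2 m)] at h1
    simp only [hF]
    rw [h1]
    exact hdiff n m
  have hcauchy : CauchySeq F := by
    rw [Metric.cauchySeq_iff]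
    intro ε hε
    have h1 : ∀ᶠ n in atTop, c n < ε ^ 2 / 2 := hclim.eventually_lt_const (by positivity)
    obtain ⟨N, hN⟩ := eventually_atTop.mp h1
    refine ⟨N, fun m hm n hn => ?_⟩
    rw [dist_eq_norm]
    apply lt_of_pow_lt_pow_left₀ 2 hε.le
    have := hFdiff m n
    have h2 := hN m hm
    have h3 := hN n hn
    linarith
  obtain ⟨G, hG⟩ := cauchySeq_tendsto_of_complete hcauchy
  have hGlim : Tendsto (fun n => ∫ x, ‖fderiv ℝ (φ n) x - G x‖ ^ 2) atTop (𝓝 0) := by
    have h1 : ∀ n, ∫ x, ‖fderiv ℝ (φ n) x - G x‖ ^ 2 = ‖F n - G‖ ^ 2 := by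
      intro n
      have h2 := gs_integral_sq_eq ((hD2 n).sub (Lp.memLp G))
      rw [MemLp.toLp_sub (hD2 n) (Lp.memLp G), Lp.toLp_coeFn] at h2
      rw [hF]
      exact h2.symm
    simp only [h1]
    have h2 := (tendsto_iff_norm_sub_tendsto_zero.mp hG).pow 2
    simpa using h2
  -- the representatives
  obtain ⟨u1, hu1m, hu1⟩ := hu0.1
  have hu1m' : Measurable u1 := hu1m.measurable
  have hΩm : MeasurableSet Ω := hΩ.isOpen.measurableSet
  set u : ℂ → ℝ := Ω.indicator (fun x => max (u1 x) 0) with hu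
  set V : ℂ → ℂ →L[ℝ] ℝ := Ω.indicator (fun x => G x) with hV
  have hum : Measurable u := (hu1m'.max measurable_const).indicator hΩm
  have hVm : Measurable V := (Lp.stronglyMeasurable G).measurable.indicator hΩm
  have hu1L : MemLp u1 2 volume := (memLp_congr_ae hu1).mp hu0
  have hu2 : MemLp u 2 volume := by
    refine hu1L.mono hum.aestronglyMeasurable (Eventually.of_forall fun x => ?_)
    by_cases hx : x ∈ Ω
    · rw [hu, indicator_of_mem hx, Real.norm_eq_abs, Real.norm_eq_abs,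
        abs_of_nonneg (le_max_right _ _)]
      exact max_le (le_abs_self _) (abs_nonneg _)
    · rw [hu, indicator_of_notMem hx, norm_zero]
      exact norm_nonneg _
  have hV2 : MemLp V 2 volume := by
    refine (Lp.memLp G).mono hVm.aestronglyMeasurable (Eventually.of_forall fun x => ?_)
    by_cases hx : x ∈ Ω
    · rw [hV, indicator_of_mem hx]
    · rw [hV, indicator_of_notMem hx, norm_zero]
      exact norm_nonneg _
  have hulim : Tendsto (fun n => ∫ x, (φ n x - u x) ^ 2) atTop (𝓝 0) := by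
    refine squeeze_zero (fun n => integral_nonneg fun x => sq_nonneg _) (fun n => ?_) hdlim
    have i1 : Integrable (fun x => (φ n x - u0 x) ^ 2) := by
      simpa using gs_integrable_sq ((hφ2 n).sub hu0)
    have i2 : Integrable (fun x => (φ n x - u x) ^ 2) := by
      simpa using gs_integrable_sq ((hφ2 n).sub hu2)
    apply integral_mono_ae i2 i1
    filter_upwards [hu1] with x hx1
    show (φ n x - u x) ^ 2 ≤ (φ n x - u0 x) ^ 2
    rw [hx1]
    by_cases hx : x ∈ Ω
    · rw [hu, indicator_of_mem hx]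
      rcases le_total (u1 x) 0 with h1 | h1
      · rw [max_eq_right h1]
        nlinarith [h0 (σ n) x]
      · rw [max_eq_left h1]
    · rw [hu, indicator_of_notMem hx, hout n x hx]
      nlinarith [sq_nonneg (u1 x)]
  have hVlim : Tendsto (fun n => ∫ x, ‖fderiv ℝ (φ n) x - V x‖ ^ 2) atTop (𝓝 0) := by
    refine squeeze_zero (fun n => integral_nonneg fun x => sq_nonneg _) (fun n => ?_) hGlim
    apply integral_mono (gs_integrable_sq ((hD2 n).sub hV2))
      (gs_integrable_sq ((hD2 n).sub (Lp.memLp G)))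
    intro x
    show ‖fderiv ℝ (φ n) x - V x‖ ^ 2 ≤ ‖fderiv ℝ (φ n) x - G x‖ ^ 2
    by_cases hx : x ∈ Ω
    · rw [hV, indicator_of_mem hx]
    · have h1 : fderiv ℝ (φ n) x = 0 := by
        by_contra hne
        exact hx (hsupp _ (support_fderiv_subset ℝ (by simpa using hne)))
      rw [hV, indicator_of_notMem hx, h1, sub_zero, norm_zero]
      simp
  refine ⟨φ, u, V, ?_⟩
  refine
    { smooth := fun n => hs _
      nonneg := fun n x => h0 _ x
      compact := hφc
      supp := fun n => hsupp _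
      u_meas := hum
      V_meas := hVm
      u_nonneg := fun x => indicator_nonneg (fun x _ => le_max_right _ _) x
      u_out := fun x hx => indicator_of_notMem hx _
      V_out := fun x hx => indicator_of_notMem hx _
      memu := hu2
      memV := hV2
      limu := hulim
      limV := hVlim
      mass_one := ?_
      energy_eq := ?_ }
  · have h1 := gs_tendsto_integral_sq (f := φ) (g := u) hφ2 hu2 (by simpa using hulim)
    simp only [Real.norm_eq_abs, sq_abs] at h1
    have h2 : ∀ n, ∫ x, φ n x ^ 2 = 1 := hmφ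
    simp only [h2] at h1
    exact tendsto_nhds_unique h1 tendsto_const_nhds
  · have h1 := gs_tendsto_integral_sq (f := fun n => fderiv ℝ (φ n)) (g := V) hD2 hV2 hVlim
    exact tendsto_nhds_unique h1 hEφ

end

end Pool.Agent.Lib.MP_4cfb03_an
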