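import Pool.Agent.Lib.MP_4cfb03_an.Defs

/-! T2 Slice : Crofton's formula for Lipschitz functions in the plane. -/

open MeasureTheory Set
open scoped ENNReal ContDiff Topology

namespace Pool.Agent.Lib.MP_4cfb03_an

noncomputable section

theorem sl_apply (L : ℂ →L[ℝ] ℝ) (z : ℂ) : L z = z.re * L 1 + z.im * L Complex.I := by
  have h : z = z.re • (1 : ℂ) + z.im • Complex.I := by
    apply Complex.ext <;> simp
  conv_lhs => rw [h]
  rw [map_add, map_smul, map_smul, smul_eq_mul, smul_eq_mul]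

theorem norm_sq_eq_dot (L : ℂ →L[ℝ] ℝ) : ‖L‖ ^ 2 = dot L L := by
  have hd : dot L L = L 1 ^ 2 + L Complex.I ^ 2 := by
    unfold dot
    ring
  have hd0 : 0 ≤ dot L L := by
    rw [hd]
    positivity
  have hup : ‖L‖ ≤ Real.sqrt (dot L L) := by
    apply ContinuousLinearMap.opNorm_le_bound _ (Real.sqrt_nonneg _)
    intro z
    rw [Real.norm_eq_abs, ← Real.sqrt_sq_eq_abs]
    have hz : ‖z‖ = Real.sqrt (z.re ^ 2 + z.im ^ 2) := by
      rw [Complex.norm_eq_sqrt_sq_add_sq]
    rw [hz, ← Real.sqrt_mul hd0]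
    apply Real.sqrt_le_sqrt
    rw [sl_apply L z, hd]
    nlinarith [sq_nonneg (z.re * L Complex.I - z.im * L 1)]
  have hlo : dot L L ≤ ‖L‖ * Real.sqrt (dot L L) := by
    have h1 := L.le_opNorm (⟨L 1, L Complex.I⟩ : ℂ)
    rw [sl_apply L] at h1
    have hz : ‖(⟨L 1, L Complex.I⟩ : ℂ)‖ = Real.sqrt (dot L L) := by
      rw [Complex.norm_eq_sqrt_sq_add_sq, hd]
    rw [hz] at h1
    refine le_trans ?_ h1
    rw [Real.norm_eq_abs]
    refine le_trans ?_ (le_abs_self _)
    unfold dot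
    exact le_of_eq rfl
  apply le_antisymm
  · have := pow_le_pow_left₀ (norm_nonneg L) hup 2
    rwa [Real.sq_sqrt hd0] at this
  · rcases eq_or_lt_of_le hd0 with h0 | h0
    · rw [← h0]
      positivity
    · have hs : 0 < Real.sqrt (dot L L) := Real.sqrt_pos.mpr h0
      have h2 : Real.sqrt (dot L L) ≤ ‖L‖ := by
        have h3 : Real.sqrt (dot L L) * Real.sqrt (dot L L) ≤ ‖L‖ * Real.sqrt (dot L L) := by
          rw [Real.mul_self_sqrt hd0]
          exact hlo
        exact le_of_mul_le_mul_right h3 hs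
      calc dot L L = Real.sqrt (dot L L) ^ 2 := (Real.sq_sqrt hd0).symm
        _ ≤ ‖L‖ ^ 2 := pow_le_pow_left₀ hs.le h2 2

theorem sl_I_exp (θ : ℝ) : Complex.I * Complex.exp (θ * Complex.I) =
    ⟨- Real.sin θ, Real.cos θ⟩ := by
  rw [Complex.exp_mul_I]
  apply Complex.ext
  · simp [Complex.cos_ofReal_re, Complex.sin_ofReal_re]
  · simp [Complex.cos_ofReal_re, Complex.sin_ofReal_re]

theorem sl_L (L : ℂ →L[ℝ] ℝ) (θ : ℝ) :
    L (Complex.I * Complex.exp (θ * Complex.I)) =
      - Real.sin θ * L 1 + Real.cos θ * L Complex.I := by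
  rw [sl_I_exp, sl_apply]

theorem sl_L_cos (L : ℂ →L[ℝ] ℝ) : ∃ φ : ℝ, ∀ θ : ℝ,
    L (Complex.I * Complex.exp (θ * Complex.I)) = ‖L‖ * Real.cos (θ + φ) := by
  refine ⟨Complex.arg ⟨L Complex.I, L 1⟩, fun θ => ?_⟩
  set z : ℂ := ⟨L Complex.I, L 1⟩ with hz
  have hnorm : ‖z‖ = ‖L‖ := by
    have h1 : ‖L‖ ^ 2 = ‖z‖ ^ 2 := by
      rw [norm_sq_eq_dot, Complex.sq_norm, Complex.normSq_apply]
      simp only [hz, dot]
      ring
    exact ((sq_eq_sq₀ (norm_nonneg _) (norm_nonneg _)).mp h1).symm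
  have h1 : ‖z‖ * Real.cos (Complex.arg z) = L Complex.I := by
    rw [Complex.norm_mul_cos_arg]
  have h2 : ‖z‖ * Real.sin (Complex.arg z) = L 1 := by
    rw [Complex.norm_mul_sin_arg]
  rw [sl_L, Real.cos_add, ← hnorm, ← h1, ← h2]
  ring

theorem sl_int_abs_cos (φ : ℝ) : ∫ θ in (0 : ℝ)..Real.pi, |Real.cos (θ + φ)| = 2 := by
  have hper : Function.Periodic (fun x : ℝ => |Real.cos x|) Real.pi := by
    intro x
    simp only [Real.cos_add_pi, abs_neg]
  have h1 : ∫ θ in (0 : ℝ)..Real.pi, |Real.cos (θ + φ)| =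
      ∫ x in φ..(φ + Real.pi), |Real.cos x| := by
    rw [intervalIntegral.integral_comp_add_right (fun x => |Real.cos x|) φ]
    congr 1 <;> ring
  have h2 : ∫ x in φ..(φ + Real.pi), |Real.cos x| =
      ∫ x in (-(Real.pi / 2))..(-(Real.pi / 2) + Real.pi), |Real.cos x| :=
    hper.intervalIntegral_add_eq φ (-(Real.pi / 2))
  have h3 : -(Real.pi / 2) + Real.pi = Real.pi / 2 := by ring
  rw [h1, h2, h3]
  have h4 : ∫ x in (-(Real.pi / 2))..(Real.pi / 2), |Real.cos x| =
      ∫ x in (-(Real.pi / 2))..(Real.pi / 2), Real.cos x := by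
    apply intervalIntegral.integral_congr
    intro x hx
    rw [Set.uIcc_of_le (by linarith [Real.pi_pos])] at hx
    exact abs_of_nonneg (Real.cos_nonneg_of_mem_Icc hx)
  rw [h4, integral_cos, Real.sin_neg, Real.sin_pi_div_two]
  norm_num

theorem crofton_clm (L : ℂ →L[ℝ] ℝ) :
    ∫ θ in (0 : ℝ)..Real.pi, |L (Complex.I * Complex.exp (θ * Complex.I))| = 2 * ‖L‖ := by
  obtain ⟨φ, hφ⟩ := sl_L_cos L
  have h1 : ∀ θ : ℝ, |L (Complex.I * Complex.exp (θ * Complex.I))| =
      ‖L‖ * |Real.cos (θ + φ)| := by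
    intro θ
    rw [hφ θ, abs_mul, abs_of_nonneg (norm_nonneg L)]
  simp only [h1]
  rw [intervalIntegral.integral_const_mul, sl_int_abs_cos]
  ring

theorem sl_rot (θ p s : ℝ) : rot θ p s =
    ⟨p * Real.cos θ - s * Real.sin θ, p * Real.sin θ + s * Real.cos θ⟩ := by
  unfold rot
  rw [Complex.exp_mul_I]
  apply Complex.ext
  · simp [Complex.cos_ofReal_re, Complex.sin_ofReal_re]
  · simp [Complex.cos_ofReal_re, Complex.sin_ofReal_re]

theorem pr_rot (θ p s : ℝ) : pr θ (rot θ p s) = p := by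
  rw [sl_rot]
  unfold pr
  simp only
  have := Real.sin_sq_add_cos_sq θ
  linear_combination p * this

/-- the affine chart `(p, s) ↦ rot θ p s` is measure preserving -/
theorem sl_mp (θ : ℝ) : MeasurePreserving (fun x : ℝ × ℝ => rot θ x.1 x.2) volume volume := by
  have h1 : MeasurePreserving Complex.measurableEquivRealProd.symm volume volume :=
    Complex.volume_preserving_equiv_real_prod.symm
  have h2 : MeasurePreserving (fun z : ℂ => Complex.exp (θ * Complex.I) * z) volume volume := by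
    have h4 : (fun z : ℂ => Complex.exp (θ * Complex.I) * z) = rotation (Circle.exp θ) := by
      funext z
      rw [rotation_apply, Circle.coe_exp]
    rw [h4]
    exact LinearIsometryEquiv.measurePreserving _
  have h5 := h2.comp h1
  have h6 : ((fun z : ℂ => Complex.exp (θ * Complex.I) * z) ∘
      (Complex.measurableEquivRealProd.symm : ℝ × ℝ → ℂ)) = fun x : ℝ × ℝ => rot θ x.1 x.2 := by
    funext x
    simp only [Function.comp_apply, rot, Complex.measurableEquivRealProd_symm_apply]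
    rw [mul_comm]
    congr 1
    apply Complex.ext <;> simp
  rw [h6] at h5
  exact h5

theorem lintegral_rot (θ : ℝ) {F : ℂ → ℝ≥0∞} (hF : Measurable F) :
    ∫⁻ z, F z = ∫⁻ p : ℝ, ∫⁻ s : ℝ, F (rot θ p s) := by
  have h := sl_mp θ
  rw [← h.lintegral_comp hF, Measure.volume_eq_prod, lintegral_prod]
  exact (hF.comp h.measurable).aemeasurable

theorem sl_measurable_rot (θ : ℝ) : Measurable (fun x : ℝ × ℝ => rot θ x.1 x.2) :=
  (sl_mp θ).measurable

/-- a.e. statement along almost all lines -/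
theorem sl_ae (θ : ℝ) {P : ℂ → Prop} (h : ∀ᵐ z, P z) :
    ∀ᵐ p : ℝ, ∀ᵐ s : ℝ, P (rot θ p s) := by
  have h1 : ∀ᵐ x : ℝ × ℝ, P (rot θ x.1 x.2) := (sl_mp θ).quasiMeasurePreserving.ae h
  rw [Measure.volume_eq_prod] at h1
  exact Measure.ae_ae_of_ae_prod h1

theorem sl_hasDeriv (v : ℂ → ℝ) (θ p s : ℝ) (hd : DifferentiableAt ℝ v (rot θ p s)) :
    deriv (fun s => v (rot θ p s)) s =
      fderiv ℝ v (rot θ p s) (Complex.I * Complex.exp (θ * Complex.I)) := by
  have h1 : HasDerivAt (fun s : ℝ => rot θ p s) (Complex.I * Complex.exp (θ * Complex.I)) s := by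
    unfold rot
    have h2 : HasDerivAt (fun s : ℝ => (s : ℂ)) 1 s := Complex.ofRealCLM.hasDerivAt
    have h3 := ((h2.mul_const Complex.I).const_add (p : ℂ)).mul_const
      (Complex.exp (θ * Complex.I))
    simpa using h3
  exact (hd.hasFDerivAt.comp_hasDerivAt s h1).deriv

theorem sl_lint_clm (L : ℂ →L[ℝ] ℝ) :
    ∫⁻ θ in Ioc (0 : ℝ) Real.pi,
      ENNReal.ofReal |L (Complex.I * Complex.exp (θ * Complex.I))| =
      2 * ENNReal.ofReal ‖L‖ := by
  have hcont : Continuous (fun θ : ℝ => |L (Complex.I * Complex.exp (θ * Complex.I))|) := by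
    fun_prop
  rw [← ofReal_integral_eq_lintegral_ofReal]
  · rw [← intervalIntegral.integral_of_le Real.pi_pos.le, crofton_clm,
      ENNReal.ofReal_mul (by norm_num)]
    norm_num
  · exact (hcont.integrableOn_Icc (a := 0) (b := Real.pi)).mono_set Ioc_subset_Icc_self
  · exact Filter.Eventually.of_forall (fun θ => abs_nonneg _)

/-- A localised version (`B` measurable). -/
theorem crofton_lip_on {v : ℂ → ℝ} (hv : Lip v) {B : Set ℂ} (hB : MeasurableSet B) :
    2 * ∫⁻ z in B, ENNReal.ofReal ‖fderiv ℝ v z‖ =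
      ∫⁻ θ in Ioc (0 : ℝ) Real.pi, ∫⁻ p : ℝ, ∫⁻ s in {s | rot θ p s ∈ B},
        ENNReal.ofReal |deriv (fun s => v (rot θ p s)) s| := by
  obtain ⟨K, hK⟩ := hv
  have hm1 : Measurable (fun z => fderiv ℝ v z 1) := measurable_fderiv_apply_const ℝ v 1
  have hmI : Measurable (fun z => fderiv ℝ v z Complex.I) :=
    measurable_fderiv_apply_const ℝ v Complex.I
  have hmF : Measurable (Function.uncurry (fun (z : ℂ) (θ : ℝ) =>
      ENNReal.ofReal |fderiv ℝ v z (Complex.I * Complex.exp (θ * Complex.I))|)) := by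
    have h1 : (Function.uncurry (fun (z : ℂ) (θ : ℝ) =>
        ENNReal.ofReal |fderiv ℝ v z (Complex.I * Complex.exp (θ * Complex.I))|)) =
        fun x : ℂ × ℝ => ENNReal.ofReal |(- Real.sin x.2 * fderiv ℝ v x.1 1 +
          Real.cos x.2 * fderiv ℝ v x.1 Complex.I)| := by
      funext x
      simp only [Function.uncurry, sl_L]
    rw [h1]
    apply ENNReal.measurable_ofReal.comp
    apply Measurable.comp (g := fun x : ℝ => |x|) continuous_abs.measurable
    exact ((Real.measurable_sin.comp measurable_snd).neg.mul (hm1.comp measurable_fst)).add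
      ((Real.measurable_cos.comp measurable_snd).mul (hmI.comp measurable_fst))
  have hdiff : ∀ᵐ z, DifferentiableAt ℝ v z := hK.ae_differentiableAt
  calc 2 * ∫⁻ z in B, ENNReal.ofReal ‖fderiv ℝ v z‖
      = ∫⁻ z in B, 2 * ENNReal.ofReal ‖fderiv ℝ v z‖ := by
        rw [lintegral_const_mul]
        exact ENNReal.measurable_ofReal.comp (measurable_fderiv ℝ v).norm
    _ = ∫⁻ z in B, ∫⁻ θ in Ioc (0 : ℝ) Real.pi,
          ENNReal.ofReal |fderiv ℝ v z (Complex.I * Complex.exp (θ * Complex.I))| := by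
        apply lintegral_congr
        intro z
        rw [sl_lint_clm]
    _ = ∫⁻ θ in Ioc (0 : ℝ) Real.pi, ∫⁻ z in B,
          ENNReal.ofReal |fderiv ℝ v z (Complex.I * Complex.exp (θ * Complex.I))| :=
        lintegral_lintegral_swap hmF.aemeasurable
    _ = _ := by
        apply lintegral_congr
        intro θ
        have hmz : Measurable (fun z : ℂ =>
            ENNReal.ofReal |fderiv ℝ v z (Complex.I * Complex.exp (θ * Complex.I))|) :=
          hmF.comp (measurable_id.prodMk measurable_const)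
        rw [← lintegral_indicator hB, lintegral_rot θ (hmz.indicator hB)]
        have hae := sl_ae θ hdiff
        apply lintegral_congr_ae
        filter_upwards [hae] with p hp
        have hBs : MeasurableSet {s : ℝ | rot θ p s ∈ B} := by
          have : Measurable (fun s : ℝ => rot θ p s) :=
            (sl_measurable_rot θ).comp (measurable_const.prodMk measurable_id)
          exact this hB
        rw [← lintegral_indicator hBs]
        apply lintegral_congr_ae
        filter_upwards [hp] with s hs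
        by_cases hsB : rot θ p s ∈ B
        · rw [indicator_of_mem hsB, indicator_of_mem (show s ∈ {s : ℝ | rot θ p s ∈ B} from hsB),
            sl_hasDeriv v θ p s hs]
        · rw [indicator_of_notMem hsB,
            indicator_of_notMem (show s ∉ {s : ℝ | rot θ p s ∈ B} from hsB)]

/-- Crofton's formula for Lipschitz functions. -/
theorem crofton_lip {v : ℂ → ℝ} (hv : Lip v) :
    2 * ∫⁻ z, ENNReal.ofReal ‖fderiv ℝ v z‖ =
      ∫⁻ θ in Ioc (0 : ℝ) Real.pi, ∫⁻ p : ℝ, ∫⁻ s : ℝ,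
        ENNReal.ofReal |deriv (fun s => v (rot θ p s)) s| := by
  have h := crofton_lip_on hv MeasurableSet.univ
  simpa using h

theorem sl_ftc {ψ : ℝ → ℝ} (hψ : ∃ K, LipschitzWith K ψ) (a b : ℝ) :
    IntervalIntegrable (deriv ψ) volume a b ∧ ∫ x in a..b, deriv ψ x = ψ b - ψ a := by
  obtain ⟨K, hK⟩ := hψ
  have h := (hK.lipschitzOnWith (s := uIcc a b)).absolutelyContinuousOnInterval
  exact ⟨h.intervalIntegrable_deriv, h.integral_deriv_eq_sub⟩

/-- a compactly supported function vanishes outside `(-R, R)` -/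
theorem sl_exists_R {ψ : ℝ → ℝ} (hc : HasCompactSupport ψ) (t : ℝ) :
    ∃ R : ℝ, |t| < R ∧ (∀ x, R ≤ |x| → ψ x = 0) ∧ (∀ x, x ∉ Ioc (-R) R → deriv ψ x = 0) := by
  obtain ⟨R0, hR0⟩ := hc.isCompact.isBounded.subset_closedBall (0 : ℝ)
  refine ⟨max R0 |t| + 1, ?_, ?_, ?_⟩
  · have := le_max_right R0 |t|
    linarith
  · intro x hx
    by_contra hne
    have h1 : x ∈ tsupport ψ := subset_tsupport ψ hne
    have h2 := hR0 h1
    rw [mem_closedBall_zero_iff, Real.norm_eq_abs] at h2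
    have := le_max_left R0 |t|
    linarith
  · intro x hx
    by_contra hne
    have h1 : x ∈ tsupport ψ := by
      have h3 : x ∈ tsupport (deriv ψ) := subset_tsupport (deriv ψ) hne
      exact (tsupport_deriv_subset (𝕜 := ℝ) (f := ψ)) h3
    have h2 := hR0 h1
    rw [mem_closedBall_zero_iff, Real.norm_eq_abs, abs_le] at h2
    have := le_max_left R0 |t|
    apply hx
    constructor <;> linarith

theorem sl_lint_eq {ψ : ℝ → ℝ} (hψ : ∃ K, LipschitzWith K ψ) {R : ℝ} (hR : 0 ≤ R)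
    (h0 : ∀ x, x ∉ Ioc (-R) R → deriv ψ x = 0) :
    ∫⁻ s, ENNReal.ofReal |deriv ψ s| = ENNReal.ofReal (∫ s in (-R)..R, |deriv ψ s|) := by
  have h1 : ∫⁻ s, ENNReal.ofReal |deriv ψ s| =
      ∫⁻ s in Ioc (-R) R, ENNReal.ofReal |deriv ψ s| := by
    rw [← lintegral_indicator measurableSet_Ioc]
    apply lintegral_congr
    intro s
    by_cases hs : s ∈ Ioc (-R) R
    · rw [indicator_of_mem hs]
    · rw [indicator_of_notMem hs, h0 s hs]
      simp
  rw [h1, intervalIntegral.integral_of_le (by linarith), ofReal_integral_eq_lintegral_ofReal]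
  · have h2 := (sl_ftc hψ (-R) R).1
    rw [intervalIntegrable_iff_integrableOn_Ioc_of_le (by linarith)] at h2
    exact h2.abs
  · exact Filter.Eventually.of_forall (fun s => abs_nonneg _)

theorem two_mul_le_lintegral_deriv {ψ : ℝ → ℝ} (hψ : ∃ K, LipschitzWith K ψ)
    (hc : HasCompactSupport ψ) (t : ℝ) :
    ENNReal.ofReal (2 * ψ t) ≤ ∫⁻ s, ENNReal.ofReal |deriv ψ s| := by
  obtain ⟨R, hR, hR0, hRd⟩ := sl_exists_R hc t
  have hRpos : 0 < R := lt_of_le_of_lt (abs_nonneg t) hR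
  rw [abs_lt] at hR
  rw [sl_lint_eq hψ hRpos.le hRd]
  apply ENNReal.ofReal_le_ofReal
  obtain ⟨hi1, h1⟩ := sl_ftc hψ (-R) t
  obtain ⟨hi2, h2⟩ := sl_ftc hψ t R
  have ha : ψ (-R) = 0 := hR0 _ (by rw [abs_neg, abs_of_pos hRpos])
  have hb : ψ R = 0 := hR0 _ (by rw [abs_of_pos hRpos])
  have h3 : |∫ x in (-R)..t, deriv ψ x| ≤ ∫ x in (-R)..t, |deriv ψ x| :=
    intervalIntegral.abs_integral_le_integral_abs hR.1.le
  have h4 : |∫ x in t..R, deriv ψ x| ≤ ∫ x in t..R, |deriv ψ x| :=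
    intervalIntegral.abs_integral_le_integral_abs hR.2.le
  have h5 := intervalIntegral.integral_add_adjacent_intervals hi1.abs hi2.abs
  rw [h1, ha] at h3
  rw [h2, hb] at h4
  have h6 := le_abs_self (ψ t - 0)
  have h7 := neg_abs_le (0 - ψ t)
  linarith

theorem lintegral_deriv_le_of_unimodal {ψ : ℝ → ℝ} (hψ : ∃ K, LipschitzWith K ψ)
    (hc : HasCompactSupport ψ) {m : ℝ} (hmono : MonotoneOn ψ (Iic m))
    (hanti : AntitoneOn ψ (Ici m)) :
    ∫⁻ s, ENNReal.ofReal |deriv ψ s| ≤ ENNReal.ofReal (2 * ψ m) := by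
  obtain ⟨R, hR, hR0, hRd⟩ := sl_exists_R hc m
  have hRpos : 0 < R := lt_of_le_of_lt (abs_nonneg m) hR
  rw [abs_lt] at hR
  rw [sl_lint_eq hψ hRpos.le hRd]
  apply ENNReal.ofReal_le_ofReal
  obtain ⟨hi1, h1⟩ := sl_ftc hψ (-R) m
  obtain ⟨hi2, h2⟩ := sl_ftc hψ m R
  have ha : ψ (-R) = 0 := hR0 _ (by rw [abs_neg, abs_of_pos hRpos])
  have hb : ψ R = 0 := hR0 _ (by rw [abs_of_pos hRpos])
  have h5 := intervalIntegral.integral_add_adjacent_intervals hi1.abs hi2.abs
  have h3 : ∫ x in (-R)..m, |deriv ψ x| = ∫ x in (-R)..m, deriv ψ x := by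
    apply intervalIntegral.integral_congr_ae
    have hne : ∀ᵐ x : ℝ, x ≠ m := by
      simp [ae_iff]
    filter_upwards [hne] with x hxm hx
    rw [uIoc_of_le hR.1.le] at hx
    apply abs_of_nonneg
    have hlt : x < m := lt_of_le_of_ne hx.2 hxm
    rw [← derivWithin_of_mem_nhds (Iic_mem_nhds hlt)]
    exact hmono.derivWithin_nonneg
  have h4 : ∫ x in m..R, |deriv ψ x| = ∫ x in m..R, - deriv ψ x := by
    apply intervalIntegral.integral_congr_ae
    refine Filter.Eventually.of_forall (fun x hx => ?_)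
    rw [uIoc_of_le hR.2.le] at hx
    apply abs_of_nonpos
    rw [← derivWithin_of_mem_nhds (Ici_mem_nhds hx.1)]
    exact hanti.derivWithin_nonpos
  rw [intervalIntegral.integral_neg] at h4
  rw [← h5, h3, h4, h1, h2, ha, hb]
  linarith

end

end Pool.Agent.Lib.MP_4cfb03_an
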