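import Pool.Agent.Lib.MP_4cfb03_an.Defs

/-! # T13 (Sob), part A: Lipschitz calculus, the Laplacian. -/

open MeasureTheory Set
open scoped ENNReal ContDiff Topology

namespace Pool.Agent.Lib.MP_4cfb03_an

noncomputable section

theorem Adm.hasCompactSupport {Ω : Set ℂ} (hΩ : Dom Ω) {v : ℂ → ℝ} (hv : Adm Ω v) :
    HasCompactSupport v := by
  refine HasCompactSupport.of_support_subset_isCompact (K := closure Ω) ?_ ?_
  · exact Metric.isCompact_of_isClosed_isBounded isClosed_closure hΩ.bounded.closure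
  · intro x hx
    by_contra hxc
    exact hx (hv.2 x fun h => hxc (subset_closure h))

theorem Lip.continuous {v : ℂ → ℝ} (hv : Lip v) : Continuous v := by
  obtain ⟨K, hK⟩ := hv
  exact hK.continuous

theorem Lip.posPart {v : ℂ → ℝ} (hv : Lip v) : Lip (fun y => max (v y) 0) := by
  obtain ⟨K, hK⟩ := hv
  exact ⟨K, hK.max_const 0⟩

theorem Lip.sub {v w : ℂ → ℝ} (hv : Lip v) (hw : Lip w) : Lip (fun y => v y - w y) := by
  obtain ⟨K, hK⟩ := hv
  obtain ⟨K', hK'⟩ := hw
  exact ⟨K + K', hK.sub hK'⟩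

theorem Lip.ae_differentiableAt {v : ℂ → ℝ} (hv : Lip v) : ∀ᵐ x, DifferentiableAt ℝ v x := by
  obtain ⟨K, hK⟩ := hv
  exact hK.ae_differentiableAt

theorem fderiv_posPart_ae {v : ℂ → ℝ} (hv : Lip v) :
    ∀ᵐ x, fderiv ℝ (fun y => max (v y) 0) x = if 0 < v x then fderiv ℝ v x else 0 := by
  filter_upwards with x
  rcases lt_trichotomy (v x) 0 with h | h | h
  · have h' : ¬ 0 < v x := not_lt.2 h.le
    rw [if_neg h']
    have : (fun y => max (v y) 0) =ᶠ[𝓝 x] fun _ => 0 := by
      filter_upwards [hv.continuous.continuousAt.eventually (gt_mem_nhds h)] with y hy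
      exact max_eq_right hy.le
    rw [this.fderiv_eq]
    simp
  · have h' : ¬ 0 < v x := not_lt.2 h.le
    rw [if_neg h']
    refine IsLocalMin.fderiv_eq_zero ?_
    filter_upwards with y
    rw [h, max_self]
    exact le_max_right _ _
  · rw [if_pos h]
    refine Filter.EventuallyEq.fderiv_eq ?_
    filter_upwards [hv.continuous.continuousAt.eventually (lt_mem_nhds h)] with y hy
    exact max_eq_left hy.le

theorem fderiv_min_ae {v w : ℂ → ℝ} (hv : Lip v) (hw : Lip w) :
    ∀ᵐ x, fderiv ℝ (fun y => min (v y) (w y)) x =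
      if v x < w x then fderiv ℝ v x else fderiv ℝ w x := by
  filter_upwards [fderiv_posPart_ae (hw.sub hv), hv.ae_differentiableAt, hw.ae_differentiableAt,
    (hw.sub hv).posPart.ae_differentiableAt] with x hx hdv hdw hdp
  have he : (fun y => min (v y) (w y)) = fun y => w y - max (w y - v y) 0 := by
    funext y
    rcases le_total (v y) (w y) with h | h
    · rw [min_eq_left h, max_eq_left (sub_nonneg.2 h)]; ring
    · rw [min_eq_right h, max_eq_right (sub_nonpos.2 h)]; ring
  rw [he, fderiv_fun_sub hdw hdp, hx]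
  by_cases h : v x < w x
  · rw [if_pos h, if_pos (sub_pos.2 h), fderiv_fun_sub hdw hdv]
    abel
  · rw [if_neg h, if_neg (by simpa using h), sub_zero]

/-! ### The Laplacian of radial functions -/

theorem hasFDerivAt_radial {h : ℝ → ℝ} (hh : Differentiable ℝ h) (c x : ℂ) :
    HasFDerivAt (fun y : ℂ => h (‖y - c‖ ^ 2))
      (deriv h (‖x - c‖ ^ 2) • (2 • (innerSL ℝ (x - c)))) x := by
  have h0 : HasFDerivAt (fun y : ℂ => y - c) (ContinuousLinearMap.id ℝ ℂ) x :=
    (hasFDerivAt_id x).sub_const c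
  have h1 : HasFDerivAt (fun y : ℂ => ‖y - c‖ ^ 2) (2 • (innerSL ℝ (x - c))) x := by
    have := h0.norm_sq
    rwa [ContinuousLinearMap.comp_id] at this
  exact (hh (‖x - c‖ ^ 2)).hasDerivAt.comp_hasFDerivAt x h1

theorem fderiv_radial_apply {h : ℝ → ℝ} (hh : Differentiable ℝ h) (c x v : ℂ) :
    fderiv ℝ (fun y : ℂ => h (‖y - c‖ ^ 2)) x v = deriv h (‖x - c‖ ^ 2) * (2 * inner ℝ (x - c) v) := by
  rw [(hasFDerivAt_radial hh c x).fderiv]
  simp only [smul_apply, innerSL_apply_apply, nsmul_eq_mul, smul_eq_mul,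
    Nat.cast_ofNat]

theorem lap_radial {h : ℝ → ℝ} (hh : ContDiff ℝ 2 h) (c x : ℂ) :
    lap (fun y => h (‖y - c‖ ^ 2)) x =
      4 * deriv h (‖x - c‖ ^ 2) + 4 * ‖x - c‖ ^ 2 * deriv (deriv h) (‖x - c‖ ^ 2) := by
  have hd : Differentiable ℝ h := hh.differentiable (by norm_num)
  have hh' : ContDiff ℝ 1 (deriv h) := by
    have : ContDiff ℝ (1 + 1) h := by simpa [one_add_one_eq_two] using hh
    exact (contDiff_succ_iff_deriv.1 this).2.2
  have hd' : Differentiable ℝ (deriv h) := hh'.differentiable (by norm_num)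
  have key : ∀ v : ℂ, fderiv ℝ (fun y => fderiv ℝ (fun y : ℂ => h (‖y - c‖ ^ 2)) y v) x v =
      deriv (deriv h) (‖x - c‖ ^ 2) * (2 * inner ℝ (x - c) v) ^ 2 +
        deriv h (‖x - c‖ ^ 2) * (2 * inner ℝ v v) := by
    intro v
    have he : (fun y => fderiv ℝ (fun y : ℂ => h (‖y - c‖ ^ 2)) y v) =
        fun y => deriv h (‖y - c‖ ^ 2) * (2 * inner ℝ (y - c) v) := by
      funext y; exact fderiv_radial_apply hd c y v
    rw [he]
    have h1 := hasFDerivAt_radial hd' c x
    have h2 : HasFDerivAt (fun y : ℂ => 2 * inner ℝ (y - c) v)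
        ((2:ℝ) • (innerSL ℝ v)) x := by
      have h0 : HasFDerivAt (fun y : ℂ => y - c) (ContinuousLinearMap.id ℝ ℂ) x :=
        (hasFDerivAt_id x).sub_const c
      have h3 : HasFDerivAt (fun y : ℂ => inner ℝ v (y - c)) (innerSL ℝ v) x := by
        have := (innerSL ℝ v).hasFDerivAt.comp x h0
        rwa [ContinuousLinearMap.comp_id] at this
      have h4 : (fun y : ℂ => 2 * inner ℝ (y - c) v) = fun y => (2:ℝ) * inner ℝ v (y - c) := by
        funext y; rw [real_inner_comm]
      rw [h4]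
      exact h3.const_mul 2
    have h5 := h1.fun_mul h2
    rw [h5.fderiv]
    simp only [add_apply, smul_apply, smul_eq_mul,
      innerSL_apply_apply, nsmul_eq_mul, Nat.cast_ofNat]
    ring
  have hn : ‖x - c‖ ^ 2 = (inner ℝ (x - c) 1) ^ 2 + (inner ℝ (x - c) Complex.I) ^ 2 := by
    rw [Complex.sq_norm, Complex.normSq_apply]
    simp [Complex.inner]
    ring
  unfold lap
  rw [key, key]
  have e1 : (inner ℝ (1:ℂ) (1:ℂ) : ℝ) = 1 := by simp
  have e2 : (inner ℝ Complex.I Complex.I : ℝ) = 1 := by simp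
  rw [e1, e2]
  rw [hn]
  ring

/-! ### Integration by parts -/

theorem norm_fderiv_le_of_lip {K : NNReal} {v : ℂ → ℝ} (hv : LipschitzWith K v) (x : ℂ) :
    ‖fderiv ℝ v x‖ ≤ K :=
  norm_fderiv_le_of_lipschitz ℝ hv

theorem fderiv_eq_zero_of_notMem {φ : ℂ → ℝ} {x : ℂ} (hx : x ∉ tsupport φ) :
    fderiv ℝ φ x = 0 := by
  by_contra h
  exact hx (support_fderiv_subset ℝ h)

theorem integrable_fderiv_mul {φ g : ℂ → ℝ} (hφ : Lip φ) (hφc : HasCompactSupport φ)
    (hg : Continuous g) (v : ℂ) : Integrable (fun x => fderiv ℝ φ x v * g x) := by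
  obtain ⟨K, hK⟩ := hφ
  have hsub : Function.support (fun x => fderiv ℝ φ x v * g x) ⊆ tsupport φ := by
    intro x hx
    by_contra h
    apply hx
    simp [fderiv_eq_zero_of_notMem h]
  refine (integrableOn_iff_integrable_of_support_subset hsub).1 ?_
  have hi : IntegrableOn (fun x => K * ‖v‖ * |g x|) (tsupport φ) :=
    (Continuous.continuousOn (by fun_prop)).integrableOn_compact hφc
  refine Integrable.mono' hi ?_ ?_
  · exact ((measurable_fderiv_apply_const ℝ φ v).mul hg.measurable).aestronglyMeasurable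
  · filter_upwards with x
    rw [norm_mul]
    refine mul_le_mul_of_nonneg_right ?_ (norm_nonneg _)
    exact ((fderiv ℝ φ x).le_opNorm v).trans
      (mul_le_mul_of_nonneg_right (norm_fderiv_le_of_lip hK x) (norm_nonneg _))

theorem integral_fderiv_mul {φ g : ℂ → ℝ} (hφ : Lip φ) (hφc : HasCompactSupport φ)
    (hg : ContDiff ℝ 1 g) (v : ℂ) :
    ∫ x, fderiv ℝ φ x v * g x = - ∫ x, φ x * fderiv ℝ g x v := by
  obtain ⟨K, hK⟩ := hφ
  obtain ⟨R, hR0, hR⟩ : ∃ R : ℝ, 0 < R ∧ tsupport φ ⊆ Metric.closedBall 0 R := by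
    obtain ⟨R, hR⟩ := hφc.isBounded.subset_closedBall 0
    exact ⟨max R 1, by positivity, hR.trans (Metric.closedBall_subset_closedBall (le_max_left _ _))⟩
  let χ : ContDiffBump (0 : ℂ) := ⟨R + 1, R + 2, by linarith, by linarith⟩
  have hχ1 : ∀ x ∈ Metric.closedBall (0:ℂ) (R + 1), χ x = 1 := fun x hx =>
    χ.one_of_mem_closedBall hx
  let G : ℂ → ℝ := fun x => χ x * g x
  have hG1 : ContDiff ℝ 1 G := (χ.contDiff (n := 1)).mul hg
  have hGc : HasCompactSupport G := χ.hasCompactSupport.mul_right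
  obtain ⟨D, hD⟩ := hG1.lipschitzWith_of_hasCompactSupport hGc (by norm_num)
  have key := LipschitzWith.integral_lineDeriv_mul_eq (μ := volume) hD hK hφc v
  have hGg : ∀ x ∈ tsupport φ, G =ᶠ[𝓝 x] g := by
    intro x hx
    have hxR := hR hx
    have : Metric.ball (0:ℂ) (R + 1) ∈ 𝓝 x := by
      refine Metric.isOpen_ball.mem_nhds ?_
      rw [Metric.mem_closedBall] at hxR
      rw [Metric.mem_ball]; linarith
    filter_upwards [this] with y hy
    simp only [G]
    rw [hχ1 y (Metric.ball_subset_closedBall hy), one_mul]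
  have h1 : ∫ x, lineDeriv ℝ G x v * φ x = ∫ x, φ x * fderiv ℝ g x v := by
    refine integral_congr_ae ?_
    filter_upwards with x
    by_cases hx : x ∈ tsupport φ
    · rw [(hG1.differentiable (by norm_num) x).lineDeriv_eq_fderiv, (hGg x hx).fderiv_eq]
      ring
    · rw [image_eq_zero_of_notMem_tsupport hx]; ring
  have h2 : ∫ x, lineDeriv ℝ φ x (-v) * G x = - ∫ x, fderiv ℝ φ x v * g x := by
    rw [← integral_neg]
    refine integral_congr_ae ?_
    filter_upwards [hK.ae_differentiableAt] with x hx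
    rw [hx.lineDeriv_eq_fderiv]
    by_cases hx' : x ∈ tsupport φ
    · rw [(hGg x hx').eq_of_nhds, map_neg]; ring
    · rw [fderiv_eq_zero_of_notMem hx']; simp
  rw [h1, h2] at key
  linarith

theorem contDiff_fderiv_apply {w : ℂ → ℝ} (hw : ContDiff ℝ 2 w) (v : ℂ) :
    ContDiff ℝ 1 (fun y => fderiv ℝ w y v) := by
  have h : ContDiff ℝ 1 (fderiv ℝ w) := hw.fderiv_right (by norm_num)
  exact h.clm_apply contDiff_const

theorem integral_dot_lap {φ w : ℂ → ℝ} (hφ : Lip φ) (hφc : HasCompactSupport φ)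
    (hw : ContDiff ℝ 2 w) :
    ∫ x, dot (fderiv ℝ φ x) (fderiv ℝ w x) = - ∫ x, φ x * lap w x := by
  have hw1 := contDiff_fderiv_apply hw 1
  have hwI := contDiff_fderiv_apply hw Complex.I
  have e1 := integral_fderiv_mul hφ hφc hw1 1
  have e2 := integral_fderiv_mul hφ hφc hwI Complex.I
  have hi : ∀ v : ℂ, Integrable (fun x => φ x * fderiv ℝ (fun y => fderiv ℝ w y v) x v) := by
    intro v
    refine Continuous.integrable_of_hasCompactSupport ?_ hφc.mul_right
    refine hφ.continuous.mul ?_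
    exact ((contDiff_fderiv_apply hw v).continuous_fderiv (by norm_num)).clm_apply
      continuous_const
  simp only [dot, lap, mul_add]
  rw [integral_add (integrable_fderiv_mul hφ hφc hw1.continuous 1)
    (integrable_fderiv_mul hφ hφc hwI.continuous Complex.I), integral_add (hi 1) (hi Complex.I),
    e1, e2]
  ring

end

end Pool.Agent.Lib.MP_4cfb03_an
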