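import Pool.Agent.Lib.MP_4cfb03_an.Defs
import Pool.Agent.Lib.MP_4cfb03_an.SobA

/-!
# T16 Kernel : the regularised truncated logarithmic kernel
-/

open MeasureTheory Set
open scoped ENNReal ContDiff Topology

namespace Pool.Agent.Lib.MP_4cfb03_an

noncomputable section

namespace Kernel

lemma hasDerivAt_glue {f g f' g' : ℝ → ℝ} {c : ℝ}
    (hf : ∀ x ≤ c, HasDerivAt f (f' x) x) (hg : ∀ x ≥ c, HasDerivAt g (g' x) x)
    (h0 : f c = g c) (h1 : f' c = g' c) (x : ℝ) :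
    HasDerivAt (fun x => if x ≤ c then f x else g x) (if x ≤ c then f' x else g' x) x := by
  rcases lt_trichotomy x c with h | h | h
  · rw [if_pos h.le]
    refine (hf x h.le).congr_of_eventuallyEq ?_
    filter_upwards [Iio_mem_nhds h] with y hy
    rw [if_pos (le_of_lt hy)]
  · subst h
    rw [if_pos le_rfl]
    have hL : HasDerivWithinAt (fun y => if y ≤ x then f y else g y) (f' x) (Iic x) x := by
      refine (hf x le_rfl).hasDerivWithinAt.congr (fun y hy => if_pos hy) (if_pos le_rfl)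
    have hR : HasDerivWithinAt (fun y => if y ≤ x then f y else g y) (f' x) (Ici x) x := by
      rw [h1]
      refine (hg x le_rfl).hasDerivWithinAt.congr (fun y hy => ?_) ?_
      · rcases eq_or_lt_of_le (mem_Ici.1 hy) with e | e
        · subst e; simp [h0]
        · exact if_neg (not_le.2 e)
      · simp [h0]
    have := hL.union hR
    rwa [Iic_union_Ici, hasDerivWithinAt_univ] at this
  · rw [if_neg (not_le.2 h)]
    refine (hg x h.le).congr_of_eventuallyEq ?_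
    filter_upwards [Ioi_mem_nhds h] with y hy
    rw [if_neg (not_le.2 hy)]

/-! ### the function `q` -/

def q (σ : ℝ) : ℝ := if σ ≤ 1 then -(σ - 1) / 2 + (σ - 1) ^ 2 / 4 else -(1 / 2) * Real.log σ
def q1 (σ : ℝ) : ℝ := if σ ≤ 1 then -1 / 2 + (σ - 1) / 2 else -(1 / 2) * σ⁻¹
def q2 (σ : ℝ) : ℝ := if σ ≤ 1 then 1 / 2 else 1 / 2 * (σ ^ 2)⁻¹

lemma hasDerivAt_q (σ : ℝ) : HasDerivAt q (q1 σ) σ := by
  refine hasDerivAt_glue (f := fun σ => -(σ - 1) / 2 + (σ - 1) ^ 2 / 4)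
    (g := fun σ => -(1 / 2) * Real.log σ) (f' := fun σ => -1 / 2 + (σ - 1) / 2)
    (g' := fun σ => -(1 / 2) * σ⁻¹) (c := 1) ?_ ?_ ?_ ?_ σ
  · intro x _
    have h1 : HasDerivAt (fun σ : ℝ => σ - 1) 1 x := (hasDerivAt_id x).sub_const 1
    have := (h1.neg.div_const 2).add ((h1.pow 2).div_const 4)
    refine this.congr_deriv ?_
    norm_num
    ring
  · intro x hx
    have hx0 : x ≠ 0 := by
      intro h; rw [h] at hx; norm_num at hx
    exact (Real.hasDerivAt_log hx0).const_mul _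
  · simp
  · norm_num

lemma hasDerivAt_q1 (σ : ℝ) : HasDerivAt q1 (q2 σ) σ := by
  refine hasDerivAt_glue (f := fun σ => -1 / 2 + (σ - 1) / 2)
    (g := fun σ => -(1 / 2) * σ⁻¹) (f' := fun _ => 1 / 2)
    (g' := fun σ => 1 / 2 * (σ ^ 2)⁻¹) (c := 1) ?_ ?_ ?_ ?_ σ
  · intro x _
    have h1 : HasDerivAt (fun σ : ℝ => σ - 1) 1 x := (hasDerivAt_id x).sub_const 1
    exact (h1.div_const 2).const_add _
  · intro x hx
    have hx0 : x ≠ 0 := by
      intro h; rw [h] at hx; norm_num at hx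
    refine ((hasDerivAt_inv hx0).const_mul (-(1 / 2))).congr_deriv ?_
    ring
  · norm_num
  · norm_num

lemma continuous_q2 : Continuous q2 := by
  have : q2 = fun σ => 1 / 2 * ((max σ 1) ^ 2)⁻¹ := by
    funext σ
    unfold q2
    split_ifs with h
    · rw [max_eq_right h]; norm_num
    · rw [max_eq_left (not_le.1 h).le]
  rw [this]
  refine continuous_const.mul (Continuous.inv₀ (by fun_prop) ?_)
  intro σ
  have : (0 : ℝ) < max σ 1 := lt_of_lt_of_le one_pos (le_max_right _ _)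
  positivity

/-! ### the function `H` -/

def P (t : ℝ) : ℝ := if t ≤ 1 then t ^ 3 - t ^ 4 / 2 else t - 1 / 2
def P1 (t : ℝ) : ℝ := if t ≤ 1 then 3 * t ^ 2 - 2 * t ^ 3 else 1
def P2 (t : ℝ) : ℝ := if t ≤ 1 then 6 * t - 6 * t ^ 2 else 0

lemma hasDerivAt_P (t : ℝ) : HasDerivAt P (P1 t) t := by
  refine hasDerivAt_glue (f := fun t => t ^ 3 - t ^ 4 / 2)
    (g := fun t => t - 1 / 2) (f' := fun t => 3 * t ^ 2 - 2 * t ^ 3)
    (g' := fun _ => 1) (c := 1) ?_ ?_ ?_ ?_ t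
  · intro x _
    refine ((hasDerivAt_pow 3 x).sub ((hasDerivAt_pow 4 x).div_const 2)).congr_deriv ?_
    norm_num
    ring
  · intro x _
    exact (hasDerivAt_id x).sub_const _
  · norm_num
  · norm_num

lemma hasDerivAt_P1 (t : ℝ) : HasDerivAt P1 (P2 t) t := by
  refine hasDerivAt_glue (f := fun t => 3 * t ^ 2 - 2 * t ^ 3)
    (g := fun _ => 1) (f' := fun t => 6 * t - 6 * t ^ 2)
    (g' := fun _ => 0) (c := 1) ?_ ?_ ?_ ?_ t
  · intro x _
    refine (((hasDerivAt_pow 2 x).const_mul 3).sub ((hasDerivAt_pow 3 x).const_mul 2)).congr_deriv ?_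
    norm_num
    ring
  · intro x _
    exact hasDerivAt_const _ _
  · norm_num
  · norm_num

def H (t : ℝ) : ℝ := if t ≤ 0 then 0 else P t
def H1 (t : ℝ) : ℝ := if t ≤ 0 then 0 else P1 t
def H2 (t : ℝ) : ℝ := if t ≤ 0 then 0 else P2 t

lemma hasDerivAt_H (t : ℝ) : HasDerivAt H (H1 t) t := by
  refine hasDerivAt_glue (f := fun _ => 0) (g := P) (f' := fun _ => 0) (g' := P1) (c := 0)
    (fun x _ => hasDerivAt_const _ _) (fun x _ => hasDerivAt_P x) ?_ ?_ t
  · norm_num [P]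
  · norm_num [P1]

lemma hasDerivAt_H1 (t : ℝ) : HasDerivAt H1 (H2 t) t := by
  refine hasDerivAt_glue (f := fun _ => 0) (g := P1) (f' := fun _ => 0) (g' := P2) (c := 0)
    (fun x _ => hasDerivAt_const _ _) (fun x _ => hasDerivAt_P1 x) ?_ ?_ t
  · norm_num [P1]
  · norm_num [P2]

lemma H2_eq (t : ℝ) : H2 t = 6 * max t 0 * max (1 - t) 0 := by
  unfold H2 P2
  split_ifs with h h'
  · rw [max_eq_right h]; ring
  · rw [max_eq_left (not_le.1 h).le, max_eq_left (by linarith)]; ring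
  · rw [max_eq_right (a := 1 - t) (by linarith)]; ring

lemma continuous_H2 : Continuous H2 := by
  have : H2 = fun t => 6 * max t 0 * max (1 - t) 0 := funext H2_eq
  rw [this]
  fun_prop

lemma H2_nonneg (t : ℝ) : 0 ≤ H2 t := by
  rw [H2_eq]; positivity

lemma H2_le (t : ℝ) : H2 t ≤ 3 / 2 := by
  unfold H2 P2
  split_ifs with h h'
  · norm_num
  · nlinarith [sq_nonneg (t - 1 / 2)]
  · norm_num

lemma H2_of_nonpos {t : ℝ} (h : t ≤ 0) : H2 t = 0 := if_pos h

lemma H2_of_one_le {t : ℝ} (h : 1 ≤ t) : H2 t = 0 := by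
  rw [H2_eq, max_eq_right (a := 1 - t) (by linarith), mul_zero]

lemma H1_nonneg (t : ℝ) : 0 ≤ H1 t := by
  unfold H1 P1
  split_ifs with h h'
  · exact le_rfl
  · have ht := not_le.1 h
    nlinarith [sq_nonneg t, mul_nonneg (sq_nonneg t) (sub_nonneg.2 h')]
  · norm_num

lemma H1_le_one (t : ℝ) : H1 t ≤ 1 := by
  unfold H1 P1
  split_ifs with h h'
  · norm_num
  · have ht := not_le.1 h
    nlinarith [mul_nonneg (sq_nonneg (1 - t)) (by linarith : (0 : ℝ) ≤ 1 + 2 * t)]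
  · exact le_rfl

lemma H1_of_one_le {t : ℝ} (h : 1 ≤ t) : H1 t = 1 := by
  unfold H1 P1
  rw [if_neg (by linarith)]
  split_ifs with h'
  · have : t = 1 := le_antisymm h' h
    rw [this]; norm_num
  · rfl

lemma H_of_nonpos {t : ℝ} (h : t ≤ 0) : H t = 0 := if_pos h

lemma H_nonneg (t : ℝ) : 0 ≤ H t := by
  unfold H P
  split_ifs with h h'
  · exact le_rfl
  · have ht := not_le.1 h
    have h3 : 0 ≤ t ^ 3 := by positivity
    nlinarith [mul_nonneg h3 (by linarith : (0 : ℝ) ≤ 1 - t / 2)]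
  · linarith

lemma H_lower {t : ℝ} (h : 1 / 2 ≤ t) : 1 / 16 ≤ H t := by
  unfold H P
  rw [if_neg (by linarith)]
  split_ifs with h'
  · have h3 : 1 / 8 ≤ t ^ 3 := by
      have := pow_le_pow_left₀ (by norm_num : (0 : ℝ) ≤ 1 / 2) h 3
      norm_num at this ⊢
      linarith
    nlinarith [mul_nonneg (by linarith : (0 : ℝ) ≤ t ^ 3 - 1 / 8) (by linarith : (0 : ℝ) ≤ 1 - t / 2)]
  · linarith

lemma H_le {t : ℝ} (h : 0 ≤ t) : H t ≤ t := by
  unfold H P
  split_ifs with h0 h'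
  · exact h
  · have h3 : t ^ 3 ≤ t := by nlinarith [mul_nonneg h h, mul_nonneg h (sub_nonneg.2 h')]
    have : 0 ≤ t ^ 4 := by positivity
    linarith
  · linarith

lemma H_le_of_le {t s : ℝ} (hs : 0 ≤ s) (h : t ≤ s) : H t ≤ s := by
  rcases le_total t 0 with h0 | h0
  · rw [H_of_nonpos h0]; exact hs
  · exact (H_le h0).trans h

/-! ### the function `g` -/

lemma q_of_one_le {σ : ℝ} (h : 1 ≤ σ) : q σ = -(1 / 2) * Real.log σ := by
  unfold q
  split_ifs with h'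
  · have : σ = 1 := le_antisymm h' h
    rw [this]; norm_num
  · rfl

lemma q1_of_one_le {σ : ℝ} (h : 1 ≤ σ) : q1 σ = -(1 / 2) * σ⁻¹ := by
  unfold q1
  split_ifs with h'
  · have : σ = 1 := le_antisymm h' h
    rw [this]; norm_num
  · rfl

lemma q2_of_one_le {σ : ℝ} (h : 1 ≤ σ) : q2 σ = 1 / 2 * (σ ^ 2)⁻¹ := by
  unfold q2
  split_ifs with h'
  · have : σ = 1 := le_antisymm h' h
    rw [this]; norm_num
  · rfl

lemma q_nonneg {σ : ℝ} (h : σ ≤ 1) : 0 ≤ q σ := by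
  unfold q
  rw [if_pos h]
  nlinarith [sq_nonneg (σ - 1)]

lemma q_le {σ : ℝ} (h : 0 < σ) : q σ ≤ -(1 / 2) * Real.log σ := by
  rcases le_total σ 1 with h1 | h1
  · have ht : |1 - σ| < 1 := by
      rw [abs_of_nonneg (by linarith)]; linarith
    have hs := Real.hasSum_pow_div_log_of_abs_lt_one ht
    have hle := sum_le_hasSum (Finset.range 2) (fun i _ => by
      have : 0 ≤ 1 - σ := by linarith
      positivity) hs
    rw [sub_sub_cancel] at hle
    unfold q
    rw [if_pos h1]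
    norm_num [Finset.sum_range_succ] at hle
    nlinarith
  · rw [q_of_one_le h1]

def g (R ε s : ℝ) : ℝ := Real.log (R / ε) + q (s / ε ^ 2)
def g1 (ε s : ℝ) : ℝ := q1 (s / ε ^ 2) / ε ^ 2
def g2 (ε s : ℝ) : ℝ := q2 (s / ε ^ 2) / ε ^ 2 / ε ^ 2

lemma hasDerivAt_g (R ε s : ℝ) : HasDerivAt (g R ε) (g1 ε s) s := by
  have h1 : HasDerivAt (fun s : ℝ => s / ε ^ 2) (1 / ε ^ 2) s := (hasDerivAt_id s).div_const _
  refine (((hasDerivAt_q (s / ε ^ 2)).comp s h1).const_add (Real.log (R / ε))).congr_deriv ?_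
  unfold g1; ring

lemma hasDerivAt_g1 (ε s : ℝ) : HasDerivAt (g1 ε) (g2 ε s) s := by
  have h1 : HasDerivAt (fun s : ℝ => s / ε ^ 2) (1 / ε ^ 2) s := (hasDerivAt_id s).div_const _
  refine (((hasDerivAt_q1 (s / ε ^ 2)).comp s h1).div_const (ε ^ 2)).congr_deriv ?_
  unfold g2; ring

/-- The radial profile of the kernel (as a function of the square of the distance). -/
def h (R ε s : ℝ) : ℝ := H (g R ε s)
def hd (R ε s : ℝ) : ℝ := H1 (g R ε s) * g1 ε s
def hdd (R ε s : ℝ) : ℝ := H2 (g R ε s) * g1 ε s * g1 ε s + H1 (g R ε s) * g2 ε s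

lemma hasDerivAt_h (R ε s : ℝ) : HasDerivAt (h R ε) (hd R ε s) s :=
  (hasDerivAt_H (g R ε s)).comp s (hasDerivAt_g R ε s)

lemma hasDerivAt_hd (R ε s : ℝ) : HasDerivAt (hd R ε) (hdd R ε s) s :=
  ((hasDerivAt_H1 (g R ε s)).comp s (hasDerivAt_g R ε s)).mul (hasDerivAt_g1 ε s)

lemma continuous_q2' (ε : ℝ) : Continuous (g2 ε) := by
  unfold g2
  exact ((continuous_q2.comp (continuous_id.div_const _)).div_const _).div_const _

lemma continuous_hdd (R ε : ℝ) : Continuous (hdd R ε) := by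
  have hg : Continuous (g R ε) :=
    continuous_iff_continuousAt.2 fun s => (hasDerivAt_g R ε s).continuousAt
  have hg1 : Continuous (g1 ε) :=
    continuous_iff_continuousAt.2 fun s => (hasDerivAt_g1 ε s).continuousAt
  have hH1 : Continuous H1 :=
    continuous_iff_continuousAt.2 fun s => (hasDerivAt_H1 s).continuousAt
  unfold hdd
  exact (((continuous_H2.comp hg).mul hg1).mul hg1).add ((hH1.comp hg).mul (continuous_q2' ε))

lemma deriv_h (R ε : ℝ) : deriv (h R ε) = hd R ε := funext fun s => (hasDerivAt_h R ε s).deriv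
lemma deriv_hd (R ε : ℝ) : deriv (hd R ε) = hdd R ε := funext fun s => (hasDerivAt_hd R ε s).deriv

lemma contDiff_h (R ε : ℝ) : ContDiff ℝ 2 (h R ε) := by
  have h1 : ContDiff ℝ 1 (hd R ε) := by
    rw [contDiff_one_iff_deriv]
    refine ⟨fun s => (hasDerivAt_hd R ε s).differentiableAt, ?_⟩
    rw [deriv_hd]
    exact continuous_hdd R ε
  have : ContDiff ℝ (1 + 1) (h R ε) := by
    rw [contDiff_succ_iff_deriv]
    refine ⟨fun s => (hasDerivAt_h R ε s).differentiableAt, by simp, ?_⟩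
    rw [deriv_h]
    exact h1
  simpa [one_add_one_eq_two] using this

lemma one_lt_log_four : 1 < Real.log 4 := by
  have h4 : Real.log 4 = 2 * Real.log 2 := by
    rw [show (4 : ℝ) = 2 ^ 2 by norm_num, Real.log_pow]; norm_num
  have := Real.log_two_gt_d9
  rw [h4]; linarith

section
variable {R ε : ℝ} (hR : 0 < R) (hε : 0 < ε) (hεR : ε < R / 4)
include hR hε

lemma g_of_le {s : ℝ} (hs : ε ^ 2 ≤ s) : g R ε s = Real.log R - 1 / 2 * Real.log s := by
  have hs0 : 0 < s := lt_of_lt_of_le (by positivity) hs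
  have h1 : 1 ≤ s / ε ^ 2 := by rwa [le_div_iff₀ (by positivity), one_mul]
  unfold g
  rw [q_of_one_le h1, Real.log_div hR.ne' hε.ne', Real.log_div hs0.ne' (by positivity),
    Real.log_pow]
  push_cast
  ring

lemma g_le {s : ℝ} (hs0 : 0 < s) : g R ε s ≤ Real.log R - 1 / 2 * Real.log s := by
  have h1 := q_le (σ := s / ε ^ 2) (by positivity)
  unfold g
  rw [Real.log_div hs0.ne' (by positivity), Real.log_pow] at h1
  rw [Real.log_div hR.ne' hε.ne']
  push_cast at h1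
  linarith

include hεR

omit hR in
lemma one_le_g {s : ℝ} (hs : s ≤ ε ^ 2) : 1 ≤ g R ε s := by
  have h1 : s / ε ^ 2 ≤ 1 := by rwa [div_le_iff₀ (by positivity), one_mul]
  have h2 := q_nonneg h1
  have h3 : Real.log 4 ≤ Real.log (R / ε) := by
    apply Real.log_le_log (by norm_num)
    rw [le_div_iff₀ hε]; linarith
  have := one_lt_log_four
  unfold g
  linarith

lemma one_le_g' {s : ℝ} (hs : s ≤ R ^ 2 / 16) : 1 ≤ g R ε s := by
  rcases le_total s (ε ^ 2) with h | h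
  · exact one_le_g hε hεR h
  · have hs0 : 0 < s := lt_of_lt_of_le (by positivity) h
    rw [g_of_le hR hε h]
    have h1 : Real.log s ≤ Real.log (R ^ 2 / 16) := Real.log_le_log hs0 hs
    rw [Real.log_div (by positivity) (by norm_num), Real.log_pow,
      show (16 : ℝ) = 4 ^ 2 by norm_num, Real.log_pow] at h1
    push_cast at h1
    have := one_lt_log_four
    linarith

lemma half_le_g {s : ℝ} (hs : s ≤ R ^ 2 / 4) : 1 / 2 ≤ g R ε s := by
  rcases le_total s (ε ^ 2) with h | h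
  · have := one_le_g hε hεR h
    linarith
  · have hs0 : 0 < s := lt_of_lt_of_le (by positivity) h
    rw [g_of_le hR hε h]
    have h1 : Real.log s ≤ Real.log (R ^ 2 / 4) := Real.log_le_log hs0 hs
    rw [Real.log_div (by positivity) (by norm_num), Real.log_pow,
      show (4 : ℝ) = 2 ^ 2 by norm_num, Real.log_pow] at h1
    push_cast at h1
    have := Real.log_two_gt_d9
    linarith

lemma g_nonpos {s : ℝ} (hs : R ^ 2 ≤ s) : g R ε s ≤ 0 := by
  have h1 : ε ^ 2 ≤ s := by nlinarith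
  rw [g_of_le hR hε h1]
  have h1 : Real.log (R ^ 2) ≤ Real.log s := Real.log_le_log (by positivity) hs
  rw [Real.log_pow] at h1
  push_cast at h1
  linarith

omit hR in
/-- the laplacian of the kernel in terms of the square of the distance -/
lemma lap_formula_le {s : ℝ} (hs : s ≤ ε ^ 2) :
    4 * hd R ε s + 4 * s * hdd R ε s = -(4 / ε ^ 2 * (1 - s / ε ^ 2)) := by
  have h1 : s / ε ^ 2 ≤ 1 := by rwa [div_le_iff₀ (by positivity), one_mul]
  have hg := one_le_g hε hεR hs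
  unfold hd hdd
  rw [H1_of_one_le hg, H2_of_one_le hg]
  unfold g1 g2 q1 q2
  rw [if_pos h1, if_pos h1]
  field_simp
  ring

omit hεR hR in
lemma lap_formula_ge {s : ℝ} (hs : ε ^ 2 ≤ s) :
    4 * hd R ε s + 4 * s * hdd R ε s = H2 (g R ε s) / s := by
  have hs0 : 0 < s := lt_of_lt_of_le (by positivity) hs
  have h1 : 1 ≤ s / ε ^ 2 := by rwa [le_div_iff₀ (by positivity), one_mul]
  unfold hd hdd g1 g2
  rw [q1_of_one_le h1, q2_of_one_le h1]
  field_simp
  ring

end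

/-- the square of the profile, weighted by the radius, is bounded -/
lemma mul_sq_le {R ε y : ℝ} (hR : 0 < R) (hε : 0 < ε) (hy : 0 < y) :
    y * h R ε (y ^ 2) ^ 2 ≤ 4 * R := by
  have h1 : g R ε (y ^ 2) ≤ 2 * Real.sqrt (R / y) := by
    have h2 := g_le hR hε (s := y ^ 2) (by positivity)
    rw [Real.log_pow] at h2
    push_cast at h2
    have h3 : Real.log (R / y) = 2 * Real.log (Real.sqrt (R / y)) := by
      rw [Real.log_sqrt (by positivity)]; ring
    have h4 : Real.log (Real.sqrt (R / y)) ≤ Real.sqrt (R / y) - 1 :=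
      Real.log_le_sub_one_of_pos (Real.sqrt_pos.2 (by positivity))
    rw [Real.log_div hR.ne' hy.ne'] at h3
    linarith
  have h2 : h R ε (y ^ 2) ≤ 2 * Real.sqrt (R / y) := H_le_of_le (by positivity) h1
  have h3 : h R ε (y ^ 2) ^ 2 ≤ (2 * Real.sqrt (R / y)) ^ 2 :=
    pow_le_pow_left₀ (H_nonneg _) h2 2
  rw [mul_pow, Real.sq_sqrt (by positivity)] at h3
  calc y * h R ε (y ^ 2) ^ 2 ≤ y * (2 ^ 2 * (R / y)) := mul_le_mul_of_nonneg_left h3 hy.le
    _ = 4 * R := by field_simp; norm_num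

lemma integral_sq_le {R ε : ℝ} (hR : 0 < R) (hε : 0 < ε) (hεR : ε < R / 4) (x0 : ℂ) :
    ∫ x : ℂ, h R ε (‖x - x0‖ ^ 2) ^ 2 ≤ 26 * R ^ 2 := by
  rw [integral_sub_right_eq_self (fun x : ℂ => h R ε (‖x‖ ^ 2) ^ 2) x0,
    integral_fun_norm_addHaar volume (fun y => h R ε (y ^ 2) ^ 2)]
  have hb : (volume : Measure ℂ).real (Metric.ball 0 1) = Real.pi := by
    rw [Measure.real, Complex.volume_ball]
    simp
  rw [hb, Complex.finrank_real_complex]
  have hint : ∫ y in Ioi (0 : ℝ), y ^ (2 - 1) • h R ε (y ^ 2) ^ 2 ≤ 4 * R * R := by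
    have h1 : ∫ y in Ioi (0 : ℝ), y ^ (2 - 1) • h R ε (y ^ 2) ^ 2 =
        ∫ y in Ioc (0 : ℝ) R, y ^ (2 - 1) • h R ε (y ^ 2) ^ 2 := by
      apply setIntegral_eq_of_subset_of_forall_sdiff_eq_zero measurableSet_Ioi
        (fun y hy => hy.1)
      intro y hy
      have hyR : R < y := by
        by_contra hc
        exact hy.2 ⟨hy.1, not_lt.1 hc⟩
      have : h R ε (y ^ 2) = 0 := by
        apply H_of_nonpos
        apply g_nonpos hR hε hεR
        nlinarith
      rw [this]; simp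
    rw [h1]
    have h2 : ‖∫ y in Ioc (0 : ℝ) R, y ^ (2 - 1) • h R ε (y ^ 2) ^ 2‖ ≤
        4 * R * volume.real (Ioc (0 : ℝ) R) := by
      apply norm_setIntegral_le_of_norm_le_const (by simp)
      intro y hy
      rw [Real.norm_of_nonneg]
      · simpa using mul_sq_le hR hε hy.1
      · have := hy.1
        simp only [smul_eq_mul]
        positivity
    refine (le_abs_self _).trans (h2.trans ?_)
    rw [Real.volume_real_Ioc_of_le hR.le, sub_zero]
  rw [nsmul_eq_mul, smul_eq_mul]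
  have hpi := Real.pi_lt_d2
  have hpi0 := Real.pi_pos
  calc ((2 : ℕ) : ℝ) * (Real.pi * ∫ y in Ioi (0 : ℝ), y ^ (2 - 1) • h R ε (y ^ 2) ^ 2)
      ≤ ((2 : ℕ) : ℝ) * (Real.pi * (4 * R * R)) := by gcongr
    _ = 8 * Real.pi * R ^ 2 := by push_cast; ring
    _ ≤ 26 * R ^ 2 := by
        gcongr
        linarith

end Kernel

open Kernel in
/-- The regularised (truncated) logarithmic kernel. -/
theorem exists_kernel : ∃ C0 : ℝ, 0 < C0 ∧ ∃ c0 : ℝ, 0 < c0 ∧ ∀ (x0 : ℂ) (R ε : ℝ), 0 < R → 0 < ε →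
    ε < R / 4 → ∃ w : ℂ → ℝ, ContDiff ℝ 2 w ∧ (∀ x, 0 ≤ w x) ∧
      (∀ x, R ≤ ‖x - x0‖ → w x = 0) ∧ (∀ x, ‖x - x0‖ ≤ R / 2 → c0 ≤ w x) ∧
      (∀ x, ε ≤ ‖x - x0‖ → - lap w x ≤ 0) ∧ (∀ x, - lap w x ≤ 4 / ε ^ 2) ∧
      (∀ x, - (C0 / R ^ 2) ≤ - lap w x) ∧
      (∀ x, ‖x - x0‖ ≤ ε / 2 → 1 / ε ^ 2 ≤ - lap w x) ∧ ∫ x, w x ^ 2 ≤ C0 * R ^ 2 := by
  refine ⟨26, by norm_num, 1 / 16, by norm_num, fun x0 R ε hR hε hεR =>
    ⟨fun x => h R ε (‖x - x0‖ ^ 2), ?_, ?_, ?_, ?_, ?_⟩⟩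
  · exact (contDiff_h R ε).comp ((contDiff_id.sub contDiff_const).norm_sq ℝ)
  · exact fun x => H_nonneg _
  · intro x hx
    apply H_of_nonpos
    apply g_nonpos hR hε hεR
    exact pow_le_pow_left₀ hR.le hx 2
  · intro x hx
    apply H_lower
    apply half_le_g hR hε hεR
    have := pow_le_pow_left₀ (norm_nonneg _) hx 2
    linarith [this]
  have hlap : ∀ x, lap (fun x => h R ε (‖x - x0‖ ^ 2)) x =
      4 * hd R ε (‖x - x0‖ ^ 2) + 4 * ‖x - x0‖ ^ 2 * hdd R ε (‖x - x0‖ ^ 2) := by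
    intro x
    rw [lap_radial (contDiff_h R ε), deriv_h, deriv_hd]
  have hin : ∀ x, ‖x - x0‖ ≤ ε → lap (fun x => h R ε (‖x - x0‖ ^ 2)) x =
      -(4 / ε ^ 2 * (1 - ‖x - x0‖ ^ 2 / ε ^ 2)) := by
    intro x hx
    rw [hlap, lap_formula_le hε hεR (pow_le_pow_left₀ (norm_nonneg _) hx 2)]
  have hout : ∀ x, ε ≤ ‖x - x0‖ → lap (fun x => h R ε (‖x - x0‖ ^ 2)) x =
      H2 (g R ε (‖x - x0‖ ^ 2)) / ‖x - x0‖ ^ 2 := by
    intro x hx
    rw [hlap, lap_formula_ge hε (pow_le_pow_left₀ hε.le hx 2)]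
  have hout0 : ∀ x, ε ≤ ‖x - x0‖ → - lap (fun x => h R ε (‖x - x0‖ ^ 2)) x ≤ 0 := by
    intro x hx
    rw [hout x hx, neg_nonpos]
    exact div_nonneg (H2_nonneg _) (sq_nonneg _)
  have hin1 : ∀ x, ‖x - x0‖ ≤ ε → 0 ≤ 1 - ‖x - x0‖ ^ 2 / ε ^ 2 := by
    intro x hx
    have := pow_le_pow_left₀ (norm_nonneg _) hx 2
    rw [sub_nonneg, div_le_one (by positivity)]
    exact this
  refine ⟨hout0, ?_, ?_, ?_, integral_sq_le hR hε hεR x0⟩
  · intro x
    rcases le_total ε ‖x - x0‖ with hx | hx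
    · exact (hout0 x hx).trans (by positivity)
    · rw [hin x hx, neg_neg]
      have h1 : 0 ≤ ‖x - x0‖ ^ 2 / ε ^ 2 := by positivity
      have h2 : 0 < 4 / ε ^ 2 := by positivity
      nlinarith
  · intro x
    rcases le_total ε ‖x - x0‖ with hx | hx
    · rw [hout x hx, neg_le_neg_iff]
      have hx0 : 0 < ‖x - x0‖ := lt_of_lt_of_le hε hx
      rcases le_total (‖x - x0‖ ^ 2) (R ^ 2 / 16) with h1 | h1
      · rw [H2_of_one_le (one_le_g' hR hε hεR h1), zero_div]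
        positivity
      · rw [div_le_div_iff₀ (by positivity) (by positivity)]
        have h2 := H2_le (g R ε (‖x - x0‖ ^ 2))
        have h3 := H2_nonneg (g R ε (‖x - x0‖ ^ 2))
        calc H2 (g R ε (‖x - x0‖ ^ 2)) * R ^ 2 ≤ 3 / 2 * R ^ 2 := by gcongr
          _ ≤ 26 * ‖x - x0‖ ^ 2 := by nlinarith [sq_nonneg R]
    · rw [hin x hx, neg_neg]
      have h1 := hin1 x hx
      have h2 : 0 < 4 / ε ^ 2 := by positivity
      have h3 : 0 < 26 / R ^ 2 := by positivity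
      nlinarith [mul_nonneg h2.le h1]
  · intro x hx
    have hx' : ‖x - x0‖ ≤ ε := by linarith
    rw [hin x hx', neg_neg]
    have h1 : ‖x - x0‖ ^ 2 / ε ^ 2 ≤ 1 / 4 := by
      rw [div_le_iff₀ (by positivity)]
      have := pow_le_pow_left₀ (norm_nonneg _) hx 2
      linarith [this]
    have h2 : 0 < 1 / ε ^ 2 := by positivity
    have h3 : 4 / ε ^ 2 = 4 * (1 / ε ^ 2) := by ring
    rw [h3]
    nlinarith

end

end Pool.Agent.Lib.MP_4cfb03_an
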