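import Pool.Agent.Lib.MP_4cfb03_an.Sob
import Pool.Agent.Lib.MP_4cfb03_an.GS
import Pool.Agent.Lib.MP_4cfb03_an.Kernel

/-!
# MP_4cfb03_an, piece T17 (Pos): the ground state is bounded below on compact subsets
-/

open MeasureTheory Set Filter
open scoped ENNReal ContDiff Topology

namespace Pool.Agent.Lib.MP_4cfb03_an

noncomputable section

theorem continuous_lap_aux {w : ℂ → ℝ} (hw : ContDiff ℝ 2 w) : Continuous (lap w) := by
  have h1 : ContDiff ℝ 1 (fderiv ℝ w) := hw.fderiv_right (by norm_num)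
  have key : ∀ v : ℂ, Continuous (fun x => fderiv ℝ (fun y => fderiv ℝ w y v) x v) := by
    intro v
    have h2 : ContDiff ℝ 1 (fun y => fderiv ℝ w y v) := h1.clm_apply contDiff_const
    exact (h2.continuous_fderiv (by norm_num)).clm_apply continuous_const
  exact (key 1).add (key Complex.I)

section

variable {Ω : Set ℂ} {φ : ℕ → ℂ → ℝ} {u : ℂ → ℝ} {V : ℂ → ℂ →L[ℝ] ℝ}

theorem GS.integrable_aux (hΩ : Dom Ω) (h : GS Ω φ u V) : Integrable u := by
  have hfin : IsFiniteMeasure (volume.restrict Ω) :=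
    ⟨by simpa using hΩ.bounded.measure_lt_top⟩
  have h1 : IntegrableOn u Ω := (h.memu.restrict Ω).integrable one_le_two
  have hsupp : Function.support u ⊆ Ω := by
    intro x hx
    by_contra hxΩ
    exact hx (h.u_out x hxΩ)
  exact (integrableOn_iff_integrable_of_support_subset hsupp).1 h1

theorem GS.integrable_mul_aux (hΩ : Dom Ω) (h : GS Ω φ u V) {g : ℂ → ℝ} (hg : Continuous g) :
    Integrable (fun x => u x * g x) := by
  have hcomp : IsCompact (closure Ω) := hΩ.bounded.isCompact_closure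
  obtain ⟨C, hC⟩ := hcomp.exists_bound_of_continuousOn hg.continuousOn
  have hi := GS.integrable_aux hΩ h
  refine (hi.const_mul C).mono' (hi.aestronglyMeasurable.mul hg.aestronglyMeasurable) ?_
  refine Eventually.of_forall fun x => ?_
  by_cases hx : x ∈ Ω
  · rw [norm_mul, Real.norm_of_nonneg (h.u_nonneg x), mul_comm]
    exact mul_le_mul_of_nonneg_right (hC x (subset_closure hx)) (h.u_nonneg x)
  · rw [h.u_out x hx]
    simp

/-- The basic comparison of averages on concentric discs. -/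
theorem GS.exists_avg (hΩ : Dom Ω) (h : GS Ω φ u V) :
    ∃ κ : ℝ, 0 < κ ∧ ∀ (x0 : ℂ) (R ε : ℝ), 0 < R → 0 < ε → ε < R / 4 →
      Metric.closedBall x0 R ⊆ Ω →
      κ * ∫ x in Metric.closedBall x0 (R / 2), u x ≤
        (1 / ε ^ 2) * ∫ x in Metric.closedBall x0 ε, u x := by
  obtain ⟨C0, hC0, c0, hc0, hker⟩ := exists_kernel
  have hlam := lam1_pos hΩ
  refine ⟨lam1 Ω * c0 / 4, by positivity, ?_⟩
  intro x0 R ε hR hε hεR hball
  obtain ⟨w, hw2, hw0, hwout, hwlow, hlap1, hlap2, -, -, -⟩ := hker x0 R ε hR hε hεR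
  have hsupp : Function.support w ⊆ Metric.closedBall x0 R := by
    intro x hx
    rw [Metric.mem_closedBall, dist_eq_norm]
    by_contra hlt
    exact hx (hwout x (not_le.1 hlt).le)
  have hwc : HasCompactSupport w :=
    HasCompactSupport.of_support_subset_isCompact (isCompact_closedBall x0 R) hsupp
  have hLip : Lip w := ContDiff.lipschitzWith_of_hasCompactSupport hwc hw2 (by norm_num)
  have hAdm : Adm Ω w := by
    refine ⟨hLip, fun x hx => ?_⟩
    by_contra hne
    exact hx (hball (hsupp hne))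
  have e1 := GS.weak hΩ h hAdm
  have e2 := GS.dot_lap hΩ h hw2 hwc
  have hi := GS.integrable_aux hΩ h
  have hiw := GS.integrable_mul_aux hΩ h hw2.continuous
  have hil := GS.integrable_mul_aux hΩ h (continuous_lap_aux hw2)
  -- lower bound
  have lower : c0 * ∫ x in Metric.closedBall x0 (R / 2), u x ≤ ∫ x, u x * w x := by
    rw [← integral_const_mul]
    rw [← integral_indicator Metric.isClosed_closedBall.measurableSet]
    refine integral_mono ((hi.const_mul c0).indicator Metric.isClosed_closedBall.measurableSet)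
      hiw ?_
    intro x
    by_cases hx : x ∈ Metric.closedBall x0 (R / 2)
    · simp only [indicator_of_mem hx]
      rw [mul_comm]
      refine mul_le_mul_of_nonneg_left (hwlow x ?_) (h.u_nonneg x)
      rwa [Metric.mem_closedBall, dist_eq_norm] at hx
    · simp only [indicator_of_notMem hx]
      exact mul_nonneg (h.u_nonneg x) (hw0 x)
  -- upper bound
  have upper : - ∫ x, u x * lap w x ≤ (4 / ε ^ 2) * ∫ x in Metric.closedBall x0 ε, u x := by
    rw [← integral_neg, ← integral_const_mul]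
    rw [← integral_indicator Metric.isClosed_closedBall.measurableSet]
    refine integral_mono hil.neg
      ((hi.const_mul _).indicator Metric.isClosed_closedBall.measurableSet) ?_
    intro x
    by_cases hx : x ∈ Metric.closedBall x0 ε
    · simp only [indicator_of_mem hx]
      calc -(u x * lap w x) = u x * (- lap w x) := by ring
        _ ≤ u x * (4 / ε ^ 2) := mul_le_mul_of_nonneg_left (hlap2 x) (h.u_nonneg x)
        _ = 4 / ε ^ 2 * u x := by ring
    · simp only [indicator_of_notMem hx]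
      have hx' : ε ≤ ‖x - x0‖ := by
        rw [Metric.mem_closedBall, dist_eq_norm] at hx
        exact (not_le.1 hx).le
      calc -(u x * lap w x) = u x * (- lap w x) := by ring
        _ ≤ 0 := mul_nonpos_of_nonneg_of_nonpos (h.u_nonneg x) (hlap1 x hx')
  have hfin : lam1 Ω * (c0 * ∫ x in Metric.closedBall x0 (R / 2), u x) ≤
      (4 / ε ^ 2) * ∫ x in Metric.closedBall x0 ε, u x := by
    calc lam1 Ω * (c0 * ∫ x in Metric.closedBall x0 (R / 2), u x)
        ≤ lam1 Ω * ∫ x, u x * w x := mul_le_mul_of_nonneg_left lower hlam.le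
      _ = - ∫ x, u x * lap w x := by rw [← e1, e2]
      _ ≤ _ := upper
  have : lam1 Ω * c0 / 4 * ∫ x in Metric.closedBall x0 (R / 2), u x =
      (lam1 Ω * (c0 * ∫ x in Metric.closedBall x0 (R / 2), u x)) / 4 := by ring
  rw [this]
  calc _ ≤ ((4 / ε ^ 2) * ∫ x in Metric.closedBall x0 ε, u x) / 4 := by
        exact div_le_div_of_nonneg_right hfin (by norm_num)
    _ = _ := by ring

theorem GS.exists_lower (hΩ : Dom Ω) (h : GS Ω φ u V) :
    ∃ κ : ℝ, 0 < κ ∧ ∀ᵐ x0, ∀ R : ℝ, 0 < R → Metric.closedBall x0 R ⊆ Ω →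
      κ * ∫ x in Metric.closedBall x0 (R / 2), u x ≤ u x0 := by
  obtain ⟨κ, hκ, hk⟩ := GS.exists_avg hΩ h
  refine ⟨κ / Real.pi, by positivity, ?_⟩
  have hi := GS.integrable_aux hΩ h
  have hL := IsUnifLocDoublingMeasure.ae_tendsto_average (μ := (volume : Measure ℂ))
    hi.locallyIntegrable 1
  filter_upwards [hL] with x0 hx0 R hR hball
  have ht := hx0 (l := 𝓝[>] (0 : ℝ)) (fun _ : ℝ => x0) id tendsto_id (by
    filter_upwards [self_mem_nhdsWithin] with r hr
    exact Metric.mem_closedBall_self (by simpa using (le_of_lt hr)))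
  refine ge_of_tendsto ht ?_
  have hev : ∀ᶠ r in 𝓝[>] (0 : ℝ), r < R / 4 :=
    nhdsWithin_le_nhds (Iio_mem_nhds (by positivity))
  filter_upwards [hev, self_mem_nhdsWithin] with r hr hr0
  have hr0' : 0 < r := hr0
  have h1 := hk x0 R r hR hr0' hr hball
  have hvol : (volume : Measure ℂ).real (Metric.closedBall x0 r) = Real.pi * r ^ 2 := by
    rw [Measure.real, Complex.volume_closedBall]
    rw [ENNReal.toReal_mul, ENNReal.toReal_pow, ENNReal.toReal_ofReal hr0'.le]
    simp [mul_comm]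
  simp only [id]
  rw [setAverage_eq, hvol, smul_eq_mul]
  calc κ / Real.pi * ∫ x in Metric.closedBall x0 (R / 2), u x
      = (κ * ∫ x in Metric.closedBall x0 (R / 2), u x) / Real.pi := by ring
    _ ≤ ((1 / r ^ 2) * ∫ x in Metric.closedBall x0 r, u x) / Real.pi :=
        div_le_div_of_nonneg_right h1 Real.pi_pos.le
    _ = (Real.pi * r ^ 2)⁻¹ * ∫ x in Metric.closedBall x0 r, u x := by
        field_simp

/-- Local lower bounds. -/
def LB (u : ℂ → ℝ) (x : ℂ) : Prop :=
  ∃ r : ℝ, 0 < r ∧ ∃ c : ℝ, 0 < c ∧ ∀ᵐ y, y ∈ Metric.ball x r → c ≤ u y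

theorem isOpen_LB (u : ℂ → ℝ) : IsOpen {x | LB u x} := by
  rw [Metric.isOpen_iff]
  rintro x ⟨r, hr, c, hc, hae⟩
  refine ⟨r / 2, by positivity, fun x' hx' => ⟨r / 2, by positivity, c, hc, ?_⟩⟩
  filter_upwards [hae] with y hy hy'
  refine hy ?_
  rw [Metric.mem_ball] at *
  linarith [dist_triangle y x' x]

theorem GS.LB_of_pos (hΩ : Dom Ω) (h : GS Ω φ u V) {x : ℂ} (hx : x ∈ Ω)
    (hp : ∀ r > 0, 0 < ∫ y in Metric.ball x r, u y) : LB u x := by
  obtain ⟨κ, hκ, hk⟩ := GS.exists_lower hΩ h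
  obtain ⟨ρ, hρ, hρΩ⟩ := Metric.nhds_basis_closedBall.mem_iff.1 (hΩ.isOpen.mem_nhds hx)
  set R : ℝ := ρ / 2 with hRdef
  have hR : 0 < R := by positivity
  refine ⟨R / 4, by positivity, κ * ∫ y in Metric.ball x (R / 4), u y,
    mul_pos hκ (hp _ (by positivity)), ?_⟩
  filter_upwards [hk] with y hy hyb
  rw [Metric.mem_ball] at hyb
  have hsub : Metric.closedBall y R ⊆ Ω := by
    refine Subset.trans ?_ hρΩ
    intro z hz
    rw [Metric.mem_closedBall] at *
    have := dist_triangle z y x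
    linarith
  refine le_trans ?_ (hy R hR hsub)
  refine mul_le_mul_of_nonneg_left ?_ hκ.le
  refine setIntegral_mono_set (GS.integrable_aux hΩ h).integrableOn
    (Eventually.of_forall fun z => h.u_nonneg z) (LE.le.eventuallyLE ?_)
  intro z hz
  rw [Metric.mem_closedBall]
  rw [Metric.mem_ball] at hz
  have := dist_triangle z x y
  rw [dist_comm x y] at this
  linarith

theorem GS.zero_of_not_LB (hΩ : Dom Ω) (h : GS Ω φ u V) {x : ℂ} (hx : x ∈ Ω) (hn : ¬ LB u x) :
    ∃ r : ℝ, 0 < r ∧ ∀ᵐ y, y ∈ Metric.ball x r → u y = 0 := by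
  have hp : ¬ ∀ r > 0, 0 < ∫ y in Metric.ball x r, u y := fun hp => hn (GS.LB_of_pos hΩ h hx hp)
  push Not at hp
  obtain ⟨r, hr, hint⟩ := hp
  refine ⟨r, hr, ?_⟩
  have h0 : ∫ y in Metric.ball x r, u y = 0 :=
    le_antisymm hint (integral_nonneg fun y => h.u_nonneg y)
  have h1 := (integral_eq_zero_iff_of_nonneg (μ := volume.restrict (Metric.ball x r))
    (fun y => h.u_nonneg y) (GS.integrable_aux hΩ h).integrableOn).1 h0
  exact (ae_restrict_iff' Metric.isOpen_ball.measurableSet).1 h1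

theorem GS.LB_all (hΩ : Dom Ω) (h : GS Ω φ u V) {x : ℂ} (hx : x ∈ Ω) : LB u x := by
  set A : Set ℂ := {x | LB u x} with hA
  set B : Set ℂ := {x | ∃ r : ℝ, 0 < r ∧ ∀ᵐ y, y ∈ Metric.ball x r → u y = 0} with hB
  have hAo : IsOpen A := isOpen_LB u
  have hBo : IsOpen B := by
    rw [Metric.isOpen_iff]
    rintro z ⟨r, hr, hae⟩
    refine ⟨r / 2, by positivity, fun z' hz' => ⟨r / 2, by positivity, ?_⟩⟩
    filter_upwards [hae] with y hy hy'
    refine hy ?_
    rw [Metric.mem_ball] at *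
    linarith [dist_triangle y z' z]
  have hdisj : Disjoint A B := by
    rw [Set.disjoint_left]
    rintro z ⟨r, hr, c, hc, hae⟩ ⟨r', hr', hae'⟩
    have hpos : 0 < volume (Metric.ball z (min r r')) :=
      Metric.measure_ball_pos _ _ (lt_min hr hr')
    have hnull : volume (Metric.ball z (min r r')) = 0 := by
      have : ∀ᵐ y, y ∉ Metric.ball z (min r r') := by
        filter_upwards [hae, hae'] with y h1 h2 hy
        have h3 := h1 (Metric.ball_subset_ball (min_le_left _ _) hy)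
        have h4 := h2 (Metric.ball_subset_ball (min_le_right _ _) hy)
        linarith
      exact measure_eq_zero_iff_ae_notMem.2 this
    exact hpos.ne' hnull
  have hcov : Ω ⊆ A ∪ B := by
    intro z hz
    by_cases hl : LB u z
    · exact Or.inl hl
    · exact Or.inr (GS.zero_of_not_LB hΩ h hz hl)
  have hne : (Ω ∩ A).Nonempty := by
    by_contra hemp
    rw [not_nonempty_iff_eq_empty] at hemp
    have hnull : volume {x | x ∈ Ω ∧ u x ≠ 0} = 0 := by
      refine measure_null_of_locally_null _ ?_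
      rintro z ⟨hz, -⟩
      have hzB : ¬ LB u z := fun hl => by
        have : z ∈ Ω ∩ A := ⟨hz, hl⟩
        rw [hemp] at this
        exact this
      obtain ⟨r, hr, hae⟩ := GS.zero_of_not_LB hΩ h hz hzB
      refine ⟨Metric.ball z r ∩ {x | x ∈ Ω ∧ u x ≠ 0}, ?_, ?_⟩
      · exact inter_mem (mem_nhdsWithin_of_mem_nhds (Metric.ball_mem_nhds z hr))
          self_mem_nhdsWithin
      · have : ∀ᵐ y, y ∉ Metric.ball z r ∩ {x | x ∈ Ω ∧ u x ≠ 0} := by
          filter_upwards [hae] with y hy hy'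
          exact hy'.2.2 (hy hy'.1)
        exact measure_eq_zero_iff_ae_notMem.2 this
    have hu0 : ∀ᵐ x, u x ^ 2 = 0 := by
      have : ∀ᵐ x, x ∉ {x | x ∈ Ω ∧ u x ≠ 0} := by
        simpa [ae_iff] using hnull
      filter_upwards [this] with x hx
      by_cases hxΩ : x ∈ Ω
      · have : u x = 0 := by
          by_contra hne
          exact hx ⟨hxΩ, hne⟩
        rw [this]; norm_num
      · rw [h.u_out x hxΩ]; norm_num
    have : ∫ x, u x ^ 2 = 0 := by
      rw [integral_congr_ae hu0]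
      simp
    rw [h.mass_one] at this
    exact one_ne_zero this
  exact hΩ.convex.isPreconnected.subset_left_of_subset_union hAo hBo hdisj hcov hne hx

end

theorem GS.pos_on_compact {Ω : Set ℂ} (hΩ : Dom Ω) {φ : ℕ → ℂ → ℝ} {u : ℂ → ℝ}
    {V : ℂ → ℂ →L[ℝ] ℝ} (h : GS Ω φ u V) {K : Set ℂ} (hK : IsCompact K) (hKΩ : K ⊆ Ω) :
    ∃ c : ℝ, 0 < c ∧ ∀ᵐ x, x ∈ K → c ≤ u x := by
  have key := fun x (hx : x ∈ K) => GS.LB_all hΩ h (hKΩ hx)
  refine hK.induction_on (p := fun K => ∃ c : ℝ, 0 < c ∧ ∀ᵐ x, x ∈ K → c ≤ u x) ?_ ?_ ?_ ?_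
  · exact ⟨1, one_pos, by simp⟩
  · rintro s t hst ⟨c, hc, hae⟩
    exact ⟨c, hc, by filter_upwards [hae] with x hx hxs using hx (hst hxs)⟩
  · rintro s t ⟨c, hc, hae⟩ ⟨c', hc', hae'⟩
    refine ⟨min c c', lt_min hc hc', ?_⟩
    filter_upwards [hae, hae'] with x h1 h2 hx
    rcases hx with hx | hx
    · exact (min_le_left _ _).trans (h1 hx)
    · exact (min_le_right _ _).trans (h2 hx)
  · intro x hx
    obtain ⟨r, hr, c, hc, hae⟩ := key x hx
    exact ⟨Metric.ball x r, mem_nhdsWithin_of_mem_nhds (Metric.ball_mem_nhds x hr), c, hc, hae⟩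

theorem GS.pos_ae {Ω : Set ℂ} (hΩ : Dom Ω) {φ : ℕ → ℂ → ℝ} {u : ℂ → ℝ}
    {V : ℂ → ℂ →L[ℝ] ℝ} (h : GS Ω φ u V) : ∀ᵐ x, x ∈ Ω → 0 < u x := by
  have hnull : volume {x | x ∈ Ω ∧ ¬ 0 < u x} = 0 := by
    refine measure_null_of_locally_null _ ?_
    rintro z ⟨hz, -⟩
    obtain ⟨r, hr, c, hc, hae⟩ := GS.LB_all hΩ h hz
    refine ⟨Metric.ball z r ∩ {x | x ∈ Ω ∧ ¬ 0 < u x}, ?_, ?_⟩
    · exact inter_mem (mem_nhdsWithin_of_mem_nhds (Metric.ball_mem_nhds z hr))
        self_mem_nhdsWithin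
    · have : ∀ᵐ y, y ∉ Metric.ball z r ∩ {x | x ∈ Ω ∧ ¬ 0 < u x} := by
        filter_upwards [hae] with y hy hy'
        exact hy'.2.2 (hc.trans_le (hy hy'.1))
      exact measure_eq_zero_iff_ae_notMem.2 this
  have : ∀ᵐ x, x ∉ {x | x ∈ Ω ∧ ¬ 0 < u x} := by
    simpa [ae_iff] using hnull
  filter_upwards [this] with x hx hxΩ
  by_contra hne
  exact hx ⟨hxΩ, hne⟩

end

end Pool.Agent.Lib.MP_4cfb03_an
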