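import Pool.Agent.Lib.MP_4cfb03_an.SobA
import Pool.Agent.Lib.MP_4cfb03_an.Slice
import Pool.Agent.Lib.MP_4cfb03_an.Sob
import Pool.Agent.Lib.MP_4cfb03_an.Kernel
import Pool.Agent.Lib.MP_4cfb03_an.GS
import Pool.Agent.Lib.MP_4cfb03_an.Pos

/-! # T18 (Sub): the boundary flux is nonnegative, the ground state is bounded. -/

open MeasureTheory Set
open scoped ENNReal ContDiff Topology

namespace Pool.Agent.Lib.MP_4cfb03_an

noncomputable section

theorem sub_abs_dot_le (L M : ℂ →L[ℝ] ℝ) : |dot L M| ≤ ‖L‖ * ‖M‖ := by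
  refine abs_le_of_sq_le_sq ?_ (by positivity)
  rw [mul_pow, norm_sq_eq_dot, norm_sq_eq_dot]
  unfold dot
  nlinarith [sq_nonneg (L 1 * M Complex.I - L Complex.I * M 1)]

theorem sub_measurable_dot {V W : ℂ → ℂ →L[ℝ] ℝ} (hV : Measurable V) (hW : Measurable W) :
    Measurable (fun x => dot (V x) (W x)) := by
  unfold dot
  have h : ∀ v : ℂ, Measurable fun x => V x v := fun v =>
    (ContinuousLinearMap.apply ℝ ℝ v).continuous.measurable.comp hV
  have h' : ∀ v : ℂ, Measurable fun x => W x v := fun v =>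
    (ContinuousLinearMap.apply ℝ ℝ v).continuous.measurable.comp hW
  exact ((h 1).mul (h' 1)).add ((h Complex.I).mul (h' Complex.I))

theorem sub_ae_subseq {φ : ℕ → ℂ → ℝ} {u : ℂ → ℝ} (hφ : ∀ n, Continuous (φ n))
    (hu : Measurable u) (hi : ∀ n, Integrable (fun x => (φ n x - u x) ^ 2))
    (h : Filter.Tendsto (fun n => ∫ x, (φ n x - u x) ^ 2) Filter.atTop (𝓝 0)) :
    ∃ ns : ℕ → ℕ, StrictMono ns ∧
      ∀ᵐ x, Filter.Tendsto (fun k => φ (ns k) x) Filter.atTop (𝓝 (u x)) := by
  have h1 : Filter.Tendsto (fun n => eLpNorm ((fun x => (φ n x - u x) ^ 2) - fun _ => (0 : ℝ))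
      1 volume) Filter.atTop (𝓝 0) := by
    have h2 : ∀ n, eLpNorm ((fun x => (φ n x - u x) ^ 2) - fun _ => (0 : ℝ)) 1 volume =
        ENNReal.ofReal (∫ x, (φ n x - u x) ^ 2) := by
      intro n
      rw [eLpNorm_one_eq_lintegral_enorm, ofReal_integral_eq_lintegral_ofReal (hi n)
        (Filter.Eventually.of_forall fun x => sq_nonneg _)]
      refine lintegral_congr fun x => ?_
      simp only [Pi.sub_apply, sub_zero]
      rw [Real.enorm_of_nonneg (sq_nonneg _)]
    simp only [h2]
    have := ENNReal.tendsto_ofReal h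
    simpa using this
  have h3 : TendstoInMeasure volume (fun n x => (φ n x - u x) ^ 2) Filter.atTop
      (fun _ => (0 : ℝ)) := by
    refine tendstoInMeasure_of_tendsto_eLpNorm (p := 1) one_ne_zero ?_ ?_ h1
    · intro n
      exact (((hφ n).measurable.sub hu).pow_const 2).aestronglyMeasurable
    · exact measurable_const.aestronglyMeasurable
  obtain ⟨ns, hns, hae⟩ := h3.exists_seq_tendsto_ae
  refine ⟨ns, hns, ?_⟩
  filter_upwards [hae] with x hx
  have h4 : Filter.Tendsto (fun k => |φ (ns k) x - u x|) Filter.atTop (𝓝 0) := by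
    have := (Real.continuous_sqrt.tendsto 0).comp hx
    simpa [Function.comp_def, Real.sqrt_sq_eq_abs] using this
  exact tendsto_iff_norm_sub_tendsto_zero.2 (by simpa [Real.norm_eq_abs] using h4)

theorem sub_memLp_of_lip {w : ℂ → ℝ} (hw : Lip w) (hwc : HasCompactSupport w) :
    MemLp w 2 volume :=
  hw.continuous.memLp_of_hasCompactSupport hwc

theorem sub_memLp_fderiv {w : ℂ → ℝ} (hw : Lip w) (hwc : HasCompactSupport w) :
    MemLp (fun x => fderiv ℝ w x) 2 volume := by
  obtain ⟨K, hK⟩ := hw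
  have hsub : Function.support (fun x => fderiv ℝ w x) ⊆ tsupport w := support_fderiv_subset ℝ
  have hm : MeasurableSet (tsupport w) := (isClosed_tsupport w).measurableSet
  have h1 : MemLp ((tsupport w).indicator fun _ => (K : ℝ)) 2 volume :=
    memLp_indicator_const 2 hm (K : ℝ) (Or.inr hwc.measure_lt_top.ne)
  refine h1.mono (measurable_fderiv ℝ w).aestronglyMeasurable ?_
  refine Filter.Eventually.of_forall fun x => ?_
  by_cases hx : x ∈ tsupport w
  · rw [Set.indicator_of_mem hx]
    exact (norm_fderiv_le_of_lip hK x).trans (le_abs_self _)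
  · rw [fderiv_eq_zero_of_notMem hx, norm_zero]
    exact norm_nonneg _

theorem sub_lip_min {v w : ℂ → ℝ} (hv : Lip v) (hw : Lip w) :
    Lip (fun y => min (v y) (w y)) := by
  obtain ⟨K, hK⟩ := hv
  obtain ⟨K', hK'⟩ := hw
  exact ⟨max K K', hK.min hK'⟩

theorem sub_lip_of_smooth {w : ℂ → ℝ} (hw : ContDiff ℝ 1 w) (hc : HasCompactSupport w) :
    Lip w := hw.lipschitzWith_of_hasCompactSupport hc (by norm_num)

theorem GS.flux_nonneg {Ω : Set ℂ} (hΩ : Dom Ω) {φ : ℕ → ℂ → ℝ} {u : ℂ → ℝ}
    {V : ℂ → ℂ →L[ℝ] ℝ} (h : GS Ω φ u V) {w : ℂ → ℝ} (hw : Lip w) (hwc : HasCompactSupport w)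
    (h0 : ∀ x ∈ Ω, 0 ≤ w x) : 0 ≤ flux Ω u V w := by
  have hφc : ∀ n, Continuous (φ n) := fun n => (h.smooth n).continuous
  have hφL : ∀ n, Lip (φ n) := fun n =>
    sub_lip_of_smooth ((h.smooth n).of_le (by exact_mod_cast le_top)) (h.compact n)
  have hiu : ∀ n, Integrable (fun x => (φ n x - u x) ^ 2) := fun n =>
    ((sub_memLp_of_lip (hφL n) (h.compact n)).sub h.memu).integrable_sq
  obtain ⟨ns, hns, hae⟩ := sub_ae_subseq hφc h.u_meas hiu h.limu
  set a : ℕ → ℝ := fun n => ∫ x, ‖fderiv ℝ (φ n) x - V x‖ ^ 2 with ha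
  have ha0 : ∀ n, 0 ≤ a n := fun n => integral_nonneg fun x => by positivity
  set s : ℕ → ℝ := fun n => Real.sqrt (Real.sqrt (a n)) with hs
  have hs0 : ∀ n, 0 ≤ s n := fun n => Real.sqrt_nonneg _
  have hs4 : ∀ n, s n ^ 4 = a n := by
    intro n
    have : s n ^ 4 = (s n ^ 2) ^ 2 := by ring
    rw [this, hs]
    simp only
    rw [Real.sq_sqrt (Real.sqrt_nonneg _), Real.sq_sqrt (ha0 n)]
  have hslim : Filter.Tendsto s Filter.atTop (𝓝 0) := by
    have h1 : Filter.Tendsto a Filter.atTop (𝓝 0) := h.limV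
    have h2 := (Real.continuous_sqrt.comp Real.continuous_sqrt).tendsto 0 |>.comp h1
    simpa [Function.comp_def] using h2
  set e : ℕ → ℝ := fun n => s n + 1 / ((n : ℝ) + 1) with he
  have he0 : ∀ n, 0 < e n := fun n => by
    have : (0 : ℝ) < 1 / ((n : ℝ) + 1) := by positivity
    have := hs0 n
    simp only [he]; linarith
  have hse : ∀ n, s n ≤ e n := fun n => by
    have : (0 : ℝ) < 1 / ((n : ℝ) + 1) := by positivity
    simp only [he]; linarith
  have helim : Filter.Tendsto e Filter.atTop (𝓝 0) := by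
    have := hslim.add (tendsto_one_div_add_atTop_nhds_zero_nat (𝕜 := ℝ))
    simpa [he] using this
  have hl0 : 0 ≤ lam1 Ω := (lam1_pos hΩ).le
  -- the functions `w⁺` and `v n`
  set wp : ℂ → ℝ := fun y => max (w y) 0 with hwp
  have hwpL : Lip wp := hw.posPart
  have hwpc : HasCompactSupport wp := by
    refine hwc.comp_left (g := fun t => max t 0) ?_
    simp
  have hwp0 : ∀ x, 0 ≤ wp x := fun x => le_max_right _ _
  have hwpΩ : ∀ x ∈ Ω, wp x = w x := fun x hx => max_eq_left (h0 x hx)
  have hdL : ∀ n, Lip (fun y => (e n)⁻¹ * φ n y) := fun n =>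
    sub_lip_of_smooth (contDiff_const.mul ((h.smooth n).of_le (by exact_mod_cast le_top)))
      ((h.compact n).mul_left)
  set v : ℕ → ℂ → ℝ := fun n y => min (wp y) ((e n)⁻¹ * φ n y) with hv
  have hvL : ∀ n, Lip (v n) := fun n => sub_lip_min hwpL (hdL n)
  have hvA : ∀ n, Adm Ω (v n) := by
    intro n
    refine ⟨hvL n, fun x hx => ?_⟩
    have : φ n x = 0 := image_eq_zero_of_notMem_tsupport fun h' => hx (h.supp n h')
    simp only [hv, this, mul_zero]
    exact min_eq_right (hwp0 x)
  have hvc : ∀ n, HasCompactSupport (v n) := fun n => (hvA n).hasCompactSupport hΩ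
  have hweak : ∀ n, ∫ x, dot (V x) (fderiv ℝ (v n) x) = lam1 Ω * ∫ x, u x * v n x := fun n =>
    h.weak hΩ (hvA n)
  have huw : Integrable (fun x => u x * w x) :=
    h.memu.integrable_mul (sub_memLp_of_lip hw hwc)
  have huv : ∀ n, Integrable (fun x => u x * v n x) := fun n =>
    h.memu.integrable_mul (sub_memLp_of_lip (hvL n) (hvc n))
  have hle1 : ∀ n, ∫ x, u x * v n x ≤ ∫ x, u x * w x := by
    intro n
    refine integral_mono (huv n) huw fun x => ?_
    by_cases hx : x ∈ Ω
    · refine mul_le_mul_of_nonneg_left ?_ (h.u_nonneg x)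
      rw [← hwpΩ x hx]
      exact min_le_left _ _
    · simp [h.u_out x hx]
  -- integrability of the scalar products
  have hdint : ∀ f : ℂ → ℝ, Lip f → HasCompactSupport f →
      Integrable (fun x => ‖V x‖ * ‖fderiv ℝ f x‖) := fun f hf hfc =>
    h.memV.norm.integrable_mul (sub_memLp_fderiv hf hfc).norm
  have hdot : ∀ f : ℂ → ℝ, Lip f → HasCompactSupport f →
      Integrable (fun x => dot (V x) (fderiv ℝ f x)) := fun f hf hfc =>
    (hdint f hf hfc).mono (sub_measurable_dot h.V_meas (measurable_fderiv ℝ f)).aestronglyMeasurable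
      (Filter.Eventually.of_forall fun x => by
        rw [Real.norm_eq_abs, Real.norm_of_nonneg (by positivity)]
        exact sub_abs_dot_le _ _)
  have hVi : Integrable (fun x => ‖V x‖ ^ 2) := h.memV.norm.integrable_sq
  have hVd : ∀ n, Integrable (fun x => ‖fderiv ℝ (φ n) x - V x‖ ^ 2) := fun n =>
    ((sub_memLp_fderiv (hφL n) (h.compact n)).sub h.memV).norm.integrable_sq
  set A : ℕ → Set ℂ := fun n => {x | wp x < (e n)⁻¹ * φ n x} with hA
  have hAm : ∀ n, MeasurableSet (A n) := fun n =>
    measurableSet_lt hwpL.continuous.measurable (hdL n).continuous.measurable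
  set g : ℂ → ℝ := fun x => dot (V x) (fderiv ℝ wp x) with hg
  have hgi : Integrable g := hdot wp hwpL hwpc
  have hpt : ∀ n, ∀ᵐ x, (A n).indicator g x - e n / 2 * ‖V x‖ ^ 2
      - 1 / (2 * e n ^ 3) * ‖fderiv ℝ (φ n) x - V x‖ ^ 2 ≤ dot (V x) (fderiv ℝ (v n) x) := by
    intro n
    filter_upwards [fderiv_min_ae hwpL (hdL n)] with x hx
    rw [hx]
    have hp := he0 n
    have e1 : 0 ≤ e n / 2 * ‖V x‖ ^ 2 := by positivity
    have e2 : 0 ≤ 1 / (2 * e n ^ 3) * ‖fderiv ℝ (φ n) x - V x‖ ^ 2 := by positivity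
    by_cases hxA : wp x < (e n)⁻¹ * φ n x
    · rw [if_pos hxA, Set.indicator_of_mem (show x ∈ A n from hxA)]
      simp only [hg]
      linarith
    · rw [if_neg hxA, Set.indicator_of_notMem (show x ∉ A n from hxA)]
      have e3 : fderiv ℝ (fun y => (e n)⁻¹ * φ n y) x = (e n)⁻¹ • fderiv ℝ (φ n) x :=
        fderiv_const_mul ((h.smooth n).differentiable (by simp) x) _
      rw [e3]
      have e4 : dot (V x) ((e n)⁻¹ • fderiv ℝ (φ n) x) =
          (e n)⁻¹ * (‖V x‖ ^ 2 + dot (V x) (fderiv ℝ (φ n) x - V x)) := by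
        rw [norm_sq_eq_dot]
        unfold dot
        simp only [smul_apply, sub_apply, smul_eq_mul]
        ring
      rw [e4]
      have e5 := neg_le_of_abs_le (sub_abs_dot_le (V x) (fderiv ℝ (φ n) x - V x))
      set p := ‖V x‖
      set q := ‖fderiv ℝ (φ n) x - V x‖
      set d := dot (V x) (fderiv ℝ (φ n) x - V x)
      have e6 : p * q ≤ e n ^ 2 / 2 * p ^ 2 + 1 / (2 * e n ^ 2) * q ^ 2 := by
        have : e n ^ 2 / 2 * p ^ 2 + 1 / (2 * e n ^ 2) * q ^ 2 - p * q =
            (e n * p - q / e n) ^ 2 / 2 := by field_simp; ring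
        nlinarith [sq_nonneg (e n * p - q / e n)]
      have e7 : -(e n ^ 2 / 2 * p ^ 2 + 1 / (2 * e n ^ 2) * q ^ 2) ≤ p ^ 2 + d := by
        nlinarith [sq_nonneg p]
      have e8 := mul_le_mul_of_nonneg_left e7 (inv_nonneg.2 hp.le)
      have e9 : (e n)⁻¹ * -(e n ^ 2 / 2 * p ^ 2 + 1 / (2 * e n ^ 2) * q ^ 2) =
          0 - e n / 2 * p ^ 2 - 1 / (2 * e n ^ 3) * q ^ 2 := by field_simp; ring
      linarith
  have hineq : ∀ n, ∫ x, (A n).indicator g x ≤ lam1 Ω * (∫ x, u x * w x) +
      (e n / 2 * (∫ x, ‖V x‖ ^ 2) + 1 / (2 * e n ^ 3) * a n) := by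
    intro n
    have i1 : Integrable (fun x => (A n).indicator g x) := hgi.indicator (hAm n)
    have i2 : Integrable (fun x => e n / 2 * ‖V x‖ ^ 2) := hVi.const_mul _
    have i3 : Integrable (fun x => 1 / (2 * e n ^ 3) * ‖fderiv ℝ (φ n) x - V x‖ ^ 2) :=
      (hVd n).const_mul _
    have j1 := integral_mono_ae ((i1.sub i2).sub i3) (hdot (v n) (hvL n) (hvc n)) (hpt n)
    rw [hweak n] at j1
    have j2 : ∫ x, ((A n).indicator g x - e n / 2 * ‖V x‖ ^ 2
        - 1 / (2 * e n ^ 3) * ‖fderiv ℝ (φ n) x - V x‖ ^ 2) =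
        (∫ x, (A n).indicator g x) - e n / 2 * (∫ x, ‖V x‖ ^ 2) - 1 / (2 * e n ^ 3) * a n := by
      have i12 : Integrable (fun x => (A n).indicator g x - e n / 2 * ‖V x‖ ^ 2) := i1.sub i2
      rw [integral_sub i12 i3, integral_sub i1 i2, integral_const_mul, integral_const_mul]
    have j3 := mul_le_mul_of_nonneg_left (hle1 n) hl0
    have j4 : ∫ x, ((A n).indicator g x - e n / 2 * ‖V x‖ ^ 2
        - 1 / (2 * e n ^ 3) * ‖fderiv ℝ (φ n) x - V x‖ ^ 2) ≤ lam1 Ω * ∫ x, u x * v n x := j1
    rw [j2] at j4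
    linarith
  -- the limit of the left hand side
  have hlim1 : Filter.Tendsto (fun k => ∫ x, (A (ns k)).indicator g x) Filter.atTop
      (𝓝 (∫ x, dot (V x) (fderiv ℝ w x))) := by
    refine tendsto_integral_of_dominated_convergence (fun x => |g x|) ?_ hgi.abs ?_ ?_
    · intro k
      exact (hgi.indicator (hAm (ns k))).aestronglyMeasurable
    · intro k
      refine Filter.Eventually.of_forall fun x => ?_
      rw [Real.norm_eq_abs]
      by_cases hxA : x ∈ A (ns k)
      · rw [Set.indicator_of_mem hxA]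
      · rw [Set.indicator_of_notMem hxA, abs_zero]; exact abs_nonneg _
    · filter_upwards [hae, h.pos_ae hΩ] with x hx1 hx2
      by_cases hxΩ : x ∈ Ω
      · have hux := hx2 hxΩ
        have hgx : g x = dot (V x) (fderiv ℝ w x) := by
          simp only [hg]
          congr 1
          refine Filter.EventuallyEq.fderiv_eq ?_
          filter_upwards [hΩ.isOpen.mem_nhds hxΩ] with y hy
          exact hwpΩ y hy
        have hinf : Filter.Tendsto (fun k => (e (ns k))⁻¹ * φ (ns k) x) Filter.atTop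
            Filter.atTop := by
          have t1 : Filter.Tendsto (fun k => (e (ns k))⁻¹) Filter.atTop Filter.atTop := by
            refine Filter.Tendsto.comp tendsto_inv_nhdsGT_zero ?_
            refine tendsto_nhdsWithin_iff.2 ⟨helim.comp hns.tendsto_atTop, ?_⟩
            exact Filter.Eventually.of_forall fun k => he0 (ns k)
          exact t1.atTop_mul_pos hux hx1
        refine tendsto_const_nhds.congr' ?_
        filter_upwards [hinf.eventually_gt_atTop (wp x)] with k hk
        rw [Set.indicator_of_mem (show x ∈ A (ns k) from hk), hgx]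
      · have hz : ∀ M, dot (V x) M = 0 := fun M => by simp [dot, h.V_out x hxΩ]
        refine tendsto_const_nhds.congr' ?_
        refine Filter.Eventually.of_forall fun k => ?_
        rw [hz]
        show (0 : ℝ) = (A (ns k)).indicator g x
        by_cases hxA : x ∈ A (ns k)
        · rw [Set.indicator_of_mem hxA]; exact (hz _).symm
        · rw [Set.indicator_of_notMem hxA]
  have hlim2 : Filter.Tendsto (fun k => lam1 Ω * (∫ x, u x * w x) +
      (e (ns k) / 2 * (∫ x, ‖V x‖ ^ 2) + 1 / (2 * e (ns k) ^ 3) * a (ns k))) Filter.atTop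
      (𝓝 (lam1 Ω * (∫ x, u x * w x))) := by
    have t1 : Filter.Tendsto (fun n => e n / 2 * (∫ x, ‖V x‖ ^ 2)) Filter.atTop (𝓝 0) := by
      have := (helim.div_const 2).mul_const (∫ x, ‖V x‖ ^ 2)
      simpa using this
    have t2 : Filter.Tendsto (fun n => 1 / (2 * e n ^ 3) * a n) Filter.atTop (𝓝 0) := by
      refine squeeze_zero (fun n => ?_) (fun n => ?_) hslim
      · have := he0 n
        have := ha0 n
        positivity
      · have hp := he0 n
        have h3 : s n ^ 3 ≤ e n ^ 3 := pow_le_pow_left₀ (hs0 n) (hse n) 3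
        rw [← hs4 n, one_div, inv_mul_le_iff₀ (by positivity)]
        nlinarith [mul_le_mul_of_nonneg_left h3 (hs0 n), pow_pos hp 3, hs0 n,
          mul_nonneg (hs0 n) (pow_pos hp 3).le]
    have t3 := (tendsto_const_nhds (x := lam1 Ω * (∫ x, u x * w x))).add (t1.add t2)
    have t4 := t3.comp hns.tendsto_atTop
    simpa [Function.comp_def] using t4
  have hfin := le_of_tendsto_of_tendsto' hlim1 hlim2 fun k => hineq (ns k)
  unfold flux
  linarith

theorem GS.bounded {Ω : Set ℂ} (hΩ : Dom Ω) {φ : ℕ → ℂ → ℝ} {u : ℂ → ℝ}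
    {V : ℂ → ℂ →L[ℝ] ℝ} (h : GS Ω φ u V) : ∃ M : ℝ, ∀ᵐ x, u x ≤ M := by
  obtain ⟨C0, hC0, c0, hc0, hker⟩ := exists_kernel
  have hl0 : 0 ≤ lam1 Ω := (lam1_pos hΩ).le
  have hu2 : Integrable (fun x => u x ^ 2) := h.memu.integrable_sq
  have hloc : ∀ (x0 : ℂ) (r : ℝ), IntegrableOn u (Metric.closedBall x0 r) := by
    intro x0 r
    have : IsFiniteMeasure (volume.restrict (Metric.closedBall x0 r)) :=
      ⟨by rw [Measure.restrict_apply_univ]; exact measure_closedBall_lt_top⟩
    exact (h.memu.restrict _).integrable one_le_two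
  set C : ℝ := C0 * ((Real.pi + 1) / 2) + lam1 Ω * ((1 + C0) / 2) with hC
  have hvol : ∀ (x0 : ℂ) (r : ℝ), 0 ≤ r →
      (volume (Metric.closedBall x0 r)).toReal = Real.pi * r ^ 2 := by
    intro x0 r hr
    rw [Complex.volume_closedBall, ENNReal.toReal_mul, ENNReal.toReal_pow,
      ENNReal.toReal_ofReal hr]
    simp [mul_comm]
  have hkey : ∀ (x0 : ℂ) (ε : ℝ), 0 < ε → ε < 1 / 4 →
      1 / ε ^ 2 * ∫ x in Metric.closedBall x0 (ε / 2), u x ≤ C := by
    intro x0 ε hε hε4
    obtain ⟨w, hw2, hw0, hwout, -, -, -, hlow, hlow2, hwint⟩ := hker x0 1 ε one_pos hε hε4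
    have hwc : HasCompactSupport w := by
      refine HasCompactSupport.intro (isCompact_closedBall x0 1) fun x hx => hwout x ?_
      rw [Metric.mem_closedBall, not_le, dist_eq_norm] at hx
      exact hx.le
    have hwL : Lip w := hw2.lipschitzWith_of_hasCompactSupport hwc (by norm_num)
    have hlapc : Continuous (lap w) := by
      unfold lap
      have : ∀ v : ℂ, Continuous fun x => fderiv ℝ (fun y => fderiv ℝ w y v) x v := fun v =>
        ((contDiff_fderiv_apply hw2 v).continuous_fderiv (by norm_num)).clm_apply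
          continuous_const
      exact (this 1).add (this Complex.I)
    have hlap0 : ∀ x, x ∉ Metric.closedBall x0 1 → lap w x = 0 := by
      intro x hx
      have hev : w =ᶠ[𝓝 x] fun _ => 0 := by
        filter_upwards [Metric.isClosed_closedBall.isOpen_compl.mem_nhds hx] with y hy
        refine hwout y ?_
        rw [Set.mem_compl_iff, Metric.mem_closedBall, not_le, dist_eq_norm] at hy
        exact hy.le
      have hev' : ∀ v : ℂ, (fun y => fderiv ℝ w y v) =ᶠ[𝓝 x] fun _ => 0 := by
        intro v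
        filter_upwards [hev.fderiv (𝕜 := ℝ)] with y hy
        rw [hy]
        simp
      unfold lap
      rw [(hev' 1).fderiv_eq, (hev' Complex.I).fderiv_eq]
      simp
    have hlapcs : HasCompactSupport (lap w) :=
      HasCompactSupport.intro (isCompact_closedBall x0 1) hlap0
    have hflux := h.flux_nonneg hΩ hwL hwc fun x _ => hw0 x
    unfold flux at hflux
    rw [h.dot_lap hΩ hw2 hwc] at hflux
    have hlapm : MemLp (lap w) 2 volume := hlapc.memLp_of_hasCompactSupport hlapcs
    have hwm : MemLp w 2 volume := hw2.continuous.memLp_of_hasCompactSupport hwc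
    have iul : Integrable (fun x => u x * lap w x) := h.memu.integrable_mul hlapm
    have iuw : Integrable (fun x => u x * w x) := h.memu.integrable_mul hwm
    have iw2 : Integrable (fun x => w x ^ 2) := hwm.integrable_sq
    have b1 : ∫ x, u x * w x ≤ (1 + C0) / 2 := by
      have : ∫ x, u x * w x ≤ ∫ x, (u x ^ 2 / 2 + w x ^ 2 / 2) := by
        refine integral_mono iuw ((hu2.div_const 2).add (iw2.div_const 2)) fun x => ?_
        show u x * w x ≤ u x ^ 2 / 2 + w x ^ 2 / 2
        nlinarith [sq_nonneg (u x - w x)]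
      rw [integral_add (hu2.div_const 2) (iw2.div_const 2), integral_div, integral_div,
        h.mass_one] at this
      linarith
    set B1 := Metric.closedBall x0 (ε / 2) with hB1
    set B2 := Metric.closedBall x0 1 with hB2
    have mB1 : MeasurableSet B1 := measurableSet_closedBall
    have mB2 : MeasurableSet B2 := measurableSet_closedBall
    have i1 : Integrable (fun x => B1.indicator u x) := (hloc x0 (ε / 2)).integrable_indicator mB1
    have i2 : Integrable (fun x => B2.indicator u x) := (hloc x0 1).integrable_indicator mB2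
    have b2 : 1 / ε ^ 2 * (∫ x in B1, u x) - C0 * (∫ x in B2, u x) ≤
        - ∫ x, u x * lap w x := by
      rw [← integral_neg, ← integral_indicator mB1, ← integral_indicator mB2,
        ← integral_const_mul, ← integral_const_mul, ← integral_sub (i1.const_mul _)
        (i2.const_mul _)]
      refine integral_mono ((i1.const_mul _).sub (i2.const_mul _)) iul.neg fun x => ?_
      show 1 / ε ^ 2 * B1.indicator u x - C0 * B2.indicator u x ≤ -(u x * lap w x)
      have hux := h.u_nonneg x
      by_cases hx2 : x ∈ B2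
      · rw [Set.indicator_of_mem hx2]
        by_cases hx1 : x ∈ B1
        · rw [Set.indicator_of_mem hx1]
          have : ‖x - x0‖ ≤ ε / 2 := by
            rw [hB1, Metric.mem_closedBall, dist_eq_norm] at hx1; exact hx1
          have := mul_le_mul_of_nonneg_left (hlow2 x this) hux
          nlinarith [mul_nonneg hC0.le hux]
        · rw [Set.indicator_of_notMem hx1]
          have := mul_le_mul_of_nonneg_left (hlow x) hux
          norm_num at this
          linarith
      · have hx1 : x ∉ B1 := by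
          intro hx1
          refine hx2 ?_
          rw [hB1, Metric.mem_closedBall] at hx1
          rw [hB2, Metric.mem_closedBall]
          linarith
        rw [Set.indicator_of_notMem hx2, Set.indicator_of_notMem hx1, hlap0 x hx2]
        simp
    have icst : IntegrableOn (fun _ : ℂ => (1 / 2 : ℝ)) B2 volume :=
      integrableOn_const measure_closedBall_lt_top.ne
    have b3 : ∫ x in B2, u x ≤ (Real.pi + 1) / 2 := by
      have h1 : ∫ x in B2, u x ≤ ∫ x in B2, (1 / 2 + u x ^ 2 / 2) := by
        refine setIntegral_mono_on (hloc x0 1) ?_ mB2 fun x _ => ?_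
        · exact Integrable.add icst (hu2.integrableOn.div_const 2)
        · nlinarith [sq_nonneg (u x - 1)]
      have h2 : ∫ x in B2, (1 / 2 + u x ^ 2 / 2) = Real.pi / 2 + (∫ x in B2, u x ^ 2) / 2 := by
        rw [integral_add icst (hu2.integrableOn.div_const 2),
          integral_div (2 : ℝ) (fun x => u x ^ 2), setIntegral_const,
          Measure.real, hvol x0 1 zero_le_one]
        simp
        ring
      have h3 : ∫ x in B2, u x ^ 2 ≤ 1 := by
        rw [← h.mass_one]
        exact setIntegral_le_integral hu2 (Filter.Eventually.of_forall fun x => sq_nonneg _)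
      linarith
    have b4 := mul_le_mul_of_nonneg_left b1 hl0
    have b5 := mul_le_mul_of_nonneg_left b3 hC0.le
    rw [hC]
    linarith
  refine ⟨4 * C / Real.pi, ?_⟩
  have hli : LocallyIntegrable u volume := by
    refine (locallyIntegrable_iff).2 fun k hk => ?_
    obtain ⟨r, hr⟩ := hk.isBounded.subset_closedBall 0
    exact (hloc 0 r).mono_set hr
  filter_upwards [(Besicovitch.vitaliFamily (volume : Measure ℂ)).ae_tendsto_average hli] with x hx
  have ht := hx.comp (Besicovitch.tendsto_filterAt volume x)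
  refine le_of_tendsto ht ?_
  have hev : ∀ᶠ r : ℝ in 𝓝[>] 0, 0 < r ∧ r < 1 / 8 := by
    filter_upwards [Ioo_mem_nhdsGT (show (0 : ℝ) < 1 / 8 by norm_num)] with r hr
    exact hr
  filter_upwards [hev] with r hr
  show ⨍ y in Metric.closedBall x r, u y ≤ 4 * C / Real.pi
  have hk := hkey x (2 * r) (by linarith) (by linarith)
  rw [show 2 * r / 2 = r by ring] at hk
  rw [setAverage_eq, Measure.real, hvol x r hr.1.le, smul_eq_mul]
  have hr2 : 0 < r ^ 2 := by have := hr.1; positivity
  have hpi := Real.pi_pos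
  have e1 : (Real.pi * r ^ 2)⁻¹ * (∫ y in Metric.closedBall x r, u y) =
      4 * (1 / (2 * r) ^ 2 * (∫ y in Metric.closedBall x r, u y)) / Real.pi := by
    have := hr.1.ne'
    field_simp
    ring
  rw [e1]
  gcongr

end

end Pool.Agent.Lib.MP_4cfb03_an
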