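import Pool.Agent.Lib.MP_4cfb03_an.Slice
import Pool.Agent.Lib.MP_4cfb03_an.Sob
import Pool.Agent.Lib.MP_4cfb03_an.GS
import Pool.Agent.Lib.MP_4cfb03_an.Sub

open MeasureTheory Set
open scoped ENNReal ContDiff Topology

namespace Pool.Agent.Lib.MP_4cfb03_an

noncomputable section

namespace Up

/-! ### the pairing -/

lemma dot_comm (L M : ℂ →L[ℝ] ℝ) : dot L M = dot M L := by unfold dot; ring

lemma dot_sub_left (L L' M : ℂ →L[ℝ] ℝ) : dot (L - L') M = dot L M - dot L' M := by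
  simp only [dot, sub_apply]; ring

lemma dot_add_left (L L' M : ℂ →L[ℝ] ℝ) : dot (L + L') M = dot L M + dot L' M := by
  simp only [dot, add_apply]; ring

lemma dot_add_right (L M M' : ℂ →L[ℝ] ℝ) : dot L (M + M') = dot L M + dot L M' := by
  simp only [dot, add_apply]; ring

lemma dot_sub_right (L M M' : ℂ →L[ℝ] ℝ) : dot L (M - M') = dot L M - dot L M' := by
  simp only [dot, sub_apply]; ring

lemma dot_smul_left (c : ℝ) (L M : ℂ →L[ℝ] ℝ) : dot (c • L) M = c * dot L M := by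
  simp only [dot, smul_apply, smul_eq_mul]; ring

lemma dot_smul_right (c : ℝ) (L M : ℂ →L[ℝ] ℝ) : dot L (c • M) = c * dot L M := by
  simp only [dot, smul_apply, smul_eq_mul]; ring

lemma dot_zero_right (L : ℂ →L[ℝ] ℝ) : dot L 0 = 0 := by simp [dot]
lemma dot_zero_left (L : ℂ →L[ℝ] ℝ) : dot 0 L = 0 := by simp [dot]

lemma abs_dot_le (L M : ℂ →L[ℝ] ℝ) : |dot L M| ≤ ‖L‖ * ‖M‖ := by
  apply abs_le_of_sq_le_sq _ (by positivity)
  rw [mul_pow, norm_sq_eq_dot, norm_sq_eq_dot]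
  simp only [dot]
  nlinarith [sq_nonneg (L 1 * M Complex.I - L Complex.I * M 1)]

lemma dot_le_amgm (L M : ℂ →L[ℝ] ℝ) {δ : ℝ} (hδ : 0 < δ) :
    dot L M ≤ δ * ‖L‖ ^ 2 + 1 / (4 * δ) * ‖M‖ ^ 2 := by
  have h1 := (le_abs_self _).trans (abs_dot_le L M)
  have h2 : 0 ≤ δ * (‖L‖ - 1 / (2 * δ) * ‖M‖) ^ 2 := by positivity
  have h3 : δ * (‖L‖ - 1 / (2 * δ) * ‖M‖) ^ 2 =
      δ * ‖L‖ ^ 2 - ‖L‖ * ‖M‖ + 1 / (4 * δ) * ‖M‖ ^ 2 := by
    field_simp
    ring
  linarith

lemma integrable_dot {F G : ℂ → ℂ →L[ℝ] ℝ} (hF : MemLp F 2 volume) (hG : MemLp G 2 volume) :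
    Integrable (fun x => dot (F x) (G x)) := by
  have h1 : Integrable (fun x => ‖F x‖ * ‖G x‖) := hF.norm.integrable_mul hG.norm
  refine h1.mono' ?_ ?_
  · unfold dot
    have a : ∀ e : ℂ, AEStronglyMeasurable (fun x => F x e) volume := fun e =>
      hF.1.apply_continuousLinearMap e
    have b : ∀ e : ℂ, AEStronglyMeasurable (fun x => G x e) volume := fun e =>
      hG.1.apply_continuousLinearMap e
    exact ((a 1).mul (b 1)).add ((a Complex.I).mul (b Complex.I))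
  · refine Filter.Eventually.of_forall fun x => ?_
    rw [Real.norm_eq_abs]
    exact abs_dot_le _ _

lemma integrable_norm_sq {F : ℂ → ℂ →L[ℝ] ℝ} (hF : MemLp F 2 volume) :
    Integrable (fun x => ‖F x‖ ^ 2) := by
  have := hF.norm.integrable_sq
  exact this

/-! ### Lipschitz functions with compact support -/

lemma integrable_of_bdd {f : ℂ → ℝ} (hf : AEStronglyMeasurable f volume) {C : ℝ} {S : Set ℂ}
    (hS : IsCompact S) (hb : ∀ x, |f x| ≤ C) (h0 : ∀ x, x ∉ S → f x = 0) : Integrable f := by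
  have h1 : Integrable (S.indicator fun _ : ℂ => C) := by
    rw [integrable_indicator_iff hS.measurableSet]
    exact integrableOn_const hS.measure_lt_top.ne
  refine h1.mono' hf (Filter.Eventually.of_forall fun x => ?_)
  by_cases hx : x ∈ S
  · rw [Set.indicator_of_mem hx, Real.norm_eq_abs]
    exact hb x
  · rw [Set.indicator_of_notMem hx, h0 x hx, norm_zero]

lemma memLp_fderiv {v : ℂ → ℝ} (hv : Lip v) (hc : HasCompactSupport v) :
    MemLp (fderiv ℝ v) 2 volume := by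
  obtain ⟨K, hK⟩ := hv
  have hcs : HasCompactSupport (fderiv ℝ v) := hc.fderiv (𝕜 := ℝ)
  have hmeas : AEStronglyMeasurable (fderiv ℝ v) volume :=
    (measurable_fderiv ℝ v).aestronglyMeasurable
  rw [memLp_two_iff_integrable_sq_norm hmeas]
  refine integrable_of_bdd (C := (K : ℝ) ^ 2) (hmeas.norm.pow 2) hcs.isCompact ?_ ?_
  · intro x
    rw [abs_of_nonneg (by positivity)]
    exact pow_le_pow_left₀ (norm_nonneg _) (norm_fderiv_le_of_lipschitz ℝ hK) 2
  · intro x hx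
    rw [image_eq_zero_of_notMem_tsupport hx]
    simp

lemma memLp_of_continuous {v : ℂ → ℝ} (hv : Continuous v) (hc : HasCompactSupport v) :
    MemLp v 2 volume := hv.memLp_of_hasCompactSupport hc

lemma lip_cont {v : ℂ → ℝ} (hv : Lip v) : Continuous v := by
  obtain ⟨K, hK⟩ := hv
  exact hK.continuous

lemma lip_of_smooth {v : ℂ → ℝ} (hv : ContDiff ℝ ∞ v) (hc : HasCompactSupport v) : Lip v := by
  obtain ⟨K, hK⟩ := ContDiff.lipschitzWith_of_hasCompactSupport hc hv (by simp)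
  exact ⟨K, hK⟩

lemma lip_sub {v w : ℂ → ℝ} (hv : Lip v) (hw : Lip w) : Lip (fun x => v x - w x) := by
  obtain ⟨K, hK⟩ := hv
  obtain ⟨K', hK'⟩ := hw
  exact ⟨K + K', hK.sub hK'⟩

lemma lip_posPart {v : ℂ → ℝ} (hv : Lip v) : Lip (fun x => max (v x) 0) := by
  obtain ⟨K, hK⟩ := hv
  exact ⟨K, hK.max_const 0⟩

lemma lip_mul {v w : ℂ → ℝ} (hv : Lip v) (hw : Lip w) {A B : ℝ} (hA : ∀ x, |v x| ≤ A)
    (hB : ∀ x, |w x| ≤ B) : Lip (fun x => v x * w x) := by
  obtain ⟨K, hK⟩ := hv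
  obtain ⟨K', hK'⟩ := hw
  have hA0 : 0 ≤ A := (abs_nonneg _).trans (hA 0)
  have hB0 : 0 ≤ B := (abs_nonneg _).trans (hB 0)
  refine ⟨A.toNNReal * K' + B.toNNReal * K, LipschitzWith.of_dist_le_mul fun x y => ?_⟩
  have h1 := hK.dist_le_mul x y
  have h2 := hK'.dist_le_mul x y
  rw [Real.dist_eq] at h1 h2 ⊢
  have h3 : v x * w x - v y * w y = v x * (w x - w y) + w y * (v x - v y) := by ring
  rw [h3]
  refine (abs_add_le _ _).trans ?_
  rw [abs_mul, abs_mul]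
  have h4 : |v x| * |w x - w y| ≤ A * (K' * dist x y) :=
    mul_le_mul (hA x) h2 (abs_nonneg _) hA0
  have h5 : |w y| * |v x - v y| ≤ B * (K * dist x y) :=
    mul_le_mul (hB y) h1 (abs_nonneg _) hB0
  push_cast
  rw [Real.coe_toNNReal _ hA0, Real.coe_toNNReal _ hB0]
  linarith


/-! ### upper bound at the boundary -/

lemma fderiv_quad (n : ℂ →L[ℝ] ℝ) (A c H : ℝ) (x : ℂ) :
    fderiv ℝ (fun x => A * ((c - n x) * (2 * H - (c - n x)))) x =
      (A * (2 * (c - n x) - 2 * H)) • n := by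
  have h1 : HasFDerivAt (fun x => c - n x) (-n) x := n.hasFDerivAt.const_sub c
  have h2 : HasFDerivAt (fun x => 2 * H - (c - n x)) (- -n) x := h1.const_sub (2 * H)
  have h3 : HasFDerivAt (fun x => A * ((c - n x) * (2 * H - (c - n x))))
      (A • ((c - n x) • - -n + (2 * H - (c - n x)) • -n)) x := (h1.mul h2).const_mul A
  rw [h3.fderiv]
  ext v
  simp only [smul_apply, add_apply, neg_apply, smul_eq_mul]
  ring

lemma lap_quad (n : ℂ →L[ℝ] ℝ) (hn : ‖n‖ = 1) (A c H : ℝ) (x : ℂ) :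
    lap (fun x => A * ((c - n x) * (2 * H - (c - n x)))) x = -(2 * A) := by
  unfold lap
  simp only [fderiv_quad]
  have h : ∀ e : ℂ, fderiv ℝ (fun y => ((A * (2 * (c - n y) - 2 * H)) • n) e) x e =
      -(2 * A) * (n e) ^ 2 := by
    intro e
    have h1 : HasFDerivAt (fun x => c - n x) (-n) x := n.hasFDerivAt.const_sub c
    have h2 : HasFDerivAt (fun y => (A * (2 * (c - n y) - 2 * H)) * n e)
        ((n e) • (A • ((2 : ℝ) • (-n)))) x :=
      (((h1.const_mul 2).sub_const (2 * H)).const_mul A).mul_const (n e)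
    have h3 : (fun y => ((A * (2 * (c - n y) - 2 * H)) • n) e) =
        fun y => (A * (2 * (c - n y) - 2 * H)) * n e := by
      funext y; simp
    rw [h3, h2.fderiv]
    simp only [smul_apply, neg_apply, smul_eq_mul]
    ring
  rw [h, h]
  have h4 := norm_sq_eq_dot n
  rw [hn] at h4
  unfold dot at h4
  have h5 : n 1 ^ 2 + n Complex.I ^ 2 = 1 := by nlinarith
  calc -(2 * A) * n 1 ^ 2 + -(2 * A) * n Complex.I ^ 2
      = -(2 * A) * (n 1 ^ 2 + n Complex.I ^ 2) := by ring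
    _ = -(2 * A) := by rw [h5, mul_one]

lemma exists_halfplane {Ω : Set ℂ} (hΩ : Dom Ω) {q : ℂ} (hq : q ∉ Ω) :
    ∃ (n : ℂ →L[ℝ] ℝ) (c : ℝ), ‖n‖ = 1 ∧ (∀ x ∈ Ω, n x ≤ c) ∧ c ≤ n q ∧
      ∀ D : ℝ, (∀ x ∈ Ω, ‖x‖ ≤ D) → c ≤ D := by
  obtain ⟨f, hf⟩ := geometric_hahn_banach_open_point hΩ.convex hΩ.isOpen hq
  obtain ⟨a, ha⟩ := hΩ.nonempty
  have hf0 : f ≠ 0 := by
    rintro rfl
    have := hf a ha
    simp at this
  have hn0 : 0 < ‖f‖ := norm_pos_iff.2 hf0
  have hlt : ∀ x ∈ Ω, (‖f‖⁻¹ • f) x < (‖f‖⁻¹ • f) q := by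
    intro x hx
    simp only [smul_apply, smul_eq_mul]
    exact mul_lt_mul_of_pos_left (hf x hx) (inv_pos.2 hn0)
  have hnn : ‖(‖f‖⁻¹ • f)‖ = 1 := by
    rw [norm_smul, norm_inv, norm_norm, inv_mul_cancel₀ hn0.ne']
  refine ⟨‖f‖⁻¹ • f, sSup ((‖f‖⁻¹ • f) '' Ω), hnn, ?_, ?_, ?_⟩
  · intro x hx
    refine le_csSup ⟨(‖f‖⁻¹ • f) q, ?_⟩ ⟨x, hx, rfl⟩
    rintro _ ⟨y, hy, rfl⟩
    exact (hlt y hy).le
  · refine csSup_le (hΩ.nonempty.image _) ?_
    rintro _ ⟨y, hy, rfl⟩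
    exact (hlt y hy).le
  · intro D hD
    refine csSup_le (hΩ.nonempty.image _) ?_
    rintro _ ⟨y, hy, rfl⟩
    calc (‖f‖⁻¹ • f) y ≤ ‖(‖f‖⁻¹ • f) y‖ := Real.le_norm_self _
      _ ≤ ‖(‖f‖⁻¹ • f)‖ * ‖y‖ := ContinuousLinearMap.le_opNorm _ _
      _ ≤ D := by rw [hnn, one_mul]; exact hD y hy

lemma upper_aux {Ω : Set ℂ} (hΩ : Dom Ω) {φ : ℕ → ℂ → ℝ} {u : ℂ → ℝ}
    {V : ℂ → ℂ →L[ℝ] ℝ} (h : GS Ω φ u V) {A H c M0 : ℝ} {n : ℂ →L[ℝ] ℝ} (hn : ‖n‖ = 1)
    (hA : 0 < A) (hH : 0 < H) (hM0 : ∀ᵐ x, u x ≤ M0) (hAM : lam1 Ω * M0 ≤ 2 * A)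
    (h1 : ∀ x ∈ Ω, 0 ≤ c - n x ∧ c - n x ≤ H) :
    ∀ᵐ x, u x ≤ A * (max 0 (min (c - n x) H) * (2 * H - max 0 (min (c - n x) H))) := by
  set yt : ℂ → ℝ := fun x => max 0 (min (c - n x) H) with hyt
  set Φ : ℂ → ℝ := fun x => A * ((c - n x) * (2 * H - (c - n x))) with hΦ
  set Φt : ℂ → ℝ := fun x => A * (yt x * (2 * H - yt x)) with hΦt
  have hyt0 : ∀ x, 0 ≤ yt x := fun x => le_max_left _ _
  have hytH : ∀ x, yt x ≤ H := fun x => max_le hH.le (min_le_right _ _)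
  have hΦt0 : ∀ x, 0 ≤ Φt x := fun x =>
    mul_nonneg hA.le (mul_nonneg (hyt0 x) (by linarith [hytH x]))
  have hyΩ : ∀ x ∈ Ω, Φt x = Φ x := by
    intro x hx
    obtain ⟨h2, h3⟩ := h1 x hx
    simp only [hΦt, hΦ, hyt, min_eq_left h3, max_eq_right h2]
  -- Lipschitz
  have hytL : LipschitzWith 1 yt := by
    have h2 : LipschitzWith 1 (fun x : ℂ => c - n x) := by
      refine LipschitzWith.of_dist_le_mul fun x y => ?_
      rw [Real.dist_eq]
      have h3 : (c - n x) - (c - n y) = n (y - x) := by rw [map_sub]; ring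
      rw [h3, ← Real.norm_eq_abs]
      refine (n.le_opNorm _).trans ?_
      rw [hn, one_mul, NNReal.coe_one, one_mul, dist_comm, dist_eq_norm]
    exact (h2.min_const H).const_max 0
  have hΦtL : Lip Φt := by
    refine ⟨(A * (2 * H)).toNNReal, LipschitzWith.of_dist_le_mul fun x y => ?_⟩
    have h2 := hytL.dist_le_mul x y
    rw [Real.dist_eq] at h2 ⊢
    rw [NNReal.coe_one, one_mul] at h2
    have h3 : Φt x - Φt y = A * ((yt x - yt y) * (2 * H - (yt x + yt y))) := by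
      simp only [hΦt]; ring
    rw [h3, abs_mul, abs_mul, abs_of_pos hA, Real.coe_toNNReal _ (by positivity)]
    have h4 : |2 * H - (yt x + yt y)| ≤ 2 * H := by
      rw [abs_le]
      constructor <;> linarith [hyt0 x, hyt0 y, hytH x, hytH y]
    calc A * (|yt x - yt y| * |2 * H - (yt x + yt y)|)
        ≤ A * (dist x y * (2 * H)) := by
          apply mul_le_mul_of_nonneg_left _ hA.le
          exact mul_le_mul h2 h4 (abs_nonneg _) dist_nonneg
      _ = A * (2 * H) * dist x y := by ring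
  have hlam := lam1_pos hΩ
  -- the test functions
  let w : ℕ → ℂ → ℝ := fun k x => max (φ k x - Φt x) 0
  have hφL : ∀ k, Lip (φ k) := fun k => lip_of_smooth (h.smooth k) (h.compact k)
  have hw : ∀ k, Adm Ω (w k) := by
    intro k
    refine ⟨lip_posPart (lip_sub (hφL k) hΦtL), fun x hx => ?_⟩
    have h2 : φ k x = 0 := by
      apply image_eq_zero_of_notMem_tsupport
      exact fun h3 => hx (h.supp k h3)
    simp only [w, h2]
    exact max_eq_right (by linarith [hΦt0 x])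
  have hwc : ∀ k, HasCompactSupport (w k) := fun k => Adm.hasCompactSupport hΩ (hw k)
  have hE : ∀ k, energy (w k) ≤ ∫ x, ‖fderiv ℝ (φ k) x - V x‖ ^ 2 := by
    intro k
    have hwL := memLp_fderiv (hw k).1 (hwc k)
    have hφ2 : MemLp (fderiv ℝ (φ k)) 2 volume := memLp_fderiv (hφL k) (h.compact k)
    have hdiff : MemLp (fun x => fderiv ℝ (φ k) x - V x) 2 volume := hφ2.sub h.memV
    -- a.e. identity
    have hae : ∀ᵐ x, dot (fderiv ℝ (w k) x) (fderiv ℝ Φ x) =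
        dot (fderiv ℝ (φ k) x - V x) (fderiv ℝ (w k) x) + dot (V x) (fderiv ℝ (w k) x) -
          dot (fderiv ℝ (w k) x) (fderiv ℝ (w k) x) := by
      filter_upwards [fderiv_posPart_ae (lip_sub (hφL k) hΦtL)] with x hx
      change fderiv ℝ (w k) x = _ at hx
      rw [hx]
      split_ifs with h2
      · have hxΩ : x ∈ Ω := by
          by_contra h3
          have h4 : φ k x = 0 := by
            apply image_eq_zero_of_notMem_tsupport
            exact fun h5 => h3 (h.supp k h5)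
          rw [h4] at h2
          linarith [hΦt0 x]
        have h5 : (fun y => φ k y - Φt y) =ᶠ[𝓝 x] fun y => φ k y - Φ y := by
          filter_upwards [hΩ.isOpen.mem_nhds hxΩ] with y hy
          rw [hyΩ y hy]
        rw [h5.fderiv_eq]
        have h6 : DifferentiableAt ℝ (φ k) x := (h.smooth k).differentiable (by simp) x
        have h7 : DifferentiableAt ℝ Φ x := by
          simp only [hΦ]
          fun_prop
        rw [fderiv_fun_sub h6 h7]
        simp only [dot, sub_apply]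
        ring
      · simp [dot]
    have i1 : Integrable (fun x => dot (fderiv ℝ (φ k) x - V x) (fderiv ℝ (w k) x)) :=
      integrable_dot hdiff hwL
    have i2 : Integrable (fun x => dot (V x) (fderiv ℝ (w k) x)) := integrable_dot h.memV hwL
    have i3 : Integrable (fun x => dot (fderiv ℝ (w k) x) (fderiv ℝ (w k) x)) :=
      integrable_dot hwL hwL
    have e1 : ∫ x, dot (fderiv ℝ (w k) x) (fderiv ℝ Φ x) =
        (∫ x, dot (fderiv ℝ (φ k) x - V x) (fderiv ℝ (w k) x)) +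
          (∫ x, dot (V x) (fderiv ℝ (w k) x)) -
          ∫ x, dot (fderiv ℝ (w k) x) (fderiv ℝ (w k) x) := by
      have i12 : Integrable (fun x => dot (fderiv ℝ (φ k) x - V x) (fderiv ℝ (w k) x) +
        dot (V x) (fderiv ℝ (w k) x)) := i1.add i2
      rw [integral_congr_ae hae, integral_sub i12 i3, integral_add i1 i2]
    have e2 : ∫ x, dot (fderiv ℝ (w k) x) (fderiv ℝ Φ x) = 2 * A * ∫ x, w k x := by
      have hΦ2 : ContDiff ℝ 2 Φ := by
        simp only [hΦ]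
        fun_prop
      rw [integral_dot_lap (hw k).1 (hwc k) hΦ2]
      have : ∀ x, w k x * lap Φ x = -(2 * A) * w k x := by
        intro x
        rw [hΦ, lap_quad n hn]
        ring
      simp only [this]
      rw [integral_const_mul]
      ring
    have e3 := GS.weak hΩ h (hw k)
    have e4 : lam1 Ω * ∫ x, u x * w k x ≤ 2 * A * ∫ x, w k x := by
      rw [← integral_const_mul, ← integral_const_mul]
      have hwcont : Continuous (w k) := lip_cont (hw k).1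
      have hw2 : MemLp (w k) 2 volume := memLp_of_continuous hwcont (hwc k)
      refine integral_mono_ae ?_ ?_ ?_
      · exact (h.memu.integrable_mul hw2).const_mul _
      · exact (hwcont.integrable_of_hasCompactSupport (hwc k)).const_mul _
      · filter_upwards [hM0] with x hx
        have h2 : 0 ≤ w k x := le_max_right _ _
        have h3 : lam1 Ω * u x ≤ 2 * A :=
          (mul_le_mul_of_nonneg_left hx hlam.le).trans hAM
        have := mul_le_mul_of_nonneg_right h3 h2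
        linarith
    have e5 : ∫ x, dot (fderiv ℝ (φ k) x - V x) (fderiv ℝ (w k) x) ≤
        1 / 2 * (∫ x, ‖fderiv ℝ (φ k) x - V x‖ ^ 2) + 1 / 2 * ∫ x, ‖fderiv ℝ (w k) x‖ ^ 2 := by
      have j1 := integrable_norm_sq hdiff
      have j2 := integrable_norm_sq hwL
      rw [← integral_const_mul, ← integral_const_mul,
        ← integral_add (j1.const_mul _) (j2.const_mul _)]
      refine integral_mono i1 ((j1.const_mul _).add (j2.const_mul _)) fun x => ?_
      have := dot_le_amgm (fderiv ℝ (φ k) x - V x) (fderiv ℝ (w k) x) (δ := 1 / 2) (by norm_num)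
      norm_num at this ⊢
      linarith
    have e6 : ∫ x, dot (fderiv ℝ (w k) x) (fderiv ℝ (w k) x) = energy (w k) := by
      unfold energy
      simp only [norm_sq_eq_dot]
    have e7 : ∫ x, ‖fderiv ℝ (w k) x‖ ^ 2 = energy (w k) := rfl
    rw [e7] at e5
    rw [e6, e2, e3] at e1
    linarith
  -- the limit
  let w0 : ℂ → ℝ := fun x => max (u x - Φt x) 0
  have hw0m : AEStronglyMeasurable w0 volume :=
    ((h.u_meas.sub (lip_cont hΦtL).measurable).max measurable_const).aestronglyMeasurable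
  have hw0le : ∀ x, w0 x ≤ u x := fun x =>
    max_le (by linarith [hΦt0 x]) (h.u_nonneg x)
  have hw00 : ∀ x, 0 ≤ w0 x := fun x => le_max_right _ _
  have hu2 : Integrable (fun x => u x ^ 2) := h.memu.integrable_sq
  have hw02 : Integrable (fun x => w0 x ^ 2) := by
    refine hu2.mono' (hw0m.pow 2) (Filter.Eventually.of_forall fun x => ?_)
    rw [Real.norm_eq_abs, abs_of_nonneg (by positivity)]
    exact pow_le_pow_left₀ (hw00 x) (hw0le x) 2
  have hbound : ∀ k, ∫ x, w0 x ^ 2 ≤ 2 * ((∫ x, ‖fderiv ℝ (φ k) x - V x‖ ^ 2) / lam1 Ω) +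
      2 * ∫ x, (φ k x - u x) ^ 2 := by
    intro k
    have hwcont : Continuous (w k) := lip_cont (hw k).1
    have hw2 : MemLp (w k) 2 volume := memLp_of_continuous hwcont (hwc k)
    have i1 : Integrable (fun x => w k x ^ 2) := hw2.integrable_sq
    have i2 : Integrable (fun x => (φ k x - u x) ^ 2) :=
      ((memLp_of_continuous (h.smooth k).continuous (h.compact k)).sub h.memu).integrable_sq
    have e1 : ∫ x, w0 x ^ 2 ≤ 2 * (∫ x, w k x ^ 2) + 2 * ∫ x, (φ k x - u x) ^ 2 := by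
      rw [← integral_const_mul, ← integral_const_mul,
        ← integral_add (i1.const_mul _) (i2.const_mul _)]
      refine integral_mono hw02 ((i1.const_mul _).add (i2.const_mul _)) fun x => ?_
      have h2 : w0 x ≤ w k x + |φ k x - u x| := by
        simp only [w0, w]
        refine max_le ?_ ?_
        · have h3 : φ k x - Φt x ≤ max (φ k x - Φt x) 0 := le_max_left _ _
          have h4 := neg_abs_le (φ k x - u x)
          linarith
        · exact add_nonneg (le_max_right _ _) (abs_nonneg _)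
      have h3 : w0 x ^ 2 ≤ (w k x + |φ k x - u x|) ^ 2 := pow_le_pow_left₀ (hw00 x) h2 2
      have h4 : (φ k x - u x) ^ 2 = |φ k x - u x| ^ 2 := (sq_abs _).symm
      show w0 x ^ 2 ≤ 2 * w k x ^ 2 + 2 * (φ k x - u x) ^ 2
      rw [h4]
      nlinarith [sq_nonneg (w k x - |φ k x - u x|)]
    have e2 := lam1_mul_mass_le hΩ (hw k)
    have e3 : mass (w k) ≤ (∫ x, ‖fderiv ℝ (φ k) x - V x‖ ^ 2) / lam1 Ω := by
      rw [le_div_iff₀ hlam]
      linarith [hE k]
    unfold mass at e3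
    linarith
  have hlim : Filter.Tendsto (fun k => 2 * ((∫ x, ‖fderiv ℝ (φ k) x - V x‖ ^ 2) / lam1 Ω) +
      2 * ∫ x, (φ k x - u x) ^ 2) Filter.atTop (𝓝 (2 * (0 / lam1 Ω) + 2 * 0)) :=
    ((h.limV.div_const _).const_mul _).add (h.limu.const_mul _)
  have hzero : ∫ x, w0 x ^ 2 ≤ 0 := by
    have := ge_of_tendsto' hlim hbound
    simpa using this
  have hzero' : ∫ x, w0 x ^ 2 = 0 :=
    le_antisymm hzero (integral_nonneg fun x => by positivity)
  rw [integral_eq_zero_iff_of_nonneg (fun x => by positivity) hw02] at hzero'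
  filter_upwards [hzero'] with x hx
  have h2 : w0 x = 0 := by simpa using hx
  have h3 : u x - Φt x ≤ w0 x := le_max_left _ _
  linarith

end Up

theorem GS.upper {Ω : Set ℂ} (hΩ : Dom Ω) {φ : ℕ → ℂ → ℝ} {u : ℂ → ℝ}
    {V : ℂ → ℂ →L[ℝ] ℝ} (h : GS Ω φ u V) :
    ∃ M : ℝ, 0 < M ∧ ∀ q, q ∉ Ω → ∀ᵐ x, u x ≤ M * ‖x - q‖ := by
  obtain ⟨M0, hM0⟩ := GS.bounded hΩ h
  obtain ⟨D, hD0, hD⟩ := hΩ.bounded.exists_pos_norm_le
  have hlam := lam1_pos hΩ
  set A : ℝ := lam1 Ω * |M0| / 2 + 1 with hAdef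
  have hA : 0 < A := by positivity
  set H : ℝ := 2 * D with hHdef
  have hH : 0 < H := by positivity
  refine ⟨2 * A * H, by positivity, fun q hq => ?_⟩
  obtain ⟨n, c, hn, hc1, hc2, hc3⟩ := Up.exists_halfplane hΩ hq
  have hcD := hc3 D hD
  have hAM : lam1 Ω * M0 ≤ 2 * A := by
    have := mul_le_mul_of_nonneg_left (le_abs_self M0) hlam.le
    rw [hAdef]
    linarith
  have h1 : ∀ x ∈ Ω, 0 ≤ c - n x ∧ c - n x ≤ H := by
    intro x hx
    refine ⟨by linarith [hc1 x hx], ?_⟩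
    have h2 : -n x ≤ ‖x‖ := by
      calc -n x ≤ ‖n x‖ := by rw [Real.norm_eq_abs]; exact neg_le_abs _
        _ ≤ ‖n‖ * ‖x‖ := n.le_opNorm x
        _ = ‖x‖ := by rw [hn, one_mul]
    linarith [hD x hx]
  filter_upwards [Up.upper_aux hΩ h hn hA hH hM0 hAM h1] with x hx
  refine hx.trans ?_
  have h2 : c - n x ≤ ‖x - q‖ := by
    calc c - n x ≤ n q - n x := by linarith
      _ = n (q - x) := by rw [map_sub]
      _ ≤ ‖n (q - x)‖ := Real.le_norm_self _
      _ ≤ ‖n‖ * ‖q - x‖ := n.le_opNorm _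
      _ = ‖x - q‖ := by rw [hn, one_mul, norm_sub_rev]
  set yt := max 0 (min (c - n x) H)
  have h3 : 0 ≤ yt := le_max_left _ _
  have h4 : yt ≤ ‖x - q‖ := max_le (norm_nonneg _) ((min_le_left _ _).trans h2)
  have h5 : yt * (2 * H - yt) ≤ ‖x - q‖ * (2 * H) := by
    have h6 : yt * (2 * H - yt) ≤ yt * (2 * H) := by nlinarith
    exact h6.trans (mul_le_mul_of_nonneg_right h4 (by positivity))
  calc A * (yt * (2 * H - yt)) ≤ A * (‖x - q‖ * (2 * H)) :=
        mul_le_mul_of_nonneg_left h5 hA.le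
    _ = 2 * A * H * ‖x - q‖ := by ring

namespace Up

/-- cut-off function -/
def cut (q : ℂ) (ρ : ℝ) (x : ℂ) : ℝ := max 0 (min 1 (2 - ‖x - q‖ / ρ))

lemma cut_nonneg (q : ℂ) (ρ : ℝ) (x : ℂ) : 0 ≤ cut q ρ x := le_max_left _ _
lemma cut_le_one (q : ℂ) (ρ : ℝ) (x : ℂ) : cut q ρ x ≤ 1 :=
  max_le zero_le_one (min_le_left _ _)

lemma cut_eq_one {q : ℂ} {ρ : ℝ} (hρ : 0 < ρ) {x : ℂ} (hx : x ∈ Metric.ball q ρ) :
    cut q ρ x = 1 := by
  rw [Metric.mem_ball, dist_eq_norm] at hx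
  unfold cut
  have : ‖x - q‖ / ρ ≤ 1 := by rw [div_le_one hρ]; exact hx.le
  rw [min_eq_left (by linarith)]
  simp

lemma cut_eq_zero {q : ℂ} {ρ : ℝ} (hρ : 0 < ρ) {x : ℂ} (hx : x ∉ Metric.closedBall q (2 * ρ)) :
    cut q ρ x = 0 := by
  rw [Metric.mem_closedBall, dist_eq_norm, not_le] at hx
  unfold cut
  have : 2 ≤ ‖x - q‖ / ρ := by rw [le_div_iff₀ hρ]; exact hx.le
  exact max_eq_left ((min_le_right _ _).trans (by linarith))

lemma cut_lip (q : ℂ) {ρ : ℝ} (hρ : 0 < ρ) : LipschitzWith (1 / ρ).toNNReal (cut q ρ) := by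
  have h2 : LipschitzWith (1 / ρ).toNNReal (fun x : ℂ => 2 - ‖x - q‖ / ρ) := by
    refine LipschitzWith.of_dist_le_mul fun x y => ?_
    rw [Real.dist_eq, Real.coe_toNNReal _ (by positivity)]
    have h3 : (2 - ‖x - q‖ / ρ) - (2 - ‖y - q‖ / ρ) = 1 / ρ * (‖y - q‖ - ‖x - q‖) := by ring
    rw [h3, abs_mul, abs_of_pos (by positivity : 0 < 1 / ρ)]
    apply mul_le_mul_of_nonneg_left _ (by positivity)
    have h4 := abs_norm_sub_norm_le (y - q) (x - q)
    rw [sub_sub_sub_cancel_right] at h4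
    rw [dist_comm, dist_eq_norm]
    exact h4
  exact (h2.const_min 1).const_max 0

lemma fderiv_cut_zero {q : ℂ} {ρ : ℝ} (hρ : 0 < ρ) {x : ℂ}
    (hx : x ∉ Metric.closedBall q (2 * ρ)) : fderiv ℝ (cut q ρ) x = 0 := by
  have h1 : cut q ρ =ᶠ[𝓝 x] fun _ => 0 := by
    filter_upwards [Metric.isClosed_closedBall.isOpen_compl.mem_nhds hx] with y hy
    exact cut_eq_zero hρ hy
  rw [h1.fderiv_eq]
  simp

lemma cacc {Ω : Set ℂ} (hΩ : Dom Ω) {φ : ℕ → ℂ → ℝ} {u : ℂ → ℝ}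
    {V : ℂ → ℂ →L[ℝ] ℝ} (h : GS Ω φ u V) (q : ℂ) {ρ : ℝ} (hρ : 0 < ρ) :
    ∫ x in Metric.ball q ρ, ‖V x‖ ^ 2 ≤
      2 * ((2 * lam1 Ω + 4 / ρ ^ 2) * ∫ x in Metric.closedBall q (2 * ρ), u x ^ 2) := by
  have hlam := lam1_pos hΩ
  set B := Metric.closedBall q (2 * ρ) with hB
  have hBm : MeasurableSet B := Metric.isClosed_closedBall.measurableSet
  set χ : ℂ → ℝ := B.indicator (fun x => u x ^ 2) with hχ
  have hu2 : Integrable (fun x => u x ^ 2) := h.memu.integrable_sq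
  have hV2 : Integrable (fun x => ‖V x‖ ^ 2) := integrable_norm_sq h.memV
  have hχi : Integrable χ := hu2.indicator hBm
  have hχint : ∫ x, χ x = ∫ x in B, u x ^ 2 := integral_indicator hBm
  have hφL : ∀ k, Lip (φ k) := fun k => lip_of_smooth (h.smooth k) (h.compact k)
  set η := cut q ρ with hη
  have hηL : Lip η := ⟨_, cut_lip q hρ⟩
  have hη0 : ∀ x, 0 ≤ η x := cut_nonneg q ρ
  have hη1 : ∀ x, η x ≤ 1 := cut_le_one q ρ
  have hηsq1 : ∀ x, η x ^ 2 ≤ 1 := fun x => by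
    have := pow_le_pow_left₀ (hη0 x) (hη1 x) 2
    simpa using this
  have hηV : Integrable (fun x => η x ^ 2 * ‖V x‖ ^ 2) := by
    refine hV2.mono' ?_ (Filter.Eventually.of_forall fun x => ?_)
    · exact (((lip_cont hηL).measurable.pow_const 2).aestronglyMeasurable).mul
        (h.memV.1.norm.pow 2)
    · rw [Real.norm_eq_abs, abs_of_nonneg (by positivity)]
      have := mul_le_mul_of_nonneg_right (hηsq1 x) (sq_nonneg ‖V x‖)
      linarith
  have hbdη : ∀ x, |η x| ≤ 1 := fun x => by rw [abs_of_nonneg (hη0 x)]; exact hη1 x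
  -- test functions
  let w : ℕ → ℂ → ℝ := fun k x => (η x * η x) * φ k x
  have hw : ∀ k, Adm Ω (w k) := by
    intro k
    refine ⟨?_, fun x hx => ?_⟩
    · obtain ⟨C, hC⟩ := (h.compact k).exists_bound_of_continuous (h.smooth k).continuous
      refine lip_mul (A := 1) (B := C) (lip_mul hηL hηL hbdη hbdη) (hφL k) ?_ ?_
      · intro x
        rw [abs_mul]
        have := mul_le_mul (hbdη x) (hbdη x) (abs_nonneg _) zero_le_one
        linarith
      · intro x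
        rw [← Real.norm_eq_abs]
        exact hC x
    · have h2 : φ k x = 0 := by
        apply image_eq_zero_of_notMem_tsupport
        exact fun h3 => hx (h.supp k h3)
      simp only [w, h2, mul_zero]
  have hwc : ∀ k, HasCompactSupport (w k) := fun k => Adm.hasCompactSupport hΩ (hw k)
  -- the main inequality
  have hmain : ∀ δ : ℝ, 0 < δ → ∀ k, 1 / 2 * ∫ x, η x ^ 2 * ‖V x‖ ^ 2 ≤
      (2 * lam1 Ω + 4 / ρ ^ 2) * (∫ x, χ x) + δ * (∫ x, ‖V x‖ ^ 2) +
        ((lam1 Ω / 4 + 4 / ρ ^ 2) * (∫ x, (φ k x - u x) ^ 2) +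
          1 / (4 * δ) * ∫ x, ‖fderiv ℝ (φ k) x - V x‖ ^ 2) := by
    intro δ hδ k
    have hwL := memLp_fderiv (hw k).1 (hwc k)
    have hφ2 : MemLp (fderiv ℝ (φ k)) 2 volume := memLp_fderiv (hφL k) (h.compact k)
    have hdiff : MemLp (fun x => fderiv ℝ (φ k) x - V x) 2 volume := hφ2.sub h.memV
    have hdiffi := integrable_norm_sq hdiff
    have hφm : MemLp (φ k) 2 volume :=
      memLp_of_continuous (h.smooth k).continuous (h.compact k)
    have i2 : Integrable (fun x => (φ k x - u x) ^ 2) := (hφm.sub h.memu).integrable_sq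
    have iw : Integrable (fun x => dot (V x) (fderiv ℝ (w k) x)) := integrable_dot h.memV hwL
    have iuw : Integrable (fun x => u x * w k x) :=
      h.memu.integrable_mul (memLp_of_continuous (lip_cont (hw k).1) (hwc k))
    -- pointwise
    have hpt : ∀ᵐ x, 1 / 2 * (η x ^ 2 * ‖V x‖ ^ 2) ≤
        dot (V x) (fderiv ℝ (w k) x) + (4 / ρ ^ 2 * χ x + 4 / ρ ^ 2 * (φ k x - u x) ^ 2) +
          (δ * ‖V x‖ ^ 2 + 1 / (4 * δ) * ‖fderiv ℝ (φ k) x - V x‖ ^ 2) := by
      filter_upwards [(cut_lip q hρ).ae_differentiableAt] with x hx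
      have hφx : DifferentiableAt ℝ (φ k) x := (h.smooth k).differentiable (by simp) x
      have hd : fderiv ℝ (w k) x = (η x * η x) • fderiv ℝ (φ k) x +
          φ k x • (η x • fderiv ℝ η x + η x • fderiv ℝ η x) :=
        ((hx.hasFDerivAt.mul hx.hasFDerivAt).mul hφx.hasFDerivAt).fderiv
      have e1 : dot (V x) (fderiv ℝ (w k) x) = η x ^ 2 * dot (V x) (fderiv ℝ (φ k) x) +
          2 * (η x * φ k x * dot (V x) (fderiv ℝ η x)) := by
        rw [hd, dot_add_right, dot_smul_right, dot_smul_right, dot_add_right, dot_smul_right]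
        ring
      -- the cross term
      have e2 : -(η x * φ k x * dot (V x) (fderiv ℝ η x)) ≤
          1 / 4 * (η x ^ 2 * ‖V x‖ ^ 2) + φ k x ^ 2 * ‖fderiv ℝ η x‖ ^ 2 := by
        have h1 : |η x * φ k x * dot (V x) (fderiv ℝ η x)| ≤
            (η x * ‖V x‖) * (|φ k x| * ‖fderiv ℝ η x‖) := by
          rw [abs_mul, abs_mul, abs_of_nonneg (hη0 x)]
          have := abs_dot_le (V x) (fderiv ℝ η x)
          calc η x * |φ k x| * |dot (V x) (fderiv ℝ η x)|
              ≤ η x * |φ k x| * (‖V x‖ * ‖fderiv ℝ η x‖) :=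
                mul_le_mul_of_nonneg_left this (mul_nonneg (hη0 x) (abs_nonneg _))
            _ = _ := by ring
        have h2 := neg_abs_le (η x * φ k x * dot (V x) (fderiv ℝ η x))
        have h3 : (|φ k x| * ‖fderiv ℝ η x‖) ^ 2 = φ k x ^ 2 * ‖fderiv ℝ η x‖ ^ 2 := by
          rw [mul_pow, sq_abs]
        nlinarith [sq_nonneg (1 / 2 * (η x * ‖V x‖) - |φ k x| * ‖fderiv ℝ η x‖)]
      -- gradient of the cut-off
      have e3 : φ k x ^ 2 * ‖fderiv ℝ η x‖ ^ 2 ≤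
          2 / ρ ^ 2 * χ x + 2 / ρ ^ 2 * (φ k x - u x) ^ 2 := by
        by_cases hxB : x ∈ B
        · have h1 : ‖fderiv ℝ η x‖ ≤ 1 / ρ := by
            have := norm_fderiv_le_of_lipschitz ℝ (cut_lip q hρ) (x₀ := x)
            rwa [Real.coe_toNNReal _ (by positivity)] at this
          have h2 : ‖fderiv ℝ η x‖ ^ 2 ≤ 1 / ρ ^ 2 := by
            have := pow_le_pow_left₀ (norm_nonneg _) h1 2
            rwa [div_pow, one_pow] at this
          have h3 : χ x = u x ^ 2 := indicator_of_mem hxB _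
          rw [h3]
          have h4 : φ k x ^ 2 ≤ 2 * u x ^ 2 + 2 * (φ k x - u x) ^ 2 := by
            nlinarith [sq_nonneg (φ k x - 2 * u x)]
          calc φ k x ^ 2 * ‖fderiv ℝ η x‖ ^ 2
              ≤ φ k x ^ 2 * (1 / ρ ^ 2) := mul_le_mul_of_nonneg_left h2 (sq_nonneg _)
            _ ≤ (2 * u x ^ 2 + 2 * (φ k x - u x) ^ 2) * (1 / ρ ^ 2) :=
                mul_le_mul_of_nonneg_right h4 (by positivity)
            _ = _ := by ring
        · rw [hη, fderiv_cut_zero hρ hxB, norm_zero]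
          have h3 : χ x = 0 := indicator_of_notMem hxB _
          rw [h3]
          have : 0 ≤ 2 / ρ ^ 2 * (φ k x - u x) ^ 2 := by positivity
          linarith
      -- the error term
      have e4 : η x ^ 2 * dot (V x) (V x - fderiv ℝ (φ k) x) ≤
          δ * ‖V x‖ ^ 2 + 1 / (4 * δ) * ‖fderiv ℝ (φ k) x - V x‖ ^ 2 := by
        have h1 := dot_le_amgm (V x) (V x - fderiv ℝ (φ k) x) hδ
        rw [norm_sub_rev] at h1
        have h2 : 0 ≤ δ * ‖V x‖ ^ 2 + 1 / (4 * δ) * ‖fderiv ℝ (φ k) x - V x‖ ^ 2 := by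
          positivity
        rcases le_or_gt (dot (V x) (V x - fderiv ℝ (φ k) x)) 0 with h3 | h3
        · have := mul_nonpos_of_nonneg_of_nonpos (sq_nonneg (η x)) h3
          linarith
        · have := mul_le_mul_of_nonneg_right (hηsq1 x) h3.le
          linarith
      rw [dot_sub_right, ← norm_sq_eq_dot] at e4
      rw [e1]
      have h5 : 4 / ρ ^ 2 * χ x = 2 * (2 / ρ ^ 2 * χ x) := by ring
      have h6 : 4 / ρ ^ 2 * (φ k x - u x) ^ 2 = 2 * (2 / ρ ^ 2 * (φ k x - u x) ^ 2) := by ring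
      rw [h5, h6]
      nlinarith [e2, e3, e4]
    have hint : 1 / 2 * ∫ x, η x ^ 2 * ‖V x‖ ^ 2 ≤
        (∫ x, dot (V x) (fderiv ℝ (w k) x)) +
          (4 / ρ ^ 2 * (∫ x, χ x) + 4 / ρ ^ 2 * ∫ x, (φ k x - u x) ^ 2) +
          (δ * (∫ x, ‖V x‖ ^ 2) + 1 / (4 * δ) * ∫ x, ‖fderiv ℝ (φ k) x - V x‖ ^ 2) := by
      have j1 : Integrable (fun x => 4 / ρ ^ 2 * χ x + 4 / ρ ^ 2 * (φ k x - u x) ^ 2) :=
        (hχi.const_mul _).add (i2.const_mul _)
      have j2 : Integrable (fun x => δ * ‖V x‖ ^ 2 +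
          1 / (4 * δ) * ‖fderiv ℝ (φ k) x - V x‖ ^ 2) :=
        (hV2.const_mul _).add (hdiffi.const_mul _)
      have j3 : Integrable (fun x => dot (V x) (fderiv ℝ (w k) x) +
          (4 / ρ ^ 2 * χ x + 4 / ρ ^ 2 * (φ k x - u x) ^ 2)) := iw.add j1
      have h1 := integral_mono_ae (hηV.const_mul (1 / 2)) (j3.add j2) hpt
      rw [integral_const_mul] at h1
      refine h1.trans (le_of_eq ?_)
      have s1 := integral_add j3 j2
      have s2 := integral_add iw j1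
      have s3 := integral_add (hχi.const_mul (4 / ρ ^ 2)) (i2.const_mul (4 / ρ ^ 2))
      have s4 := integral_add (hV2.const_mul δ) (hdiffi.const_mul (1 / (4 * δ)))
      rw [integral_const_mul, integral_const_mul] at s3 s4
      rw [← s3, ← s4, ← s2, ← s1]
      rfl
    have hweak := GS.weak hΩ h (hw k)
    have hweak2 : ∫ x, u x * w k x ≤ 2 * (∫ x, χ x) + 1 / 4 * ∫ x, (φ k x - u x) ^ 2 := by
      rw [← integral_const_mul, ← integral_const_mul,
        ← integral_add (hχi.const_mul _) (i2.const_mul _)]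
      refine integral_mono iuw ((hχi.const_mul _).add (i2.const_mul _)) fun x => ?_
      show u x * ((η x * η x) * φ k x) ≤ 2 * χ x + 1 / 4 * (φ k x - u x) ^ 2
      by_cases hxB : x ∈ B
      · have h3 : χ x = u x ^ 2 := indicator_of_mem hxB _
        rw [h3]
        have h4 : u x * φ k x ≤ 2 * u x ^ 2 + 1 / 4 * (φ k x - u x) ^ 2 := by
          nlinarith [sq_nonneg (φ k x - 3 * u x)]
        have h5 : 0 ≤ u x * φ k x := mul_nonneg (h.u_nonneg x) (h.nonneg k x)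
        have h6 : u x * ((η x * η x) * φ k x) = η x ^ 2 * (u x * φ k x) := by ring
        rw [h6]
        have := mul_le_mul_of_nonneg_right (hηsq1 x) h5
        linarith
      · have h3 : χ x = 0 := indicator_of_notMem hxB _
        rw [h3, hη, cut_eq_zero hρ hxB]
        have : 0 ≤ 1 / 4 * (φ k x - u x) ^ 2 := by positivity
        simp only [mul_zero, zero_mul]
        linarith
    have hweak3 := mul_le_mul_of_nonneg_left hweak2 hlam.le
    rw [hweak] at hint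
    have h7 : (2 * lam1 Ω + 4 / ρ ^ 2) * (∫ x, χ x) + δ * (∫ x, ‖V x‖ ^ 2) +
        ((lam1 Ω / 4 + 4 / ρ ^ 2) * (∫ x, (φ k x - u x) ^ 2) +
          1 / (4 * δ) * ∫ x, ‖fderiv ℝ (φ k) x - V x‖ ^ 2) =
        lam1 Ω * (2 * (∫ x, χ x) + 1 / 4 * ∫ x, (φ k x - u x) ^ 2) +
          (4 / ρ ^ 2 * (∫ x, χ x) + 4 / ρ ^ 2 * ∫ x, (φ k x - u x) ^ 2) +
          (δ * (∫ x, ‖V x‖ ^ 2) + 1 / (4 * δ) * ∫ x, ‖fderiv ℝ (φ k) x - V x‖ ^ 2) := by ring
    rw [h7]
    linarith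
  -- the limit k → ∞
  have hlim1 : ∀ δ : ℝ, 0 < δ → 1 / 2 * ∫ x, η x ^ 2 * ‖V x‖ ^ 2 ≤
      (2 * lam1 Ω + 4 / ρ ^ 2) * (∫ x, χ x) + δ * (∫ x, ‖V x‖ ^ 2) := by
    intro δ hδ
    have hl : Filter.Tendsto (fun k => (2 * lam1 Ω + 4 / ρ ^ 2) * (∫ x, χ x) +
        δ * (∫ x, ‖V x‖ ^ 2) + ((lam1 Ω / 4 + 4 / ρ ^ 2) * (∫ x, (φ k x - u x) ^ 2) +
          1 / (4 * δ) * ∫ x, ‖fderiv ℝ (φ k) x - V x‖ ^ 2)) Filter.atTop
        (𝓝 ((2 * lam1 Ω + 4 / ρ ^ 2) * (∫ x, χ x) + δ * (∫ x, ‖V x‖ ^ 2) +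
          ((lam1 Ω / 4 + 4 / ρ ^ 2) * 0 + 1 / (4 * δ) * 0))) :=
      tendsto_const_nhds.add ((h.limu.const_mul _).add (h.limV.const_mul _))
    have := ge_of_tendsto' hl (hmain δ hδ)
    simpa using this
  have hlim2 : 1 / 2 * ∫ x, η x ^ 2 * ‖V x‖ ^ 2 ≤ (2 * lam1 Ω + 4 / ρ ^ 2) * (∫ x, χ x) := by
    refine le_of_forall_pos_le_add fun ε hε => ?_
    have hE0 : 0 ≤ ∫ x, ‖V x‖ ^ 2 := integral_nonneg fun x => by positivity
    have h1 := hlim1 (ε / ((∫ x, ‖V x‖ ^ 2) + 1)) (by positivity)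
    have h2 : ε / ((∫ x, ‖V x‖ ^ 2) + 1) * (∫ x, ‖V x‖ ^ 2) ≤ ε := by
      rw [div_mul_eq_mul_div, div_le_iff₀ (by positivity)]
      nlinarith
    linarith
  have hball : ∫ x in Metric.ball q ρ, ‖V x‖ ^ 2 ≤ ∫ x, η x ^ 2 * ‖V x‖ ^ 2 := by
    have h1 : ∫ x in Metric.ball q ρ, ‖V x‖ ^ 2 =
        ∫ x in Metric.ball q ρ, η x ^ 2 * ‖V x‖ ^ 2 := by
      refine setIntegral_congr_fun Metric.isOpen_ball.measurableSet fun x hx => ?_
      simp only [hη, cut_eq_one hρ hx]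
      ring
    rw [h1]
    exact setIntegral_le_integral hηV (Filter.Eventually.of_forall fun x => by positivity)
  rw [hχint] at hlim2
  linarith

end Up

theorem GS.energy_ball {Ω : Set ℂ} (hΩ : Dom Ω) {φ : ℕ → ℂ → ℝ} {u : ℂ → ℝ}
    {V : ℂ → ℂ →L[ℝ] ℝ} (h : GS Ω φ u V) :
    ∃ M : ℝ, 0 < M ∧ ∀ q, q ∉ Ω → ∀ ρ, 0 < ρ → ρ ≤ 1 →
      ∫ x in Metric.ball q ρ, ‖V x‖ ^ 2 ≤ M * ρ ^ 2 := by
  obtain ⟨M, hM0, hM⟩ := GS.upper hΩ h
  have hlam := lam1_pos hΩ
  have hpi := Real.pi_pos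
  refine ⟨2 * ((2 * lam1 Ω + 4) * (16 * M ^ 2 * Real.pi)), by positivity, fun q hq ρ hρ hρ1 => ?_⟩
  refine (Up.cacc hΩ h q hρ).trans ?_
  have hu2 : Integrable (fun x => u x ^ 2) := h.memu.integrable_sq
  have hvol : (volume (Metric.closedBall q (2 * ρ))).toReal = (2 * ρ) ^ 2 * Real.pi := by
    rw [Complex.volume_closedBall, ENNReal.toReal_mul, ENNReal.toReal_pow,
      ENNReal.toReal_ofReal (by positivity)]
    rfl
  have h1 : ∫ x in Metric.closedBall q (2 * ρ), u x ^ 2 ≤ 16 * M ^ 2 * Real.pi * ρ ^ 4 := by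
    have h2 : ∫ x in Metric.closedBall q (2 * ρ), u x ^ 2 ≤
        ∫ x in Metric.closedBall q (2 * ρ), (M * (2 * ρ)) ^ 2 := by
      refine setIntegral_mono_on_ae hu2.integrableOn ?_ Metric.isClosed_closedBall.measurableSet ?_
      · exact integrableOn_const (isCompact_closedBall q (2 * ρ)).measure_lt_top.ne
      · filter_upwards [hM q hq] with x hx hxB
        rw [Metric.mem_closedBall, dist_eq_norm] at hxB
        refine pow_le_pow_left₀ (h.u_nonneg x) (hx.trans ?_) 2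
        exact mul_le_mul_of_nonneg_left hxB hM0.le
    refine h2.trans (le_of_eq ?_)
    rw [setIntegral_const, smul_eq_mul, measureReal_def, hvol]
    ring
  have h3 : (2 * lam1 Ω + 4 / ρ ^ 2) * ∫ x in Metric.closedBall q (2 * ρ), u x ^ 2 ≤
      (2 * lam1 Ω + 4 / ρ ^ 2) * (16 * M ^ 2 * Real.pi * ρ ^ 4) :=
    mul_le_mul_of_nonneg_left h1 (by positivity)
  have h4 : (2 * lam1 Ω + 4 / ρ ^ 2) * (16 * M ^ 2 * Real.pi * ρ ^ 4) =
      (2 * lam1 Ω * ρ ^ 2 + 4) * (16 * M ^ 2 * Real.pi) * ρ ^ 2 := by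
    field_simp
  have h5 : 2 * lam1 Ω * ρ ^ 2 + 4 ≤ 2 * lam1 Ω + 4 := by
    have : ρ ^ 2 ≤ 1 := by
      have := pow_le_pow_left₀ hρ.le hρ1 2
      simpa using this
    nlinarith
  have h6 : (2 * lam1 Ω * ρ ^ 2 + 4) * (16 * M ^ 2 * Real.pi) * ρ ^ 2 ≤
      (2 * lam1 Ω + 4) * (16 * M ^ 2 * Real.pi) * ρ ^ 2 := by
    apply mul_le_mul_of_nonneg_right _ (by positivity)
    exact mul_le_mul_of_nonneg_right h5 (by positivity)
  calc 2 * ((2 * lam1 Ω + 4 / ρ ^ 2) * ∫ x in Metric.closedBall q (2 * ρ), u x ^ 2)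
      ≤ 2 * ((2 * lam1 Ω + 4) * (16 * M ^ 2 * Real.pi) * ρ ^ 2) := by
        rw [h4] at h3
        linarith
    _ = 2 * ((2 * lam1 Ω + 4) * (16 * M ^ 2 * Real.pi)) * ρ ^ 2 := by ring


end

end Pool.Agent.Lib.MP_4cfb03_an
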