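import Pool.Agent.Lib.MP_4cfb03_an.Defs
import Pool.Agent.Lib.MP_4cfb03_an.Slice
import Pool.Agent.Lib.MP_4cfb03_an.Prof
import Pool.Agent.Lib.MP_4cfb03_an.Sob
import Pool.Agent.Lib.MP_4cfb03_an.GS
import Pool.Agent.Lib.MP_4cfb03_an.Sub
import Pool.Agent.Lib.MP_4cfb03_an.Upper

/-!
# T22 : second order estimate for `log λ₁` under vertical piecewise affine changes of variables

The import `TranspStub` has to be replaced by the files containing `norm_sq_eq_dot` (Slice),
`CProf.dom` (Prof), `lam1_mul_mass_le`, `lam1_pos` (Sob), `exists_GS` (GS), `GS.bounded` (Sub),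
`GS.energy_ball` (Upper).
-/

open MeasureTheory Set
open scoped ENNReal ContDiff Topology NNReal

namespace Pool.Agent.Lib.MP_4cfb03_an

noncomputable section

namespace Transp

/-- 1D change of variables. -/
theorem lintegral_bend1 (A c : ℝ) (hc : c < 1) (H : ℝ → ℝ≥0∞) :
    ∫⁻ y, H y = ∫⁻ y, ENNReal.ofReal (if y < A then 1 - c else 1) *
      H (y + c * max (A - y) 0) := by
  have hpos : 0 < 1 - c := by linarith
  rw [← lintegral_add_compl H (measurableSet_Iio (a := A)),
    ← lintegral_add_compl (fun y => ENNReal.ofReal (if y < A then 1 - c else 1) *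
      H (y + c * max (A - y) 0)) (measurableSet_Iio (a := A))]
  congr 1
  · have himg : (fun y : ℝ => y + c * (A - y)) '' Iio A = Iio A := by
      ext w
      simp only [mem_image, mem_Iio]
      constructor
      · rintro ⟨y, hy, rfl⟩
        nlinarith
      · intro hw
        refine ⟨A - (A - w) / (1 - c), ?_, ?_⟩
        · have : 0 < (A - w) / (1 - c) := div_pos (by linarith) hpos
          linarith
        · field_simp
          ring
    have hinj : InjOn (fun y : ℝ => y + c * (A - y)) (Iio A) := by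
      intro x _ y _ hxy
      simp only at hxy
      have : (1 - c) * (x - y) = 0 := by linarith
      rcases mul_eq_zero.1 this with h | h
      · exact absurd h hpos.ne'
      · linarith
    have hder : ∀ x ∈ Iio A, HasDerivWithinAt (fun y : ℝ => y + c * (A - y)) (1 - c) (Iio A) x := by
      intro x _
      have h1 : HasDerivAt (fun y : ℝ => y + c * (A - y)) (1 + c * (0 - 1)) x :=
        (hasDerivAt_id x).add (((hasDerivAt_const x A).sub (hasDerivAt_id x)).const_mul c)
      have h2 : (1 : ℝ) + c * (0 - 1) = 1 - c := by ring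
      rw [h2] at h1
      exact h1.hasDerivWithinAt
    have := lintegral_image_eq_lintegral_abs_deriv_mul (f' := fun _ => 1 - c) measurableSet_Iio
      hder hinj H
    rw [himg] at this
    rw [this]
    refine setLIntegral_congr_fun measurableSet_Iio ?_
    intro y hy
    have hy' : y < A := hy
    simp only [hy', if_true]
    rw [max_eq_left (by linarith : (0 : ℝ) ≤ A - y), abs_of_pos hpos]
  · refine setLIntegral_congr_fun measurableSet_Iio.compl ?_
    intro y hy
    have hy' : ¬ y < A := hy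
    simp only [hy', if_false]
    rw [max_eq_right (by linarith [not_lt.1 hy'] : A - y ≤ 0)]
    simp

theorem lintegral_complex {H : ℂ → ℝ≥0∞} (hH : Measurable H) :
    ∫⁻ z, H z = ∫⁻ x : ℝ, ∫⁻ y : ℝ, H ⟨x, y⟩ := by
  have h1 : ∫⁻ z, H z = ∫⁻ p : ℝ × ℝ, H (Complex.measurableEquivRealProd.symm p) := by
    have := (Complex.volume_preserving_equiv_real_prod.symm
      Complex.measurableEquivRealProd).lintegral_comp hH
    rw [← this]
  rw [h1, Measure.volume_eq_prod, lintegral_prod]
  · rfl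
  · exact (hH.comp Complex.measurableEquivRealProd.symm.measurable).aemeasurable

/-- The bending map `(x, y) ↦ (x, y + c(x) (A(x) - y)⁺)`. -/
def bend (c A : ℝ → ℝ) (z : ℂ) : ℂ := ⟨z.re, z.im + c z.re * max (A z.re - z.im) 0⟩

/-- Its Jacobian. -/
def jac (c A : ℝ → ℝ) (z : ℂ) : ℝ := if z.im < A z.re then 1 - c z.re else 1

/-- Its inverse. -/
def unbend (c A : ℝ → ℝ) (z : ℂ) : ℂ :=
  ⟨z.re, z.im - c z.re / (1 - c z.re) * max (A z.re - z.im) 0⟩

theorem unbend_bend {c A : ℝ → ℝ} (hc1 : ∀ x, c x < 1) (z : ℂ) :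
    unbend c A (bend c A z) = z := by
  have hpos : 0 < 1 - c z.re := by linarith [hc1 z.re]
  apply Complex.ext
  · rfl
  · simp only [unbend, bend]
    rcases lt_or_ge z.im (A z.re) with h | h
    · rw [max_eq_left (by linarith : (0 : ℝ) ≤ A z.re - z.im)]
      have h2 : 0 ≤ A z.re - (z.im + c z.re * (A z.re - z.im)) := by
        nlinarith
      rw [max_eq_left h2]
      field_simp
      ring
    · rw [max_eq_right (by linarith : A z.re - z.im ≤ 0)]
      simp only [mul_zero, add_zero]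
      rw [max_eq_right (by linarith : A z.re - z.im ≤ 0)]
      simp

theorem bend_im_lt {c A : ℝ → ℝ} (hc1 : ∀ x, c x < 1) (z : ℂ) :
    (bend c A z).im < A z.re ↔ z.im < A z.re := by
  have hpos : 0 < 1 - c z.re := by linarith [hc1 z.re]
  simp only [bend]
  rcases lt_or_ge z.im (A z.re) with h | h
  · rw [max_eq_left (by linarith : (0 : ℝ) ≤ A z.re - z.im)]
    constructor
    · intro; exact h
    · intro; nlinarith
  · rw [max_eq_right (by linarith : A z.re - z.im ≤ 0)]
    simp

theorem measurable_complex_mk {f g : ℂ → ℝ} (hf : Measurable f) (hg : Measurable g) :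
    Measurable (fun z => (⟨f z, g z⟩ : ℂ)) :=
  Complex.measurableEquivRealProd.symm.measurable.comp (hf.prodMk hg)

theorem measurable_bend {c A : ℝ → ℝ} (hc : Measurable c) (hA : Measurable A) :
    Measurable (bend c A) := by
  apply measurable_complex_mk Complex.measurable_re
  exact Complex.measurable_im.add ((hc.comp Complex.measurable_re).mul
    (((hA.comp Complex.measurable_re).sub Complex.measurable_im).max measurable_const))

theorem measurable_unbend {c A : ℝ → ℝ} (hc : Measurable c) (hA : Measurable A) :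
    Measurable (unbend c A) := by
  apply measurable_complex_mk Complex.measurable_re
  exact Complex.measurable_im.sub ((((hc.comp Complex.measurable_re).div
    (measurable_const.sub (hc.comp Complex.measurable_re)))).mul
    (((hA.comp Complex.measurable_re).sub Complex.measurable_im).max measurable_const))

theorem measurable_jac {c A : ℝ → ℝ} (hc : Measurable c) (hA : Measurable A) :
    Measurable (jac c A) := by
  apply Measurable.ite
  · exact measurableSet_lt Complex.measurable_im (hA.comp Complex.measurable_re)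
  · exact measurable_const.sub (hc.comp Complex.measurable_re)
  · exact measurable_const

theorem lintegral_bend {c A : ℝ → ℝ} (hc : Measurable c) (hA : Measurable A)
    (hc1 : ∀ x, c x < 1) {H : ℂ → ℝ≥0∞} (hH : Measurable H) :
    ∫⁻ z, H z = ∫⁻ z, ENNReal.ofReal (jac c A z) * H (bend c A z) := by
  rw [lintegral_complex hH, lintegral_complex
    (H := fun z => ENNReal.ofReal (jac c A z) * H (bend c A z))
    ((measurable_jac hc hA).ennreal_ofReal.mul (hH.comp (measurable_bend hc hA)))]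
  refine lintegral_congr fun x => ?_
  exact lintegral_bend1 (A x) (c x) (hc1 x) (fun y => H ⟨x, y⟩)

/-- sets that are null on almost every vertical line are null -/
theorem ae_of_ae_vertical {p : ℂ → Prop} (hp : MeasurableSet {z | p z})
    (h : ∀ᵐ x : ℝ, ∀ᵐ y : ℝ, p ⟨x, y⟩) : ∀ᵐ z, p z := by
  rw [ae_iff]
  have hm : MeasurableSet {z : ℂ | ¬ p z} := hp.compl
  rw [← lintegral_indicator_one hm, lintegral_complex (measurable_one.indicator hm)]
  rw [lintegral_eq_zero_iff']
  · filter_upwards [h] with x hx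
    simp only [Pi.zero_apply]
    rw [lintegral_eq_zero_iff']
    · filter_upwards [hx] with y hy
      simp [indicator, hy]
    · apply Measurable.aemeasurable
      exact (measurable_one.indicator hm).comp
        (Complex.measurableEquivRealProd.symm.measurable.comp measurable_prodMk_left)
  · apply Measurable.aemeasurable
    have : Measurable (fun q : ℝ × ℝ => ({z : ℂ | ¬ p z}.indicator (1 : ℂ → ℝ≥0∞))
        (Complex.measurableEquivRealProd.symm q)) :=
      (measurable_one.indicator hm).comp Complex.measurableEquivRealProd.symm.measurable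
    exact this.lintegral_prod_right'

theorem ae_of_ae_re {p : ℝ → Prop} (h : ∀ᵐ x : ℝ, p x) : ∀ᵐ z : ℂ, p z.re := by
  have h1 : Measure.QuasiMeasurePreserving (fun z : ℂ => z.re) volume volume := by
    have h2 : Measure.QuasiMeasurePreserving (Prod.fst : ℝ × ℝ → ℝ)
        (volume.prod volume) volume := Measure.quasiMeasurePreserving_fst
    rw [← Measure.volume_eq_prod] at h2
    exact h2.comp Complex.volume_preserving_equiv_real_prod.quasiMeasurePreserving
  exact h1.ae h

theorem ae_im_ne {A : ℝ → ℝ} (hA : Measurable A) : ∀ᵐ z : ℂ, z.im ≠ A z.re := by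
  apply ae_of_ae_vertical
  · exact (measurableSet_eq_fun Complex.measurable_im (hA.comp Complex.measurable_re)).compl
  · filter_upwards with x
    simp only [ne_eq]
    rw [ae_iff]
    simp

end Transp

namespace Transp

/-- the height function of `unbend` -/
def hgt (c A : ℝ → ℝ) (z : ℂ) : ℝ := z.im - c z.re / (1 - c z.re) * max (A z.re - z.im) 0

theorem unbend_eq (c A : ℝ → ℝ) (z : ℂ) :
    unbend c A z = Complex.ofRealCLM z.re + Complex.ofRealCLM (hgt c A z) * Complex.I := by
  apply Complex.ext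
  · simp only [unbend, Complex.ofRealCLM_apply, Complex.add_re, Complex.ofReal_im, Complex.mul_re,
      Complex.ofReal_re, Complex.I_re, Complex.I_im]
    ring
  · simp only [unbend, Complex.ofRealCLM_apply, Complex.add_im, Complex.ofReal_im, Complex.mul_im,
      Complex.ofReal_re, Complex.I_re, Complex.I_im, hgt]
    ring

theorem hasFDerivAt_re_comp {h : ℝ → ℝ} {h' : ℝ} {z : ℂ} (hh : HasDerivAt h h' z.re) :
    HasFDerivAt (fun z : ℂ => h z.re) (h' • Complex.reCLM) z := by
  have := hh.comp_hasFDerivAt z (Complex.reCLM.hasFDerivAt (x := z))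
  exact this

theorem hasFDerivAt_hgt_lt {c A : ℝ → ℝ} {z : ℂ} {c' A' : ℝ} (hc : HasDerivAt c c' z.re)
    (hA : HasDerivAt A A' z.re) (hAc : Continuous A) (hc1 : c z.re < 1) (hz : z.im < A z.re) :
    HasFDerivAt (hgt c A) ((-(c' / (1 - c z.re) ^ 2 * (A z.re - z.im) +
      c z.re / (1 - c z.re) * A')) • Complex.reCLM + (1 / (1 - c z.re)) • Complex.imCLM) z := by
  have hpos : 0 < 1 - c z.re := by linarith
  have h0 : HasDerivAt (fun x => c x / (1 - c x)) (c' / (1 - c z.re) ^ 2) z.re := by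
    have := hc.div ((hasDerivAt_const z.re (1 : ℝ)).sub hc) (by simpa using hpos.ne')
    have e : (c' * (1 - c z.re) - c z.re * (0 - c')) / (1 - c z.re) ^ 2 =
        c' / (1 - c z.re) ^ 2 := by
      congr 1
      ring
    rw [← e]
    exact this
  have h1 := hasFDerivAt_re_comp h0
  have h2 : HasFDerivAt (fun z : ℂ => A z.re - z.im) (A' • Complex.reCLM - Complex.imCLM) z :=
    (hasFDerivAt_re_comp hA).sub (Complex.imCLM.hasFDerivAt (x := z))
  have h3 := (Complex.imCLM.hasFDerivAt (x := z)).sub (h1.mul h2)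
  have h4 : (hgt c A) =ᶠ[𝓝 z] fun z => Complex.imCLM z -
      c z.re / (1 - c z.re) * (A z.re - z.im) := by
    have hopen : IsOpen {w : ℂ | w.im < A w.re} :=
      isOpen_lt Complex.continuous_im (hAc.comp Complex.continuous_re)
    filter_upwards [hopen.mem_nhds hz] with w hw0
    have hw : w.im < A w.re := hw0
    simp only [hgt, Complex.imCLM_apply]
    rw [max_eq_left (by linarith)]
  refine (HasFDerivAt.congr_of_eventuallyEq ?_ h4)
  refine h3.congr_fderiv ?_
  ext w
  simp only [sub_apply, add_apply,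
    smul_apply, Complex.imCLM_apply, Complex.reCLM_apply, smul_eq_mul]
  have h5 : (1 : ℝ) / (1 - c z.re) = 1 + c z.re / (1 - c z.re) := by
    field_simp
    ring
  rw [h5]
  ring

theorem hasFDerivAt_hgt_gt {c A : ℝ → ℝ} {z : ℂ} (hAc : Continuous A) (hz : A z.re < z.im) :
    HasFDerivAt (hgt c A) Complex.imCLM z := by
  have h4 : (hgt c A) =ᶠ[𝓝 z] fun z => Complex.imCLM z := by
    have hopen : IsOpen {w : ℂ | A w.re < w.im} :=
      isOpen_lt (hAc.comp Complex.continuous_re) Complex.continuous_im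
    filter_upwards [hopen.mem_nhds hz] with w hw0
    have hw : A w.re < w.im := hw0
    simp only [hgt, Complex.imCLM_apply]
    rw [max_eq_right (by linarith)]
    simp
  exact (HasFDerivAt.congr_of_eventuallyEq (Complex.imCLM.hasFDerivAt) h4)

theorem fderiv_comp_unbend {c A : ℝ → ℝ} {z : ℂ} {p q : ℝ} {φ : ℂ → ℝ}
    (hh : HasFDerivAt (hgt c A) (p • Complex.reCLM + q • Complex.imCLM) z)
    (hφ : DifferentiableAt ℝ φ (unbend c A z)) :
    fderiv ℝ (fun z => φ (unbend c A z)) z 1 =
        fderiv ℝ φ (unbend c A z) 1 + p * fderiv ℝ φ (unbend c A z) Complex.I ∧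
      fderiv ℝ (fun z => φ (unbend c A z)) z Complex.I =
        q * fderiv ℝ φ (unbend c A z) Complex.I := by
  have h1 : HasFDerivAt (unbend c A) (Complex.ofRealCLM.comp Complex.reCLM +
      (Complex.I • (Complex.ofRealCLM.comp (p • Complex.reCLM + q • Complex.imCLM)) :
        ℂ →L[ℝ] ℂ)) z := by
    have h2 : HasFDerivAt (fun z : ℂ => Complex.ofRealCLM z.re)
        (Complex.ofRealCLM.comp Complex.reCLM) z :=
      (Complex.ofRealCLM.hasFDerivAt).comp z (Complex.reCLM.hasFDerivAt)
    have h3 : HasFDerivAt (fun z : ℂ => Complex.ofRealCLM (hgt c A z))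
        (Complex.ofRealCLM.comp (p • Complex.reCLM + q • Complex.imCLM)) z :=
      (Complex.ofRealCLM.hasFDerivAt).comp z hh
    have h4 := h2.add (h3.mul_const Complex.I)
    have h5 : (unbend c A) = fun z => Complex.ofRealCLM z.re +
        Complex.ofRealCLM (hgt c A z) * Complex.I := funext (unbend_eq c A)
    rw [h5]
    exact h4
  have h2 := hφ.hasFDerivAt.comp z h1
  have h3 : fderiv ℝ (fun z => φ (unbend c A z)) z = _ := h2.fderiv
  rw [h3]
  constructor
  · simp only [ContinuousLinearMap.comp_apply, add_apply,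
      smul_apply, Complex.ofRealCLM_apply, Complex.reCLM_apply,
      Complex.imCLM_apply, Complex.one_re, Complex.one_im, smul_eq_mul]
    have : ((1 : ℝ) : ℂ) + Complex.I * ((p * 1 + q * 0 : ℝ) : ℂ) = 1 + p • Complex.I := by
      apply Complex.ext <;> simp
    rw [this, map_add, map_smul, smul_eq_mul]
  · simp only [ContinuousLinearMap.comp_apply, add_apply,
      smul_apply, Complex.ofRealCLM_apply, Complex.reCLM_apply,
      Complex.imCLM_apply, Complex.I_re, Complex.I_im, smul_eq_mul]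
    have : ((0 : ℝ) : ℂ) + Complex.I * ((p * 0 + q * 1 : ℝ) : ℂ) = q • Complex.I := by
      apply Complex.ext <;> simp
    rw [this, map_smul, smul_eq_mul]

/-- The quantity `t B` of the blueprint. -/
def bb (c A : ℝ → ℝ) (w : ℂ) : ℝ := deriv c w.re * (A w.re - w.im) + c w.re * deriv A w.re

/-- The transported energy density. -/
def GG (c A : ℝ → ℝ) (φ : ℂ → ℝ) (w : ℂ) : ℝ :=
  if w.im < A w.re then (1 - c w.re) *
    ((fderiv ℝ φ w 1 - bb c A w / (1 - c w.re) * fderiv ℝ φ w Complex.I) ^ 2 +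
      (fderiv ℝ φ w Complex.I / (1 - c w.re)) ^ 2)
  else (fderiv ℝ φ w 1) ^ 2 + (fderiv ℝ φ w Complex.I) ^ 2

/-- The energy density of `φ ∘ unbend` in terms of the new variable. -/
def QQ (c A : ℝ → ℝ) (φ : ℂ → ℝ) (z : ℂ) : ℝ :=
  if z.im < A z.re then
    (fderiv ℝ φ (unbend c A z) 1 - (deriv c z.re / (1 - c z.re) ^ 2 * (A z.re - z.im) +
      c z.re / (1 - c z.re) * deriv A z.re) * fderiv ℝ φ (unbend c A z) Complex.I) ^ 2 +
      (fderiv ℝ φ (unbend c A z) Complex.I / (1 - c z.re)) ^ 2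
  else (fderiv ℝ φ (unbend c A z) 1) ^ 2 + (fderiv ℝ φ (unbend c A z) Complex.I) ^ 2

theorem norm_sq_eq (L : ℂ →L[ℝ] ℝ) : ‖L‖ ^ 2 = (L 1) ^ 2 + (L Complex.I) ^ 2 := by
  rw [norm_sq_eq_dot]; simp only [dot]; ring

theorem ae_norm_fderiv {c A : ℝ → ℝ} {Kc KA : NNReal} (hc : LipschitzWith Kc c)
    (hA : LipschitzWith KA A) (hc1 : ∀ x, c x < 1) {φ : ℂ → ℝ} (hφ : Differentiable ℝ φ) :
    ∀ᵐ z, ‖fderiv ℝ (fun z => φ (unbend c A z)) z‖ ^ 2 = QQ c A φ z := by
  filter_upwards [ae_of_ae_re hc.ae_differentiableAt, ae_of_ae_re hA.ae_differentiableAt,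
    ae_im_ne hA.continuous.measurable] with z h1 h2 h3
  rw [norm_sq_eq]
  rcases lt_or_gt_of_ne h3 with h | h
  · obtain ⟨e1, e2⟩ := fderiv_comp_unbend (hasFDerivAt_hgt_lt h1.hasDerivAt h2.hasDerivAt
      hA.continuous (hc1 _) h) (hφ (unbend c A z))
    rw [e1, e2]
    simp only [QQ, h, if_true]
    ring
  · have h4 : HasFDerivAt (hgt c A) ((0 : ℝ) • Complex.reCLM + (1 : ℝ) • Complex.imCLM) z := by
      have := hasFDerivAt_hgt_gt (c := c) hA.continuous h
      simpa using this
    obtain ⟨e1, e2⟩ := fderiv_comp_unbend h4 (hφ (unbend c A z))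
    rw [e1, e2]
    simp only [QQ, not_lt.2 h.le, if_false]
    ring

theorem measurable_QQ {c A : ℝ → ℝ} (hc : Measurable c) (hA : Measurable A) {φ : ℂ → ℝ} :
    Measurable (QQ c A φ) := by
  have hu := measurable_unbend hc hA
  have m1 : Measurable (fun z => fderiv ℝ φ (unbend c A z) 1) :=
    (measurable_fderiv_apply_const ℝ φ 1).comp hu
  have m2 : Measurable (fun z => fderiv ℝ φ (unbend c A z) Complex.I) :=
    (measurable_fderiv_apply_const ℝ φ Complex.I).comp hu
  have mc : Measurable (fun z : ℂ => c z.re) := hc.comp Complex.measurable_re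
  have mA : Measurable (fun z : ℂ => A z.re) := hA.comp Complex.measurable_re
  have mdc : Measurable (fun z : ℂ => deriv c z.re) := (measurable_deriv c).comp
    Complex.measurable_re
  have mdA : Measurable (fun z : ℂ => deriv A z.re) := (measurable_deriv A).comp
    Complex.measurable_re
  apply Measurable.ite
  · exact measurableSet_lt Complex.measurable_im mA
  · exact ((m1.sub ((((mdc.div ((measurable_const.sub mc).pow_const 2)).mul
      (mA.sub Complex.measurable_im)).add ((mc.div (measurable_const.sub mc)).mul mdA)).mul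
        m2)).pow_const 2).add ((m2.div (measurable_const.sub mc)).pow_const 2)
  · exact (m1.pow_const 2).add (m2.pow_const 2)

theorem jac_mul_QQ {c A : ℝ → ℝ} (hc1 : ∀ x, c x < 1) (φ : ℂ → ℝ) (w : ℂ) :
    jac c A w * QQ c A φ (bend c A w) = GG c A φ w := by
  have hpos : 0 < 1 - c w.re := by linarith [hc1 w.re]
  have hre : (bend c A w).re = w.re := rfl
  by_cases h : w.im < A w.re
  · have h2 : (bend c A w).im < A w.re := (bend_im_lt hc1 w).2 h
    have h3 : A w.re - (bend c A w).im = (1 - c w.re) * (A w.re - w.im) := by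
      simp only [bend]
      rw [max_eq_left (by linarith)]
      ring
    simp only [jac, QQ, GG, hre, h, h2, if_true, unbend_bend hc1, h3, bb]
    field_simp
  · have h2 : ¬ (bend c A w).im < A w.re := fun h' => h ((bend_im_lt hc1 w).1 h')
    simp only [jac, QQ, GG, hre, h, h2, if_false, unbend_bend hc1]
    ring

theorem jac_pos {c A : ℝ → ℝ} (hc1 : ∀ x, c x < 1) (w : ℂ) : 0 < jac c A w := by
  unfold jac
  split_ifs
  · linarith [hc1 w.re]
  · norm_num

theorem lintegral_energy {c A : ℝ → ℝ} {Kc KA : NNReal} (hc : LipschitzWith Kc c)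
    (hA : LipschitzWith KA A) (hc1 : ∀ x, c x < 1) {φ : ℂ → ℝ} (hφ : Differentiable ℝ φ) :
    ∫⁻ z, ENNReal.ofReal (‖fderiv ℝ (fun z => φ (unbend c A z)) z‖ ^ 2) =
      ∫⁻ z, ENNReal.ofReal (GG c A φ z) := by
  have hcm := hc.continuous.measurable
  have hAm := hA.continuous.measurable
  have h1 : ∫⁻ z, ENNReal.ofReal (‖fderiv ℝ (fun z => φ (unbend c A z)) z‖ ^ 2) =
      ∫⁻ z, ENNReal.ofReal (QQ c A φ z) := by
    apply lintegral_congr_ae
    filter_upwards [ae_norm_fderiv hc hA hc1 hφ] with z hz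
    rw [hz]
  rw [h1, lintegral_bend hcm hAm hc1 (measurable_QQ hcm hAm).ennreal_ofReal]
  refine lintegral_congr fun w => ?_
  rw [← ENNReal.ofReal_mul (jac_pos hc1 w).le, jac_mul_QQ hc1]

theorem lintegral_mass {c A : ℝ → ℝ} (hc : Measurable c)
    (hA : Measurable A) (hc1 : ∀ x, c x < 1) {φ : ℂ → ℝ} (hφ : Measurable φ) :
    ∫⁻ z, ENNReal.ofReal ((φ (unbend c A z)) ^ 2) =
      ∫⁻ z, ENNReal.ofReal (jac c A z * φ z ^ 2) := by
  rw [lintegral_bend hc hA hc1 (H := fun z => ENNReal.ofReal ((φ (unbend c A z)) ^ 2))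
    ((hφ.comp (measurable_unbend hc hA)).pow_const 2).ennreal_ofReal]
  refine lintegral_congr fun w => ?_
  rw [← ENNReal.ofReal_mul (jac_pos hc1 w).le, unbend_bend hc1]

theorem alg_ineq {c b p q : ℝ} (hc : |c| ≤ 1 / 4) :
    (1 - c) * ((p - b / (1 - c) * q) ^ 2 + (q / (1 - c)) ^ 2) +
      (1 - -c) * ((p - -b / (1 - -c) * q) ^ 2 + (q / (1 - -c)) ^ 2) ≤
      2 * (p ^ 2 + q ^ 2) + 4 * (b ^ 2 + c ^ 2) * q ^ 2 := by
  have h1 : 0 < 1 - c := by linarith [(abs_le.1 hc).2]
  have h2 : 0 < 1 + c := by linarith [(abs_le.1 hc).1]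
  have h3 : c ^ 2 ≤ 1 / 16 := by
    have := abs_le.1 hc
    nlinarith
  have h4 : (1 - c) * ((p - b / (1 - c) * q) ^ 2 + (q / (1 - c)) ^ 2) +
      (1 - -c) * ((p - -b / (1 - -c) * q) ^ 2 + (q / (1 - -c)) ^ 2) =
      2 * (p ^ 2 + q ^ 2) + 2 * (b ^ 2 + c ^ 2) * q ^ 2 / (1 - c ^ 2) := by
    have h5 : (1 : ℝ) - c ^ 2 = (1 - c) * (1 + c) := by ring
    rw [h5]
    have h6 : (1 : ℝ) - -c = 1 + c := by ring
    rw [h6]
    field_simp
    ring
  rw [h4]
  have h5 : 2 * (b ^ 2 + c ^ 2) * q ^ 2 / (1 - c ^ 2) ≤ 4 * (b ^ 2 + c ^ 2) * q ^ 2 := by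
    rw [div_le_iff₀ (by linarith)]
    nlinarith [mul_nonneg (add_nonneg (sq_nonneg b) (sq_nonneg c)) (sq_nonneg q)]
  linarith

end Transp

namespace Transp

theorem bend_unbend {c A : ℝ → ℝ} (hc1 : ∀ x, c x < 1) (z : ℂ) :
    bend c A (unbend c A z) = z := by
  have hpos : 0 < 1 - c z.re := by linarith [hc1 z.re]
  apply Complex.ext
  · rfl
  · simp only [unbend, bend]
    rcases lt_or_ge z.im (A z.re) with h | h
    · rw [max_eq_left (by linarith : (0 : ℝ) ≤ A z.re - z.im)]
      have h2 : A z.re - (z.im - c z.re / (1 - c z.re) * (A z.re - z.im)) =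
          (A z.re - z.im) / (1 - c z.re) := by
        field_simp
        ring
      rw [h2, max_eq_left (div_nonneg (by linarith) hpos.le)]
      field_simp
      ring
    · rw [max_eq_right (by linarith : A z.re - z.im ≤ 0)]
      simp only [mul_zero, sub_zero]
      rw [max_eq_right (by linarith : A z.re - z.im ≤ 0)]
      simp

/-- The data of the second variation. -/
structure Data (a b : ℝ) (f F : ℝ → ℝ) (α β ρ : ℝ) (g A : ℝ → ℝ) : Prop where
  haα : a < α
  hαβ : α < β
  hβb : β < b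
  hρ : 0 < ρ
  hg : LipschitzWith (Real.toNNReal (1 / ρ)) g
  hg1 : ∀ x, |g x| ≤ 1
  hgs : ∀ x, x ∉ Icc α β → g x = 0
  hA : LipschitzWith 1 A
  hAf : ∀ x ∈ Icc α β, A x = f x + ρ
  hfF : ∀ x ∈ Icc α β, f x + ρ < F x

variable {a b : ℝ} {f F : ℝ → ℝ} {α β ρ : ℝ} {g A : ℝ → ℝ}

/-- the coefficient -/
def cc (t ρ : ℝ) (g : ℝ → ℝ) (x : ℝ) : ℝ := t * g x / ρ

theorem cc_neg (t ρ : ℝ) (g : ℝ → ℝ) (x : ℝ) : cc (-t) ρ g x = -(cc t ρ g x) := by
  simp only [cc]; ring

theorem Data.abs_cc (D : Data a b f F α β ρ g A) {t : ℝ} (ht : |t| ≤ ρ / 4) (x : ℝ) :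
    |cc t ρ g x| ≤ 1 / 4 := by
  have hρ := D.hρ
  simp only [cc]
  rw [abs_div, abs_mul, abs_of_pos hρ, div_le_iff₀ hρ]
  calc |t| * |g x| ≤ ρ / 4 * 1 := by
        apply mul_le_mul ht (D.hg1 x) (abs_nonneg _) (by positivity)
    _ = 1 / 4 * ρ := by ring

theorem Data.cc_lt (D : Data a b f F α β ρ g A) {t : ℝ} (ht : |t| ≤ ρ / 4) (x : ℝ) :
    cc t ρ g x < 1 := by
  linarith [(abs_le.1 (D.abs_cc ht x)).2]

theorem Data.cc_sub (D : Data a b f F α β ρ g A) (t : ℝ) (x y : ℝ) :
    |cc t ρ g x - cc t ρ g y| ≤ |t| / ρ ^ 2 * |x - y| := by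
  have hρ := D.hρ
  have h1 : |g x - g y| ≤ 1 / ρ * |x - y| := by
    have := D.hg.dist_le_mul x y
    rw [Real.coe_toNNReal _ (by positivity), Real.dist_eq, Real.dist_eq] at this
    exact this
  have h2 : cc t ρ g x - cc t ρ g y = t / ρ * (g x - g y) := by
    simp only [cc]; ring
  rw [h2, abs_mul, abs_div, abs_of_pos hρ]
  calc |t| / ρ * |g x - g y| ≤ |t| / ρ * (1 / ρ * |x - y|) := by gcongr
    _ = |t| / ρ ^ 2 * |x - y| := by field_simp

theorem Data.lip_cc (D : Data a b f F α β ρ g A) (t : ℝ) :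
    LipschitzWith (Real.toNNReal (|t| / ρ ^ 2)) (cc t ρ g) := by
  apply LipschitzWith.of_dist_le_mul
  intro x y
  have hρ := D.hρ
  rw [Real.coe_toNNReal _ (by positivity), Real.dist_eq, Real.dist_eq]
  exact D.cc_sub t x y

theorem Data.cc_out (D : Data a b f F α β ρ g A) (t : ℝ) {x : ℝ} (hx : x ∉ Icc α β) :
    cc t ρ g x = 0 := by
  simp [cc, D.hgs x hx]

theorem Data.bend_mem (D : Data a b f F α β ρ g A) {t : ℝ} (ht : |t| ≤ ρ / 4) {w : ℂ}
    (hw : w ∈ prof a b f F) :
    bend (cc t ρ g) A w ∈ prof a b (fun x => f x + t * g x) F := by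
  have hρ := D.hρ
  obtain ⟨h1, h2, h3⟩ := hw
  have hc := abs_le.1 (D.abs_cc ht w.re)
  have hcρ : cc t ρ g w.re * ρ = t * g w.re := by
    simp only [cc]; field_simp
  refine ⟨h1, ?_, ?_⟩
  · simp only [bend]
    by_cases hx : w.re ∈ Icc α β
    · rw [D.hAf _ hx]
      rcases lt_or_ge w.im (f w.re + ρ) with h | h
      · rw [max_eq_left (by linarith)]
        nlinarith
      · rw [max_eq_right (by linarith)]
        nlinarith
    · rw [D.cc_out t hx, D.hgs _ hx]
      linarith
  · simp only [bend]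
    by_cases hx : w.re ∈ Icc α β
    · rw [D.hAf _ hx]
      have := D.hfF _ hx
      rcases lt_or_ge w.im (f w.re + ρ) with h | h
      · rw [max_eq_left (by linarith)]
        nlinarith
      · rw [max_eq_right (by linarith)]
        linarith
    · rw [D.cc_out t hx]
      linarith

theorem abs_div_sub_le {c c' : ℝ} (hc : |c| ≤ 1 / 4) (hc' : |c'| ≤ 1 / 4) :
    |c / (1 - c) - c' / (1 - c')| ≤ 2 * |c - c'| := by
  have h := abs_le.1 hc
  have h' := abs_le.1 hc'
  have h1 : 0 < 1 - c := by linarith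
  have h2 : 0 < 1 - c' := by linarith
  have h3 : c / (1 - c) - c' / (1 - c') = (c - c') / ((1 - c) * (1 - c')) := by
    field_simp
    ring
  rw [h3, abs_div, abs_of_pos (mul_pos h1 h2), div_le_iff₀ (mul_pos h1 h2)]
  have h4 : 1 / 2 ≤ (1 - c) * (1 - c') := by nlinarith
  nlinarith [abs_nonneg (c - c')]

theorem abs_div_le {c : ℝ} (hc : |c| ≤ 1 / 4) : |c / (1 - c)| ≤ 1 / 3 := by
  have h := abs_le.1 hc
  have h1 : 0 < 1 - c := by linarith
  rw [abs_div, abs_of_pos h1, div_le_iff₀ h1]
  linarith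

theorem abs_min_sub {x y k : ℝ} : |min x k - min y k| ≤ |x - y| := by
  have h := abs_min_sub_min_le_max x k y k
  simpa using h

theorem Data.adm (D : Data a b f F α β ρ g A) {t : ℝ} (ht : |t| ≤ ρ / 4) {φ : ℂ → ℝ}
    (hφ : ContDiff ℝ ∞ φ) (hc : HasCompactSupport φ) (hs : tsupport φ ⊆ prof a b f F) :
    Adm (prof a b (fun x => f x + t * g x) F) (fun z => φ (unbend (cc t ρ g) A z)) := by
  have hρ := D.hρ
  have hzero : ∀ z, z ∉ prof a b f F → φ z = 0 := fun z hz =>
    image_eq_zero_of_notMem_tsupport (fun h => hz (hs h))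
  have hc1 := D.cc_lt ht
  refine ⟨?_, ?_⟩
  · obtain ⟨K, hK⟩ := hφ.lipschitzWith_of_hasCompactSupport hc (by simp)
    -- truncation
    have heq : ∀ z, φ (unbend (cc t ρ g) A z) = φ ⟨z.re, z.im -
        cc t ρ g z.re / (1 - cc t ρ g z.re) * min (max (A z.re - z.im) 0) (2 * ρ)⟩ := by
      intro z
      by_cases hx : z.re ∈ Icc α β
      · rcases le_or_gt (max (A z.re - z.im) 0) (2 * ρ) with h | h
        · rw [min_eq_left h]
          rfl
        · have h1 : 2 * ρ < A z.re - z.im := by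
            rcases lt_max_iff.1 h with h | h
            · exact h
            · linarith
          have h2 := abs_le.1 (abs_div_le (D.abs_cc ht z.re))
          have hAf := D.hAf _ hx
          rw [hzero, hzero]
          · rintro ⟨_, h3, _⟩
            simp only at h3
            rw [min_eq_right h.le] at h3
            nlinarith
          · rintro ⟨_, h3, _⟩
            simp only [unbend] at h3
            rw [max_eq_left (by linarith)] at h3
            nlinarith
      · simp only [unbend, D.cc_out t hx]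
        congr 2
        simp
    have hA : ∀ x y : ℝ, |A x - A y| ≤ |x - y| := by
      intro x y
      have := D.hA.dist_le_mul x y
      rw [Real.dist_eq, Real.dist_eq] at this
      simpa using this
    set L : ℝ := 3 + 4 * ρ * (|t| / ρ ^ 2) with hL
    have hL0 : 0 ≤ L := by positivity
    have hmap : LipschitzWith (Real.toNNReal L) (fun z : ℂ => (⟨z.re, z.im -
        cc t ρ g z.re / (1 - cc t ρ g z.re) * min (max (A z.re - z.im) 0) (2 * ρ)⟩ : ℂ)) := by
      apply LipschitzWith.of_dist_le_mul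
      intro z w
      rw [Real.coe_toNNReal _ hL0, Complex.dist_eq, Complex.dist_eq]
      refine (Complex.norm_le_abs_re_add_abs_im _).trans ?_
      simp only [Complex.sub_re, Complex.sub_im]
      have hre : |z.re - w.re| ≤ ‖z - w‖ := by
        rw [← Complex.sub_re]; exact Complex.abs_re_le_norm _
      have him : |z.im - w.im| ≤ ‖z - w‖ := by
        rw [← Complex.sub_im]; exact Complex.abs_im_le_norm _
      set γz := cc t ρ g z.re / (1 - cc t ρ g z.re) with hγz
      set γw := cc t ρ g w.re / (1 - cc t ρ g w.re) with hγw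
      set mz := min (max (A z.re - z.im) 0) (2 * ρ) with hmz
      set mw := min (max (A w.re - w.im) 0) (2 * ρ) with hmw
      have e1 : |γz| ≤ 1 / 3 := abs_div_le (D.abs_cc ht z.re)
      have e2 : |γz - γw| ≤ 2 * (|t| / ρ ^ 2 * |z.re - w.re|) :=
        (abs_div_sub_le (D.abs_cc ht z.re) (D.abs_cc ht w.re)).trans
          (by linarith [D.cc_sub t z.re w.re])
      have e3 : |mw| ≤ 2 * ρ := by
        rw [abs_of_nonneg (le_min (le_max_right _ _) (by linarith))]
        exact min_le_right _ _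
      have e4 : |mz - mw| ≤ |A z.re - A w.re| + |z.im - w.im| := by
        calc |mz - mw| ≤ |max (A z.re - z.im) 0 - max (A w.re - w.im) 0| :=
              abs_min_sub
          _ ≤ |(A z.re - z.im) - (A w.re - w.im)| := abs_max_sub_max_le_abs _ _ _
          _ = |(A z.re - A w.re) - (z.im - w.im)| := by ring_nf
          _ ≤ |A z.re - A w.re| + |z.im - w.im| := abs_sub _ _
      have e5 : |(z.im - γz * mz) - (w.im - γw * mw)| ≤
          |z.im - w.im| + |γz| * |mz - mw| + |γz - γw| * |mw| := by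
        have : (z.im - γz * mz) - (w.im - γw * mw) =
            (z.im - w.im) - (γz * (mz - mw) + (γz - γw) * mw) := by ring
        rw [this]
        calc |(z.im - w.im) - (γz * (mz - mw) + (γz - γw) * mw)|
            ≤ |z.im - w.im| + |γz * (mz - mw) + (γz - γw) * mw| := abs_sub _ _
          _ ≤ |z.im - w.im| + (|γz * (mz - mw)| + |(γz - γw) * mw|) := by
              gcongr; exact abs_add_le _ _
          _ = _ := by rw [abs_mul, abs_mul]; ring
      have e6 : |γz| * |mz - mw| ≤ 1 / 3 * (‖z - w‖ + ‖z - w‖) := by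
        apply mul_le_mul e1 _ (abs_nonneg _) (by norm_num)
        exact e4.trans (add_le_add ((hA _ _).trans hre) him)
      have e7 : |γz - γw| * |mw| ≤ 2 * (|t| / ρ ^ 2 * ‖z - w‖) * (2 * ρ) := by
        apply mul_le_mul _ e3 (abs_nonneg _) (by positivity)
        refine e2.trans ?_
        gcongr
      have e8 : L * ‖z - w‖ = 3 * ‖z - w‖ + 2 * (|t| / ρ ^ 2 * ‖z - w‖) * (2 * ρ) := by
        rw [hL]; ring
      have := norm_nonneg (z - w)
      linarith
    refine ⟨K * Real.toNNReal L, ?_⟩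
    have hfun : (fun z => φ (unbend (cc t ρ g) A z)) = φ ∘ (fun z : ℂ => (⟨z.re, z.im -
        cc t ρ g z.re / (1 - cc t ρ g z.re) * min (max (A z.re - z.im) 0) (2 * ρ)⟩ : ℂ)) :=
      funext heq
    rw [hfun]
    exact hK.comp hmap
  · intro z hz
    apply hzero
    intro h
    apply hz
    have := D.bend_mem ht h
    rwa [bend_unbend hc1] at this

/-- the strip -/
def strip (α β ρ : ℝ) (A : ℝ → ℝ) : Set ℂ :=
  {z | z.re ∈ Icc α β ∧ A z.re - ρ < z.im ∧ z.im < A z.re}

theorem measurableSet_strip (hA : Measurable A) : MeasurableSet (strip α β ρ A) := by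
  have h1 : MeasurableSet {z : ℂ | z.re ∈ Icc α β} := Complex.measurable_re measurableSet_Icc
  have h2 : MeasurableSet {z : ℂ | A z.re - ρ < z.im} :=
    measurableSet_lt ((hA.comp Complex.measurable_re).sub_const ρ) Complex.measurable_im
  have h3 : MeasurableSet {z : ℂ | z.im < A z.re} :=
    measurableSet_lt Complex.measurable_im (hA.comp Complex.measurable_re)
  exact h1.inter (h2.inter h3)

theorem abs_deriv_le {h : ℝ → ℝ} {K : ℝ≥0} (hh : LipschitzWith K h) (x : ℝ) :
    |deriv h x| ≤ K := by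
  have := norm_deriv_le_of_lipschitz (x₀ := x) hh
  simpa using this

theorem Data.deriv_cc_out (D : Data a b f F α β ρ g A) (t : ℝ) {x : ℝ} (hx : x ∉ Icc α β) :
    deriv (cc t ρ g) x = 0 := by
  have : cc t ρ g =ᶠ[𝓝 x] fun _ => 0 := by
    filter_upwards [isClosed_Icc.isOpen_compl.mem_nhds hx] with y hy
    exact D.cc_out t hy
  rw [this.deriv_eq]
  simp

theorem deriv_cc_neg (t ρ : ℝ) (g : ℝ → ℝ) (x : ℝ) :
    deriv (cc (-t) ρ g) x = - deriv (cc t ρ g) x := by
  have : cc (-t) ρ g = fun x => -(cc t ρ g x) := funext (cc_neg t ρ g)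
  rw [this, deriv.fun_neg]

theorem Data.GG_add_le (D : Data a b f F α β ρ g A) {t : ℝ} (ht : |t| ≤ ρ / 4) {φ : ℂ → ℝ}
    (hs : tsupport φ ⊆ prof a b f F) (z : ℂ) :
    GG (cc t ρ g) A φ z + GG (cc (-t) ρ g) A φ z ≤ 2 * ‖fderiv ℝ φ z‖ ^ 2 +
      20 * t ^ 2 / ρ ^ 2 * (strip α β ρ A).indicator (fun z => ‖fderiv ℝ φ z‖ ^ 2) z := by
  have hρ := D.hρ
  by_cases hz : z ∈ prof a b f F
  swap
  · have h0 : fderiv ℝ φ z = 0 := by
      have : z ∉ tsupport φ := fun h => hz (hs h)
      exact image_eq_zero_of_notMem_tsupport (fun h => this (tsupport_fderiv_subset ℝ h))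
    have h1 : ∀ c, GG c A φ z = 0 := by
      intro c
      simp [GG, h0]
    rw [h1, h1, h0]
    simp [indicator, h0]
  have hnn : 0 ≤ 20 * t ^ 2 / ρ ^ 2 *
      (strip α β ρ A).indicator (fun z => ‖fderiv ℝ φ z‖ ^ 2) z := by
    apply mul_nonneg (by positivity)
    exact indicator_nonneg (fun _ _ => by positivity) _
  by_cases hy : z.im < A z.re
  swap
  · simp only [GG, hy, if_false]
    rw [norm_sq_eq (fderiv ℝ φ z)]
    linarith
  have hcneg := cc_neg t ρ g z.re
  have hbneg : bb (cc (-t) ρ g) A z = - bb (cc t ρ g) A z := by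
    simp only [bb]
    rw [deriv_cc_neg, hcneg]
    ring
  have hkey := alg_ineq (c := cc t ρ g z.re) (b := bb (cc t ρ g) A z) (p := fderiv ℝ φ z 1)
    (q := fderiv ℝ φ z Complex.I) (D.abs_cc ht z.re)
  have hG : GG (cc t ρ g) A φ z + GG (cc (-t) ρ g) A φ z ≤ 2 * ‖fderiv ℝ φ z‖ ^ 2 +
      4 * ((bb (cc t ρ g) A z) ^ 2 + (cc t ρ g z.re) ^ 2) * (fderiv ℝ φ z Complex.I) ^ 2 := by
    simp only [GG, hy, if_true, hbneg, hcneg]
    rw [norm_sq_eq]
    exact hkey
  refine hG.trans ?_
  by_cases hx : z.re ∈ Icc α β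
  swap
  · have e1 : cc t ρ g z.re = 0 := D.cc_out t hx
    have e2 : bb (cc t ρ g) A z = 0 := by
      simp [bb, e1, D.deriv_cc_out t hx]
    rw [e1, e2]
    linarith
  · obtain ⟨h1, h2, h3⟩ := hz
    have hAf := D.hAf _ hx
    have hmem : z ∈ strip α β ρ A := ⟨hx, by rw [hAf]; linarith, hy⟩
    rw [indicator_of_mem hmem]
    have hc2 : (cc t ρ g z.re) ^ 2 ≤ t ^ 2 / ρ ^ 2 := by
      simp only [cc]
      rw [div_pow, mul_pow]
      have : (g z.re) ^ 2 ≤ 1 := by
        have := D.hg1 z.re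
        rw [← sq_abs]
        nlinarith [abs_nonneg (g z.re)]
      gcongr
      nlinarith [sq_nonneg t]
    have hb : |bb (cc t ρ g) A z| ≤ 2 * |t| / ρ := by
      simp only [bb]
      have e1 : |deriv (cc t ρ g) z.re| ≤ |t| / ρ ^ 2 := by
        have := abs_deriv_le (D.lip_cc t) z.re
        rwa [Real.coe_toNNReal _ (by positivity)] at this
      have e2 : |A z.re - z.im| ≤ ρ := by
        rw [hAf] at hy ⊢
        rw [abs_le]
        constructor <;> linarith
      have e3 : |cc t ρ g z.re| ≤ |t| / ρ := by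
        simp only [cc]
        rw [abs_div, abs_mul, abs_of_pos hρ]
        have := D.hg1 z.re
        gcongr
        nlinarith [abs_nonneg t]
      have e4 : |deriv A z.re| ≤ 1 := by simpa using abs_deriv_le D.hA z.re
      calc |deriv (cc t ρ g) z.re * (A z.re - z.im) + cc t ρ g z.re * deriv A z.re|
          ≤ |deriv (cc t ρ g) z.re * (A z.re - z.im)| + |cc t ρ g z.re * deriv A z.re| :=
            abs_add_le _ _
        _ = |deriv (cc t ρ g) z.re| * |A z.re - z.im| + |cc t ρ g z.re| * |deriv A z.re| := by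
            rw [abs_mul, abs_mul]
        _ ≤ |t| / ρ ^ 2 * ρ + |t| / ρ * 1 := by gcongr
        _ = 2 * |t| / ρ := by field_simp; ring
    have hb2 : (bb (cc t ρ g) A z) ^ 2 ≤ 4 * t ^ 2 / ρ ^ 2 := by
      rw [← sq_abs]
      calc |bb (cc t ρ g) A z| ^ 2 ≤ (2 * |t| / ρ) ^ 2 := by gcongr
        _ = 4 * t ^ 2 / ρ ^ 2 := by rw [div_pow, mul_pow, sq_abs]; norm_num
    have hI : (fderiv ℝ φ z Complex.I) ^ 2 ≤ ‖fderiv ℝ φ z‖ ^ 2 := by
      rw [norm_sq_eq]
      nlinarith [sq_nonneg (fderiv ℝ φ z 1)]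
    have : 4 * ((bb (cc t ρ g) A z) ^ 2 + (cc t ρ g z.re) ^ 2) * (fderiv ℝ φ z Complex.I) ^ 2 ≤
        4 * (4 * t ^ 2 / ρ ^ 2 + t ^ 2 / ρ ^ 2) * ‖fderiv ℝ φ z‖ ^ 2 := by
      gcongr
    have e : 4 * (4 * t ^ 2 / ρ ^ 2 + t ^ 2 / ρ ^ 2) * ‖fderiv ℝ φ z‖ ^ 2 =
        20 * t ^ 2 / ρ ^ 2 * ‖fderiv ℝ φ z‖ ^ 2 := by ring
    linarith

theorem integrable_sq_fderiv {φ : ℂ → ℝ} (hφ : ContDiff ℝ ∞ φ) (hc : HasCompactSupport φ) :
    Integrable (fun z => ‖fderiv ℝ φ z‖ ^ 2) := by
  have h1 : Continuous (fderiv ℝ φ) := hφ.continuous_fderiv (by simp)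
  have h2 : HasCompactSupport (fderiv ℝ φ) := hc.fderiv (𝕜 := ℝ)
  refine Continuous.integrable_of_hasCompactSupport (h1.norm.pow 2) ?_
  exact h2.comp_left (g := fun L => ‖L‖ ^ 2) (by simp)

theorem energy_eq_toReal (v : ℂ → ℝ) :
    energy v = (∫⁻ z, ENNReal.ofReal (‖fderiv ℝ v z‖ ^ 2)).toReal := by
  rw [energy, integral_eq_lintegral_of_nonneg_ae]
  · exact Filter.Eventually.of_forall fun z => by positivity
  · exact ((measurable_fderiv ℝ v).norm.pow_const 2).aestronglyMeasurable

theorem Data.energy_add_le (D : Data a b f F α β ρ g A) {t : ℝ} (ht : |t| ≤ ρ / 4) {φ : ℂ → ℝ}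
    (hφ : ContDiff ℝ ∞ φ) (hc : HasCompactSupport φ) (hs : tsupport φ ⊆ prof a b f F) :
    energy (fun z => φ (unbend (cc t ρ g) A z)) + energy (fun z => φ (unbend (cc (-t) ρ g) A z)) ≤
      2 * energy φ + 20 * t ^ 2 / ρ ^ 2 * ∫ z in strip α β ρ A, ‖fderiv ℝ φ z‖ ^ 2 := by
  have hρ := D.hρ
  have htn : |(-t)| ≤ ρ / 4 := by rwa [abs_neg]
  have hφd : Differentiable ℝ φ := hφ.differentiable (by simp)
  have hSm := measurableSet_strip (α := α) (β := β) (ρ := ρ) D.hA.continuous.measurable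
  have hGm : ∀ t, |t| ≤ ρ / 4 → Measurable (GG (cc t ρ g) A φ) := by
    intro t ht
    have : GG (cc t ρ g) A φ = fun w => jac (cc t ρ g) A w *
        QQ (cc t ρ g) A φ (bend (cc t ρ g) A w) := by
      funext w
      rw [jac_mul_QQ (D.cc_lt ht)]
    rw [this]
    have m1 := (D.lip_cc t).continuous.measurable
    have m2 := D.hA.continuous.measurable
    exact (measurable_jac m1 m2).mul ((measurable_QQ m1 m2).comp (measurable_bend m1 m2))
  have hGn : ∀ t, |t| ≤ ρ / 4 → ∀ z, 0 ≤ GG (cc t ρ g) A φ z := by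
    intro t ht z
    have := D.cc_lt ht z.re
    simp only [GG]
    split_ifs
    · apply mul_nonneg (by linarith)
      positivity
    · positivity
  set R : ℂ → ℝ := fun z => 2 * ‖fderiv ℝ φ z‖ ^ 2 + 20 * t ^ 2 / ρ ^ 2 *
    (strip α β ρ A).indicator (fun z => ‖fderiv ℝ φ z‖ ^ 2) z with hR
  have hint := integrable_sq_fderiv hφ hc
  have hRint : Integrable R := (hint.const_mul 2).add ((hint.indicator hSm).const_mul _)
  have hRn : ∀ z, 0 ≤ R z := by
    intro z
    apply add_nonneg (by positivity)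
    apply mul_nonneg (by positivity)
    exact indicator_nonneg (fun _ _ => by positivity) _
  have hle : (∫⁻ z, ENNReal.ofReal (GG (cc t ρ g) A φ z)) +
      (∫⁻ z, ENNReal.ofReal (GG (cc (-t) ρ g) A φ z)) ≤ ∫⁻ z, ENNReal.ofReal (R z) := by
    rw [← lintegral_add_left (hGm t ht).ennreal_ofReal]
    apply lintegral_mono
    intro z
    show ENNReal.ofReal (GG (cc t ρ g) A φ z) + ENNReal.ofReal (GG (cc (-t) ρ g) A φ z) ≤
      ENNReal.ofReal (R z)
    rw [← ENNReal.ofReal_add (hGn t ht z) (hGn (-t) htn z)]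
    exact ENNReal.ofReal_le_ofReal (D.GG_add_le ht hs z)
  have hfin : ∫⁻ z, ENNReal.ofReal (R z) ≠ ⊤ := by
    rw [← ofReal_integral_eq_lintegral_ofReal hRint (Filter.Eventually.of_forall hRn)]
    exact ENNReal.ofReal_ne_top
  have hfin1 : ∫⁻ z, ENNReal.ofReal (GG (cc t ρ g) A φ z) ≠ ⊤ :=
    ne_top_of_le_ne_top hfin (le_self_add.trans hle)
  have hfin2 : ∫⁻ z, ENNReal.ofReal (GG (cc (-t) ρ g) A φ z) ≠ ⊤ :=
    ne_top_of_le_ne_top hfin (le_add_self.trans hle)
  rw [energy_eq_toReal, energy_eq_toReal, lintegral_energy (D.lip_cc t) D.hA (D.cc_lt ht) hφd,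
    lintegral_energy (D.lip_cc (-t)) D.hA (D.cc_lt htn) hφd, ← ENNReal.toReal_add hfin1 hfin2]
  refine (ENNReal.toReal_mono hfin hle).trans ?_
  rw [← integral_eq_lintegral_of_nonneg_ae (Filter.Eventually.of_forall hRn)
    hRint.aestronglyMeasurable]
  apply le_of_eq
  rw [hR, integral_add (hint.const_mul 2) ((hint.indicator hSm).const_mul _),
    integral_const_mul, integral_const_mul, integral_indicator hSm, energy]

/-- The weight of the first variation of the mass. -/
def Wt (ρ : ℝ) (g A : ℝ → ℝ) (z : ℂ) : ℝ := if z.im < A z.re then g z.re / ρ else 0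

theorem measurable_Wt (hg : Measurable g) (hA : Measurable A) : Measurable (Wt ρ g A) := by
  apply Measurable.ite
  · exact measurableSet_lt Complex.measurable_im (hA.comp Complex.measurable_re)
  · exact (hg.comp Complex.measurable_re).div_const ρ
  · exact measurable_const

theorem Data.abs_Wt (D : Data a b f F α β ρ g A) (z : ℂ) : |Wt ρ g A z| ≤ 1 / ρ := by
  have hρ := D.hρ
  simp only [Wt]
  split_ifs
  · rw [abs_div, abs_of_pos hρ]
    gcongr
    exact D.hg1 _
  · simp [hρ.le]

theorem jac_cc (t : ℝ) (z : ℂ) : jac (cc t ρ g) A z = 1 - t * Wt ρ g A z := by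
  simp only [jac, Wt, cc]
  split_ifs <;> ring

theorem Data.mass_eq (D : Data a b f F α β ρ g A) {t : ℝ} (ht : |t| ≤ ρ / 4) {φ : ℂ → ℝ}
    (hφ : ContDiff ℝ ∞ φ) (hc : HasCompactSupport φ) :
    mass (fun z => φ (unbend (cc t ρ g) A z)) = mass φ - t * ∫ z, Wt ρ g A z * φ z ^ 2 := by
  have hρ := D.hρ
  have m1 := (D.lip_cc t).continuous.measurable
  have m2 := D.hA.continuous.measurable
  have hφm : Measurable φ := hφ.continuous.measurable
  have hint : Integrable (fun z => φ z ^ 2) := by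
    refine Continuous.integrable_of_hasCompactSupport (hφ.continuous.pow 2) ?_
    exact hc.comp_left (g := fun x => x ^ 2) (by simp)
  have hint2 : Integrable (fun z => Wt ρ g A z * φ z ^ 2) := by
    refine hint.bdd_mul (c := 1 / ρ)
      (measurable_Wt D.hg.continuous.measurable m2).aestronglyMeasurable ?_
    exact Filter.Eventually.of_forall fun z => by
      rw [Real.norm_eq_abs]; exact D.abs_Wt z
  have h1 : mass (fun z => φ (unbend (cc t ρ g) A z)) =
      ∫ z, jac (cc t ρ g) A z * φ z ^ 2 := by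
    rw [mass, integral_eq_lintegral_of_nonneg_ae (f := fun z => φ (unbend (cc t ρ g) A z) ^ 2)
      (Filter.Eventually.of_forall fun z => by
      positivity) ((hφm.comp (measurable_unbend m1 m2)).pow_const 2).aestronglyMeasurable,
      lintegral_mass m1 m2 (D.cc_lt ht) hφm, integral_eq_lintegral_of_nonneg_ae]
    · exact Filter.Eventually.of_forall fun z => mul_nonneg (jac_pos (D.cc_lt ht) z).le
        (by positivity)
    · exact ((measurable_jac m1 m2).mul (hφm.pow_const 2)).aestronglyMeasurable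
  rw [h1, mass]
  have h2 : (fun z => jac (cc t ρ g) A z * φ z ^ 2) =
      fun z => φ z ^ 2 - t * (Wt ρ g A z * φ z ^ 2) := by
    funext z
    rw [jac_cc]
    ring
  rw [h2, integral_sub hint (hint2.const_mul t), integral_const_mul]

end Transp

namespace Transp

/-- Weighted continuity of the square norm. -/
theorem tendsto_weighted {W a : ℂ → ℝ} {an : ℕ → ℂ → ℝ} {K : ℝ} (hK : 0 < K)
    (hW : Measurable W) (hWK : ∀ z, |W z| ≤ K) (ha : Integrable (fun z => a z ^ 2))
    (hm : AEStronglyMeasurable a volume)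
    (han : ∀ n, Integrable (fun z => an n z ^ 2))
    (hmn : ∀ n, AEStronglyMeasurable (an n) volume)
    (hlim : Filter.Tendsto (fun n => ∫ z, (an n z - a z) ^ 2) Filter.atTop (𝓝 0)) :
    Filter.Tendsto (fun n => ∫ z, W z * an n z ^ 2) Filter.atTop (𝓝 (∫ z, W z * a z ^ 2)) := by
  have hd : ∀ n, Integrable (fun z => (an n z - a z) ^ 2) := by
    intro n
    refine Integrable.mono' (((han n).const_mul 2).add (ha.const_mul 2))
      (((hmn n).sub hm).pow 2) (Filter.Eventually.of_forall fun z => ?_)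
    simp only [Pi.add_apply]
    rw [Real.norm_eq_abs, abs_of_nonneg (sq_nonneg _)]
    nlinarith [sq_nonneg (an n z + a z)]
  rw [Metric.tendsto_atTop]
  intro ε hε
  set I : ℝ := ∫ z, a z ^ 2 with hI
  have hI0 : 0 ≤ I := integral_nonneg fun z => by positivity
  set θ : ℝ := ε / (2 * K * (I + 1)) with hθ
  have hθ0 : 0 < θ := by positivity
  obtain ⟨N, hN⟩ := (Metric.tendsto_atTop.1 hlim) (ε / (2 * K * (1 + 1 / θ))) (by positivity)
  refine ⟨N, fun n hn => ?_⟩
  have h1 := hN n hn
  rw [Real.dist_eq, sub_zero] at h1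
  set δ : ℝ := ∫ z, (an n z - a z) ^ 2 with hδ
  have hδ0 : 0 ≤ δ := integral_nonneg fun z => by positivity
  rw [abs_of_nonneg hδ0] at h1
  have i1 : Integrable (fun z => W z * an n z ^ 2) :=
    (han n).bdd_mul (c := K) hW.aestronglyMeasurable (Filter.Eventually.of_forall fun z => by
      rw [Real.norm_eq_abs]; exact hWK z)
  have i2 : Integrable (fun z => W z * a z ^ 2) :=
    ha.bdd_mul (c := K) hW.aestronglyMeasurable (Filter.Eventually.of_forall fun z => by
      rw [Real.norm_eq_abs]; exact hWK z)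
  rw [Real.dist_eq, ← integral_sub i1 i2]
  have h2 : |∫ z, (W z * an n z ^ 2 - W z * a z ^ 2)| ≤
      ∫ z, K * ((1 + 1 / θ) * (an n z - a z) ^ 2 + θ * a z ^ 2) := by
    rw [← Real.norm_eq_abs]
    apply norm_integral_le_of_norm_le
    · exact (((hd n).const_mul _).add (ha.const_mul _)).const_mul K
    · refine Filter.Eventually.of_forall fun z => ?_
      rw [Real.norm_eq_abs]
      have e1 : W z * an n z ^ 2 - W z * a z ^ 2 =
          W z * ((an n z - a z) ^ 2 + 2 * (a z * (an n z - a z))) := by ring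
      rw [e1, abs_mul]
      apply mul_le_mul (hWK z) _ (abs_nonneg _) hK.le
      have e2 : |(an n z - a z) ^ 2 + 2 * (a z * (an n z - a z))| ≤
          (an n z - a z) ^ 2 + 2 * (|a z| * |an n z - a z|) := by
        refine (abs_add_le _ _).trans ?_
        rw [abs_of_nonneg (sq_nonneg (an n z - a z)), abs_mul, abs_mul,
          abs_of_pos (by norm_num : (0 : ℝ) < 2)]
      refine e2.trans ?_
      have e3 : 2 * (|a z| * |an n z - a z|) ≤ θ * a z ^ 2 + 1 / θ * (an n z - a z) ^ 2 := by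
        have e4 : 0 ≤ (θ * |a z| - |an n z - a z|) ^ 2 / θ := by positivity
        have e5 : (θ * |a z| - |an n z - a z|) ^ 2 / θ =
            θ * a z ^ 2 + 1 / θ * (an n z - a z) ^ 2 - 2 * (|a z| * |an n z - a z|) := by
          rw [← sq_abs (a z), ← sq_abs (an n z - a z)]
          field_simp
          ring
        linarith
      linarith
  refine lt_of_le_of_lt h2 ?_
  rw [integral_const_mul, integral_add ((hd n).const_mul _) (ha.const_mul _),
    integral_const_mul, integral_const_mul, ← hδ, ← hI]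
  have h3 : K * ((1 + 1 / θ) * δ) < ε / 2 := by
    have h4 : 0 < K * (1 + 1 / θ) := by positivity
    calc K * ((1 + 1 / θ) * δ) = K * (1 + 1 / θ) * δ := by ring
      _ < K * (1 + 1 / θ) * (ε / (2 * K * (1 + 1 / θ))) := by
          apply mul_lt_mul_of_pos_left h1 h4
      _ = ε / 2 := by field_simp
  have h4 : K * (θ * I) ≤ ε / 2 := by
    have : K * (θ * (I + 1)) = ε / 2 := by
      rw [hθ]; field_simp
    nlinarith [mul_pos hK hθ0]
  calc K * ((1 + 1 / θ) * δ + θ * I) = K * ((1 + 1 / θ) * δ) + K * (θ * I) := by ring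
    _ < ε := by linarith

/-- area of the strip -/
theorem volume_strip {α β ρ : ℝ} {A : ℝ → ℝ} (hA : Measurable A) :
    volume (strip α β ρ A) ≤ ENNReal.ofReal ρ * ENNReal.ofReal (β - α) := by
  have hm := measurableSet_strip (α := α) (β := β) (ρ := ρ) hA
  rw [← lintegral_indicator_one hm, lintegral_complex (measurable_one.indicator hm)]
  have h1 : ∀ x : ℝ, ∫⁻ y : ℝ, (strip α β ρ A).indicator (1 : ℂ → ℝ≥0∞) ⟨x, y⟩ ≤
      (Icc α β).indicator (fun _ => ENNReal.ofReal ρ) x := by
    intro x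
    by_cases hx : x ∈ Icc α β
    · rw [indicator_of_mem hx]
      have : ∀ y : ℝ, (strip α β ρ A).indicator (1 : ℂ → ℝ≥0∞) ⟨x, y⟩ ≤
          (Ioo (A x - ρ) (A x)).indicator 1 y := by
        intro y
        by_cases hy : (⟨x, y⟩ : ℂ) ∈ strip α β ρ A
        · rw [indicator_of_mem hy, indicator_of_mem (show y ∈ Ioo (A x - ρ) (A x) from hy.2)]
          simp
        · rw [indicator_of_notMem hy]
          exact zero_le
      refine (lintegral_mono this).trans ?_
      rw [lintegral_indicator_one measurableSet_Ioo, Real.volume_Ioo]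
      simp
    · rw [indicator_of_notMem hx]
      have : ∀ y : ℝ, (strip α β ρ A).indicator (1 : ℂ → ℝ≥0∞) ⟨x, y⟩ = 0 := by
        intro y
        apply indicator_of_notMem
        intro h
        exact hx h.1
      simp [this]
  refine (lintegral_mono h1).trans ?_
  rw [lintegral_indicator_const measurableSet_Icc, Real.volume_Icc]

/-- the energy in the strip -/
theorem integral_strip_le {α β ρ : ℝ} {f A : ℝ → ℝ} (hρ : 0 < ρ) (hαβ : α < β)
    (hρ1 : ρ ≤ β - α) (hf : LipschitzOnWith 1 f (Icc α β)) (hAm : Measurable A)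
    (hAf : ∀ x ∈ Icc α β, A x = f x + ρ) {V : ℂ → ℂ →L[ℝ] ℝ}
    (hV : Integrable (fun z => ‖V z‖ ^ 2)) {M : ℝ} (hM : 0 < M)
    (hball : ∀ x ∈ Icc α β, ∫ z in Metric.ball (⟨x, f x⟩ : ℂ) (3 * ρ), ‖V z‖ ^ 2 ≤
      M * (3 * ρ) ^ 2) :
    ∫ z in strip α β ρ A, ‖V z‖ ^ 2 ≤ 18 * M * ρ * (β - α) := by
  set N : ℕ := ⌊(β - α) / ρ⌋₊ with hN
  have hNle : (N : ℝ) ≤ (β - α) / ρ := Nat.floor_le (div_nonneg (by linarith) hρ.le)
  have hmem : ∀ i ∈ Finset.range (N + 1), α + i * ρ ∈ Icc α β := by
    intro i hi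
    have hi' : (i : ℝ) ≤ N := by
      exact_mod_cast Nat.lt_succ_iff.1 (Finset.mem_range.1 hi)
    have : (i : ℝ) * ρ ≤ β - α := by
      have := (hi'.trans hNle)
      rwa [le_div_iff₀ hρ] at this
    exact ⟨by nlinarith [Nat.cast_nonneg (α := ℝ) i], by linarith⟩
  have hSm := measurableSet_strip (α := α) (β := β) (ρ := ρ) hAm
  have hle : ∀ z, (strip α β ρ A).indicator (fun z => ‖V z‖ ^ 2) z ≤
      ∑ i ∈ Finset.range (N + 1),
        (Metric.ball (⟨α + i * ρ, f (α + i * ρ)⟩ : ℂ) (3 * ρ)).indicator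
          (fun z => ‖V z‖ ^ 2) z := by
    intro z
    by_cases hz : z ∈ strip α β ρ A
    · rw [indicator_of_mem hz]
      obtain ⟨hx, hy1, hy2⟩ := hz
      set i : ℕ := ⌊(z.re - α) / ρ⌋₊ with hi
      have h0 : 0 ≤ (z.re - α) / ρ := div_nonneg (by linarith [hx.1]) hρ.le
      have h1 : (i : ℝ) * ρ ≤ z.re - α := by
        have := Nat.floor_le h0
        rwa [le_div_iff₀ hρ] at this
      have h2 : z.re - α < (i + 1) * ρ := by
        have := Nat.lt_floor_add_one ((z.re - α) / ρ)
        rwa [div_lt_iff₀ hρ] at this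
      have hiN : i ∈ Finset.range (N + 1) := by
        rw [Finset.mem_range, Nat.lt_succ_iff]
        apply Nat.floor_mono
        gcongr
        exact hx.2
      have hxi := hmem i hiN
      have hfx : |f z.re - f (α + i * ρ)| ≤ |z.re - (α + i * ρ)| := by
        have := hf.dist_le_mul _ hx _ hxi
        rw [Real.dist_eq, Real.dist_eq] at this
        simpa using this
      have hdx : |z.re - (α + i * ρ)| ≤ ρ := by
        rw [abs_le]
        constructor <;> linarith
      have hin : z ∈ Metric.ball (⟨α + i * ρ, f (α + i * ρ)⟩ : ℂ) (3 * ρ) := by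
        rw [Metric.mem_ball, Complex.dist_eq]
        have hre : (z - (⟨α + i * ρ, f (α + i * ρ)⟩ : ℂ)).re = z.re - (α + i * ρ) := rfl
        have him : (z - (⟨α + i * ρ, f (α + i * ρ)⟩ : ℂ)).im = z.im - f (α + i * ρ) := rfl
        refine lt_of_le_of_lt (Complex.norm_le_abs_re_add_abs_im _) ?_
        rw [hre, him]
        have hAz := hAf _ hx
        have e1 := abs_le.1 (hfx.trans hdx)
        have e2 : |z.im - f (α + i * ρ)| < 2 * ρ := by
          rw [abs_lt]
          constructor <;> linarith [e1.1, e1.2]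
        linarith
      refine le_trans ?_ (Finset.single_le_sum (f := fun i : ℕ =>
        (Metric.ball (⟨α + i * ρ, f (α + i * ρ)⟩ : ℂ) (3 * ρ)).indicator
          (fun z => ‖V z‖ ^ 2) z) (fun j _ => indicator_nonneg (fun _ _ => by positivity) _) hiN)
      rw [indicator_of_mem hin]
    · rw [indicator_of_notMem hz]
      exact Finset.sum_nonneg fun j _ => indicator_nonneg (fun _ _ => by positivity) _
  rw [← integral_indicator hSm]
  refine (integral_mono (hV.indicator hSm)
    (integrable_finsetSum _ fun i _ => hV.indicator Metric.isOpen_ball.measurableSet) hle).trans ?_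
  rw [integral_finsetSum _ fun i _ => hV.indicator Metric.isOpen_ball.measurableSet]
  calc ∑ i ∈ Finset.range (N + 1), ∫ z,
        (Metric.ball (⟨α + i * ρ, f (α + i * ρ)⟩ : ℂ) (3 * ρ)).indicator
          (fun z => ‖V z‖ ^ 2) z
      ≤ ∑ i ∈ Finset.range (N + 1), M * (3 * ρ) ^ 2 := by
        apply Finset.sum_le_sum
        intro i hi
        rw [integral_indicator Metric.isOpen_ball.measurableSet]
        exact hball _ (hmem i hi)
    _ = (N + 1) * (9 * M * ρ ^ 2) := by
        rw [Finset.sum_const, Finset.card_range, nsmul_eq_mul]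
        push_cast
        ring
    _ ≤ (2 * ((β - α) / ρ)) * (9 * M * ρ ^ 2) := by
        apply mul_le_mul_of_nonneg_right _ (by positivity)
        have : 1 ≤ (β - α) / ρ := by
          rw [le_div_iff₀ hρ]; linarith
        linarith
    _ = 18 * M * ρ * (β - α) := by
        field_simp
        ring

/-- From the product inequality to the logarithms. -/
theorem log_step {L₁ L₂ l κ I D t : ℝ} (h1 : 0 < L₁) (h2 : 0 < L₂) (hl : 0 < l)
    (hI : 0 ≤ κ * I) (hD : t ^ 2 * D ^ 2 ≤ 1 / 2)
    (h : L₁ * L₂ * (1 - t ^ 2 * D ^ 2) ≤ ((2 * l + κ * I) / 2) ^ 2) :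
    Real.log L₁ + Real.log L₂ ≤ 2 * Real.log l + κ * I / l + 2 * (t ^ 2 * D ^ 2) := by
  have h3 : 0 < 1 - t ^ 2 * D ^ 2 := by linarith
  have h4 : 0 < (2 * l + κ * I) / 2 := by linarith
  have h5 : Real.log (L₁ * L₂ * (1 - t ^ 2 * D ^ 2)) ≤ Real.log (((2 * l + κ * I) / 2) ^ 2) :=
    Real.log_le_log (by positivity) h
  rw [Real.log_mul (by positivity) h3.ne', Real.log_mul h1.ne' h2.ne', Real.log_pow] at h5
  have h6 : Real.log ((2 * l + κ * I) / 2) ≤ Real.log l + κ * I / (2 * l) := by
    have e : (2 * l + κ * I) / 2 = l * (1 + κ * I / (2 * l)) := by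
      field_simp
    rw [e, Real.log_mul hl.ne' (by positivity)]
    have := Real.log_le_sub_one_of_pos (show 0 < 1 + κ * I / (2 * l) by positivity)
    linarith
  have h7 : -(2 * (t ^ 2 * D ^ 2)) ≤ Real.log (1 - t ^ 2 * D ^ 2) := by
    have e := Real.one_sub_inv_le_log_of_pos h3
    have e2 : (1 - t ^ 2 * D ^ 2)⁻¹ ≤ 1 + 2 * (t ^ 2 * D ^ 2) := by
      rw [inv_le_iff_one_le_mul₀ h3]
      have : 0 ≤ t ^ 2 * D ^ 2 := by positivity
      nlinarith
    linarith
  have h8 : κ * I / l = 2 * (κ * I / (2 * l)) := by field_simp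
  push_cast at h5
  linarith

end Transp

open Transp in
theorem second_order {a b : ℝ} {f F : ℝ → ℝ} (h : CProf a b f F) :
    ∃ C : ℝ, 0 < C ∧ ∀ (α β ρ : ℝ) (g : ℝ → ℝ), a < α → α < β → β < b → 0 < ρ → ρ ≤ β - α →
      ρ ≤ 1 / 3 → LipschitzOnWith 1 f (Icc α β) → LipschitzWith (Real.toNNReal (1 / ρ)) g →
      (∀ x, |g x| ≤ 1) → (∀ x, x ∉ Icc α β → g x = 0) → (∀ x ∈ Icc α β, f x + ρ < F x) →
      ∀ t, 0 < t → t ≤ ρ / 4 → CProf a b (fun x => f x + t * g x) F →
        CProf a b (fun x => f x + (-t) * g x) F →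
        Real.log (lam1 (prof a b (fun x => f x + t * g x) F)) +
          Real.log (lam1 (prof a b (fun x => f x + (-t) * g x) F)) ≤
          2 * Real.log (lam1 (prof a b f F)) + C * t ^ 2 * (β - α) / ρ := by
  have hΩ := h.dom
  obtain ⟨φ, u, V, hG⟩ := exists_GS hΩ
  obtain ⟨M₁, hM₁⟩ := GS.bounded hΩ hG
  obtain ⟨M₂, hM₂, hball⟩ := GS.energy_ball hΩ hG
  set l := lam1 (prof a b f F) with hl
  have hlpos : 0 < l := lam1_pos hΩ
  have hab : 0 < b - a := by linarith [h.lt]
  refine ⟨360 * M₂ / l + 2 * M₁ ^ 4 * (b - a), by positivity, ?_⟩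
  intro α β ρ g haα hαβ hβb hρ hρ1 hρ2 hf hg hg1 hgs hfF t ht ht4 hP hN
  obtain ⟨f', hf', heq⟩ := hf.extend_real
  set A : ℝ → ℝ := fun x => f' x + ρ with hA
  have hAlip : LipschitzWith 1 A := by
    apply LipschitzWith.of_dist_le_mul
    intro x y
    have := hf'.dist_le_mul x y
    simpa [hA] using this
  have D : Data a b f F α β ρ g A :=
    ⟨haα, hαβ, hβb, hρ, hg, hg1, hgs, hAlip, fun x hx => by rw [hA]; simp [heq hx], hfF⟩
  have habs : |t| ≤ ρ / 4 := by rwa [abs_of_pos ht]
  have habsn : |(-t)| ≤ ρ / 4 := by rwa [abs_neg]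
  have hAm : Measurable A := hAlip.continuous.measurable
  have hgm : Measurable g := hg.continuous.measurable
  have hWm := measurable_Wt (ρ := ρ) hgm hAm
  have hSm := measurableSet_strip (α := α) (β := β) (ρ := ρ) hAm
  -- integrability
  have hui : Integrable (fun z => u z ^ 2) := hG.memu.integrable_sq
  have hVn : MemLp (fun z => ‖V z‖) 2 volume := hG.memV.norm
  have hVi : Integrable (fun z => ‖V z‖ ^ 2) := hVn.integrable_sq
  have hφi : ∀ n, Integrable (fun z => φ n z ^ 2) := fun n => by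
    refine Continuous.integrable_of_hasCompactSupport ((hG.smooth n).continuous.pow 2) ?_
    exact (hG.compact n).comp_left (g := fun x => x ^ 2) (by simp)
  have hφ'i : ∀ n, Integrable (fun z => ‖fderiv ℝ (φ n) z‖ ^ 2) := fun n =>
    integrable_sq_fderiv (hG.smooth n) (hG.compact n)
  -- limits
  have limM : Filter.Tendsto (fun n => mass (φ n)) Filter.atTop (𝓝 1) := by
    have := tendsto_weighted (W := fun _ => 1) (K := 1) one_pos measurable_const (by simp) hui
      hG.u_meas.aestronglyMeasurable hφi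
      (fun n => (hG.smooth n).continuous.aestronglyMeasurable) hG.limu
    simpa [mass, hG.mass_one] using this
  have limD : Filter.Tendsto (fun n => ∫ z, Wt ρ g A z * φ n z ^ 2) Filter.atTop
      (𝓝 (∫ z, Wt ρ g A z * u z ^ 2)) :=
    tendsto_weighted (K := 1 / ρ) (by positivity) hWm D.abs_Wt hui
      hG.u_meas.aestronglyMeasurable hφi
      (fun n => (hG.smooth n).continuous.aestronglyMeasurable) hG.limu
  have hfm : ∀ n, AEStronglyMeasurable (fun z => ‖fderiv ℝ (φ n) z‖) volume := fun n =>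
    ((hG.smooth n).continuous_fderiv (by simp)).norm.aestronglyMeasurable
  have limdiff : Filter.Tendsto (fun n => ∫ z, (‖fderiv ℝ (φ n) z‖ - ‖V z‖) ^ 2)
      Filter.atTop (𝓝 0) := by
    refine squeeze_zero (fun n => integral_nonneg fun z => by positivity) (fun n => ?_) hG.limV
    have hmem : MemLp (fun z => fderiv ℝ (φ n) z - V z) 2 volume := by
      refine MemLp.sub ?_ hG.memV
      rw [memLp_two_iff_integrable_sq_norm
        ((hG.smooth n).continuous_fderiv (by simp)).aestronglyMeasurable]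
      exact hφ'i n
    apply integral_mono_of_nonneg
    · exact Filter.Eventually.of_forall fun z => by positivity
    · exact hmem.norm.integrable_sq
    · refine Filter.Eventually.of_forall fun z => ?_
      show (‖fderiv ℝ (φ n) z‖ - ‖V z‖) ^ 2 ≤ ‖fderiv ℝ (φ n) z - V z‖ ^ 2
      rw [← sq_abs]
      gcongr
      exact abs_norm_sub_norm_le _ _
  have limE : Filter.Tendsto (fun n => energy (φ n)) Filter.atTop (𝓝 l) := by
    have := tendsto_weighted (W := fun _ => 1) (K := 1) one_pos measurable_const (by simp) hVi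
      hG.V_meas.norm.aestronglyMeasurable hφ'i hfm limdiff
    simpa [energy, hG.energy_eq] using this
  have limI : Filter.Tendsto (fun n => ∫ z in strip α β ρ A, ‖fderiv ℝ (φ n) z‖ ^ 2) Filter.atTop
      (𝓝 (∫ z in strip α β ρ A, ‖V z‖ ^ 2)) := by
    have := tendsto_weighted (W := (strip α β ρ A).indicator 1) (K := 1) one_pos
      (measurable_one.indicator hSm) (fun z => by
        by_cases hz : z ∈ strip α β ρ A
        · simp [hz]
        · simp [hz]) hVi
      hG.V_meas.norm.aestronglyMeasurable hφ'i hfm limdiff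
    have e : ∀ X : ℂ → ℝ, ∫ z, (strip α β ρ A).indicator 1 z * X z = ∫ z in strip α β ρ A, X z := by
      intro X
      rw [← integral_indicator hSm]
      congr 1
      funext z
      by_cases hz : z ∈ strip α β ρ A
      · simp [hz]
      · simp [hz]
    simp only [e] at this
    exact this
  set κ : ℝ := 20 * t ^ 2 / ρ ^ 2 with hκ
  have hκ0 : 0 ≤ κ := by positivity
  set Dl : ℝ := ∫ z, Wt ρ g A z * u z ^ 2 with hDl
  set Il : ℝ := ∫ z in strip α β ρ A, ‖V z‖ ^ 2 with hIl
  have hL₁ := lam1_pos hP.dom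
  have hL₂ := lam1_pos hN.dom
  set L₁ := lam1 (prof a b (fun x => f x + t * g x) F) with hL₁def
  set L₂ := lam1 (prof a b (fun x => f x + (-t) * g x) F) with hL₂def
  -- the inequality at finite level
  have hfin : ∀ n, L₁ * L₂ * (mass (φ n) ^ 2 - t ^ 2 * (∫ z, Wt ρ g A z * φ n z ^ 2) ^ 2) ≤
      ((2 * energy (φ n) + κ * ∫ z in strip α β ρ A, ‖fderiv ℝ (φ n) z‖ ^ 2) / 2) ^ 2 := by
    intro n
    have a1 := D.adm habs (hG.smooth n) (hG.compact n) (hG.supp n)
    have a2 := D.adm habsn (hG.smooth n) (hG.compact n) (hG.supp n)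
    have b1 := lam1_mul_mass_le hP.dom a1
    have b2 := lam1_mul_mass_le hN.dom a2
    have c1 := D.energy_add_le habs (hG.smooth n) (hG.compact n) (hG.supp n)
    rw [← hκ] at c1
    rw [← hL₁def] at b1
    rw [← hL₂def] at b2
    have d1 := D.mass_eq habs (hG.smooth n) (hG.compact n)
    have d2 := D.mass_eq habsn (hG.smooth n) (hG.compact n)
    set X := mass (fun z => φ n (unbend (cc t ρ g) A z))
    set Y := mass (fun z => φ n (unbend (cc (-t) ρ g) A z))
    set P := energy (fun z => φ n (unbend (cc t ρ g) A z))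
    set Q := energy (fun z => φ n (unbend (cc (-t) ρ g) A z))
    have hX : 0 ≤ X := integral_nonneg fun z => by positivity
    have hY : 0 ≤ Y := integral_nonneg fun z => by positivity
    have hP0 : 0 ≤ P := integral_nonneg fun z => by positivity
    have hQ0 : 0 ≤ Q := integral_nonneg fun z => by positivity
    have e1 : L₁ * L₂ * (mass (φ n) ^ 2 - t ^ 2 * (∫ z, Wt ρ g A z * φ n z ^ 2) ^ 2) =
        (L₁ * X) * (L₂ * Y) := by
      rw [d1, d2]; ring
    rw [e1]
    calc (L₁ * X) * (L₂ * Y) ≤ P * Q := mul_le_mul b1 b2 (by positivity) hP0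
      _ ≤ ((P + Q) / 2) ^ 2 := by nlinarith [sq_nonneg (P - Q)]
      _ ≤ _ := by
        apply pow_le_pow_left₀ (by positivity)
        linarith
  have hlim : L₁ * L₂ * (1 ^ 2 - t ^ 2 * Dl ^ 2) ≤ ((2 * l + κ * Il) / 2) ^ 2 := by
    exact le_of_tendsto_of_tendsto'
      (((limM.pow 2).sub ((limD.pow 2).const_mul (t ^ 2))).const_mul (L₁ * L₂))
      ((((limE.const_mul 2).add (limI.const_mul κ)).div_const 2).pow 2) hfin
  rw [one_pow] at hlim
  -- bounds on `Dl`
  have hWi : Integrable (fun z => Wt ρ g A z * u z ^ 2) :=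
    hui.bdd_mul (c := 1 / ρ) hWm.aestronglyMeasurable (Filter.Eventually.of_forall fun z => by
      rw [Real.norm_eq_abs]; exact D.abs_Wt z)
  have hD1 : |Dl| ≤ 1 / ρ := by
    rw [← Real.norm_eq_abs]
    refine (norm_integral_le_of_norm_le (hui.const_mul (1 / ρ))
      (Filter.Eventually.of_forall fun z => ?_)).trans ?_
    · rw [Real.norm_eq_abs, abs_mul, abs_of_nonneg (sq_nonneg (u z))]
      exact mul_le_mul_of_nonneg_right (D.abs_Wt z) (sq_nonneg _)
    · rw [integral_const_mul, hG.mass_one, mul_one]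
  have hD2 : |Dl| ≤ M₁ ^ 2 * (β - α) := by
    have hvol : (volume (strip α β ρ A)).toReal ≤ ρ * (β - α) := by
      have h1 := volume_strip (α := α) (β := β) (ρ := ρ) hAm
      rw [← ENNReal.ofReal_mul hρ.le] at h1
      refine (ENNReal.toReal_mono ENNReal.ofReal_ne_top h1).trans ?_
      rw [ENNReal.toReal_ofReal]
      exact mul_nonneg hρ.le (by linarith)
    have hvolfin : volume (strip α β ρ A) ≠ ⊤ := by
      refine ne_top_of_le_ne_top ?_ (volume_strip (α := α) (β := β) (ρ := ρ) hAm)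
      exact ENNReal.mul_ne_top ENNReal.ofReal_ne_top ENNReal.ofReal_ne_top
    rw [← Real.norm_eq_abs]
    have hci : Integrable ((strip α β ρ A).indicator (fun _ => M₁ ^ 2 / ρ)) :=
      (integrableOn_const hvolfin).integrable_indicator hSm
    refine (norm_integral_le_of_norm_le hci ?_).trans ?_
    · filter_upwards [hM₁] with z hz
      rw [Real.norm_eq_abs, abs_mul, abs_of_nonneg (sq_nonneg (u z))]
      by_cases hzs : z ∈ strip α β ρ A
      · rw [indicator_of_mem hzs]
        calc |Wt ρ g A z| * u z ^ 2 ≤ 1 / ρ * M₁ ^ 2 := by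
              apply mul_le_mul (D.abs_Wt z) _ (sq_nonneg _) (by positivity)
              exact pow_le_pow_left₀ (hG.u_nonneg z) hz 2
          _ = M₁ ^ 2 / ρ := by ring
      · rw [indicator_of_notMem hzs]
        by_cases hzΩ : z ∈ prof a b f F
        · have : Wt ρ g A z = 0 := by
            simp only [Wt]
            split_ifs with hy
            · have hx : z.re ∉ Icc α β := by
                intro hx
                apply hzs
                refine ⟨hx, ?_, hy⟩
                rw [D.hAf _ hx]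
                linarith [hzΩ.2.1]
              rw [hgs _ hx]
              simp
            · rfl
          rw [this]
          simp
        · rw [hG.u_out z hzΩ]
          simp
    · rw [integral_indicator hSm, setIntegral_const, smul_eq_mul, measureReal_def]
      calc (volume (strip α β ρ A)).toReal * (M₁ ^ 2 / ρ) ≤ (ρ * (β - α)) * (M₁ ^ 2 / ρ) := by
            gcongr
        _ = M₁ ^ 2 * (β - α) := by field_simp
  have hDsq : t ^ 2 * Dl ^ 2 ≤ 1 / 2 := by
    have h1 : |t * Dl| ≤ 1 / 4 := by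
      rw [abs_mul, abs_of_pos ht]
      calc t * |Dl| ≤ ρ / 4 * (1 / ρ) := by
            apply mul_le_mul ht4 hD1 (abs_nonneg _) (by positivity)
        _ = 1 / 4 := by field_simp
    have h2 : t ^ 2 * Dl ^ 2 = |t * Dl| ^ 2 := by rw [sq_abs]; ring
    rw [h2]
    nlinarith [abs_nonneg (t * Dl)]
  have hI0 : 0 ≤ Il := integral_nonneg fun z => by positivity
  have hmain := log_step hL₁ hL₂ hlpos (mul_nonneg hκ0 hI0) hDsq hlim
  have hIle : Il ≤ 18 * M₂ * ρ * (β - α) := by
    refine integral_strip_le (f := f) hρ hαβ hρ1 hf hAm D.hAf hVi hM₂ ?_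
    intro x hx
    refine hball _ ?_ _ (by positivity) (by linarith)
    intro hmem
    exact lt_irrefl _ hmem.2.1
  refine hmain.trans ?_
  have e1 : κ * Il / l ≤ 360 * M₂ / l * t ^ 2 * (β - α) / ρ := by
    calc κ * Il / l ≤ κ * (18 * M₂ * ρ * (β - α)) / l := by gcongr
      _ = 360 * M₂ / l * t ^ 2 * (β - α) / ρ := by
        rw [hκ]
        field_simp
        ring
  have e2 : 2 * (t ^ 2 * Dl ^ 2) ≤ 2 * M₁ ^ 4 * (b - a) * t ^ 2 * (β - α) / ρ := by
    have h1 : Dl ^ 2 ≤ M₁ ^ 4 * (b - a) * (β - α) := by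
      have h2 : Dl ^ 2 = |Dl| ^ 2 := by rw [sq_abs]
      rw [h2]
      calc |Dl| ^ 2 ≤ (M₁ ^ 2 * (β - α)) ^ 2 := by
            apply pow_le_pow_left₀ (abs_nonneg _) hD2
        _ = M₁ ^ 4 * ((β - α) * (β - α)) := by ring
        _ ≤ M₁ ^ 4 * ((b - a) * (β - α)) := by
            apply mul_le_mul_of_nonneg_left _ (by positivity)
            apply mul_le_mul_of_nonneg_right _ (by linarith)
            linarith
        _ = _ := by ring
    have h3 : 2 * M₁ ^ 4 * (b - a) * t ^ 2 * (β - α) ≤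
        2 * M₁ ^ 4 * (b - a) * t ^ 2 * (β - α) / ρ := by
      rw [le_div_iff₀ hρ]
      have : 0 ≤ 2 * M₁ ^ 4 * (b - a) * t ^ 2 * (β - α) := by
        have : 0 ≤ β - α := by linarith
        positivity
      nlinarith
    calc 2 * (t ^ 2 * Dl ^ 2) ≤ 2 * (t ^ 2 * (M₁ ^ 4 * (b - a) * (β - α))) := by gcongr
      _ = 2 * M₁ ^ 4 * (b - a) * t ^ 2 * (β - α) := by ring
      _ ≤ _ := h3
  have e3 : (360 * M₂ / l + 2 * M₁ ^ 4 * (b - a)) * t ^ 2 * (β - α) / ρ =
      360 * M₂ / l * t ^ 2 * (β - α) / ρ + 2 * M₁ ^ 4 * (b - a) * t ^ 2 * (β - α) / ρ := by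
    ring
  linarith

end

end Pool.Agent.Lib.MP_4cfb03_an
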