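import Pool.Agent.Lib.MP_4cfb03_an.CoreA
import Pool.Agent.Lib.MP_4cfb03_an.Transp
import Pool.Agent.Lib.MP_4cfb03_an.Chart
import Pool.Agent.Lib.MP_4cfb03_an.Iso

/-!
# The core argument: a minimizer of `J` has finitely many extreme points
-/

open MeasureTheory Set
open scoped ENNReal ContDiff Topology

namespace Pool.Agent.Lib.MP_4cfb03_an

noncomputable section

theorem core {a b : ℝ} {f F : ℝ → ℝ} (h : CProf a b f F)
    (hmin : ∀ Ω' : Set ℂ, Dom Ω' → J (prof a b f F) ≤ J Ω') {x0 ε : ℝ} (hx0 : a ≤ x0)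
    (hε : 0 < ε) (hx0b : x0 + ε < b)
    (hsl : ∀ x ∈ Ioo x0 (x0 + ε), ∀ y ∈ Ioo x0 (x0 + ε), |f x - f y| ≤ |x - y| / 10)
    (hacc : ∀ δ > 0, ∃ p ∈ Ioo x0 (x0 + δ), NonAff f p) : False := by
  have hΩ : Dom (prof a b f F) := h.dom
  obtain ⟨r, hr, har⟩ := exists_radius hΩ
  obtain ⟨c1, hc1, hlow⟩ := kset_lower h hmin hx0 hx0b hsl hr har
  obtain ⟨C1, hC1, τ0, hτ0, hstab⟩ := h1_stability hΩ hr har
  obtain ⟨C2, hC2, hsec⟩ := second_order h
  have hlam := lam1_pos hΩ
  set D := mw (inn (prof a b f F) r) + 2 * Real.pi * r with hDdef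
  have hD : 0 < D := Dpos _ hr
  -- choice of the scale
  set E2 := min (min (min (ε / 2) (r / 2000)) (1 / 3)) (c1 / (256 * D) / (C2 + 16 * C1 / r + 1))
    with hE2
  have hE2pos : 0 < E2 := by
    rw [hE2]
    refine lt_min (lt_min (lt_min (by positivity) (by positivity)) (by norm_num)) (by positivity)
  have hE2a : E2 ≤ ε / 2 := ((min_le_left _ _).trans (min_le_left _ _)).trans (min_le_left _ _)
  have hE2b : E2 ≤ r / 2000 := ((min_le_left _ _).trans (min_le_left _ _)).trans (min_le_right _ _)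
  have hE2c : E2 ≤ 1 / 3 := (min_le_left _ _).trans (min_le_right _ _)
  have hE2d : E2 ≤ c1 / (256 * D) / (C2 + 16 * C1 / r + 1) := min_le_right _ _
  -- seven points
  obtain ⟨p7, hp7, n7⟩ := hacc E2 hE2pos
  obtain ⟨p6, hp6, n6⟩ := hacc (p7 - x0) (by linarith [hp7.1])
  obtain ⟨p5, hp5, n5⟩ := hacc (p6 - x0) (by linarith [hp6.1])
  obtain ⟨p4, hp4, n4⟩ := hacc (p5 - x0) (by linarith [hp5.1])
  obtain ⟨p3, hp3, n3⟩ := hacc (p4 - x0) (by linarith [hp4.1])
  obtain ⟨p2, hp2, n2⟩ := hacc (p3 - x0) (by linarith [hp3.1])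
  obtain ⟨p1, hp1, n1⟩ := hacc (p2 - x0) (by linarith [hp2.1])
  have o1 := hp1.1
  have o12 : p1 < p2 := by linarith [hp1.2]
  have o23 : p2 < p3 := by linarith [hp2.2]
  have o34 : p3 < p4 := by linarith [hp3.2]
  have o45 : p4 < p5 := by linarith [hp4.2]
  have o56 : p5 < p6 := by linarith [hp5.2]
  have o67 : p6 < p7 := by linarith [hp6.2]
  have o7 : p7 < x0 + E2 := hp7.2
  set ρ := min (p4 - p3) (p5 - p4) / 2 with hρdef
  have hρ : 0 < ρ := by
    have : 0 < min (p4 - p3) (p5 - p4) := lt_min (by linarith) (by linarith)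
    rw [hρdef]; positivity
  have hρ1 : 2 * ρ ≤ p4 - p3 := by
    rw [hρdef]; linarith [min_le_left (p4 - p3) (p5 - p4)]
  have hρ2 : 2 * ρ ≤ p5 - p4 := by
    rw [hρdef]; linarith [min_le_right (p4 - p3) (p5 - p4)]
  -- the smoothing parameter
  obtain ⟨η, hη, e1, e2, e3, e4, e5, e6, e7, e8⟩ : ∃ η : ℝ, 0 < η ∧ 16 * η ≤ ρ ∧
      16 * η ≤ p2 - p1 ∧ 16 * η ≤ p7 - p6 ∧ 2 * η ≤ p3 - p2 ∧ 2 * η ≤ p6 - p5 ∧
      η < p1 - x0 ∧ η < x0 + E2 - p7 ∧ 4 * η ≤ c1 / 2 * ρ := by
    have ev : ∀ c : ℝ, 0 < c → ∀ᶠ η in 𝓝[>] (0 : ℝ), η < c := fun c hc =>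
      mem_nhdsWithin_of_mem_nhds (Iio_mem_nhds hc)
    have evp : ∀ᶠ η in 𝓝[>] (0 : ℝ), 0 < η := self_mem_nhdsWithin
    have := (((((((evp.and (ev (ρ / 16) (by positivity))).and (ev ((p2 - p1) / 16) (by linarith))).and
      (ev ((p7 - p6) / 16) (by linarith))).and (ev ((p3 - p2) / 2) (by linarith))).and
      (ev ((p6 - p5) / 2) (by linarith))).and (ev (p1 - x0) (by linarith))).and
      (ev (x0 + E2 - p7) (by linarith))).and (ev (c1 / 2 * ρ / 4) (by positivity))
    obtain ⟨η, ⟨⟨⟨⟨⟨⟨⟨g1, g2⟩, g3⟩, g4⟩, g5⟩, g6⟩, g7⟩, g8⟩, g9⟩ := this.exists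
    exact ⟨η, g1, by linarith, by linarith, by linarith, by linarith, by linarith, g7, g8,
      by linarith⟩
  set α := p3 - η with hα
  set β := p5 + η with hβ
  have hc1 : x0 < α := by rw [hα]; linarith
  have hc2 : β < x0 + ε := by rw [hβ]; linarith
  have haα : a < α := by linarith
  have hβb : β < b := by linarith
  have hαβ : α < β := by rw [hα, hβ]; linarith
  have hfL := lip_of_chart hsl hc1 hc2
  -- the tent
  obtain ⟨g, σ1, σ2, hgL, hg0, hg1, hgs, hσ1, hσ2, hga1, hga2, t0, ht0, hcv⟩ :=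
    exists_tent3 h hη (by linarith : a < p3 - η) hρ1 hρ2 e1 (by linarith : p5 + η < b) n3 n4 n5
  have hgabs : ∀ x, |g x| ≤ 1 := fun x => by rw [abs_of_nonneg (hg0 x)]; exact hg1 x
  -- contacts on the two sides
  have kp1 := kset_pos h hmin hx0 hx0b hsl hr har hη (by linarith : 16 * η ≤ p2 - p1)
    (by linarith) (by linarith) n1 n2
  have kp2 := kset_pos h hmin hx0 hx0b hsl hr har hη (by linarith : 16 * η ≤ p7 - p6)
    (by linarith) (by linarith) n6 n7
  obtain ⟨x', q', hq', ht', hD'⟩ := exists_good_x h hr har kp1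
  obtain ⟨x'', q'', hq'', ht'', hD''⟩ := exists_good_x h hr har kp2
  -- lower bounds of the measures of contacts
  have kA := hlow p3 p4 η hη (by linarith) (by linarith) (by linarith) (by linarith) n3 n4
  have kB := hlow p4 p5 η hη (by linarith) (by linarith) (by linarith) (by linarith) n4 n5
  have hfin : ∀ s t : ℝ, s ≤ t → volume (kset a b f F r s t) ≠ ⊤ := fun s t hst =>
    ne_top_of_le_ne_top ENNReal.ofReal_ne_top (volume_kset_le h hr hst)
  have trim : ∀ s t : ℝ, 2 * η < t - s →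
      (volume (kset a b f F r (s - η) (t + η))).toReal ≤
        (volume (kset a b f F r (s + η) (t - η))).toReal + 4 * η := by
    intro s t hst
    have hsub : kset a b f F r (s - η) (t + η) ⊆ kset a b f F r (s - η) (s + η) ∪
        (kset a b f F r (s + η) (t - η) ∪ kset a b f F r (t - η) (t + η)) := by
      rintro x ⟨hx1, q, hq, ht⟩
      rcases le_total q (s + η) with h1 | h1
      · exact Or.inl ⟨hx1, q, ⟨hq.1, h1⟩, ht⟩
      · rcases le_total q (t - η) with h2 | h2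
        · exact Or.inr (Or.inl ⟨hx1, q, ⟨h1, h2⟩, ht⟩)
        · exact Or.inr (Or.inr ⟨hx1, q, ⟨h2, hq.2⟩, ht⟩)
    have h1 : volume (kset a b f F r (s - η) (t + η)) ≤ volume (kset a b f F r (s - η) (s + η)) +
        (volume (kset a b f F r (s + η) (t - η)) + volume (kset a b f F r (t - η) (t + η))) := by
      refine (measure_mono hsub).trans ((measure_union_le _ _).trans ?_)
      gcongr
      exact measure_union_le _ _
    have h2 := volume_kset_le h hr (show s - η ≤ s + η by linarith)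
    have h3 := volume_kset_le h hr (show t - η ≤ t + η by linarith)
    have h4 : volume (kset a b f F r (s - η) (t + η)) ≤
        ENNReal.ofReal (2 * η) + (volume (kset a b f F r (s + η) (t - η)) +
          ENNReal.ofReal (2 * η)) := by
      refine h1.trans ?_
      rw [show s + η - (s - η) = 2 * η by ring] at h2
      rw [show t + η - (t - η) = 2 * η by ring] at h3
      gcongr
    have h5 := ENNReal.toReal_mono (by
      simp only [ne_eq, ENNReal.add_eq_top, ENNReal.ofReal_ne_top, false_or, or_false]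
      exact hfin _ _ (by linarith)) h4
    rw [ENNReal.toReal_add ENNReal.ofReal_ne_top (by
      simp only [ne_eq, ENNReal.add_eq_top, ENNReal.ofReal_ne_top, or_false]
      exact hfin _ _ (by linarith)), ENNReal.toReal_add (hfin _ _ (by linarith))
      ENNReal.ofReal_ne_top, ENNReal.toReal_ofReal (by linarith)] at h5
    linarith
  have tA := trim p3 p4 (by linarith)
  have tB := trim p4 p5 (by linarith)
  set κ1 := (volume (kset a b f F r (p3 + η) (p4 - η))).toReal with hκ1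
  set κ2 := (volume (kset a b f F r (p4 + η) (p5 - η))).toReal with hκ2
  have hκ1l : c1 / 2 * (p4 - p3) ≤ κ1 := by
    have h1 : c1 / 2 * ρ ≤ c1 / 2 * ((p4 - p3) / 2) :=
      mul_le_mul_of_nonneg_left (by linarith) (by positivity)
    linarith
  have hκ2l : c1 / 2 * (p5 - p4) ≤ κ2 := by
    have h1 : c1 / 2 * ρ ≤ c1 / 2 * ((p5 - p4) / 2) :=
      mul_le_mul_of_nonneg_left (by linarith) (by positivity)
    linarith
  -- second order estimate of the area
  obtain ⟨t1, ht1, harea⟩ := area_second h hr (s := r) haα hαβ hβb (g := g)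
    (hgL.continuous) hgabs hgs hfL ht' (by rw [hα]; linarith [hq'.2]) hD' ht''
    (by rw [hβ]; linarith [hq''.1]) hD'' (α₁ := p3 + η) (β₁ := p4 - η) (σ₁ := σ1)
    (α₂ := p4 + η) (β₂ := p5 - η) (σ₂ := -σ2) (by rw [hα]; linarith) (by linarith) (by linarith)
    (by linarith) (by rw [hβ]; linarith) hga1 hga2 (η := c1 / 4 * (2 * ρ)) (by positivity)
  rw [← hκ1, ← hκ2] at harea
  -- perturbations
  obtain ⟨t2, ht2, hper⟩ := h.perturb haα hβb hgabs hgs ht0
    (fun t ht ht' => hcv t (by rw [abs_of_pos ht]; exact ht'.le))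
  obtain ⟨t3, ht3, hperm⟩ := h.perturb (g := fun x => - g x) haα hβb
    (fun x => by rw [abs_neg]; exact hgabs x) (fun x hx => by rw [hgs x hx, neg_zero]) ht0
    (fun t ht ht' => by
      have := hcv (-t) (by rw [abs_neg, abs_of_pos ht]; exact ht'.le)
      have e : (fun x => f x + t * (-g x)) = (fun x => f x + (-t) * g x) := by funext x; ring
      rw [e]; exact this)
  -- vertical room
  have hoff := touch_offset h hr hx0 hx0b hsl ht' ⟨by linarith [hq'.1], by linarith [hq'.2]⟩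
  have hroom : ∀ x ∈ Icc α β, f x + ρ < F x := by
    intro x hx
    have h1 : |x - x'| ≤ r / 2 := by
      have e : x - x' = (x - q') + (q' - x') := by ring
      rw [e]
      refine (abs_add_le _ _).trans ?_
      have h2 : |x - q'| ≤ E2 := by
        rw [abs_le]; constructor
        · linarith [hx.1, hq'.2]
        · linarith [hx.2, hq'.1]
      linarith
    have := room hr h ht'.1 hD'.le h1
    linarith
  have hsec' := hsec α β ρ g haα hαβ hβb hρ (by rw [hα, hβ]; linarith) (by linarith) hfL hgL hgabs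
    hgs hroom
  -- choice of t
  obtain ⟨t, ht, l1, l2, l3, l4, l5⟩ : ∃ t : ℝ, 0 < t ∧ t < t1 ∧ t < t2 ∧ t < t3 ∧ t < ρ / 4 ∧
      t < τ0 / 2 := by
    have ev : ∀ c : ℝ, 0 < c → ∀ᶠ η in 𝓝[>] (0 : ℝ), η < c := fun c hc =>
      mem_nhdsWithin_of_mem_nhds (Iio_mem_nhds hc)
    have evp : ∀ᶠ η in 𝓝[>] (0 : ℝ), 0 < η := self_mem_nhdsWithin
    obtain ⟨η, ⟨⟨⟨⟨g1, g2⟩, g3⟩, g4⟩, g5⟩, g6⟩ := (((((evp.and (ev t1 ht1)).and (ev t2 ht2)).and
      (ev t3 ht3)).and (ev (ρ / 4) (by positivity))).and (ev (τ0 / 2) (by positivity))).exists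
    exact ⟨η, g1, g2, g3, g4, g5, g6⟩
  obtain ⟨hP, hP1, hP2⟩ := hper t ht l2
  obtain ⟨hM, hM1, hM2⟩ := hperm t ht l3
  have e : (fun x => f x + t * (-g x)) = (fun x => f x + (-t) * g x) := by funext x; ring
  rw [e] at hM hM1 hM2
  have hA := harea t ht l1 hP hM
  have hS := hsec' t ht l4.le hP hM
  set ΩP := prof a b (fun x => f x + t * g x) F with hΩP
  set ΩM := prof a b (fun x => f x + (-t) * g x) F with hΩM
  have sP := hstab ΩP hP.dom (2 * t) (by linarith) (by linarith) hP1 hP2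
  have sM := hstab ΩM hM.dom (2 * t) (by linarith) (by linarith) hM1 hM2
  have mP := min_ineq hΩ hmin hr har hP.dom
  have mM := min_ineq hΩ hmin hr har hM.dom
  have lP := lam1_pos hP.dom
  have lM := lam1_pos hM.dom
  have hhP := h1_pos hP.dom
  have hhM := h1_pos hM.dom
  set yP := 1 / h1 ΩP with hyP
  set yM := 1 / h1 ΩM with hyM
  have yPpos : 0 < yP := by positivity
  have yMpos : 0 < yM := by positivity
  set lam := lam1 (prof a b f F) with hlamdef
  -- logarithms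
  have logP : Real.log lam + 2 * Real.log r ≤ Real.log (lam1 ΩP) + 2 * Real.log yP := by
    have h1 := Real.log_le_log (by positivity) mP
    rw [Real.log_mul (by positivity) (by positivity), Real.log_mul (by positivity) (by positivity),
      Real.log_pow, Real.log_pow] at h1
    push_cast at h1
    exact h1
  have logM : Real.log lam + 2 * Real.log r ≤ Real.log (lam1 ΩM) + 2 * Real.log yM := by
    have h1 := Real.log_le_log (by positivity) mM
    rw [Real.log_mul (by positivity) (by positivity), Real.log_mul (by positivity) (by positivity),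
      Real.log_pow, Real.log_pow] at h1
    push_cast at h1
    exact h1
  have logy : ∀ y : ℝ, 0 < y → Real.log y ≤ Real.log r + (y - r) / r := by
    intro y hy
    have h1 : Real.log (y / r) ≤ y / r - 1 := Real.log_le_sub_one_of_pos (by positivity)
    rw [Real.log_div hy.ne' hr.ne'] at h1
    have h2 : (y - r) / r = y / r - 1 := by field_simp
    linarith
  have lyP := logy yP yPpos
  have lyM := logy yM yMpos
  -- sum of the radii
  have hsum : yP + yM ≤ 2 * r + (ar (inn ΩP r) + ar (inn ΩM r) - 2 * (Real.pi * r ^ 2)) / D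
      + 8 * C1 * t ^ 2 := by
    have e1 : (ar (inn ΩP r) + ar (inn ΩM r) - 2 * (Real.pi * r ^ 2)) / D =
      (ar (inn ΩP r) - Real.pi * r ^ 2) / D + (ar (inn ΩM r) - Real.pi * r ^ 2) / D := by
      rw [← add_div]; congr 1; ring
    rw [e1]
    linarith
  rw [har] at hA
  -- lower bound of Q
  have hQ1 : 1 / (4 * (p4 - p3)) ^ 1 * (c1 / 4) ≤ σ1 ^ 2 * (κ1 - c1 / 4 * (2 * ρ)) := by
    have hpos : 0 < p4 - p3 := by linarith
    have h1 : c1 / 4 * (p4 - p3) ≤ κ1 - c1 / 4 * (2 * ρ) := by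
      have h2 : c1 / 4 * (2 * ρ) ≤ c1 / 4 * (p4 - p3) :=
        mul_le_mul_of_nonneg_left hρ1 (by positivity)
      linarith
    have h2 : (1 / (2 * (p4 - p3))) ^ 2 ≤ σ1 ^ 2 := pow_le_pow_left₀ (by positivity) hσ1 2
    calc 1 / (4 * (p4 - p3)) ^ 1 * (c1 / 4) = (1 / (2 * (p4 - p3))) ^ 2 * (c1 / 4 * (p4 - p3)) := by
          field_simp; norm_num
      _ ≤ _ := mul_le_mul h2 h1 (by positivity) (by positivity)
  have hQ2 : 1 / (4 * (p5 - p4)) ^ 1 * (c1 / 4) ≤ (-σ2) ^ 2 * (κ2 - c1 / 4 * (2 * ρ)) := by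
    have hpos : 0 < p5 - p4 := by linarith
    have h1 : c1 / 4 * (p5 - p4) ≤ κ2 - c1 / 4 * (2 * ρ) := by
      have h2 : c1 / 4 * (2 * ρ) ≤ c1 / 4 * (p5 - p4) :=
        mul_le_mul_of_nonneg_left hρ2 (by positivity)
      linarith
    have h2 : (1 / (2 * (p5 - p4))) ^ 2 ≤ (-σ2) ^ 2 := by
      rw [neg_sq]; exact pow_le_pow_left₀ (by positivity) hσ2 2
    calc 1 / (4 * (p5 - p4)) ^ 1 * (c1 / 4) = (1 / (2 * (p5 - p4))) ^ 2 * (c1 / 4 * (p5 - p4)) := by
          field_simp; norm_num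
      _ ≤ _ := mul_le_mul h2 h1 (by positivity) (by positivity)
  have hQ : c1 / (32 * ρ) ≤ σ1 ^ 2 * (κ1 - c1 / 4 * (2 * ρ)) + (-σ2) ^ 2 * (κ2 - c1 / 4 * (2 * ρ)) := by
    have hp1' : 0 < p4 - p3 := by linarith
    have hp2' : 0 < p5 - p4 := by linarith
    have hz1 : 0 ≤ 1 / (4 * (p4 - p3)) ^ 1 * (c1 / 4) := by positivity
    have hz2 : 0 ≤ 1 / (4 * (p5 - p4)) ^ 1 * (c1 / 4) := by positivity
    rcases le_total (p4 - p3) (p5 - p4) with hle | hle
    · have : ρ = (p4 - p3) / 2 := by rw [hρdef, min_eq_left hle]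
      have h3 : c1 / (32 * ρ) = 1 / (4 * (p4 - p3)) ^ 1 * (c1 / 4) := by
        rw [this]; field_simp; norm_num
      linarith
    · have : ρ = (p5 - p4) / 2 := by rw [hρdef, min_eq_right hle]
      have h3 : c1 / (32 * ρ) = 1 / (4 * (p5 - p4)) ^ 1 * (c1 / 4) := by
        rw [this]; field_simp; norm_num
      linarith
  -- final computation
  have hA2 : ar (inn ΩP r) + ar (inn ΩM r) - 2 * (Real.pi * r ^ 2) ≤
      - (r / 8 * t ^ 2 * (c1 / (32 * ρ))) := by
    have : r / 8 * t ^ 2 * (c1 / (32 * ρ)) ≤ r / 8 * t ^ 2 *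
      (σ1 ^ 2 * (κ1 - c1 / 4 * (2 * ρ)) + (-σ2) ^ 2 * (κ2 - c1 / 4 * (2 * ρ))) :=
      mul_le_mul_of_nonneg_left hQ (by positivity)
    linarith
  have hA3 : (ar (inn ΩP r) + ar (inn ΩM r) - 2 * (Real.pi * r ^ 2)) / D ≤
      - (r * t ^ 2 * c1 / (256 * ρ * D)) := by
    rw [div_le_iff₀ hD]
    refine hA2.trans (le_of_eq ?_)
    field_simp
    ring
  have hfinal : 0 ≤ C2 * t ^ 2 * (β - α) / ρ + 2 / r * (- (r * t ^ 2 * c1 / (256 * ρ * D))
      + 8 * C1 * t ^ 2) := by
    have h1 : 2 * Real.log lam + 4 * Real.log r ≤ (2 * Real.log lam +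
      C2 * t ^ 2 * (β - α) / ρ) + 2 * (Real.log r + (yP - r) / r) + 2 *
        (Real.log r + (yM - r) / r) := by linarith
    have h2 : (yP - r) / r + (yM - r) / r ≤ 1 / r * (- (r * t ^ 2 * c1 / (256 * ρ * D))
      + 8 * C1 * t ^ 2) := by
      rw [← add_div, div_eq_mul_one_div, mul_comm]
      apply mul_le_mul_of_nonneg_left _ (by positivity)
      linarith
    have h3 : 2 / r * (- (r * t ^ 2 * c1 / (256 * ρ * D)) + 8 * C1 * t ^ 2) =
      2 * (1 / r * (- (r * t ^ 2 * c1 / (256 * ρ * D)) + 8 * C1 * t ^ 2)) := by ring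
    rw [h3]
    linarith
  have hfinal2 : 0 ≤ C2 * (β - α) - c1 / (128 * D) + 16 * C1 / r * ρ := by
    have h1 : C2 * t ^ 2 * (β - α) / ρ + 2 / r * (- (r * t ^ 2 * c1 / (256 * ρ * D))
      + 8 * C1 * t ^ 2) = t ^ 2 / ρ * (C2 * (β - α) - c1 / (128 * D) + 16 * C1 / r * ρ) := by
      field_simp
      ring
    rw [h1] at hfinal
    exact nonneg_of_mul_nonneg_right hfinal (by positivity)
  have hβα : β - α ≤ E2 := by rw [hα, hβ]; linarith
  have hρE : ρ ≤ E2 := by linarith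
  have h9 : C2 * (β - α) + 16 * C1 / r * ρ ≤ (C2 + 16 * C1 / r + 1) * E2 := by
    have h1 : C2 * (β - α) ≤ C2 * E2 := mul_le_mul_of_nonneg_left hβα hC2.le
    have h2 : 16 * C1 / r * ρ ≤ 16 * C1 / r * E2 := mul_le_mul_of_nonneg_left hρE (by positivity)
    have h3 : (C2 + 16 * C1 / r + 1) * E2 = C2 * E2 + 16 * C1 / r * E2 + E2 := by ring
    rw [h3]
    linarith
  have h10 : (C2 + 16 * C1 / r + 1) * E2 ≤ c1 / (256 * D) := by
    have hpos : 0 < C2 + 16 * C1 / r + 1 := by positivity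
    rw [le_div_iff₀ hpos] at hE2d
    linarith
  have h11 : c1 / (128 * D) = 2 * (c1 / (256 * D)) := by field_simp; norm_num
  have h12 : 0 < c1 / (256 * D) := by positivity
  linarith

/-- The theorem in `ℂ`. -/
theorem main_complex {Ω : Set ℂ} (hΩ : Dom Ω) (hmin : ∀ Ω' : Set ℂ, Dom Ω' → J Ω ≤ J Ω') :
    IsPolygon Ω := by
  by_contra hnp
  obtain ⟨e, a, b, f, F, x0, ε, hP, he, hx0, hε, hx0b, hsl, hacc⟩ := exists_chart hΩ hnp
  refine core hP (fun Ω' hΩ' => ?_) hx0 hε hx0b hsl hacc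
  rw [← he, J_image]
  exact hmin Ω' hΩ'

/-- The theorem in a two dimensional euclidean space. -/
theorem main_euclidean {Ω : Set (EuclideanSpace ℝ (Fin 2))} (hΩ : Dom Ω)
    (hmin : ∀ Ω' : Set (EuclideanSpace ℝ (Fin 2)), Dom Ω' → J Ω ≤ J Ω') : IsPolygon Ω := by
  let e : EuclideanSpace ℝ (Fin 2) ≃ₗᵢ[ℝ] ℂ := Complex.orthonormalBasisOneI.repr.symm
  have h1 : IsPolygon (e '' Ω) := by
    refine main_complex (hΩ.image_iso e) (fun Ω' hΩ' => ?_)
    rw [J_image]
    have h2 := hmin (e.symm '' Ω') (hΩ'.image_iso e.symm)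
    rwa [J_image] at h2
  have h2 := h1.image_iso e.symm
  have h3 : e.symm '' (e '' Ω) = Ω := by
    rw [← Set.image_comp]
    have : (e.symm : ℂ → EuclideanSpace ℝ (Fin 2)) ∘ e = id := by
      funext x; simp
    rw [this, Set.image_id]
  rwa [h3] at h2

end

end Pool.Agent.Lib.MP_4cfb03_an
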