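import Pool.Agent.Lib.MP_4cfb03_an.Defs
import Pool.Agent.Lib.MP_4cfb03_an.Slice
import Pool.Agent.Lib.MP_4cfb03_an.Prof
import Pool.Agent.Lib.MP_4cfb03_an.Sob
import Pool.Agent.Lib.MP_4cfb03_an.Sub

open MeasureTheory Set Filter
open scoped ENNReal ContDiff Topology NNReal

namespace Pool.Agent.Lib.MP_4cfb03_an

noncomputable section

namespace First

theorem norm_add_sq_dot (L M : ℂ →L[ℝ] ℝ) :
    ‖L + M‖ ^ 2 = ‖L‖ ^ 2 + 2 * dot L M + ‖M‖ ^ 2 := by
  rw [norm_sq_eq_dot, norm_sq_eq_dot, norm_sq_eq_dot]; simp [dot]; ring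

theorem memLp_of_bdd_support {E : Type*} [NormedAddCommGroup E] {F : ℂ → E}
    (hF : AEStronglyMeasurable F volume) {S : Set ℂ} (hS : IsCompact S)
    (hsupp : Function.support F ⊆ S) (C : ℝ) (hC : ∀ x, ‖F x‖ ≤ C) : MemLp F 2 volume := by
  have h1 : S.indicator F = F := indicator_eq_self.mpr hsupp
  rw [← h1, memLp_indicator_iff_restrict hS.isClosed.measurableSet]
  have : IsFiniteMeasure (volume.restrict S) := ⟨by simpa using hS.measure_lt_top⟩
  exact MemLp.of_bound hF.restrict C (ae_of_all _ hC)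

theorem memLp_fderiv {w : ℂ → ℝ} (hw : Lip w) (hc : HasCompactSupport w) :
    MemLp (fderiv ℝ w) 2 volume := by
  obtain ⟨K, hK⟩ := hw
  exact memLp_of_bdd_support (measurable_fderiv ℝ w).aestronglyMeasurable hc
    (support_fderiv_subset ℝ) K (fun x => norm_fderiv_le_of_lipschitz ℝ hK)

theorem memLp_lip {w : ℂ → ℝ} (hw : Lip w) (hc : HasCompactSupport w) :
    MemLp w 2 volume := by
  obtain ⟨K, hK⟩ := hw
  exact hK.continuous.memLp_of_hasCompactSupport hc

theorem integrable_dot {V M : ℂ → ℂ →L[ℝ] ℝ} (hV : MemLp V 2 volume)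
    (hM : MemLp M 2 volume) : Integrable (fun x => dot (V x) (M x)) := by
  have h1 : ∀ (z : ℂ) (U : ℂ → ℂ →L[ℝ] ℝ), MemLp U 2 volume →
      MemLp (fun x => U x z) 2 volume := fun z U hU =>
    (ContinuousLinearMap.apply ℝ ℝ z).comp_memLp' hU
  exact ((h1 1 V hV).integrable_mul (h1 1 M hM)).add
    ((h1 Complex.I V hV).integrable_mul (h1 Complex.I M hM))

theorem abs_sq_sub_sq {E : Type*} [NormedAddCommGroup E] (a b : E) {ε : ℝ} (hε : 0 < ε) :
    |‖a‖ ^ 2 - ‖b‖ ^ 2| ≤ (1 + 1 / ε) * ‖a - b‖ ^ 2 + ε * ‖b‖ ^ 2 := by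
  have h1 : |‖a‖ - ‖b‖| ≤ ‖a - b‖ := abs_norm_sub_norm_le a b
  have h2 : ‖a‖ ≤ ‖b‖ + ‖a - b‖ := by
    have := (abs_le.mp h1).2; linarith
  have h3 : |‖a‖ ^ 2 - ‖b‖ ^ 2| ≤ ‖a - b‖ * (2 * ‖b‖ + ‖a - b‖) := by
    have : ‖a‖ ^ 2 - ‖b‖ ^ 2 = (‖a‖ - ‖b‖) * (‖a‖ + ‖b‖) := by ring
    rw [this, abs_mul, abs_of_nonneg (by positivity : 0 ≤ ‖a‖ + ‖b‖)]
    exact mul_le_mul h1 (by linarith) (by positivity) (norm_nonneg _)
  have h4 : 2 * ‖a - b‖ * ‖b‖ ≤ 1 / ε * ‖a - b‖ ^ 2 + ε * ‖b‖ ^ 2 := by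
    have h5 : 0 ≤ (‖a - b‖ - ε * ‖b‖) ^ 2 / ε := by positivity
    have h6 : (‖a - b‖ - ε * ‖b‖) ^ 2 / ε =
        1 / ε * ‖a - b‖ ^ 2 + ε * ‖b‖ ^ 2 - 2 * ‖a - b‖ * ‖b‖ := by
      field_simp
      ring
    linarith
  nlinarith

theorem tendsto_integral_norm_sq {E : Type*} [NormedAddCommGroup E] {F : ℕ → ℂ → E}
    {G : ℂ → E} (hF : ∀ n, MemLp (F n) 2 volume) (hG : MemLp G 2 volume)
    (h : Tendsto (fun n => ∫ x, ‖F n x - G x‖ ^ 2) atTop (𝓝 0)) :
    Tendsto (fun n => ∫ x, ‖F n x‖ ^ 2) atTop (𝓝 (∫ x, ‖G x‖ ^ 2)) := by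
  have hint : ∀ H : ℂ → E, MemLp H 2 volume → Integrable (fun x => ‖H x‖ ^ 2) := fun H hH =>
    hH.integrable_norm_pow two_ne_zero
  set B := ∫ x, ‖G x‖ ^ 2 with hB
  have hB0 : 0 ≤ B := integral_nonneg fun x => by positivity
  rw [Metric.tendsto_atTop]
  intro δ hδ
  set ε := δ / (2 * (B + 1)) with hε
  have hε0 : 0 < ε := by positivity
  have hη : 0 < δ / (2 * (1 + 1 / ε)) := by positivity
  obtain ⟨N, hN⟩ := (Metric.tendsto_atTop.mp h) _ hη
  refine ⟨N, fun n hn => ?_⟩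
  have h1 := hN n hn
  have ha : 0 ≤ ∫ x, ‖F n x - G x‖ ^ 2 := integral_nonneg fun x => by positivity
  rw [Real.dist_eq, sub_zero, abs_of_nonneg ha] at h1
  rw [Real.dist_eq, ← integral_sub (hint _ (hF n)) (hint _ hG)]
  have h2 : |∫ x, (‖F n x‖ ^ 2 - ‖G x‖ ^ 2)| ≤
      ∫ x, ((1 + 1 / ε) * ‖F n x - G x‖ ^ 2 + ε * ‖G x‖ ^ 2) := by
    refine (abs_integral_le_integral_abs).trans ?_
    refine integral_mono ((hint _ (hF n)).sub (hint _ hG)).abs
      (((hint _ ((hF n).sub hG)).const_mul _).add ((hint _ hG).const_mul _)) ?_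
    intro x
    exact abs_sq_sub_sq _ _ hε0
  refine h2.trans_lt ?_
  have hint3 : Integrable (fun x => ‖F n x - G x‖ ^ 2) := hint _ ((hF n).sub hG)
  rw [integral_add (hint3.const_mul _) ((hint _ hG).const_mul _),
    integral_const_mul, integral_const_mul, ← hB]
  have h3 : (1 + 1 / ε) * ∫ x, ‖F n x - G x‖ ^ 2 < δ / 2 := by
    have h4 : (1 + 1 / ε) * (δ / (2 * (1 + 1 / ε))) = δ / 2 := by
      field_simp
    rw [← h4]
    exact mul_lt_mul_of_pos_left h1 (by positivity)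
  have h5 : ε * B ≤ δ / 2 := by
    rw [hε, div_mul_eq_mul_div, div_le_div_iff₀ (by positivity) (by norm_num)]
    nlinarith
  linarith

theorem memLp_add {E : Type*} [NormedAddCommGroup E] {f g : ℂ → E} (hf : MemLp f 2 volume)
    (hg : MemLp g 2 volume) : MemLp (fun x => f x + g x) 2 volume := hf.add hg

theorem ae_differentiable {w : ℂ → ℝ} (hw : Lip w) : ∀ᵐ x, DifferentiableAt ℝ w x := by
  obtain ⟨K, hK⟩ := hw
  exact hK.ae_differentiableAt

theorem lip_of_smooth {φ : ℂ → ℝ} (h : ContDiff ℝ ∞ φ) (hc : HasCompactSupport φ) : Lip φ := by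
  obtain ⟨K, hK⟩ := h.lipschitzWith_of_hasCompactSupport hc (by simp)
  exact ⟨K, hK⟩

theorem lip_add {v w : ℂ → ℝ} (hv : Lip v) (hw : Lip w) : Lip (fun x => v x + w x) := by
  obtain ⟨K, hK⟩ := hv
  obtain ⟨K', hK'⟩ := hw
  exact ⟨_, hK.add hK'⟩

theorem lip_const_mul {w : ℂ → ℝ} (c : ℝ) (hw : Lip w) : Lip (fun x => c * w x) := by
  obtain ⟨K, hK⟩ := hw
  refine ⟨‖c‖₊ * K, LipschitzWith.of_dist_le_mul fun x y => ?_⟩
  have h := hK.dist_le_mul x y
  rw [Real.dist_eq] at h ⊢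
  rw [← mul_sub, abs_mul]
  push_cast
  rw [mul_assoc]
  exact mul_le_mul_of_nonneg_left h (abs_nonneg _)

/-- the Rayleigh quotient inequality for `u + w` -/
theorem rayleigh {Ω Ω' : Set ℂ} (hΩ' : Dom Ω') (hsub : Ω ⊆ Ω') {φ : ℕ → ℂ → ℝ} {u : ℂ → ℝ}
    {V : ℂ → ℂ →L[ℝ] ℝ} (h : GS Ω φ u V) {w : ℂ → ℝ} (hw : Adm Ω' w) :
    lam1 Ω' * ∫ x, (u x + w x) ^ 2 ≤ ∫ x, ‖V x + fderiv ℝ w x‖ ^ 2 := by
  have hwc := hw.hasCompactSupport hΩ'
  have hadm : ∀ n, Adm Ω' (fun x => φ n x + w x) := by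
    intro n
    refine ⟨lip_add (lip_of_smooth (h.smooth n) (h.compact n)) hw.1, fun x hx => ?_⟩
    have h1 : φ n x = 0 := by
      by_contra h2
      exact hx (hsub (h.supp n (subset_tsupport _ h2)))
    show φ n x + w x = 0
    rw [h1, hw.2 x hx, add_zero]
  have hφm : ∀ n, MemLp (φ n) 2 volume := fun n =>
    memLp_lip (lip_of_smooth (h.smooth n) (h.compact n)) (h.compact n)
  have hφV : ∀ n, MemLp (fderiv ℝ (φ n)) 2 volume := fun n =>
    memLp_fderiv (lip_of_smooth (h.smooth n) (h.compact n)) (h.compact n)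
  have hwm := memLp_lip hw.1 hwc
  have hwV := memLp_fderiv hw.1 hwc
  have hm : Tendsto (fun n => mass (fun x => φ n x + w x)) atTop
      (𝓝 (∫ x, (u x + w x) ^ 2)) := by
    have a1 : ∀ n, MemLp (fun x => φ n x + w x) 2 volume := fun n => memLp_add (hφm n) hwm
    have a2 : MemLp (fun x => u x + w x) 2 volume := memLp_add h.memu hwm
    have a3 : Tendsto (fun n => ∫ x, ‖(φ n x + w x) - (u x + w x)‖ ^ 2) atTop (𝓝 0) := by
      refine h.limu.congr fun n => ?_
      refine integral_congr_ae (ae_of_all _ fun x => ?_)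
      simp only [Real.norm_eq_abs, sq_abs]
      ring
    have h1 := tendsto_integral_norm_sq a1 a2 a3
    simp only [Real.norm_eq_abs, sq_abs] at h1
    exact h1
  have he : Tendsto (fun n => energy (fun x => φ n x + w x)) atTop
      (𝓝 (∫ x, ‖V x + fderiv ℝ w x‖ ^ 2)) := by
    have a1 : ∀ n, MemLp (fun x => fderiv ℝ (φ n) x + fderiv ℝ w x) 2 volume :=
      fun n => memLp_add (hφV n) hwV
    have a2 : MemLp (fun x => V x + fderiv ℝ w x) 2 volume := memLp_add h.memV hwV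
    have a3 : Tendsto (fun n => ∫ x, ‖(fderiv ℝ (φ n) x + fderiv ℝ w x) -
        (V x + fderiv ℝ w x)‖ ^ 2) atTop (𝓝 0) := by
      simp only [add_sub_add_right_eq_sub]
      exact h.limV
    have h1 := tendsto_integral_norm_sq a1 a2 a3
    refine h1.congr fun n => ?_
    unfold energy
    refine integral_congr_ae ?_
    filter_upwards [ae_differentiable hw.1] with x hx
    have h2 : DifferentiableAt ℝ (φ n) x := (h.smooth n).differentiable (by norm_num) x
    have h3 : fderiv ℝ (fun x => φ n x + w x) x = fderiv ℝ (φ n) x + fderiv ℝ w x :=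
      fderiv_add h2 hx
    rw [h3]
  refine le_of_tendsto_of_tendsto' (hm.const_mul _) he fun n => ?_
  exact lam1_mul_mass_le hΩ' (hadm n)

/-- expansion of the Rayleigh quotient inequality -/
theorem rayleigh_expand {Ω Ω' : Set ℂ} (hΩ' : Dom Ω') (hsub : Ω ⊆ Ω') {φ : ℕ → ℂ → ℝ}
    {u : ℂ → ℝ} {V : ℂ → ℂ →L[ℝ] ℝ} (h : GS Ω φ u V) {w : ℂ → ℝ} (hw : Adm Ω' w) (τ : ℝ) :
    lam1 Ω' * (1 + 2 * τ * (∫ x, u x * w x) + τ ^ 2 * ∫ x, w x ^ 2) ≤
      lam1 Ω + 2 * τ * (∫ x, dot (V x) (fderiv ℝ w x)) + τ ^ 2 * energy w := by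
  have hwc := hw.hasCompactSupport hΩ'
  have hwm := memLp_lip hw.1 hwc
  have hwV := memLp_fderiv hw.1 hwc
  have hadm : Adm Ω' (fun x => τ * w x) :=
    ⟨lip_const_mul τ hw.1, fun x hx => by
      show τ * w x = 0
      rw [hw.2 x hx, mul_zero]⟩
  have h1 := rayleigh hΩ' hsub h hadm
  have hu2 : Integrable (fun x => u x ^ 2) := h.memu.integrable_sq
  have hw2 : Integrable (fun x => w x ^ 2) := hwm.integrable_sq
  have huw : Integrable (fun x => u x * w x) := h.memu.integrable_mul hwm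
  have hV2 : Integrable (fun x => ‖V x‖ ^ 2) := h.memV.integrable_norm_pow two_ne_zero
  have hW2 : Integrable (fun x => ‖fderiv ℝ w x‖ ^ 2) := hwV.integrable_norm_pow two_ne_zero
  have hVW : Integrable (fun x => dot (V x) (fderiv ℝ w x)) := integrable_dot h.memV hwV
  have e1 : ∫ x, (u x + τ * w x) ^ 2 =
      1 + 2 * τ * (∫ x, u x * w x) + τ ^ 2 * ∫ x, w x ^ 2 := by
    have : (fun x => (u x + τ * w x) ^ 2) =
        fun x => (u x ^ 2 + 2 * τ * (u x * w x)) + τ ^ 2 * w x ^ 2 := by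
      funext x; ring
    have hI : Integrable (fun x => u x ^ 2 + 2 * τ * (u x * w x)) := hu2.add (huw.const_mul _)
    rw [this, integral_add hI (hw2.const_mul _),
      integral_add hu2 (huw.const_mul _), integral_const_mul, integral_const_mul, h.mass_one]
  have e2 : ∫ x, ‖V x + fderiv ℝ (fun x => τ * w x) x‖ ^ 2 =
      lam1 Ω + 2 * τ * (∫ x, dot (V x) (fderiv ℝ w x)) + τ ^ 2 * energy w := by
    have : ∫ x, ‖V x + fderiv ℝ (fun x => τ * w x) x‖ ^ 2 =
        ∫ x, ((‖V x‖ ^ 2 + 2 * τ * dot (V x) (fderiv ℝ w x)) +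
          τ ^ 2 * ‖fderiv ℝ w x‖ ^ 2) := by
      refine integral_congr_ae ?_
      filter_upwards [ae_differentiable hw.1] with x hx
      have h3 : fderiv ℝ (fun x => τ * w x) x = τ • fderiv ℝ w x := fderiv_const_mul hx τ
      rw [h3, norm_add_sq_dot, norm_smul]
      simp only [dot, smul_apply, smul_eq_mul, Real.norm_eq_abs, mul_pow,
        sq_abs]
      ring
    have hI : Integrable (fun x => ‖V x‖ ^ 2 + 2 * τ * dot (V x) (fderiv ℝ w x)) :=
      hV2.add (hVW.const_mul _)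
    rw [this, integral_add hI (hW2.const_mul _),
      integral_add hV2 (hVW.const_mul _), integral_const_mul, integral_const_mul, h.energy_eq]
    rfl
  rw [e1, e2] at h1
  exact h1

theorem flux_sub_smul {Ω : Set ℂ} {φ : ℕ → ℂ → ℝ} {u : ℂ → ℝ} {V : ℂ → ℂ →L[ℝ] ℝ}
    (h : GS Ω φ u V) {v w : ℂ → ℝ} (hv : Lip v) (hvc : HasCompactSupport v) (hw : Lip w)
    (hwc : HasCompactSupport w) (c : ℝ) :
    flux Ω u V (fun x => v x + c * w x) = flux Ω u V v + c * flux Ω u V w := by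
  unfold flux
  have huv : Integrable (fun x => u x * v x) := h.memu.integrable_mul (memLp_lip hv hvc)
  have huw : Integrable (fun x => u x * w x) := h.memu.integrable_mul (memLp_lip hw hwc)
  have hVv := integrable_dot h.memV (memLp_fderiv hv hvc)
  have hVw := integrable_dot h.memV (memLp_fderiv hw hwc)
  have e1 : ∫ x, u x * (v x + c * w x) = (∫ x, u x * v x) + c * ∫ x, u x * w x := by
    rw [← integral_const_mul, ← integral_add huv (huw.const_mul _)]
    refine integral_congr_ae (ae_of_all _ fun x => by ring)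
  have e2 : ∫ x, dot (V x) (fderiv ℝ (fun x => v x + c * w x) x) =
      (∫ x, dot (V x) (fderiv ℝ v x)) + c * ∫ x, dot (V x) (fderiv ℝ w x) := by
    rw [← integral_const_mul, ← integral_add hVv (hVw.const_mul _)]
    refine integral_congr_ae ?_
    filter_upwards [ae_differentiable hv, ae_differentiable hw] with x hx hx'
    have h3 : fderiv ℝ (fun x => v x + c * w x) x = fderiv ℝ v x + c • fderiv ℝ w x := by
      have h4 : fderiv ℝ (fun x => c * w x) x = c • fderiv ℝ w x := fderiv_const_mul hx' c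
      rw [← h4]
      exact fderiv_add hx (hx'.const_mul c)
    rw [h3]
    simp only [dot, smul_apply, add_apply, smul_eq_mul]
    ring
  rw [e1, e2]
  ring

/-! ### the test function -/

/-- Lipschitz extension of `f` from `[α, β]` -/
def fe (f : ℝ → ℝ) (α β x : ℝ) : ℝ := f (max α (min β x))

/-- the interior test function -/
def Gf (f g : ℝ → ℝ) (α β y0 : ℝ) (z : ℂ) : ℝ :=
  min (g z.re) (max ((fe f α β z.re + 3 * y0 - z.im) / y0) 0)

/-- a truncation of `Gf` with compact support -/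
def Gc (f g : ℝ → ℝ) (α β y0 : ℝ) (z : ℂ) : ℝ :=
  min (Gf f g α β y0 z) (max (z.im - fe f α β z.re + 5) 0)

/-- the test function on the perturbed domain -/
def wt (f g : ℝ → ℝ) (α β y0 t : ℝ) (z : ℂ) : ℝ :=
  max (min (z.im - fe f α β z.re + t * g z.re) (t * Gf f g α β y0 z)) 0

theorem fe_lip {f : ℝ → ℝ} {α β : ℝ} (hαβ : α ≤ β) (hf : LipschitzOnWith 1 f (Icc α β)) :
    LipschitzWith 1 (fe f α β) := by
  refine LipschitzWith.of_dist_le_mul fun x y => ?_
  have hm : ∀ x, max α (min β x) ∈ Icc α β := fun x =>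
    ⟨le_max_left _ _, max_le hαβ (min_le_left _ _)⟩
  refine (hf.dist_le_mul _ (hm x) _ (hm y)).trans ?_
  refine mul_le_mul_of_nonneg_left ?_ (by norm_num)
  have h1 : LipschitzWith 1 (fun x : ℝ => max α (min β x)) :=
    (LipschitzWith.id.const_min β).const_max α
  simpa using h1.dist_le_mul x y

theorem fe_eq {f : ℝ → ℝ} {α β x : ℝ} (hx : x ∈ Icc α β) : fe f α β x = f x := by
  unfold fe
  rw [min_eq_right hx.2, max_eq_right hx.1]

theorem lip_re {h : ℝ → ℝ} (hh : ∃ K, LipschitzWith K h) : Lip (fun z => h z.re) := by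
  obtain ⟨K, hK⟩ := hh
  exact ⟨_, hK.comp Complex.reCLM.lipschitz⟩

theorem lip_im : Lip (fun z => z.im) := ⟨_, Complex.imCLM.lipschitz⟩

theorem lip_const (c : ℝ) : Lip (fun _ => c) := ⟨0, LipschitzWith.const c⟩

theorem lip_sub {v w : ℂ → ℝ} (hv : Lip v) (hw : Lip w) : Lip (fun x => v x - w x) := by
  obtain ⟨K, hK⟩ := hv
  obtain ⟨K', hK'⟩ := hw
  exact ⟨_, hK.sub hK'⟩

theorem lip_min {v w : ℂ → ℝ} (hv : Lip v) (hw : Lip w) : Lip (fun x => min (v x) (w x)) := by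
  obtain ⟨K, hK⟩ := hv
  obtain ⟨K', hK'⟩ := hw
  exact ⟨_, hK.min hK'⟩

theorem lip_max {v w : ℂ → ℝ} (hv : Lip v) (hw : Lip w) : Lip (fun x => max (v x) (w x)) := by
  obtain ⟨K, hK⟩ := hv
  obtain ⟨K', hK'⟩ := hw
  exact ⟨_, hK.max hK'⟩

section test
variable {f g : ℝ → ℝ} {α β y0 t : ℝ} (hαβ : α < β) (hf : LipschitzOnWith 1 f (Icc α β))
  (hg : ∃ K, LipschitzWith K g) (hg0 : ∀ x, 0 ≤ g x) (hg1 : ∀ x, g x ≤ 1)
  (hgs : ∀ x, x ∉ Icc α β → g x = 0) (hy0 : 0 < y0)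

include hαβ hf hg in
theorem Gf_lip : Lip (Gf f g α β y0) := by
  have h1 : Lip (fun z => y0⁻¹ * ((fe f α β z.re + 3 * y0) - z.im)) :=
    lip_const_mul _ (lip_sub (lip_add (lip_re ⟨1, fe_lip hαβ.le hf⟩) (lip_const _)) lip_im)
  have h2 : (fun z : ℂ => y0⁻¹ * ((fe f α β z.re + 3 * y0) - z.im)) =
      fun z => (fe f α β z.re + 3 * y0 - z.im) / y0 := by
    funext z; rw [div_eq_inv_mul]
  rw [h2] at h1
  exact lip_min (lip_re hg) (lip_max h1 (lip_const 0))

include hαβ hf hg in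
theorem Gc_lip : Lip (Gc f g α β y0) :=
  lip_min (Gf_lip hαβ hf hg) (lip_max (lip_add (lip_sub lip_im (lip_re ⟨1, fe_lip hαβ.le hf⟩))
    (lip_const 5)) (lip_const 0))

include hαβ hf hg in
theorem wt_lip : Lip (wt f g α β y0 t) :=
  lip_max (lip_min (lip_add (lip_sub lip_im (lip_re ⟨1, fe_lip hαβ.le hf⟩))
    (lip_const_mul t (lip_re hg))) (lip_const_mul t (Gf_lip hαβ hf hg))) (lip_const 0)

include hg0 in
theorem Gf_nonneg (z : ℂ) : 0 ≤ Gf f g α β y0 z := le_min (hg0 _) (le_max_right _ _)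

include hg1 in
theorem Gf_le_one (z : ℂ) : Gf f g α β y0 z ≤ 1 := (min_le_left _ _).trans (hg1 _)

include hgs in
theorem Gf_out {z : ℂ} (hz : z.re ∉ Icc α β) : Gf f g α β y0 z = 0 := by
  unfold Gf
  rw [hgs _ hz]
  exact min_eq_left (le_max_right _ _)

include hg0 hy0 in
theorem Gf_high {z : ℂ} (hz : fe f α β z.re + 3 * y0 ≤ z.im) : Gf f g α β y0 z = 0 := by
  unfold Gf
  have h1 : (fe f α β z.re + 3 * y0 - z.im) / y0 ≤ 0 :=
    div_nonpos_of_nonpos_of_nonneg (by linarith) hy0.le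
  rw [max_eq_right h1]
  exact min_eq_right (hg0 _)

include hg0 in
theorem Gc_nonneg (z : ℂ) : 0 ≤ Gc f g α β y0 z := le_min (Gf_nonneg hg0 z) (le_max_right _ _)

include hg1 hgs in
/-- above the graph of `f` the truncation does nothing -/
theorem Gc_eq {z : ℂ} (hz : z.re ∈ Icc α β → fe f α β z.re ≤ z.im) :
    Gc f g α β y0 z = Gf f g α β y0 z := by
  unfold Gc
  by_cases hx : z.re ∈ Icc α β
  · refine min_eq_left ((Gf_le_one hg1 z).trans (le_max_of_le_left ?_))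
    have := hz hx
    linarith
  · rw [Gf_out hgs hx]
    exact min_eq_left (le_max_right _ _)

include hαβ hf hg0 hgs hy0 in
theorem Gc_support : HasCompactSupport (Gc f g α β y0) := by
  obtain ⟨M, hM⟩ : ∃ M, ∀ x ∈ Icc α β, |fe f α β x| ≤ M :=
    (isCompact_Icc (a := α) (b := β)).exists_bound_of_continuousOn
      (fe_lip hαβ.le hf).continuous.continuousOn
  have hK : IsCompact (Icc α β ×ℂ Icc (-M - 5) (M + 3 * y0)) := isCompact_Icc.reProdIm isCompact_Icc
  refine HasCompactSupport.intro hK fun z hz => ?_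
  by_contra hne
  apply hz
  have h0 : 0 < Gc f g α β y0 z := lt_of_le_of_ne (Gc_nonneg hg0 z) (Ne.symm hne)
  have hGf : Gf f g α β y0 z ≠ 0 := by
    intro h
    have : Gc f g α β y0 z ≤ 0 := by
      unfold Gc; rw [h]; exact min_le_left _ _
    linarith
  have hx : z.re ∈ Icc α β := by
    by_contra h
    exact hGf (Gf_out hgs h)
  have hM' := abs_le.mp (hM _ hx)
  refine ⟨hx, ?_, ?_⟩
  · have h1 : 0 < max (z.im - fe f α β z.re + 5) 0 := h0.trans_le (min_le_right _ _)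
    have h2 : 0 < z.im - fe f α β z.re + 5 := by
      by_contra h3
      rw [max_eq_right (not_lt.mp h3)] at h1
      exact lt_irrefl _ h1
    linarith [hM'.1]
  · by_contra h
    push Not at h
    exact hGf (Gf_high hg0 hy0 (by linarith [hM'.2]))

include hgs in
theorem wt_off {z : ℂ} (hz : z.re ∉ Icc α β) : wt f g α β y0 t z = 0 := by
  unfold wt
  rw [Gf_out hgs hz, mul_zero]
  exact max_eq_right (min_le_right _ _)

variable {a b : ℝ} {F : ℝ → ℝ} (hα : a < α) (hβ : β < b)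
  (hy : ∀ x ∈ Icc α β, f x + 3 * y0 < F x) (ht : 0 < t)

include hgs hg0 hy0 hα hβ hy in
theorem wt_out {z : ℂ} (hz : z ∉ prof a b (fun x => f x - t * g x) F) :
    wt f g α β y0 t z = 0 := by
  by_cases hx : z.re ∈ Icc α β
  · have hx' : z.re ∈ Ioo a b := ⟨hα.trans_le hx.1, hx.2.trans_lt hβ⟩
    by_cases h1 : f z.re - t * g z.re < z.im
    · have h2 : F z.re ≤ z.im := by
        by_contra h3
        exact hz ⟨hx', h1, not_le.mp h3⟩
      have h3 : Gf f g α β y0 z = 0 := Gf_high hg0 hy0 (by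
        rw [fe_eq hx]; linarith [hy _ hx])
      unfold wt
      rw [h3, mul_zero]
      exact max_eq_right (min_le_right _ _)
    · unfold wt
      refine max_eq_right ((min_le_left _ _).trans ?_)
      rw [fe_eq hx]
      linarith
  · exact wt_off hgs hx

include hg0 hg1 hgs ht in
theorem wt_in {z : ℂ} (hz : z ∈ prof a b f F) : wt f g α β y0 t z = t * Gc f g α β y0 z := by
  have hGc : Gc f g α β y0 z = Gf f g α β y0 z :=
    Gc_eq hg1 hgs (fun hx => by rw [fe_eq hx]; exact hz.2.1.le)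
  rw [hGc]
  by_cases hx : z.re ∈ Icc α β
  · unfold wt
    have h1 : t * Gf f g α β y0 z ≤ t * g z.re :=
      mul_le_mul_of_nonneg_left (min_le_left _ _) ht.le
    have h2 : f z.re < z.im := hz.2.1
    rw [fe_eq hx, min_eq_right (by linarith), max_eq_left]
    exact mul_nonneg ht.le (Gf_nonneg hg0 z)
  · rw [wt_off hgs hx, Gf_out hgs hx, mul_zero]

include hg1 hgs hy0 in
theorem wt_mid {z : ℂ} (hz : z ∈ prof a b (fun x => f x - t * g x) F) (hz' : z ∉ prof a b f F) :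
    z.re ∈ Icc α β ∧ fe f α β z.re - t * g z.re ≤ z.im ∧ z.im ≤ fe f α β z.re ∧
      wt f g α β y0 t z = z.im - fe f α β z.re + t * g z.re := by
  obtain ⟨hx, h1, h2⟩ := hz
  simp only at h1
  have h3 : z.im ≤ f z.re := by
    by_contra h
    exact hz' ⟨hx, not_le.mp h, h2⟩
  have h4 : z.re ∈ Icc α β := by
    by_contra h
    rw [hgs _ h] at h1
    linarith
  have h5 : fe f α β z.re = f z.re := fe_eq h4
  have h6 : Gf f g α β y0 z = g z.re := by
    unfold Gf
    refine min_eq_left ((hg1 _).trans (le_max_of_le_left ?_))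
    rw [le_div_iff₀ hy0, h5]
    linarith
  refine ⟨h4, by rw [h5]; linarith, by rw [h5]; exact h3, ?_⟩
  unfold wt
  rw [h6, h5, min_eq_left (by linarith), max_eq_left (by linarith)]

include hαβ hf in
/-- the Lipschitz constant of the slanted part -/
theorem slant_lip {L : ℝ≥0} (hL : LipschitzWith L g) (ht : 0 < t) (htL : t * L ≤ 1) :
    LipschitzWith (Real.toNNReal (Real.sqrt 5))
      (fun z : ℂ => z.im - fe f α β z.re + t * g z.re) := by
  refine LipschitzWith.of_dist_le_mul fun z z' => ?_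
  rw [Real.coe_toNNReal _ (Real.sqrt_nonneg 5), Real.dist_eq, Complex.dist_eq]
  have h1 := (fe_lip hαβ.le hf).dist_le_mul z.re z'.re
  have h2 := hL.dist_le_mul z.re z'.re
  rw [Real.dist_eq, Real.dist_eq] at h1 h2
  rw [NNReal.coe_one, one_mul] at h1
  have h3 : |t * (g z.re - g z'.re)| ≤ |z.re - z'.re| := by
    rw [abs_mul, abs_of_pos ht]
    calc t * |g z.re - g z'.re| ≤ t * (L * |z.re - z'.re|) :=
          mul_le_mul_of_nonneg_left h2 ht.le
      _ = (t * L) * |z.re - z'.re| := by ring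
      _ ≤ 1 * |z.re - z'.re| := mul_le_mul_of_nonneg_right htL (abs_nonneg _)
      _ = _ := one_mul _
  have h4 : |z.im - fe f α β z.re + t * g z.re - (z'.im - fe f α β z'.re + t * g z'.re)| ≤
      |z.im - z'.im| + 2 * |z.re - z'.re| := by
    have h5 : z.im - fe f α β z.re + t * g z.re - (z'.im - fe f α β z'.re + t * g z'.re) =
        (z.im - z'.im) - (fe f α β z.re - fe f α β z'.re) + t * (g z.re - g z'.re) := by ring
    rw [h5]
    have h6 := abs_add_le ((z.im - z'.im) - (fe f α β z.re - fe f α β z'.re))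
      (t * (g z.re - g z'.re))
    have h7 := abs_sub (z.im - z'.im) (fe f α β z.re - fe f α β z'.re)
    linarith
  refine h4.trans ?_
  have h8 : ‖z - z'‖ ^ 2 = |z.re - z'.re| ^ 2 + |z.im - z'.im| ^ 2 := by
    rw [← Complex.normSq_eq_norm_sq, Complex.normSq_apply]
    simp only [Complex.sub_re, Complex.sub_im, sq_abs]
    ring
  refine le_of_sq_le_sq ?_ (by positivity)
  rw [mul_pow, Real.sq_sqrt (by norm_num), h8]
  nlinarith [sq_nonneg (2 * |z.im - z'.im| - |z.re - z'.re|)]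

/-- the sliver between the two graphs -/
def sliver (f g : ℝ → ℝ) (α β t : ℝ) : Set ℂ :=
  {z | z.re ∈ Icc α β ∧ fe f α β z.re - t * g z.re ≤ z.im ∧ z.im ≤ fe f α β z.re}

include hαβ hf hg hg1 ht in
theorem volume_sliver : MeasurableSet (sliver f g α β t) ∧
    volume (sliver f g α β t) ≤ ENNReal.ofReal (t * (β - α)) := by
  obtain ⟨L, hL⟩ := hg
  have hfc := (fe_lip hαβ.le hf).continuous
  have hgc := hL.continuous
  set S' : Set (ℝ × ℝ) := {p | p.1 ∈ Icc α β ∧ fe f α β p.1 - t * g p.1 ≤ p.2 ∧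
    p.2 ≤ fe f α β p.1} with hS'
  have hS'c : IsClosed S' := by
    refine (isClosed_Icc.preimage continuous_fst).inter (IsClosed.inter ?_ ?_)
    · exact isClosed_le ((hfc.comp continuous_fst).sub
        (continuous_const.mul (hgc.comp continuous_fst))) continuous_snd
    · exact isClosed_le continuous_snd (hfc.comp continuous_fst)
  have hSS : sliver f g α β t = Complex.measurableEquivRealProd ⁻¹' S' := by
    ext z
    rfl
  refine ⟨by rw [hSS]; exact Complex.measurableEquivRealProd.measurable hS'c.measurableSet, ?_⟩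
  rw [hSS, Complex.volume_preserving_equiv_real_prod.measure_preimage
    hS'c.measurableSet.nullMeasurableSet, Measure.volume_eq_prod,
    Measure.prod_apply hS'c.measurableSet]
  have h1 : ∀ x : ℝ, volume (Prod.mk x ⁻¹' S') ≤
      (Icc α β).indicator (fun _ => ENNReal.ofReal t) x := by
    intro x
    by_cases hx : x ∈ Icc α β
    · rw [indicator_of_mem hx]
      have h2 : Prod.mk x ⁻¹' S' ⊆ Icc (fe f α β x - t * g x) (fe f α β x) :=
        fun y hy => ⟨hy.2.1, hy.2.2⟩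
      refine (measure_mono h2).trans ?_
      rw [Real.volume_Icc]
      refine ENNReal.ofReal_le_ofReal ?_
      have := hg1 x
      nlinarith
    · rw [indicator_of_notMem hx]
      have h2 : Prod.mk x ⁻¹' S' = ∅ := by
        ext y
        simp only [mem_preimage, mem_empty_iff_false, iff_false]
        exact fun h => hx h.1
      rw [h2, measure_empty]
  refine (lintegral_mono h1).trans ?_
  rw [lintegral_indicator measurableSet_Icc, setLIntegral_const, Real.volume_Icc,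
    ← ENNReal.ofReal_mul ht.le]

include hαβ hf hg hg0 hg1 hgs hy0 hα hβ hy ht in
/-- the energy of the test function -/
theorem energy_wt_le (hΩ : Dom (prof a b f F)) (hΩ' : Dom (prof a b (fun x => f x - t * g x) F))
    {L : ℝ≥0} (hL : LipschitzWith L g) (htL : t * L ≤ 1) :
    energy (wt f g α β y0 t) ≤ t ^ 2 * energy (Gc f g α β y0) + 5 * (t * (β - α)) := by
  obtain ⟨hSm, hSv⟩ := volume_sliver hαβ hf hg hg1 ht
  have hGcl : Lip (Gc f g α β y0) := Gc_lip hαβ hf hg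
  have hGcs : HasCompactSupport (Gc f g α β y0) := Gc_support hαβ hf hg0 hgs hy0
  have hGI : Integrable (fun z => ‖fderiv ℝ (Gc f g α β y0) z‖ ^ 2) :=
    (memLp_fderiv hGcl hGcs).integrable_norm_pow two_ne_zero
  have hadm : Adm (prof a b (fun x => f x - t * g x) F) (wt f g α β y0 t) :=
    ⟨wt_lip hαβ hf hg, fun z hz => wt_out hg0 hgs hy0 hα hβ hy hz⟩
  have hwI : Integrable (fun z => ‖fderiv ℝ (wt f g α β y0 t) z‖ ^ 2) :=
    (memLp_fderiv hadm.1 (hadm.hasCompactSupport hΩ')).integrable_norm_pow two_ne_zero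
  have hSf : volume (sliver f g α β t) ≠ ⊤ := (hSv.trans_lt ENNReal.ofReal_lt_top).ne
  have hSI : Integrable ((sliver f g α β t).indicator (fun _ => (5:ℝ))) :=
    (integrable_indicator_iff hSm).mpr (integrableOn_const hSf)
  have hae : ∀ᵐ z : ℂ, ‖fderiv ℝ (wt f g α β y0 t) z‖ ^ 2 ≤
      t ^ 2 * ‖fderiv ℝ (Gc f g α β y0) z‖ ^ 2 +
        (sliver f g α β t).indicator (fun _ => (5:ℝ)) z := by
    have hf1 : ∀ᵐ z : ℂ, z ∉ frontier (prof a b f F) :=
      measure_eq_zero_iff_ae_notMem.mp (hΩ.convex.addHaar_frontier volume)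
    have hf2 : ∀ᵐ z : ℂ, z ∉ frontier (prof a b (fun x => f x - t * g x) F) :=
      measure_eq_zero_iff_ae_notMem.mp (hΩ'.convex.addHaar_frontier volume)
    filter_upwards [hf1, hf2, ae_differentiable hGcl] with z h1 h2 h3
    have hind : 0 ≤ (sliver f g α β t).indicator (fun _ => (5:ℝ)) z :=
      indicator_nonneg (fun _ _ => by norm_num) z
    by_cases hz : z ∈ prof a b f F
    · have h4 : wt f g α β y0 t =ᶠ[𝓝 z] fun z => t * Gc f g α β y0 z := by
        filter_upwards [hΩ.isOpen.mem_nhds hz] with y hy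
        exact wt_in hg0 hg1 hgs ht hy
      have h5 : fderiv ℝ (wt f g α β y0 t) z = t • fderiv ℝ (Gc f g α β y0) z := by
        rw [h4.fderiv_eq]
        exact fderiv_const_mul h3 t
      rw [h5, norm_smul, mul_pow, Real.norm_eq_abs, sq_abs]
      linarith
    · by_cases hz' : z ∈ prof a b (fun x => f x - t * g x) F
      · have hzc : z ∉ closure (prof a b f F) := by
          intro h
          exact h1 ⟨h, by rw [hΩ.isOpen.interior_eq]; exact hz⟩
        have h4 : wt f g α β y0 t =ᶠ[𝓝 z]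
            fun z : ℂ => z.im - fe f α β z.re + t * g z.re := by
          filter_upwards [hΩ'.isOpen.mem_nhds hz', isClosed_closure.isOpen_compl.mem_nhds hzc]
            with y hy hy'
          exact (wt_mid hg1 hgs hy0 hy (fun h => hy' (subset_closure h))).2.2.2
        have h5 : ‖fderiv ℝ (wt f g α β y0 t) z‖ ≤ Real.sqrt 5 := by
          rw [h4.fderiv_eq]
          have := norm_fderiv_le_of_lipschitz ℝ (x₀ := z) (slant_lip hαβ hf hL ht htL)
          rwa [Real.coe_toNNReal _ (Real.sqrt_nonneg 5)] at this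
        have h6 : ‖fderiv ℝ (wt f g α β y0 t) z‖ ^ 2 ≤ 5 := by
          calc ‖fderiv ℝ (wt f g α β y0 t) z‖ ^ 2 ≤ Real.sqrt 5 ^ 2 :=
                pow_le_pow_left₀ (norm_nonneg _) h5 2
            _ = 5 := Real.sq_sqrt (by norm_num)
        have h7 := wt_mid hg1 hgs hy0 hz' hz
        rw [indicator_of_mem (show z ∈ sliver f g α β t from ⟨h7.1, h7.2.1, h7.2.2.1⟩)]
        nlinarith [mul_nonneg (sq_nonneg t) (sq_nonneg ‖fderiv ℝ (Gc f g α β y0) z‖)]
      · have hzc : z ∉ closure (prof a b (fun x => f x - t * g x) F) := by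
          intro h
          exact h2 ⟨h, by rw [hΩ'.isOpen.interior_eq]; exact hz'⟩
        have h4 : wt f g α β y0 t =ᶠ[𝓝 z] fun _ => (0:ℝ) := by
          filter_upwards [isClosed_closure.isOpen_compl.mem_nhds hzc] with y hy'
          exact hadm.2 y (fun h => hy' (subset_closure h))
        have h5 : fderiv ℝ (wt f g α β y0 t) z = 0 := by
          rw [h4.fderiv_eq]; simp
        rw [h5, norm_zero]
        have : 0 ≤ t ^ 2 * ‖fderiv ℝ (Gc f g α β y0) z‖ ^ 2 := by positivity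
        nlinarith
  unfold energy
  calc ∫ z, ‖fderiv ℝ (wt f g α β y0 t) z‖ ^ 2 ≤
      ∫ z, (t ^ 2 * ‖fderiv ℝ (Gc f g α β y0) z‖ ^ 2 +
        (sliver f g α β t).indicator (fun _ => (5:ℝ)) z) :=
        integral_mono_ae hwI ((hGI.const_mul _).add hSI) hae
    _ = t ^ 2 * (∫ z, ‖fderiv ℝ (Gc f g α β y0) z‖ ^ 2) +
        ∫ z, (sliver f g α β t).indicator (fun _ => (5:ℝ)) z := by
        rw [integral_add (hGI.const_mul _) hSI, integral_const_mul]
    _ ≤ t ^ 2 * (∫ z, ‖fderiv ℝ (Gc f g α β y0) z‖ ^ 2) + 5 * (t * (β - α)) := by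
        refine add_le_add le_rfl ?_
        rw [integral_indicator_const _ hSm, smul_eq_mul, mul_comm]
        refine mul_le_mul_of_nonneg_left ?_ (by norm_num)
        exact ENNReal.toReal_le_of_le_ofReal (mul_nonneg ht.le (by linarith)) hSv

end test

/-! ### the bump -/

theorem Wf_eq (q' : ℂ) (ρ : ℝ) (x : ℂ) :
    Wf q' ρ x = (4 * ρ ^ 2 - (min ‖x - q'‖ (2 * ρ)) ^ 2) ^ 4 / (3 * ρ ^ 2) ^ 4 ∨ ρ < 0 := by
  by_cases hρ : ρ < 0
  · exact Or.inr hρ
  · left
    push Not at hρ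
    unfold Wf
    congr 2
    have h0 := norm_nonneg (x - q')
    by_cases h : ‖x - q'‖ ≤ 2 * ρ
    · rw [min_eq_left h, max_eq_left]
      nlinarith
    · push Not at h
      rw [min_eq_right h.le, max_eq_right]
      · ring
      · nlinarith

theorem Wf_lip (q' : ℂ) {ρ : ℝ} (hρ : 0 < ρ) : Lip (Wf q' ρ) := by
  set M : ℝ := 4 * ρ ^ 2 with hM
  have hr : ∀ x : ℂ, Wf q' ρ x = (M - (min ‖x - q'‖ (2 * ρ)) ^ 2) ^ 4 / (3 * ρ ^ 2) ^ 4 :=
    fun x => (Wf_eq q' ρ x).resolve_right (not_lt.mpr hρ.le)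
  have h1 : ∀ x y : ℂ, |min ‖x - q'‖ (2 * ρ) - min ‖y - q'‖ (2 * ρ)| ≤ ‖x - y‖ := by
    intro x y
    have h2 := abs_min_sub_min_le_max ‖x - q'‖ (2 * ρ) ‖y - q'‖ (2 * ρ)
    rw [sub_self, abs_zero, max_eq_left (abs_nonneg _)] at h2
    refine h2.trans ?_
    have h3 := abs_norm_sub_norm_le (x - q') (y - q')
    rwa [sub_sub_sub_cancel_right] at h3
  have hA : ∀ x : ℂ, 0 ≤ min ‖x - q'‖ (2 * ρ) ∧ min ‖x - q'‖ (2 * ρ) ≤ 2 * ρ := fun x =>
    ⟨le_min (norm_nonneg _) (by positivity), min_le_right _ _⟩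
  refine ⟨Real.toNNReal (4 * M ^ 3 * (4 * ρ) / (3 * ρ ^ 2) ^ 4),
    LipschitzWith.of_dist_le_mul fun x y => ?_⟩
  rw [Real.coe_toNNReal _ (by positivity), Real.dist_eq, hr, hr, Complex.dist_eq]
  obtain ⟨ha0, ha1⟩ := hA x
  obtain ⟨hb0, hb1⟩ := hA y
  have hab := h1 x y
  set A := min ‖x - q'‖ (2 * ρ) with hAdef
  set B := min ‖y - q'‖ (2 * ρ) with hBdef
  have hP : 0 ≤ M - A ^ 2 ∧ M - A ^ 2 ≤ M := ⟨by nlinarith, by nlinarith [sq_nonneg A]⟩
  have hQ : 0 ≤ M - B ^ 2 ∧ M - B ^ 2 ≤ M := ⟨by nlinarith, by nlinarith [sq_nonneg B]⟩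
  have hPQ : |(M - A ^ 2) - (M - B ^ 2)| ≤ 4 * ρ * ‖x - y‖ := by
    have h4 : (M - A ^ 2) - (M - B ^ 2) = (B + A) * -(A - B) := by ring
    rw [h4, abs_mul, abs_neg, abs_of_nonneg (by linarith)]
    exact mul_le_mul (by linarith) hab (abs_nonneg _) (by linarith)
  set P := M - A ^ 2 with hPdef
  set Q := M - B ^ 2 with hQdef
  have hM0 : 0 ≤ M := by positivity
  have h5 : |P ^ 4 - Q ^ 4| ≤ 4 * M ^ 3 * |P - Q| := by
    have h6 : P ^ 4 - Q ^ 4 = (P ^ 3 + P ^ 2 * Q + P * Q ^ 2 + Q ^ 3) * (P - Q) := by ring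
    rw [h6, abs_mul]
    refine mul_le_mul_of_nonneg_right ?_ (abs_nonneg _)
    have hP0 := hP.1
    have hQ0 := hQ.1
    rw [abs_of_nonneg (by positivity)]
    have e1 : P ^ 3 ≤ M ^ 3 := pow_le_pow_left₀ hP.1 hP.2 3
    have e2 : P ^ 2 * Q ≤ M ^ 2 * M :=
      mul_le_mul (pow_le_pow_left₀ hP.1 hP.2 2) hQ.2 hQ.1 (by positivity)
    have e3 : P * Q ^ 2 ≤ M * M ^ 2 :=
      mul_le_mul hP.2 (pow_le_pow_left₀ hQ.1 hQ.2 2) (by positivity) hM0
    have e4 : Q ^ 3 ≤ M ^ 3 := pow_le_pow_left₀ hQ.1 hQ.2 3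
    nlinarith
  rw [← sub_div, abs_div, abs_of_pos (by positivity : 0 < (3 * ρ ^ 2) ^ 4)]
  have h7 : 4 * M ^ 3 * (4 * ρ) / (3 * ρ ^ 2) ^ 4 * ‖x - y‖ =
      4 * M ^ 3 * (4 * ρ * ‖x - y‖) / (3 * ρ ^ 2) ^ 4 := by ring
  rw [h7]
  refine div_le_div_of_nonneg_right (h5.trans ?_) (by positivity)
  exact mul_le_mul_of_nonneg_left hPQ (by positivity)

theorem Wf_zero {q' x : ℂ} {ρ : ℝ} (hρ : 0 < ρ) (h : 2 * ρ ≤ ‖x - q'‖) : Wf q' ρ x = 0 := by
  unfold Wf
  rw [max_eq_right (by nlinarith)]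
  simp

theorem Wf_support (q' : ℂ) {ρ : ℝ} (hρ : 0 < ρ) : HasCompactSupport (Wf q' ρ) := by
  refine HasCompactSupport.intro (isCompact_closedBall q' (2 * ρ)) fun x hx => ?_
  refine Wf_zero hρ ?_
  rw [Metric.mem_closedBall, Complex.dist_eq] at hx
  exact (not_le.mp hx).le

theorem Wf_le_one {q' x : ℂ} {ρ : ℝ} (hρ : 0 < ρ) (h : ρ ≤ ‖x - q'‖) : Wf q' ρ x ≤ 1 := by
  unfold Wf
  rw [div_le_one (by positivity)]
  refine pow_le_pow_left₀ (le_max_right _ _) (max_le ?_ (by positivity)) 4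
  nlinarith

theorem final_arith {lt lam τ t I D C κ μ w : ℝ} (ht0 : 0 ≤ t) (hκ0 : 0 ≤ κ) (hτ0 : 0 ≤ τ)
    (hI0 : 0 ≤ I) (hτμ : τ * μ = 20 * κ) (hτβ : τ ^ 2 * w = κ) (htC : C * τ ^ 2 * t ≤ κ)
    (htI : τ * I * t ≤ 1) (hfl : μ / 4 ≤ lam * I - D)
    (hmass : lt * (1 + 2 * τ * (t * I)) ≤
      lam + 2 * τ * (t * D) + τ ^ 2 * (t ^ 2 * C + 5 * (t * w))) : lt ≤ lam - t * κ := by
  have hDI : D ≤ lam * I - μ / 4 := by linarith
  have h6 : lt * (1 + 2 * τ * (t * I)) ≤ lam * (1 + 2 * τ * (t * I)) - 4 * κ * t := by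
    have h7 : 2 * τ * (t * D) ≤ 2 * τ * t * (lam * I - μ / 4) := by
      have : 2 * τ * (t * D) = 2 * τ * t * D := by ring
      rw [this]
      exact mul_le_mul_of_nonneg_left hDI (by positivity)
    have h8 : τ ^ 2 * (t ^ 2 * C + 5 * (t * w)) = t * (C * τ ^ 2 * t) +
        5 * t * (τ ^ 2 * w) := by ring
    rw [h8, hτβ] at hmass
    have h9 : t * (C * τ ^ 2 * t) ≤ t * κ := mul_le_mul_of_nonneg_left htC ht0
    have h10 : 2 * τ * t * (lam * I - μ / 4) = lam * (2 * τ * (t * I)) - t * (τ * μ) / 2 := by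
      ring
    rw [hτμ] at h10
    linarith
  have hτI : 0 ≤ 2 * τ * (t * I) := by positivity
  have hτI3 : 2 * τ * (t * I) ≤ 2 := by linarith
  have htκ : 0 ≤ t * κ := mul_nonneg ht0 hκ0
  have h11 : (lt - (lam - t * κ)) * (1 + 2 * τ * (t * I)) ≤ 0 := by
    have h13 : t * κ * (2 * τ * (t * I)) ≤ t * κ * 2 :=
      mul_le_mul_of_nonneg_left hτI3 htκ
    linarith
  by_contra hcon
  push Not at hcon
  have h14 : 0 < lt - (lam - t * κ) := by linarith
  have : 0 < (lt - (lam - t * κ)) * (1 + 2 * τ * (t * I)) := mul_pos h14 (by linarith)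
  linarith

end First

open First in
theorem first_order {a b : ℝ} {f F : ℝ → ℝ} (h : CProf a b f F) {φ : ℕ → ℂ → ℝ} {u : ℂ → ℝ}
    {V : ℂ → ℂ →L[ℝ] ℝ} (hG : GS (prof a b f F) φ u V) {α β : ℝ} (hα : a < α) (hαβ : α < β)
    (hβ : β < b) (hf : LipschitzOnWith 1 f (Icc α β)) {g : ℝ → ℝ} (hg : ∃ K, LipschitzWith K g)
    (hg0 : ∀ x, 0 ≤ g x) (hg1 : ∀ x, g x ≤ 1) (hgs : ∀ x, x ∉ Icc α β → g x = 0)
    {q' : ℂ} {ρ μ y0 : ℝ} (hρ : 0 < ρ) (hμ : 0 < μ)
    (hflux : μ ≤ flux (prof a b f F) u V (Wf q' ρ))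
    (hd : ∀ y ∈ prof a b f F, ρ ≤ ‖y - q'‖) (hy0 : 0 < y0)
    (hy : ∀ x ∈ Icc α β, f x + 3 * y0 < F x)
    (hW : ∀ z ∈ prof a b f F, ‖z - q'‖ < 2 * ρ → 1 / 4 ≤ g z.re ∧ z.im ≤ f z.re + y0) :
    ∃ t0, 0 < t0 ∧ ∀ t, 0 < t → t < t0 → CProf a b (fun x => f x - t * g x) F →
      lam1 (prof a b (fun x => f x - t * g x) F) ≤
        lam1 (prof a b f F) - t * (μ ^ 2 / (400 * (β - α))) := by
  have hΩ := h.dom
  obtain ⟨L, hL⟩ := id hg
  set G := Gc f g α β y0 with hGdef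
  have hGl : Lip G := Gc_lip hαβ hf hg
  have hGs : HasCompactSupport G := Gc_support hαβ hf hg0 hgs hy0
  -- the flux of `G`
  have hGW : ∀ x ∈ prof a b f F, 0 ≤ G x + (-(1 / 4)) * Wf q' ρ x := by
    intro z hz
    by_cases hzq : ‖z - q'‖ < 2 * ρ
    · obtain ⟨h1, h2⟩ := hW z hz hzq
      have h3 := Wf_le_one hρ (hd z hz)
      have hx : z.re ∈ Icc α β := by
        by_contra hx
        rw [hgs _ hx] at h1
        norm_num at h1
      have h4 : G z = Gf f g α β y0 z :=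
        Gc_eq hg1 hgs (fun hx => by rw [fe_eq hx]; exact hz.2.1.le)
      have h5 : 1 / 4 ≤ Gf f g α β y0 z := by
        unfold Gf
        refine le_min h1 (le_max_of_le_left ?_)
        rw [le_div_iff₀ hy0, fe_eq hx]
        linarith
      rw [h4]
      linarith
    · rw [Wf_zero hρ (not_lt.mp hzq)]
      have := Gc_nonneg (f := f) (g := g) (α := α) (β := β) (y0 := y0) hg0 z
      rw [mul_zero, add_zero]
      exact this
  have hfluxG : μ / 4 ≤ flux (prof a b f F) u V G := by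
    have h1 := flux_sub_smul hG hGl hGs (Wf_lip q' hρ) (Wf_support q' hρ) (-(1 / 4))
    have hlip : Lip (fun x => G x + (-(1 / 4)) * Wf q' ρ x) :=
      lip_add hGl (lip_const_mul _ (Wf_lip q' hρ))
    have hsupp : HasCompactSupport (fun x => G x + (-(1 / 4)) * Wf q' ρ x) :=
      hGs.add ((Wf_support q' hρ).mul_left)
    have h2 := GS.flux_nonneg hΩ hG hlip hsupp hGW
    rw [h1] at h2
    linarith
  set I := ∫ x, u x * G x with hI
  set D := ∫ x, dot (V x) (fderiv ℝ G x) with hD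
  set lam := lam1 (prof a b f F) with hlam
  have hfl : flux (prof a b f F) u V G = lam * I - D := rfl
  have hI0 : 0 ≤ I := integral_nonneg fun x =>
    mul_nonneg (hG.u_nonneg x) (Gc_nonneg hg0 x)
  set C := energy G with hC
  have hC0 : 0 ≤ C := integral_nonneg fun x => by positivity
  set τ := μ / (20 * (β - α)) with hτ
  have hβα : 0 < β - α := sub_pos.mpr hαβ
  have hτ0 : 0 < τ := by positivity
  set κ := μ ^ 2 / (400 * (β - α)) with hκ
  have hκ0 : 0 < κ := by positivity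
  have hL0 : (0:ℝ) ≤ L := L.coe_nonneg
  refine ⟨min (1 / (L + 1)) (min (κ / (C * τ ^ 2 + 1)) (1 / (τ * I + 1))), by positivity, ?_⟩
  intro t ht0 ht hCP
  have hΩ' := hCP.dom
  have htL : t * L ≤ 1 := by
    have h1 : t < 1 / (L + 1) := ht.trans_le (min_le_left _ _)
    rw [lt_div_iff₀ (by positivity)] at h1
    nlinarith
  have htC : C * τ ^ 2 * t ≤ κ := by
    have h1 : t < κ / (C * τ ^ 2 + 1) :=
      ht.trans_le ((min_le_right _ _).trans (min_le_left _ _))
    rw [lt_div_iff₀ (by positivity)] at h1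
    nlinarith
  have htI : τ * I * t ≤ 1 := by
    have h1 : t < 1 / (τ * I + 1) :=
      ht.trans_le ((min_le_right _ _).trans (min_le_right _ _))
    have hτI : 0 ≤ τ * I := by positivity
    rw [lt_div_iff₀ (by positivity)] at h1
    nlinarith
  have hsub : prof a b f F ⊆ prof a b (fun x => f x - t * g x) F := by
    rintro z ⟨h1, h2, h3⟩
    refine ⟨h1, ?_, h3⟩
    have : 0 ≤ t * g z.re := mul_nonneg ht0.le (hg0 _)
    show f z.re - t * g z.re < z.im
    linarith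
  have hadm : Adm (prof a b (fun x => f x - t * g x) F) (wt f g α β y0 t) :=
    ⟨wt_lip hαβ hf hg, fun z hz => wt_out hg0 hgs hy0 hα hβ hy hz⟩
  have hray := rayleigh_expand hΩ' hsub hG hadm τ
  have hen := energy_wt_le hαβ hf hg hg0 hg1 hgs hy0 hα hβ hy ht0 hΩ hΩ' hL htL
  have e1 : ∫ x, u x * wt f g α β y0 t x = t * I := by
    rw [hI, ← integral_const_mul]
    refine integral_congr_ae (ae_of_all _ fun x => ?_)
    by_cases hx : x ∈ prof a b f F
    · show u x * wt f g α β y0 t x = t * (u x * G x)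
      rw [wt_in hg0 hg1 hgs ht0 hx]
      ring
    · show u x * wt f g α β y0 t x = t * (u x * G x)
      rw [hG.u_out x hx]
      ring
  have e2 : ∫ x, dot (V x) (fderiv ℝ (wt f g α β y0 t) x) = t * D := by
    rw [hD, ← integral_const_mul]
    refine integral_congr_ae ?_
    filter_upwards [ae_differentiable hGl] with x hxd
    by_cases hx : x ∈ prof a b f F
    · have h4 : wt f g α β y0 t =ᶠ[𝓝 x] fun z => t * G z := by
        filter_upwards [hΩ.isOpen.mem_nhds hx] with y hy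
        exact wt_in hg0 hg1 hgs ht0 hy
      have h5 : fderiv ℝ (wt f g α β y0 t) x = t • fderiv ℝ G x := by
        rw [h4.fderiv_eq]
        exact fderiv_const_mul hxd t
      rw [h5]
      simp only [dot, smul_apply, smul_eq_mul]
      ring
    · rw [hG.V_out x hx]
      simp [dot]
  rw [e1, e2] at hray
  set lt := lam1 (prof a b (fun x => f x - t * g x) F) with hlt
  have hlt0 : 0 ≤ lt := (lam1_pos hΩ').le
  have hM0 : 0 ≤ ∫ x, wt f g α β y0 t x ^ 2 := integral_nonneg fun x => by positivity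
  -- the final estimate
  have hmass : lt * (1 + 2 * τ * (t * I)) ≤
      lam + 2 * τ * (t * D) + τ ^ 2 * (t ^ 2 * C + 5 * (t * (β - α))) := by
    have h1 : lt * (1 + 2 * τ * (t * I)) ≤
        lt * (1 + 2 * τ * (t * I) + τ ^ 2 * ∫ x, wt f g α β y0 t x ^ 2) := by
      refine mul_le_mul_of_nonneg_left ?_ hlt0
      have : 0 ≤ τ ^ 2 * ∫ x, wt f g α β y0 t x ^ 2 := by positivity
      linarith
    have h2 : τ ^ 2 * energy (wt f g α β y0 t) ≤
        τ ^ 2 * (t ^ 2 * C + 5 * (t * (β - α))) :=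
      mul_le_mul_of_nonneg_left hen (by positivity)
    linarith
  have hτμ : τ * μ = 20 * κ := by
    rw [hτ, hκ]
    field_simp
    norm_num
  have hτβ : τ ^ 2 * (β - α) = κ := by
    rw [hτ, hκ]
    field_simp
    norm_num
  rw [hfl] at hfluxG
  exact final_arith ht0.le hκ0.le hτ0.le hI0 hτμ hτβ htC htI hfluxG hmass

end

end Pool.Agent.Lib.MP_4cfb03_an
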