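import Pool.Agent.Lib.MP_4cfb03_an.Collar

/-! # T05 : inner parallel sets (helper66) -/

open MeasureTheory Set
open scoped ENNReal ContDiff Topology

namespace Pool.Agent.Lib.MP_4cfb03_an

noncomputable section



theorem ar_nonneg (S : Set ℂ) : 0 ≤ ar S := ENNReal.toReal_nonneg

theorem ar_mono {S T : Set ℂ} (hT : Bornology.IsBounded T) (h : S ⊆ T) : ar S ≤ ar T :=
  ENNReal.toReal_mono hT.measure_lt_top.ne (measure_mono h)

theorem Dom.compl_nonempty {Ω : Set ℂ} (hΩ : Dom Ω) : Ωᶜ.Nonempty := by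
  obtain ⟨R, hR⟩ := hΩ.bounded.exists_norm_le
  refine ⟨((|R| + 1 : ℝ) : ℂ), fun h => ?_⟩
  have h1 := hR _ h
  rw [Complex.norm_real, Real.norm_eq_abs, abs_of_pos (by positivity)] at h1
  linarith [le_abs_self R]

theorem mem_inn_iff {Ω : Set ℂ} (hΩ : Dom Ω) {s : ℝ} (hs : 0 < s) {z : ℂ} :
    z ∈ inn Ω s ↔ s ≤ Metric.infDist z Ωᶜ := by
  have _ := hs
  rw [Metric.le_infDist hΩ.compl_nonempty]
  constructor
  · intro h y hy
    by_contra hc
    push Not at hc
    exact hy (h (Metric.mem_ball'.2 hc))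
  · intro h y hy
    by_contra hc
    exact absurd (h hc) (not_le.2 (Metric.mem_ball'.1 hy))

theorem inn_subset {Ω : Set ℂ} {s : ℝ} (hs : 0 < s) : inn Ω s ⊆ Ω := fun _ hz =>
  hz (Metric.mem_ball_self hs)

theorem inn_anti {Ω : Set ℂ} {s t : ℝ} (h : s ≤ t) : inn Ω t ⊆ inn Ω s := fun _ hz =>
  (Metric.ball_subset_ball h).trans hz

theorem inn_mono {U Ω : Set ℂ} (h : U ⊆ Ω) (s : ℝ) : inn U s ⊆ inn Ω s := fun _ hz =>
  hz.trans h

theorem isBounded_inn {Ω : Set ℂ} (hΩ : Dom Ω) {s : ℝ} (hs : 0 < s) :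
    Bornology.IsBounded (inn Ω s) := hΩ.bounded.subset (inn_subset hs)

theorem isCompact_inn {Ω : Set ℂ} (hΩ : Dom Ω) {s : ℝ} (hs : 0 < s) : IsCompact (inn Ω s) := by
  apply Metric.isCompact_of_isClosed_isBounded _ (isBounded_inn hΩ hs)
  have : inn Ω s = {z | s ≤ Metric.infDist z Ωᶜ} := by
    ext z
    exact mem_inn_iff hΩ hs
  rw [this]
  exact isClosed_le continuous_const (Metric.continuous_infDist_pt _)

theorem convex_inn {Ω : Set ℂ} (hΩ : Dom Ω) (s : ℝ) : Convex ℝ (inn Ω s) := by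
  intro z hz w hw a b ha hb hab y hy
  have h1 : z + (y - (a • z + b • w)) ∈ Ω := by
    apply hz
    rw [Metric.mem_ball, dist_eq_norm, add_sub_cancel_left, ← dist_eq_norm]
    exact hy
  have h2 : w + (y - (a • z + b • w)) ∈ Ω := by
    apply hw
    rw [Metric.mem_ball, dist_eq_norm, add_sub_cancel_left, ← dist_eq_norm]
    exact hy
  have h3 := hΩ.convex h1 h2 ha hb hab
  have h4 : a • (z + (y - (a • z + b • w))) + b • (w + (y - (a • z + b • w))) = y := by
    have hb' : b = 1 - a := by linarith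
    subst hb'
    module
  rwa [h4] at h3

/-- a ball of radius `s + δ` is covered by the balls of radius `s` centred in the ball of radius `δ` -/
theorem ball_add_subset {Ω : Set ℂ} {s δ : ℝ} (hs : 0 < s) (hδ : 0 < δ) {z : ℂ}
    (h : Metric.ball z δ ⊆ inn Ω s) : z ∈ inn Ω (s + δ) := by
  intro y hy
  have hy' : ‖y - z‖ < s + δ := by rwa [Metric.mem_ball, dist_eq_norm] at hy
  have hsd : 0 < s + δ := by positivity
  have h1 : z + (δ / (s + δ)) • (y - z) ∈ Metric.ball z δ := by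
    rw [Metric.mem_ball, dist_eq_norm, add_sub_cancel_left, norm_smul, Real.norm_eq_abs,
      abs_of_pos (by positivity), div_mul_eq_mul_div, div_lt_iff₀ hsd]
    exact mul_lt_mul_of_pos_left hy' hδ
  apply h h1
  rw [Metric.mem_ball, dist_eq_norm]
  have : y - (z + (δ / (s + δ)) • (y - z)) = (s / (s + δ)) • (y - z) := by
    have e : s / (s + δ) = 1 - δ / (s + δ) := by field_simp; ring
    rw [e]
    module
  rw [this, norm_smul, Real.norm_eq_abs, abs_of_pos (by positivity), div_mul_eq_mul_div,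
    div_lt_iff₀ hsd]
  exact mul_lt_mul_of_pos_left hy' hs

theorem cthickening_inn_subset {Ω : Set ℂ} (hΩ : Dom Ω) {s δ : ℝ} (hs : 0 < s) (hδ : 0 ≤ δ) :
    Metric.cthickening δ (inn Ω (s + δ)) ⊆ inn Ω s := by
  intro x hx
  rw [(isCompact_inn hΩ (by positivity : 0 < s + δ)).cthickening_eq_biUnion_closedBall hδ] at hx
  simp only [mem_iUnion, exists_prop] at hx
  obtain ⟨z, hz, hxz⟩ := hx
  refine Subset.trans ?_ hz
  apply Metric.ball_subset_ball'
  have := Metric.mem_closedBall.1 hxz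
  linarith

theorem ar_interior_of_convex {S : Set ℂ} (hS : Convex ℝ S) : ar (interior S) = ar S := by
  unfold ar
  rw [measure_interior_of_null_frontier (hS.addHaar_frontier volume)]

theorem ar_le_collar {U : Set ℂ} (hU : Dom U) {δ : ℝ} (hδ : 0 < δ) :
    ar U ≤ ar {z | δ ≤ Metric.infDist z Uᶜ ∧ z ∈ U} + δ * mw U := by
  have h1 := collar_inner hU hδ
  have h2 : ar U ≤ ar {z | δ ≤ Metric.infDist z Uᶜ ∧ z ∈ U} +
      ar {z ∈ U | Metric.infDist z Uᶜ < δ} := by
    have hb1 : Bornology.IsBounded {z | δ ≤ Metric.infDist z Uᶜ ∧ z ∈ U} :=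
      hU.bounded.subset fun z hz => hz.2
    have hb2 : Bornology.IsBounded {z ∈ U | Metric.infDist z Uᶜ < δ} :=
      hU.bounded.subset fun z hz => hz.1
    unfold ar
    rw [← ENNReal.toReal_add hb1.measure_lt_top.ne hb2.measure_lt_top.ne]
    apply ENNReal.toReal_mono
      (ENNReal.add_ne_top.2 ⟨hb1.measure_lt_top.ne, hb2.measure_lt_top.ne⟩)
    refine le_trans (measure_mono ?_) (measure_union_le _ _)
    intro z hz
    rcases le_or_gt δ (Metric.infDist z Uᶜ) with h | h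
    · exact Or.inl ⟨h, hz⟩
    · exact Or.inr ⟨hz, h⟩
  linarith

theorem ar_dom_le {U : Set ℂ} (hU : Dom U) {δ : ℝ} (hδ : 0 < δ) :
    ar U ≤ ar (inn U δ) + δ * mw U := by
  have h1 := ar_le_collar hU hδ
  have h2 : ar {z | δ ≤ Metric.infDist z Uᶜ ∧ z ∈ U} ≤ ar (inn U δ) := by
    apply ar_mono (isBounded_inn hU hδ)
    intro z hz
    exact (mem_inn_iff hU hδ).2 hz.1
  linarith

theorem ar_inn_le {Ω : Set ℂ} (hΩ : Dom Ω) {s δ : ℝ} (hs : 0 < s) (hδ : 0 < δ) :
    ar (inn Ω s) ≤ ar (inn Ω (s + δ)) + δ * mw (inn Ω s) := by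
  rw [← ar_interior_of_convex (convex_inn hΩ s)]
  rcases (interior (inn Ω s)).eq_empty_or_nonempty with he | hne
  · rw [he]
    have h0 : ar (∅ : Set ℂ) = 0 := by unfold ar; simp
    rw [h0]
    have h1 := ar_nonneg (inn Ω (s + δ))
    have h2 := mw_nonneg (inn Ω s)
    positivity
  · have hU : Dom (interior (inn Ω s)) :=
      ⟨hne, (isBounded_inn hΩ hs).subset interior_subset, isOpen_interior,
        (convex_inn hΩ s).interior⟩
    have h1 := ar_dom_le hU hδ
    have h2 : ar (inn (interior (inn Ω s)) δ) ≤ ar (inn Ω (s + δ)) := by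
      apply ar_mono (isBounded_inn hΩ (by positivity))
      intro z hz
      exact ball_add_subset hs hδ (Subset.trans hz interior_subset)
    have h3 : mw (interior (inn Ω s)) ≤ mw (inn Ω s) :=
      mw_mono (isBounded_inn hΩ hs) interior_subset
    have h4 : δ * mw (interior (inn Ω s)) ≤ δ * mw (inn Ω s) :=
      mul_le_mul_of_nonneg_left h3 hδ.le
    linarith

theorem le_ar_inn {Ω : Set ℂ} (hΩ : Dom Ω) {s δ : ℝ} (hs : 0 < s) (hδ : 0 < δ)
    (hne : (inn Ω (s + δ)).Nonempty) :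
    ar (inn Ω (s + δ)) + δ * mw (inn Ω (s + δ)) ≤ ar (inn Ω s) := by
  have hsd : 0 < s + δ := by positivity
  have h1 := collar_outer (isCompact_inn hΩ hsd) hne (convex_inn hΩ (s + δ)).isPreconnected hδ
  exact h1.trans (ar_mono (isBounded_inn hΩ hs) (cthickening_inn_subset hΩ hs hδ.le))

theorem mw_inn_add_le {Ω : Set ℂ} (hΩ : Dom Ω) {s δ : ℝ} (hs : 0 < s) (hδ : 0 ≤ δ)
    (hne : (inn Ω (s + δ)).Nonempty) :
    mw (inn Ω (s + δ)) + 2 * Real.pi * δ ≤ mw (inn Ω s) := by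
  have hsd : 0 < s + δ := by positivity
  rw [← mw_cthickening (isBounded_inn hΩ hsd) hne hδ]
  exact mw_mono (isBounded_inn hΩ hs) (cthickening_inn_subset hΩ hs hδ)

theorem mw_inn_add_le_dom {U : Set ℂ} (hU : Dom U) {t : ℝ} (ht : 0 < t)
    (hne : (inn U t).Nonempty) : mw (inn U t) + 2 * Real.pi * t ≤ mw U := by
  rw [← mw_thickening (isBounded_inn hU ht) hne ht]
  apply mw_mono hU.bounded
  intro x hx
  obtain ⟨z, hz, hxz⟩ := Metric.mem_thickening_iff.1 hx
  exact hz (Metric.mem_ball.2 hxz)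

/-- telescoping -/
theorem ar_telescope {U : Set ℂ} (hU : Dom U) {d : ℝ} (hd : 0 < d) (n : ℕ)
    (hne : (inn U ((n + 1 : ℕ) * d)).Nonempty) :
    ar U ≤ ar (inn U ((n + 1 : ℕ) * d)) + (n + 1 : ℕ) * d * mw U -
      Real.pi * d ^ 2 * ((n + 1 : ℕ) * n) := by
  induction n with
  | zero =>
    have h1 := ar_dom_le hU hd
    simp only [zero_add, Nat.cast_one, one_mul, Nat.cast_zero, mul_zero, sub_zero]
    exact h1
  | succ n ih =>
    have hn1 : 0 < ((n + 1 : ℕ) : ℝ) * d := by positivity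
    have hle : ((n + 1 : ℕ) : ℝ) * d ≤ ((n + 1 + 1 : ℕ) : ℝ) * d := by
      apply mul_le_mul_of_nonneg_right _ hd.le
      push_cast
      linarith
    have hne' : (inn U ((n + 1 : ℕ) * d)).Nonempty := hne.mono (inn_anti hle)
    have h1 := ih hne'
    have h2 := ar_inn_le hU hn1 hd
    have h3 := mw_inn_add_le_dom hU hn1 hne'
    have e : ((n + 1 : ℕ) : ℝ) * d + d = ((n + 1 + 1 : ℕ) : ℝ) * d := by
      push_cast
      ring
    rw [e] at h2
    have h4 : d * mw (inn U ((n + 1 : ℕ) * d)) ≤ d * (mw U - 2 * Real.pi * ((n + 1 : ℕ) * d)) :=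
      mul_le_mul_of_nonneg_left (by linarith) hd.le
    push_cast at h1 h2 h4 ⊢
    nlinarith

theorem ar_le_add_mul_mw {U : Set ℂ} (hU : Dom U) {s : ℝ} (hs : 0 < s)
    (hne : (inn U s).Nonempty) : ar U ≤ ar (inn U s) + s * mw U - Real.pi * s ^ 2 := by
  have key : ∀ n : ℕ, ar U ≤ ar (inn U s) + s * mw U - Real.pi * s ^ 2 +
      Real.pi * s ^ 2 * (1 / ((n : ℝ) + 1)) := by
    intro n
    have hn : (0 : ℝ) < (n : ℝ) + 1 := by positivity
    have hd : 0 < s / ((n : ℝ) + 1) := by positivity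
    have e : ((n + 1 : ℕ) : ℝ) * (s / ((n : ℝ) + 1)) = s := by
      push_cast
      field_simp
    have h := ar_telescope hU hd n (by rw [e]; exact hne)
    rw [e] at h
    have e2 : Real.pi * (s / ((n : ℝ) + 1)) ^ 2 * (((n + 1 : ℕ) : ℝ) * n) =
        Real.pi * s ^ 2 - Real.pi * s ^ 2 * (1 / ((n : ℝ) + 1)) := by
      push_cast
      field_simp
      ring
    rw [e2] at h
    linarith
  have hlim : Filter.Tendsto (fun n : ℕ => ar (inn U s) + s * mw U - Real.pi * s ^ 2 +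
      Real.pi * s ^ 2 * (1 / ((n : ℝ) + 1))) Filter.atTop
      (𝓝 (ar (inn U s) + s * mw U - Real.pi * s ^ 2 + Real.pi * s ^ 2 * 0)) :=
    (tendsto_one_div_add_atTop_nhds_zero_nat.const_mul _).const_add _
  rw [mul_zero, add_zero] at hlim
  exact ge_of_tendsto' hlim key

theorem ar_le_mul_mw {U Ω : Set ℂ} (hU : Dom U) (hΩ : Dom Ω) (hUΩ : U ⊆ Ω) {s : ℝ} (hs : 0 < s)
    (har : ar (inn Ω s) ≤ Real.pi * s ^ 2) : ar U ≤ s * mw U := by
  rcases (inn U s).eq_empty_or_nonempty with he | hne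
  · have h1 := ar_dom_le hU hs
    rw [he] at h1
    have h0 : ar (∅ : Set ℂ) = 0 := by unfold ar; simp
    rw [h0, zero_add] at h1
    exact h1
  · have h1 := ar_le_add_mul_mw hU hs hne
    have h2 : ar (inn U s) ≤ ar (inn Ω s) := ar_mono (isBounded_inn hΩ hs) (inn_mono hUΩ s)
    linarith

theorem Dom.ar_pos {Ω : Set ℂ} (hΩ : Dom Ω) : 0 < ar Ω :=
  ENNReal.toReal_pos (hΩ.isOpen.measure_pos volume hΩ.nonempty).ne' hΩ.bounded.measure_lt_top.ne

theorem exists_inn_empty {Ω : Set ℂ} (hΩ : Dom Ω) : ∃ R : ℝ, 0 < R ∧ ∀ t, R ≤ t → inn Ω t = ∅ := by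
  obtain ⟨y, hy⟩ := hΩ.compl_nonempty
  obtain ⟨R, hR⟩ := hΩ.bounded.exists_norm_le
  refine ⟨|R| + ‖y‖ + 1, by positivity, fun t ht => ?_⟩
  rw [eq_empty_iff_forall_notMem]
  intro z hz
  have ht0 : 0 < t := lt_of_lt_of_le (by positivity) ht
  have hzΩ : z ∈ Ω := inn_subset ht0 hz
  have h1 := hR z hzΩ
  apply hy
  apply hz
  rw [Metric.mem_ball, dist_eq_norm]
  have h2 : ‖y - z‖ ≤ ‖y‖ + ‖z‖ := norm_sub_le y z
  have h3 := le_abs_self R
  linarith

theorem exists_radius {Ω : Set ℂ} (hΩ : Dom Ω) : ∃ r : ℝ, 0 < r ∧ ar (inn Ω r) = Real.pi * r ^ 2 := by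
  obtain ⟨R, hR0, hR⟩ := exists_inn_empty hΩ
  have hA := hΩ.ar_pos
  have hm := mw_nonneg Ω
  -- a small radius
  obtain ⟨t1, ht1, ht1R, ht1'⟩ : ∃ t1 : ℝ, 0 < t1 ∧ t1 ≤ R ∧
      Real.pi * t1 ^ 2 ≤ ar (inn Ω t1) := by
    refine ⟨min (min 1 R) (ar Ω / (mw Ω + Real.pi + 1)), by positivity,
      (min_le_left _ _).trans (min_le_right _ _), ?_⟩
    set t := min (min 1 R) (ar Ω / (mw Ω + Real.pi + 1)) with ht
    have ht0 : 0 < t := by positivity
    have h1 : t ≤ 1 := (min_le_left _ _).trans (min_le_left _ _)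
    have h2 : t * (mw Ω + Real.pi + 1) ≤ ar Ω := by
      rw [← le_div_iff₀ (by positivity)]
      exact min_le_right _ _
    have h3 := ar_dom_le hΩ ht0
    have h4 : Real.pi * t ^ 2 ≤ Real.pi * t := by
      apply mul_le_mul_of_nonneg_left _ Real.pi_pos.le
      nlinarith
    nlinarith
  have hcont : ContinuousOn (fun t => ar (inn Ω t) - Real.pi * t ^ 2) (Icc t1 R) := by
    apply ContinuousOn.sub
    · have hl : LipschitzOnWith (Real.toNNReal (mw Ω)) (fun t => ar (inn Ω t)) (Icc t1 R) := by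
        apply LipschitzOnWith.of_le_add_mul
        intro x hx y hy
        rw [Real.coe_toNNReal _ hm]
        have hx0 : 0 < x := lt_of_lt_of_le ht1 hx.1
        have hy0 : 0 < y := lt_of_lt_of_le ht1 hy.1
        rcases lt_or_ge x y with h | h
        · have h1 := ar_inn_le hΩ hx0 (sub_pos.2 h)
          rw [add_sub_cancel] at h1
          have h2 : mw (inn Ω x) ≤ mw Ω := mw_mono hΩ.bounded (inn_subset hx0)
          have h3 : (y - x) * mw (inn Ω x) ≤ (y - x) * mw Ω :=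
            mul_le_mul_of_nonneg_left h2 (sub_pos.2 h).le
          rw [Real.dist_eq, abs_sub_comm, abs_of_pos (sub_pos.2 h)]
          linarith
        · have h1 : ar (inn Ω x) ≤ ar (inn Ω y) := ar_mono (isBounded_inn hΩ hy0) (inn_anti h)
          have h2 : 0 ≤ mw Ω * dist x y := mul_nonneg hm dist_nonneg
          linarith
      exact hl.continuousOn
    · exact (continuous_const.mul (continuous_pow 2)).continuousOn
  have h := intermediate_value_Icc' ht1R hcont
  have h0 : (0 : ℝ) ∈ Icc (ar (inn Ω R) - Real.pi * R ^ 2) (ar (inn Ω t1) - Real.pi * t1 ^ 2) := by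
    constructor
    · rw [hR R le_rfl]
      have h0 : ar (∅ : Set ℂ) = 0 := by unfold ar; simp
      rw [h0]
      have : 0 ≤ Real.pi * R ^ 2 := by positivity
      linarith
    · linarith
  obtain ⟨r, hr, hr2⟩ := h h0
  refine ⟨r, lt_of_lt_of_le ht1 hr.1, ?_⟩
  have hr3 : ar (inn Ω r) - Real.pi * r ^ 2 = 0 := hr2
  linarith

end

end Pool.Agent.Lib.MP_4cfb03_an
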