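import Pool.Agent.Lib.MP_4cfb03_an.Slice
import Pool.Agent.Lib.MP_4cfb03_an.Inner
import Pool.Agent.Lib.MP_4cfb03_an.Sob
import Pool.Agent.Lib.MP_4cfb03_an.GS
import Pool.Agent.Lib.MP_4cfb03_an.Pos

/-! # T20: the Hopf lower bound and the flux of the bump `Wf` -/

open MeasureTheory Set
open scoped ENNReal ContDiff Topology NNReal

namespace Pool.Agent.Lib.MP_4cfb03_an

noncomputable section

/-! ### Preliminaries -/

theorem hopf_memLp_lip {w : ℂ → ℝ} (hw : Lip w) (hwc : HasCompactSupport w) :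
    MemLp w 2 volume := by
  obtain ⟨K, hK⟩ := hw
  exact hK.continuous.memLp_of_hasCompactSupport hwc

theorem hopf_memLp_fderiv {w : ℂ → ℝ} (hw : Lip w) (hwc : HasCompactSupport w) :
    MemLp (fderiv ℝ w) 2 volume := by
  obtain ⟨K, hK⟩ := hw
  have hm : Measurable (fderiv ℝ w) := measurable_fderiv ℝ w
  have hS : IsCompact (tsupport w) := hwc
  rw [memLp_two_iff_integrable_sq_norm hm.aestronglyMeasurable]
  have h1 : Integrable ((tsupport w).indicator fun _ : ℂ => (K : ℝ) ^ 2) :=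
    (integrable_indicator_iff hS.measurableSet).2
      (integrableOn_const hS.measure_lt_top.ne)
  refine h1.mono' (hm.norm.pow_const 2).aestronglyMeasurable
    (Filter.Eventually.of_forall fun x => ?_)
  rw [Real.norm_of_nonneg (sq_nonneg _)]
  by_cases hx : x ∈ tsupport w
  · rw [indicator_of_mem hx]
    exact pow_le_pow_left₀ (norm_nonneg _) (norm_fderiv_le_of_lipschitz ℝ hK) 2
  · rw [indicator_of_notMem hx]
    have h2 : fderiv ℝ w x = 0 := by
      by_contra hne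
      exact hx (support_fderiv_subset ℝ hne)
    rw [h2]
    simp

theorem hopf_dot_integrable {A B : ℂ → ℂ →L[ℝ] ℝ} (hA : MemLp A 2 volume)
    (hB : MemLp B 2 volume) : Integrable (fun x => dot (A x) (B x)) := by
  have h1 : ∀ z : ℂ, ∀ {A : ℂ → ℂ →L[ℝ] ℝ}, MemLp A 2 volume → MemLp (fun x => A x z) 2 volume :=
    fun z A hA => (ContinuousLinearMap.apply ℝ ℝ z).comp_memLp' hA
  unfold dot
  exact ((h1 1 hA).integrable_mul (h1 1 hB)).add
    ((h1 Complex.I hA).integrable_mul (h1 Complex.I hB))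

theorem hopf_dot_sub_left (L M N : ℂ →L[ℝ] ℝ) : dot (L - M) N = dot L N - dot M N := by
  simp only [dot, sub_apply]
  ring

theorem hopf_dot_symm (L M : ℂ →L[ℝ] ℝ) : dot L M = dot M L := by
  simp only [dot]
  ring

theorem hopf_neg_dot_le (L M : ℂ →L[ℝ] ℝ) : - dot L M ≤ 1 / 2 * dot L L + 1 / 2 * dot M M := by
  simp only [dot]
  nlinarith [sq_nonneg (L 1 + M 1), sq_nonneg (L Complex.I + M Complex.I)]

theorem hopf_continuous_lap {w : ℂ → ℝ} (hw : ContDiff ℝ 2 w) : Continuous (lap w) := by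
  have h1 : ContDiff ℝ 1 (fderiv ℝ w) := hw.fderiv_right (by norm_num)
  have h2 : ∀ z : ℂ, Continuous fun x => fderiv ℝ (fun y => fderiv ℝ w y z) x z := by
    intro z
    have h3 : ContDiff ℝ 1 (fun y => fderiv ℝ w y z) := h1.clm_apply contDiff_const
    exact (h3.continuous_fderiv (by norm_num)).clm_apply continuous_const
  exact (h2 1).add (h2 Complex.I)

/-- Weak comparison principle. -/
theorem hopf_compare_aux {Ω : Set ℂ} (hΩ : Dom Ω) {φ : ℕ → ℂ → ℝ} {u : ℂ → ℝ}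
    {V : ℂ → ℂ →L[ℝ] ℝ} (h : GS Ω φ u V) {b : ℂ → ℝ} (hb : ContDiff ℝ 2 b) (hbL : Lip b)
    {c0 C : ℝ} {B : Set ℂ} (hC : 0 ≤ C) (hbc : ∀ x, b x ≤ c0) (hout : ∀ x, x ∉ Ω → b x ≤ 0)
    (hlap : ∀ x, x ∉ B → 0 ≤ lap b x) (hlapB : ∀ x ∈ B, -C ≤ lap b x)
    (huB : ∀ᵐ x, x ∈ B → c0 ≤ u x) {d : ℝ} (hd : 0 < d) : ∀ᵐ x, b x - d ≤ u x := by
  obtain ⟨Kb, hKb⟩ := hbL
  -- the test functions
  set w : ℕ → ℂ → ℝ := fun n x => max (b x - d - φ n x) 0 with hw
  have hφL : ∀ n, Lip (φ n) := fun n =>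
    ContDiff.lipschitzWith_of_hasCompactSupport (h.compact n) (h.smooth n) (by simp)
  have hvL : ∀ n, Lip (fun x => b x - d - φ n x) := by
    intro n
    obtain ⟨K, hK⟩ := hφL n
    exact ⟨Kb + 0 + K, (hKb.sub (LipschitzWith.const d)).sub hK⟩
  have hwL : ∀ n, Lip (w n) := by
    intro n
    obtain ⟨K, hK⟩ := hvL n
    exact ⟨K, hK.max_const 0⟩
  have hw0 : ∀ n x, 0 ≤ w n x := fun n x => le_max_right _ _
  have hwout : ∀ n x, x ∉ Ω → w n x = 0 := by
    intro n x hx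
    have h1 := hout x hx
    have h2 := h.nonneg n x
    exact max_eq_right (by linarith)
  have hwA : ∀ n, Adm Ω (w n) := fun n => ⟨hwL n, hwout n⟩
  have hwc : ∀ n, HasCompactSupport (w n) := fun n =>
    HasCompactSupport.of_support_subset_isCompact hΩ.bounded.isCompact_closure (by
      intro x hx
      by_contra hcon
      exact hx (hwout n x fun hxΩ => hcon (subset_closure hxΩ)))
  have hW2 : ∀ n, MemLp (fderiv ℝ (w n)) 2 volume := fun n => hopf_memLp_fderiv (hwL n) (hwc n)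
  have hw2 : ∀ n, MemLp (w n) 2 volume := fun n => hopf_memLp_lip (hwL n) (hwc n)
  have hφ2 : ∀ n, MemLp (φ n) 2 volume := fun n => hopf_memLp_lip (hφL n) (h.compact n)
  have hΦ2 : ∀ n, MemLp (fderiv ℝ (φ n)) 2 volume := fun n =>
    hopf_memLp_fderiv (hφL n) (h.compact n)
  have hbd : ∀ x, DifferentiableAt ℝ b x := fun x => (hb.differentiable (by norm_num)) x
  have hφd : ∀ n x, DifferentiableAt ℝ (φ n) x := fun n x =>
    ((h.smooth n).differentiable (by simp)) x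
  -- squared L2 distances
  have hI1 : ∀ n, Integrable (fun x => (φ n x - u x) ^ 2) := fun n =>
    ((hφ2 n).sub h.memu).integrable_sq
  have hI2 : ∀ n, Integrable (fun x => ‖fderiv ℝ (φ n) x - V x‖ ^ 2) := fun n => by
    have := hopf_dot_integrable ((hΦ2 n).sub h.memV) ((hΦ2 n).sub h.memV)
    simpa only [norm_sq_eq_dot, Pi.sub_apply] using this
  -- pointwise inequality
  have hpt : ∀ n, ∀ᵐ x, 1 / 2 * ‖fderiv ℝ (w n) x‖ ^ 2 ≤
      dot (fderiv ℝ (w n) x) (fderiv ℝ b x) - dot (V x) (fderiv ℝ (w n) x) +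
        1 / 2 * ‖fderiv ℝ (φ n) x - V x‖ ^ 2 := by
    intro n
    filter_upwards [fderiv_posPart_ae (hvL n)] with x hx
    have hx' : fderiv ℝ (w n) x = if 0 < b x - d - φ n x then
        fderiv ℝ (fun x => b x - d - φ n x) x else 0 := hx
    have h1 : fderiv ℝ (fun x => b x - d - φ n x) x = fderiv ℝ b x - fderiv ℝ (φ n) x := by
      have h2 : HasFDerivAt (fun x => b x - d - φ n x) (fderiv ℝ b x - fderiv ℝ (φ n) x) x := by
        have := ((hbd x).hasFDerivAt.sub_const d).sub (hφd n x).hasFDerivAt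
        exact this
      exact h2.fderiv
    rw [h1] at hx'
    have h3 : dot (fderiv ℝ (w n) x) (fderiv ℝ (w n) x) =
        dot (fderiv ℝ b x) (fderiv ℝ (w n) x) - dot (fderiv ℝ (φ n) x) (fderiv ℝ (w n) x) := by
      rw [← hopf_dot_sub_left]
      split_ifs at hx' with hpos
      · rw [hx']
      · rw [hx']
        simp [dot]
    have h4 := hopf_neg_dot_le (fderiv ℝ (φ n) x - V x) (fderiv ℝ (w n) x)
    have h5 := hopf_dot_sub_left (fderiv ℝ (φ n) x) (V x) (fderiv ℝ (w n) x)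
    rw [norm_sq_eq_dot, norm_sq_eq_dot, hopf_dot_symm (fderiv ℝ (w n) x) (fderiv ℝ b x)]
    linarith
  -- integrability
  have hbW : ∀ n, Integrable (fun x => dot (fderiv ℝ (w n) x) (fderiv ℝ b x)) := by
    intro n
    have h1 : ∀ z : ℂ, MemLp (fun x => fderiv ℝ (w n) x z) 2 volume :=
      fun z => (ContinuousLinearMap.apply ℝ ℝ z).comp_memLp' (hW2 n)
    have h2 : ∀ z : ℂ, Integrable (fun x => fderiv ℝ (w n) x z * fderiv ℝ b x z) := by
      intro z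
      have hcs : Function.support (fderiv ℝ (w n)) ⊆ tsupport (w n) := support_fderiv_subset ℝ
      have hSc : IsCompact (tsupport (w n)) := hwc n
      have h3 : (fun x => fderiv ℝ (w n) x z * fderiv ℝ b x z) =
          fun x => fderiv ℝ (w n) x z *
            (tsupport (w n)).indicator (fun x => fderiv ℝ b x z) x := by
        funext x
        by_cases hx : x ∈ tsupport (w n)
        · rw [indicator_of_mem hx]
        · have : fderiv ℝ (w n) x = 0 := by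
            by_contra hne
            exact hx (hcs hne)
          rw [this]
          simp
      rw [h3]
      have hcont : Continuous fun x => fderiv ℝ b x z :=
        (hb.continuous_fderiv (by norm_num)).clm_apply continuous_const
      have : IsFiniteMeasure ((volume : Measure ℂ).restrict (tsupport (w n))) :=
        ⟨by rw [Measure.restrict_apply_univ]; exact hSc.measure_lt_top⟩
      have h4 : MemLp (fun x => fderiv ℝ b x z) 2
          ((volume : Measure ℂ).restrict (tsupport (w n))) := by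
        refine MemLp.of_bound hcont.aestronglyMeasurable (Kb * ‖z‖)
          (Filter.Eventually.of_forall fun x => ?_)
        exact (ContinuousLinearMap.le_opNorm _ _).trans
          (mul_le_mul_of_nonneg_right (norm_fderiv_le_of_lipschitz ℝ hKb) (norm_nonneg z))
      have h5 : MemLp ((tsupport (w n)).indicator fun x => fderiv ℝ b x z) 2 volume :=
        (memLp_indicator_iff_restrict hSc.measurableSet).2 h4
      exact (h1 z).integrable_mul h5
    unfold dot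
    exact (h2 1).add (h2 Complex.I)
  have hVW : ∀ n, Integrable (fun x => dot (V x) (fderiv ℝ (w n) x)) := fun n =>
    hopf_dot_integrable h.memV (hW2 n)
  have hWW : ∀ n, Integrable (fun x => ‖fderiv ℝ (w n) x‖ ^ 2) := fun n => by
    have := hopf_dot_integrable (hW2 n) (hW2 n)
    simpa only [norm_sq_eq_dot] using this
  have hBV : ∀ n, Integrable (fun x => dot (fderiv ℝ (w n) x) (fderiv ℝ b x) -
      dot (V x) (fderiv ℝ (w n) x)) := fun n => (hbW n).sub (hVW n)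
  have hIc : ∀ n, Integrable (fun x => 1 / 2 * ‖fderiv ℝ (φ n) x - V x‖ ^ 2) := fun n =>
    (hI2 n).const_mul _
  -- energy estimate
  have hen : ∀ n, energy (w n) ≤ 2 * (C / d) * (∫ x, (φ n x - u x) ^ 2) +
      ∫ x, ‖fderiv ℝ (φ n) x - V x‖ ^ 2 := by
    intro n
    have h1 : ∫ x, 1 / 2 * ‖fderiv ℝ (w n) x‖ ^ 2 ≤
        ∫ x, (dot (fderiv ℝ (w n) x) (fderiv ℝ b x) - dot (V x) (fderiv ℝ (w n) x) +
          1 / 2 * ‖fderiv ℝ (φ n) x - V x‖ ^ 2) :=
      integral_mono_ae ((hWW n).const_mul _) ((hBV n).add (hIc n)) (hpt n)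
    rw [integral_const_mul, integral_add (hBV n) (hIc n),
      integral_sub (hbW n) (hVW n), integral_const_mul, integral_dot_lap (hwL n) (hwc n) hb,
      h.weak hΩ (hwA n)] at h1
    have h2 : 0 ≤ lam1 Ω * ∫ x, u x * w n x :=
      mul_nonneg (lam1_pos hΩ).le (integral_nonneg fun x => mul_nonneg (h.u_nonneg x) (hw0 n x))
    have h3 : - ∫ x, w n x * lap b x ≤ C / d * ∫ x, (φ n x - u x) ^ 2 := by
      rw [← integral_neg, ← integral_const_mul]
      refine integral_mono_ae ?_ ((hI1 n).const_mul _) ?_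
      · have hcont : Continuous fun x => w n x * lap b x := by
          obtain ⟨K, hK⟩ := hwL n
          exact hK.continuous.mul (hopf_continuous_lap hb)
        exact (hcont.integrable_of_hasCompactSupport ((hwc n).mul_right)).neg
      · filter_upwards [huB] with x hx
        have hq : 0 ≤ C / d * (φ n x - u x) ^ 2 := by positivity
        by_cases hxB : x ∈ B
        · have hu := hx hxB
          have hl := hlapB x hxB
          have h4 : - (w n x * lap b x) ≤ C * w n x := by nlinarith [hw0 n x]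
          refine h4.trans ?_
          rw [div_mul_eq_mul_div, mul_div_assoc]
          refine mul_le_mul_of_nonneg_left ?_ hC
          rw [le_div_iff₀ hd]
          rcases le_or_gt (b x - d - φ n x) 0 with hle | hgt
          · have : w n x = 0 := max_eq_right hle
            rw [this, zero_mul]
            positivity
          · have hwe : w n x = b x - d - φ n x := max_eq_left hgt.le
            have h5 : w n x + d ≤ u x - φ n x := by
              have := hbc x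
              linarith
            have h6 : 0 < w n x := by linarith
            nlinarith
        · have hl := hlap x hxB
          have h4 : 0 ≤ w n x * lap b x := mul_nonneg (hw0 n x) hl
          linarith
    have h4 : energy (w n) = ∫ x, ‖fderiv ℝ (w n) x‖ ^ 2 := rfl
    rw [← h4] at h1
    linarith
  have hlim : Filter.Tendsto (fun n => 2 * ((1 / lam1 Ω) * (2 * (C / d) *
      (∫ x, (φ n x - u x) ^ 2) + ∫ x, ‖fderiv ℝ (φ n) x - V x‖ ^ 2)) +
        2 * ∫ x, (φ n x - u x) ^ 2) Filter.atTop (𝓝 (2 * ((1 / lam1 Ω) * (2 * (C / d) *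
      0 + 0)) + 2 * 0)) :=
    ((((h.limu.const_mul _).add h.limV).const_mul _).const_mul _).add (h.limu.const_mul _)
  have hmass : ∀ n, mass (w n) ≤ (1 / lam1 Ω) * (2 * (C / d) *
      (∫ x, (φ n x - u x) ^ 2) + ∫ x, ‖fderiv ℝ (φ n) x - V x‖ ^ 2) := by
    intro n
    have h1 := lam1_mul_mass_le hΩ (hwA n)
    have h2 := lam1_pos hΩ
    rw [one_div, ← div_eq_inv_mul, le_div_iff₀ h2]
    linarith [hen n]
  -- the limit function
  set g : ℂ → ℝ := fun x => max (b x - d - u x) 0 with hg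
  have hgm : Measurable g :=
    ((hb.continuous.measurable.sub_const d).sub h.u_meas).max measurable_const
  have hgpt : ∀ n x, g x ^ 2 ≤ 2 * w n x ^ 2 + 2 * (φ n x - u x) ^ 2 := by
    intro n x
    have h1 : 0 ≤ g x := le_max_right _ _
    have h2 : g x ≤ w n x + |φ n x - u x| := by
      refine max_le ?_ (add_nonneg (hw0 n x) (abs_nonneg _))
      have h3 : b x - d - φ n x ≤ w n x := le_max_left _ _
      have h4 := le_abs_self (φ n x - u x)
      linarith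
    have h5 : g x ^ 2 ≤ (w n x + |φ n x - u x|) ^ 2 := pow_le_pow_left₀ h1 h2 2
    have h6 : |φ n x - u x| ^ 2 = (φ n x - u x) ^ 2 := sq_abs _
    nlinarith [sq_nonneg (w n x - |φ n x - u x|)]
  have hIr : ∀ n, Integrable (fun x => 2 * w n x ^ 2 + 2 * (φ n x - u x) ^ 2) := fun n =>
    ((hw2 n).integrable_sq.const_mul _).add ((hI1 n).const_mul _)
  have hgI : Integrable (fun x => g x ^ 2) := by
    refine (hIr 0).mono' (hgm.pow_const 2).aestronglyMeasurable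
      (Filter.Eventually.of_forall fun x => ?_)
    rw [Real.norm_of_nonneg (sq_nonneg _)]
    exact hgpt 0 x
  have hgle : ∫ x, g x ^ 2 ≤ 0 := by
    have h0 : 2 * ((1 / lam1 Ω) * (2 * (C / d) * 0 + 0)) + 2 * 0 = (0:ℝ) := by ring
    rw [h0] at hlim
    refine ge_of_tendsto' hlim fun n => ?_
    have h1 : ∫ x, g x ^ 2 ≤ ∫ x, (2 * w n x ^ 2 + 2 * (φ n x - u x) ^ 2) :=
      integral_mono hgI (hIr n) (hgpt n)
    rw [integral_add ((hw2 n).integrable_sq.const_mul _) ((hI1 n).const_mul _),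
      integral_const_mul, integral_const_mul] at h1
    have h2 : mass (w n) = ∫ x, w n x ^ 2 := rfl
    rw [← h2] at h1
    linarith [hmass n]
  have hgz : ∫ x, g x ^ 2 = 0 := le_antisymm hgle (integral_nonneg fun x => sq_nonneg _)
  rw [integral_eq_zero_iff_of_nonneg (fun x => sq_nonneg _) hgI] at hgz
  filter_upwards [hgz] with x hx
  have h1 : g x = 0 := by simpa using hx
  have h2 : b x - d - u x ≤ g x := le_max_left _ _
  linarith

theorem hopf_compare {Ω : Set ℂ} (hΩ : Dom Ω) {φ : ℕ → ℂ → ℝ} {u : ℂ → ℝ}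
    {V : ℂ → ℂ →L[ℝ] ℝ} (h : GS Ω φ u V) {b : ℂ → ℝ} (hb : ContDiff ℝ 2 b) (hbL : Lip b)
    {c0 C : ℝ} {B : Set ℂ} (hC : 0 ≤ C) (hbc : ∀ x, b x ≤ c0) (hout : ∀ x, x ∉ Ω → b x ≤ 0)
    (hlap : ∀ x, x ∉ B → 0 ≤ lap b x) (hlapB : ∀ x ∈ B, -C ≤ lap b x)
    (huB : ∀ᵐ x, x ∈ B → c0 ≤ u x) : ∀ᵐ x, b x ≤ u x := by
  have h1 : ∀ᵐ x, ∀ n : ℕ, b x - 1 / ((n : ℝ) + 1) ≤ u x := by
    rw [ae_all_iff]
    intro n
    exact hopf_compare_aux hΩ h hb hbL hC hbc hout hlap hlapB huB Nat.one_div_pos_of_nat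
  filter_upwards [h1] with x hx
  refine le_of_forall_pos_le_add fun ε hε => ?_
  obtain ⟨n, hn⟩ := exists_nat_one_div_lt hε
  linarith [hx n]

/-! ### The barrier -/

/-- the profile of the barrier -/
def hopfG (c0 r t : ℝ) : ℝ := c0 * (Real.exp (-4 / r ^ 2 * t) - Real.exp (-4))

theorem hopfG_hasDerivAt (c0 r t : ℝ) :
    HasDerivAt (hopfG c0 r) (c0 * (Real.exp (-4 / r ^ 2 * t) * (-4 / r ^ 2))) t := by
  have h1 : HasDerivAt (fun t : ℝ => -4 / r ^ 2 * t) (-4 / r ^ 2) t := by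
    simpa using (hasDerivAt_id t).const_mul (-4 / r ^ 2)
  exact (h1.exp.sub_const _).const_mul c0

theorem hopfG_deriv (c0 r : ℝ) :
    deriv (hopfG c0 r) = fun t => c0 * (Real.exp (-4 / r ^ 2 * t) * (-4 / r ^ 2)) :=
  funext fun t => (hopfG_hasDerivAt c0 r t).deriv

theorem hopfG_deriv2 (c0 r t : ℝ) : deriv (deriv (hopfG c0 r)) t =
    c0 * (Real.exp (-4 / r ^ 2 * t) * (-4 / r ^ 2) * (-4 / r ^ 2)) := by
  rw [hopfG_deriv]
  have h1 : HasDerivAt (fun t : ℝ => -4 / r ^ 2 * t) (-4 / r ^ 2) t := by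
    simpa using (hasDerivAt_id t).const_mul (-4 / r ^ 2)
  exact ((h1.exp.mul_const _).const_mul c0).deriv

theorem hopfG_contDiff (c0 r : ℝ) : ContDiff ℝ 2 (hopfG c0 r) := by
  unfold hopfG
  fun_prop

theorem hopf_contDiff_barrier (c0 r : ℝ) (k : ℂ) :
    ContDiff ℝ 2 (fun x : ℂ => hopfG c0 r (‖x - k‖ ^ 2)) :=
  (hopfG_contDiff c0 r).comp ((contDiff_id.sub contDiff_const).norm_sq ℝ)

theorem hopf_lip_barrier {c0 r : ℝ} (hc0 : 0 ≤ c0) (hr : 0 < r) (k : ℂ) :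
    Lip (fun x : ℂ => hopfG c0 r (‖x - k‖ ^ 2)) := by
  have h1 : ∀ s : ℝ, HasDerivAt (fun s : ℝ => hopfG c0 r (s ^ 2))
      (c0 * (Real.exp (-4 / r ^ 2 * s ^ 2) * (-4 / r ^ 2)) * (2 * s)) s := by
    intro s
    have h2 : HasDerivAt (fun s : ℝ => s ^ 2) (2 * s) s := by
      simpa using hasDerivAt_pow 2 s
    exact HasDerivAt.comp (h₂ := hopfG c0 r) (h := fun s : ℝ => s ^ 2) s
      (hopfG_hasDerivAt c0 r (s ^ 2)) h2
  have hK : 0 ≤ 8 * c0 / r := by positivity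
  have h3 : LipschitzWith (8 * c0 / r).toNNReal (fun s : ℝ => hopfG c0 r (s ^ 2)) := by
    refine lipschitzWith_of_nnnorm_deriv_le (fun s => (h1 s).differentiableAt) fun s => ?_
    rw [(h1 s).deriv]
    rw [← NNReal.coe_le_coe, coe_nnnorm, Real.coe_toNNReal _ hK, Real.norm_eq_abs]
    have h4 : c0 * (Real.exp (-4 / r ^ 2 * s ^ 2) * (-4 / r ^ 2)) * (2 * s) =
        -(8 * c0 / r) * (Real.exp (-4 / r ^ 2 * s ^ 2) * (s / r)) := by
      field_simp
      ring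
    rw [h4, abs_mul, abs_neg, abs_of_nonneg hK]
    refine mul_le_of_le_one_right hK ?_
    rw [abs_mul, abs_of_pos (Real.exp_pos _)]
    set y := s / r with hy
    have h5 : -4 / r ^ 2 * s ^ 2 = -(4 * y ^ 2) := by
      rw [hy]
      field_simp
    rw [h5, Real.exp_neg, inv_mul_le_iff₀ (Real.exp_pos _), mul_one]
    have h6 := Real.add_one_le_exp (4 * y ^ 2)
    have h7 : |y| ≤ 4 * y ^ 2 + 1 := by
      rw [← sq_abs y]
      nlinarith [sq_nonneg (|y| - 1), abs_nonneg y]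
    linarith
  have h8 : LipschitzWith 1 (fun x : ℂ => ‖x - k‖) := by
    refine LipschitzWith.of_dist_le_mul fun x y => ?_
    rw [NNReal.coe_one, one_mul, Real.dist_eq, dist_eq_norm]
    have := abs_norm_sub_norm_le (x - k) (y - k)
    simpa using this
  exact ⟨_, h3.comp h8⟩

theorem hopf_lap_barrier (c0 r : ℝ) (k x : ℂ) :
    lap (fun x : ℂ => hopfG c0 r (‖x - k‖ ^ 2)) x =
      c0 * Real.exp (-4 / r ^ 2 * ‖x - k‖ ^ 2) *
        (64 * ‖x - k‖ ^ 2 / r ^ 4 - 16 / r ^ 2) := by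
  rw [lap_radial (hopfG_contDiff c0 r) k x, hopfG_deriv2, hopfG_deriv]
  ring

theorem GS.hopf {Ω : Set ℂ} (hΩ : Dom Ω) {φ : ℕ → ℂ → ℝ} {u : ℂ → ℝ}
    {V : ℂ → ℂ →L[ℝ] ℝ} (h : GS Ω φ u V) {r : ℝ} (hr : 0 < r) :
    ∃ c : ℝ, 0 < c ∧ ∀ k ∈ inn Ω r, ∀ᵐ x, x ∈ Metric.ball k r → c * (r - ‖x - k‖) ≤ u x := by
  have hK : IsCompact (Metric.cthickening (r / 2) (inn Ω r)) := (isCompact_inn hΩ hr).cthickening
  have hKΩ : Metric.cthickening (r / 2) (inn Ω r) ⊆ Ω := by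
    have h1 := cthickening_inn_subset hΩ (s := r / 2) (δ := r / 2) (by positivity) (by positivity)
    rw [add_halves] at h1
    exact h1.trans (inn_subset (by positivity))
  obtain ⟨c0, hc0, hu⟩ := h.pos_on_compact hΩ hK hKΩ
  refine ⟨4 * c0 * Real.exp (-4) / r, by positivity, fun k hk => ?_⟩
  have hball : ∀ x, x ∉ Ω → r ≤ ‖x - k‖ := by
    intro x hx
    by_contra hcon
    push Not at hcon
    exact hx (hk (by rwa [Metric.mem_ball, dist_eq_norm]))
  have hcmp := hopf_compare hΩ h (hopf_contDiff_barrier c0 r k)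
    (hopf_lip_barrier hc0.le hr k) (c0 := c0) (C := 16 * c0 / r ^ 2)
    (B := Metric.closedBall k (r / 2)) (by positivity)
    (by
      intro x
      change c0 * (Real.exp (-4 / r ^ 2 * ‖x - k‖ ^ 2) - Real.exp (-4)) ≤ c0
      have h1 : Real.exp (-4 / r ^ 2 * ‖x - k‖ ^ 2) ≤ 1 := by
        rw [Real.exp_le_one_iff]
        have : 0 ≤ 4 / r ^ 2 * ‖x - k‖ ^ 2 := by positivity
        have h2 : -4 / r ^ 2 * ‖x - k‖ ^ 2 = -(4 / r ^ 2 * ‖x - k‖ ^ 2) := by ring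
        linarith
      have h3 := Real.exp_pos (-4)
      nlinarith)
    (by
      intro x hx
      change c0 * (Real.exp (-4 / r ^ 2 * ‖x - k‖ ^ 2) - Real.exp (-4)) ≤ 0
      have h1 := hball x hx
      have h2 : Real.exp (-4 / r ^ 2 * ‖x - k‖ ^ 2) ≤ Real.exp (-4) := by
        rw [Real.exp_le_exp]
        have h3 : r ^ 2 ≤ ‖x - k‖ ^ 2 := pow_le_pow_left₀ hr.le h1 2
        have h4 : -4 / r ^ 2 * ‖x - k‖ ^ 2 = -(4 * (‖x - k‖ ^ 2 / r ^ 2)) := by ring
        rw [h4]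
        have h5 : 1 ≤ ‖x - k‖ ^ 2 / r ^ 2 := by
          rwa [one_le_div (by positivity)]
        linarith
      nlinarith)
    (by
      intro x hx
      rw [hopf_lap_barrier]
      rw [Metric.mem_closedBall, dist_eq_norm, not_le] at hx
      have h1 : (r / 2) ^ 2 ≤ ‖x - k‖ ^ 2 := pow_le_pow_left₀ (by positivity) hx.le 2
      refine mul_nonneg (by positivity) ?_
      have h2 : 64 * ‖x - k‖ ^ 2 / r ^ 4 - 16 / r ^ 2 =
          64 / r ^ 4 * (‖x - k‖ ^ 2 - (r / 2) ^ 2) := by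
        field_simp
        ring
      rw [h2]
      exact mul_nonneg (by positivity) (by linarith))
    (by
      intro x _
      rw [hopf_lap_barrier]
      have h1 : Real.exp (-4 / r ^ 2 * ‖x - k‖ ^ 2) ≤ 1 := by
        rw [Real.exp_le_one_iff]
        have : 0 ≤ 4 / r ^ 2 * ‖x - k‖ ^ 2 := by positivity
        have h2 : -4 / r ^ 2 * ‖x - k‖ ^ 2 = -(4 / r ^ 2 * ‖x - k‖ ^ 2) := by ring
        linarith
      have h2 : 0 ≤ 64 * ‖x - k‖ ^ 2 / r ^ 4 := by positivity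
      have h3 : 0 ≤ c0 * Real.exp (-4 / r ^ 2 * ‖x - k‖ ^ 2) := by positivity
      have h4 : c0 * Real.exp (-4 / r ^ 2 * ‖x - k‖ ^ 2) ≤ c0 := mul_le_of_le_one_right hc0.le h1
      have h5 : 0 ≤ 16 / r ^ 2 := by positivity
      have h6 : -(16 * c0 / r ^ 2) = - (c0 * (16 / r ^ 2)) := by ring
      rw [h6]
      nlinarith [mul_nonneg h3 h2, mul_le_mul_of_nonneg_right h4 h5])
    (by
      filter_upwards [hu] with x hx hxB
      refine hx (Metric.mem_cthickening_of_dist_le x k _ _ hk ?_)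
      simpa [Metric.mem_closedBall] using hxB)
  filter_upwards [hcmp] with x hx hxk
  refine le_trans ?_ hx
  rw [Metric.mem_ball, dist_eq_norm] at hxk
  change _ ≤ c0 * (Real.exp (-4 / r ^ 2 * ‖x - k‖ ^ 2) - Real.exp (-4))
  set s := ‖x - k‖ / r with hs
  have hs0 : 0 ≤ s := by positivity
  have hs1 : s ≤ 1 := by
    rw [hs, div_le_one hr]
    exact hxk.le
  have h1 : -4 / r ^ 2 * ‖x - k‖ ^ 2 = -4 + (4 - 4 * s ^ 2) := by
    rw [hs]
    field_simp
    ring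
  rw [h1, Real.exp_add]
  have h2 := Real.add_one_le_exp (4 - 4 * s ^ 2)
  have h3 : 4 * c0 * Real.exp (-4) / r * (r - ‖x - k‖) = c0 * (Real.exp (-4) * (4 * (1 - s))) := by
    rw [hs]
    field_simp
  rw [h3]
  refine mul_le_mul_of_nonneg_left ?_ hc0.le
  have h4 := Real.exp_pos (-4)
  have h5 : 4 * (1 - s) ≤ Real.exp (4 - 4 * s ^ 2) - 1 := by nlinarith
  nlinarith

/-! ### The bump -/

theorem hopf_hasDerivAt_posPart_pow (n : ℕ) (y : ℝ) :
    HasDerivAt (fun y : ℝ => (max y 0) ^ (n + 2)) ((n + 2 : ℕ) * (max y 0) ^ (n + 1)) y := by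
  have hne : ∀ y : ℝ, y ≠ 0 →
      HasDerivAt (fun y : ℝ => (max y 0) ^ (n + 2)) ((n + 2 : ℕ) * (max y 0) ^ (n + 1)) y := by
    intro y hy
    rcases lt_or_gt_of_ne hy with hlt | hgt
    · have h1 : (fun y : ℝ => (max y 0) ^ (n + 2)) =ᶠ[𝓝 y] fun _ => 0 := by
        filter_upwards [Iio_mem_nhds hlt] with z hz
        rw [max_eq_right (le_of_lt hz)]
        simp
      rw [max_eq_right hlt.le]
      simpa using (hasDerivAt_const y (0:ℝ)).congr_of_eventuallyEq h1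
    · have h1 : (fun y : ℝ => (max y 0) ^ (n + 2)) =ᶠ[𝓝 y] fun y => y ^ (n + 2) := by
        filter_upwards [Ioi_mem_nhds hgt] with z hz
        rw [max_eq_left (le_of_lt hz)]
      rw [max_eq_left hgt.le]
      exact (hasDerivAt_pow (n + 2) y).congr_of_eventuallyEq h1
  rcases eq_or_ne y 0 with rfl | hy
  · have h1 : Continuous (fun y : ℝ => (max y 0) ^ (n + 2)) := by fun_prop
    have h2 : Continuous (fun y : ℝ => ((n + 2 : ℕ) : ℝ) * (max y 0) ^ (n + 1)) := by fun_prop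
    exact hasDerivAt_of_hasDerivAt_of_ne (fun y hy => hne y hy) h1.continuousAt h2.continuousAt
  · exact hne y hy

/-- the profile of the bump -/
def bumpG (ρ t : ℝ) : ℝ := (max (4 * ρ ^ 2 - t) 0) ^ 4 / (3 * ρ ^ 2) ^ 4

theorem bumpG_hasDerivAt (ρ t : ℝ) : HasDerivAt (bumpG ρ)
    (-4 * (max (4 * ρ ^ 2 - t) 0) ^ 3 / (3 * ρ ^ 2) ^ 4) t := by
  have h1 : HasDerivAt (fun t : ℝ => 4 * ρ ^ 2 - t) (-1) t := by
    simpa using (hasDerivAt_id t).const_sub (4 * ρ ^ 2)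
  have h2 : HasDerivAt (bumpG ρ) _ t :=
    ((hopf_hasDerivAt_posPart_pow 2 (4 * ρ ^ 2 - t)).comp t h1).div_const ((3 * ρ ^ 2) ^ 4)
  refine h2.congr_deriv ?_
  push_cast
  ring

theorem bumpG_deriv (ρ : ℝ) :
    deriv (bumpG ρ) = fun t => -4 * (max (4 * ρ ^ 2 - t) 0) ^ 3 / (3 * ρ ^ 2) ^ 4 :=
  funext fun t => (bumpG_hasDerivAt ρ t).deriv

theorem bumpG_hasDerivAt2 (ρ t : ℝ) :
    HasDerivAt (fun t => -4 * (max (4 * ρ ^ 2 - t) 0) ^ 3 / (3 * ρ ^ 2) ^ 4)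
    (12 * (max (4 * ρ ^ 2 - t) 0) ^ 2 / (3 * ρ ^ 2) ^ 4) t := by
  have h1 : HasDerivAt (fun t : ℝ => 4 * ρ ^ 2 - t) (-1) t := by
    simpa using (hasDerivAt_id t).const_sub (4 * ρ ^ 2)
  have h2 : HasDerivAt (fun t => -4 * (max (4 * ρ ^ 2 - t) 0) ^ 3 / (3 * ρ ^ 2) ^ 4) _ t :=
    (((hopf_hasDerivAt_posPart_pow 1 (4 * ρ ^ 2 - t)).comp t h1).const_mul (-4)).div_const
      ((3 * ρ ^ 2) ^ 4)
  refine h2.congr_deriv ?_
  push_cast
  ring

theorem bumpG_contDiff (ρ : ℝ) : ContDiff ℝ 2 (bumpG ρ) := by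
  have h1 : ContDiff ℝ 1 (deriv (bumpG ρ)) := by
    rw [bumpG_deriv, contDiff_one_iff_deriv]
    refine ⟨fun t => (bumpG_hasDerivAt2 ρ t).differentiableAt, ?_⟩
    have : deriv (fun t => -4 * (max (4 * ρ ^ 2 - t) 0) ^ 3 / (3 * ρ ^ 2) ^ 4) =
        fun t => 12 * (max (4 * ρ ^ 2 - t) 0) ^ 2 / (3 * ρ ^ 2) ^ 4 :=
      funext fun t => (bumpG_hasDerivAt2 ρ t).deriv
    rw [this]
    fun_prop
  have h2 : ContDiff ℝ (1 + 1) (bumpG ρ) := by
    rw [contDiff_succ_iff_deriv]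
    exact ⟨fun t => (bumpG_hasDerivAt ρ t).differentiableAt, by simp, h1⟩
  exact h2

theorem hopf_Wf_eq (q' : ℂ) (ρ : ℝ) : Wf q' ρ = fun x => bumpG ρ (‖x - q'‖ ^ 2) := rfl

theorem hopf_contDiff_Wf (q' : ℂ) (ρ : ℝ) : ContDiff ℝ 2 (Wf q' ρ) := by
  rw [hopf_Wf_eq]
  exact (bumpG_contDiff ρ).comp ((contDiff_id.sub contDiff_const).norm_sq ℝ)

theorem hopf_lap_Wf (q' : ℂ) (ρ : ℝ) (x : ℂ) : lap (Wf q' ρ) x =
    64 * (max (4 * ρ ^ 2 - ‖x - q'‖ ^ 2) 0) ^ 2 * (‖x - q'‖ ^ 2 - ρ ^ 2) / (3 * ρ ^ 2) ^ 4 := by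
  rw [hopf_Wf_eq, lap_radial (bumpG_contDiff ρ) q' x]
  have h2 : deriv (deriv (bumpG ρ)) (‖x - q'‖ ^ 2) =
      12 * (max (4 * ρ ^ 2 - ‖x - q'‖ ^ 2) 0) ^ 2 / (3 * ρ ^ 2) ^ 4 := by
    rw [bumpG_deriv]
    exact (bumpG_hasDerivAt2 ρ _).deriv
  rw [h2, bumpG_deriv]
  beta_reduce
  rcases le_total (4 * ρ ^ 2 - ‖x - q'‖ ^ 2) 0 with hle | hge
  · rw [max_eq_right hle]
    ring
  · rw [max_eq_left hge]
    ring

theorem hopf_Wf_eq_zero {q' : ℂ} {ρ : ℝ} (hρ : 0 < ρ) {x : ℂ} (hx : 2 * ρ ≤ ‖x - q'‖) :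
    max (4 * ρ ^ 2 - ‖x - q'‖ ^ 2) 0 = 0 := by
  refine max_eq_right ?_
  have := pow_le_pow_left₀ (by positivity) hx 2
  nlinarith

theorem hopf_hasCompactSupport_Wf (q' : ℂ) {ρ : ℝ} (hρ : 0 < ρ) : HasCompactSupport (Wf q' ρ) := by
  refine HasCompactSupport.of_support_subset_isCompact
    (isCompact_closedBall q' (2 * ρ)) fun x hx => ?_
  by_contra hcon
  rw [Metric.mem_closedBall, dist_eq_norm, not_le] at hcon
  refine hx ?_
  simp [Wf, hopf_Wf_eq_zero hρ hcon.le]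

theorem hopf_hasCompactSupport_lap_Wf (q' : ℂ) {ρ : ℝ} (hρ : 0 < ρ) :
    HasCompactSupport (lap (Wf q' ρ)) := by
  refine HasCompactSupport.of_support_subset_isCompact
    (isCompact_closedBall q' (2 * ρ)) fun x hx => ?_
  by_contra hcon
  rw [Metric.mem_closedBall, dist_eq_norm, not_le] at hcon
  refine hx ?_
  rw [hopf_lap_Wf, hopf_Wf_eq_zero hρ hcon.le]
  simp

theorem hopf_Wf_nonneg (q' : ℂ) (ρ : ℝ) (x : ℂ) : 0 ≤ Wf q' ρ x := by
  unfold Wf
  positivity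

section flux
variable {Ω : Set ℂ} {φ : ℕ → ℂ → ℝ} {u : ℂ → ℝ}
    {V : ℂ → ℂ →L[ℝ] ℝ}

theorem GS.integrable_mul_Wf (h : GS Ω φ u V) (q' : ℂ) {ρ : ℝ} (hρ : 0 < ρ) :
    Integrable (fun x => u x * Wf q' ρ x) :=
  h.memu.integrable_mul ((hopf_contDiff_Wf q' ρ).continuous.memLp_of_hasCompactSupport
    (hopf_hasCompactSupport_Wf q' hρ) : MemLp (Wf q' ρ) 2 volume)

theorem GS.integrable_mul_lap_Wf (h : GS Ω φ u V) (q' : ℂ) {ρ : ℝ} (hρ : 0 < ρ) :
    Integrable (fun x => u x * lap (Wf q' ρ) x) :=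
  h.memu.integrable_mul ((hopf_continuous_lap (hopf_contDiff_Wf q' ρ)).memLp_of_hasCompactSupport
    (hopf_hasCompactSupport_lap_Wf q' hρ) : MemLp (lap (Wf q' ρ)) 2 volume)

theorem GS.flux_Wf_eq (hΩ : Dom Ω) (h : GS Ω φ u V) (q' : ℂ) {ρ : ℝ} (hρ : 0 < ρ) : flux Ω u V (Wf q' ρ) =
    ∫ x, (lam1 Ω * (u x * Wf q' ρ x) + u x * lap (Wf q' ρ) x) := by
  unfold flux
  rw [h.dot_lap hΩ (hopf_contDiff_Wf q' ρ) (hopf_hasCompactSupport_Wf q' hρ),
    integral_add ((h.integrable_mul_Wf q' hρ).const_mul _) (h.integrable_mul_lap_Wf q' hρ),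
    integral_const_mul]
  ring

theorem GS.mul_lap_Wf_nonneg (h : GS Ω φ u V) {q' : ℂ} {ρ : ℝ} (hρ : 0 < ρ)
    (hd : ∀ y ∈ Ω, ρ ≤ ‖y - q'‖) (x : ℂ) : 0 ≤ u x * lap (Wf q' ρ) x := by
  by_cases hx : x ∈ Ω
  · refine mul_nonneg (h.u_nonneg x) ?_
    rw [hopf_lap_Wf]
    have h1 : ρ ^ 2 ≤ ‖x - q'‖ ^ 2 := pow_le_pow_left₀ hρ.le (hd x hx) 2
    have h2 : 0 ≤ ‖x - q'‖ ^ 2 - ρ ^ 2 := by linarith
    positivity
  · rw [h.u_out x hx, zero_mul]

end flux

theorem GS.flux_W_pos {Ω : Set ℂ} (hΩ : Dom Ω) {φ : ℕ → ℂ → ℝ} {u : ℂ → ℝ}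
    {V : ℂ → ℂ →L[ℝ] ℝ} (h : GS Ω φ u V) {q' : ℂ} {ρ : ℝ} (hρ : 0 < ρ)
    (hd : ∀ y ∈ Ω, ρ ≤ ‖y - q'‖) (hi : ∃ y ∈ Ω, ‖y - q'‖ < 2 * ρ) :
    0 < flux Ω u V (Wf q' ρ) := by
  rw [h.flux_Wf_eq hΩ q' hρ]
  have hlam := lam1_pos hΩ
  have hnn : ∀ x, 0 ≤ lam1 Ω * (u x * Wf q' ρ x) + u x * lap (Wf q' ρ) x := fun x =>
    add_nonneg (mul_nonneg hlam.le (mul_nonneg (h.u_nonneg x) (hopf_Wf_nonneg q' ρ x)))
      (h.mul_lap_Wf_nonneg hρ hd x)
  rw [integral_pos_iff_support_of_nonneg_ae (Filter.Eventually.of_forall hnn)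
    (((h.integrable_mul_Wf q' hρ).const_mul _).add (h.integrable_mul_lap_Wf q' hρ))]
  obtain ⟨y, hy, hyq⟩ := hi
  have hopen : IsOpen (Ω ∩ Metric.ball q' (2 * ρ)) := hΩ.isOpen.inter Metric.isOpen_ball
  have hne : (Ω ∩ Metric.ball q' (2 * ρ)).Nonempty :=
    ⟨y, hy, by rwa [Metric.mem_ball, dist_eq_norm]⟩
  have hpos : 0 < volume (Ω ∩ Metric.ball q' (2 * ρ)) := hopen.measure_pos _ hne
  refine lt_of_lt_of_le hpos ?_
  refine measure_mono_ae ?_
  filter_upwards [h.pos_ae hΩ] with x hx hxm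
  have hux := hx hxm.1
  have hxb : ‖x - q'‖ < 2 * ρ := by
    have := hxm.2
    rwa [Metric.mem_ball, dist_eq_norm] at this
  have hW : 0 < Wf q' ρ x := by
    unfold Wf
    have h1 : 0 < 4 * ρ ^ 2 - ‖x - q'‖ ^ 2 := by nlinarith [norm_nonneg (x - q')]
    have h2 : 0 < max (4 * ρ ^ 2 - ‖x - q'‖ ^ 2) 0 := lt_max_of_lt_left h1
    positivity
  have h3 : 0 < lam1 Ω * (u x * Wf q' ρ x) := by positivity
  exact (add_pos_of_pos_of_nonneg h3 (h.mul_lap_Wf_nonneg hρ hd x)).ne'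

theorem GS.flux_W_lower {Ω : Set ℂ} (hΩ : Dom Ω) {φ : ℕ → ℂ → ℝ} {u : ℂ → ℝ}
    {V : ℂ → ℂ →L[ℝ] ℝ} (h : GS Ω φ u V) {r : ℝ} (hr : 0 < r) :
    ∃ c : ℝ, 0 < c ∧ ∀ (q' : ℂ) (ρ : ℝ) (k : ℂ), 0 < ρ → ρ ≤ r / 4 → (∀ y ∈ Ω, ρ ≤ ‖y - q'‖) →
      k ∈ inn Ω r → ‖q' - k‖ ≤ r + ρ + ρ / 16 → c * ρ ≤ flux Ω u V (Wf q' ρ) := by
  obtain ⟨c, hc, hu⟩ := h.hopf hΩ hr
  refine ⟨c / 5 * Real.pi / 256, by positivity, fun q' ρ k hρ hρr hd hk hqk => ?_⟩
  -- the distance from `q'` to `k`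
  have hqk' : r ≤ ‖k - q'‖ := by
    by_contra hcon
    push Not at hcon
    have h1 : q' ∈ Ω := hk (by
      rw [Metric.mem_ball, dist_eq_norm, norm_sub_rev]
      exact hcon)
    have h2 := hd q' h1
    rw [sub_self, norm_zero] at h2
    linarith
  set R := ‖k - q'‖ with hR
  have hR0 : 0 < R := lt_of_lt_of_le hr hqk'
  have hRle : R ≤ r + ρ + ρ / 16 := by rwa [hR, norm_sub_rev]
  set z0 : ℂ := q' + ((8 / 5 * ρ / R : ℝ) : ℂ) * (k - q') with hz0
  have hz1 : ‖z0 - q'‖ = 8 / 5 * ρ := by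
    rw [hz0, add_sub_cancel_left, norm_mul, Complex.norm_real, Real.norm_of_nonneg (by positivity),
      ← hR]
    field_simp
  have hz2 : ‖z0 - k‖ = R - 8 / 5 * ρ := by
    have h1 : z0 - k = ((8 / 5 * ρ / R - 1 : ℝ) : ℂ) * (k - q') := by
      rw [hz0]
      push_cast
      ring
    rw [h1, norm_mul, Complex.norm_real, ← hR, Real.norm_eq_abs, abs_of_nonpos]
    · field_simp
      ring
    · rw [sub_nonpos, div_le_one hR0]
      linarith
  have hlam := lam1_pos hΩ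
  rw [h.flux_Wf_eq hΩ q' hρ, integral_add ((h.integrable_mul_Wf q' hρ).const_mul _)
    (h.integrable_mul_lap_Wf q' hρ)]
  have h1 : 0 ≤ ∫ x, lam1 Ω * (u x * Wf q' ρ x) := integral_nonneg fun x =>
    mul_nonneg hlam.le (mul_nonneg (h.u_nonneg x) (hopf_Wf_nonneg q' ρ x))
  have h2 : ∫ x in Metric.ball z0 (ρ / 16), u x * lap (Wf q' ρ) x ≤
      ∫ x, u x * lap (Wf q' ρ) x :=
    setIntegral_le_integral (h.integrable_mul_lap_Wf q' hρ)
      (Filter.Eventually.of_forall (h.mul_lap_Wf_nonneg hρ hd))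
  have hvol : (volume (Metric.ball z0 (ρ / 16))) ≠ ⊤ := measure_ball_lt_top.ne
  have h3 : ∫ _x in Metric.ball z0 (ρ / 16), c / (5 * ρ) ≤
      ∫ x in Metric.ball z0 (ρ / 16), u x * lap (Wf q' ρ) x := by
    refine setIntegral_mono_on_ae (integrableOn_const hvol)
      (h.integrable_mul_lap_Wf q' hρ).integrableOn measurableSet_ball ?_
    filter_upwards [hu k hk] with x hx hxb
    rw [Metric.mem_ball, dist_eq_norm] at hxb
    have h4 : ‖x - k‖ ≤ r - 2 / 5 * ρ := by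
      have h5 : ‖x - k‖ ≤ ‖x - z0‖ + ‖z0 - k‖ := norm_sub_le_norm_sub_add_norm_sub _ _ _
      rw [hz2] at h5
      linarith
    have h6 := hx (by
      rw [Metric.mem_ball, dist_eq_norm]
      linarith)
    have h7 : c * (2 / 5 * ρ) ≤ u x := le_trans (mul_le_mul_of_nonneg_left (by linarith) hc.le) h6
    have h8 : ‖x - q'‖ ≤ 133 / 80 * ρ := by
      have h5 : ‖x - q'‖ ≤ ‖x - z0‖ + ‖z0 - q'‖ := norm_sub_le_norm_sub_add_norm_sub _ _ _
      rw [hz1] at h5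
      linarith
    have h9 : 123 / 80 * ρ ≤ ‖x - q'‖ := by
      have h5 : ‖z0 - q'‖ ≤ ‖z0 - x‖ + ‖x - q'‖ := norm_sub_le_norm_sub_add_norm_sub _ _ _
      rw [hz1, norm_sub_rev z0 x] at h5
      linarith
    have h10 : 2 * ρ ^ 2 ≤ ‖x - q'‖ ^ 2 := by nlinarith [norm_nonneg (x - q')]
    have h11 : ‖x - q'‖ ^ 2 ≤ 3 * ρ ^ 2 := by nlinarith [norm_nonneg (x - q')]
    have h12 : 1 / (2 * ρ ^ 2) ≤ lap (Wf q' ρ) x := by
      rw [hopf_lap_Wf, max_eq_left (by linarith)]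
      rw [div_le_div_iff₀ (by positivity) (by positivity)]
      have h13 : ρ ^ 2 ≤ 4 * ρ ^ 2 - ‖x - q'‖ ^ 2 := by linarith
      have h14 : ρ ^ 2 ≤ ‖x - q'‖ ^ 2 - ρ ^ 2 := by linarith
      have h15 : (ρ ^ 2) ^ 2 * ρ ^ 2 ≤
          (4 * ρ ^ 2 - ‖x - q'‖ ^ 2) ^ 2 * (‖x - q'‖ ^ 2 - ρ ^ 2) :=
        mul_le_mul (pow_le_pow_left₀ (by positivity) h13 2) h14 (by positivity) (sq_nonneg _)
      have h16 : 0 ≤ ρ ^ 8 := by positivity
      nlinarith [mul_le_mul_of_nonneg_right h15 (show (0:ℝ) ≤ 128 * ρ ^ 2 by positivity)]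
    calc c / (5 * ρ) = c * (2 / 5 * ρ) * (1 / (2 * ρ ^ 2)) := by
          field_simp
      _ ≤ u x * lap (Wf q' ρ) x :=
          mul_le_mul h7 h12 (by positivity) (h.u_nonneg x)
  have h5 : ∫ _x in Metric.ball z0 (ρ / 16), c / (5 * ρ) = c / 5 * Real.pi / 256 * ρ := by
    rw [setIntegral_const, Measure.real, Complex.volume_ball, ENNReal.toReal_mul,
      ENNReal.toReal_pow, ENNReal.toReal_ofReal (by positivity)]
    simp only [ENNReal.coe_toReal, NNReal.coe_real_pi, smul_eq_mul]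
    field_simp
    ring
  linarith

end

end Pool.Agent.Lib.MP_4cfb03_an
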