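import Pool.Agent.Lib.MP_4cfb03_an.Stab
import Pool.Agent.Lib.MP_4cfb03_an.Area
import Pool.Agent.Lib.MP_4cfb03_an.Ramp
import Pool.Agent.Lib.MP_4cfb03_an.Hopf
import Pool.Agent.Lib.MP_4cfb03_an.First

open MeasureTheory Set
open scoped ENNReal ContDiff Topology

namespace Pool.Agent.Lib.MP_4cfb03_an

noncomputable section

/-! ### elementary geometry of the chart -/

lemma norm_sq_complex (z : ℂ) : ‖z‖ ^ 2 = z.re ^ 2 + z.im ^ 2 := by
  rw [← Complex.normSq_eq_norm_sq, Complex.normSq_apply]; ring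

/-- existence of a subgradient at an interior point -/
lemma exists_subgrad {a b : ℝ} {f : ℝ → ℝ} (h : ConvexOn ℝ (Ioo a b) f) {m : ℝ}
    (hm : m ∈ Ioo a b) : ∃ μ : ℝ, ∀ x ∈ Ioo a b, f m + μ * (x - m) ≤ f x := by
  -- μ = inf of the slopes to the right
  set S : Set ℝ := (fun x => (f x - f m) / (x - m)) '' Ioo m b with hS
  have hne : S.Nonempty := by
    refine ⟨_, (m + b) / 2, ⟨by linarith [hm.2], by linarith [hm.2]⟩, rfl⟩
  have key : ∀ y ∈ Ioo a m, ∀ x ∈ Ioo m b, (f m - f y) / (m - y) ≤ (f x - f m) / (x - m) := by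
    intro y hy x hx
    have := h.slope_mono_adjacent (x := y) (y := m) (z := x) ⟨hy.1, hy.2.trans hm.2⟩
      ⟨hm.1.trans hx.1, hx.2⟩ hy.2 hx.1
    exact this
  have hbdd : BddBelow S := by
    refine ⟨(f m - f ((a + m) / 2)) / (m - (a + m) / 2), ?_⟩
    rintro _ ⟨x, hx, rfl⟩
    exact key _ ⟨by linarith [hm.1], by linarith [hm.1]⟩ x hx
  refine ⟨sInf S, fun x hx => ?_⟩
  rcases lt_trichotomy x m with hlt | heq | hgt
  · have h1 : (f m - f x) / (m - x) ≤ sInf S := by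
      apply le_csInf hne
      rintro _ ⟨y, hy, rfl⟩
      exact key x ⟨hx.1, hlt⟩ y hy
    have hpos : 0 < m - x := by linarith
    rw [div_le_iff₀ hpos] at h1
    nlinarith
  · subst heq; simp
  · have h1 : sInf S ≤ (f x - f m) / (x - m) := csInf_le hbdd ⟨x, ⟨hgt, hx.2⟩, rfl⟩
    have hpos : 0 < x - m := by linarith
    rw [le_div_iff₀ hpos] at h1
    linarith

/-- the subgradients are small in the chart -/
lemma subgrad_small {a b x0 ε : ℝ} {f : ℝ → ℝ} (hx0 : a ≤ x0) (hx0b : x0 + ε < b)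
    (hsl : ∀ x ∈ Ioo x0 (x0 + ε), ∀ y ∈ Ioo x0 (x0 + ε), |f x - f y| ≤ |x - y| / 10)
    {m μ : ℝ} (hm : m ∈ Ioo x0 (x0 + ε)) (hμ : ∀ x ∈ Ioo a b, f m + μ * (x - m) ≤ f x) :
    |μ| ≤ 1 / 10 := by
  have hA : ∀ x ∈ Ioo x0 (x0 + ε), μ * (x - m) ≤ |x - m| / 10 := by
    intro x hx
    have h1 := hμ x ⟨lt_of_le_of_lt hx0 hx.1, hx.2.trans hx0b⟩
    have h2 := hsl x hx m hm
    have h3 := le_abs_self (f x - f m)
    linarith
  rw [abs_le]
  constructor
  · have h1 := hA ((x0 + m) / 2) ⟨by linarith [hm.1], by linarith [hm.1, hm.2]⟩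
    have hneg : (x0 + m) / 2 - m < 0 := by linarith [hm.1]
    rw [abs_of_neg hneg] at h1
    nlinarith
  · have h1 := hA ((x0 + ε + m) / 2) ⟨by linarith [hm.1, hm.2], by linarith [hm.2]⟩
    have hneg : 0 < (x0 + ε + m) / 2 - m := by linarith [hm.2]
    rw [abs_of_pos hneg] at h1
    nlinarith

/-- the exterior disc at a boundary point of the graph -/
lemma exterior_disc {a b : ℝ} {f F : ℝ → ℝ} {m μ : ℝ}
    (hμ : ∀ x ∈ Ioo a b, f m + μ * (x - m) ≤ f x) {ρ : ℝ} (hρ : 0 < ρ) :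
    ∃ q' : ℂ, ‖q' - (⟨m, f m⟩ : ℂ)‖ = ρ ∧ ∀ y ∈ prof a b f F, ρ ≤ ‖y - q'‖ := by
  have hs : 0 < Real.sqrt (1 + μ ^ 2) := Real.sqrt_pos.mpr (by positivity)
  have hs2 : Real.sqrt (1 + μ ^ 2) ^ 2 = 1 + μ ^ 2 := Real.sq_sqrt (by positivity)
  set S := Real.sqrt (1 + μ ^ 2) with hS
  refine ⟨⟨m + ρ * μ / S, f m - ρ / S⟩, ?_, ?_⟩
  · have : ‖(⟨m + ρ * μ / S, f m - ρ / S⟩ : ℂ) - (⟨m, f m⟩ : ℂ)‖ ^ 2 = ρ ^ 2 := by
      rw [norm_sq_complex]
      simp only [Complex.sub_re, Complex.sub_im]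
      have : (m + ρ * μ / S - m) ^ 2 + (f m - ρ / S - f m) ^ 2 = ρ ^ 2 * (1 + μ ^ 2) / S ^ 2 := by
        field_simp; ring
      rw [this, hs2]
      field_simp
    have h0 := norm_nonneg ((⟨m + ρ * μ / S, f m - ρ / S⟩ : ℂ) - (⟨m, f m⟩ : ℂ))
    nlinarith [abs_of_nonneg h0, sq_abs ρ, abs_of_pos hρ,
      (sq_eq_sq₀ h0 hρ.le).mp this]
  · intro y hy
    obtain ⟨h1, h2, -⟩ := hy
    have h3 := hμ y.re h1
    -- inner product with the outer normal
    set z := y - (⟨m + ρ * μ / S, f m - ρ / S⟩ : ℂ) with hz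
    have hzr : z.re = y.re - (m + ρ * μ / S) := by simp [hz]
    have hzi : z.im = y.im - (f m - ρ / S) := by simp [hz]
    -- μ z.re - z.im ≤ - ρ S
    have h4 : z.im - μ * z.re ≥ ρ * S := by
      rw [hzr, hzi]
      have : ρ * S = ρ / S * (1 + μ ^ 2) := by
        rw [← hs2]; field_simp
      rw [this]
      have e1 : y.im - (f m - ρ / S) - μ * (y.re - (m + ρ * μ / S)) =
        (y.im - f m - μ * (y.re - m)) + ρ / S * (1 + μ ^ 2) := by
        field_simp; ring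
      rw [e1]
      linarith
    have h5 : (z.im - μ * z.re) ^ 2 ≤ (1 + μ ^ 2) * (z.re ^ 2 + z.im ^ 2) := by
      nlinarith [sq_nonneg (z.re + μ * z.im)]
    have h6 : (ρ * S) ^ 2 ≤ (z.im - μ * z.re) ^ 2 := by
      apply pow_le_pow_left₀ (by positivity) h4
    have h7 : ρ ^ 2 ≤ ‖z‖ ^ 2 := by
      rw [norm_sq_complex]
      have : ρ ^ 2 * (1 + μ ^ 2) ≤ (1 + μ ^ 2) * (z.re ^ 2 + z.im ^ 2) := by
        calc ρ ^ 2 * (1 + μ ^ 2) = (ρ * S) ^ 2 := by rw [mul_pow, hs2]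
          _ ≤ _ := h6.trans h5
      have hpos : (0 : ℝ) < 1 + μ ^ 2 := by positivity
      nlinarith
    exact le_of_sq_le_sq h7 (norm_nonneg z)

/-- the abscissa offset of a touching disc in the chart is small -/
lemma touch_offset {a b x0 ε r : ℝ} {f F : ℝ → ℝ} (h : CProf a b f F) (hr : 0 < r) (hx0 : a ≤ x0)
    (hx0b : x0 + ε < b)
    (hsl : ∀ x ∈ Ioo x0 (x0 + ε), ∀ y ∈ Ioo x0 (x0 + ε), |f x - f y| ≤ |x - y| / 10)
    {x q : ℝ} (ht : Touch a b f r x q) (hq : q ∈ Ioo x0 (x0 + ε)) : |q - x| ≤ r / 10 := by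
  obtain ⟨h1, h2⟩ := ht.subgrad h hr
  have h3 := subgrad_small hx0 hx0b hsl hq h2
  have hpos : 0 < r ^ 2 - (q - x) ^ 2 := by
    have := abs_lt.mp h1
    nlinarith
  have hS : 0 < Real.sqrt (r ^ 2 - (q - x) ^ 2) := Real.sqrt_pos.mpr hpos
  have hS2 : Real.sqrt (r ^ 2 - (q - x) ^ 2) ^ 2 = r ^ 2 - (q - x) ^ 2 := Real.sq_sqrt hpos.le
  rw [abs_div, abs_of_pos hS, div_le_iff₀ hS] at h3
  have hSr : Real.sqrt (r ^ 2 - (q - x) ^ 2) ≤ r := by
    rw [show r = Real.sqrt (r ^ 2) from (Real.sqrt_sq hr.le).symm]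
    apply Real.sqrt_le_sqrt
    rw [Real.sqrt_sq hr.le]
    nlinarith [sq_nonneg (q - x)]
  linarith

/-- boundary points near a touching point are close to the touching disc -/
lemma near_contact {a b x0 ε r : ℝ} {f F : ℝ → ℝ} (h : CProf a b f F) (hr : 0 < r)
    (hsl : ∀ x ∈ Ioo x0 (x0 + ε), ∀ y ∈ Ioo x0 (x0 + ε), |f x - f y| ≤ |x - y| / 10)
    (hx0 : a ≤ x0) (hx0b : x0 + ε < b)
    {x q m : ℝ} (ht : Touch a b f r x q) (hq : q ∈ Ioo x0 (x0 + ε)) (hm : m ∈ Ioo x0 (x0 + ε)) :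
    ‖(⟨m, f m⟩ : ℂ) - (⟨x, Lo f r x⟩ : ℂ)‖ ≤ r + (m - q) ^ 2 / r := by
  obtain ⟨h1, h2⟩ := ht.subgrad h hr
  have hpos : 0 < r ^ 2 - (q - x) ^ 2 := by
    have := abs_lt.mp h1
    nlinarith
  have hS : 0 < Real.sqrt (r ^ 2 - (q - x) ^ 2) := Real.sqrt_pos.mpr hpos
  have hS2 : Real.sqrt (r ^ 2 - (q - x) ^ 2) ^ 2 = r ^ 2 - (q - x) ^ 2 := Real.sq_sqrt hpos.le
  have hLo := ht.2.2.2
  have hmab : m ∈ Ioo a b := ⟨lt_of_le_of_lt hx0 hm.1, hm.2.trans hx0b⟩
  have h3 := h2 m hmab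
  have h4 := hsl m hm q hq
  set S := Real.sqrt (r ^ 2 - (q - x) ^ 2) with hSdef
  have h5 : (q - x) / S * (m - q) * S = (q - x) * (m - q) := by field_simp
  have h6 : (q - x) * (m - q) ≤ (f m - f q) * S := by
    have : (q - x) / S * (m - q) ≤ f m - f q := by linarith
    calc (q - x) * (m - q) = (q - x) / S * (m - q) * S := h5.symm
      _ ≤ _ := mul_le_mul_of_nonneg_right this hS.le
  have h7 : (f m - f q) ^ 2 ≤ (m - q) ^ 2 := by
    apply sq_le_sq.mpr
    have := abs_nonneg (m - q)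
    linarith
  have key : ‖(⟨m, f m⟩ : ℂ) - (⟨x, Lo f r x⟩ : ℂ)‖ ^ 2 ≤ (r + (m - q) ^ 2 / r) ^ 2 := by
    rw [norm_sq_complex]
    simp only [Complex.sub_re, Complex.sub_im]
    rw [hLo]
    have e1 : (m - x) ^ 2 + (f m - (f q + S)) ^ 2 = (q - x) ^ 2 + S ^ 2 +
      2 * ((q - x) * (m - q) - (f m - f q) * S) + (m - q) ^ 2 + (f m - f q) ^ 2 := by ring
    rw [e1, hS2]
    have e2 : (r + (m - q) ^ 2 / r) ^ 2 = r ^ 2 + 2 * (m - q) ^ 2 + ((m - q) ^ 2 / r) ^ 2 := by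
      field_simp
      ring
    rw [e2]
    nlinarith [sq_nonneg ((m - q) ^ 2 / r)]
  exact le_of_sq_le_sq key (by positivity)

/-- vertical room above the graph near a contact -/
lemma room {a b r : ℝ} {f F : ℝ → ℝ} (hr : 0 < r) {x y : ℝ} (h : CProf a b f F)
    (hx : x ∈ Icc (a + r) (b - r))
    (hD : Lo f r x ≤ Up F r x) (hxy : |y - x| ≤ r / 2) : f y + r < F y := by
  have h1 : (⟨x, Lo f r x⟩ : ℂ) ∈ inn (prof a b f F) r := by
    rw [inn_prof h hr]; exact ⟨hx, le_refl _, hD⟩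
  have hsq : (3 * r / 4) ^ 2 + (y - x) ^ 2 < r ^ 2 := by
    have := abs_le.mp hxy
    nlinarith
  have hA : (⟨y, Lo f r x + 3 * r / 4⟩ : ℂ) ∈ prof a b f F := by
    apply h1
    rw [Metric.mem_ball, dist_eq_norm]
    apply lt_of_pow_lt_pow_left₀ 2 hr.le
    rw [norm_sq_complex]
    simp only [Complex.sub_re, Complex.sub_im]
    linarith
  have hB : (⟨y, Lo f r x - 3 * r / 4⟩ : ℂ) ∈ prof a b f F := by
    apply h1
    rw [Metric.mem_ball, dist_eq_norm]
    apply lt_of_pow_lt_pow_left₀ 2 hr.le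
    rw [norm_sq_complex]
    simp only [Complex.sub_re, Complex.sub_im]
    nlinarith
  have h2 := hA.2.2
  have h3 := hB.2.1
  simp only at h2 h3
  linarith

/-- limit of a perturbation inequality -/
lemma limit_ineq {lam r m K C t0 : ℝ} (hlam : 0 ≤ lam) (hr : 0 < r) (hm : 0 ≤ m) (hK : 0 ≤ K)
    (hC : 0 ≤ C) (ht0 : 0 < t0)
    (H : ∀ t, 0 < t → t < t0 → lam * r ^ 2 ≤ (lam - t * m) * (r + t * K + C * t ^ 2) ^ 2) :
    m * r ≤ 2 * lam * K := by
  by_contra hcon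
  push Not at hcon
  -- for small t contradiction
  have hev : ∀ t, 0 < t → t < t0 → t ≤ 1 →
      0 ≤ 2 * lam * r * (K + C * t) - m * r ^ 2 + t * (lam * (K + C) ^ 2) := by
    intro t ht ht' ht1
    have h1 := H t ht ht'
    set K' := K + C * t with hK'
    have hK'0 : 0 ≤ K' := by positivity
    have hK'1 : K' ≤ K + C := by nlinarith
    have e : r + t * K + C * t ^ 2 = r + t * K' := by rw [hK']; ring
    rw [e] at h1
    have h2 : (lam - t * m) * (r + t * K') ^ 2 ≤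
        lam * r ^ 2 + t * (2 * lam * r * K' - m * r ^ 2) + t ^ 2 * (lam * K' ^ 2) := by
      have : (lam - t * m) * (r + t * K') ^ 2 = lam * r ^ 2 + t * (2 * lam * r * K' - m * r ^ 2)
        + t ^ 2 * (lam * K' ^ 2) - t * m * (2 * r * t * K' + t ^ 2 * K' ^ 2) := by ring
      rw [this]
      have : 0 ≤ t * m * (2 * r * t * K' + t ^ 2 * K' ^ 2) := by positivity
      linarith
    have h3 : 0 ≤ t * (2 * lam * r * K' - m * r ^ 2 + t * (lam * K' ^ 2)) := by nlinarith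
    have h4 : 0 ≤ 2 * lam * r * K' - m * r ^ 2 + t * (lam * K' ^ 2) :=
      nonneg_of_mul_nonneg_right h3 ht
    have h5 : t * (lam * K' ^ 2) ≤ t * (lam * (K + C) ^ 2) := by
      apply mul_le_mul_of_nonneg_left _ ht.le
      apply mul_le_mul_of_nonneg_left _ hlam
      exact pow_le_pow_left₀ hK'0 hK'1 2
    linarith
  set δ := m * r - 2 * lam * K with hδ
  have hδpos : 0 < δ := by rw [hδ]; linarith
  set B := 2 * lam * r * C + lam * (K + C) ^ 2 with hB
  have hB0 : 0 ≤ B := by positivity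
  have hex : ∃ t, 0 < t ∧ t < t0 ∧ t ≤ 1 ∧ t * B < r * δ := by
    refine ⟨min (min (t0 / 2) 1) (r * δ / (2 * (B + 1))), by positivity, ?_, ?_, ?_⟩
    · exact lt_of_le_of_lt ((min_le_left _ _).trans (min_le_left _ _)) (by linarith)
    · exact (min_le_left _ _).trans (min_le_right _ _)
    · have h1 : min (min (t0 / 2) 1) (r * δ / (2 * (B + 1))) ≤ r * δ / (2 * (B + 1)) :=
        min_le_right _ _
      have h2 : r * δ / (2 * (B + 1)) * B < r * δ := by
        rw [div_mul_eq_mul_div, div_lt_iff₀ (by positivity)]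
        have : 0 < r * δ := by positivity
        nlinarith
      exact lt_of_le_of_lt (mul_le_mul_of_nonneg_right h1 hB0) h2
  obtain ⟨t, h1, h2, h3, h4⟩ := hex
  have h5 := hev t h1 h2 h3
  have : 2 * lam * r * (K + C * t) - m * r ^ 2 + t * (lam * (K + C) ^ 2) = t * B - r * δ := by
    rw [hB, hδ]; ring
  rw [this] at h5
  linarith

/-! ### using minimality -/

lemma h1_pos {Ω : Set ℂ} (hΩ : Dom Ω) : 0 < h1 Ω := by
  obtain ⟨r, hr, har⟩ := exists_radius hΩ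
  exact lt_of_lt_of_le (by positivity) (inv_le_h1 hΩ hr har.le)

lemma h1_eq {Ω : Set ℂ} (hΩ : Dom Ω) {r : ℝ} (hr : 0 < r) (har : ar (inn Ω r) = Real.pi * r ^ 2) :
    h1 Ω = 1 / r := le_antisymm (h1_le hΩ hr har) (inv_le_h1 hΩ hr har.le)

lemma min_ineq {Ω : Set ℂ} (hΩ : Dom Ω) (hmin : ∀ Ω' : Set ℂ, Dom Ω' → J Ω ≤ J Ω') {r : ℝ}
    (hr : 0 < r) (har : ar (inn Ω r) = Real.pi * r ^ 2) {Ω' : Set ℂ} (hΩ' : Dom Ω') :
    lam1 Ω * r ^ 2 ≤ lam1 Ω' * (1 / h1 Ω') ^ 2 := by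
  have h1 := hmin Ω' hΩ'
  unfold J at h1
  rw [h1_eq hΩ hr har] at h1
  have hpos := h1_pos hΩ'
  have e1 : lam1 Ω / (1 / r) ^ 2 = lam1 Ω * r ^ 2 := by field_simp
  have e2 : lam1 Ω' / MP_4cfb03_an.h1 Ω' ^ 2 = lam1 Ω' * (1 / MP_4cfb03_an.h1 Ω') ^ 2 := by
    field_simp
  rw [e1, e2] at h1
  exact h1

lemma Dpos (S : Set ℂ) {r : ℝ} (hr : 0 < r) : 0 < mw S + 2 * Real.pi * r := by
  have := mw_nonneg S
  have := Real.pi_pos
  positivity

/-- first order optimality for an outward tent -/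
lemma first_bound {a b : ℝ} {f F : ℝ → ℝ} (h : CProf a b f F)
    (hmin : ∀ Ω' : Set ℂ, Dom Ω' → J (prof a b f F) ≤ J Ω') {r : ℝ} (hr : 0 < r)
    (har : ar (inn (prof a b f F) r) = Real.pi * r ^ 2)
    {φ : ℕ → ℂ → ℝ} {u : ℂ → ℝ}
    {V : ℂ → ℂ →L[ℝ] ℝ} (hG : GS (prof a b f F) φ u V) {α β : ℝ} (hα : a < α) (hαβ : α < β)
    (hβ : β < b) (hf : LipschitzOnWith 1 f (Icc α β)) {g : ℝ → ℝ} (hg : ∃ K, LipschitzWith K g)
    (hg0 : ∀ x, 0 ≤ g x) (hg1 : ∀ x, g x ≤ 1) (hgs : ∀ x, x ∉ Icc α β → g x = 0)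
    {t0 : ℝ} (ht0 : 0 < t0)
    (hcv : ∀ t : ℝ, 0 < t → t < t0 → ConvexOn ℝ (Ioo a b) (fun x => f x - t * g x))
    {q' : ℂ} {ρ μ y0 : ℝ} (hρ : 0 < ρ) (hμ : 0 < μ)
    (hflux : μ ≤ flux (prof a b f F) u V (Wf q' ρ))
    (hd : ∀ y ∈ prof a b f F, ρ ≤ ‖y - q'‖) (hy0 : 0 < y0)
    (hy : ∀ x ∈ Icc α β, f x + 3 * y0 < F x)
    (hW : ∀ z ∈ prof a b f F, ‖z - q'‖ < 2 * ρ → 1 / 4 ≤ g z.re ∧ z.im ≤ f z.re + y0) :
    μ ^ 2 / (400 * (β - α)) * r * (mw (inn (prof a b f F) r) + 2 * Real.pi * r) ≤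
      2 * lam1 (prof a b f F) * (volume (kset a b f F r α β)).toReal := by
  set Ω := prof a b f F with hΩdef
  have hΩ : Dom Ω := h.dom
  set D := mw (inn Ω r) + 2 * Real.pi * r with hD
  have hDpos : 0 < D := Dpos _ hr
  set κ := (volume (kset a b f F r α β)).toReal with hκ
  have hκ0 : 0 ≤ κ := ENNReal.toReal_nonneg
  have hlam := lam1_pos hΩ
  set m := μ ^ 2 / (400 * (β - α)) with hm
  have hm0 : 0 ≤ m := by
    have : 0 < β - α := by linarith
    positivity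
  obtain ⟨C, hC, τ0, hτ0, hstab⟩ := h1_stability hΩ hr har
  have hcv' : ∀ t, 0 < t → t < t0 → ConvexOn ℝ (Ioo a b) (fun x => f x + t * (-g x)) := by
    intro t ht ht'
    have := hcv t ht ht'
    have e : (fun x => f x + t * (-g x)) = (fun x => f x - t * g x) := by funext x; ring
    rw [e]; exact this
  obtain ⟨t1, ht1, hper⟩ := h.perturb hα hβ (g := fun x => - g x)
    (fun x => by rw [abs_neg, abs_of_nonneg (hg0 x)]; exact hg1 x)
    (fun x hx => by rw [hgs x hx, neg_zero]) ht0 hcv'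
  obtain ⟨t2, ht2, hfo⟩ := first_order h hG hα hαβ hβ hf hg hg0 hg1 hgs hρ hμ hflux hd hy0 hy hW
  have main : ∀ η : ℝ, 0 < η → m * r * D ≤ 2 * lam1 Ω * (κ + η) := by
    intro η hη
    obtain ⟨K, hK⟩ := hg
    obtain ⟨t3, ht3, har1⟩ := area_first h hr hα hαβ hβ hK.continuous hg0 hg1 hgs hη
    have key : ∀ t, 0 < t → t < min (min t1 t2) (min t3 (τ0 / 2)) →
        lam1 Ω * r ^ 2 ≤ (lam1 Ω - t * m) * (r + t * ((κ + η) / D) + (4 * C) * t ^ 2) ^ 2 := by
      intro t ht htm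
      have hlt1 : t < t1 := lt_of_lt_of_le htm ((min_le_left _ _).trans (min_le_left _ _))
      have hlt2 : t < t2 := lt_of_lt_of_le htm ((min_le_left _ _).trans (min_le_right _ _))
      have hlt3 : t < t3 := lt_of_lt_of_le htm ((min_le_right _ _).trans (min_le_left _ _))
      have hlt4 : t < τ0 / 2 := lt_of_lt_of_le htm ((min_le_right _ _).trans (min_le_right _ _))
      obtain ⟨hp1, hp2, hp3⟩ := hper t ht hlt1
      have e : (fun x => f x + t * (-g x)) = (fun x => f x - t * g x) := by funext x; ring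
      rw [e] at hp1 hp2 hp3
      have hdt := hp1.dom
      have hA := har1 t ht hlt3 hp1
      have hF := hfo t ht hlt2 hp1
      have hS := hstab _ hdt (2 * t) (by linarith) (by linarith) hp2 hp3
      have hM := min_ineq hΩ hmin hr har hdt
      have hh := h1_pos hdt
      have hl := lam1_pos hdt
      rw [har] at hA
      have hS' : 1 / h1 (prof a b (fun x => f x - t * g x) F) ≤
          r + t * ((κ + η) / D) + (4 * C) * t ^ 2 := by
        refine hS.trans ?_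
        have h5 : (ar (inn (prof a b (fun x => f x - t * g x) F) r) - Real.pi * r ^ 2) / D ≤
            t * ((κ + η) / D) := by
          rw [← mul_div_assoc]
          apply div_le_div_of_nonneg_right _ hDpos.le
          linarith
        have h6 : C * (2 * t) ^ 2 = 4 * C * t ^ 2 := by ring
        linarith
      have h0 : 0 ≤ 1 / h1 (prof a b (fun x => f x - t * g x) F) := by positivity
      calc lam1 Ω * r ^ 2 ≤ _ := hM
        _ ≤ (lam1 Ω - t * m) * (1 / h1 (prof a b (fun x => f x - t * g x) F)) ^ 2 :=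
            mul_le_mul_of_nonneg_right hF (by positivity)
        _ ≤ _ := by
            apply mul_le_mul_of_nonneg_left _ (hl.le.trans hF)
            exact pow_le_pow_left₀ h0 hS' 2
    have hlim := limit_ineq (K := (κ + η) / D) (C := 4 * C) hlam.le hr hm0 (by positivity)
      (by positivity) (by positivity) key
    calc m * r * D ≤ 2 * lam1 Ω * ((κ + η) / D) * D := mul_le_mul_of_nonneg_right hlim hDpos.le
      _ = _ := by field_simp
  by_contra hcon
  push Not at hcon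
  set δ := m * r * D - 2 * lam1 Ω * κ with hδ
  have hδ0 : 0 < δ := by rw [hδ]; linarith
  have h7 := main (δ / (4 * lam1 Ω)) (by positivity)
  have h8 : 2 * lam1 Ω * (κ + δ / (4 * lam1 Ω)) = 2 * lam1 Ω * κ + δ / 2 := by
    field_simp
    ring
  rw [h8] at h7
  linarith

lemma lip_of_chart {x0 ε α β : ℝ} {f : ℝ → ℝ}
    (hsl : ∀ x ∈ Ioo x0 (x0 + ε), ∀ y ∈ Ioo x0 (x0 + ε), |f x - f y| ≤ |x - y| / 10)
    (hα : x0 < α) (hβ : β < x0 + ε) : LipschitzOnWith 1 f (Icc α β) := by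
  apply LipschitzOnWith.of_dist_le_mul
  intro x hx y hy
  rw [Real.dist_eq, Real.dist_eq]
  have := hsl x ⟨hα.trans_le hx.1, hx.2.trans_lt hβ⟩ y ⟨hα.trans_le hy.1, hy.2.trans_lt hβ⟩
  have h0 := abs_nonneg (x - y)
  simp only [NNReal.coe_one, one_mul]
  linarith

/-- the geometric conditions for the flux test, near the boundary point above `m0` -/
lemma geo_cond {a b x0 ε : ℝ} {f F : ℝ → ℝ}
    (hsl : ∀ x ∈ Ioo x0 (x0 + ε), ∀ y ∈ Ioo x0 (x0 + ε), |f x - f y| ≤ |x - y| / 10)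
    {m0 ρ d y0 : ℝ} (hρ : 0 < ρ) (hd1 : x0 < m0 - d) (hd2 : m0 + d < x0 + ε) (hρd : 3 * ρ ≤ d)
    (hρy : 4 * ρ ≤ y0) {g : ℝ → ℝ} (hg : ∀ x, |x - m0| ≤ d → 1 / 4 ≤ g x) {q' : ℂ}
    (hq' : ‖q' - (⟨m0, f m0⟩ : ℂ)‖ = ρ) :
    ∀ z ∈ prof a b f F, ‖z - q'‖ < 2 * ρ → 1 / 4 ≤ g z.re ∧ z.im ≤ f z.re + y0 := by
  intro z _ hz
  have h1 : ‖z - (⟨m0, f m0⟩ : ℂ)‖ < 3 * ρ := by
    have e : z - (⟨m0, f m0⟩ : ℂ) = (z - q') + (q' - ⟨m0, f m0⟩) := by ring
    rw [e]
    refine (norm_add_le _ _).trans_lt ?_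
    rw [hq']; linarith
  have h2 : |z.re - m0| < 3 * ρ := by
    refine lt_of_le_of_lt ?_ h1
    have := Complex.abs_re_le_norm (z - (⟨m0, f m0⟩ : ℂ))
    simpa using this
  have h3 : |z.im - f m0| < 3 * ρ := by
    refine lt_of_le_of_lt ?_ h1
    have := Complex.abs_im_le_norm (z - (⟨m0, f m0⟩ : ℂ))
    simpa using this
  have h2' := abs_lt.mp h2
  have h3' := abs_lt.mp h3
  refine ⟨hg _ (h2.le.trans hρd), ?_⟩
  have h4 := hsl z.re ⟨by linarith, by linarith⟩ m0 ⟨by linarith, by linarith⟩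
  have h5 := abs_le.mp h4
  linarith

lemma kset_pos {a b x0 ε : ℝ} {f F : ℝ → ℝ} (h : CProf a b f F)
    (hmin : ∀ Ω' : Set ℂ, Dom Ω' → J (prof a b f F) ≤ J Ω') (hx0 : a ≤ x0) (hx0b : x0 + ε < b)
    (hsl : ∀ x ∈ Ioo x0 (x0 + ε), ∀ y ∈ Ioo x0 (x0 + ε), |f x - f y| ≤ |x - y| / 10)
    {r : ℝ} (hr : 0 < r) (har : ar (inn (prof a b f F) r) = Real.pi * r ^ 2)
    {p q η : ℝ} (hη : 0 < η) (hpq : 16 * η ≤ q - p) (hp : x0 < p - η) (hq : q + η < x0 + ε)
    (hnp : NonAff f p) (hnq : NonAff f q) :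
    0 < (volume (kset a b f F r (p - η) (q + η))).toReal := by
  obtain ⟨φ, u, V, hG⟩ := exists_GS h.dom
  have hα : a < p - η := lt_of_le_of_lt hx0 hp
  have hβ : q + η < b := hq.trans hx0b
  have hαβ : p - η < q + η := by linarith
  obtain ⟨g, hgL, hg0, hg1, hgs, hgm, t0, ht0, hcv⟩ := exists_tent2 h hη hα hpq hβ hnp hnq
  have hf := lip_of_chart hsl hp hq
  set m0 := (p + q) / 2 with hm0
  have hm0c : m0 ∈ Ioo a b := ⟨by rw [hm0]; linarith, by rw [hm0]; linarith⟩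
  obtain ⟨μs, hμs⟩ := exists_subgrad h.cvx hm0c
  -- vertical room
  have hab1 : p - η ∈ Ioo a b := ⟨hα, by linarith⟩
  have hab2 : q + η ∈ Ioo a b := ⟨by linarith, hβ⟩
  set y0 := min (F (p - η) - f (p - η)) (F (q + η) - f (q + η)) / 4 with hy0def
  have hmn : 0 < min (F (p - η) - f (p - η)) (F (q + η) - f (q + η)) :=
    lt_min (by linarith [h.fF _ hab1]) (by linarith [h.fF _ hab2])
  have hy0 : 0 < y0 := by rw [hy0def]; positivity
  have hy : ∀ x ∈ Icc (p - η) (q + η), f x + 3 * y0 < F x := by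
    intro x hx
    have hc : ConcaveOn ℝ (Ioo a b) (F - f) := h.ccv.sub h.cvx
    have h1 := hc.min_le_of_mem_Icc hab1 hab2 hx
    simp only [Pi.sub_apply] at h1
    have h2 : 4 * y0 ≤ F x - f x := by
      rw [hy0def]; linarith
    linarith
  set ρ := min ((q - p) / 64) (y0 / 4) with hρdef
  have hρ : 0 < ρ := lt_min (by linarith) (by linarith)
  have hρ1 : ρ ≤ (q - p) / 64 := min_le_left _ _
  have hρ2 : ρ ≤ y0 / 4 := min_le_right _ _
  obtain ⟨q', hq', hd⟩ := exterior_disc (F := F) hμs hρ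
  have hW := geo_cond (a := a) (b := b) (F := F) hsl (m0 := m0) (ρ := ρ) (d := (q - p) / 8)
    (y0 := y0) hρ (by rw [hm0]; linarith) (by rw [hm0]; linarith) (by linarith) (by linarith)
    hgm hq'
  have hi : ∃ y ∈ prof a b f F, ‖y - q'‖ < 2 * ρ := by
    refine ⟨⟨m0, f m0 + min (ρ / 2) ((F m0 - f m0) / 2)⟩, ⟨hm0c, ?_, ?_⟩, ?_⟩
    · have := h.fF m0 hm0c
      have : 0 < min (ρ / 2) ((F m0 - f m0) / 2) := lt_min (by linarith) (by linarith)
      simp only; linarith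
    · have := h.fF m0 hm0c
      have := min_le_right (ρ / 2) ((F m0 - f m0) / 2)
      simp only; linarith
    · have e : (⟨m0, f m0 + min (ρ / 2) ((F m0 - f m0) / 2)⟩ : ℂ) - q' =
        ((⟨m0, f m0 + min (ρ / 2) ((F m0 - f m0) / 2)⟩ : ℂ) - ⟨m0, f m0⟩) -
          (q' - ⟨m0, f m0⟩) := by ring
      rw [e]
      refine (norm_sub_le _ _).trans_lt ?_
      rw [hq']
      have h2 : 0 < min (ρ / 2) ((F m0 - f m0) / 2) := lt_min (by linarith)
        (by linarith [h.fF m0 hm0c])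
      have h1 : ‖(⟨m0, f m0 + min (ρ / 2) ((F m0 - f m0) / 2)⟩ : ℂ) - ⟨m0, f m0⟩‖ ^ 2 =
          (min (ρ / 2) ((F m0 - f m0) / 2)) ^ 2 := by
        rw [norm_sq_complex]
        simp
      have h3 : ‖(⟨m0, f m0 + min (ρ / 2) ((F m0 - f m0) / 2)⟩ : ℂ) - ⟨m0, f m0⟩‖ =
          min (ρ / 2) ((F m0 - f m0) / 2) := (sq_eq_sq₀ (norm_nonneg _) h2.le).mp h1
      rw [h3]
      have := min_le_left (ρ / 2) ((F m0 - f m0) / 2)
      linarith
  have hflux := hG.flux_W_pos h.dom hρ hd hi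
  have hfb := first_bound h hmin hr har hG hα hαβ hβ hf hgL hg0 hg1 hgs ht0 hcv hρ hflux le_rfl
    hd hy0 hy hW
  have hD := Dpos (inn (prof a b f F) r) hr
  have hlam := lam1_pos h.dom
  have hL : 0 < flux (prof a b f F) u V (Wf q' ρ) ^ 2 / (400 * (q + η - (p - η))) * r *
      (mw (inn (prof a b f F) r) + 2 * Real.pi * r) := by
    have : 0 < q + η - (p - η) := by linarith
    positivity
  have h9 : 0 < 2 * lam1 (prof a b f F) *
      (volume (kset a b f F r (p - η) (q + η))).toReal := hL.trans_le hfb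
  exact (mul_pos_iff_of_pos_left (by positivity)).mp h9

lemma kset_lower {a b x0 ε : ℝ} {f F : ℝ → ℝ} (h : CProf a b f F)
    (hmin : ∀ Ω' : Set ℂ, Dom Ω' → J (prof a b f F) ≤ J Ω') (hx0 : a ≤ x0) (hx0b : x0 + ε < b)
    (hsl : ∀ x ∈ Ioo x0 (x0 + ε), ∀ y ∈ Ioo x0 (x0 + ε), |f x - f y| ≤ |x - y| / 10)
    {r : ℝ} (hr : 0 < r) (har : ar (inn (prof a b f F) r) = Real.pi * r ^ 2) :
    ∃ c1 : ℝ, 0 < c1 ∧ ∀ p q η : ℝ, 0 < η → 16 * η ≤ q - p → x0 < p - η → q + η < x0 + ε →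
      q - p ≤ r / 2000 → NonAff f p → NonAff f q →
      c1 * (q - p) ≤ (volume (kset a b f F r (p - η) (q + η))).toReal := by
  obtain ⟨φ, u, V, hG⟩ := exists_GS h.dom
  obtain ⟨cW, hcW, hflow⟩ := hG.flux_W_lower h.dom hr
  set D := mw (inn (prof a b f F) r) + 2 * Real.pi * r with hDdef
  have hD : 0 < D := Dpos _ hr
  have hlam := lam1_pos h.dom
  refine ⟨cW ^ 2 * r * D / (2 * lam1 (prof a b f F) * 4096 * 450), by positivity, ?_⟩
  intro p q η hη hpq hp hq hL hnp hnq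
  have hα : a < p - η := lt_of_le_of_lt hx0 hp
  have hβ : q + η < b := hq.trans hx0b
  have hαβ : p - η < q + η := by linarith
  have hLpos : 0 < q - p := by linarith
  obtain ⟨g, hgL, hg0, hg1, hgs, hgm, t0, ht0, hcv⟩ := exists_tent2 h hη hα hpq hβ hnp hnq
  have hf := lip_of_chart hsl hp hq
  have hkpos := kset_pos h hmin hx0 hx0b hsl hr har hη hpq hp hq hnp hnq
  -- a contact
  have hne : (kset a b f F r (p - η) (q + η)).Nonempty := by
    by_contra hcon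
    rw [Set.not_nonempty_iff_eq_empty] at hcon
    rw [hcon] at hkpos
    simp at hkpos
  obtain ⟨x, hxD, q0, hq0, ht⟩ := hne
  have hq0c : q0 ∈ Ioo x0 (x0 + ε) := ⟨hp.trans_le hq0.1, hq0.2.trans_lt hq⟩
  have hoff := touch_offset h hr hx0 hx0b hsl ht hq0c
  have hk : (⟨x, Lo f r x⟩ : ℂ) ∈ inn (prof a b f F) r := by
    rw [inn_prof h hr]; exact ⟨ht.1, le_refl _, hxD⟩
  set m0 := (p + q) / 2 with hm0
  have hm0x : m0 ∈ Ioo x0 (x0 + ε) := ⟨by rw [hm0]; linarith, by rw [hm0]; linarith⟩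
  have hm0c : m0 ∈ Ioo a b := ⟨by rw [hm0]; linarith, by rw [hm0]; linarith⟩
  obtain ⟨μs, hμs⟩ := exists_subgrad h.cvx hm0c
  have hnear := near_contact h hr hsl hx0 hx0b ht hq0c hm0x
  set ρ := (q - p) / 64 with hρdef
  have hρ : 0 < ρ := by rw [hρdef]; positivity
  obtain ⟨q', hq', hd⟩ := exterior_disc (F := F) hμs hρ
  have hdist : |m0 - q0| ≤ q - p := by
    rw [abs_le]; constructor
    · rw [hm0]; linarith [hq0.2]
    · rw [hm0]; linarith [hq0.1]
  have hq'k : ‖q' - (⟨x, Lo f r x⟩ : ℂ)‖ ≤ r + ρ + ρ / 16 := by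
    have e : q' - (⟨x, Lo f r x⟩ : ℂ) = (q' - ⟨m0, f m0⟩) + (⟨m0, f m0⟩ - ⟨x, Lo f r x⟩) := by ring
    rw [e]
    refine (norm_add_le _ _).trans ?_
    rw [hq']
    have h1 : (m0 - q0) ^ 2 / r ≤ ρ / 16 := by
      rw [div_le_iff₀ hr, hρdef]
      have h2 : (m0 - q0) ^ 2 ≤ (q - p) ^ 2 := by
        apply sq_le_sq'
        · linarith [(abs_le.mp hdist).1]
        · exact (abs_le.mp hdist).2
      nlinarith
    linarith
  have hy : ∀ y ∈ Icc (p - η) (q + η), f y + 3 * (r / 4) < F y := by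
    intro y hy
    have h1 : |y - x| ≤ r / 2 := by
      have e : y - x = (y - q0) + (q0 - x) := by ring
      rw [e]
      refine (abs_add_le _ _).trans ?_
      have h2 : |y - q0| ≤ 2 * (q - p) := by
        rw [abs_le]; constructor
        · linarith [hy.1, hq0.2]
        · linarith [hy.2, hq0.1]
      linarith
    have := room hr h ht.1 hxD h1
    linarith
  have hW := geo_cond (a := a) (b := b) (F := F) hsl (m0 := m0) (ρ := ρ) (d := (q - p) / 8)
    (y0 := r / 4) hρ (by rw [hm0]; linarith) (by rw [hm0]; linarith) (by rw [hρdef]; linarith)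
    (by rw [hρdef]; linarith) hgm hq'
  have hflux := hflow q' ρ _ hρ (by rw [hρdef]; linarith) hd hk hq'k
  have hfb := first_bound h hmin hr har hG hα hαβ hβ hf hgL hg0 hg1 hgs ht0 hcv hρ (by positivity)
    hflux hd (by positivity) hy hW
  rw [← hDdef] at hfb
  have hβα : q + η - (p - η) ≤ 9 / 8 * (q - p) := by linarith
  have hβα0 : 0 < q + η - (p - η) := by linarith
  have h1 : cW ^ 2 * (q - p) / (4096 * 450) ≤ (cW * ρ) ^ 2 / (400 * (q + η - (p - η))) := by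
    rw [hρdef, div_le_div_iff₀ (by positivity) (by positivity)]
    have h3 : 0 ≤ cW ^ 2 * (q - p) := by positivity
    calc cW ^ 2 * (q - p) * (400 * (q + η - (p - η)))
        ≤ cW ^ 2 * (q - p) * (400 * (9 / 8 * (q - p))) := by
          apply mul_le_mul_of_nonneg_left _ h3
          linarith
      _ = (cW * ((q - p) / 64)) ^ 2 * (4096 * 450) := by ring
  have h2 : cW ^ 2 * (q - p) / (4096 * 450) * r * D ≤
      2 * lam1 (prof a b f F) * (volume (kset a b f F r (p - η) (q + η))).toReal := by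
    refine le_trans ?_ hfb
    apply mul_le_mul_of_nonneg_right _ hD.le
    exact mul_le_mul_of_nonneg_right h1 hr.le
  have e : cW ^ 2 * r * D / (2 * lam1 (prof a b f F) * 4096 * 450) * (q - p) =
    (cW ^ 2 * (q - p) / (4096 * 450) * r * D) / (2 * lam1 (prof a b f F)) := by
    field_simp
  rw [e, div_le_iff₀ (by positivity)]
  linarith

/-- a contact abscissa in the interior -/
lemma exists_good_x {a b : ℝ} {f F : ℝ → ℝ} (h : CProf a b f F) {r : ℝ} (hr : 0 < r)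
    (har : ar (inn (prof a b f F) r) = Real.pi * r ^ 2) {α β : ℝ}
    (hpos : 0 < (volume (kset a b f F r α β)).toReal) :
    ∃ x q, q ∈ Icc α β ∧ Touch a b f r x q ∧ Lo f r x < Up F r x := by
  by_contra hcon
  push Not at hcon
  -- then Up = Lo on kset
  have hz : ∀ x ∈ kset a b f F r α β, Up F r x - Lo f r x = 0 := by
    rintro x ⟨hx1, q, hq, ht⟩
    have := hcon x q hq ht
    linarith
  have hsub : kset a b f F r α β ⊆ Icc (a + r) (b - r) := by
    rintro x ⟨_, q, _, ht⟩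
    exact ht.1
  -- kset is infinite
  have hinf : (kset a b f F r α β).Infinite := by
    intro hfin
    rw [hfin.measure_zero] at hpos
    simp at hpos
  have hcc : ConcaveOn ℝ (Icc (a + r) (b - r)) (fun x => Up F r x - Lo f r x) :=
    (concaveOn_Up h hr).sub (convexOn_Lo h hr)
  obtain ⟨x1, hx1⟩ := hinf.nonempty
  obtain ⟨x2, hx2, h12⟩ := hinf.exists_notMem_finset {x1}
  obtain ⟨x3, hx3, h13⟩ := hinf.exists_notMem_finset {x1, x2}
  simp only [Finset.mem_singleton, Finset.mem_insert, not_or] at h12 h13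
  -- three distinct zeros of a concave function : it is ≤ 0 everywhere
  have key : ∀ u v w : ℝ, u < v → v < w → u ∈ kset a b f F r α β → v ∈ kset a b f F r α β →
      w ∈ kset a b f F r α β → ∀ y ∈ Icc (a + r) (b - r), Up F r y - Lo f r y ≤ 0 := by
    intro u v w huv hvw hu hv hw y hy
    by_contra hy0
    push Not at hy0
    have zu := hz u hu
    have zv := hz v hv
    have zw := hz w hw
    rcases lt_trichotomy y v with hlt | heq | hgt
    · -- y < v < w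
      have := hcc.slope_anti_adjacent (x := y) (y := v) (z := w) hy (hsub hw) hlt hvw
      rw [zw, zv] at this
      have h1 : (0 - (Up F r y - Lo f r y)) / (v - y) < 0 := by
        apply div_neg_of_neg_of_pos <;> linarith
      have h2 : (0 - 0 : ℝ) / (w - v) = 0 := by simp
      linarith
    · rw [heq] at hy0; linarith
    · have := hcc.slope_anti_adjacent (x := u) (y := v) (z := y) (hsub hu) hy huv hgt
      rw [zu, zv] at this
      have h1 : 0 < ((Up F r y - Lo f r y) - 0) / (y - v) := by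
        apply div_pos <;> linarith
      have h2 : (0 - 0 : ℝ) / (v - u) = 0 := by simp
      linarith
  have hall : ∀ y ∈ Icc (a + r) (b - r), Up F r y - Lo f r y ≤ 0 := by
    rcases lt_or_gt_of_ne h12 with h21 | h21 <;> rcases lt_or_gt_of_ne h13.1 with h31 | h31 <;>
      rcases lt_or_gt_of_ne h13.2 with h32 | h32
    · exact key x3 x2 x1 h32 h21 hx3 hx2 hx1
    · exact key x2 x3 x1 h32 h31 hx2 hx3 hx1
    · exact key x3 x2 x1 h32 h21 hx3 hx2 hx1
    · exact key x2 x1 x3 h21 h31 hx2 hx1 hx3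
    · exact key x3 x1 x2 h31 h21 hx3 hx1 hx2
    · exact key x3 x1 x2 h31 h21 hx3 hx1 hx2
    · exact key x1 x3 x2 h31 h32 hx1 hx3 hx2
    · exact key x1 x2 x3 h21 h32 hx1 hx2 hx3
  have h0 : ar (inn (prof a b f F) r) = 0 := by
    rw [ar_inn_prof h hr]
    rw [setIntegral_congr_fun (g := fun _ => (0 : ℝ)) measurableSet_Icc]
    · simp
    · intro x hx
      exact max_eq_right (hall x hx)
  rw [har] at h0
  have := Real.pi_pos
  have : 0 < Real.pi * r ^ 2 := by positivity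
  linarith

end

end Pool.Agent.Lib.MP_4cfb03_an
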