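import Mathlib

/-!
# Definitions for MP_4cfb03_an (shape of the minimizers of `λ₁ / h₁²`)

Everything is defined in a finite dimensional real inner product space `E`; the final statement is
about `E = EuclideanSpace ℝ (Fin 2)`, all the proofs are carried out in `E = ℂ`.
-/

open MeasureTheory Set
open scoped ENNReal ContDiff

namespace Pool.Agent.Lib.MP_4cfb03_an

noncomputable section

section General

variable {E : Type*} [NormedAddCommGroup E] [InnerProductSpace ℝ E] [FiniteDimensional ℝ E]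
  [MeasurableSpace E] [BorelSpace E]

/-- The Dirichlet energy `∫ |∇u|²` (the operator norm of the derivative is the euclidean norm of
the gradient). -/
def energy (u : E → ℝ) : ℝ := ∫ x, ‖fderiv ℝ u x‖ ^ 2

/-- `∫ u²`. -/
def mass (u : E → ℝ) : ℝ := ∫ x, u x ^ 2

/-- The first Dirichlet eigenvalue of `Ω`, i.e. the infimum of the Rayleigh quotient over
the nonzero smooth functions with compact support in `Ω` (equivalently, over `H¹₀(Ω)`). -/
def lam1 (Ω : Set E) : ℝ :=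
  sInf {R : ℝ | ∃ u : E → ℝ, ContDiff ℝ ∞ u ∧ HasCompactSupport u ∧ tsupport u ⊆ Ω ∧ u ≠ 0 ∧
    R = energy u / mass u}

/-- The divergence of a vector field. -/
def divg (φ : E → E) (x : E) : ℝ := LinearMap.trace ℝ E (fderiv ℝ φ x : E →ₗ[ℝ] E)

/-- The distributional perimeter `P(A; E) = |Dχ_A|(E)`, as the supremum of `∫_A div φ` over the
`C¹` vector fields `φ` with compact support and `|φ| ≤ 1`. -/
def perim (A : Set E) : ℝ≥0∞ :=
  ⨆ (φ : E → E) (_ : ContDiff ℝ 1 φ) (_ : HasCompactSupport φ) (_ : ∀ x, ‖φ x‖ ≤ 1),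
    ENNReal.ofReal (∫ x in A, divg φ x)

/-- The Cheeger constant of `Ω`, in `[0, ∞]`. -/
def cheeger (Ω : Set E) : ℝ≥0∞ :=
  ⨅ (A : Set E) (_ : MeasurableSet A) (_ : A ⊆ Ω) (_ : 0 < volume A), perim A / volume A

/-- The Cheeger constant `h₁(Ω) = inf P(A)/|A|` over the measurable subsets `A` of `Ω` of positive
measure. -/
def h1 (Ω : Set E) : ℝ := (cheeger Ω).toReal

/-- The functional `J(Ω) = λ₁(Ω) / h₁(Ω)²`. -/
def J (Ω : Set E) : ℝ := lam1 Ω / h1 Ω ^ 2

/-- `Ω` belongs to the class `𝒦` of nonempty bounded open convex sets. -/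
structure Dom (Ω : Set E) : Prop where
  nonempty : Ω.Nonempty
  bounded : Bornology.IsBounded Ω
  isOpen : IsOpen Ω
  convex : Convex ℝ Ω

/-- `Ω` is a polygon: the interior of the convex hull of finitely many points, nonempty. -/
def IsPolygon (Ω : Set E) : Prop :=
  Ω.Nonempty ∧ ∃ s : Finset E, Ω = interior (convexHull ℝ (s : Set E))

end General

/-! ### Notions in the plane `ℂ` -/

/-- The first coordinate of `z` in the orthonormal frame rotated by `θ`. -/
def pr (θ : ℝ) (z : ℂ) : ℝ := z.re * Real.cos θ + z.im * Real.sin θ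

/-- `∫_0^π (width of S in the direction θ) dθ`, the perimeter of the convex hull of `S`. -/
def mw (S : Set ℂ) : ℝ := ∫ θ in (0 : ℝ)..Real.pi, Metric.diam (pr θ '' S)

/-- The inner parallel set `{z | B_s(z) ⊆ Ω}`. -/
def inn (Ω : Set ℂ) (s : ℝ) : Set ℂ := {z | Metric.ball z s ⊆ Ω}

/-- The area as a real number. -/
def ar (S : Set ℂ) : ℝ := (volume S).toReal

/-- The inner product of two linear functionals on `ℂ = ℝ²`. -/
def dot (L M : ℂ →L[ℝ] ℝ) : ℝ := L 1 * M 1 + L Complex.I * M Complex.I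

/-- The point with coordinates `(p, s)` in the orthonormal frame rotated by `θ`. -/
def rot (θ p s : ℝ) : ℂ := ((p : ℂ) + s * Complex.I) * Complex.exp (θ * Complex.I)

/-- The Laplacian of a `C²` function. -/
def lap (w : ℂ → ℝ) (x : ℂ) : ℝ :=
  fderiv ℝ (fun y => fderiv ℝ w y 1) x 1 + fderiv ℝ (fun y => fderiv ℝ w y Complex.I) x Complex.I

/-- Lipschitz functions. -/
def Lip (v : ℂ → ℝ) : Prop := ∃ K, LipschitzWith K v

/-- Lipschitz functions vanishing outside `Ω` (they belong to `H¹₀(Ω)`). -/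
def Adm (Ω : Set ℂ) (v : ℂ → ℝ) : Prop := Lip v ∧ ∀ x, x ∉ Ω → v x = 0

/-- A ground state of `Ω`: `u` is an `L²`-normalised minimizer of the Dirichlet energy in `H¹₀(Ω)`
with gradient `V`, and `φ n` is an approximating sequence of nonnegative test functions. -/
structure GS (Ω : Set ℂ) (φ : ℕ → ℂ → ℝ) (u : ℂ → ℝ) (V : ℂ → ℂ →L[ℝ] ℝ) : Prop where
  smooth : ∀ n, ContDiff ℝ ∞ (φ n)
  nonneg : ∀ n x, 0 ≤ φ n x
  compact : ∀ n, HasCompactSupport (φ n)
  supp : ∀ n, tsupport (φ n) ⊆ Ω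
  u_meas : Measurable u
  V_meas : Measurable V
  u_nonneg : ∀ x, 0 ≤ u x
  u_out : ∀ x, x ∉ Ω → u x = 0
  V_out : ∀ x, x ∉ Ω → V x = 0
  memu : MemLp u 2 volume
  memV : MemLp V 2 volume
  limu : Filter.Tendsto (fun n => ∫ x, (φ n x - u x) ^ 2) Filter.atTop (nhds 0)
  limV : Filter.Tendsto (fun n => ∫ x, ‖fderiv ℝ (φ n) x - V x‖ ^ 2) Filter.atTop (nhds 0)
  mass_one : ∫ x, u x ^ 2 = 1
  energy_eq : ∫ x, ‖V x‖ ^ 2 = lam1 Ω

/-- The boundary flux `λ₁ ∫ u w - ∫ ∇u·∇w` of the ground state against a test function `w` not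
necessarily vanishing on the boundary. -/
def flux (Ω : Set ℂ) (u : ℂ → ℝ) (V : ℂ → ℂ →L[ℝ] ℝ) (w : ℂ → ℝ) : ℝ :=
  lam1 Ω * (∫ x, u x * w x) - ∫ x, dot (V x) (fderiv ℝ w x)

/-- The bump used for the lower bound of the flux: `C²`, support `closedBall q' (2ρ)`, at most `1`
and subharmonic outside `ball q' ρ`. -/
def Wf (q' : ℂ) (ρ : ℝ) (x : ℂ) : ℝ := (max (4 * ρ ^ 2 - ‖x - q'‖ ^ 2) 0) ^ 4 / (3 * ρ ^ 2) ^ 4

/-- The profile domain `{a < x < b, f(x) < y < F(x)}`. -/
def prof (a b : ℝ) (f F : ℝ → ℝ) : Set ℂ := {z | z.re ∈ Ioo a b ∧ f z.re < z.im ∧ z.im < F z.re}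

/-- `(a, b, f, F)` is a convex profile. -/
structure CProf (a b : ℝ) (f F : ℝ → ℝ) : Prop where
  lt : a < b
  cvx : ConvexOn ℝ (Ioo a b) f
  ccv : ConcaveOn ℝ (Ioo a b) F
  fF : ∀ x ∈ Ioo a b, f x < F x
  bdd : ∃ M, ∀ x ∈ Ioo a b, -M ≤ f x ∧ F x ≤ M

/-- Height of the upper envelope of the discs of radius `s`: for `x ∈ [a+s, b-s]` this is the
ordinate of the lowest point over `x` of the inner parallel set. -/
def Lo (f : ℝ → ℝ) (s x : ℝ) : ℝ :=
  sSup ((fun w => f (x + w) + Real.sqrt (s ^ 2 - w ^ 2)) '' Ioo (-s) s)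

/-- Ordinate of the highest point over `x` of the inner parallel set. -/
def Up (F : ℝ → ℝ) (s x : ℝ) : ℝ :=
  sInf ((fun w => F (x + w) - Real.sqrt (s ^ 2 - w ^ 2)) '' Ioo (-s) s)

/-- The disc of radius `s` with centre `(x, Lo f s x)` touches the graph of `f` at abscissa `q`. -/
def Touch (a b : ℝ) (f : ℝ → ℝ) (s x q : ℝ) : Prop :=
  x ∈ Icc (a + s) (b - s) ∧ q ∈ Ioo a b ∧ |q - x| ≤ s ∧
    Lo f s x = f q + Real.sqrt (s ^ 2 - (q - x) ^ 2)

/-- Abscissas of the centres in the inner parallel set of the discs touching the graph of `f` over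
the interval `[α, β]`. -/
def kset (a b : ℝ) (f F : ℝ → ℝ) (s α β : ℝ) : Set ℝ :=
  {x | Lo f s x ≤ Up F s x ∧ ∃ q ∈ Icc α β, Touch a b f s x q}

end

end Pool.Agent.Lib.MP_4cfb03_an
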