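import Pool.Agent.Lib.MP_4cfb03_an.Slice
import Pool.Agent.Lib.MP_4cfb03_an.Width
import Pool.Agent.Lib.MP_4cfb03_an.Inner

/-! T6: the functional Cheeger inequality. -/

open MeasureTheory Set Filter
open scoped ENNReal ContDiff Topology

namespace Pool.Agent.Lib.MP_4cfb03_an

noncomputable section

/-- Area and integrated width of a compact subset. -/
theorem fc_ar_le {Ω V : Set ℂ} (hΩ : Dom Ω) {s : ℝ} (hs : 0 < s)
    (har : ar (inn Ω s) ≤ Real.pi * s ^ 2) (hV : IsCompact V) (hVΩ : V ⊆ Ω) :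
    ar V ≤ s * mw V := by
  rcases V.eq_empty_or_nonempty with rfl | hne
  · have h1 : ar (∅ : Set ℂ) = 0 := by simp [ar]
    rw [h1]
    exact mul_nonneg hs.le (mw_nonneg _)
  obtain ⟨ε0, hε0, hsub⟩ := hV.exists_thickening_subset_open hΩ.isOpen hVΩ
  have hpi := Real.pi_pos
  have key : ∀ ε, 0 < ε → ε ≤ ε0 → ar V ≤ s * (mw V + 2 * Real.pi * ε) := by
    intro ε hε hle
    have hthb : Bornology.IsBounded (Metric.thickening ε V) := hV.isBounded.thickening
    have hVth : V ⊆ Metric.thickening ε V := Metric.self_subset_thickening hε V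
    have hdom : Dom (convexHull ℝ (Metric.thickening ε V)) :=
      ⟨(hne.mono hVth).mono (subset_convexHull ℝ _), isBounded_convexHull.2 hthb,
        Metric.isOpen_thickening.convexHull, convex_convexHull ℝ _⟩
    have hsubΩ : convexHull ℝ (Metric.thickening ε V) ⊆ Ω :=
      convexHull_min ((Metric.thickening_mono hle V).trans hsub) hΩ.convex
    have h1 := ar_le_mul_mw hdom hΩ hsubΩ hs har
    rw [mw_convexHull hthb, mw_thickening hV.isBounded hne hε] at h1
    refine le_trans ?_ h1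
    refine ENNReal.toReal_mono ?_ (measure_mono (hVth.trans (subset_convexHull ℝ _)))
    exact (isBounded_convexHull.2 hthb).measure_lt_top.ne
  by_contra hc
  push Not at hc
  obtain ⟨ε, hε⟩ : ∃ ε, ε = min ε0 ((ar V - s * mw V) / (4 * Real.pi * s)) := ⟨_, rfl⟩
  have hq : 0 < (ar V - s * mw V) / (4 * Real.pi * s) := by
    apply div_pos (by linarith); positivity
  have hεpos : 0 < ε := by rw [hε]; exact lt_min hε0 hq
  have h1 := key ε hεpos (by rw [hε]; exact min_le_left _ _)
  have h2 : ε ≤ (ar V - s * mw V) / (4 * Real.pi * s) := by rw [hε]; exact min_le_right _ _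
  rw [le_div_iff₀ (by positivity)] at h2
  nlinarith

/-- A compact subset of a connected open set is contained in a connected compact subset. -/
theorem fc_conn {U K : Set ℂ} (hU : IsOpen U) (hUc : IsConnected U) (hK : IsCompact K)
    (hKU : K ⊆ U) : ∃ V, IsCompact V ∧ IsPreconnected V ∧ V.Nonempty ∧ K ⊆ V ∧ V ⊆ U := by
  classical
  obtain ⟨x0, hx0⟩ := hUc.nonempty
  have hpath : IsPathConnected U := (hU.isConnected_iff_isPathConnected).1 hUc
  have hball : ∀ x ∈ K, ∃ r > 0, Metric.closedBall x r ⊆ U := fun x hx =>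
    Metric.nhds_basis_closedBall.mem_iff.1 (hU.mem_nhds (hKU hx))
  choose! r hr hrU using hball
  obtain ⟨t, ht, htK⟩ := hK.elim_nhds_subcover (fun x => Metric.ball x (r x))
    (fun x hx => Metric.ball_mem_nhds x (hr x hx))
  have hjoin : ∀ x ∈ K, ∃ P : Set ℂ, IsCompact P ∧ IsPreconnected P ∧ x0 ∈ P ∧
      Metric.closedBall x (r x) ⊆ P ∧ P ⊆ U := by
    intro x hx
    obtain ⟨γ, hγ⟩ := hpath.joinedIn x0 hx0 x (hKU hx)
    refine ⟨range γ ∪ Metric.closedBall x (r x), ?_, ?_, ?_, ?_, ?_⟩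
    · exact (isCompact_range γ.continuous).union (isCompact_closedBall x (r x))
    · refine IsPreconnected.union x ⟨1, γ.target⟩
        (Metric.mem_closedBall_self (hr x hx).le) (isPreconnected_range γ.continuous) ?_
      exact (convex_closedBall x (r x)).isPreconnected
    · exact Or.inl ⟨0, γ.source⟩
    · exact subset_union_right
    · rintro _ (⟨τ, rfl⟩ | hy)
      · exact hγ τ
      · exact hrU x hx hy
  choose! P hP1 hP2 hP3 hP4 hP5 using hjoin
  refine ⟨{x0} ∪ ⋃ x ∈ t, P x, ?_, ?_, ?_, ?_, ?_⟩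
  · exact isCompact_singleton.union (t.isCompact_biUnion fun x hx => hP1 x (ht x hx))
  · have h1 : ({x0} ∪ ⋃ x ∈ t, P x) = ⋃₀ (insert {x0} (P '' (t : Set ℂ))) := by
      rw [sUnion_insert, sUnion_image]
      rfl
    rw [h1]
    refine isPreconnected_sUnion x0 _ ?_ ?_
    · rintro _ (rfl | ⟨x, hx, rfl⟩)
      · exact mem_singleton x0
      · exact hP3 x (ht x hx)
    · rintro _ (rfl | ⟨x, hx, rfl⟩)
      · exact isPreconnected_singleton
      · exact hP2 x (ht x hx)
  · exact ⟨x0, Or.inl rfl⟩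
  · intro y hy
    obtain ⟨x, hx, hyx⟩ := mem_iUnion₂.1 (htK hy)
    exact Or.inr (mem_iUnion₂.2 ⟨x, hx, hP4 x (ht x hx) (Metric.ball_subset_closedBall hyx)⟩)
  · rintro y (rfl | hy)
    · exact hx0
    · obtain ⟨x, hx, hyx⟩ := mem_iUnion₂.1 hy
      exact hP5 x (ht x hx) hyx

theorem fc_rot_pr (θ : ℝ) (z : ℂ) :
    rot θ (pr θ z) (z * Complex.exp (-(θ * Complex.I))).im = z := by
  have h1 : ((pr θ z : ℂ) + ((z * Complex.exp (-(θ * Complex.I))).im : ℂ) * Complex.I) =
      z * Complex.exp (-(θ * Complex.I)) := by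
    have h2 : pr θ z = (z * Complex.exp (-(θ * Complex.I))).re := by
      have h3 : Complex.exp (-(θ * Complex.I)) = Real.cos θ - Real.sin θ * Complex.I := by
        rw [show (-(θ * Complex.I) : ℂ) = ((-θ : ℝ) : ℂ) * Complex.I by push_cast; ring,
          Complex.exp_mul_I, ← Complex.ofReal_cos, ← Complex.ofReal_sin, Real.cos_neg,
          Real.sin_neg]
        push_cast
        ring
      rw [h3]
      simp only [pr, Complex.mul_re, Complex.sub_re, Complex.sub_im, Complex.ofReal_re,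
        Complex.ofReal_im, Complex.I_re, Complex.I_im, Complex.mul_im]
      ring
    rw [h2]
    exact Complex.re_add_im _
  unfold rot
  rw [h1, mul_assoc, ← Complex.exp_add]
  simp

theorem fc_norm_rot (θ p s : ℝ) : |s| ≤ ‖rot θ p s‖ := by
  unfold rot
  rw [norm_mul, Complex.norm_exp_ofReal_mul_I, mul_one]
  have := Complex.abs_im_le_norm ((p : ℂ) + s * Complex.I)
  simpa using this

theorem fc_rot_lip (θ p : ℝ) : LipschitzWith 1 (fun s => rot θ p s) := by
  refine LipschitzWith.of_dist_le_mul fun s t => ?_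
  unfold rot
  rw [dist_eq_norm, ← sub_mul, norm_mul, Complex.norm_exp_ofReal_mul_I, mul_one]
  have : ((p : ℂ) + s * Complex.I) - (p + t * Complex.I) = ((s - t : ℝ) : ℂ) * Complex.I := by
    push_cast; ring
  rw [this, norm_mul, Complex.norm_I, mul_one, Complex.norm_real, Real.dist_eq]
  simp

/-- The truncated function on a component. -/
def fcv (φ : ℂ → ℝ) (a b : ℝ) (W : Set ℂ) (x : ℂ) : ℝ :=
  open Classical in if x ∈ W then min (φ x) b - a else 0

theorem fc_comp {φ : ℂ → ℝ} (hφ : ContDiff ℝ ∞ φ) (hc : HasCompactSupport φ) {a b : ℝ}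
    (ha : 0 ≤ a) (hab : a < b) {x0 : ℂ} {W V : Set ℂ}
    (hW : W = connectedComponentIn {x | a < φ x} x0) (hV : IsCompact V)
    (hVc : IsPreconnected V) (hVne : V.Nonempty) (hVW : V ⊆ W) (hVb : ∀ x ∈ V, b ≤ φ x) :
    ENNReal.ofReal ((b - a) * mw V) ≤
      ∫⁻ x in W ∩ {x | a < φ x ∧ φ x < b}, ENNReal.ofReal ‖fderiv ℝ φ x‖ := by
  classical
  have hφc : Continuous φ := hφ.continuous
  have hUo : IsOpen {x | a < φ x} := isOpen_lt continuous_const hφc
  have hWo : IsOpen W := by rw [hW]; exact hUo.connectedComponentIn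
  have hWU : ∀ x ∈ W, a < φ x := by
    intro x hx
    rw [hW] at hx
    exact connectedComponentIn_subset {x | a < φ x} x0 hx
  obtain ⟨K, hK⟩ := ContDiff.lipschitzWith_of_hasCompactSupport hc hφ (by simp)
  let v := fcv φ a b W
  have hvW : ∀ x ∈ W, v x = min (φ x) b - a := fun x hx => by simp [v, fcv, hx]
  have hvn : ∀ x, x ∉ W → v x = 0 := fun x hx => by simp [v, fcv, hx]
  have hv0 : ∀ x, 0 ≤ v x := by
    intro x
    by_cases hx : x ∈ W
    · rw [hvW x hx]
      have := lt_min (hWU x hx) hab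
      linarith
    · rw [hvn x hx]
  have hv1 : ∀ x, v x ≤ b - a := by
    intro x
    by_cases hx : x ∈ W
    · rw [hvW x hx]
      have := min_le_right (φ x) b
      linarith
    · rw [hvn x hx]
      linarith
  -- Lipschitz
  have hcross : ∀ x ∈ W, ∀ y, y ∉ W → v x ≤ K * dist x y := by
    intro x hx y hy
    have hz : ∃ z ∈ segment ℝ x y, φ z ≤ a := by
      by_contra hcon
      push Not at hcon
      have h1 : segment ℝ x y ⊆ connectedComponentIn {x | a < φ x} x :=
        (convex_segment x y).isPreconnected.subset_connectedComponentIn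
          (left_mem_segment ℝ x y) (fun z hz => hcon z hz)
      have h2 : connectedComponentIn {x | a < φ x} x0 = connectedComponentIn {x | a < φ x} x :=
        connectedComponentIn_eq (by rw [← hW]; exact hx)
      exact hy (by rw [hW, h2]; exact h1 (right_mem_segment ℝ x y))
    obtain ⟨z, hz, hza⟩ := hz
    have h3 : φ x - φ z ≤ K * dist x z := by
      have := hK.dist_le_mul x z
      rw [Real.dist_eq] at this
      exact (le_abs_self _).trans this
    have h4 : dist x z ≤ dist x y := by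
      have := (mem_segment_iff_wbtw.1 hz).dist_add_dist
      have := dist_nonneg (x := z) (y := y)
      linarith
    have h5 : (K : ℝ) * dist x z ≤ K * dist x y := mul_le_mul_of_nonneg_left h4 K.coe_nonneg
    rw [hvW x hx]
    have := min_le_left (φ x) b
    linarith
  have hvL : LipschitzWith K v := by
    refine LipschitzWith.of_dist_le_mul fun x y => ?_
    rw [Real.dist_eq]
    by_cases hx : x ∈ W <;> by_cases hy : y ∈ W
    · rw [hvW x hx, hvW y hy]
      have h1 : |min (φ x) b - a - (min (φ y) b - a)| ≤ |φ x - φ y| := by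
        have := abs_min_sub_min_le_max (φ x) b (φ y) b
        simp only [sub_self, abs_zero] at this
        have h2 : min (φ x) b - a - (min (φ y) b - a) = min (φ x) b - min (φ y) b := by ring
        rw [h2]
        refine this.trans ?_
        exact max_le (le_refl _) (abs_nonneg _)
      have h3 := hK.dist_le_mul x y
      rw [Real.dist_eq] at h3
      exact h1.trans h3
    · rw [hvn y hy, sub_zero, abs_of_nonneg (hv0 x)]
      exact hcross x hx y hy
    · rw [hvn x hx, zero_sub, abs_neg, abs_of_nonneg (hv0 y), dist_comm]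
      exact hcross y hy x hx
    · rw [hvn x hx, hvn y hy]
      simp only [sub_self, abs_zero]
      positivity
  -- the support is bounded
  obtain ⟨R, hR⟩ := hc.isCompact.isBounded.subset_closedBall (0 : ℂ)
  have hvs : ∀ x, R < ‖x‖ → v x = 0 := by
    intro x hx
    apply hvn
    intro hxW
    have h1 := hWU x hxW
    have h2 : x ∈ tsupport φ := subset_tsupport _ (by
      rw [Function.mem_support]; linarith)
    have h3 := hR h2
    rw [mem_closedBall_zero_iff] at h3
    linarith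
  -- lower bound on lines
  have hline : ∀ θ p : ℝ, p ∈ pr θ '' V →
      ENNReal.ofReal (2 * (b - a)) ≤
        ∫⁻ s : ℝ, ENNReal.ofReal |deriv (fun s => v (rot θ p s)) s| := by
    rintro θ _ ⟨z, hz, rfl⟩
    have h1 : ∃ K, LipschitzWith K (fun s => v (rot θ (pr θ z) s)) :=
      ⟨_, hvL.comp (fc_rot_lip θ (pr θ z))⟩
    have h2 : HasCompactSupport (fun s => v (rot θ (pr θ z) s)) := by
      refine HasCompactSupport.intro (isCompact_Icc (a := -R) (b := R)) fun s hs => ?_
      apply hvs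
      refine lt_of_lt_of_le ?_ (fc_norm_rot θ _ s)
      by_contra hcon
      push Not at hcon
      exact hs (abs_le.1 hcon)
    have h3 := two_mul_le_lintegral_deriv h1 h2 (z * Complex.exp (-(θ * Complex.I))).im
    rw [fc_rot_pr] at h3
    have h4 : v z = b - a := by
      rw [hvW z (hVW hz), min_eq_right (hVb z hz)]
    rw [h4] at h3
    exact h3
  have hθ : ∀ θ : ℝ, ENNReal.ofReal (2 * (b - a) * Metric.diam (pr θ '' V)) ≤
      ∫⁻ p : ℝ, ∫⁻ s : ℝ, ENNReal.ofReal |deriv (fun s => v (rot θ p s)) s| := by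
    intro θ
    have hprc : Continuous (pr θ) := by unfold pr; fun_prop
    have hmeas : MeasurableSet (pr θ '' V) := (hV.image hprc).measurableSet
    calc ENNReal.ofReal (2 * (b - a) * Metric.diam (pr θ '' V))
        = ENNReal.ofReal (2 * (b - a)) * volume (pr θ '' V) := by
          rw [volume_pr hV hVne hVc θ, ENNReal.ofReal_mul (by linarith)]
      _ = ∫⁻ _p in pr θ '' V, ENNReal.ofReal (2 * (b - a)) := by rw [setLIntegral_const]
      _ ≤ ∫⁻ p in pr θ '' V, ∫⁻ s : ℝ, ENNReal.ofReal |deriv (fun s => v (rot θ p s)) s| :=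
          setLIntegral_mono' hmeas fun p hp => hline θ p hp
      _ ≤ _ := setLIntegral_le_lintegral _ _
  have hcr := crofton_lip ⟨K, hvL⟩
  have hmw : ENNReal.ofReal (2 * (b - a) * mw V) =
      ∫⁻ θ in Ioc (0 : ℝ) Real.pi, ENNReal.ofReal (2 * (b - a) * Metric.diam (pr θ '' V)) := by
    have hcont : Continuous fun θ => 2 * (b - a) * Metric.diam (pr θ '' V) :=
      continuous_const.mul (continuous_diam_pr hV.isBounded)
    rw [← ofReal_integral_eq_lintegral_ofReal]
    · congr 1
      unfold mw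
      rw [intervalIntegral.integral_of_le Real.pi_pos.le, ← integral_const_mul]
    · exact (hcont.integrableOn_Icc (a := 0) (b := Real.pi)).mono_set Ioc_subset_Icc_self
    · refine Eventually.of_forall fun θ => ?_
      have := Metric.diam_nonneg (s := pr θ '' V)
      have : 0 < b - a := by linarith
      show 0 ≤ 2 * (b - a) * Metric.diam (pr θ '' V)
      positivity
  have hmain : ENNReal.ofReal (2 * (b - a) * mw V) ≤
      2 * ∫⁻ z, ENNReal.ofReal ‖fderiv ℝ v z‖ := by
    rw [hcr, hmw]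
    exact lintegral_mono fun θ => hθ θ
  -- the gradient of `v`
  have hgrad : ∀ x, ENNReal.ofReal ‖fderiv ℝ v x‖ ≤
      (W ∩ {x | a < φ x ∧ φ x < b}).indicator (fun x => ENNReal.ofReal ‖fderiv ℝ φ x‖) x := by
    intro x
    by_cases hx : x ∈ W
    · by_cases hxb : φ x < b
      · have h1 : v =ᶠ[𝓝 x] fun y => φ y - a := by
          filter_upwards [hWo.mem_nhds hx, (isOpen_lt hφc continuous_const).mem_nhds hxb]
            with y hy1 hy2
          rw [hvW y hy1, min_eq_left (le_of_lt hy2)]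
        rw [h1.fderiv_eq, fderiv_sub_const,
          indicator_of_mem (show x ∈ W ∩ {x | a < φ x ∧ φ x < b} from ⟨hx, hWU x hx, hxb⟩)]
      · push Not at hxb
        have h1 : IsLocalMax v x := by
          refine Eventually.of_forall fun y => ?_
          rw [hvW x hx, min_eq_right hxb]
          exact hv1 y
        rw [h1.fderiv_eq_zero]
        simp
    · have h1 : IsLocalMin v x := by
        refine Eventually.of_forall fun y => ?_
        rw [hvn x hx]
        exact hv0 y
      rw [h1.fderiv_eq_zero]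
      simp
  have hmeasW : MeasurableSet (W ∩ {x | a < φ x ∧ φ x < b}) :=
    hWo.measurableSet.inter
      ((isOpen_lt continuous_const hφc).inter (isOpen_lt hφc continuous_const)).measurableSet
  have h2 : ∫⁻ z, ENNReal.ofReal ‖fderiv ℝ v z‖ ≤
      ∫⁻ x in W ∩ {x | a < φ x ∧ φ x < b}, ENNReal.ofReal ‖fderiv ℝ φ x‖ := by
    rw [← lintegral_indicator hmeasW]
    exact lintegral_mono hgrad
  have h3 : 2 * ENNReal.ofReal ((b - a) * mw V) ≤
      2 * ∫⁻ x in W ∩ {x | a < φ x ∧ φ x < b}, ENNReal.ofReal ‖fderiv ℝ φ x‖ := by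
    calc 2 * ENNReal.ofReal ((b - a) * mw V) = ENNReal.ofReal (2 * (b - a) * mw V) := by
          rw [mul_assoc, ENNReal.ofReal_mul (by norm_num : (0:ℝ) ≤ 2)]
          norm_num
      _ ≤ _ := hmain
      _ ≤ _ := by gcongr
  exact (ENNReal.mul_le_mul_iff_right (by norm_num) (by norm_num)).1 h3

/-- The differential inequality at a level. -/
theorem fc_level {Ω : Set ℂ} (hΩ : Dom Ω) {s : ℝ} (hs : 0 < s)
    (har : ar (inn Ω s) ≤ Real.pi * s ^ 2) {φ : ℂ → ℝ} (hφ : ContDiff ℝ ∞ φ)
    (hc : HasCompactSupport φ) (hsupp : tsupport φ ⊆ Ω) {a η : ℝ} (ha : 0 ≤ a) (hη : 0 < η) :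
    ∃ b0, a < b0 ∧ ∀ b, a < b → b ≤ b0 →
      ENNReal.ofReal ((b - a) / s * (ar {x | a < φ x} - η)) ≤
        ∫⁻ x in {x | a < φ x ∧ φ x < b}, ENNReal.ofReal ‖fderiv ℝ φ x‖ := by
  classical
  have hφc : Continuous φ := hφ.continuous
  have hUo : IsOpen {x | a < φ x} := isOpen_lt continuous_const hφc
  have hUs : {x | a < φ x} ⊆ tsupport φ := by
    intro x hx
    refine subset_tsupport _ ?_
    have hx' : a < φ x := hx
    rw [Function.mem_support]
    linarith
  have hUfin : volume {x | a < φ x} ≠ ⊤ :=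
    (lt_of_le_of_lt (measure_mono hUs) hc.isCompact.measure_lt_top).ne
  -- a compact subset of almost full measure
  obtain ⟨K, hKU, hK, hKar⟩ : ∃ K ⊆ {x | a < φ x}, IsCompact K ∧ ar {x | a < φ x} - η ≤ ar K := by
    by_cases h0 : ar {x | a < φ x} = 0
    · refine ⟨∅, empty_subset _, isCompact_empty, ?_⟩
      rw [h0]
      simp only [ar, measure_empty, ENNReal.toReal_zero]
      linarith
    · have hpos : 0 < ar {x | a < φ x} := lt_of_le_of_ne ENNReal.toReal_nonneg (Ne.symm h0)
      have h1 : ENNReal.ofReal (ar {x | a < φ x} - η) < volume {x | a < φ x} := by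
        rw [← ENNReal.ofReal_toReal hUfin]
        exact (ENNReal.ofReal_lt_ofReal_iff hpos).2 (by unfold ar; linarith)
      obtain ⟨K, hKU, hK, hlt⟩ := hUo.exists_lt_isCompact h1
      refine ⟨K, hKU, hK, ?_⟩
      have h2 := ENNReal.toReal_mono hK.measure_lt_top.ne hlt.le
      refine le_trans ?_ h2
      exact le_trans (le_max_left _ 0) (le_of_eq ENNReal.toReal_ofReal'.symm)
  -- the components
  have hcov : ∀ x ∈ K, connectedComponentIn {x | a < φ x} x ∈ 𝓝 x := fun x hx =>
    hUo.connectedComponentIn.mem_nhds (mem_connectedComponentIn (hKU hx))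
  obtain ⟨t, ht, htK⟩ := hK.elim_nhds_subcover _ hcov
  let 𝒲 : Finset (Set ℂ) := t.image fun x => connectedComponentIn {x | a < φ x} x
  have h𝒲 : ∀ W ∈ 𝒲, ∃ x ∈ K, W = connectedComponentIn {x | a < φ x} x := by
    intro W hW
    obtain ⟨x, hx, rfl⟩ := Finset.mem_image.1 hW
    exact ⟨x, ht x hx, rfl⟩
  have hWo : ∀ W ∈ 𝒲, IsOpen W := by
    intro W hW
    obtain ⟨x, _, rfl⟩ := h𝒲 W hW
    exact hUo.connectedComponentIn
  have hdisj : ∀ W ∈ 𝒲, ∀ W' ∈ 𝒲, W ≠ W' → Disjoint W W' := by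
    intro W hW W' hW' hne
    obtain ⟨x, _, rfl⟩ := h𝒲 W hW
    obtain ⟨x', _, rfl⟩ := h𝒲 W' hW'
    rw [Set.disjoint_left]
    intro y hy hy'
    exact hne ((connectedComponentIn_eq hy).trans (connectedComponentIn_eq hy').symm)
  have hK𝒲 : K ⊆ ⋃ W ∈ 𝒲, W := by
    intro y hy
    obtain ⟨x, hx, hyx⟩ := mem_iUnion₂.1 (htK hy)
    exact mem_iUnion₂.2 ⟨_, Finset.mem_image_of_mem _ hx, hyx⟩
  have hKW : ∀ W ∈ 𝒲, IsCompact (K ∩ W) := by
    intro W hW
    have h1 : K ∩ W = K \ ⋃ W' ∈ 𝒲.erase W, W' := by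
      ext y
      simp only [mem_inter_iff, Set.mem_sdiff, mem_iUnion, exists_prop, not_exists, not_and,
        Finset.mem_erase]
      constructor
      · rintro ⟨hy, hyW⟩
        refine ⟨hy, fun W' hW' hyW' => ?_⟩
        exact Set.disjoint_left.1 (hdisj W hW W' hW'.2 (Ne.symm hW'.1)) hyW hyW'
      · rintro ⟨hy, hyW⟩
        refine ⟨hy, ?_⟩
        obtain ⟨W', hW', hyW'⟩ := mem_iUnion₂.1 (hK𝒲 hy)
        by_cases hWW : W' = W
        · rwa [← hWW]
        · exact absurd hyW' (hyW W' ⟨hWW, hW'⟩)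
    rw [h1]
    exact hK.diff (isOpen_biUnion fun W' hW' => hWo W' (Finset.mem_of_mem_erase hW'))
  have hV : ∀ W ∈ 𝒲, ∃ V, IsCompact V ∧ IsPreconnected V ∧ V.Nonempty ∧ K ∩ W ⊆ V ∧ V ⊆ W := by
    intro W hW
    refine fc_conn (hWo W hW) ?_ (hKW W hW) inter_subset_right
    obtain ⟨x, hx, rfl⟩ := h𝒲 W hW
    exact isConnected_connectedComponentIn_iff.2 (hKU hx)
  choose! V hV1 hV2 hV3 hV4 hV5 using hV
  have hWU : ∀ W ∈ 𝒲, W ⊆ {x | a < φ x} := by
    intro W hW
    obtain ⟨x, _, rfl⟩ := h𝒲 W hW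
    exact connectedComponentIn_subset _ _
  -- the level `b0`
  obtain ⟨b0, hb0, hb0V⟩ : ∃ b0, a < b0 ∧ ∀ W ∈ 𝒲, ∀ x ∈ V W, b0 ≤ φ x := by
    have hcomp : IsCompact (⋃ W ∈ 𝒲, V W) := 𝒲.isCompact_biUnion fun W hW => hV1 W hW
    rcases (⋃ W ∈ 𝒲, V W).eq_empty_or_nonempty with h0 | h0
    · refine ⟨a + 1, by linarith, fun W hW x hx => ?_⟩
      have : x ∈ ⋃ W ∈ 𝒲, V W := mem_iUnion₂.2 ⟨W, hW, hx⟩
      rw [h0] at this
      exact absurd this (notMem_empty x)
    · obtain ⟨z, hz, hzmin⟩ := hcomp.exists_isMinOn h0 hφc.continuousOn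
      refine ⟨φ z, ?_, fun W hW x hx => ?_⟩
      · obtain ⟨W, hW, hzW⟩ := mem_iUnion₂.1 hz
        exact hWU W hW (hV5 W hW hzW)
      · exact hzmin (mem_iUnion₂.2 ⟨W, hW, hx⟩)
  refine ⟨b0, hb0, fun b hab hbb => ?_⟩
  have hcomp : ∀ W ∈ 𝒲, ENNReal.ofReal ((b - a) * mw (V W)) ≤
      ∫⁻ x in W ∩ {x | a < φ x ∧ φ x < b}, ENNReal.ofReal ‖fderiv ℝ φ x‖ := by
    intro W hW
    obtain ⟨x, _, hWx⟩ := h𝒲 W hW
    exact fc_comp hφ hc ha hab hWx (hV1 W hW) (hV2 W hW) (hV3 W hW) (hV5 W hW)
      (fun y hy => hbb.trans (hb0V W hW y hy))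
  have hmeasB : MeasurableSet {x | a < φ x ∧ φ x < b} :=
    ((isOpen_lt continuous_const hφc).inter (isOpen_lt hφc continuous_const)).measurableSet
  -- areas
  have harK : ar K ≤ ∑ W ∈ 𝒲, ar (V W) := by
    have h1 : volume K ≤ ∑ W ∈ 𝒲, volume (V W) := by
      refine le_trans (measure_mono ?_) (measure_biUnion_finset_le 𝒲 V)
      intro y hy
      obtain ⟨W, hW, hyW⟩ := mem_iUnion₂.1 (hK𝒲 hy)
      exact mem_iUnion₂.2 ⟨W, hW, hV4 W hW ⟨hy, hyW⟩⟩
    have hfin : ∀ W ∈ 𝒲, volume (V W) ≠ ⊤ := fun W hW => (hV1 W hW).measure_lt_top.ne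
    have h2 := ENNReal.toReal_mono (ENNReal.sum_ne_top.2 hfin) h1
    rwa [ENNReal.toReal_sum hfin] at h2
  have harV : ∀ W ∈ 𝒲, ar (V W) ≤ s * mw (V W) := fun W hW =>
    fc_ar_le hΩ hs har (hV1 W hW) (((hV5 W hW).trans (hWU W hW)).trans (hUs.trans hsupp))
  have hba : 0 < b - a := by linarith
  have h1 : (b - a) / s * (ar {x | a < φ x} - η) ≤ ∑ W ∈ 𝒲, (b - a) * mw (V W) := by
    rw [← Finset.mul_sum, div_mul_eq_mul_div, mul_div_assoc]
    refine mul_le_mul_of_nonneg_left ?_ hba.le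
    rw [div_le_iff₀ hs]
    calc ar {x | a < φ x} - η ≤ ar K := hKar
      _ ≤ ∑ W ∈ 𝒲, ar (V W) := harK
      _ ≤ ∑ W ∈ 𝒲, s * mw (V W) := Finset.sum_le_sum harV
      _ = (∑ W ∈ 𝒲, mw (V W)) * s := by rw [← Finset.mul_sum]; ring
  calc ENNReal.ofReal ((b - a) / s * (ar {x | a < φ x} - η))
      ≤ ENNReal.ofReal (∑ W ∈ 𝒲, (b - a) * mw (V W)) := ENNReal.ofReal_le_ofReal h1
    _ = ∑ W ∈ 𝒲, ENNReal.ofReal ((b - a) * mw (V W)) :=
        ENNReal.ofReal_sum_of_nonneg fun W _ => mul_nonneg hba.le (mw_nonneg _)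
    _ ≤ ∑ W ∈ 𝒲, ∫⁻ x in W ∩ {x | a < φ x ∧ φ x < b}, ENNReal.ofReal ‖fderiv ℝ φ x‖ :=
        Finset.sum_le_sum hcomp
    _ = ∫⁻ x in ⋃ W ∈ 𝒲, W ∩ {x | a < φ x ∧ φ x < b}, ENNReal.ofReal ‖fderiv ℝ φ x‖ := by
        rw [lintegral_biUnion_finset]
        · intro W hW W' hW' hne
          exact (hdisj W hW W' hW' hne).mono inter_subset_left inter_subset_left
        · exact fun W hW => (hWo W hW).measurableSet.inter hmeasB
    _ ≤ _ := lintegral_mono_set (iUnion₂_subset fun W _ => inter_subset_right)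

theorem fun_cheeger {Ω : Set ℂ} (hΩ : Dom Ω) {s : ℝ} (hs : 0 < s)
    (har : ar (inn Ω s) ≤ Real.pi * s ^ 2) {φ : ℂ → ℝ} (hφ : ContDiff ℝ ∞ φ)
    (h0 : ∀ x, 0 ≤ φ x) (hc : HasCompactSupport φ) (hsupp : tsupport φ ⊆ Ω) :
    ∫ x, φ x ≤ s * ∫ x, ‖fderiv ℝ φ x‖ := by
  have hφc : Continuous φ := hφ.continuous
  have hfc : Continuous fun x => ‖fderiv ℝ φ x‖ := (hφ.continuous_fderiv (by simp)).norm
  have hfint : Integrable fun x => ‖fderiv ℝ φ x‖ :=
    hfc.integrable_of_hasCompactSupport (hc.fderiv ℝ).norm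
  have hφint : Integrable φ := hφc.integrable_of_hasCompactSupport hc
  -- the maximum
  obtain ⟨M0, hM0⟩ := hc.exists_bound_of_continuous hφc
  obtain ⟨M, hM, hMφ⟩ : ∃ M, 0 < M ∧ ∀ x, φ x < M := by
    refine ⟨max M0 0 + 1, by positivity, fun x => ?_⟩
    have h1 := hM0 x
    have h2 := le_abs_self (φ x)
    rw [Real.norm_eq_abs] at h1
    have := le_max_left M0 0
    linarith
  have hmin : ∀ t : ℝ, 0 ≤ t → Integrable fun x => min (φ x) t := by
    intro t ht
    refine hφint.mono' (hφc.min continuous_const).aestronglyMeasurable ?_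
    refine Eventually.of_forall fun x => ?_
    rw [Real.norm_eq_abs, abs_of_nonneg (le_min (h0 x) ht)]
    exact min_le_left _ _
  have hUo : ∀ a : ℝ, IsOpen {x | a < φ x} := fun a => isOpen_lt continuous_const hφc
  have hUs : ∀ a : ℝ, 0 ≤ a → {x | a < φ x} ⊆ tsupport φ := by
    intro a ha x hx
    refine subset_tsupport _ ?_
    have hx' : a < φ x := hx
    rw [Function.mem_support]
    linarith
  have hUfin : ∀ a : ℝ, 0 ≤ a → volume {x | a < φ x} ≠ ⊤ := fun a ha =>
    (lt_of_le_of_lt (measure_mono (hUs a ha)) hc.isCompact.measure_lt_top).ne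
  -- growth of the truncated integral
  have hF : ∀ a b : ℝ, 0 ≤ a → a ≤ b →
      ∫ x, min (φ x) b ≤ (∫ x, min (φ x) a) + (b - a) * ar {x | a < φ x} := by
    intro a b ha hab
    have hind : Integrable ({x | a < φ x}.indicator fun _ => (b - a : ℝ)) :=
      (integrable_indicator_iff (hUo a).measurableSet).2
        (integrableOn_const (hUfin a ha))
    have h1 : ∫ x, {x | a < φ x}.indicator (fun _ => (b - a : ℝ)) x =
        (b - a) * ar {x | a < φ x} := by
      rw [integral_indicator (hUo a).measurableSet, setIntegral_const, smul_eq_mul, mul_comm]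
      rfl
    rw [← h1, ← integral_add (hmin a ha) hind]
    refine integral_mono (hmin b (ha.trans hab)) ((hmin a ha).add hind) fun x => ?_
    show min (φ x) b ≤ min (φ x) a + {x | a < φ x}.indicator (fun _ => (b - a : ℝ)) x
    by_cases hx : a < φ x
    · rw [indicator_of_mem (show x ∈ {x | a < φ x} from hx), min_eq_right hx.le]
      have := min_le_right (φ x) b
      linarith
    · rw [indicator_of_notMem (show x ∉ {x | a < φ x} from hx), add_zero]
      push Not at hx
      rw [min_eq_left hx, min_eq_left (hx.trans hab)]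
  -- the energy below a level
  obtain ⟨Θ, hΘ⟩ : ∃ Θ : ℝ → ℝ, ∀ t, Θ t = ∫ x in {x | φ x < t}, ‖fderiv ℝ φ x‖ :=
    ⟨_, fun _ => rfl⟩
  have hmeas : ∀ t, MeasurableSet {x | φ x < t} := fun t =>
    (isOpen_lt hφc continuous_const).measurableSet
  have hΘmono : ∀ a b, a ≤ b → Θ a ≤ Θ b := by
    intro a b hab
    rw [hΘ, hΘ]
    refine setIntegral_mono_set hfint.integrableOn
      (Eventually.of_forall fun x => norm_nonneg _) (Eventually.of_forall ?_)
    intro x hx
    exact lt_of_lt_of_le hx hab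
  have hΘle : ∀ t, Θ t ≤ ∫ x, ‖fderiv ℝ φ x‖ := by
    intro t
    rw [hΘ]
    exact setIntegral_le_integral hfint (Eventually.of_forall fun x => norm_nonneg _)
  have hΘstep : ∀ a b η : ℝ, a < b → ENNReal.ofReal ((b - a) / s * (ar {x | a < φ x} - η)) ≤
      ∫⁻ x in {x | a < φ x ∧ φ x < b}, ENNReal.ofReal ‖fderiv ℝ φ x‖ →
      Θ a + (b - a) / s * (ar {x | a < φ x} - η) ≤ Θ b := by
    intro a b η hab hle
    have hmB : MeasurableSet {x | a < φ x ∧ φ x < b} :=
      ((isOpen_lt continuous_const hφc).inter (isOpen_lt hφc continuous_const)).measurableSet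
    have h1 : (b - a) / s * (ar {x | a < φ x} - η) ≤
        ∫ x in {x | a < φ x ∧ φ x < b}, ‖fderiv ℝ φ x‖ := by
      rw [← ofReal_integral_eq_lintegral_ofReal hfint.integrableOn
        (Eventually.of_forall fun x => norm_nonneg _)] at hle
      by_contra hcon
      push Not at hcon
      have h2 : 0 ≤ ∫ x in {x | a < φ x ∧ φ x < b}, ‖fderiv ℝ φ x‖ :=
        integral_nonneg fun x => norm_nonneg _
      have h3 := (ENNReal.ofReal_lt_ofReal_iff (lt_of_le_of_lt h2 hcon)).2 hcon
      exact absurd hle (not_le.2 h3)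
    have hd : Disjoint {x | φ x < a} {x | a < φ x ∧ φ x < b} := by
      rw [Set.disjoint_left]
      intro x hx hx'
      exact lt_asymm hx hx'.1
    have h2 : Θ a + ∫ x in {x | a < φ x ∧ φ x < b}, ‖fderiv ℝ φ x‖ ≤ Θ b := by
      rw [hΘ, hΘ, ← setIntegral_union hd hmB hfint.integrableOn hfint.integrableOn]
      refine setIntegral_mono_set hfint.integrableOn
        (Eventually.of_forall fun x => norm_nonneg _) (Eventually.of_forall ?_)
      rintro x (hx | hx)
      · exact lt_trans hx hab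
      · exact hx.2
    linarith
  -- the main estimate, up to `η`
  have hmain : ∀ η : ℝ, 0 < η → ∫ x, φ x ≤ s * (∫ x, ‖fderiv ℝ φ x‖) + η * M := by
    intro η hη
    let S : Set ℝ := {t | t ∈ Icc 0 M ∧ ∫ x, min (φ x) t ≤ s * Θ t + η * t}
    have hS0 : (0:ℝ) ∈ S := by
      refine ⟨⟨le_refl _, hM.le⟩, ?_⟩
      have h1 : ∀ x, min (φ x) 0 = 0 := fun x => min_eq_right (h0 x)
      simp only [h1, integral_zero, mul_zero, add_zero]
      refine mul_nonneg hs.le ?_
      rw [hΘ]
      exact integral_nonneg fun x => norm_nonneg _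
    have hSb : BddAbove S := ⟨M, fun t ht => ht.1.2⟩
    obtain ⟨T, hT⟩ : ∃ T, T = sSup S := ⟨_, rfl⟩
    have hT0 : 0 ≤ T := by rw [hT]; exact le_csSup hSb hS0
    have hTM : T ≤ M := by rw [hT]; exact csSup_le ⟨0, hS0⟩ fun t ht => ht.1.2
    have hA0 : 0 ≤ ar {x | 0 < φ x} := ENNReal.toReal_nonneg
    have hTS : T ∈ S := by
      refine ⟨⟨hT0, hTM⟩, ?_⟩
      refine le_of_forall_pos_le_add fun ε hε => ?_
      obtain ⟨t, htS, htT⟩ : ∃ t ∈ S, T - ε / (ar {x | 0 < φ x} + 1) < t := by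
        refine exists_lt_of_lt_csSup ⟨0, hS0⟩ ?_
        rw [← hT]
        have : 0 < ε / (ar {x | 0 < φ x} + 1) := by positivity
        linarith
      have htle : t ≤ T := by rw [hT]; exact le_csSup hSb htS
      have h1 := hF t T htS.1.1 htle
      have h2 : ar {x | t < φ x} ≤ ar {x | 0 < φ x} := by
        refine ENNReal.toReal_mono (hUfin 0 (le_refl _)) (measure_mono fun x hx => ?_)
        exact lt_of_le_of_lt htS.1.1 hx
      have h3 : (T - t) * ar {x | t < φ x} ≤ ε := by
        have h4 : T - t < ε / (ar {x | 0 < φ x} + 1) := by linarith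
        have h5 : 0 ≤ T - t := by linarith
        calc (T - t) * ar {x | t < φ x} ≤ (T - t) * (ar {x | 0 < φ x} + 1) := by
              refine mul_le_mul_of_nonneg_left (by linarith) h5
          _ ≤ ε / (ar {x | 0 < φ x} + 1) * (ar {x | 0 < φ x} + 1) := by
              refine mul_le_mul_of_nonneg_right h4.le (by linarith)
          _ = ε := by field_simp
      have h6 := htS.2
      have h7 := mul_le_mul_of_nonneg_left (hΘmono t T htle) hs.le
      have h8 := mul_le_mul_of_nonneg_left htle hη.le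
      linarith
    have hTM' : T = M := by
      by_contra hne
      have hlt : T < M := lt_of_le_of_ne hTM hne
      obtain ⟨b0, hb0, hb⟩ := fc_level hΩ hs har hφ hc hsupp hT0 hη
      obtain ⟨b, hbdef⟩ : ∃ b, b = min b0 M := ⟨_, rfl⟩
      have hTb : T < b := by rw [hbdef]; exact lt_min hb0 hlt
      have h1 := hΘstep T b η hTb (hb b hTb (by rw [hbdef]; exact min_le_left _ _))
      have h2 := hF T b hT0 hTb.le
      have h3 := hTS.2
      have h4 : s * Θ T + (b - T) * (ar {x | T < φ x} - η) ≤ s * Θ b := by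
        have := mul_le_mul_of_nonneg_left h1 hs.le
        have h5 : s * (Θ T + (b - T) / s * (ar {x | T < φ x} - η)) =
            s * Θ T + (b - T) * (ar {x | T < φ x} - η) := by
          field_simp
        linarith
      have hbS : b ∈ S := by
        refine ⟨⟨hT0.trans hTb.le, by rw [hbdef]; exact min_le_right _ _⟩, ?_⟩
        nlinarith
      have : b ≤ T := by rw [hT]; exact le_csSup hSb hbS
      linarith
    have h1 := hTS.2
    rw [hTM'] at h1
    have h2 : ∀ x, min (φ x) M = φ x := fun x => min_eq_left (hMφ x).le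
    simp only [h2] at h1
    have h3 := mul_le_mul_of_nonneg_left (hΘle M) hs.le
    linarith
  refine le_of_forall_pos_le_add fun ε hε => ?_
  have h1 := hmain (ε / M) (by positivity)
  rw [div_mul_cancel₀ _ hM.ne'] at h1
  exact h1

end

end Pool.Agent.Lib.MP_4cfb03_an
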