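import Pool.Agent.Lib.MP_4cfb03_an.Defs
import Pool.Agent.Lib.MP_4cfb03_an.Width
import Pool.Agent.Lib.MP_4cfb03_an.Collar
import Pool.Agent.Lib.MP_4cfb03_an.Inner
import Pool.Agent.Lib.MP_4cfb03_an.FunCheeger

/-! # T7 : the Cheeger constant (helper72) -/

open MeasureTheory Set
open scoped ENNReal ContDiff Topology NNReal

namespace Pool.Agent.Lib.MP_4cfb03_an

noncomputable section

theorem hh_trace (L : ℂ →ₗ[ℝ] ℂ) :
    LinearMap.trace ℝ ℂ L = (L 1).re + (L Complex.I).im := by
  rw [LinearMap.trace_eq_matrix_trace ℝ Complex.basisOneI, Matrix.trace_fin_two]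
  simp [LinearMap.toMatrix_apply]

theorem hh_divg (φ : ℂ → ℂ) (x : ℂ) :
    divg φ x = (fderiv ℝ φ x 1).re + (fderiv ℝ φ x Complex.I).im := by
  unfold divg
  rw [hh_trace]
  rfl

theorem hh_apply (L : ℂ →L[ℝ] ℝ) (z : ℂ) : L z = z.re * L 1 + z.im * L Complex.I := by
  have h : z = z.re • (1 : ℂ) + z.im • Complex.I := by
    apply Complex.ext <;> simp
  conv_lhs => rw [h]
  rw [map_add, map_smul, map_smul, smul_eq_mul, smul_eq_mul]

/-- integration by parts, one direction -/
theorem hh_ibp1 {f g : ℂ → ℝ} {K : ℝ≥0} (hf : LipschitzWith K f) (hg : ContDiff ℝ 1 g)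
    (hc : HasCompactSupport g) (v : ℂ) :
    ∫ x, f x * fderiv ℝ g x v = - ∫ x, fderiv ℝ f x v * g x := by
  obtain ⟨D, hD⟩ := hg.lipschitzWith_of_hasCompactSupport hc (by norm_num)
  have key := LipschitzWith.integral_lineDeriv_mul_eq (μ := volume) hf hD hc v
  have h1 : ∫ x, lineDeriv ℝ f x v * g x = ∫ x, fderiv ℝ f x v * g x := by
    refine integral_congr_ae ?_
    filter_upwards [hf.ae_differentiableAt] with x hx
    rw [hx.lineDeriv_eq_fderiv]
  have h2 : ∫ x, lineDeriv ℝ g x (-v) * f x = - ∫ x, f x * fderiv ℝ g x v := by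
    rw [← integral_neg]
    refine integral_congr_ae ?_
    filter_upwards with x
    rw [(hg.differentiable (by norm_num) x).lineDeriv_eq_fderiv, map_neg]
    ring
  rw [h1, h2] at key
  linarith

theorem hh_int1 {f g : ℂ → ℝ} (hf : Continuous f) (hg : ContDiff ℝ 1 g)
    (hc : HasCompactSupport g) (v : ℂ) : Integrable (fun x => f x * fderiv ℝ g x v) := by
  have h1 : Continuous (fun x => fderiv ℝ g x v) :=
    (hg.continuous_fderiv (by norm_num)).clm_apply continuous_const
  refine (hf.mul h1).integrable_of_hasCompactSupport ?_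
  refine HasCompactSupport.mul_left ?_
  exact (hc.fderiv (𝕜 := ℝ)).comp_left (g := fun L : ℂ →L[ℝ] ℝ => L v) (by simp)

theorem hh_int2 {f g : ℂ → ℝ} {K : ℝ≥0} (hf : LipschitzWith K f) (hg : Continuous g)
    (hc : HasCompactSupport g) (v : ℂ) : Integrable (fun x => fderiv ℝ f x v * g x) := by
  have hi : Integrable (fun x => (K : ℝ) * ‖v‖ * |g x|) :=
    (hg.abs.integrable_of_hasCompactSupport (hc.comp_left (g := fun t : ℝ => |t|) (by simp))).const_mul _
  refine Integrable.mono' hi ?_ ?_
  · exact ((measurable_fderiv_apply_const ℝ f v).mul hg.measurable).aestronglyMeasurable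
  · filter_upwards with x
    rw [norm_mul]
    refine mul_le_mul_of_nonneg_right ?_ (norm_nonneg _)
    exact ((fderiv ℝ f x).le_opNorm v).trans
      (mul_le_mul_of_nonneg_right (norm_fderiv_le_of_lipschitz ℝ hf) (norm_nonneg _))

theorem hh_fderiv_re {ψ : ℂ → ℂ} (hψ : ContDiff ℝ 1 ψ) (x v : ℂ) :
    fderiv ℝ (fun y => (ψ y).re) x v = (fderiv ℝ ψ x v).re := by
  have h := (Complex.reCLM.hasFDerivAt (x := ψ x)).comp x
    (hψ.differentiable (by norm_num) x).hasFDerivAt
  have h2 : fderiv ℝ (fun y => (ψ y).re) x = Complex.reCLM.comp (fderiv ℝ ψ x) := h.fderiv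
  rw [h2]
  rfl

theorem hh_fderiv_im {ψ : ℂ → ℂ} (hψ : ContDiff ℝ 1 ψ) (x v : ℂ) :
    fderiv ℝ (fun y => (ψ y).im) x v = (fderiv ℝ ψ x v).im := by
  have h := (Complex.imCLM.hasFDerivAt (x := ψ x)).comp x
    (hψ.differentiable (by norm_num) x).hasFDerivAt
  have h2 : fderiv ℝ (fun y => (ψ y).im) x = Complex.imCLM.comp (fderiv ℝ ψ x) := h.fderiv
  rw [h2]
  rfl

/-- integration by parts -/
theorem hh_ibp {f : ℂ → ℝ} {K : ℝ≥0} (hf : LipschitzWith K f) {ψ : ℂ → ℂ}
    (hψ : ContDiff ℝ 1 ψ) (hc : HasCompactSupport ψ) :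
    ∫ x, f x * divg ψ x = - ∫ x, fderiv ℝ f x (ψ x) := by
  have r1 : ContDiff ℝ 1 (fun y => (ψ y).re) := Complex.reCLM.contDiff.comp hψ
  have r2 : ContDiff ℝ 1 (fun y => (ψ y).im) := Complex.imCLM.contDiff.comp hψ
  have c1 : HasCompactSupport (fun y => (ψ y).re) :=
    hc.comp_left (g := fun z : ℂ => z.re) (by simp)
  have c2 : HasCompactSupport (fun y => (ψ y).im) :=
    hc.comp_left (g := fun z : ℂ => z.im) (by simp)
  have e1 : ∀ x, f x * divg ψ x = f x * fderiv ℝ (fun y => (ψ y).re) x 1 +
      f x * fderiv ℝ (fun y => (ψ y).im) x Complex.I := by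
    intro x
    rw [hh_divg, hh_fderiv_re hψ, hh_fderiv_im hψ]
    ring
  have e2 : ∀ x, fderiv ℝ f x (ψ x) = fderiv ℝ f x 1 * (ψ x).re +
      fderiv ℝ f x Complex.I * (ψ x).im := by
    intro x
    rw [hh_apply]
    ring
  simp_rw [e1, e2]
  rw [integral_add (hh_int1 hf.continuous r1 c1 1) (hh_int1 hf.continuous r2 c2 Complex.I),
    integral_add (hh_int2 hf r1.continuous c1 1) (hh_int2 hf r2.continuous c2 Complex.I),
    hh_ibp1 hf r1 c1, hh_ibp1 hf r2 c2]
  ring

theorem hh_continuous_divg {ψ : ℂ → ℂ} (hψ : ContDiff ℝ 1 ψ) : Continuous (divg ψ) := by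
  have h : divg ψ = fun x => (fderiv ℝ ψ x 1).re + (fderiv ℝ ψ x Complex.I).im :=
    funext (hh_divg ψ)
  rw [h]
  have h1 := hψ.continuous_fderiv (by norm_num)
  exact (Complex.continuous_re.comp (h1.clm_apply continuous_const)).add
    (Complex.continuous_im.comp (h1.clm_apply continuous_const))

theorem hh_compact_divg {ψ : ℂ → ℂ} (hc : HasCompactSupport ψ) : HasCompactSupport (divg ψ) := by
  have h : divg ψ = fun x => (fderiv ℝ ψ x 1).re + (fderiv ℝ ψ x Complex.I).im :=
    funext (hh_divg ψ)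
  rw [h]
  exact (hc.fderiv (𝕜 := ℝ)).comp_left
    (g := fun L : ℂ →L[ℝ] ℂ => (L 1).re + (L Complex.I).im) (by simp)

theorem hh_integrable_divg {ψ : ℂ → ℂ} (hψ : ContDiff ℝ 1 ψ) (hc : HasCompactSupport ψ) :
    Integrable (divg ψ) :=
  (hh_continuous_divg hψ).integrable_of_hasCompactSupport (hh_compact_divg hc)

/-! ### The perimeter of a convex domain -/

/-- the cut off function -/
def hcut (U : Set ℂ) (d : ℝ) (z : ℂ) : ℝ := min 1 (Metric.infDist z Uᶜ / d)

theorem hcut_lip (U : Set ℂ) {d : ℝ} (hd : 0 < d) :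
    LipschitzWith (Real.toNNReal (1 / d)) (hcut U d) := by
  have h1 : LipschitzWith (Real.toNNReal (1 / d)) (fun z => Metric.infDist z Uᶜ / d) := by
    apply LipschitzWith.of_dist_le_mul
    intro x y
    rw [Real.dist_eq, Real.coe_toNNReal _ (by positivity), ← sub_div, abs_div, abs_of_pos hd]
    have := (Metric.lipschitz_infDist_pt (Uᶜ)).dist_le_mul x y
    rw [Real.dist_eq] at this
    simp only [NNReal.coe_one, one_mul] at this
    rw [one_div, inv_mul_eq_div]
    gcongr
  exact h1.const_min 1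

theorem hcut_nonneg (U : Set ℂ) {d : ℝ} (hd : 0 < d) (z : ℂ) : 0 ≤ hcut U d z :=
  le_min zero_le_one (div_nonneg Metric.infDist_nonneg hd.le)

theorem hcut_le_one (U : Set ℂ) {d : ℝ} (z : ℂ) : hcut U d z ≤ 1 := min_le_left _ _

theorem hcut_fderiv_zero (U : Set ℂ) {d : ℝ} (hd : 0 < d) {z : ℂ}
    (h : z ∉ {z ∈ U | Metric.infDist z Uᶜ < d}) : fderiv ℝ (hcut U d) z = 0 := by
  by_cases hz : z ∈ U
  · have h1 : hcut U d z = 1 := by
      have : d ≤ Metric.infDist z Uᶜ := by
        by_contra hc
        exact h ⟨hz, not_le.1 hc⟩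
      unfold hcut
      exact min_eq_left ((one_le_div hd).2 this)
    apply IsLocalMax.fderiv_eq_zero
    filter_upwards with y
    rw [h1]
    exact hcut_le_one U y
  · have h1 : hcut U d z = 0 := by
      have : Metric.infDist z Uᶜ = 0 := Metric.infDist_zero_of_mem hz
      unfold hcut
      rw [this]
      simp
    apply IsLocalMin.fderiv_eq_zero
    filter_upwards with y
    rw [h1]
    exact hcut_nonneg U hd y

theorem perim_le_mw {U : Set ℂ} (hU : Dom U) : perim U ≤ ENNReal.ofReal (mw U) := by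
  unfold perim
  refine iSup_le fun φ => iSup_le fun hφ => iSup_le fun hc => iSup_le fun h1 => ?_
  apply ENNReal.ofReal_le_ofReal
  -- the bound for the cut off
  have hb : ∀ n : ℕ, ∫ x, hcut U (1 / ((n : ℝ) + 1)) x * divg φ x ≤ mw U := by
    intro n
    set d : ℝ := 1 / ((n : ℝ) + 1) with hd
    have hd0 : 0 < d := by rw [hd]; positivity
    rw [hh_ibp (hcut_lip U hd0) hφ hc]
    have hS : MeasurableSet {z ∈ U | Metric.infDist z Uᶜ < d} :=
      hU.isOpen.measurableSet.inter
        (isOpen_lt (Metric.continuous_infDist_pt _) continuous_const).measurableSet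
    have hfin : volume {z ∈ U | Metric.infDist z Uᶜ < d} ≠ ⊤ :=
      ((hU.bounded.subset (sep_subset _ _)).measure_lt_top).ne
    have hle : ∀ x, -(fderiv ℝ (hcut U d) x (φ x)) ≤
        ({z ∈ U | Metric.infDist z Uᶜ < d}).indicator (fun _ => 1 / d) x := by
      intro x
      by_cases hx : x ∈ {z ∈ U | Metric.infDist z Uᶜ < d}
      · rw [indicator_of_mem hx]
        have h2 := (fderiv ℝ (hcut U d) x).le_opNorm (φ x)
        have h3 : ‖fderiv ℝ (hcut U d) x‖ ≤ 1 / d := by
          have := norm_fderiv_le_of_lipschitz ℝ (x₀ := x) (hcut_lip U hd0)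
          rwa [Real.coe_toNNReal _ (by positivity)] at this
        have h4 : ‖fderiv ℝ (hcut U d) x‖ * ‖φ x‖ ≤ 1 / d * 1 :=
          mul_le_mul h3 (h1 x) (norm_nonneg _) (by positivity)
        have h5 := neg_le_abs (fderiv ℝ (hcut U d) x (φ x))
        rw [Real.norm_eq_abs] at h2
        linarith
      · rw [indicator_of_notMem hx, hcut_fderiv_zero U hd0 hx]
        simp
    have hi2 : Integrable (({z ∈ U | Metric.infDist z Uᶜ < d}).indicator (fun _ => 1 / d)) := by
      rw [integrable_indicator_iff hS]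
      exact integrableOn_const hfin
    have hi1 : Integrable (fun x => -(fderiv ℝ (hcut U d) x (φ x))) := by
      have r1 : ContDiff ℝ 1 (fun y => (φ y).re) := Complex.reCLM.contDiff.comp hφ
      have r2 : ContDiff ℝ 1 (fun y => (φ y).im) := Complex.imCLM.contDiff.comp hφ
      have c1 : HasCompactSupport (fun y => (φ y).re) :=
        hc.comp_left (g := fun z : ℂ => z.re) (by simp)
      have c2 : HasCompactSupport (fun y => (φ y).im) :=
        hc.comp_left (g := fun z : ℂ => z.im) (by simp)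
      have h6 := ((hh_int2 (hcut_lip U hd0) r1.continuous c1 1).add
        (hh_int2 (hcut_lip U hd0) r2.continuous c2 Complex.I)).neg
      refine h6.congr ?_
      filter_upwards with x
      simp only [Pi.neg_apply, Pi.add_apply]
      rw [hh_apply (fderiv ℝ (hcut U d) x) (φ x)]
      ring
    rw [← integral_neg]
    refine (integral_mono hi1 hi2 hle).trans ?_
    rw [integral_indicator_const _ hS, smul_eq_mul]
    have h7 := collar_inner hU hd0
    unfold ar at h7
    have h8 : volume.real {z ∈ U | Metric.infDist z Uᶜ < d} =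
        (volume {z ∈ U | Metric.infDist z Uᶜ < d}).toReal := rfl
    rw [h8]
    have h9 : (volume {z ∈ U | Metric.infDist z Uᶜ < d}).toReal * (1 / d) ≤ d * mw U * (1 / d) :=
      mul_le_mul_of_nonneg_right h7 (by positivity)
    have h10 : d * mw U * (1 / d) = mw U := by field_simp
    linarith
  -- the limit
  have hlim : Filter.Tendsto (fun n : ℕ => ∫ x, hcut U (1 / ((n : ℝ) + 1)) x * divg φ x)
      Filter.atTop (𝓝 (∫ x, U.indicator (divg φ) x)) := by
    refine tendsto_integral_of_dominated_convergence (fun x => |divg φ x|) ?_ ?_ ?_ ?_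
    · intro n
      exact ((hcut_lip U (by positivity)).continuous.mul
        (hh_continuous_divg hφ)).aestronglyMeasurable
    · exact (hh_integrable_divg hφ hc).abs
    · intro n
      filter_upwards with x
      rw [norm_mul, Real.norm_eq_abs, Real.norm_eq_abs,
        abs_of_nonneg (hcut_nonneg U (by positivity) x)]
      exact mul_le_of_le_one_left (abs_nonneg _) (hcut_le_one U x)
    · filter_upwards with x
      by_cases hx : x ∈ U
      · rw [indicator_of_mem hx]
        have hcl : IsClosed Uᶜ := hU.isOpen.isClosed_compl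
        have hne : (Uᶜ).Nonempty := by
          by_contra h
          rw [not_nonempty_iff_eq_empty, compl_empty_iff] at h
          have := hU.bounded
          rw [h] at this
          exact NormedSpace.unbounded_univ ℝ ℂ this
        have hpos : 0 < Metric.infDist x Uᶜ :=
          (hcl.notMem_iff_infDist_pos hne).1 (by simpa using hx)
        have : ∀ᶠ n : ℕ in Filter.atTop, hcut U (1 / ((n : ℝ) + 1)) x * divg φ x = divg φ x := by
          obtain ⟨N, hN⟩ := exists_nat_one_div_lt hpos
          filter_upwards [Filter.eventually_ge_atTop N] with n hn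
          have h2 : 1 / ((n : ℝ) + 1) ≤ Metric.infDist x Uᶜ := by
            refine le_trans ?_ hN.le
            apply one_div_le_one_div_of_le (by positivity)
            have : (N : ℝ) ≤ n := by exact_mod_cast hn
            linarith
          unfold hcut
          rw [min_eq_left ((one_le_div (by positivity)).2 h2), one_mul]
        exact tendsto_const_nhds.congr' (Filter.EventuallyEq.symm this)
      · rw [indicator_of_notMem hx]
        have : ∀ n : ℕ, hcut U (1 / ((n : ℝ) + 1)) x * divg φ x = 0 := by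
          intro n
          have h3 : Metric.infDist x Uᶜ = 0 := Metric.infDist_zero_of_mem hx
          unfold hcut
          rw [h3]
          simp
        simp only [this]
        exact tendsto_const_nhds
  rw [integral_indicator hU.isOpen.measurableSet] at hlim
  exact le_of_tendsto' hlim hb

/-! ### The upper bound for the Cheeger constant -/

theorem hh_tele {K : Set ℂ} (hK : IsCompact K) (hc : Convex ℝ K) (hne : K.Nonempty) {δ : ℝ}
    (hδ : 0 < δ) (N : ℕ) :
    ar K + N * δ * mw K + Real.pi * δ ^ 2 * (N * (N - 1)) ≤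
      ar (Metric.cthickening (N * δ) K) := by
  induction N with
  | zero =>
    simp only [Nat.cast_zero, zero_mul, add_zero, mul_zero, Metric.cthickening_zero]
    rw [hK.isClosed.closure_eq]
  | succ N ih =>
    have hNd : 0 ≤ (N : ℝ) * δ := by positivity
    have h1 := collar_outer (C := Metric.cthickening (N * δ) K) hK.cthickening
      (hne.mono (Metric.self_subset_cthickening K)) (hc.cthickening _).isPreconnected hδ
    rw [cthickening_cthickening hδ.le hNd] at h1
    rw [mw_cthickening hK.isBounded hne hNd] at h1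
    have h2 : (((N + 1 : ℕ) : ℝ)) * δ = δ + N * δ := by push_cast; ring
    rw [h2]
    push_cast
    nlinarith

theorem hh_ar_thickening {K : Set ℂ} (hK : IsCompact K) (hc : Convex ℝ K) (hne : K.Nonempty)
    {r : ℝ} (hr : 0 < r) :
    ar K + r * mw K + Real.pi * r ^ 2 ≤ ar (Metric.thickening r K) := by
  have hb : ∀ N : ℕ, ar K + ((N : ℝ) / (N + 1)) * (r * mw K) +
      Real.pi * r ^ 2 * (((N : ℝ) / (N + 1)) * (2 * ((N : ℝ) / (N + 1)) - 1)) ≤
      ar (Metric.thickening r K) := by
    intro N
    have hN : (0 : ℝ) < N + 1 := by positivity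
    have h1 := hh_tele hK hc hne (δ := r / (N + 1)) (by positivity) N
    have h2 : (N : ℝ) * (r / (N + 1)) < r := by
      rw [← mul_div_assoc, div_lt_iff₀ hN]
      nlinarith
    have h3 : ar (Metric.cthickening (N * (r / (N + 1))) K) ≤ ar (Metric.thickening r K) := by
      unfold ar
      apply ENNReal.toReal_mono
      · exact (hK.isBounded.thickening.measure_lt_top).ne
      · exact measure_mono (Metric.cthickening_subset_thickening' hr h2 K)
    refine le_trans (le_of_eq ?_) (h1.trans h3)
    field_simp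
    ring
  have hl : Filter.Tendsto (fun N : ℕ => (N : ℝ) / (N + 1)) Filter.atTop (𝓝 1) :=
    tendsto_natCast_div_add_atTop 1
  have hl2 : Filter.Tendsto (fun N : ℕ => ar K + ((N : ℝ) / (N + 1)) * (r * mw K) +
      Real.pi * r ^ 2 * (((N : ℝ) / (N + 1)) * (2 * ((N : ℝ) / (N + 1)) - 1))) Filter.atTop
      (𝓝 (ar K + 1 * (r * mw K) + Real.pi * r ^ 2 * (1 * (2 * 1 - 1)))) :=
    ((hl.mul_const _).const_add _).add ((hl.mul ((hl.const_mul 2).sub_const 1)).const_mul _)
  have := le_of_tendsto' hl2 hb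
  linarith

theorem hh_dom_thickening {K : Set ℂ} (hb : Bornology.IsBounded K) (hc : Convex ℝ K)
    (hne : K.Nonempty) {r : ℝ} (hr : 0 < r) : Dom (Metric.thickening r K) where
  nonempty := hne.mono (Metric.self_subset_thickening hr K)
  bounded := hb.thickening
  isOpen := Metric.isOpen_thickening
  convex := hc.thickening r

theorem h1_le {Ω : Set ℂ} (hΩ : Dom Ω) {r : ℝ} (hr : 0 < r)
    (har : ar (inn Ω r) = Real.pi * r ^ 2) : h1 Ω ≤ 1 / r := by
  set K := inn Ω r with hKdef
  have hK : IsCompact K := isCompact_inn hΩ hr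
  have hc : Convex ℝ K := convex_inn hΩ r
  have hpi := Real.pi_pos
  have hne : K.Nonempty := by
    by_contra h
    rw [not_nonempty_iff_eq_empty] at h
    rw [h] at har
    unfold ar at har
    rw [measure_empty, ENNReal.toReal_zero] at har
    have : 0 < Real.pi * r ^ 2 := by positivity
    linarith
  have hE := hh_dom_thickening hK.isBounded hc hne hr
  have hEΩ : Metric.thickening r K ⊆ Ω := by
    intro z hz
    obtain ⟨k, hk, hzk⟩ := Metric.mem_thickening_iff.1 hz
    exact hk (Metric.mem_ball.2 hzk)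
  have h2 := hh_ar_thickening hK hc hne hr
  rw [har] at h2
  have h3 := mw_thickening hK.isBounded hne hr
  have hmw := mw_nonneg K
  have h4 : r * mw (Metric.thickening r K) ≤ ar (Metric.thickening r K) := by
    rw [h3]
    linarith
  have h5 : 0 < ar (Metric.thickening r K) := by
    have : 0 ≤ r * mw K := by positivity
    have : 0 < Real.pi * r ^ 2 := by positivity
    linarith
  have hfin : volume (Metric.thickening r K) ≠ ⊤ := (hE.bounded.measure_lt_top).ne
  have hvol : volume (Metric.thickening r K) = ENNReal.ofReal (ar (Metric.thickening r K)) := by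
    unfold ar
    rw [ENNReal.ofReal_toReal hfin]
  have hpos : 0 < volume (Metric.thickening r K) := by
    rw [hvol]
    exact ENNReal.ofReal_pos.2 h5
  have h6 : cheeger Ω ≤ perim (Metric.thickening r K) / volume (Metric.thickening r K) := by
    unfold cheeger
    exact iInf_le_of_le _ (iInf_le_of_le hE.isOpen.measurableSet
      (iInf_le_of_le hEΩ (iInf_le_of_le hpos le_rfl)))
  have h7 : cheeger Ω ≤ ENNReal.ofReal (1 / r) := by
    refine h6.trans (ENNReal.div_le_of_le_mul ?_)
    refine (perim_le_mw hE).trans ?_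
    rw [hvol, ← ENNReal.ofReal_mul (by positivity)]
    apply ENNReal.ofReal_le_ofReal
    rw [one_div, inv_mul_eq_div, le_div_iff₀ hr]
    linarith
  exact ENNReal.toReal_le_of_le_ofReal (by positivity) h7

/-! ### The lower bound for the Cheeger constant -/

theorem hh_inn_thickening {Ω : Set ℂ} (hΩ : Dom Ω) {s e : ℝ} (he : 0 < e) :
    inn (Metric.thickening e Ω) (s + e) ⊆ inn Ω s := by
  intro z hz w hw
  by_contra hwΩ
  obtain ⟨f, hf⟩ := geometric_hahn_banach_open_point hΩ.convex hΩ.isOpen hwΩ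
  obtain ⟨x1, hx1⟩ := hΩ.nonempty
  set v : ℂ := ⟨f 1, f Complex.I⟩ with hv
  have hfv : f v = ‖v‖ ^ 2 := by
    rw [hh_apply f v, ← Complex.normSq_eq_norm_sq, Complex.normSq_apply]
  have hfle : ∀ y : ℂ, f y ≤ ‖v‖ * ‖y‖ := by
    intro y
    have h1 : f y = inner ℝ v y := by
      rw [hh_apply f y, Complex.inner]
      simp [hv]
    rw [h1]
    exact real_inner_le_norm v y
  have hv0 : 0 < ‖v‖ := by
    rw [norm_pos_iff]
    intro h0
    have h1 := hf x1 hx1
    have h2 := hfle (w - x1)
    rw [h0, norm_zero, zero_mul, map_sub] at h2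
    linarith
  rw [Metric.mem_ball] at hw
  set δ := s - dist w z with hδ
  have hδ0 : 0 < δ := by rw [hδ]; linarith
  set w' : ℂ := w + ((e + δ / 2) / ‖v‖) • v with hw'
  have hd : dist w' w = e + δ / 2 := by
    rw [hw', dist_eq_norm, add_sub_cancel_left, norm_smul, Real.norm_eq_abs,
      abs_of_pos (by positivity)]
    field_simp
  have hw'z : w' ∈ Metric.ball z (s + e) := by
    rw [Metric.mem_ball]
    have := dist_triangle w' w z
    linarith
  obtain ⟨x, hx, hxd⟩ := Metric.mem_thickening_iff.1 (hz hw'z)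
  have h1 := hfle (w' - x)
  rw [map_sub, ← dist_eq_norm] at h1
  have h2 : f w' = f w + (e + δ / 2) * ‖v‖ := by
    rw [hw', map_add, map_smul, smul_eq_mul, hfv]
    field_simp
  have h3 := hf x hx
  have h4 : ‖v‖ * dist w' x < ‖v‖ * e := mul_lt_mul_of_pos_left hxd hv0
  have h5 : 0 < δ / 2 * ‖v‖ := by positivity
  rw [h2] at h1
  linarith

/-- the perimeter tests against compactly supported fields -/
theorem hh_test {A : Set ℂ} (hP : perim A ≠ ⊤) {Ψ : ℂ → ℂ} (h1 : ContDiff ℝ 1 Ψ)
    (hc : HasCompactSupport Ψ) (hb : ∀ x, ‖Ψ x‖ ≤ 1) :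
    ∫ x in A, divg Ψ x ≤ (perim A).toReal := by
  rw [← ENNReal.ofReal_le_iff_le_toReal hP]
  unfold perim
  exact le_iSup_of_le Ψ (le_iSup_of_le h1 (le_iSup_of_le hc (le_iSup_of_le hb le_rfl)))

/-- duality for the total variation of a smooth function -/
theorem hh_dual {φ : ℂ → ℝ} (hφ : ContDiff ℝ ∞ φ) (hc : HasCompactSupport φ) {P : ℝ}
    (hP : ∀ ψ : ℂ → ℂ, ContDiff ℝ 1 ψ → HasCompactSupport ψ → (∀ x, ‖ψ x‖ ≤ 1) →
      ∫ x, φ x * divg ψ x ≤ P) : ∫ x, ‖fderiv ℝ φ x‖ ≤ P := by
  obtain ⟨K, hK⟩ := (hφ.of_le (by norm_num) : ContDiff ℝ 1 φ).lipschitzWith_of_hasCompactSupport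
    hc (by norm_num)
  set G : ℂ → ℂ := fun x => (fderiv ℝ φ x 1 : ℂ) + (fderiv ℝ φ x Complex.I : ℂ) * Complex.I
    with hG
  have hGre : ∀ x, (G x).re = fderiv ℝ φ x 1 := by intro x; simp [hG]
  have hGim : ∀ x, (G x).im = fderiv ℝ φ x Complex.I := by intro x; simp [hG]
  have hf1 : ContDiff ℝ 1 (fderiv ℝ φ) := hφ.fderiv_right (by norm_cast)
  have hGc : ContDiff ℝ 1 G := by
    rw [hG]
    exact (Complex.ofRealCLM.contDiff.comp (hf1.clm_apply contDiff_const)).add
      ((Complex.ofRealCLM.contDiff.comp (hf1.clm_apply contDiff_const)).mul contDiff_const)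
  have hGs : HasCompactSupport G :=
    (hc.fderiv (𝕜 := ℝ)).comp_left
      (g := fun L : ℂ →L[ℝ] ℝ => (L 1 : ℂ) + (L Complex.I : ℂ) * Complex.I) (by simp)
  have hGn : ∀ x, ‖G x‖ ^ 2 = (fderiv ℝ φ x 1) ^ 2 + (fderiv ℝ φ x Complex.I) ^ 2 := by
    intro x
    rw [← Complex.normSq_eq_norm_sq, Complex.normSq_apply, hGre, hGim]
    ring
  have hGapp : ∀ x, fderiv ℝ φ x (G x) = ‖G x‖ ^ 2 := by
    intro x
    rw [hh_apply (fderiv ℝ φ x) (G x), hGre, hGim, hGn]
    ring
  have hle : ∀ x, ‖fderiv ℝ φ x‖ ≤ ‖G x‖ := by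
    intro x
    apply ContinuousLinearMap.opNorm_le_bound _ (norm_nonneg _)
    intro z
    have h1 : fderiv ℝ φ x z = inner ℝ (G x) z := by
      rw [hh_apply (fderiv ℝ φ x) z, Complex.inner]
      simp [hGre, hGim]
    rw [h1]
    exact norm_inner_le_norm _ _
  set V : ℝ := (volume (tsupport φ)).toReal with hV
  have hcpt : IsCompact (tsupport φ) := hc
  have hVfin : volume (tsupport φ) ≠ ⊤ := hcpt.measure_lt_top.ne
  have hV0 : 0 ≤ V := ENNReal.toReal_nonneg
  have hk : ∀ k : ℝ, 0 < k → ∫ x, ‖fderiv ℝ φ x‖ ≤ P + k * V := by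
    intro k hk
    set q : ℂ → ℝ := fun x => (Real.sqrt (‖G x‖ ^ 2 + k ^ 2))⁻¹ with hq
    have hpos : ∀ x, 0 < ‖G x‖ ^ 2 + k ^ 2 := by intro x; positivity
    have hqc : ContDiff ℝ 1 q := by
      rw [hq]
      refine ContDiff.inv (ContDiff.sqrt ?_ fun x => (hpos x).ne')
        fun x => (Real.sqrt_pos.2 (hpos x)).ne'
      exact (hGc.norm_sq ℝ).add contDiff_const
    set ψ : ℂ → ℂ := fun x => -(q x • G x) with hψ
    have hψc : ContDiff ℝ 1 ψ := (hqc.smul hGc).neg
    have hψs : HasCompactSupport ψ := by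
      rw [hψ]
      exact (hGs.smul_left (f := q)).comp_left (g := fun z : ℂ => -z) (by simp)
    have hqn : ∀ x, ‖G x‖ ≤ Real.sqrt (‖G x‖ ^ 2 + k ^ 2) := by
      intro x
      apply Real.le_sqrt_of_sq_le
      nlinarith
    have hψ1 : ∀ x, ‖ψ x‖ ≤ 1 := by
      intro x
      simp only [hψ, hq, norm_neg, norm_smul, Real.norm_eq_abs]
      rw [abs_of_pos (inv_pos.2 (Real.sqrt_pos.2 (hpos x))), inv_mul_le_iff₀
        (Real.sqrt_pos.2 (hpos x)), mul_one]
      exact hqn x
    have h1 := hP ψ hψc hψs hψ1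
    rw [hh_ibp hK hψc hψs] at h1
    have h2 : ∀ x, fderiv ℝ φ x (ψ x) = -(q x * ‖G x‖ ^ 2) := by
      intro x
      simp only [hψ]
      rw [map_neg, map_smul, hGapp, smul_eq_mul]
    simp_rw [h2] at h1
    rw [integral_neg, neg_neg] at h1
    have hpt : ∀ x, ‖fderiv ℝ φ x‖ ≤ q x * ‖G x‖ ^ 2 + (tsupport φ).indicator (fun _ => k) x := by
      intro x
      by_cases hx : x ∈ tsupport φ
      · rw [indicator_of_mem hx]
        refine (hle x).trans ?_
        have h3 : Real.sqrt (‖G x‖ ^ 2 + k ^ 2) ≤ ‖G x‖ + k := by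
          rw [Real.sqrt_le_left (by positivity)]
          nlinarith [norm_nonneg (G x)]
        have h4 := Real.sqrt_pos.2 (hpos x)
        have h5 : (‖G x‖ - k) * Real.sqrt (‖G x‖ ^ 2 + k ^ 2) ≤ ‖G x‖ ^ 2 := by
          rcases le_total k ‖G x‖ with h | h
          · calc (‖G x‖ - k) * Real.sqrt (‖G x‖ ^ 2 + k ^ 2) ≤ (‖G x‖ - k) * (‖G x‖ + k) :=
                  mul_le_mul_of_nonneg_left h3 (by linarith)
              _ ≤ ‖G x‖ ^ 2 := by nlinarith
          · have : (‖G x‖ - k) * Real.sqrt (‖G x‖ ^ 2 + k ^ 2) ≤ 0 :=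
              mul_nonpos_of_nonpos_of_nonneg (by linarith) h4.le
            nlinarith [sq_nonneg ‖G x‖]
        have h6 : ‖G x‖ - k ≤ q x * ‖G x‖ ^ 2 := by
          rw [hq, inv_mul_eq_div, le_div_iff₀ h4]
          exact h5
        linarith
      · rw [indicator_of_notMem hx]
        have h3 : fderiv ℝ φ x = 0 := by
          by_contra h
          exact hx (support_fderiv_subset ℝ h)
        rw [h3, norm_zero, add_zero]
        exact mul_nonneg (inv_nonneg.2 (Real.sqrt_nonneg _)) (sq_nonneg _)
    have hi1 : Integrable (fun x => ‖fderiv ℝ φ x‖) :=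
      (hf1.continuous.norm).integrable_of_hasCompactSupport
        ((hc.fderiv (𝕜 := ℝ)).comp_left (g := fun L : ℂ →L[ℝ] ℝ => ‖L‖) (by simp))
    have hi2c : Continuous (fun x => q x * ‖G x‖ ^ 2) :=
      hqc.continuous.mul (hGc.continuous.norm.pow 2)
    have hi2s : HasCompactSupport (fun x => ‖G x‖ ^ 2) :=
      hGs.comp_left (g := fun z : ℂ => ‖z‖ ^ 2) (by simp)
    have hi2s' : HasCompactSupport (fun x => q x * ‖G x‖ ^ 2) :=
      HasCompactSupport.mul_left (f := q) hi2s
    have hi2 : Integrable (fun x => q x * ‖G x‖ ^ 2) :=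
      hi2c.integrable_of_hasCompactSupport hi2s'
    have hi3 : Integrable ((tsupport φ).indicator (fun _ => k)) := by
      rw [integrable_indicator_iff (isClosed_tsupport φ).measurableSet]
      exact integrableOn_const hVfin
    refine (integral_mono hi1 (hi2.add hi3) hpt).trans ?_
    have h7 : ∫ x, (q x * ‖G x‖ ^ 2 + (tsupport φ).indicator (fun _ => k) x) =
        (∫ x, q x * ‖G x‖ ^ 2) + ∫ x, (tsupport φ).indicator (fun _ => k) x :=
      integral_add hi2 hi3
    have h8 : ∫ x, (tsupport φ).indicator (fun _ => k) x = V * k := by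
      rw [integral_indicator_const _ (isClosed_tsupport φ).measurableSet, smul_eq_mul]
      rfl
    refine (le_of_eq h7).trans ?_
    rw [h8]
    linarith
  apply le_of_forall_pos_le_add
  intro ε hε
  have h1 := hk (ε / (V + 1)) (by positivity)
  have h2 : ε / (V + 1) * V ≤ ε := by
    rw [div_mul_eq_mul_div, div_le_iff₀ (by positivity)]
    nlinarith
  linarith

/-- moving the mollifier to the other factor -/
theorem hh_conv_swap {ρ χ g : ℂ → ℝ} (hρ : Integrable ρ) (hρe : ∀ x, ρ (-x) = ρ x)
    (hχ : Integrable χ) (hg : Continuous g) {C : ℝ} (hgC : ∀ x, |g x| ≤ C) :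
    ∫ y, (∫ t, ρ t * χ (y - t)) * g y = ∫ x, χ x * ∫ t, ρ t * g (x - t) := by
  have i1 : Integrable (fun p : ℂ × ℂ => ρ p.2 * χ (p.1 - p.2) * g p.1)
      (volume.prod volume) := by
    have h := hρ.convolution_integrand (ContinuousLinearMap.mul ℝ ℝ) hχ
    simp only [ContinuousLinearMap.mul_apply'] at h
    exact h.mul_bdd (c := C) (hg.comp continuous_fst).aestronglyMeasurable
      (Filter.Eventually.of_forall fun x => hgC _)
  have i2 : Integrable (fun p : ℂ × ℂ => ρ p.1 * χ p.2 * g (p.2 + p.1))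
      (volume.prod volume) := by
    have h := hρ.mul_prod hχ
    exact h.mul_bdd (c := C) (hg.comp (continuous_snd.add continuous_fst)).aestronglyMeasurable
      (Filter.Eventually.of_forall fun x => hgC _)
  calc ∫ y, (∫ t, ρ t * χ (y - t)) * g y
      = ∫ y, ∫ t, ρ t * χ (y - t) * g y := by
        refine integral_congr_ae (Filter.Eventually.of_forall fun y => ?_)
        exact (integral_mul_const (g y) fun t => ρ t * χ (y - t)).symm
    _ = ∫ t, ∫ y, ρ t * χ (y - t) * g y := integral_integral_swap i1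
    _ = ∫ t, ∫ x, ρ t * χ x * g (x + t) := by
        refine integral_congr_ae (Filter.Eventually.of_forall fun t => ?_)
        have := integral_sub_right_eq_self (μ := (volume : Measure ℂ))
          (fun x => ρ t * χ x * g (x + t)) t
        simp only [sub_add_cancel] at this
        exact this
    _ = ∫ x, ∫ t, ρ t * χ x * g (x + t) := integral_integral_swap i2
    _ = ∫ x, χ x * ∫ t, ρ t * g (x - t) := by
        refine integral_congr_ae (Filter.Eventually.of_forall fun x => ?_)
        have h1 : ∫ t, ρ t * χ x * g (x + t) = χ x * ∫ t, ρ t * g (x + t) := by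
          rw [← integral_const_mul]
          refine integral_congr_ae (Filter.Eventually.of_forall fun t => ?_)
          simp only
          ring
        have h2 : ∫ t, ρ t * g (x + t) = ∫ t, ρ t * g (x - t) := by
          rw [← integral_neg_eq_self]
          refine integral_congr_ae (Filter.Eventually.of_forall fun t => ?_)
          simp only
          rw [hρe, sub_eq_add_neg]
        show ∫ t, ρ t * χ x * g (x + t) = χ x * ∫ t, ρ t * g (x - t)
        rw [h1, h2]

open scoped Convolution in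
/-- mollified indicator functions have total variation at most the perimeter -/
theorem hh_mollify {A : Set ℂ} (hA : MeasurableSet A) (hAb : Bornology.IsBounded A)
    (hP : perim A ≠ ⊤) (b : ContDiffBump (0 : ℂ)) {ψ : ℂ → ℂ} (hψ : ContDiff ℝ 1 ψ)
    (hc : HasCompactSupport ψ) (hb : ∀ x, ‖ψ x‖ ≤ 1) :
    ∫ x, ((b.normed volume) ⋆[ContinuousLinearMap.mul ℝ ℝ, volume] (A.indicator fun _ => (1 : ℝ))) x
      * divg ψ x ≤ (perim A).toReal := by
  set ρ : ℂ → ℝ := b.normed volume with hρ
  have hρi : Integrable ρ := b.integrable_normed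
  have hρ0 : ∀ x, 0 ≤ ρ x := b.nonneg_normed
  have hρe : ∀ x, ρ (-x) = ρ x := b.normed_neg
  have hχ : Integrable (A.indicator fun _ => (1 : ℝ)) := by
    rw [integrable_indicator_iff hA]
    exact integrableOn_const hAb.measure_lt_top.ne
  have hgc := hh_continuous_divg hψ
  obtain ⟨C, hC⟩ := hgc.bounded_above_of_compact_support (hh_compact_divg hc)
  have key := hh_conv_swap hρi hρe hχ hgc (C := C) (fun x => by simpa using hC x)
  have e1 : ∫ x, (ρ ⋆[ContinuousLinearMap.mul ℝ ℝ, volume] (A.indicator fun _ => (1 : ℝ))) x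
      * divg ψ x = ∫ x, A.indicator (fun _ => (1 : ℝ)) x * ∫ t, ρ t * divg ψ (x - t) := key
  rw [e1]
  -- the mollified field
  set Ψ : ℂ → ℂ := ρ ⋆[ContinuousLinearMap.lsmul ℝ ℝ, volume] ψ with hΨ
  have hΨ1 : ContDiff ℝ 1 Ψ :=
    hc.contDiff_convolution_right (n := 1) _ hρi.locallyIntegrable hψ
  have hΨc : HasCompactSupport Ψ :=
    (b.hasCompactSupport_normed (μ := volume)).convolution _ hc
  have hΨb : ∀ x, ‖Ψ x‖ ≤ 1 := by
    intro x
    have h1 : Ψ x = ∫ t, ρ t • ψ (x - t) := rfl
    rw [h1]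
    have h2 : ∫ t, ρ t = 1 := b.integral_normed
    rw [← h2]
    apply norm_integral_le_of_norm_le hρi
    filter_upwards with t
    rw [norm_smul, Real.norm_eq_abs, abs_of_nonneg (hρ0 t)]
    exact mul_le_of_le_one_right (hρ0 t) (hb _)
  have hΨd : ∀ x, divg Ψ x = ∫ t, ρ t * divg ψ (x - t) := by
    intro x
    have h1 := hc.hasFDerivAt_convolution_right (ContinuousLinearMap.lsmul ℝ ℝ)
      hρi.locallyIntegrable hψ x
    have hfc : Continuous (fderiv ℝ ψ) := hψ.continuous_fderiv (by norm_num)
    have hfs : HasCompactSupport (fderiv ℝ ψ) := hc.fderiv (𝕜 := ℝ)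
    have h2 : ∀ v, fderiv ℝ Ψ x v = ∫ t, ρ t • fderiv ℝ ψ (x - t) v := by
      intro v
      rw [hΨ, h1.fderiv, convolution_precompR_apply _ hρi.locallyIntegrable hfs hfc]
      rfl
    have h3 : ∀ v, Integrable (fun t => ρ t • fderiv ℝ ψ (x - t) v) := by
      intro v
      have hcv : Continuous (fun a => fderiv ℝ ψ a v) := hfc.clm_apply continuous_const
      have hsv : HasCompactSupport (fun a => fderiv ℝ ψ a v) :=
        hfs.comp_left (g := fun L : ℂ →L[ℝ] ℂ => L v) (by simp)
      exact hsv.convolutionExists_right (ContinuousLinearMap.lsmul ℝ ℝ)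
        hρi.locallyIntegrable hcv x
    have h4 : (∫ t, ρ t • fderiv ℝ ψ (x - t) 1).re = ∫ t, ρ t * (fderiv ℝ ψ (x - t) 1).re := by
      have := Complex.reCLM.integral_comp_comm (h3 1)
      simp only [Complex.reCLM_apply, Complex.real_smul, Complex.re_ofReal_mul] at this
      simp only [Complex.real_smul]
      exact this.symm
    have h5 : (∫ t, ρ t • fderiv ℝ ψ (x - t) Complex.I).im =
        ∫ t, ρ t * (fderiv ℝ ψ (x - t) Complex.I).im := by
      have := Complex.imCLM.integral_comp_comm (h3 Complex.I)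
      simp only [Complex.imCLM_apply, Complex.real_smul, Complex.im_ofReal_mul] at this
      simp only [Complex.real_smul]
      exact this.symm
    have h6 : Integrable (fun t => ρ t * (fderiv ℝ ψ (x - t) 1).re) := by
      have := Complex.reCLM.integrable_comp (h3 1)
      simpa [Complex.real_smul] using this
    have h7 : Integrable (fun t => ρ t * (fderiv ℝ ψ (x - t) Complex.I).im) := by
      have := Complex.imCLM.integrable_comp (h3 Complex.I)
      simpa [Complex.real_smul] using this
    rw [hh_divg, h2, h2, h4, h5, ← integral_add h6 h7]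
    refine integral_congr_ae (Filter.Eventually.of_forall fun t => ?_)
    simp only
    rw [hh_divg]
    ring
  have h8 := hh_test hP hΨ1 hΨc hΨb
  refine le_trans (le_of_eq ?_) h8
  rw [← integral_indicator hA]
  refine integral_congr_ae (Filter.Eventually.of_forall fun x => ?_)
  simp only
  by_cases hx : x ∈ A
  · rw [indicator_of_mem hx, indicator_of_mem hx, one_mul, hΨd]
  · rw [indicator_of_notMem hx, indicator_of_notMem hx, zero_mul]

open scoped Convolution in
theorem hh_area_le {Ω : Set ℂ} (hΩ : Dom Ω) {s : ℝ} (hs : 0 < s)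
    (har : ar (inn Ω s) ≤ Real.pi * s ^ 2) {A : Set ℂ} (hA : MeasurableSet A) (hAΩ : A ⊆ Ω)
    (hP : perim A ≠ ⊤) {e : ℝ} (he : 0 < e) : ar A ≤ (s + e) * (perim A).toReal := by
  have hAb : Bornology.IsBounded A := hΩ.bounded.subset hAΩ
  let b : ContDiffBump (0 : ℂ) := ⟨e / 4, e / 2, by positivity, by linarith⟩
  set φ : ℂ → ℝ := (b.normed volume) ⋆[ContinuousLinearMap.mul ℝ ℝ, volume]
    (A.indicator fun _ => (1 : ℝ)) with hφ
  have hχ : Integrable (A.indicator fun _ => (1 : ℝ)) := by
    rw [integrable_indicator_iff hA]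
    exact integrableOn_const hAb.measure_lt_top.ne
  have hφs : ContDiff ℝ ∞ φ :=
    b.hasCompactSupport_normed.contDiff_convolution_left _ b.contDiff_normed
      hχ.locallyIntegrable
  have hφ0 : ∀ x, 0 ≤ φ x := by
    intro x
    have h1 : φ x = ∫ t, b.normed volume t * A.indicator (fun _ => (1 : ℝ)) (x - t) := rfl
    rw [h1]
    apply integral_nonneg
    intro t
    exact mul_nonneg (b.nonneg_normed t) (indicator_nonneg (fun _ _ => zero_le_one) _)
  have hsupp : Function.support φ ⊆ Metric.thickening (e / 2) Ω := by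
    refine (support_convolution_subset (ContinuousLinearMap.mul ℝ ℝ)).trans ?_
    rw [b.support_normed_eq]
    rintro x ⟨y, hy, z, hz, rfl⟩
    have hzA : z ∈ A := by
      by_contra h
      exact hz (indicator_of_notMem h _)
    rw [Metric.mem_thickening_iff]
    refine ⟨z, hAΩ hzA, ?_⟩
    simp only [dist_add_self_left]
    have : ‖y‖ < e / 2 := by simpa [b] using hy
    exact this
  have htsupp : tsupport φ ⊆ Metric.thickening e Ω := by
    refine (closure_mono hsupp).trans ?_
    refine (Metric.closure_thickening_subset_cthickening (e / 2) Ω).trans ?_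
    exact Metric.cthickening_subset_thickening' he (by linarith) Ω
  have hφc : HasCompactSupport φ := by
    refine HasCompactSupport.of_support_subset_isCompact
      (K := Metric.cthickening (e / 2) (closure Ω)) ?_ ?_
    · exact (hΩ.bounded.isCompact_closure).cthickening
    · refine hsupp.trans ?_
      refine (Metric.thickening_subset_cthickening _ _).trans ?_
      exact Metric.cthickening_subset_of_subset _ subset_closure
  have hD : Dom (Metric.thickening e Ω) := hh_dom_thickening hΩ.bounded hΩ.convex hΩ.nonempty he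
  have har' : ar (inn (Metric.thickening e Ω) (s + e)) ≤ Real.pi * (s + e) ^ 2 := by
    have h1 : ar (inn (Metric.thickening e Ω) (s + e)) ≤ ar (inn Ω s) := by
      unfold ar
      apply ENNReal.toReal_mono
      · exact (isCompact_inn hΩ hs).measure_lt_top.ne
      · exact measure_mono (hh_inn_thickening hΩ he)
    have h2 : Real.pi * s ^ 2 ≤ Real.pi * (s + e) ^ 2 := by
      have := Real.pi_pos
      apply mul_le_mul_of_nonneg_left _ this.le
      nlinarith
    linarith
  have h3 := fun_cheeger hD (by linarith : 0 < s + e) har' hφs hφ0 hφc htsupp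
  have h4 : ∫ x, φ x = ar A := by
    rw [hφ, integral_convolution _ b.integrable_normed hχ, b.integral_normed,
      integral_indicator_const _ hA]
    simp [ar, Measure.real]
  have h5 : ∫ x, ‖fderiv ℝ φ x‖ ≤ (perim A).toReal :=
    hh_dual hφs hφc fun ψ h1 h2 h3 => hh_mollify hA hAb hP b h1 h2 h3
  rw [h4] at h3
  exact h3.trans (mul_le_mul_of_nonneg_left h5 (by linarith))

theorem hh_dom_volume {Ω : Set ℂ} (hΩ : Dom Ω) : 0 < volume Ω :=
  hΩ.isOpen.measure_pos volume hΩ.nonempty

theorem inv_le_h1 {Ω : Set ℂ} (hΩ : Dom Ω) {s : ℝ} (hs : 0 < s)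
    (har : ar (inn Ω s) ≤ Real.pi * s ^ 2) : 1 / s ≤ h1 Ω := by
  have hfin : cheeger Ω ≠ ⊤ := by
    have h1 : cheeger Ω ≤ perim Ω / volume Ω := by
      unfold cheeger
      exact iInf_le_of_le _ (iInf_le_of_le hΩ.isOpen.measurableSet
        (iInf_le_of_le le_rfl (iInf_le_of_le (hh_dom_volume hΩ) le_rfl)))
    have h2 : perim Ω / volume Ω < ⊤ := by
      apply ENNReal.div_lt_top
      · exact ne_top_of_le_ne_top ENNReal.ofReal_ne_top (perim_le_mw hΩ)
      · exact (hh_dom_volume hΩ).ne'
    exact (h1.trans_lt h2).ne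
  unfold h1
  rw [← ENNReal.ofReal_le_iff_le_toReal hfin]
  unfold cheeger
  refine le_iInf fun A => le_iInf fun hA => le_iInf fun hAΩ => le_iInf fun hA0 => ?_
  by_cases hP : perim A = ⊤
  · rw [hP, ENNReal.top_div_of_ne_top]
    · exact le_top
    · exact (hΩ.bounded.subset hAΩ).measure_lt_top.ne
  have hAfin : volume A ≠ ⊤ := (hΩ.bounded.subset hAΩ).measure_lt_top.ne
  have h2 : ar A ≤ s * (perim A).toReal := by
    apply le_of_forall_pos_le_add
    intro ε hε
    have h3 := hh_area_le hΩ hs har hA hAΩ hP (e := ε / ((perim A).toReal + 1))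
      (by have : 0 ≤ (perim A).toReal := ENNReal.toReal_nonneg
          positivity)
    have h4 : ε / ((perim A).toReal + 1) * (perim A).toReal ≤ ε := by
      have h5 : 0 ≤ (perim A).toReal := ENNReal.toReal_nonneg
      rw [div_mul_eq_mul_div, div_le_iff₀ (by positivity)]
      nlinarith
    linarith
  rw [ENNReal.le_div_iff_mul_le (Or.inl hA0.ne') (Or.inl hAfin)]
  have h6 : volume A = ENNReal.ofReal (ar A) := by
    unfold ar
    rw [ENNReal.ofReal_toReal hAfin]
  rw [h6, ← ENNReal.ofReal_mul (by positivity)]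
  rw [← ENNReal.ofReal_toReal hP]
  apply ENNReal.ofReal_le_ofReal
  rw [one_div, inv_mul_eq_div, div_le_iff₀ hs]
  linarith

end

end Pool.Agent.Lib.MP_4cfb03_an
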