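import Pool.Agent.Lib.MP_4cfb03_an.Width
import Pool.Agent.Lib.MP_4cfb03_an.Inner
import Pool.Agent.Lib.MP_4cfb03_an.H1

/-!
# Stability of the Cheeger constant under small perturbations
-/

open MeasureTheory Set
open scoped ENNReal ContDiff Topology

namespace Pool.Agent.Lib.MP_4cfb03_an

noncomputable section

/-- If `A ⊆ B_τ(B)` and `B_s(x) ⊆ A` then `B_{s-τ}(x) ⊆ B`, for a convex open `B`. -/
theorem stab_inn_sub {A B : Set ℂ} (hB : Dom B) {τ s : ℝ} (hτ : 0 < τ)
    (hAB : A ⊆ Metric.thickening τ B) : inn A s ⊆ inn B (s - τ) := by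
  intro x hx y hy
  by_contra hyB
  obtain ⟨f, hf⟩ := geometric_hahn_banach_open_point hB.convex hB.isOpen hyB
  obtain ⟨b0, hb0⟩ := hB.nonempty
  set v : ℂ := (InnerProductSpace.toDual ℝ ℂ).symm f with hv
  have hfv : ∀ w, f w = inner ℝ v w := fun w => by
    rw [hv, InnerProductSpace.toDual_symm_apply]
  have hvne : v ≠ 0 := by
    intro h0
    have := hf b0 hb0
    rw [hfv, hfv, h0] at this
    simp at this
  have hvpos : 0 < ‖v‖ := norm_pos_iff.mpr hvne
  have hyd : ‖y - x‖ < s - τ := by simpa [dist_eq_norm] using hy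
  set ε : ℝ := (s - τ - ‖y - x‖) / 2 with hε
  have hεpos : 0 < ε := by rw [hε]; linarith
  set t : ℝ := τ + ε with ht
  set p : ℂ := y + (t / ‖v‖) • v with hp
  have hpx : p ∈ Metric.ball x s := by
    rw [Metric.mem_ball, dist_eq_norm, hp]
    have h1 : y + (t / ‖v‖) • v - x = (y - x) + (t / ‖v‖) • v := by ring
    rw [h1]
    calc ‖(y - x) + (t / ‖v‖) • v‖ ≤ ‖y - x‖ + ‖(t / ‖v‖) • v‖ := norm_add_le _ _
      _ = ‖y - x‖ + t := by
        rw [norm_smul, Real.norm_eq_abs, abs_of_pos (by positivity)]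
        field_simp
      _ < s := by rw [ht, hε]; linarith
  have hpA : p ∈ Metric.thickening τ B := hAB (hx hpx)
  rw [Metric.mem_thickening_iff] at hpA
  obtain ⟨b, hb, hpb⟩ := hpA
  have h1 := hf b hb
  have h2 : f p = f y + t * ‖v‖ := by
    rw [hp, map_add, map_smul, hfv v, real_inner_self_eq_norm_sq]
    field_simp
    simp only [smul_eq_mul]
    field_simp
  have h3 : f p - f b ≤ ‖v‖ * τ := by
    rw [← map_sub, hfv]
    calc inner ℝ v (p - b) ≤ ‖v‖ * ‖p - b‖ := real_inner_le_norm _ _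
      _ ≤ ‖v‖ * τ := by
        apply mul_le_mul_of_nonneg_left _ hvpos.le
        rw [← dist_eq_norm]; exact hpb.le
  have h4 : t * ‖v‖ < ‖v‖ * τ := by linarith
  have h5 : ‖v‖ * τ < t * ‖v‖ := by
    rw [ht]; nlinarith
  linarith

theorem stab_homothety_inn {Ω : Set ℂ} (hΩ : Dom Ω) {z : ℂ} {s t κ : ℝ} (hs : 0 < s) (ht : 0 < t)
    (hz : z ∈ inn Ω t) (h0 : 0 ≤ κ) (h1 : κ ≤ 1) :
    (fun x => z + ((1 - κ : ℝ) : ℂ) * (x - z)) '' inn Ω s ⊆ inn Ω ((1 - κ) * s + κ * t) := by
  rintro _ ⟨x, hx, rfl⟩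
  intro y hy
  simp only at hy
  set R : ℝ := (1 - κ) * s + κ * t with hR
  set c : ℂ := z + ((1 - κ : ℝ) : ℂ) * (x - z) with hc
  have hyR : ‖y - c‖ < R := by simpa [dist_eq_norm] using hy
  have hRpos : 0 < R := lt_of_le_of_lt (norm_nonneg _) hyR
  have hp : x + (s / R) • (y - c) ∈ Ω := by
    apply hx
    rw [Metric.mem_ball, dist_eq_norm, add_sub_cancel_left, norm_smul, Real.norm_eq_abs,
      abs_of_pos (by positivity), div_mul_eq_mul_div, div_lt_iff₀ hRpos]
    exact mul_lt_mul_of_pos_left hyR hs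
  have hq : z + (t / R) • (y - c) ∈ Ω := by
    apply hz
    rw [Metric.mem_ball, dist_eq_norm, add_sub_cancel_left, norm_smul, Real.norm_eq_abs,
      abs_of_pos (by positivity), div_mul_eq_mul_div, div_lt_iff₀ hRpos]
    exact mul_lt_mul_of_pos_left hyR ht
  have hcomb := hΩ.convex hp hq (sub_nonneg.mpr h1) h0 (by ring)
  have : (1 - κ) • (x + (s / R) • (y - c)) + κ • (z + (t / R) • (y - c)) = y := by
    have h3 : (1 - κ) • (x + (s / R) • (y - c)) + κ • (z + (t / R) • (y - c))
        = ((1 - κ) • x + κ • z) + (((1 - κ) * s + κ * t) / R) • (y - c) := by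
      simp only [smul_add, Complex.real_smul]
      push_cast
      ring
    rw [h3, ← hR, div_self hRpos.ne', one_smul, hc]
    simp only [Complex.real_smul]
    push_cast
    ring
  rwa [this] at hcomb

theorem stab_ar_mono {S T : Set ℂ} (hT : Bornology.IsBounded T) (h : S ⊆ T) : ar S ≤ ar T := by
  unfold ar
  exact ENNReal.toReal_mono hT.measure_lt_top.ne (measure_mono h)

theorem h1_stability {Ω : Set ℂ} (hΩ : Dom Ω) {r : ℝ} (hr : 0 < r)
    (har : ar (inn Ω r) = Real.pi * r ^ 2) :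
    ∃ C : ℝ, 0 < C ∧ ∃ τ0 : ℝ, 0 < τ0 ∧ ∀ Ω' : Set ℂ, Dom Ω' → ∀ τ, 0 < τ → τ < τ0 →
      Ω' ⊆ Metric.thickening τ Ω → Ω ⊆ Metric.thickening τ Ω' →
      1 / h1 Ω' ≤ r + (ar (inn Ω' r) - Real.pi * r ^ 2) / (mw (inn Ω r) + 2 * Real.pi * r)
        + C * τ ^ 2 := by
  have hpi := Real.pi_pos
  -- a point deep inside
  have hdeep : ∃ η : ℝ, 0 < η ∧ ∃ z, z ∈ inn Ω (r + η) := by
    by_contra hcon
    push Not at hcon
    have hM : 0 ≤ mw (inn Ω r) := mw_nonneg _
    have harpos : 0 < ar (inn Ω r) := by rw [har]; positivity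
    set δ : ℝ := ar (inn Ω r) / (2 * (mw (inn Ω r) + 1)) with hδ
    have hδpos : 0 < δ := by positivity
    have hempty : inn Ω (r + δ) = ∅ := by
      ext w; simp [hcon δ hδpos w]
    have h1 := ar_inn_le hΩ hr hδpos
    rw [hempty] at h1
    have h2 : ar (∅ : Set ℂ) = 0 := by simp [ar]
    rw [h2, zero_add] at h1
    have h3 : δ * mw (inn Ω r) ≤ ar (inn Ω r) / 2 := by
      rw [hδ, div_mul_eq_mul_div, div_le_div_iff₀ (by positivity) (by norm_num)]
      nlinarith
    linarith
  obtain ⟨η, hη, z, hz⟩ := hdeep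
  set M : ℝ := mw Ω with hMdef
  have hM0 : 0 ≤ M := mw_nonneg _
  set K : ℝ := mw (inn Ω r) with hKdef
  have hK0 : 0 ≤ K := mw_nonneg _
  have hbd : ∀ s, 0 < s → Bornology.IsBounded (inn Ω s) := fun s hs =>
    hΩ.bounded.subset (inn_subset hs)
  have hMle : ∀ s, 0 < s → mw (inn Ω s) ≤ M := fun s hs => mw_mono hΩ.bounded (inn_subset hs)
  set C0 : ℝ := M / η with hC0
  have hC00 : 0 ≤ C0 := by positivity
  -- lower bound for the width
  have hlow : ∀ x, 0 ≤ x → x ≤ η → K - C0 * x ≤ mw (inn Ω (r + x)) := by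
    intro x hx0 hxη
    have hκ1 : x / η ≤ 1 := (div_le_one hη).mpr hxη
    have hsub := stab_homothety_inn hΩ hr (by positivity : 0 < r + η) hz
      (by positivity : 0 ≤ x / η) hκ1
    have hrad : (1 - x / η) * r + x / η * (r + η) = r + x := by field_simp; ring
    rw [hrad] at hsub
    have h1 := mw_mono (hbd (r + x) (by positivity)) hsub
    rw [mw_homothety (hbd r hr) z (sub_nonneg.mpr hκ1)] at h1
    have h2 : x / η * K ≤ C0 * x := by
      rw [hC0, div_mul_eq_mul_div, div_mul_eq_mul_div, mul_comm M x]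
      exact div_le_div_of_nonneg_right (mul_le_mul_of_nonneg_left (hMle r hr) hx0) hη.le
    have h3 : (1 - x / η) * K = K - x / η * K := by ring
    rw [← hKdef, h3] at h1
    linarith
  have hup : ∀ x, 0 ≤ x → x < r → mw (inn Ω (r - x)) ≤ K + C0 * x := by
    intro x hx0 hxr
    have hxη : 0 < x + η := by positivity
    have hκ1 : x / (x + η) ≤ 1 := (div_le_one hxη).mpr (by linarith)
    have hsub := stab_homothety_inn hΩ (by linarith : 0 < r - x) (by positivity : 0 < r + η) hz
      (by positivity : 0 ≤ x / (x + η)) hκ1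
    have hrad : (1 - x / (x + η)) * (r - x) + x / (x + η) * (r + η) = r := by
      field_simp; ring
    rw [hrad] at hsub
    have h1 := mw_mono (hbd r hr) hsub
    rw [mw_homothety (hbd (r - x) (by linarith)) z (sub_nonneg.mpr hκ1)] at h1
    have h4 : mw (inn Ω (r - x)) ≤ M := hMle _ (by linarith)
    have h5 : 0 ≤ mw (inn Ω (r - x)) := mw_nonneg _
    have h2 : x / (x + η) * mw (inn Ω (r - x)) ≤ C0 * x := by
      have h6 : x / (x + η) ≤ x / η := div_le_div_of_nonneg_left hx0 hη (by linarith)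
      calc x / (x + η) * mw (inn Ω (r - x)) ≤ x / η * M :=
            mul_le_mul h6 h4 h5 (by positivity)
        _ = C0 * x := by rw [hC0]; ring
    have h3 : (1 - x / (x + η)) * mw (inn Ω (r - x))
        = mw (inn Ω (r - x)) - x / (x + η) * mw (inn Ω (r - x)) := by ring
    rw [← hKdef, h3] at h1
    linarith
  set D : ℝ := K + 2 * Real.pi * r with hD
  have hDpos : 0 < D := by positivity
  set q : ℝ := M / D with hq
  have hq0 : 0 ≤ q := by positivity
  set C : ℝ := C0 * (q + 1) * (q + 2) / D + 1 with hC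
  have hCpos : 0 < C := by positivity
  have hCD : C0 * (q + 1) * (q + 2) ≤ C * D := by
    rw [hC, add_mul, div_mul_cancel₀ _ hDpos.ne']; linarith
  refine ⟨C, hCpos, min (1 / C) (min (η / (q + 2)) (r / (q + 2))), by positivity, ?_⟩
  intro Ω' hΩ' τ hτ hτ0 hsub1 hsub2
  have hτ1 : C * τ ≤ 1 := by
    have : τ < 1 / C := lt_of_lt_of_le hτ0 (min_le_left _ _)
    rw [lt_div_iff₀ hCpos] at this
    linarith
  have hτ2 : (q + 2) * τ ≤ η := by
    have : τ < η / (q + 2) := lt_of_lt_of_le hτ0 (le_trans (min_le_right _ _) (min_le_left _ _))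
    rw [lt_div_iff₀ (by positivity)] at this
    linarith
  have hτ3 : (q + 2) * τ < r := by
    have : τ < r / (q + 2) := lt_of_lt_of_le hτ0 (le_trans (min_le_right _ _) (min_le_right _ _))
    rw [lt_div_iff₀ (by positivity)] at this
    linarith
  have hqτ0 : 0 ≤ q * τ := by positivity
  have hτ2' : q * τ + 2 * τ ≤ η := by rw [← add_mul]; exact hτ2
  have hτ3' : q * τ + 2 * τ < r := by rw [← add_mul]; exact hτ3
  have hτr : τ < r := by linarith
  -- inclusions
  have hincl1 : ∀ s, inn Ω' s ⊆ inn Ω (s - τ) := fun s => stab_inn_sub hΩ hτ hsub1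
  have hincl2 : ∀ s, inn Ω (s + τ) ⊆ inn Ω' s := fun s => by
    have := stab_inn_sub (A := Ω) (B := Ω') (s := s + τ) hΩ' hτ hsub2
    simpa using this
  have hbd' : ∀ s, 0 < s → Bornology.IsBounded (inn Ω' s) := fun s hs =>
    hΩ'.bounded.subset (inn_subset hs)
  set a : ℝ := ar (inn Ω' r) - Real.pi * r ^ 2 with ha
  have ha1 : a ≤ M * τ := by
    have h1 : ar (inn Ω' r) ≤ ar (inn Ω (r - τ)) :=
      stab_ar_mono (hbd _ (by linarith)) (hincl1 r)
    have h2 := ar_inn_le hΩ (s := r - τ) (δ := τ) (by linarith) hτ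
    rw [sub_add_cancel, har] at h2
    have h3 := hMle (r - τ) (by linarith)
    have h4 : τ * mw (inn Ω (r - τ)) ≤ τ * M := mul_le_mul_of_nonneg_left h3 hτ.le
    linarith
  have ha2 : -(M * τ) ≤ a := by
    have h1 : ar (inn Ω (r + τ)) ≤ ar (inn Ω' r) :=
      stab_ar_mono (hbd' _ hr) (hincl2 r)
    have h2 := ar_inn_le hΩ hr hτ
    rw [har] at h2
    have h3 := hMle r hr
    have h4 : τ * mw (inn Ω r) ≤ τ * M := mul_le_mul_of_nonneg_left h3 hτ.le
    linarith
  have haD : a / D ≤ q * τ := by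
    rw [hq, div_mul_eq_mul_div]
    exact div_le_div_of_nonneg_right ha1 hDpos.le
  have haD2 : -(q * τ) ≤ a / D := by
    rw [hq, div_mul_eq_mul_div, ← neg_div]
    exact div_le_div_of_nonneg_right ha2 hDpos.le
  set δ : ℝ := a / D + C * τ ^ 2 with hδ
  have hδD : δ * D = a + C * D * τ ^ 2 := by
    rw [hδ, add_mul, div_mul_cancel₀ _ hDpos.ne']; ring
  have hCτ2 : C * τ ^ 2 ≤ τ := by
    calc C * τ ^ 2 = (C * τ) * τ := by ring
      _ ≤ 1 * τ := mul_le_mul_of_nonneg_right hτ1 hτ.le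
      _ = τ := one_mul τ
  have hCτ20 : 0 < C * τ ^ 2 := by positivity
  have hδ1 : δ ≤ (q + 1) * τ := by
    have : (q + 1) * τ = q * τ + τ := by ring
    rw [hδ, this]; linarith
  have hq1 : (q + 1) * τ = q * τ + τ := by ring
  have hq2 : (q + 2) * τ = q * τ + 2 * τ := by ring
  have hδ2 : -(q * τ) ≤ δ := by rw [hδ]; linarith
  have hgoal : ar (inn Ω' (r + δ)) ≤ Real.pi * (r + δ) ^ 2 := by
    rcases lt_trichotomy δ 0 with hneg | hzero | hpos
    · -- δ < 0
      set d : ℝ := -δ with hd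
      have hdpos : 0 < d := by rw [hd]; linarith
      have hdq : d ≤ q * τ := by rw [hd]; linarith
      have hrd : r + δ = r - d := by rw [hd]; ring
      rw [hrd]
      have hqτ : q * τ + τ < r := by linarith
      have hrdpos : 0 < r - d - τ := by linarith
      have h1 := ar_inn_le hΩ' (s := r - d) (δ := d) (by linarith) hdpos
      rw [sub_add_cancel] at h1
      have h2 : mw (inn Ω' (r - d)) ≤ mw (inn Ω (r - d - τ)) :=
        mw_mono (hbd _ hrdpos) (hincl1 _)
      have h3 := hup (d + τ) (by linarith) (by linarith)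
      rw [show r - (d + τ) = r - d - τ by ring] at h3
      have h4 : d * mw (inn Ω' (r - d)) ≤ d * (K + C0 * (d + τ)) :=
        mul_le_mul_of_nonneg_left (le_trans h2 h3) hdpos.le
      have h5 : a + d * D = -(C * D * τ ^ 2) := by
        have : d * D = -(a + C * D * τ ^ 2) := by rw [← hδD, hd]; ring
        linarith
      have h6 : C0 * (d * (d + τ)) ≤ C * D * τ ^ 2 := by
        have h7 : d * (d + τ) ≤ ((q + 1) * τ) * ((q + 2) * τ) := by
          apply mul_le_mul
          · linarith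
          · linarith
          · linarith
          · linarith
        calc C0 * (d * (d + τ)) ≤ C0 * (((q + 1) * τ) * ((q + 2) * τ)) :=
              mul_le_mul_of_nonneg_left h7 hC00
          _ = (C0 * (q + 1) * (q + 2)) * τ ^ 2 := by ring
          _ ≤ (C * D) * τ ^ 2 := mul_le_mul_of_nonneg_right hCD (by positivity)
      have h8 : ar (inn Ω' r) = Real.pi * r ^ 2 + a := by rw [ha]; ring
      have h9 : 0 ≤ Real.pi * d ^ 2 := by positivity
      have h10 : d * (K + C0 * (d + τ)) = d * D - 2 * Real.pi * r * d + C0 * (d * (d + τ)) := by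
        rw [hD]; ring
      have h11 : Real.pi * (r - d) ^ 2 = Real.pi * r ^ 2 - 2 * Real.pi * r * d + Real.pi * d ^ 2 := by
        ring
      rw [h11]
      linarith
    · -- δ = 0
      rw [hzero, add_zero]
      have h1 : a = -(C * D * τ ^ 2) := by
        rw [hzero, zero_mul] at hδD; linarith
      have h2 : 0 ≤ C * D * τ ^ 2 := by positivity
      have h8 : ar (inn Ω' r) = Real.pi * r ^ 2 + a := by rw [ha]; ring
      linarith
    · -- δ > 0
      rcases (inn Ω' (r + δ)).eq_empty_or_nonempty with hem | hne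
      · rw [hem]
        have : ar (∅ : Set ℂ) = 0 := by simp [ar]
        rw [this]; positivity
      · have h1 := le_ar_inn hΩ' hr hpos hne
        have hxle : δ + τ ≤ η := by linarith
        have h2 : mw (inn Ω (r + δ + τ)) ≤ mw (inn Ω' (r + δ)) :=
          mw_mono (hbd' _ (by linarith)) (hincl2 _)
        have h3 := hlow (δ + τ) (by linarith) hxle
        rw [show r + (δ + τ) = r + δ + τ by ring] at h3
        have h4 : δ * (K - C0 * (δ + τ)) ≤ δ * mw (inn Ω' (r + δ)) :=
          mul_le_mul_of_nonneg_left (le_trans h3 h2) hpos.le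
        have h6 : C0 * (δ * (δ + τ)) ≤ C * D * τ ^ 2 := by
          have h7 : δ * (δ + τ) ≤ ((q + 1) * τ) * ((q + 2) * τ) := by
            apply mul_le_mul hδ1 _ (by linarith) (by positivity)
            linarith
          calc C0 * (δ * (δ + τ)) ≤ C0 * (((q + 1) * τ) * ((q + 2) * τ)) :=
                mul_le_mul_of_nonneg_left h7 hC00
            _ = (C0 * (q + 1) * (q + 2)) * τ ^ 2 := by ring
            _ ≤ (C * D) * τ ^ 2 := mul_le_mul_of_nonneg_right hCD (by positivity)
        have h8 : ar (inn Ω' r) = Real.pi * r ^ 2 + a := by rw [ha]; ring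
        have h9 : 0 ≤ Real.pi * δ ^ 2 := by positivity
        have h10 : δ * (K - C0 * (δ + τ)) = δ * D - 2 * Real.pi * r * δ - C0 * (δ * (δ + τ)) := by
          rw [hD]; ring
        have h11 : Real.pi * (r + δ) ^ 2
            = Real.pi * r ^ 2 + 2 * Real.pi * r * δ + Real.pi * δ ^ 2 := by ring
        rw [h11]
        linarith
  have hrδ : 0 < r + δ := by linarith
  have hfin := inv_le_h1 hΩ' hrδ hgoal
  have hh1 : 0 < h1 Ω' := lt_of_lt_of_le (by positivity) hfin
  have : 1 / h1 Ω' ≤ r + δ := by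
    rw [div_le_iff₀ hh1]
    rw [div_le_iff₀ hrδ] at hfin
    linarith
  calc 1 / h1 Ω' ≤ r + δ := this
    _ = r + a / D + C * τ ^ 2 := by rw [hδ]; ring

end

end Pool.Agent.Lib.MP_4cfb03_an
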